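import Pool.Agent.P.MP_6b977f_mp.RG.IfaceB

/-! The first moment bound with the parameters of the assembly. -/

namespace Pool.Agent.P.MP_6b977f_mp.RG

open Finset MeasureTheory Real Filter Topology
open scoped Classical

theorem ev_rpow {a b : ℝ} (C : ℝ) (h : a < b) :
    ∀ᶠ N : ℕ in atTop, C * (N : ℝ) ^ a ≤ (N : ℝ) ^ b := by
  have h1 : Tendsto (fun N : ℕ => (N : ℝ) ^ (b - a)) atTop atTop :=
    (tendsto_rpow_atTop (by linarith)).comp tendsto_natCast_atTop_atTop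
  filter_upwards [h1.eventually_ge_atTop C, eventually_ge_atTop 1] with N h2 h3
  have : (0 : ℝ) < N := by exact_mod_cast h3
  calc C * (N : ℝ) ^ a ≤ (N : ℝ) ^ (b - a) * (N : ℝ) ^ a :=
        mul_le_mul_of_nonneg_right h2 (by positivity)
    _ = _ := by rw [← rpow_add this]; congr 1; ring

theorem norm_sq_le {ι : Type} [Fintype ι] (z : ι → ℝ) : ‖z‖ ^ 2 ≤ ∑ o, z o ^ 2 := by
  have h : ‖z‖ ≤ √(∑ o, z o ^ 2) := (pi_norm_le_iff_of_nonneg (sqrt_nonneg _)).2 fun o =>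
    abs_le_sqrt (single_le_sum (f := fun o => z o ^ 2) (fun _ _ => sq_nonneg _) (mem_univ o))
  calc ‖z‖ ^ 2 ≤ √(∑ o, z o ^ 2) ^ 2 := pow_le_pow_left₀ (norm_nonneg _) h 2
    _ = _ := sq_sqrt (by positivity)

theorem near {N : ℕ} {f ψ : Fin N → ℝ} {g : ℝ} (hg : 0 < g) (hg1 : g ≤ 1)
    (hψ : ∑ x, ψ x ^ 2 = N) (h : ∑ x, (f x - ψ x) ^ 2 ≤ g ^ 2 * N) :
    ∑ x, f x ^ 2 ≤ N * (1 + 3 * g) ∧ N * (1 - 3 * g) ≤ ∑ x, f x ^ 2 := by
  have n0 : (0 : ℝ) ≤ N := Nat.cast_nonneg N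
  have k1 : ∀ x, g * f x ^ 2 ≤ g * (1 + g) * ψ x ^ 2 + (1 + g) * (f x - ψ x) ^ 2 := fun x => by
    nlinarith [sq_nonneg (g * ψ x - (f x - ψ x))]
  have k2 : ∀ x, g * (1 - g) * ψ x ^ 2 ≤ g * f x ^ 2 + (f x - ψ x) ^ 2 := fun x => by
    nlinarith [sq_nonneg (g * ψ x + (f x - ψ x)), mul_nonneg hg.le (sq_nonneg (f x - ψ x))]
  have s1 := sum_le_sum fun x (_ : x ∈ univ) => k1 x
  have s2 := sum_le_sum fun x (_ : x ∈ univ) => k2 x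
  simp only [sum_add_distrib, ← mul_sum, hψ] at s1 s2
  constructor
  · refine le_of_mul_le_mul_left (s1.trans ?_) hg
    nlinarith [mul_le_mul_of_nonneg_left h (by linarith : 0 ≤ 1 + g), mul_nonneg n0 (sq_nonneg g),
      mul_nonneg (mul_nonneg n0 (sq_nonneg g)) (sub_nonneg.2 hg1)]
  · refine le_of_mul_le_mul_left ?_ hg
    nlinarith [mul_nonneg n0 (sq_nonneg g)]

theorem defect {d N : ℕ} (M : Cfg d N) {f ψ : Fin N → ℝ} {lam e1 e2 : ℝ} (hl : |lam| ≤ d)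
    (h1 : ∑ x, (adj M ψ x - lam * ψ x) ^ 2 ≤ e1) (h2 : ∑ x, (f x - ψ x) ^ 2 ≤ e2) :
    ∑ x, (adj M f x - lam * f x) ^ 2 ≤ 3 * e1 + 6 * d ^ 2 * e2 := by
  have k : ∀ x, (adj M f x - lam * f x) ^ 2 ≤ 3 * (adj M ψ x - lam * ψ x) ^ 2 +
      3 * adj M (fun y => f y - ψ y) x ^ 2 + 3 * lam ^ 2 * (f x - ψ x) ^ 2 := fun x => by
    have : adj M (fun y => f y - ψ y) x = adj M f x - adj M ψ x := by simp [adj]
    rw [this]
    nlinarith [sq_nonneg ((adj M ψ x - lam * ψ x) - (adj M f x - adj M ψ x)),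
      sq_nonneg ((adj M ψ x - lam * ψ x) + lam * (f x - ψ x)),
      sq_nonneg ((adj M f x - adj M ψ x) + lam * (f x - ψ x))]
  have s := sum_le_sum fun x (_ : x ∈ univ) => k x
  simp only [sum_add_distrib, ← mul_sum] at s
  have a := adj_sq_le M fun y => f y - ψ y
  have l2 : lam ^ 2 ≤ d ^ 2 := sq_le_sq' (abs_le.1 hl).1 (abs_le.1 hl).2
  have p : 0 ≤ ∑ x, (f x - ψ x) ^ 2 := by positivity
  nlinarith [mul_le_mul l2 h2 p (by positivity), mul_le_mul_of_nonneg_left h2 (sq_nonneg (d : ℝ))]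

theorem bulk_sq {d : ℕ} (hd : 3 ≤ d) {κ lam : ℝ} (hκ : 0 < κ) (h : |lam| ≤ 2 * √(d - 1) - κ) :
    lam ^ 2 ≤ 4 * (d - 1) ∧ |lam| ≤ d := by
  have d3 : (3 : ℝ) ≤ d := by exact_mod_cast hd
  have s := sq_sqrt (by linarith : (0 : ℝ) ≤ d - 1)
  have a := abs_nonneg lam
  have h1 : lam ^ 2 ≤ 4 * (d - 1) := by rw [← sq_abs]; nlinarith
  exact ⟨h1, abs_le_of_sq_le_sq' (by nlinarith [sq_nonneg ((d : ℝ) - 2)]) (by linarith) |> abs_le.2⟩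

theorem exp_T {N : ℕ} (hN : 1 ≤ N) {b : ℝ} (hb : 0 ≤ b) (C : ℝ) :
    exp (C * √(b * log N) ^ 2) = (N : ℝ) ^ (C * b) := by
  have N1 : (1 : ℝ) ≤ N := by exact_mod_cast hN
  rw [sq_sqrt (mul_nonneg hb (log_nonneg N1)), rpow_def_of_pos (by linarith)]
  congr 1
  ring

theorem ev_T {b : ℝ} (hb : 0 < b) (C : ℝ) : ∀ᶠ N : ℕ in atTop, C ≤ √(b * log N) :=
  (tendsto_sqrt_atTop.comp ((tendsto_log_atTop.comp tendsto_natCast_atTop_atTop).const_mul_atTop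
    hb)).eventually_ge_atTop C

theorem core (hKEY : S_KEY) (d : ℕ) (hd : 3 ≤ d) (a : ℝ) (ha : 0 < a) (ha' : a ≤ 1 / 100) :
    ∃ Ce : ℝ, 1 ≤ Ce ∧ ∀ᶠ N : ℕ in atTop, ∀ (lam' : ℝ) (K : Type) (g : K → St d → ℝ) (c : K → ℝ)
      (B : Finset (Cfg d N)), B ⊆ Cf d N → |lam'| ≤ d →
      (∀ M ∈ B, LD M lam' ((N : ℝ) ^ (-(2 * a))) ≤ ell d lam' + (N : ℝ) ^ (-a) ∧
        ∃ ψ lam, Eig M ψ lam ∧ |lam - lam'| ≤ 1 / N ∧ ∀ φ : Fin N → ℤ,
          ∑ x, (((N : ℝ) ^ (-a)) ^ 4 * φ x - ψ x) ^ 2 ≤ ((N : ℝ) ^ (-a)) ^ 2 * N →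
          ∀ k, ∑ x, g k (star M φ x) ≤ N * c k) →
      (∀ (μ : Law d) (η : ℝ), μ.Sym → 0 < η →
        μ.E (fun s => Wd lam' (re (((N : ℝ) ^ (-a)) ^ 4) s) ^ 2) ≤ Ce * (N : ℝ) ^ (-a) →
        μ.E (fun s => ‖re (((N : ℝ) ^ (-a)) ^ 4) s‖ ^ 2) ≤ 4 * (d + 1) →
        |μ.E (fun s => re (((N : ℝ) ^ (-a)) ^ 4) s none ^ 2) - 1| ≤ 3 * (N : ℝ) ^ (-a) →
        (∀ k, μ.E (g k) ≤ c k) → Ce * (N : ℝ) ^ (-a) ≤ μ.gap (((N : ℝ) ^ (-a)) ^ 4) η lam') →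
      (#B : ℝ) ≤ exp (-(N : ℝ) ^ (1 - a)) * #(Cf d N) := by
  obtain ⟨C, hC, hK⟩ := hKEY d (by omega)
  have d3 : (3 : ℝ) ≤ d := by exact_mod_cast hd
  refine ⟨17 * C + 3 + (3 + 6 * d ^ 2), by nlinarith, ?_⟩
  filter_upwards [eventually_ge_atTop 1, ev_rpow 2 (by linarith : -a < 0),
    ev_rpow (C * 2 * 20 + 2) (by linarith : 1 / 2 + 4 * a + 1 / 5 < 1 - a),
    ev_rpow 4 (by linarith : 1 + (1 / 2 + 4 * a) < 2)] with N n1 n2 n3 n4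
  intro lam' K g c B hB hl h1 h2
  have N1 : (1 : ℝ) ≤ N := by exact_mod_cast n1
  have N0 : (0 : ℝ) < N := by linarith
  rw [rpow_zero] at n2
  have e2 : (N : ℝ) ^ (-(2 * a)) = ((N : ℝ) ^ (-a)) ^ 2 := by
    rw [← rpow_natCast, ← rpow_mul N0.le]; congr 1; push_cast; ring
  have e1 : (N : ℝ) ^ (1 - a) = N * (N : ℝ) ^ (-a) := by
    rw [sub_eq_add_neg, rpow_add N0, rpow_one]
  have e4 : ((N : ℝ) ^ (1 / 2 + 4 * a)) ^ 2 * (((N : ℝ) ^ (-a)) ^ 4) ^ 2 = N := by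
    rw [← mul_pow, ← rpow_natCast _ 4, ← rpow_mul N0.le, ← rpow_add N0, ← rpow_natCast,
      ← rpow_mul N0.le]
    norm_num
    rw [show (1 / 2 + 4 * a + -(a * 4)) * 2 = 1 by ring, rpow_one]
  have e5 : 1 / (N : ℝ) ≤ ((N : ℝ) ^ (-a)) ^ 4 := by
    rw [← rpow_natCast, ← rpow_mul N0.le, one_div, ← rpow_neg_one]
    exact rpow_le_rpow_of_exponent_le N1 (by push_cast; linarith)
  have r1 : 1 ≤ (N : ℝ) ^ (1 / 2 + 4 * a) := one_le_rpow N1 (by linarith)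
  have e6 : log (2 * N * (2 * (N : ℝ) ^ (1 / 2 + 4 * a))) ≤ 10 * (N : ℝ) ^ (1 / 5 : ℝ) := by
    have b1 : 2 * N * (2 * (N : ℝ) ^ (1 / 2 + 4 * a)) ≤ (N : ℝ) ^ (2 : ℝ) := by
      rw [rpow_add N0, rpow_one] at n4; linarith
    refine (log_le_log (by positivity) b1).trans ?_
    rw [log_rpow N0]
    linarith [log_le_rpow_div N0.le (by norm_num : (0 : ℝ) < 1 / 5)]
  have r2 : 1 ≤ (N : ℝ) ^ (1 / 5 : ℝ) := one_le_rpow N1 (by norm_num)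
  rw [rpow_add N0, e1] at n3
  rw [e2] at h1
  rw [e1]
  have g0 : 0 < (N : ℝ) ^ (-a) := by positivity
  generalize (N : ℝ) ^ (-a) = u at *
  generalize (N : ℝ) ^ (1 / 2 + 4 * a) = R at *
  generalize (N : ℝ) ^ (1 / 5 : ℝ) = R' at *
  have u1 : u ≤ 1 / 2 := by linarith
  have u3 : u ^ 3 ≤ 1 / 2 := by nlinarith [pow_le_one₀ g0.le (by linarith : u ≤ 1) (n := 2)]
  have u8 : (u ^ 4) ^ 2 ≤ u := by
    calc (u ^ 4) ^ 2 = u * u ^ 7 := by ring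
      _ ≤ u := mul_le_of_le_one_right g0.le (pow_le_one₀ g0.le (by linarith))
  have := hK N lam' (u ^ 4) (u ^ 3 / 4) u u (2 * R) (ell d lam' + u)
    ((17 * C + 3 + (3 + 6 * d ^ 2)) * u) (K ⊕ Fin 4)
    (Sum.elim g ![fun s => Wd lam' (re (u ^ 4) s) ^ 2, fun s => ‖re (u ^ 4) s‖ ^ 2,
      fun s => re (u ^ 4) s none ^ 2, fun s => -1 * re (u ^ 4) s none ^ 2])
    (Sum.elim c ![(17 * C + 3 + (3 + 6 * d ^ 2)) * u, 4 * (d + 1), 1 + 3 * u, -(1 - 3 * u)]) B hB n1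
    hl (by positivity) (by positivity) (by nlinarith) g0 u1 (by linarith) ?_ ?_
  · refine this.trans ?_
    rw [mul_comm]
    refine mul_le_mul_of_nonneg_right (exp_le_exp.2 ?_) (Nat.cast_nonneg _)
    have f1 : C * (u ^ 4) ^ 2 / (u * (u ^ 3 / 4) ^ 2) = 16 * C * u := by field_simp; ring
    have f2 : C * (2 * R) * log (2 * N * (2 * R)) ≤ C * (2 * R) * (10 * R') :=
      mul_le_mul_of_nonneg_left e6 (by positivity)
    have f3 : 1 ≤ R * R' := one_le_mul_of_one_le_of_one_le r1 r2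
    rw [f1]
    nlinarith [mul_pos N0 g0, mul_pos hC (by linarith : 0 < R * R'),
      mul_nonneg (mul_pos N0 g0).le (sq_nonneg (d : ℝ))]
  · intro M hM
    obtain ⟨b1, ψ, lam, ⟨b2, b3⟩, b4, b5⟩ := h1 M hM
    have b6 : ∑ x, (adj M ψ x - lam' * ψ x) ^ 2 ≤ (u ^ 4) ^ 2 * N := by
      simp only [b2, ← sub_mul, mul_pow, ← mul_sum, b3]
      exact mul_le_mul_of_nonneg_right (sq_le_sq' (by linarith [(abs_le.1 (b4.trans e5)).1])
        (abs_le.1 (b4.trans e5)).2) N0.le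
    refine ⟨u ^ 2, ψ, by linarith, b1, b6, fun φ hφ => ?_⟩
    obtain ⟨c1, c2⟩ := near g0 (by linarith) b3 hφ
    have c3 : ∑ x, (u ^ 4 * φ x) ^ 2 ≤ 4 * N := by nlinarith
    refine ⟨?_, ?_⟩
    · simp only [mul_pow, ← mul_sum] at c3 ⊢
      refine le_of_mul_le_mul_left ?_ (by positivity : 0 < (u ^ 4) ^ 2)
      nlinarith
    · rintro (k | k)
      · exact b5 φ hφ k
      · fin_cases k
        · have := defect M hl b6 hφ
          simp only [Sum.elim_inr, Fin.zero_eta, Matrix.cons_val_zero, Wd_star]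
          have u2 : u ^ 2 ≤ u := by nlinarith
          nlinarith [mul_le_mul_of_nonneg_right u8 N0.le, mul_pos N0 g0, mul_pos hC (mul_pos N0 g0),
            mul_le_mul_of_nonneg_left (mul_le_mul_of_nonneg_right u2 N0.le) (sq_nonneg (d : ℝ))]
        · simp only [Sum.elim_inr, Fin.mk_one, Matrix.cons_val_one, Matrix.cons_val_zero, re_star]
          refine (sum_le_sum fun x _ => norm_sq_le _).trans ?_
          rw [sum_star M (fun y => u ^ 4 * (φ y : ℝ)) fun t => t ^ 2]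
          nlinarith
        · exact c1
        · simp only [Sum.elim_inr]
          change ∑ x, -1 * (u ^ 4 * (φ x : ℝ)) ^ 2 ≤ N * -(1 - 3 * u)
          rw [← mul_sum]
          linarith
  · intro μ η s1 s2 s3
    have t3 : μ.E (fun s => -1 * re (u ^ 4) s none ^ 2) ≤ -(1 - 3 * u) := s3 (.inr 3)
    have t2 : μ.E (fun s => re (u ^ 4) s none ^ 2) ≤ 1 + 3 * u := s3 (.inr 2)
    rw [Law.E_mul] at t3
    exact h2 μ η s1 s2 (s3 (.inr 0)) (s3 (.inr 1)) (abs_le.2 ⟨by linarith, by linarith⟩)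
      fun k => s3 (.inl k)

end Pool.Agent.P.MP_6b977f_mp.RG
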