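import Mathlib

/-! Counting pairings compatible with a labelling. -/

set_option autoImplicit false
set_option linter.unusedSectionVars false

namespace Pool.Agent.P.MP_6b977f_mp.RG.C22

open Finset

theorem fact_le (n : ℕ) (hn : 1 ≤ n) :
    (n.factorial : ℝ) ≤ Real.exp 1 * n * ((n : ℝ) / Real.exp 1) ^ n := by
  induction n, hn using Nat.le_induction with
  | base => simp [(Real.exp_pos 1).ne']
  | succ n hn ih =>
    have he := Real.exp_pos 1
    have hn0 : (0 : ℝ) < n := by exact_mod_cast hn
    have h1 : Real.exp 1 * (n : ℝ) ^ (n + 1) ≤ ((n : ℝ) + 1) ^ (n + 1) := by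
      have h2 : 1 - (((n : ℝ) + 1) / n)⁻¹ ≤ Real.log (((n : ℝ) + 1) / n) :=
        Real.one_sub_inv_le_log_of_pos (by positivity)
      have h3 : 1 - (((n : ℝ) + 1) / n)⁻¹ = 1 / ((n : ℝ) + 1) := by field_simp; ring
      have h4 : (1 : ℝ) ≤ ((n + 1 : ℕ) : ℝ) * Real.log (((n : ℝ) + 1) / n) := by
        rw [h3, div_le_iff₀ (by positivity)] at h2
        push_cast; linarith
      have h5 : Real.exp 1 ≤ (((n : ℝ) + 1) / n) ^ (n + 1) := by
        rw [← Real.log_pow] at h4
        exact (Real.exp_le_exp.2 h4).trans (Real.exp_log (by positivity)).le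
      rw [div_pow, le_div_iff₀ (by positivity)] at h5
      exact h5
    rw [Nat.factorial_succ]
    push_cast
    calc ((n : ℝ) + 1) * n.factorial
        ≤ ((n : ℝ) + 1) * (Real.exp 1 * n * ((n : ℝ) / Real.exp 1) ^ n) := by gcongr
      _ = Real.exp 1 * ((n : ℝ) + 1) * ((Real.exp 1 * (n : ℝ) ^ (n + 1)) / Real.exp 1 ^ (n + 1)) := by
          rw [div_pow]; field_simp; ring
      _ ≤ Real.exp 1 * ((n : ℝ) + 1) * ((((n : ℝ) + 1) ^ (n + 1)) / Real.exp 1 ^ (n + 1)) := by gcongr
      _ = _ := by rw [div_pow]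

theorem le_fact (n : ℕ) : ((n : ℝ) / Real.exp 1) ^ n ≤ n.factorial := by
  have h := Real.pow_div_factorial_le_exp (n : ℝ) (Nat.cast_nonneg n) n
  have hf : (0 : ℝ) < n.factorial := by exact_mod_cast n.factorial_pos
  rw [div_le_iff₀ hf] at h
  rw [div_pow, ← Real.exp_nat_mul, mul_one, div_le_iff₀ (Real.exp_pos _)]
  linarith

variable {α L : Type} [Fintype α] [DecidableEq α] [DecidableEq L]

/-- number of points with label `e` -/
def cnt (lab : α → L) (e : L) : ℕ := (univ.filter fun x => lab x = e).card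

theorem cnt_pos (lab : α → L) (x : α) : 0 < cnt lab (lab x) :=
  Finset.card_pos.2 ⟨x, by simp⟩

theorem cnt_le (lab : α → L) (e : L) : cnt lab e ≤ Fintype.card α :=
  Finset.card_le_univ _

theorem prod_lab (lab : α → L) (f : L → ℝ) :
    ∏ x, f (lab x) = ∏ e ∈ univ.image lab, f e ^ cnt lab e :=
  Finset.prod_comp f lab

theorem sum_cnt (lab : α → L) : ∑ e ∈ univ.image lab, cnt lab e = Fintype.card α := by
  rw [← Finset.card_univ, Finset.card_eq_sum_card_image lab]; rfl

theorem prod_fact_le (lab : α → L) :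
    ∏ e ∈ univ.image lab, ((cnt lab e).factorial : ℝ) ≤
      (Fintype.card α).factorial * (Real.exp 1 * Fintype.card α) ^ (univ.image lab).card *
        ∏ x, ((cnt lab (lab x) : ℝ) / Fintype.card α) := by
  have he := Real.exp_pos 1
  calc ∏ e ∈ univ.image lab, ((cnt lab e).factorial : ℝ)
      ≤ ∏ e ∈ univ.image lab, (Real.exp 1 * Fintype.card α) *
          ((cnt lab e : ℝ) / Real.exp 1) ^ cnt lab e := by
        refine Finset.prod_le_prod (fun _ _ => by positivity) fun e he' => ?_
        obtain ⟨x, -, rfl⟩ := Finset.mem_image.1 he'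
        refine (fact_le _ (cnt_pos lab x)).trans ?_
        have : (cnt lab (lab x) : ℝ) ≤ Fintype.card α := by exact_mod_cast cnt_le lab _
        gcongr
    _ = (Real.exp 1 * Fintype.card α) ^ (univ.image lab).card *
          ∏ x, ((cnt lab (lab x) : ℝ) / Real.exp 1) := by
        rw [Finset.prod_mul_distrib, Finset.prod_const,
          prod_lab lab fun e => (cnt lab e : ℝ) / Real.exp 1]
    _ = (Real.exp 1 * Fintype.card α) ^ (univ.image lab).card *
          (((Fintype.card α : ℝ) / Real.exp 1) ^ Fintype.card α *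
            ∏ x, ((cnt lab (lab x) : ℝ) / Fintype.card α)) := by
        congr 1
        rw [← Finset.card_univ (α := α), ← Finset.prod_const, ← Finset.prod_mul_distrib]
        refine Finset.prod_congr rfl fun x _ => ?_
        have : (0 : ℝ) < (univ : Finset α).card := by
          exact_mod_cast Finset.card_pos.2 ⟨x, Finset.mem_univ x⟩
        field_simp
    _ ≤ _ := by
        have h := le_fact (Fintype.card α)
        have hp : 0 ≤ ∏ x, ((cnt lab (lab x) : ℝ) / Fintype.card α) :=
          Finset.prod_nonneg fun _ _ => by positivity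
        calc _ ≤ (Real.exp 1 * Fintype.card α) ^ (univ.image lab).card *
            ((Fintype.card α).factorial * ∏ x, ((cnt lab (lab x) : ℝ) / Fintype.card α)) := by
              gcongr
          _ = _ := by ring

/-- permutations with a prescribed relabelling -/
theorem fiber_le (lab seq : α → L) :
    (univ.filter fun s : Equiv.Perm α => lab ∘ s = seq).card ≤
      ∏ e ∈ univ.image lab, (cnt lab e).factorial := by
  rcases (univ.filter fun s : Equiv.Perm α => lab ∘ s = seq).eq_empty_or_nonempty with h | ⟨s0, h0⟩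
  · rw [h]; simp
  · have h0' : lab ∘ s0 = seq := (Finset.mem_filter.1 h0).2
    have h1 : (univ.filter fun s : Equiv.Perm α => lab ∘ s = seq).card ≤
        (univ.filter fun g : Equiv.Perm α => lab ∘ g = lab).card := by
      refine Finset.card_le_card_of_injOn (fun s => s * s0⁻¹) (fun s hs => ?_)
        (fun s _ t _ h => mul_right_cancel h)
      have hs' : lab ∘ s = seq := (Finset.mem_filter.1 hs).2
      simp only [Finset.coe_filter, Finset.mem_univ, true_and, Set.mem_ofPred_eq]
      funext x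
      have := congrFun (hs'.trans h0'.symm) (s0⁻¹ x)
      simpa using this
    refine h1.trans ?_
    have h2 := DomMulAct.stabilizer_card' lab
    rw [Fintype.card_subtype] at h2
    rw [h2]
    refine le_of_eq (Finset.prod_congr rfl fun e _ => ?_)
    rw [Fintype.card_subtype]; rfl

/-- fixed-point-free involution -/
def IsPM (M : Equiv.Perm α) : Prop := ∀ h, M (M h) = h ∧ M h ≠ h

instance : DecidablePred (IsPM (α := α)) := fun M => by unfold IsPM; infer_instance

/-- a transversal of a pairing -/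
theorem exists_transversal (τ : Equiv.Perm α) (hτ : IsPM τ) :
    ∃ Hs : Finset α, (∀ x, x ∈ Hs ∨ τ x ∈ Hs) ∧
      ∀ f : α → ℝ, ∏ x, f x = ∏ x ∈ Hs, (f x * f (τ x)) := by
  let r := Fintype.equivFin α
  refine ⟨univ.filter fun x => r x < r (τ x), fun x => ?_, fun f => ?_⟩
  · simp only [Finset.mem_filter, Finset.mem_univ, true_and, (hτ x).1]
    rcases lt_trichotomy (r x) (r (τ x)) with h | h | h
    · exact Or.inl h
    · exact absurd (r.injective h).symm (hτ x).2
    · exact Or.inr h
  · rw [Finset.prod_mul_distrib,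
      ← Finset.prod_filter_mul_prod_filter_not univ (fun x => r x < r (τ x))]
    congr 1
    refine Finset.prod_nbij' τ τ (fun x hx => ?_) (fun x hx => ?_) (fun x _ => (hτ x).1)
      (fun x _ => (hτ x).1) (fun x _ => by rw [(hτ x).1])
    · simp only [Finset.mem_filter, Finset.mem_univ, true_and, (hτ x).1, not_lt] at hx ⊢
      exact lt_of_le_of_ne hx fun h => (hτ x).2 (r.injective h)
    · simp only [Finset.mem_filter, Finset.mem_univ, true_and, (hτ x).1, not_lt] at hx ⊢
      exact hx.le

theorem seq_sum_le (τ : Equiv.Perm α) (hτ : IsPM τ) (flip : L → L)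
    (T : Finset L) (ν : L → ℝ) (h0 : ∀ e, 0 ≤ ν e) (h1 : ∑ e ∈ T, ν e ≤ 1)
    (hs : ∀ e, ν (flip e) = ν e) (Sq : Finset (α → L))
    (hSq : ∀ q ∈ Sq, (∀ x, q x ∈ T) ∧ ∀ x, q (τ x) = flip (q x)) :
    ∑ q ∈ Sq, ∏ x, √(ν (q x)) ≤ 1 := by
  obtain ⟨Hs, hH, hprod⟩ := exists_transversal τ hτ
  have e1 : ∀ q ∈ Sq, ∏ x, √(ν (q x)) = ∏ x : Hs, ν (q x.1) := by
    intro q hq
    rw [hprod fun x => √(ν (q x)), Finset.prod_coe_sort Hs fun x => ν (q x)]
    refine Finset.prod_congr rfl fun x _ => ?_
    rw [(hSq q hq).2 x, hs, Real.mul_self_sqrt (h0 _)]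
  rw [Finset.sum_congr rfl e1]
  have inj : Set.InjOn (fun (q : α → L) (x : Hs) => q x.1) Sq := by
    intro q hq q' hq' h
    funext x
    rcases hH x with hx | hx
    · exact congrFun h ⟨x, hx⟩
    · have h2 : q (τ x) = q' (τ x) := congrFun h ⟨τ x, hx⟩
      rw [← (hτ x).1, (hSq q hq).2 (τ x), (hSq q' hq').2 (τ x), h2]
  calc ∑ q ∈ Sq, ∏ x : Hs, ν (q x.1)
      = ∑ f ∈ Sq.image (fun (q : α → L) (x : Hs) => q x.1), ∏ x : Hs, ν (f x) :=
        (Finset.sum_image (f := fun f : Hs → L => ∏ x : Hs, ν (f x)) inj).symm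
    _ ≤ ∑ f ∈ Fintype.piFinset (fun _ : Hs => T), ∏ x : Hs, ν (f x) := by
        refine Finset.sum_le_sum_of_subset_of_nonneg (fun f hf => ?_)
          fun _ _ _ => Finset.prod_nonneg fun _ _ => h0 _
        obtain ⟨q, hq, rfl⟩ := Finset.mem_image.1 hf
        exact Fintype.mem_piFinset.2 fun x => (hSq q hq).1 _
    _ = ∏ _x : Hs, ∑ e ∈ T, ν e := (Finset.prod_univ_sum _ _).symm
    _ ≤ 1 := Finset.prod_le_one (fun _ _ => Finset.sum_nonneg fun _ _ => h0 _) fun _ _ => h1

theorem cnt_comp (lab : α → L) (s : Equiv.Perm α) (e : L) : cnt (lab ∘ s) e = cnt lab e := by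
  unfold cnt
  exact Finset.card_bijective s s.bijective fun x => by simp

theorem cnt_flip (τ : Equiv.Perm α) (flip : L → L) (hf : ∀ e, flip (flip e) = e) (q : α → L)
    (hq : ∀ x, q (τ x) = flip (q x)) (e : L) : cnt q (flip e) = cnt q e := by
  unfold cnt
  refine (Finset.card_bijective τ τ.bijective fun x => ?_).symm
  simp only [Finset.mem_filter, Finset.mem_univ, true_and, hq]
  constructor
  · rintro rfl; rfl
  · intro h; rw [← hf (q x), h, hf]

theorem perm_count (τ : Equiv.Perm α) (hτ : IsPM τ) (flip : L → L) (hf : ∀ e, flip (flip e) = e)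
    (lab : α → L) :
    ((univ.filter fun s : Equiv.Perm α => ∀ x, lab (s (τ x)) = flip (lab (s x))).card : ℝ) *
        ∏ x, √((cnt lab (lab x) : ℝ) / Fintype.card α) ≤
      ∏ e ∈ univ.image lab, ((cnt lab e).factorial : ℝ) := by
  set S := univ.filter fun s : Equiv.Perm α => ∀ x, lab (s (τ x)) = flip (lab (s x)) with hS
  have hK : (0 : ℝ) ≤ ∏ e ∈ univ.image lab, ((cnt lab e).factorial : ℝ) :=
    Finset.prod_nonneg fun _ _ => by positivity
  rcases S.eq_empty_or_nonempty with h | ⟨s0, h0⟩
  · rw [h]; simpa using hK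
  have hsym : ∀ e, cnt lab (flip e) = cnt lab e := fun e => by
    rw [← cnt_comp lab s0, ← cnt_comp lab s0 e]
    exact cnt_flip τ flip hf _ (Finset.mem_filter.1 h0).2 e
  set ν : L → ℝ := fun e => (cnt lab e : ℝ) / Fintype.card α with hν
  have h1 : ∑ e ∈ univ.image lab, ν e ≤ 1 := by
    simp only [hν]
    rw [← Finset.sum_div, ← Nat.cast_sum, sum_cnt]
    exact div_self_le_one _
  have hseq := seq_sum_le τ hτ flip (univ.image lab) ν (fun e => by positivity) h1
    (fun e => by simp only [hν, hsym]) (S.image fun s : Equiv.Perm α => lab ∘ s) (by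
      intro q hq
      obtain ⟨s, hs, rfl⟩ := Finset.mem_image.1 hq
      exact ⟨fun x => Finset.mem_image_of_mem _ (Finset.mem_univ _), (Finset.mem_filter.1 hs).2⟩)
  calc (S.card : ℝ) * ∏ x, √(ν (lab x))
      = ∑ s ∈ S, ∏ x, √(ν ((lab ∘ s) x)) := by
        rw [← nsmul_eq_mul, ← Finset.sum_const]
        exact Finset.sum_congr rfl fun s _ => (Equiv.prod_comp s fun x => √(ν (lab x))).symm
    _ = ∑ q ∈ S.image (fun s : Equiv.Perm α => lab ∘ s),
          (S.filter fun s : Equiv.Perm α => lab ∘ s = q).card • ∏ x, √(ν (q x)) :=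
        Finset.sum_comp (fun q : α → L => ∏ x, √(ν (q x))) fun s : Equiv.Perm α => lab ∘ s
    _ ≤ ∑ q ∈ S.image (fun s : Equiv.Perm α => lab ∘ s),
          (∏ e ∈ univ.image lab, ((cnt lab e).factorial : ℝ)) * ∏ x, √(ν (q x)) := by
        refine Finset.sum_le_sum fun q _ => ?_
        rw [nsmul_eq_mul]
        refine mul_le_mul_of_nonneg_right ?_ (Finset.prod_nonneg fun _ _ => Real.sqrt_nonneg _)
        have h2 : (S.filter fun s : Equiv.Perm α => lab ∘ s = q).card ≤
            ∏ e ∈ univ.image lab, (cnt lab e).factorial :=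
          (Finset.card_le_card (Finset.filter_subset_filter _ (Finset.subset_univ _))).trans
            (fiber_le lab q)
        exact_mod_cast h2
    _ ≤ _ := by
        rw [← Finset.mul_sum]
        exact mul_le_of_le_one_right hK hseq

theorem double_count (flip : L → L) (lab : α → L) :
    (Fintype.card α).factorial *
        (univ.filter fun M : Equiv.Perm α => IsPM M ∧ ∀ x, lab (M x) = flip (lab x)).card =
      ∑ τ ∈ univ.filter (fun M : Equiv.Perm α => IsPM M),
        (univ.filter fun s : Equiv.Perm α => ∀ x, lab (s (τ x)) = flip (lab (s x))).card := by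
  have h1 : ∀ s : Equiv.Perm α,
      (univ.filter fun M : Equiv.Perm α => IsPM M ∧ ∀ x, lab (M x) = flip (lab x)).card =
      (univ.filter fun τ : Equiv.Perm α =>
        IsPM τ ∧ ∀ x, lab (s (τ x)) = flip (lab (s x))).card := by
    intro s
    refine Finset.card_bijective (fun M => s⁻¹ * M * s)
      ((Equiv.mulRight s).bijective.comp (Equiv.mulLeft s⁻¹).bijective) fun M => ?_
    rw [Finset.mem_filter, Finset.mem_filter]
    unfold IsPM
    simp only [Finset.mem_univ, true_and, Equiv.Perm.mul_apply,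
      Equiv.Perm.coe_inv, Equiv.apply_symm_apply]
    constructor
    · rintro ⟨h1, h2⟩
      refine ⟨fun h => ⟨by rw [(h1 _).1, Equiv.symm_apply_apply], fun e => (h1 (s h)).2 ?_⟩,
        fun x => h2 _⟩
      simpa using congrArg s e
    · rintro ⟨h1, h2⟩
      refine ⟨fun h => ⟨?_, fun e => (h1 (s.symm h)).2 ?_⟩, fun x => ?_⟩
      · simpa using congrArg s (h1 (s.symm h)).1
      · simp [e]
      · simpa using h2 (s.symm x)
  rw [← Fintype.card_perm, ← Finset.card_univ, ← smul_eq_mul, ← Finset.sum_const,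
    Finset.sum_congr rfl fun s _ => h1 s]
  simp only [Finset.card_filter, Finset.sum_filter]
  rw [Finset.sum_comm]
  refine Finset.sum_congr rfl fun τ _ => ?_
  by_cases h : IsPM τ <;> simp [h]

/-- CNT: the share of pairings compatible with a labelling -/
theorem cnt_main (flip : L → L) (hf : ∀ e, flip (flip e) = e) (lab : α → L) :
    ((univ.filter fun M : Equiv.Perm α => IsPM M ∧ ∀ x, lab (M x) = flip (lab x)).card : ℝ) ≤
      (univ.filter fun M : Equiv.Perm α => IsPM M).card *
        (Real.exp 1 * Fintype.card α) ^ (univ.image lab).card *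
        Real.exp (1 / 2 * ∑ x, Real.log ((cnt lab (lab x) : ℝ) / Fintype.card α)) := by
  have hpos : ∀ x, (0 : ℝ) < (cnt lab (lab x) : ℝ) / Fintype.card α := fun x => by
    have h1 : (0 : ℝ) < cnt lab (lab x) := by exact_mod_cast cnt_pos lab x
    have h2 : (0 : ℝ) < Fintype.card α := by
      exact_mod_cast Fintype.card_pos_iff.2 ⟨x⟩
    positivity
  set R : ℝ := ∏ x, √((cnt lab (lab x) : ℝ) / Fintype.card α) with hR
  have hR0 : 0 < R := Finset.prod_pos fun x _ => Real.sqrt_pos.2 (hpos x)
  have hRe : Real.exp (1 / 2 * ∑ x, Real.log ((cnt lab (lab x) : ℝ) / Fintype.card α)) = R := by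
    rw [Finset.mul_sum, Real.exp_sum]
    refine Finset.prod_congr rfl fun x _ => ?_
    rw [Real.sqrt_eq_rpow, Real.rpow_def_of_pos (hpos x), mul_comm]
  have hRR : ∏ x, ((cnt lab (lab x) : ℝ) / Fintype.card α) = R * R := by
    rw [hR, ← Finset.prod_mul_distrib]
    exact Finset.prod_congr rfl fun x _ => (Real.mul_self_sqrt (hpos x).le).symm
  have hF := prod_fact_le lab
  rw [hRR] at hF
  have hD := congrArg (fun n : ℕ => (n : ℝ) * R) (double_count flip lab)
  simp only [Nat.cast_mul, Nat.cast_sum] at hD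
  rw [Finset.sum_mul] at hD
  have hle : ∑ τ ∈ univ.filter (fun M : Equiv.Perm α => IsPM M),
      ((univ.filter fun s : Equiv.Perm α => ∀ x, lab (s (τ x)) = flip (lab (s x))).card : ℝ) * R ≤
      (univ.filter fun M : Equiv.Perm α => IsPM M).card *
        ∏ e ∈ univ.image lab, ((cnt lab e).factorial : ℝ) := by
    rw [← nsmul_eq_mul]
    exact Finset.sum_le_card_nsmul _ _ _ fun τ hτ =>
      perm_count τ (Finset.mem_filter.1 hτ).2 flip hf lab
  have hn : (0 : ℝ) < (Fintype.card α).factorial := by exact_mod_cast Nat.factorial_pos _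
  rw [hRe]
  refine le_of_mul_le_mul_left ?_ (mul_pos hn hR0)
  calc _ = _ := by rw [mul_right_comm, hD]
    _ ≤ _ := hle
    _ ≤ (univ.filter fun M : Equiv.Perm α => IsPM M).card * ((Fintype.card α).factorial *
        (Real.exp 1 * Fintype.card α) ^ (univ.image lab).card * (R * R)) := by gcongr
    _ = _ := by ring

end Pool.Agent.P.MP_6b977f_mp.RG.C22
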