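import Pool.Agent.P.MP_6b977f_mp.RG.IfaceA

/-! Step INF. -/

namespace Pool.Agent.P.MP_6b977f_mp.RG

open Finset MeasureTheory Real
open scoped Classical

namespace INFx

variable {ι : Type} [Fintype ι] (m : Mix ι) {v w : ι → ℝ}

theorem mom (hKER : S_KER) (hMIX : S_MIX) (hv : ∀ j, 0 < v j) (j : ι) :
    m.Ex v (fun y => y j ^ 2) = m.E (fun x => x j ^ 2) + v j := by
  rw [((hMIX ι m v hv).2.2.2.2.2.2 _ ((PG.coord j).pow 2)).2.1, ← m.E_const (v j), ← m.E_add]
  refine sum_congr rfl fun ω _ => congrArg _ ?_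
  obtain ⟨i, k0, k1, k2⟩ := hKER ι v (m.x ω) hv
  have p := (PG.coord j).sub (PG.const (m.x ω j))
  have i0 := (i _ (PG.const 1)).const_mul (m.x ω j ^ 2)
  have i1 := (i _ p).const_mul (2 * m.x ω j)
  calc _ = ∫ y, (m.x ω j ^ 2 * (1 * ker v (y - m.x ω)) +
        2 * m.x ω j * ((y j - m.x ω j) * ker v (y - m.x ω))) +
        (y j - m.x ω j) ^ 2 * ker v (y - m.x ω) := by
        congr 1
        funext y
        ring
    _ = _ := by
      rw [integral_add (i0.fun_add i1) (i _ (p.pow 2)), integral_add i0 i1, k2]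
      simp only [integral_const_mul, k0, k1]
      ring

theorem gib (hKER : S_KER) (hMIX : S_MIX) (hGIB : S_GIB) (hv : ∀ j, 0 < v j) (hw : ∀ j, 0 < w j) :
    m.ent v ≤ ∑ j, (log (2 * π * w j) / 2 + (m.E (fun x => x j ^ 2) + v j) / (2 * w j)) := by
  obtain ⟨i, k0, -⟩ := hKER ι w 0 hw
  obtain ⟨-, -, -, -, -, e1, M⟩ := hMIX ι m v hv
  have e : (fun y => log (ker w (y - 0))) =
      fun y => ∑ j, (-(log (2 * π * w j) / 2) * 1 + -(2 * w j)⁻¹ * y j ^ 2) := by
    funext y
    rw [ker, log_prod fun j _ => (g1_pos (hw j) _).ne']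
    refine sum_congr rfl fun j _ => ?_
    have := hw j
    rw [g1, log_div (exp_ne_zero _) (by positivity), log_exp, log_sqrt (by positivity), sub_zero]
    ring
  have i0 := (M _ (PG.const 1)).1
  have i2 j := (M _ ((PG.coord j).pow 2)).1
  refine (hGIB ι m v _ hv (fun y => ker_pos hw (y - 0)) (by simpa using i _ (PG.const 1)) k0.le
    (e ▸ PG.sum _ fun j _ => (PG.const _).add (((PG.coord j).pow 2).cmul _))).trans_eq ?_
  rw [e, Mix.Ex, neg_eq_iff_eq_neg, ← sum_neg_distrib]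
  simp only [sum_mul, add_mul, mul_assoc]
  rw [integral_finsetSum _ fun j _ => (i0.const_mul _).fun_add ((i2 j).const_mul _)]
  refine sum_congr rfl fun j _ => ?_
  rw [integral_add (i0.const_mul _) ((i2 j).const_mul _), integral_const_mul,
    show ∫ y, 1 * m.den v y = 1 from e1, integral_const_mul, ← mom m hKER hMIX hv, Mix.Ex]
  ring

end INFx

theorem p_INF (hKER : S_KER) (hMIX : S_MIX) (hGIB : S_GIB) (hHLO : S_HLO) (hFD : S_FD) (hFISH : S_FISH) :
    S_INF := by
  intro d P m κ t s hS hκ ht hs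
  have mono : MonotoneOn (P.Phi m κ) (Set.Ici 0) :=
    monotoneOn_of_deriv_nonneg (convex_Ici 0)
      (fun x hx => (hFD d P m κ x hκ hx).continuousAt.continuousWithinAt)
      (fun x hx => (hFD d P m κ x hκ (interior_subset hx)).differentiableAt.differentiableWithinAt)
      fun x hx => by
        obtain ⟨a, b⟩ := hFISH d P m κ x hS hκ (interior_subset hx)
        rw [(hFD d P m κ x hκ (interior_subset hx)).deriv, a]
        positivity
  refine le_of_forall_pos_le_add fun ε hε => ?_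
  obtain ⟨S, hS⟩ : ∃ S, S = ∑ j : VI d, m.E fun x => x (some j) ^ 2 := ⟨_, rfl⟩
  obtain ⟨u, hu⟩ : ∃ u, u = t + |S| / ε := ⟨_, rfl⟩
  have tu : t ≤ u := hu ▸ le_add_of_nonneg_right (by positivity)
  have v0 : 0 < κ ^ 2 + u := by nlinarith
  have c0 : 0 ≤ κ ^ 2 / P.cs ^ 2 := by positivity
  have h1 := INFx.gib m (v := vs d κ u) (w := fun j => j.elim (s ^ 2) fun _ => κ ^ 2 + u) hKER hMIX
    hGIB (fun j => by cases j; exacts [pow_pos hκ 2, v0]) fun j => by
      cases j; exacts [pow_pos hs 2, v0]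
  have h2 := hHLO _ (P.edge m) (P.ve κ u) (Fin.forall_fin_two.2 ⟨add_pos_of_pos_of_nonneg v0 c0, v0⟩)
  have h3 : log (2 * π * (κ ^ 2 + u)) ≤ log (2 * π * (κ ^ 2 + u + κ ^ 2 / P.cs ^ 2)) :=
    log_le_log (by positivity) (mul_le_mul_of_nonneg_left (by linarith) (by positivity))
  have h4 : S / (2 * (κ ^ 2 + u)) ≤ ε := by
    rw [div_le_iff₀ (by positivity)]
    have : ε * u = ε * t + |S| := by rw [hu]; field_simp
    nlinarith [le_abs_self S, abs_nonneg S, mul_nonneg hε.le ht, mul_pos hε (pow_pos hκ 2)]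
  have h5 : (Fintype.card (VI d) : ℝ) = d := by
    have := P.hd
    rw [Fintype.card_option, Fintype.card_fin, Nat.sub_add_cancel (by omega)]
  rw [Fintype.sum_option] at h1
  simp only [vs, Option.elim, sum_add_distrib, add_div _ (κ ^ 2 + u), ← sum_div, ← hS, sum_const,
    card_univ, nsmul_eq_mul, h5] at h1
  rw [Fin.sum_univ_two, show P.ve κ u 0 = κ ^ 2 + u + κ ^ 2 / P.cs ^ 2 from rfl,
    show P.ve κ u 1 = κ ^ 2 + u from rfl] at h2
  refine (mono ht (ht.trans tu) tu).trans ?_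
  have h6 : (d * κ ^ 2 + d * u) / (2 * (κ ^ 2 + u)) = d / 2 := by field_simp
  have h7 := mul_le_mul_of_nonneg_left (show log (2 * π * (κ ^ 2 + u)) + 1 ≤
    (P.edge m).ent (P.ve κ u) by linarith) (show (0 : ℝ) ≤ d / 2 by positivity)
  rw [Par.Phi]
  linarith

end Pool.Agent.P.MP_6b977f_mp.RG
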