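import Mathlib

/-! A Jensen type inequality: circle means of `log ‖1 - α w‖` against a positive kernel. -/

set_option autoImplicit false

namespace Pool.Agent.P.MP_6b977f_mp.RG.Jen

open Real Metric Complex Filter Topology InnerProductSpace

/-- The kernel `M (1 + B (1 - cos 2θ)) - Poisson`. -/
noncomputable def ker (M B R : ℝ) (w₀ w : ℂ) : ℝ :=
  M * (1 + B * (1 - (w ^ 2).re / R ^ 2)) - poissonKernel 0 w₀ w

variable {M B R : ℝ} {w₀ α β : ℂ}

lemma abs_c2 (hR : 0 < R) {w : ℂ} (hw : w ∈ sphere (0 : ℂ) |R|) : |(w ^ 2).re / R ^ 2| ≤ 1 := by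
  have h : ‖w‖ = R := by simpa [abs_of_pos hR] using hw
  rw [abs_div, abs_of_pos (pow_pos hR 2), div_le_one (pow_pos hR 2), ← h, ← norm_pow]
  exact abs_re_le_norm _

lemma pois_nonneg (hR : 0 < R) (h₀ : ‖w₀‖ < R) {w : ℂ} (hw : w ∈ sphere (0 : ℂ) |R|) :
    0 ≤ poissonKernel 0 w₀ w := by
  have h : ‖w‖ = R := by simpa [abs_of_pos hR] using hw
  simp only [poissonKernel_def, sub_zero, h]
  exact div_nonneg (sub_nonneg.2 (pow_le_pow_left₀ (norm_nonneg _) h₀.le 2)) (sq_nonneg _)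

lemma ker_nonneg (hR : 0 < R) (h₀ : ‖w₀‖ < R) (hM : (R + ‖w₀‖) / (R - ‖w₀‖) ≤ M) (hB : 0 ≤ B)
    {w : ℂ} (hw : w ∈ sphere (0 : ℂ) |R|) : 0 ≤ ker M B R w₀ w := by
  have h1 := re_herglotzRieszKernel_le (c := 0) (z := w) (w := w₀) (R := R)
    (by simpa [abs_of_pos hR] using hw) (by simpa using h₀)
  have h2 : poissonKernel 0 w₀ w ≤ M := by
    rw [poissonKernel_eq_re_herglotzRieszKernel]
    exact h1.trans (by simpa using hM)
  have h3 := pois_nonneg hR h₀ hw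
  have h4 := (abs_le.1 (abs_c2 hR hw)).2
  have := mul_nonneg (h3.trans h2) (mul_nonneg hB (sub_nonneg.2 h4))
  unfold ker
  nlinarith

lemma ker_le (hR : 0 < R) (h₀ : ‖w₀‖ < R) (hM : 0 ≤ M) (hB : 0 ≤ B)
    {w : ℂ} (hw : w ∈ sphere (0 : ℂ) |R|) : ker M B R w₀ w ≤ M * (1 + 2 * B) := by
  have h3 := pois_nonneg hR h₀ hw
  have h4 := (abs_le.1 (abs_c2 hR hw)).1
  have := mul_nonneg hM (mul_nonneg hB (show 0 ≤ 1 + (w ^ 2).re / R ^ 2 by linarith))
  unfold ker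
  nlinarith

lemma pois_cont (hR : 0 < R) (h₀ : ‖w₀‖ < R) :
    ContinuousOn (poissonKernel 0 w₀) (sphere (0 : ℂ) |R|) := by
  refine ContinuousOn.div (by fun_prop) (by fun_prop) fun w hw => pow_ne_zero _ ?_
  have h : ‖w‖ = R := by simpa [abs_of_pos hR] using hw
  simp only [sub_zero, norm_ne_zero_iff, sub_ne_zero]
  rintro rfl
  exact h₀.ne h

lemma ker_cont (hR : 0 < R) (h₀ : ‖w₀‖ < R) :
    ContinuousOn (ker M B R w₀) (sphere (0 : ℂ) |R|) :=
  ContinuousOn.sub (by fun_prop) (pois_cont hR h₀)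

lemma int_log (α : ℂ) (R : ℝ) : CircleIntegrable (fun w => Real.log ‖1 - α * w‖) 0 R :=
  MeromorphicOn.circleIntegrable_log_norm fun _ _ => by fun_prop

lemma int_ker (hR : 0 < R) (h₀ : ‖w₀‖ < R) {f : ℂ → ℝ} (hf : CircleIntegrable f 0 R) :
    CircleIntegrable (fun w => ker M B R w₀ w * f w) 0 R :=
  hf.continuousOn_mul (ker_cont hR h₀)

/-- The mean of a holomorphic function against `cos 2θ`. -/
lemma mean_c2 (hR : 0 < R) {g : ℂ → ℂ} (hg : DifferentiableOn ℂ g (closedBall 0 R)) :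
    circleAverage (fun w => (w ^ 2).re / R ^ 2 * (g w).re) 0 R =
      R ^ 2 / 4 * (iteratedDeriv 2 g 0).re := by
  have hc : ContinuousOn g (sphere 0 R) := hg.continuousOn.mono sphere_subset_closedBall
  have hne : ∀ w ∈ sphere (0 : ℂ) R, w ≠ 0 := fun w hw e => by
    simp [e] at hw; exact hR.ne hw
  have i1 : CircleIntegrable (fun w : ℂ => w ^ 2 / (2 * R ^ 2) * g w) 0 R :=
    ContinuousOn.circleIntegrable hR.le (ContinuousOn.mul (by fun_prop) hc)
  have i2 : CircleIntegrable (fun w : ℂ => (R ^ 2 / 2 : ℂ) * (1 / w ^ 2 * g w)) 0 R :=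
    ContinuousOn.circleIntegrable hR.le (continuousOn_const.mul (ContinuousOn.mul
      (continuousOn_const.div (by fun_prop) fun w hw => pow_ne_zero _ (hne w hw)) hc))
  have e1 : circleAverage (fun w : ℂ => w ^ 2 / (2 * R ^ 2) * g w) 0 R = 0 := by
    have : DiffContOnCl ℂ (fun w : ℂ => w ^ 2 / (2 * R ^ 2) * g w) (ball 0 |R|) := by
      rw [abs_of_pos hR]
      exact (DifferentiableOn.mono (DifferentiableOn.mul (by fun_prop) hg)
        closure_ball_subset_closedBall).diffContOnCl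
    simpa using this.circleAverage
  have e2 : circleAverage (fun w : ℂ => (R ^ 2 / 2 : ℂ) * (1 / w ^ 2 * g w)) 0 R =
      R ^ 2 / 4 * iteratedDeriv 2 g 0 := by
    have h1 := hg.circleIntegral_one_div_sub_center_pow_smul hR 2
    have h2 : (∮ z in C(0, R), (z - 0)⁻¹ • (1 / z ^ 2 * g z)) =
        ∮ z in C(0, R), (1 / (z - 0) ^ (2 + 1)) • g z :=
      circleIntegral.integral_congr hR.le fun w hw => by
        have := hne w hw
        simp only [sub_zero, smul_eq_mul]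
        field_simp
        ring
    have h3 := circleAverage_fun_smul (a := (R ^ 2 / 2 : ℂ)) (f := fun w : ℂ => 1 / w ^ 2 * g w)
      (c := 0) (R := R)
    simp only [smul_eq_mul] at h3
    rw [h3, circleAverage_eq_circleIntegral hR.ne', h2, h1]
    have := Complex.two_pi_I_ne_zero
    simp only [smul_eq_mul, Nat.factorial_two, Nat.cast_ofNat]
    field_simp
    ring
  have e3 := Complex.reCLM.circleAverage_comp_comm (i1.add i2)
  rw [circleAverage_add i1 i2, e1, e2] at e3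
  have e4 : (reCLM (0 + (R : ℂ) ^ 2 / 4 * iteratedDeriv 2 g 0)) =
      R ^ 2 / 4 * (iteratedDeriv 2 g 0).re := by
    rw [zero_add, reCLM_apply, show ((R : ℂ) ^ 2 / 4) = ((R ^ 2 / 4 : ℝ) : ℂ) by push_cast; rfl,
      re_ofReal_mul]
  rw [← e4, ← e3]
  refine circleAverage_congr_sphere fun w hw => ?_
  rw [abs_of_pos hR] at hw
  have hw0 := hne w hw
  have h : (R : ℂ) ^ 2 = w * (starRingEnd ℂ) w := by
    rw [mul_conj, normSq_eq_norm_sq, show ‖w‖ = R by simpa using hw]; push_cast; rfl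
  have hw1 : (starRingEnd ℂ) w ≠ 0 := by simpa using hw0
  have h5 : w ^ 2 / (2 * R ^ 2) * g w + (R ^ 2 / 2 : ℂ) * (1 / w ^ 2 * g w) =
      (((w ^ 2).re / R ^ 2 : ℝ) : ℂ) * g w := by
    rw [ofReal_div, re_eq_add_conj, map_pow, ofReal_pow, h]
    field_simp
  simp only [Function.comp_apply, Pi.add_apply, reCLM_apply, h5, re_ofReal_mul]

lemma slit (h : R * ‖β‖ < 1) {w : ℂ} (hw : w ∈ closedBall (0 : ℂ) R) : 1 - β * w ∈ slitPlane := by
  rw [sub_eq_add_neg]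
  refine mem_slitPlane_of_norm_lt_one ?_
  rw [norm_neg, norm_mul, mul_comm]
  exact (mul_le_mul_of_nonneg_right (by simpa using hw) (norm_nonneg _)).trans_lt h

lemma deriv2 (hR : 0 < R) (h : R * ‖β‖ < 1) :
    iteratedDeriv 2 (fun w => Complex.log (1 - β * w)) 0 = -β ^ 2 := by
  have h1 : deriv (fun w => Complex.log (1 - β * w)) =ᶠ[𝓝 0] fun w => -β / (1 - β * w) := by
    filter_upwards [closedBall_mem_nhds (0 : ℂ) hR] with w hw
    have := ((hasDerivAt_id w).const_mul β).const_sub 1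
    simpa using (this.clog (slit h hw)).deriv
  rw [iteratedDeriv_succ, iteratedDeriv_one, h1.deriv_eq]
  have := (hasDerivAt_const (0 : ℂ) (-β)).fun_div
    (((hasDerivAt_id (0 : ℂ)).const_mul β).const_sub 1) (by simp)
  simpa [sq] using this.deriv

lemma mean_ker (hR : 0 < R) (h₀ : ‖w₀‖ < R) {f : ℂ → ℝ} (hf : CircleIntegrable f 0 R) :
    circleAverage (fun w => ker M B R w₀ w * f w) 0 R = M * (1 + B) * circleAverage f 0 R -
      M * B * circleAverage (fun w => (w ^ 2).re / R ^ 2 * f w) 0 R -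
      circleAverage (poissonKernel 0 w₀ • f) 0 R := by
  have i1 : CircleIntegrable (fun w => (w ^ 2).re / R ^ 2 * f w) 0 R :=
    hf.continuousOn_mul (g := fun w : ℂ => (w ^ 2).re / R ^ 2) (by fun_prop)
  have i2 : CircleIntegrable (poissonKernel 0 w₀ • f) 0 R := hf.continuousOn_smul (pois_cont hR h₀)
  have j1 := hf.const_smul (a := M * (1 + B))
  have j2 := i1.const_smul (a := M * B)
  rw [← smul_eq_mul (M * (1 + B)), ← smul_eq_mul (M * B), ← circleAverage_smul,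
    ← circleAverage_smul, ← circleAverage_sub j1 j2, ← circleAverage_sub (j1.sub j2) i2]
  congr 1
  ext w
  simp only [ker, Pi.sub_apply, Pi.smul_apply, Pi.mul_apply, smul_eq_mul]
  ring

/-- No zero in the closed disc. -/
lemma mean_lt (hR : 0 < R) (h₀ : ‖w₀‖ < R) (h : R * ‖β‖ < 1) :
    circleAverage (fun w => ker M B R w₀ w * Real.log ‖1 - β * w‖) 0 R =
      M * B * R ^ 2 / 4 * (β ^ 2).re - Real.log ‖1 - β * w₀‖ := by
  have hh : HarmonicOnNhd (fun w => Real.log ‖1 - β * w‖) (closedBall 0 R) := fun w hw =>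
    AnalyticAt.harmonicAt_log_norm (by fun_prop) (slitPlane_ne_zero (slit h hw))
  have e1 : circleAverage (fun w => Real.log ‖1 - β * w‖) 0 R = 0 := by
    rw [InnerProductSpace.HarmonicOnNhd.circleAverage_eq (by rwa [abs_of_pos hR])]
    simp
  have e2 := mean_c2 hR (g := fun w => Complex.log (1 - β * w)) fun w hw =>
    (DifferentiableAt.clog (f := fun w => 1 - β * w) (by fun_prop)
      (slit h hw)).differentiableWithinAt
  simp only [log_re, deriv2 hR h, neg_re] at e2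
  rw [mean_ker hR h₀ (int_log β R), e1, e2,
    hh.circleAverage_poissonKernel_smul (by simpa using h₀)]
  ring

lemma mean_one (hR : 0 < R) (h₀ : ‖w₀‖ < R) :
    circleAverage (fun w => ker M B R w₀ w * 1) 0 R = M * (1 + B) - 1 := by
  have e2 := mean_c2 hR (g := fun _ => (1 : ℂ)) (differentiableOn_const _)
  have e3 := HarmonicOnNhd.circleAverage_poissonKernel_smul (f := fun _ : ℂ => (1 : ℝ)) (c := 0)
    (R := R) (w := w₀) (fun _ _ => harmonicAt_const _) (by simpa using h₀)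
  simp only [one_re, iteratedDeriv_const] at e2
  rw [mean_ker hR h₀ (circleIntegrable_const 1 0 R), e2, e3, circleAverage_const]
  simp

/-- Monotonicity of circle means off the real axis. -/
lemma mono_off (hR : 0 < R) {f g : ℂ → ℝ} (hf : CircleIntegrable f 0 R)
    (hg : CircleIntegrable g 0 R) (h : ∀ w : ℂ, ‖w‖ = R → w.im ≠ 0 → f w ≤ g w) :
    circleAverage f 0 R ≤ circleAverage g 0 R := by
  simp only [circleAverage_def, smul_eq_mul]
  refine mul_le_mul_of_nonneg_left (intervalIntegral.integral_mono_ae (by positivity) hf hg ?_)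
    (by positivity)
  have hc := (((Set.countable_singleton (-R : ℂ)).insert (R : ℂ)).preimage_circleMap 0
    hR.ne').measure_zero MeasureTheory.volume
  filter_upwards [MeasureTheory.compl_mem_ae_iff.2 hc] with θ hθ
  have h1 : ‖circleMap 0 R θ‖ = R := by simp [abs_of_pos hR]
  refine h _ h1 fun e => hθ ?_
  have h2 : circleMap 0 R θ = ((circleMap 0 R θ).re : ℂ) := Complex.ext (by simp) (by simpa using e)
  rw [h2, norm_real, Real.norm_eq_abs] at h1
  rw [Set.mem_preimage, h2]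
  rcases (abs_eq hR.le).1 h1 with e | e <;> simp [e]

lemma cmp {u : ℂ} {τ : ℝ} (h0 : 0 < τ) (h1 : τ ≤ 1) (h : τ * ‖u‖ ^ 2 ≤ 1) (hu : 1 - u ≠ 0) :
    Real.log ‖1 - u‖ ≤ -Real.log τ / 2 + Real.log ‖1 - τ * u‖ := by
  have h2 : τ * ‖1 - u‖ ^ 2 ≤ ‖1 - τ * u‖ ^ 2 := by
    rw [← Complex.normSq_eq_norm_sq] at h ⊢
    rw [← Complex.normSq_eq_norm_sq]
    simp only [normSq_apply, sub_re, one_re, sub_im, one_im, re_ofReal_mul, im_ofReal_mul] at h ⊢
    nlinarith [mul_nonneg (sub_nonneg.2 h1) (sub_nonneg.2 h)]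
  have h3 := norm_pos_iff.2 hu
  have h4 := Real.log_le_log (by positivity) h2
  rw [Real.log_mul h0.ne' (by positivity), Real.log_pow, Real.log_pow] at h4
  push_cast at h4
  linarith

lemma scal {a b : ℝ} (ha : 1 ≤ a) (hb : 1 ≤ b) :
    (1 + b ^ 2) * Real.log a + b ^ 2 / 4 * a⁻¹ ^ 2 ≤ b ^ 2 / 4 * a ^ 2 + 2 / b := by
  have h1 : Real.log a ≤ (a - a⁻¹) / 2 := by
    rw [← Real.sinh_log (by linarith)]
    exact Real.self_le_sinh_iff.2 (Real.log_nonneg ha)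
  have h2 : a * a⁻¹ = 1 := mul_inv_cancel₀ (by linarith)
  have h3 : a⁻¹ ≤ 1 := inv_le_one_of_one_le₀ ha
  obtain ⟨y, hy⟩ : ∃ y, y = (a - a⁻¹) / 2 := ⟨_, rfl⟩
  obtain ⟨c, hc⟩ : ∃ c, c = (a + a⁻¹) / 2 := ⟨_, rfl⟩
  have hy0 : 0 ≤ y := by linarith
  have h4 : c ^ 2 = 1 + y ^ 2 := by rw [hy, hc]; nlinarith
  have h5 : 1 ≤ c := by nlinarith [inv_pos.2 (show 0 < a by linarith)]
  have h6 : a ^ 2 - a⁻¹ ^ 2 = 4 * y * c := by rw [hy, hc]; ring
  have h7 : y * (1 - b ^ 2 * (c - 1)) ≤ 2 / b := by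
    rcases le_total 1 (b ^ 2 * (c - 1)) with h | h
    · exact (mul_nonpos_of_nonneg_of_nonpos hy0 (by linarith)).trans (by positivity)
    · have hb2 : 1 ≤ b ^ 2 := one_le_pow₀ hb
      have h8 : c ≤ 2 := by nlinarith [mul_nonneg (sub_nonneg.2 hb2) (sub_nonneg.2 h5)]
      have h9 : (y * b) ^ 2 ≤ 2 ^ 2 := by
        have : (y * b) ^ 2 = b ^ 2 * (c - 1) * (c + 1) := by
          rw [mul_pow, show y ^ 2 = c ^ 2 - 1 by linarith]; ring
        nlinarith [mul_nonneg (sq_nonneg b) (sub_nonneg.2 h5)]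
      have h10 := (pow_le_pow_iff_left₀ (by positivity) (by norm_num) two_ne_zero).1 h9
      rw [le_div_iff₀ (by linarith)]
      nlinarith [mul_nonneg (mul_nonneg hy0 (show 0 ≤ b by linarith))
        (mul_nonneg (sq_nonneg b) (sub_nonneg.2 h5))]
  nlinarith [mul_le_mul_of_nonneg_left h1 (show 0 ≤ 1 + b ^ 2 by positivity)]

/-- The roots that occur: in the closed unit disc or real. -/
def Ok (α : ℂ) : Prop := ‖α‖ ≤ 1 ∨ α.im = 0

lemma Ok.ne (h : Ok α) {w : ℂ} (hw : ‖w‖ < 1) (hi : w.im ≠ 0) : 1 - α * w ≠ 0 := by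
  intro e
  rw [sub_eq_zero] at e
  rcases h with h | h
  · have := congrArg norm e
    rw [norm_one, norm_mul] at this
    nlinarith [norm_nonneg w, norm_nonneg α]
  · have h1 := congrArg Complex.im e
    have h2 := congrArg Complex.re e
    simp [h, hi] at h1
    simp [h, h1] at h2

lemma root_le {b : ℝ} (hR : 0 < R) (hR1 : R < 1) (h₀ : ‖w₀‖ < R) (hi : w₀.im ≠ 0)
    (hM : (R + ‖w₀‖) / (R - ‖w₀‖) ≤ M) (hb : 1 ≤ b) (h : Ok α) :
    circleAverage (fun w => ker M (b ^ 2) R w₀ w * Real.log ‖1 - α * w‖) 0 R ≤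
      M * b ^ 2 * R ^ 2 / 4 * (α ^ 2).re - Real.log ‖1 - α * w₀‖ + 3 * M / b := by
  have hM0 : 0 ≤ M := (div_nonneg (by positivity) (by linarith)).trans hM
  rcases lt_or_ge (R * ‖α‖) 1 with h1 | h1
  · rw [mean_lt hR h₀ h1]
    exact le_add_of_nonneg_right (by positivity)
  have him : α.im = 0 := h.resolve_left fun h2 => by nlinarith
  obtain ⟨a, ha⟩ : ∃ a, a = R * ‖α‖ := ⟨_, rfl⟩
  obtain ⟨ε, hε⟩ : ∃ ε, ε = 1 / (b * (1 + b ^ 2)) := ⟨_, rfl⟩
  have hε0 : 0 < ε := by rw [hε]; positivity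
  have hρ : Real.exp (-2 * ε) < 1 := Real.exp_lt_one_iff.2 (by linarith)
  have hρ0 := Real.exp_pos (-2 * ε)
  obtain ⟨τ, hτ⟩ : ∃ τ, τ = Real.exp (-2 * ε) / a ^ 2 := ⟨_, rfl⟩
  rw [← ha] at h1
  have ha0 : 0 < a := by linarith
  have hτ0 : 0 < τ := by rw [hτ]; positivity
  have hτa : τ * a ^ 2 = Real.exp (-2 * ε) := by rw [hτ]; field_simp
  have hτ1 : τ ≤ 1 := by nlinarith
  have hl : -Real.log τ / 2 = Real.log a + ε := by
    rw [hτ, Real.log_div hρ0.ne' (by positivity), Real.log_exp, Real.log_pow]; push_cast; ring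
  have hn : R * ‖(τ : ℂ) * α‖ = τ * a := by
    rw [norm_mul, norm_real, Real.norm_of_nonneg hτ0.le, ha]; ring
  have hβ : R * ‖(τ : ℂ) * α‖ < 1 := by rw [hn]; nlinarith
  have hc : ∀ w : ℂ, ‖w‖ ≤ R → w.im ≠ 0 → Real.log ‖1 - α * w‖ ≤
      (Real.log a + ε) * 1 + Real.log ‖1 - τ * α * w‖ := fun w hw hwi => by
    have h2 : ‖α * w‖ ≤ a := by
      rw [norm_mul, ha, mul_comm]; exact mul_le_mul_of_nonneg_right hw (norm_nonneg _)
    rw [mul_one, ← hl, mul_assoc]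
    exact cmp hτ0 hτ1 ((mul_le_mul_of_nonneg_left (pow_le_pow_left₀ (norm_nonneg _) h2 2)
      hτ0.le).trans (hτa.trans_le hρ.le)) (h.ne (hw.trans_lt hR1) hwi)
  have i1 := (int_ker (M := M) (B := b ^ 2) hR h₀ (circleIntegrable_const (1 : ℝ) 0 R)).const_smul
    (a := Real.log a + ε)
  have i2 := int_ker (M := M) (B := b ^ 2) hR h₀ (int_log (τ * α) R)
  have h2 := mono_off hR (int_ker hR h₀ (int_log α R)) (i1.add i2) fun w hw hwi => by
    have := mul_le_mul_of_nonneg_left (hc w hw.le hwi)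
      (ker_nonneg hR h₀ hM (sq_nonneg b) (w := w) (by simpa [abs_of_pos hR] using hw))
    simp only [Pi.add_apply, Pi.smul_apply, smul_eq_mul]
    linarith
  rw [circleAverage_add i1 i2, circleAverage_smul, mean_one hR h₀, mean_lt hR h₀ hβ,
    smul_eq_mul] at h2
  have h3 := hc w₀ h₀.le hi
  have h4 : R ^ 2 * (α ^ 2).re = a ^ 2 := by
    rw [ha, mul_pow, ← Complex.normSq_eq_norm_sq, normSq_apply, sq α, mul_re, him]; ring
  have h5 : R ^ 2 * (((τ : ℂ) * α) ^ 2).re ≤ a⁻¹ ^ 2 := by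
    rw [mul_pow, ← ofReal_pow, re_ofReal_mul, mul_left_comm, h4, ← mul_pow]
    refine pow_le_pow_left₀ (by positivity) ?_ 2
    rw [inv_eq_one_div, le_div_iff₀ ha0]
    nlinarith
  have h6 := mul_le_mul_of_nonneg_left (scal h1 hb) hM0
  have h7 := mul_le_mul_of_nonneg_left h5 (show 0 ≤ M * b ^ 2 / 4 by positivity)
  have h8 : ε * (M * (1 + b ^ 2)) = M / b := by rw [hε]; field_simp
  have h9 : M * b ^ 2 * R ^ 2 / 4 * (α ^ 2).re = M * b ^ 2 / 4 * a ^ 2 := by rw [← h4]; ring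
  have h10 : 3 * M / b = M * (2 / b) + M / b := by ring
  rw [h9, h10]
  nlinarith

lemma pair_le {b : ℝ} (hR : 0 < R) (hR1 : R < 1) (h₀ : ‖w₀‖ < R) (hi : w₀.im ≠ 0)
    (hM : (R + ‖w₀‖) / (R - ‖w₀‖) ≤ M) (hb : 1 ≤ b) (h : Ok α) (h' : Ok β) {f : ℂ → ℂ}
    (hf : ∀ w, f w = (1 - α * w) * (1 - β * w)) :
    CircleIntegrable (fun w => Real.log ‖f w‖) 0 R ∧
    circleAverage (fun w => ker M (b ^ 2) R w₀ w * Real.log ‖f w‖) 0 R ≤
      M * b ^ 2 * R ^ 2 / 4 * (α ^ 2 + β ^ 2).re - Real.log ‖f w₀‖ + 6 * M / b := by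
  have e : ∀ w : ℂ, ‖w‖ ≤ R → w.im ≠ 0 →
      Real.log ‖f w‖ = Real.log ‖1 - α * w‖ + Real.log ‖1 - β * w‖ := fun w hw hwi => by
    rw [hf, norm_mul, Real.log_mul (norm_ne_zero_iff.2 (h.ne (hw.trans_lt hR1) hwi))
      (norm_ne_zero_iff.2 (h'.ne (hw.trans_lt hR1) hwi))]
  have i0 : CircleIntegrable (fun w => Real.log ‖f w‖) 0 R := by
    simp only [hf]
    exact MeromorphicOn.circleIntegrable_log_norm fun _ _ => by fun_prop
  have i1 := int_ker (M := M) (B := b ^ 2) hR h₀ (int_log α R)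
  have i2 := int_ker (M := M) (B := b ^ 2) hR h₀ (int_log β R)
  have h2 := mono_off hR (int_ker hR h₀ i0) (i1.add i2) fun w hw hwi => by
    rw [e w hw.le hwi, mul_add]; rfl
  rw [circleAverage_add i1 i2] at h2
  have h3 := root_le hR hR1 h₀ hi hM hb h
  have h4 := root_le hR hR1 h₀ hi hM hb h'
  refine ⟨i0, ?_⟩
  rw [e w₀ h₀.le hi, add_re, show 6 * M / b = 3 * M / b + 3 * M / b by ring]
  linarith

lemma roots (y : ℝ) : ∃ α β : ℂ, Ok α ∧ Ok β ∧ α + β = y ∧ α * β = 1 := by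
  rcases le_total (y ^ 2) 4 with h | h
  · have h1 := Real.sq_sqrt (sub_nonneg.2 h)
    have h2 : ∀ s : ℝ, s ^ 2 = 4 - y ^ 2 → Ok ⟨y / 2, s / 2⟩ := fun s hs => Or.inl (by
      rw [← sq_le_one_iff₀ (norm_nonneg _), ← Complex.normSq_eq_norm_sq, normSq_mk]; nlinarith)
    refine ⟨⟨y / 2, √(4 - y ^ 2) / 2⟩, ⟨y / 2, -√(4 - y ^ 2) / 2⟩, h2 _ h1, h2 _ (by linarith),
      Complex.ext (by simp) (by simp; ring), Complex.ext (by simp; nlinarith) (by simp; ring)⟩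
  · have h1 := Real.sq_sqrt (sub_nonneg.2 h)
    refine ⟨((y + √(y ^ 2 - 4)) / 2 : ℝ), ((y - √(y ^ 2 - 4)) / 2 : ℝ), Or.inr (ofReal_im _),
      Or.inr (ofReal_im _), ?_, ?_⟩
    · rw [← ofReal_add]; congr 1; ring
    · rw [← ofReal_mul, ← ofReal_one]; congr 1; nlinarith

variable {ι : Type*} [Fintype ι]

/-- The normalised logarithm of the Ihara polynomial. -/
noncomputable def Lf (q : ℝ) (ev : ι → ℝ) (w : ℂ) : ℝ :=
  (Fintype.card ι : ℝ)⁻¹ * ∑ j, Real.log ‖1 - (ev j / √q : ℝ) * w + w ^ 2‖ +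
    (q - 1) / 2 * Real.log ‖1 - w ^ 2 / q‖

lemma int_Lf (q : ℝ) (ev : ι → ℝ) (R : ℝ) : CircleIntegrable (Lf q ev) 0 R := by
  have h1 := CircleIntegrable.sum Finset.univ fun (j : ι) _ =>
    (MeromorphicOn.circleIntegrable_log_norm (c := 0) (R := R)
      (f := fun w : ℂ => 1 - (ev j / √q : ℝ) * w + w ^ 2) fun _ _ => by fun_prop)
  have h2 := (MeromorphicOn.circleIntegrable_log_norm (c := 0) (R := R)
      (f := fun w : ℂ => 1 - w ^ 2 / q) fun _ _ => by fun_prop)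
  refine (circleIntegrable_congr fun w _ => ?_).1
    ((h1.const_smul (a := (Fintype.card ι : ℝ)⁻¹)).add (h2.const_smul (a := (q - 1) / 2)))
  simp [Lf]

lemma int_neg {f : ℂ → ℝ} (hf : CircleIntegrable f 0 R) :
    CircleIntegrable (fun w => max (-f w) 0) 0 R :=
  ⟨hf.neg.1.pos_part, hf.neg.2.pos_part⟩

/-- **JEN.** -/
theorem jen [Nonempty ι] {q b m : ℝ} (hq : 1 ≤ q) {ev : ι → ℝ} (hm : 0 ≤ m)
    (hev : ∑ j, ev j ^ 2 ≤ Fintype.card ι * (q + 1 + m)) (hR : 0 < R) (hR1 : R < 1) (h₀ : ‖w₀‖ < R)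
    (hi : w₀.im ≠ 0) (hM : (R + ‖w₀‖) / (R - ‖w₀‖) ≤ M) (hb : 1 ≤ b) :
    Lf q ev w₀ ≤ M * (3 * (q + 1) / b + b ^ 2 * m +
      (1 + 2 * b ^ 2) * circleAverage (fun w => max (-Lf q ev w) 0) 0 R) := by
  have hM0 : 0 ≤ M := (div_nonneg (by positivity) (by linarith)).trans hM
  have hq0 : 0 < q := by linarith
  have hs : √q ^ 2 = q := Real.sq_sqrt hq0.le
  have hN : (0 : ℝ) < Fintype.card ι := Nat.cast_pos.2 Fintype.card_pos
  have h1 : ∀ j, CircleIntegrable (fun w => Real.log ‖1 - (ev j / √q : ℝ) * w + w ^ 2‖) 0 R ∧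
      circleAverage (fun w => ker M (b ^ 2) R w₀ w *
        Real.log ‖1 - (ev j / √q : ℝ) * w + w ^ 2‖) 0 R ≤ M * b ^ 2 * R ^ 2 / 4 * (ev j ^ 2 / q - 2)
        - Real.log ‖1 - (ev j / √q : ℝ) * w₀ + w₀ ^ 2‖ + 6 * M / b := fun j => by
    obtain ⟨α, β, h, h', e1, e2⟩ := roots (ev j / √q)
    have := pair_le hR hR1 h₀ hi hM hb h h' (f := fun w => 1 - (ev j / √q : ℝ) * w + w ^ 2)
      fun w => by rw [← e1]; linear_combination (-w ^ 2) * e2
    rwa [show α ^ 2 + β ^ 2 = ((ev j / √q) ^ 2 - 2 : ℝ) by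
      rw [ofReal_sub, ofReal_pow, ← e1]; push_cast; linear_combination (-2) * e2, ofReal_re,
      div_pow, hs] at this
  have e3 : (((√q)⁻¹ : ℝ) : ℂ) ^ 2 = (q⁻¹ : ℝ) := by rw [← ofReal_pow, inv_pow, hs]
  have h2 := pair_le hR hR1 h₀ hi hM hb (α := ((√q)⁻¹ : ℝ)) (β := -((√q)⁻¹ : ℝ))
    (Or.inr (ofReal_im _)) (Or.inr (by rw [neg_im, ofReal_im, neg_zero]))
    (f := fun w => 1 - w ^ 2 / q)
    fun w => by rw [div_eq_mul_inv, ← ofReal_inv, ← e3]; ring
  rw [neg_sq, e3, add_re, ofReal_re] at h2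
  have i0 := int_Lf q ev R
  have iY := int_neg i0
  have i1 := fun j => int_ker (M := M) (B := b ^ 2) hR h₀ (h1 j).1
  have i2 := int_ker (M := M) (B := b ^ 2) hR h₀ h2.1
  have i3 := CircleIntegrable.sum Finset.univ fun (j : ι) _ => i1 j
  have h3 : circleAverage (fun w => ker M (b ^ 2) R w₀ w * Lf q ev w) 0 R =
      (Fintype.card ι : ℝ)⁻¹ * ∑ j, circleAverage (fun w => ker M (b ^ 2) R w₀ w *
        Real.log ‖1 - (ev j / √q : ℝ) * w + w ^ 2‖) 0 R + (q - 1) / 2 *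
        circleAverage (fun w => ker M (b ^ 2) R w₀ w * Real.log ‖1 - w ^ 2 / q‖) 0 R := by
    rw [← circleAverage_sum fun j _ => i1 j, ← smul_eq_mul, ← smul_eq_mul ((q - 1) / 2),
      ← circleAverage_smul, ← circleAverage_smul, ← circleAverage_add i3.const_smul i2.const_smul]
    congr 1
    ext w
    simp only [Lf, Pi.add_apply, Pi.smul_apply, Finset.sum_apply, smul_eq_mul, ← Finset.mul_sum]
    ring
  have h4 := circleAverage_mono (iY.const_smul (a := -(M * (1 + 2 * b ^ 2)))) (int_ker hR h₀ i0)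
    fun w hw => by
      have k1 := ker_nonneg hR h₀ hM (sq_nonneg b) hw
      have k2 := ker_le hR h₀ hM0 (sq_nonneg b) hw
      simp only [Pi.smul_apply, smul_eq_mul]
      nlinarith [mul_nonneg (sub_nonneg.2 k2) (le_max_right (-Lf q ev w) 0),
        mul_nonneg k1 (sub_nonneg.2 (le_max_left (-Lf q ev w) 0))]
  rw [circleAverage_smul, smul_eq_mul, h3] at h4
  have h5 := mul_le_mul_of_nonneg_left (Finset.sum_le_sum fun j (_ : j ∈ Finset.univ) => (h1 j).2)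
    (inv_pos.2 hN).le
  have h6 := mul_le_mul_of_nonneg_left h2.2 (show 0 ≤ (q - 1) / 2 by linarith)
  have h7 : (Fintype.card ι : ℝ)⁻¹ * ∑ j, ev j ^ 2 ≤ q + 1 + m := by
    rwa [inv_mul_le_iff₀ hN]
  have h8 := mul_le_mul_of_nonneg_left h7 (show 0 ≤ M * b ^ 2 * R ^ 2 / 4 * q⁻¹ by positivity)
  simp only [Finset.sum_add_distrib, Finset.sum_sub_distrib, ← Finset.mul_sum, ← Finset.sum_div,
    Finset.sum_const, Finset.card_univ, nsmul_eq_mul] at h5
  have h12 : M * b ^ 2 * R ^ 2 / 4 * q⁻¹ * m ≤ M * (b ^ 2 * m) := by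
    have k1 : R ^ 2 / 4 * q⁻¹ ≤ 1 := mul_le_one₀ (by nlinarith) (by positivity)
      (inv_le_one_of_one_le₀ hq)
    nlinarith [mul_le_mul_of_nonneg_left k1 (show 0 ≤ M * (b ^ 2 * m) by positivity)]
  rw [Lf]
  generalize M * b ^ 2 * R ^ 2 / 4 = c at *
  generalize (Fintype.card ι : ℝ) = n at *
  generalize ∑ j, Real.log ‖1 - (ev j / √q : ℝ) * w₀ + w₀ ^ 2‖ = S at *
  have h9 : n⁻¹ * (c * ((∑ j, ev j ^ 2) / q - n * 2) - S + 6 * (n * M) / b) =
      c * q⁻¹ * (n⁻¹ * ∑ j, ev j ^ 2) - 2 * c - n⁻¹ * S + 6 * M / b := by field_simp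
  have h10 : c * q⁻¹ * (q + 1) - 2 * c + (q - 1) / 2 * (c * (q⁻¹ + q⁻¹)) = 0 := by
    field_simp; ring
  have h11 : M * (3 * (q + 1) / b) = 6 * M / b + (q - 1) / 2 * (6 * M / b) := by ring
  rw [h9] at h5
  linarith

end Pool.Agent.P.MP_6b977f_mp.RG.Jen
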