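import Pool.Agent.P.MP_6b977f_mp.RG.IfaceA

/-! Step RIE. -/

namespace Pool.Agent.P.MP_6b977f_mp.RG

open Finset MeasureTheory Real
open scoped Classical

namespace RIEx

theorem one {v s η a b : ℝ} (hv : 0 < v) (hs : 1 < s) (h : |a + b| ≤ η) :
    g1 v a ≤ s * exp (η ^ 2 / (2 * v * (s ^ 2 - 1))) * g1 (s ^ 2 * v) b := by
  have hm : 0 < s ^ 2 - 1 := by nlinarith
  have h0 : 0 < s := by linarith
  have h1 : (a + b) ^ 2 ≤ η ^ 2 := by
    rw [← sq_abs]
    exact pow_le_pow_left₀ (abs_nonneg _) h 2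
  have h2 : √(2 * π * (s ^ 2 * v)) = s * √(2 * π * v) := by
    rw [show 2 * π * (s ^ 2 * v) = s ^ 2 * (2 * π * v) by ring, sqrt_mul (sq_nonneg _),
      sqrt_sq h0.le]
  have h3 : 0 < √(2 * π * v) := by positivity
  have h4 : -a ^ 2 / (2 * v) ≤ η ^ 2 / (2 * v * (s ^ 2 - 1)) + -b ^ 2 / (2 * (s ^ 2 * v)) := by
    rw [← sub_nonneg]
    have : η ^ 2 / (2 * v * (s ^ 2 - 1)) + -b ^ 2 / (2 * (s ^ 2 * v)) - -a ^ 2 / (2 * v) =
        (s ^ 2 * (η ^ 2 - (a + b) ^ 2) + (s ^ 2 * a + b) ^ 2) / (2 * v * s ^ 2 * (s ^ 2 - 1)) := by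
      field_simp
      ring
    rw [this]
    have := sub_nonneg.2 h1
    positivity
  unfold g1
  rw [h2, show s * exp (η ^ 2 / (2 * v * (s ^ 2 - 1))) *
      (exp (-b ^ 2 / (2 * (s ^ 2 * v))) / (s * √(2 * π * v))) =
      exp (η ^ 2 / (2 * v * (s ^ 2 - 1))) * exp (-b ^ 2 / (2 * (s ^ 2 * v))) / √(2 * π * v) by
    field_simp, ← exp_add]
  exact div_le_div_of_nonneg_right (exp_le_exp.2 h4) h3.le

theorem cells {d : ℕ} {h : ℝ} (hh : 0 < h) {G : (Option (Fin d) → ℝ) → ℝ} (hG : Integrable G)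
    (h0 : ∀ z, 0 ≤ G z) (U : Finset (St d)) (a : St d → ℝ)
    (ha : ∀ u z, ‖z - re h u‖ ≤ h → a u ≤ G z) : h ^ (d + 1) * ∑ u ∈ U, a u ≤ ∫ z, G z := by
  let c : St d → Set (Option (Fin d) → ℝ) := fun u =>
    Set.pi Set.univ fun o => Set.Ico (re h u o) (re h u o + h)
  have hm : ∀ u, MeasurableSet (c u) := fun u => MeasurableSet.univ_pi fun _ => measurableSet_Ico
  have hd : Set.Pairwise (U : Set (St d)) (Function.onFun Disjoint c) := fun u _ u' _ hne => by
    refine Set.disjoint_left.2 fun z hz hz' => hne (funext fun o => ?_)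
    obtain ⟨h1, h2⟩ := hz o trivial
    obtain ⟨h3, h4⟩ := hz' o trivial
    simp only [re] at h1 h2 h3 h4
    have h5 : (u o : ℝ) < u' o + 1 := lt_of_mul_lt_mul_left (by linarith) hh.le
    have h6 : (u' o : ℝ) < u o + 1 := lt_of_mul_lt_mul_left (by linarith) hh.le
    have h7 : u o < u' o + 1 := by exact_mod_cast h5
    have h8 : u' o < u o + 1 := by exact_mod_cast h6
    omega
  refine le_trans ?_ (setIntegral_le_integral (s := ⋃ u ∈ U, c u) hG (ae_of_all _ h0))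
  rw [integral_biUnion_finset U (fun u _ => hm u) hd fun u _ => hG.integrableOn, mul_sum]
  refine sum_le_sum fun u _ => ?_
  have hv : volume.real (c u) = h ^ (d + 1) := by
    rw [Measure.real, volume_pi_Ico_toReal fun o => by simpa using hh.le]
    simp
  rw [← hv, mul_comm]
  refine setIntegral_ge_of_const_le_real (hm u) ?_ (fun z hz => ha u z ?_) hG.integrableOn
  · rw [volume_pi_Ico]
    exact ENNReal.prod_ne_top fun _ _ => ENNReal.ofReal_ne_top
  · refine (pi_norm_le_iff_of_nonneg hh.le).2 fun o => ?_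
    obtain ⟨h1, h2⟩ := hz o trivial
    rw [Pi.sub_apply, norm_eq_abs, abs_le]
    constructor <;> linarith

theorem wh_sub {d : ℕ} (P : Par d) (z z' : Option (Fin d) → ℝ) :
    P.wh (z - z') = P.wh z - P.wh z' := by
  funext j
  rcases j with _ | _ | k <;>
    simp only [Par.wh, Wd, Option.elim, Pi.sub_apply, mul_sub, sum_sub_distrib] <;> ring

theorem pick (n : ℕ) {ε : ℝ} (hε : 0 < ε) (f : ℝ → ℝ → ℝ) (hf : ∀ s, Continuous (f s))
    (f0 : ∀ s, f s 0 = 1) : ∃ s h0 : ℝ, 1 < s ∧ 0 < h0 ∧ ∀ h, 0 < h → h ≤ h0 →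
      (s * f s h) ^ n ≤ 1 + ε := by
  have h1 : ∀ᶠ s in nhds (1 : ℝ), s ^ n < 1 + ε :=
    (continuous_pow n).continuousAt.eventually_lt continuousAt_const (by simpa using hε)
  obtain ⟨s, hs, hs'⟩ := ((h1.filter_mono (nhdsWithin_le_nhds (s := Set.Ioi 1))).and
    self_mem_nhdsWithin).exists
  have h2 : ∀ᶠ h in nhds (0 : ℝ), (s * f s h) ^ n < 1 + ε :=
    ((continuous_const.mul (hf s)).pow n).continuousAt.eventually_lt continuousAt_const
      (by simpa [f0] using hs)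
  obtain ⟨δ, hδ, h3⟩ := Metric.eventually_nhds_iff.1 h2
  refine ⟨s, δ / 2, hs', by positivity, fun h a b => (h3 ?_).le⟩
  rw [dist_zero_right, norm_eq_abs, abs_of_pos a]
  linarith

end RIEx

theorem p_RIE (hKER : S_KER) (hJAC : S_JAC) :
    S_RIE := by
  intro d P κ ε hκ hε
  obtain ⟨s, h0, hs, hh0, hc⟩ := RIEx.pick (Fintype.card (SI d)) hε
    (fun s h => exp ((14 * d * h) ^ 2 / (2 * κ ^ 2 * (s ^ 2 - 1)))) (fun s => by fun_prop)
    (by simp)
  refine ⟨h0, hh0, fun h hh hh' U y => ?_⟩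
  have hv : ∀ _ : SI d, 0 < s ^ 2 * κ ^ 2 := fun _ => by positivity
  obtain ⟨k1, k2, -⟩ := hKER (SI d) (fun _ => s ^ 2 * κ ^ 2) y hv
  obtain ⟨j1, j2⟩ := hJAC d P (fun x => ker (fun _ => s ^ 2 * κ ^ 2) (x - y))
    (by simpa using k1 _ (PG.const 1))
  rw [k2, mul_one] at j2
  have hD : 0 ≤ P.Dl := j2 ▸ integral_nonneg fun z => (ker_pos hv _).le
  have hc' := hc h hh hh'
  set c := s * exp ((14 * d * h) ^ 2 / (2 * κ ^ 2 * (s ^ 2 - 1))) with hcd
  have hc0 : 0 < c := by positivity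
  refine (RIEx.cells hh (j1.const_mul (c ^ Fintype.card (SI d)))
    (fun z => (mul_pos (pow_pos hc0 _) (ker_pos hv _)).le) U _ fun u z hz => ?_).trans ?_
  · rw [← card_univ, ← prod_const, ker, ker, ← prod_mul_distrib]
    refine prod_le_prod (fun j _ => (g1_pos (by positivity) _).le) fun j _ =>
      RIEx.one (by positivity) hs ?_
    have h1 : |P.wh (z - re h u) j| ≤ ‖P.wh (z - re h u)‖ :=
      norm_le_pi_norm (P.wh (z - re h u)) j
    have h2 := (P.norm_wh (z - re h u)).trans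
      (mul_le_mul_of_nonneg_left hz (by positivity))
    rw [RIEx.wh_sub] at h1 h2
    refine le_trans (le_of_eq ?_) (h1.trans h2)
    simp only [Pi.sub_apply]
    congr 1
    ring
  · rw [integral_const_mul, j2]
    exact mul_le_mul_of_nonneg_right hc' hD

end Pool.Agent.P.MP_6b977f_mp.RG
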