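import Pool.Agent.P.MP_6b977f_mp.RG.IfaceA

/-! Step LAT2. -/

namespace Pool.Agent.P.MP_6b977f_mp.RG

open Finset MeasureTheory Real
open scoped Classical

namespace LAT2x

/-- a smoothed indicator of an interval -/
noncomputable def q1 (δ b x : ℝ) : ℝ :=
  (Set.Icc 0 δ).indicator (fun _ => 1) x + exp (-b * x ^ 2) + exp (-b * (x - δ) ^ 2)

variable {δ b : ℝ}

theorem i0 (x : ℝ) : (0 : ℝ) ≤ (Set.Icc 0 δ).indicator (fun _ => 1) x :=
  Set.indicator_nonneg (fun _ _ => zero_le_one) _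

theorem e1 (hb : 0 < b) (x : ℝ) : exp (-b * x ^ 2) ≤ 1 :=
  exp_le_one_iff.2 (by nlinarith [sq_nonneg x])

theorem q1_pos (x : ℝ) : 0 < q1 δ b x := by
  have := i0 (δ := δ) x
  unfold q1
  positivity

theorem q1_le (hb : 0 < b) (x : ℝ) : q1 δ b x ≤ 3 := by
  have h : (Set.Icc 0 δ).indicator (fun _ => (1 : ℝ)) x ≤ 1 :=
    Set.indicator_le_self' (fun _ _ => zero_le_one) x
  unfold q1
  linarith [e1 hb x, e1 hb (x - δ)]

theorem q1_ge (hb : 0 < b) {x0 : ℝ} (h0 : 0 ≤ x0) (h1 : x0 ≤ δ) (x : ℝ) :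
    -b * (x - x0) ^ 2 ≤ log (q1 δ b x) := by
  rw [le_log_iff_exp_le (q1_pos x)]
  have a := i0 (δ := δ) x
  have a1 := exp_pos (-b * x ^ 2)
  have a2 := exp_pos (-b * (x - δ) ^ 2)
  unfold q1
  rcases lt_or_ge x 0 with h | h
  · have : exp (-b * (x - x0) ^ 2) ≤ exp (-b * x ^ 2) := exp_le_exp.2 (by
      nlinarith [mul_nonneg hb.le (mul_nonneg h0 (by linarith : 0 ≤ x0 - 2 * x))])
    linarith
  rcases le_or_gt x δ with h' | h'
  · rw [Set.indicator_of_mem (show x ∈ Set.Icc 0 δ from ⟨h, h'⟩)]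
    linarith [e1 hb (x - x0)]
  · have : exp (-b * (x - x0) ^ 2) ≤ exp (-b * (x - δ) ^ 2) := exp_le_exp.2 (by
      nlinarith [mul_nonneg hb.le (mul_nonneg (sub_nonneg.2 h1) (by linarith : 0 ≤ 2 * x - x0 - δ))])
    linarith

theorem q1_meas : Measurable (q1 δ b) := by
  unfold q1
  exact ((measurable_const.indicator measurableSet_Icc).add (by fun_prop)).add (by fun_prop)

theorem q1_int (hδ : 0 < δ) (hb : 0 < b) (c : ℝ) :
    Integrable (fun x => q1 δ b (x - c)) ∧ ∫ x, q1 δ b (x - c) = δ + 2 * √(π / b) := by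
  have a : Integrable ((Set.Icc (0 : ℝ) δ).indicator fun _ => (1 : ℝ)) :=
    (integrable_indicator_iff measurableSet_Icc).2 (integrableOn_const (by simp))
  have g := integrable_exp_neg_mul_sq hb
  have g' : Integrable fun x : ℝ => exp (-b * (x - δ) ^ 2) := g.comp_sub_right δ
  refine ⟨((a.add g).add g').comp_sub_right c, ?_⟩
  rw [integral_sub_right_eq_self (q1 δ b) c]
  unfold q1
  rw [integral_add (by exact a.add g) g', integral_add a g,
    integral_sub_right_eq_self (fun x : ℝ => exp (-b * x ^ 2)) δ, integral_gaussian,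
    integral_indicator measurableSet_Icc]
  simp [hδ.le]
  ring

theorem q2_int (hδ : 0 < δ) (hb : 0 < b) (c c' : ℝ) :
    Integrable (fun w : Fin 2 → ℝ => q1 δ b (w 0 - c) * q1 δ b (w 1 - c')) ∧
      ∫ w : Fin 2 → ℝ, q1 δ b (w 0 - c) * q1 δ b (w 1 - c') = (δ + 2 * √(π / b)) ^ 2 := by
  have h1 := Integrable.fintype_prod (μ := fun _ : Fin 2 => (volume : Measure ℝ))
    (f := fun j x => q1 δ b (x - ![c, c'] j)) fun j => (q1_int hδ hb _).1
  have h2 := integral_fintype_prod_volume_eq_prod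
    (fun (j : Fin 2) (x : ℝ) => q1 δ b (x - ![c, c'] j))
  simp only [Fin.prod_univ_two, Matrix.cons_val_zero, Matrix.cons_val_one, (q1_int hδ hb _).2]
    at h1 h2
  exact ⟨h1, h2.trans (sq _).symm⟩

variable {d : ℕ}

/-- the smoothed edge law -/
noncomputable def G (μ : Law d) (δ b : ℝ) (w : Fin 2 → ℝ) : ℝ :=
  μ.E fun s => (∑ i, q1 δ b (w 0 - δ * s none) * q1 δ b (w 1 - δ * s (some i))) / d

theorem G_meas (μ : Law d) : Measurable (G μ δ b) := by
  have := q1_meas (δ := δ) (b := b)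
  unfold G Law.E
  fun_prop

theorem G_int (hd : 0 < (d : ℝ)) (μ : Law d) (hδ : 0 < δ) (hb : 0 < b) :
    Integrable (G μ δ b) ∧ ∫ w, G μ δ b w = (δ + 2 * √(π / b)) ^ 2 := by
  have I := fun (s : St d) =>
    ((integrable_finsetSum univ fun i _ =>
      (q2_int hδ hb (δ * s none) (δ * s (some i))).1).div_const (d : ℝ)).const_mul (μ.p s)
  refine ⟨integrable_finsetSum _ fun s _ => I s, ?_⟩
  unfold G Law.E
  rw [integral_finsetSum _ fun s _ => I s]
  have : ∀ s : St d, ∫ w : Fin 2 → ℝ, μ.p s *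
      ((∑ i, q1 δ b (w 0 - δ * s none) * q1 δ b (w 1 - δ * s (some i))) / d) =
      μ.p s * (δ + 2 * √(π / b)) ^ 2 := fun s => by
    rw [integral_const_mul, integral_div, integral_finsetSum _ fun i _ => (q2_int hδ hb _ _).1]
    simp only [(q2_int hδ hb _ _).2, sum_const, card_univ, Fintype.card_fin, nsmul_eq_mul]
    field_simp
  simp only [this, ← sum_mul, μ.one, one_mul]

theorem G_le (hd : 0 < (d : ℝ)) (μ : Law d) (hb : 0 < b) (w : Fin 2 → ℝ) : G μ δ b w ≤ 9 := by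
  refine (μ.E_mono (g := fun _ => 9) fun s => ?_).trans (μ.E_const 9).le
  rw [div_le_iff₀ hd]
  refine (sum_le_card_nsmul _ _ 9 fun i _ => ?_).trans (by simp [mul_comm])
  nlinarith [mul_le_mul (q1_le (δ := δ) hb (w 0 - δ * s none)) (q1_le (δ := δ) hb
    (w 1 - δ * s (some i))) (q1_pos _).le (by norm_num)]

theorem nu_pos (hd : 0 < (d : ℝ)) (μ : Law d) {s : St d} (hs : s ∈ μ.A) (i : Fin d) :
    0 < μ.nu (s none) (s (some i)) := by
  refine sum_pos' (fun s' h' => mul_nonneg (μ.pos _ h').le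
    (div_nonneg (sum_nonneg fun _ _ => ind_nonneg _) hd.le)) ⟨s, hs, mul_pos (μ.pos _ hs)
      (div_pos (sum_pos' (fun _ _ => ind_nonneg _) ⟨i, mem_univ _, ?_⟩) hd)⟩
  rw [ind_pos ⟨rfl, rfl⟩]
  exact one_pos

theorem G_ge (hd : 0 < (d : ℝ)) (μ : Law d) (a c : ℤ) (w : Fin 2 → ℝ) :
    q1 δ b (w 0 - δ * a) * q1 δ b (w 1 - δ * c) * μ.nu a c ≤ G μ δ b w := by
  rw [Law.nu, ← μ.E_mul]
  refine μ.E_mono fun s => ?_
  rw [← mul_div_assoc, mul_sum]
  refine div_le_div_of_nonneg_right (sum_le_sum fun i _ => ?_) hd.le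
  by_cases h : s none = a ∧ s (some i) = c
  · rw [ind_pos h, h.1, h.2, mul_one]
  · rw [ind_neg h, mul_zero]
    exact (mul_pos (q1_pos _) (q1_pos _)).le

theorem G_log (hd : 0 < (d : ℝ)) (μ : Law d) (hb : 0 < b) {s : St d} (hs : s ∈ μ.A) (i : Fin d)
    {x0 x1 : ℝ} (h0 : 0 ≤ x0) (h0' : x0 ≤ δ) (h1 : 0 ≤ x1) (h1' : x1 ≤ δ) (w : Fin 2 → ℝ) :
    0 < G μ δ b w ∧ log (μ.nu (s none) (s (some i))) - b * (w 0 - δ * s none - x0) ^ 2 -
      b * (w 1 - δ * s (some i) - x1) ^ 2 ≤ log (G μ δ b w) := by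
  have p := nu_pos hd μ hs i
  have p0 := q1_pos (δ := δ) (b := b) (w 0 - δ * s none)
  have p1 := q1_pos (δ := δ) (b := b) (w 1 - δ * s (some i))
  have g := G_ge (δ := δ) (b := b) hd μ (s none) (s (some i)) w
  refine ⟨lt_of_lt_of_le (by positivity) g, le_trans ?_ (log_le_log (by positivity) g)⟩
  rw [log_mul (by positivity) p.ne', log_mul p0.ne' p1.ne']
  linarith [q1_ge hb h0 h0' (w 0 - δ * s none), q1_ge hb h1 h1' (w 1 - δ * s (some i))]

/-- from edge coordinates to values -/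
def T (c s : ℝ) (e : Fin 2 → ℝ) : Fin 2 → ℝ := ![c * e 0 + s * e 1, c * e 0 - s * e 1]

theorem T_int {c s : ℝ} (h : 0 < 2 * c * s) {g : (Fin 2 → ℝ) → ℝ} (hm : Measurable g)
    (hg : Integrable g) :
    Integrable (fun e => g (T c s e)) ∧ ∫ e, g (T c s e) = (2 * c * s)⁻¹ * ∫ w, g w := by
  have hd : (!![c, s; c, -s]).det = -(2 * c * s) := by rw [Matrix.det_fin_two_of]; ring
  have h1 := Real.map_matrix_volume_pi_eq_smul_volume_pi (M := !![c, s; c, -s])
    (by rw [hd]; linarith)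
  have h2 : ⇑(Matrix.toLin' !![c, s; c, -s]) = T c s := by
    funext e j
    fin_cases j <;> simp [T, Matrix.vecHead, Matrix.vecTail, sub_eq_add_neg]
  have h3 : Measurable (T c s) := by
    rw [← h2]
    exact (LinearMap.continuous_of_finiteDimensional _).measurable
  rw [h2, hd] at h1
  refine ⟨(integrable_map_measure hm.aestronglyMeasurable h3.aemeasurable).1 ?_, ?_⟩
  · rw [h1]
    exact hg.smul_measure ENNReal.ofReal_ne_top
  · rw [← integral_map h3.aemeasurable hm.aestronglyMeasurable, h1, integral_smul_measure,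
      ENNReal.toReal_ofReal (abs_nonneg _), inv_neg, abs_neg, abs_of_pos (inv_pos.2 h), smul_eq_mul]

theorem PG_T (c s : ℝ) (j : Fin 2) : PG fun e => T c s e j := by
  fin_cases j
  · exact ((PG.coord 0).cmul c).add ((PG.coord 1).cmul s)
  · exact ((PG.coord 0).cmul c).sub ((PG.coord 1).cmul s)

theorem PG_G (hd : 0 < d) (μ : Law d) (hδ : 0 < δ) (hb : 0 < b) :
    PG fun w => log (G μ δ b w) := by
  have hd' : 0 < (d : ℝ) := by exact_mod_cast hd
  obtain ⟨s, hs⟩ : μ.A.Nonempty := nonempty_of_sum_ne_zero (by rw [μ.one]; exact one_ne_zero)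
  have h := fun w => G_log hd' μ hb hs ⟨0, hd⟩ le_rfl hδ.le le_rfl hδ.le w
  have p : PG fun w : Fin 2 → ℝ => log (μ.nu (s none) (s (some ⟨0, hd⟩))) -
      b * (w 0 - δ * s none - 0) ^ 2 - b * (w 1 - δ * s (some ⟨0, hd⟩) - 0) ^ 2 :=
    ((PG.const _).sub (((((PG.coord 0).sub (PG.const _)).sub (PG.const _)).pow 2).cmul b)).sub
      (((((PG.coord 1).sub (PG.const _)).sub (PG.const _)).pow 2).cmul b)
  refine (p.abs.add (PG.const 9)).of_le (G_meas μ).log fun w => ?_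
  have h1 := (log_le_sub_one_of_pos (h w).1).trans (sub_le_sub_right (G_le hd' μ hb w) 1)
  refine le_trans (abs_le.2 ⟨?_, ?_⟩) (le_abs_self _)
  · linarith [neg_abs_le _ |>.trans (h w).2]
  · linarith [abs_nonneg (log (μ.nu (s none) (s (some ⟨0, hd⟩))) -
      b * (w 0 - δ * s none - 0) ^ 2 - b * (w 1 - δ * s (some ⟨0, hd⟩) - 0) ^ 2)]

end LAT2x

open LAT2x in
theorem p_LAT2 (hKER : S_KER) (hMIX : S_MIX) (hGIB : S_GIB) :
    S_LAT2 := by
  intro d P μ δ ε hδ hε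
  have h3 := P.d3
  have hd : 0 < (d : ℝ) := by linarith
  have hr := P.r_pos
  have hc := P.cs_pos
  have hn := P.sn_pos
  obtain ⟨b, hb, hZ⟩ : ∃ b : ℝ, 0 < b ∧ δ + 2 * √(π / b) = δ * (1 + ε / 4) :=
    ⟨π / (δ * ε / 8) ^ 2, by positivity, by
      rw [div_div_cancel₀ pi_pos.ne', sqrt_sq (by positivity)]; ring⟩
  refine ⟨√(ε / (8 * b)), by positivity, fun κ hκ hk K => ?_⟩
  have hk2 : 4 * b * κ ^ 2 ≤ ε / 2 := by
    have := (le_sqrt hκ.le (by positivity)).1 hk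
    rw [le_div_iff₀ (by positivity)] at this
    linarith
  have hw : ∀ j, 0 < P.ve κ 0 j := fun j => by
    fin_cases j <;> simp only [Par.ve] <;> simp <;> positivity
  obtain ⟨s0, hs0⟩ : μ.A.Nonempty := nonempty_of_sum_ne_zero (by rw [μ.one]; exact one_ne_zero)
  have Gp := fun w => (G_log hd μ hb hs0 ⟨0, by exact_mod_cast hd⟩ le_rfl hδ.le le_rfl hδ.le w).1
  obtain ⟨g1, g2⟩ := G_int hd μ hδ hb
  obtain ⟨t1, t2⟩ := T_int (c := P.cs) (s := P.sn) (by positivity) (G_meas μ) g1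
  rw [g2, hZ, P.cs_sn] at t2
  set Z := δ * (1 + ε / 4) with hZd
  have Zp : 0 < Z := by positivity
  have lg : ∀ e, log (P.r / Z ^ 2 * G μ δ b (T P.cs P.sn e)) =
      log (P.r / Z ^ 2) + log (G μ δ b (T P.cs P.sn e)) := fun e =>
    log_mul (by positivity) (Gp _).ne'
  have pg : PG fun e => log (P.r / Z ^ 2 * G μ δ b (T P.cs P.sn e)) := by
    simp only [lg]
    exact (PG.const _).add ((PG_G (by exact_mod_cast hd) μ hδ hb).comp (PG_T _ _))
  refine (hGIB _ _ _ (fun e => P.r / Z ^ 2 * G μ δ b (T P.cs P.sn e)) hw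
    (fun e => mul_pos (by positivity) (Gp _)) (t1.const_mul _) (by
      rw [integral_const_mul, t2]
      exact le_of_eq (by field_simp)) pg).trans ?_
  rw [((hMIX _ _ _ hw).2.2.2.2.2.2 _ pg).2.1]
  have key : ∀ ω : (P.edge (P.mix μ δ K)).Ω,
      log (P.r / Z ^ 2) - ε / 2 + log (μ.nu (ω.1.1.1 none) (ω.1.1.1 (some ω.2))) ≤
      ∫ y, log (P.r / Z ^ 2 * G μ δ b (T P.cs P.sn y)) *
        ker (P.ve κ 0) (y - (P.edge (P.mix μ δ K)).x ω) := by
    rintro ⟨⟨s, u⟩, i⟩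
    generalize hx : (P.edge (P.mix μ δ K)).x ((s, u), i) = x
    obtain ⟨k1, k2, -, k4⟩ := hKER _ (P.ve κ 0) x hw
    have q0 : PG fun y : Fin 2 → ℝ => (y 0 - x 0) ^ 2 := ((PG.coord 0).sub (PG.const _)).pow 2
    have q1 : PG fun y : Fin 2 → ℝ => (y 1 - x 1) ^ 2 := ((PG.coord 1).sub (PG.const _)).pow 2
    have hu : ∀ o, 0 ≤ δ * ((u o : ℕ) / (K + 1 : ℝ)) ∧ δ * ((u o : ℕ) / (K + 1 : ℝ)) ≤ δ := fun o =>
      ⟨by positivity, mul_le_of_le_one_right hδ.le ((div_le_one (by positivity)).2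
        (by exact_mod_cast (u o).2.le))⟩
    have hx0 : P.cs * x 0 + P.sn * x 1 = δ * s.1 none + δ * ((u none : ℕ) / (K + 1 : ℝ)) ∧
        P.cs * x 0 - P.sn * x 1 = δ * s.1 (some i) + δ * ((u (some i) : ℕ) / (K + 1 : ℝ)) := by
      rw [← hx]
      simp only [Par.edge, Par.mix, P.ed_val, P.val_wh, Matrix.cons_val_zero, Matrix.cons_val_one]
      constructor <;> field_simp <;> ring
    set c := log (P.r / Z ^ 2) + log (μ.nu (s.1 none) (s.1 (some i))) with hcd
    have j0 := (k1 _ (PG.const c))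
    have j1 := (k1 _ q0).const_mul (2 * b * P.cs ^ 2)
    have j2 := (k1 _ q1).const_mul (2 * b * P.sn ^ 2)
    refine le_trans ?_ (integral_mono ((j0.sub j1).sub j2) (k1 _ pg) fun y => ?_)
    · simp only [Pi.sub_apply]
      rw [integral_sub (by exact j0.sub j1) j2, integral_sub j0 j1, integral_const_mul, integral_const_mul,
        integral_const_mul, k2, k4, k4]
      have e0 : P.cs ^ 2 * P.ve κ 0 0 = P.cs ^ 2 * κ ^ 2 + κ ^ 2 := by
        simp only [Par.ve, Matrix.cons_val_zero]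
        field_simp
        ring
      have e1 : P.ve κ 0 1 = κ ^ 2 := by simp [Par.ve]
      have e2 : P.cs ^ 2 + P.sn ^ 2 = 1 := by rw [P.cs_sq, P.sn_sq]; ring
      rw [mul_assoc _ (P.cs ^ 2), e0, e1]
      have : 2 * b * (P.cs ^ 2 * κ ^ 2 + κ ^ 2) + 2 * b * P.sn ^ 2 * κ ^ 2 = 4 * b * κ ^ 2 := by
        linear_combination 2 * b * κ ^ 2 * e2
      linarith
    · have h := (G_log hd μ hb s.2 i (hu none).1 (hu none).2 (hu (some i)).1 (hu (some i)).2
        (T P.cs P.sn y)).2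
      rw [sub_sub (T _ _ y 0), sub_sub (T _ _ y 1), ← hx0.1, ← hx0.2] at h
      simp only [T, Matrix.cons_val_zero, Matrix.cons_val_one] at h
      simp only [Pi.sub_apply, lg, ← mul_assoc, ← sub_mul]
      refine mul_le_mul_of_nonneg_right ?_ (ker_pos hw _).le
      simp only [T]
      linarith
  refine (neg_le_neg (sum_le_sum fun ω _ =>
    mul_le_mul_of_nonneg_left (key ω) ((P.edge (P.mix μ δ K)).p0 ω))).trans ?_
  have e1 : ∑ ω : (P.edge (P.mix μ δ K)).Ω, (P.edge (P.mix μ δ K)).p ω *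
      log (μ.nu (ω.1.1.1 none) (ω.1.1.1 (some ω.2))) =
      (μ.E fun s => ∑ i, log (μ.nu (s none) (s (some i)))) / d := by
    rw [Law.E, ← Finset.sum_coe_sort μ.A, sum_div]
    change ∑ ω : (μ.A × (Option (Fin d) → Fin (K + 1))) × Fin d,
      μ.p ω.1.1 / (K + 1) ^ (d + 1) / d * log (μ.nu (ω.1.1.1 none) (ω.1.1.1 (some ω.2))) = _
    simp only [Fintype.sum_prod_type, sum_const, card_univ, Fintype.card_fun, Fintype.card_fin,
      Fintype.card_option, nsmul_eq_mul]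
    refine sum_congr rfl fun s _ => ?_
    rw [← mul_sum]
    push_cast
    field_simp
  simp only [mul_add (b := log (P.r / Z ^ 2) - ε / 2), sum_add_distrib, ← sum_mul,
    (P.edge (P.mix μ δ K)).p1, e1]
  rw [log_div hr.ne' (by positivity), log_pow, hZd, log_mul hδ.ne' (by positivity), neg_div]
  have := log_le_sub_one_of_pos (by positivity : 0 < 1 + ε / 4)
  push_cast
  linarith

end Pool.Agent.P.MP_6b977f_mp.RG
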