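import Pool.Agent.P.MP_6b977f_mp.RG.Api

/-! Sparse small sets, fractional orientations and the mass of level sets. -/

set_option linter.unusedSectionVars false

namespace Pool.Agent.P.MP_6b977f_mp.RG.X91

open Finset
open scoped Classical

variable {V I : Type} [Fintype V] [Fintype I] [DecidableEq V] [DecidableEq I]

/-- small sets span few edges -/
def sparse (M : V × I → V × I) (e K : ℝ) : Prop := ∀ U : Finset V, (#U : ℝ) ≤ K →
  (#(univ.filter fun h : V × I => h.1 ∈ U ∧ (M h).1 ∈ U) : ℝ) ≤ 2 * (1 + e) * #U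

theorem card_nb (M : V × I → V × I) (S : Finset V) :
    #(S ∪ (S ×ˢ univ).image fun h => (M h).1) ≤ (Fintype.card I + 1) * #S :=
  (card_union_le _ _).trans ((Nat.add_le_add_left card_image_le _).trans_eq
    (by rw [card_product, card_univ]; ring))

theorem ori (M : V × I → V × I) (h1 : ∀ h, M (M h) = h) (m : ℕ)
    (hm : 0 < m) (K : ℝ) (hs : sparse M (1 / m) K) (S : Finset V)
    (hS : (Fintype.card I + 1 : ℝ) * #S ≤ K) :
    ∃ w : V × I → ℝ, (∀ h, 0 ≤ w h) ∧ (∀ h, h.1 ∈ S ∨ (M h).1 ∈ S → w h + w (M h) = 1) ∧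
      (∀ h, ¬ (h.1 ∈ S ∨ (M h).1 ∈ S) → w h = 0) ∧ ∀ y, ∑ i, w (M (y, i)) ≤ 1 + 1 / m := by
  have m0 : (0 : ℝ) < m := by exact_mod_cast hm
  let T := {x : (V × I) × Fin m // x.1.1 ∈ S ∨ (M x.1).1 ∈ S}
  let en : T → Finset V := fun x => {x.1.1.1, (M x.1.1).1}
  obtain ⟨f, fi, hf⟩ := (all_card_le_biUnion_card_iff_exists_injective
    fun x : T => en x ×ˢ (univ : Finset (Fin (2 * (m + 1))))).1 fun s => by
      have a1 : (s.biUnion fun x => en x ×ˢ (univ : Finset (Fin (2 * (m + 1))))) =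
          s.biUnion en ×ˢ univ := by
        ext z; simp
      have a2 : s.biUnion en ⊆ S ∪ (S ×ˢ univ).image fun h => (M h).1 := by
        intro y hy
        obtain ⟨x, -, hx⟩ := mem_biUnion.1 hy
        simp only [en, mem_insert, mem_singleton] at hx
        simp only [mem_union, mem_image, mem_product, mem_univ, and_true]
        rcases hx with rfl | rfl <;> rcases x.2 with h | h
        · exact Or.inl h
        · exact Or.inr ⟨_, h, by rw [h1]⟩
        · exact Or.inr ⟨_, h, rfl⟩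
        · exact Or.inl h
      have a4 := hs (s.biUnion en)
        (le_trans (by exact_mod_cast (card_le_card a2).trans (card_nb M S)) hS)
      have a5 : #s ≤ #((univ.filter fun h : V × I =>
          h.1 ∈ s.biUnion en ∧ (M h).1 ∈ s.biUnion en) ×ˢ (univ : Finset (Fin m))) :=
        card_le_card_of_injOn (fun x => x.1) (fun x hx => by
          simp only [coe_product, Set.mem_prod, mem_coe, mem_filter, mem_univ, true_and, and_true]
          exact ⟨mem_biUnion.2 ⟨x, hx, by simp [en]⟩, mem_biUnion.2 ⟨x, hx, by simp [en]⟩⟩)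
          Subtype.val_injective.injOn
      rw [card_product, card_univ, Fintype.card_fin] at a5
      rw [a1, card_product, card_univ, Fintype.card_fin]
      have a6 := mul_le_mul_of_nonneg_right a4 m0.le
      have a7 : (#s : ℝ) ≤ #(s.biUnion en) * (2 * (m + 1)) := by
        refine le_trans (by exact_mod_cast a5) (a6.trans_eq ?_)
        field_simp
      exact_mod_cast a7
  let a : V × I → ℕ := fun h => #(univ.filter fun z : T => z.1.1 = h ∧ (f z).1 = (M h).1)
  let b : V × I → ℕ := fun h => #(univ.filter fun z : T => z.1.1 = h ∧ ¬ (f z).1 = (M h).1)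
  have c0 : ∀ h, a h + b h = #(univ.filter fun z : T => z.1.1 = h) := fun h => by
    simp only [a, b, ← filter_filter, card_filter_add_card_filter_not]
  have c1 : ∀ h, h.1 ∈ S ∨ (M h).1 ∈ S → a h + b h = m := by
    intro h e
    refine (c0 h).trans (Eq.trans ?_ (card_fin m))
    refine card_bij (fun z _ => z.1.2) (fun _ _ => mem_univ _) (fun a ha b hb e => ?_)
      fun s _ => ⟨⟨(h, s), e⟩, by simp, rfl⟩
    exact Subtype.ext (Prod.ext ((mem_filter.1 ha).2.trans (mem_filter.1 hb).2.symm) e)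
  have c2 : ∀ h, ¬ (h.1 ∈ S ∨ (M h).1 ∈ S) → a h + b h = 0 := fun h e => (c0 h).trans
    (card_eq_zero.2 (filter_eq_empty_iff.2 fun z _ u => e (by have := z.2; rwa [u] at this)))
  have c3 : ∀ y, ∑ i, (a (M (y, i)) + b (y, i)) ≤ 2 * (m + 1) := by
    intro y
    have a1 : #(univ.filter fun z : T => (f z).1 = y) ≤ 2 * (m + 1) := by
      refine le_trans (card_le_card_of_injOn (fun z => (f z).2) (fun _ _ => mem_univ _)
        fun a ha b hb e => fi (Prod.ext ?_ e)) (card_fin _).le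
      exact (mem_filter.1 ha).2.trans (mem_filter.1 hb).2.symm
    rw [← card_filter_add_card_filter_not fun z => (f z).1 = (M z.1.1).1,
      card_eq_sum_card_fiberwise (f := fun z : T => (M z.1.1).2) (t := univ) fun _ _ => mem_univ _,
      card_eq_sum_card_fiberwise (f := fun z : T => z.1.1.2) (t := univ) fun _ _ => mem_univ _,
      ← sum_add_distrib] at a1
    refine le_trans (sum_le_sum fun i _ => Nat.add_le_add (card_le_card fun z hz => ?_)
      (card_le_card fun z hz => ?_)) a1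
    · simp only [mem_filter, mem_univ, true_and] at hz ⊢
      simp only [hz.1, hz.2, h1, and_self]
    · have := (mem_product.1 (hf z)).1
      simp only [mem_filter, mem_univ, true_and, en, mem_insert, mem_singleton] at hz this ⊢
      rw [hz.1] at this ⊢
      exact ⟨⟨this.resolve_right hz.2, hz.2⟩, rfl⟩
  refine ⟨fun h => (a h + b (M h) : ℕ) / (2 * m), fun _ => by positivity,
    fun h e => ?_, fun h e => ?_, fun y => ?_⟩
  · have a1 := c1 h e
    have a2 := c1 (M h) (by rw [h1]; exact e.symm)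
    simp only [h1]
    rw [← add_div, div_eq_one_iff_eq (by positivity)]
    exact_mod_cast (by omega)
  · have a1 := c2 h e
    have a2 := c2 (M h) (by rw [h1]; exact fun u => e u.symm)
    simp only [show a h + b (M h) = 0 by omega, Nat.cast_zero, zero_div]
  · simp only [h1]
    rw [← sum_div, div_le_iff₀ (by positivity), ← Nat.cast_sum]
    refine le_trans (Nat.cast_le.2 (c3 y)) (le_of_eq ?_)
    push_cast
    field_simp

theorem flow (M : V × I → V × I) (h1 : ∀ h, M (M h) = h) (S : Finset V) (w G : V × I → ℝ)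
    (e k C B : ℝ) (w0 : ∀ h, 0 ≤ w h) (w1 : ∀ h, h.1 ∈ S ∨ (M h).1 ∈ S → w h + w (M h) = 1)
    (w2 : ∀ h, ¬ (h.1 ∈ S ∨ (M h).1 ∈ S) → w h = 0) (w3 : ∀ y, ∑ i, w (M (y, i)) ≤ 1 + e)
    (G0 : ∀ h, 0 ≤ G h) (G1 : ∀ y i, G (M (y, i)) ≤ k * ∑ j ∈ univ.erase i, G (y, j))
    (G2 : ∀ h, G (M h) ≤ C * G h) (G3 : ∀ h, ¬ (h.1 ∈ S ∨ (M h).1 ∈ S) → G h ≤ B)
    (k0 : 0 ≤ k) (e0 : 0 ≤ e) (C0 : 0 ≤ C) (B0 : 0 ≤ B) (i0 : I) :
    (1 - k * (1 + e * (1 + C))) * ∑ x ∈ S, G (x, i0) ≤
      (1 + C) * (k * (B * (2 * Fintype.card I ^ 2 * #S))) := by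
  have R0 : 0 ≤ (1 + C) * (k * (B * (2 * Fintype.card I ^ 2 * #S))) :=
    mul_nonneg (by linarith) (mul_nonneg k0 (mul_nonneg B0
      (mul_nonneg (mul_nonneg zero_le_two (sq_nonneg _)) (Nat.cast_nonneg _))))
  have re : ∀ F : V × I → ℝ, ∑ h, F (M h) = ∑ h, F h :=
    Equiv.sum_comp (Function.Involutive.toPerm M h1)
  obtain ⟨X, hX⟩ : ∃ X, X = ∑ h, w h * G h := ⟨_, rfl⟩
  obtain ⟨Y, hY⟩ : ∃ Y, Y = ∑ h, (w h + w (M h)) * G h := ⟨_, rfl⟩
  have a1 : Y ≤ (1 + C) * X := by
    have : ∑ h, w (M h) * G h ≤ C * X := by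
      rw [← re, hX, mul_sum]
      refine sum_le_sum fun h _ => ?_
      rw [h1, mul_left_comm]
      exact mul_le_mul_of_nonneg_left (G2 h) (w0 _)
    simp only [hY, add_mul, sum_add_distrib]
    linarith
  have a2 : ∑ x ∈ S, G (x, i0) ≤ Y := by
    have p : ∀ h, 0 ≤ (w h + w (M h)) * G h := fun h => mul_nonneg (add_nonneg (w0 _) (w0 _)) (G0 _)
    rw [hY, Fintype.sum_prod_type]
    refine le_trans (sum_le_sum fun x hx => ?_) (sum_le_sum_of_subset_of_nonneg (subset_univ S)
      fun x _ _ => sum_nonneg fun i _ => p _)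
    refine le_trans ?_ (single_le_sum (fun i _ => p (x, i)) (mem_univ i0))
    rw [w1 (x, i0) (Or.inl hx), one_mul]
  have a3 : ∑ h, w h ≤ 2 * Fintype.card I * #S := by
    have b1 : ∑ h : V × I, (if h.1 ∈ S then (1 : ℝ) else 0) = Fintype.card I * #S := by
      rw [Fintype.sum_prod_type_right]
      simp
    have b2 := re fun h => if h.1 ∈ S then (1 : ℝ) else 0
    have b3 : ∑ h, w h ≤ ∑ h : V × I,
        ((if h.1 ∈ S then (1 : ℝ) else 0) + if (M h).1 ∈ S then (1 : ℝ) else 0) := by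
      refine sum_le_sum fun h _ => ?_
      by_cases u : h.1 ∈ S ∨ (M h).1 ∈ S
      · have := w1 h u
        have := w0 (M h)
        split_ifs with u' v v
        · linarith
        · linarith
        · linarith
        · exact absurd u (by simp [u', v])
      · rw [w2 h u]; positivity
    rw [sum_add_distrib] at b3
    linarith
  have a4 : X ≤ k * (X + e * Y + B * (2 * Fintype.card I ^ 2 * #S)) := by
    have b1 : X ≤ k * ∑ h : V × I, G h * (∑ i, w (M (h.1, i)) - w (M h)) := by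
      rw [hX, ← re, Fintype.sum_prod_type, Fintype.sum_prod_type, mul_sum]
      refine sum_le_sum fun y _ => ?_
      refine le_trans (sum_le_sum fun i _ => mul_le_mul_of_nonneg_left (G1 _ i) (w0 _))
        (le_of_eq ?_)
      simp only [sum_erase_eq_sub (mem_univ _), mul_sub, sum_sub_distrib]
      congr 1
      · rw [← sum_mul, ← sum_mul]; ring
      · rw [mul_sum]; exact sum_congr rfl fun i _ => by ring
    refine b1.trans (mul_le_mul_of_nonneg_left ?_ k0)
    have b2 : ∑ h : V × I, G h * (∑ i, w (M (h.1, i)) - w (M h)) ≤ ∑ h : V × I,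
        (w h * G h + e * ((w h + w (M h)) * G h) + B * ∑ i, w (M (h.1, i))) := by
      refine sum_le_sum fun h _ => ?_
      have l0 : 0 ≤ ∑ i, w (M (h.1, i)) := sum_nonneg fun i _ => w0 _
      by_cases u : h.1 ∈ S ∨ (M h).1 ∈ S
      · have u' := w1 h u
        have := mul_le_mul_of_nonneg_left (show ∑ i, w (M (h.1, i)) - w (M h) ≤ w h + e by
          linarith [w3 h.1]) (G0 h)
        rw [u']
        linarith [mul_nonneg B0 l0]
      · rw [w2 h u, w2 (M h) (by rw [h1]; exact fun a => u a.symm)]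
        linarith [mul_le_mul_of_nonneg_right (G3 h u) l0]
    refine b2.trans ?_
    have b3 : ∑ h : V × I, ∑ i, w (M (h.1, i)) = Fintype.card I * ∑ h, w h := by
      rw [← re w, Fintype.sum_prod_type, Fintype.sum_prod_type, mul_sum]
      simp
    simp only [sum_add_distrib, ← mul_sum]
    rw [b3, ← hX, ← hY]
    linarith [mul_le_mul_of_nonneg_left a3 (mul_nonneg B0 (Nat.cast_nonneg (Fintype.card I)))]
  by_cases h : 0 ≤ 1 - k * (1 + e * (1 + C))
  · refine (mul_le_mul_of_nonneg_left (a2.trans a1) h).trans ?_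
    rw [mul_left_comm]
    refine mul_le_mul_of_nonneg_left ?_ (by linarith)
    linarith [mul_le_mul_of_nonneg_left a1 (mul_nonneg k0 e0)]
  · exact (mul_nonpos_of_nonpos_of_nonneg (not_le.1 h).le (sum_nonneg fun x _ => G0 _)).trans R0

theorem massp (d : ℕ) (hd : 3 ≤ d) (κ p : ℝ) (hκ : 0 < κ) (p1 : 1 ≤ p) (p2 : p < 2) :
    ∃ m : ℕ, 0 < m ∧ ∃ C : ℝ, 0 ≤ C ∧ ∀ (V I : Type) [Fintype V] [Fintype I] [DecidableEq V]
      [DecidableEq I] (M : V × I → V × I)
      (lam t K : ℝ) (ψ : V → ℝ), Fintype.card I = d → (∀ h, M (M h) = h) →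
      lam ^ 2 ≤ 4 * (d - 1) - κ → (∀ x, ∑ i, ψ (M (x, i)).1 = lam * ψ x) → 0 ≤ t →
      sparse M (1 / m) K → (d + 1 : ℝ) * #(univ.filter fun x => t < |ψ x|) ≤ K →
      ∑ x ∈ univ.filter fun x => t < |ψ x|, |ψ x| ^ p ≤
        C * t ^ p * #(univ.filter fun x => t < |ψ x|) := by
  obtain ⟨q, hq⟩ : ∃ q : ℝ, q = d - 1 := ⟨_, rfl⟩
  have q2 : 2 ≤ q := by
    have : (3 : ℝ) ≤ d := by exact_mod_cast hd
    linarith
  obtain ⟨k, hk⟩ : ∃ k, k = q ^ (p / 2 - 1) := ⟨_, rfl⟩
  have k0 : 0 < k := hk ▸ Real.rpow_pos_of_pos (by linarith) _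
  have k1 : k < 1 := hk ▸ Real.rpow_lt_one_of_one_lt_of_neg (by linarith) (by linarith)
  have y0 : 0 < √κ / 2 := by positivity
  obtain ⟨c, hc⟩ : ∃ c, c = 2 * q ^ 2 / (√κ / 2) := ⟨_, rfl⟩
  have c0 : 0 < c := hc ▸ div_pos (by positivity) y0
  obtain ⟨m, hm⟩ := exists_nat_gt (2 * k * (1 + c ^ p) / (1 - k))
  have cp : 0 < c ^ p := Real.rpow_pos_of_pos c0 _
  have m0 : (0 : ℝ) < m := lt_trans (div_pos (by positivity) (by linarith)) hm
  have hm' : (1 - k) / 2 ≤ 1 - k * (1 + 1 / m * (1 + c ^ p)) := by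
    rw [div_lt_iff₀ (by linarith)] at hm
    have : k * (1 / m * (1 + c ^ p)) ≤ (1 - k) / 2 := by
      rw [one_div, inv_mul_eq_div, ← mul_div_assoc, div_le_iff₀ m0]; linarith
    linarith
  refine ⟨m, by exact_mod_cast m0, c ^ p * ((1 + c ^ p) * k * (2 * q) ^ p * (2 * d ^ 2)) /
    ((1 - k) / 2), div_nonneg (by positivity) (by linarith), ?_⟩
  intro V I _ _ _ _ M lam t K ψ hI h1 hl he t0 hs hK
  rw [← hq] at hl
  obtain ⟨w, w0, w1, w2, w3⟩ := ori M h1 m (by exact_mod_cast m0) K hs _ (hI ▸ hK)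
  obtain ⟨y, hy⟩ : ∃ y, y = √(q - lam ^ 2 / 4) := ⟨_, rfl⟩
  have y1 : √κ / 2 ≤ y := by
    rw [hy]
    refine Real.le_sqrt_of_sq_le ?_
    rw [div_pow, Real.sq_sqrt hκ.le]; linarith
  have y2 : y ^ 2 = q - lam ^ 2 / 4 := by rw [hy, Real.sq_sqrt (by linarith)]
  let μ : ℂ := ⟨lam / 2, y⟩
  have μ1 : μ * μ + q = lam * μ := by
    apply Complex.ext <;> simp [μ] <;> nlinarith
  have μ2 : ‖μ‖ = √q := by
    rw [Complex.norm_eq_sqrt_sq_add_sq]; congr 1; simp only [μ]; linarith
  have s1 : 1 ≤ √q := Real.one_le_sqrt.2 (by linarith)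
  have s2 : √q ≤ q := Real.sqrt_le_self_iff.2 (Or.inr (by linarith))
  have n1 : ∀ a b : ℝ, ‖μ * b - a‖ ≤ q * (|a| + |b|) := fun a b => by
    refine (norm_sub_le _ _).trans ?_
    rw [norm_mul, μ2, Complex.norm_real, Complex.norm_real, Real.norm_eq_abs, Real.norm_eq_abs]
    nlinarith [abs_nonneg a, abs_nonneg b]
  have n2 : ∀ a b : ℝ, y * |b| ≤ ‖μ * b - a‖ := fun a b => by
    refine le_trans (le_of_eq ?_) (Complex.abs_im_le_norm _)
    simp [μ, abs_of_pos (y0.trans_le y1)]
  have n3 : ∀ a b : ℝ, y * |a| ≤ q * ‖μ * b - a‖ := fun a b => by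
    have h := Complex.abs_im_le_norm ((starRingEnd ℂ) μ * (μ * b - a))
    rw [norm_mul, Complex.norm_conj, μ2] at h
    refine le_trans (le_of_eq ?_) (h.trans (mul_le_mul_of_nonneg_right s2 (norm_nonneg _)))
    rw [← abs_of_pos (y0.trans_le y1), ← abs_mul]
    congr 1
    simp [μ]; ring
  have n4 : ∀ a b : ℝ, q * (|a| + |b|) ≤ c * ‖μ * b - a‖ := fun a b => by
    rw [hc, div_mul_eq_mul_div, le_div_iff₀ y0]
    have u1 := mul_le_mul_of_nonneg_right y1 (add_nonneg (abs_nonneg a) (abs_nonneg b))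
    have u2 := mul_le_mul_of_nonneg_right (show 1 ≤ q by linarith) (norm_nonneg (μ * b - a))
    have u3 := mul_le_mul_of_nonneg_left (show √κ / 2 * (|a| + |b|) ≤ 2 * q * ‖μ * b - a‖ by
      linarith [n2 a b, n3 a b]) (show 0 ≤ q by linarith)
    linarith
  have p0 : 0 ≤ p := by linarith
  obtain ⟨i0⟩ : Nonempty I := Fintype.card_pos_iff.1 (by omega)
  have key := flow M h1 (univ.filter fun x => t < |ψ x|) w
    (fun h => ‖μ * ψ (M h).1 - ψ h.1‖ ^ p) (1 / m) k (c ^ p) ((2 * q) ^ p * t ^ p) w0 w1 w2 w3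
    (fun _ => by positivity) (fun x i => ?_) (fun h => ?_) (fun h u => ?_) k0.le (by positivity)
    cp.le (by positivity) i0
  · rw [hI] at key
    have u1 : ∑ x ∈ univ.filter fun x => t < |ψ x|, |ψ x| ^ p ≤ c ^ p *
        ∑ x ∈ univ.filter fun x => t < |ψ x|, ‖μ * ψ (M (x, i0)).1 - ψ x‖ ^ p := by
      rw [mul_sum]
      refine sum_le_sum fun x _ => ?_
      rw [← Real.mul_rpow c0.le (norm_nonneg _)]
      refine Real.rpow_le_rpow (abs_nonneg _) (le_trans ?_ (n4 _ _)) p0
      nlinarith [abs_nonneg (ψ x), abs_nonneg (ψ (M (x, i0)).1)]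
    have u2 := (mul_le_mul_of_nonneg_right hm' (sum_nonneg fun _ _ => by positivity)).trans key
    rw [div_mul_eq_mul_div, div_mul_eq_mul_div, le_div_iff₀ (by linarith)]
    linarith [mul_le_mul_of_nonneg_left u2 cp.le,
      mul_le_mul_of_nonneg_right u1 (show 0 ≤ (1 - k) / 2 by linarith)]
  · have u0 : (#(univ.erase i) : ℝ) = q := by
      rw [card_erase_of_mem (mem_univ _), card_univ, hI, Nat.cast_pred (by omega), hq]
    have u1 : μ * (μ * ψ x - ψ (M (x, i)).1) =
        ∑ j ∈ univ.erase i, (μ * ψ (M (x, j)).1 - ψ x) := by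
      have v : ∑ j, (ψ (M (x, j)).1 : ℂ) = lam * ψ x := by exact_mod_cast he x
      have v' : (#(univ.erase i) : ℂ) = q := by exact_mod_cast u0
      rw [sum_sub_distrib, ← mul_sum, sum_erase_eq_sub (mem_univ _), v, sum_const, nsmul_eq_mul, v']
      linear_combination (ψ x : ℂ) * μ1
    have u2 := norm_sum_le (univ.erase i) fun j => μ * ψ (M (x, j)).1 - ψ x
    rw [← u1, norm_mul, μ2] at u2
    have u3 := (Real.rpow_le_rpow (by positivity) u2 p0).trans
      (Real.rpow_sum_le_const_mul_sum_rpow_of_nonneg _ p1 fun _ _ => norm_nonneg _)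
    rw [u0, Real.mul_rpow (by positivity) (norm_nonneg _), Real.sqrt_eq_rpow,
      ← Real.rpow_mul (by linarith), show p - 1 = 1 / 2 * p + (p / 2 - 1) by ring,
      Real.rpow_add (by linarith), mul_assoc, ← hk] at u3
    simp only [h1]
    exact le_of_mul_le_mul_left u3 (Real.rpow_pos_of_pos (by linarith) _)
  · simp only [h1]
    rw [← Real.mul_rpow c0.le (norm_nonneg _)]
    exact Real.rpow_le_rpow (norm_nonneg _) ((n1 _ _).trans (add_comm |ψ _| _ ▸ n4 _ _)) p0
  · simp only [mem_filter, mem_univ, true_and, not_or, not_lt] at u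
    rw [← Real.mul_rpow (by linarith) t0]
    exact Real.rpow_le_rpow (norm_nonneg _) ((n1 _ _).trans ((mul_le_mul_of_nonneg_left
      (add_le_add u.1 u.2) (by linarith)).trans_eq (by ring))) p0

theorem free (M : V × I → V × I) (h1 : ∀ h, M (M h) = h) (hd : 3 ≤ Fintype.card I) (e K : ℝ)
    (he : e ≤ 1 / 10) (hs : sparse M e K) (S : Finset V) (hS : (Fintype.card I + 1 : ℝ) * #S ≤ K) :
    (#S : ℝ) ≤ 2 * #(univ.filter fun y => y ∉ S ∧ ∃ i, (M (y, i)).1 ∈ S ∧
      ∀ j, j ≠ i → (M (y, j)).1 ∉ S) := by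
  let P : Finset V → Finset V → Finset (V × I) := fun A B =>
    univ.filter fun h => h.1 ∈ A ∧ (M h).1 ∈ B
  let k : V → ℕ := fun y => #(univ.filter fun i => (M (y, i)).1 ∈ S)
  have P1 : ∀ A B, #(P A B) = #(P B A) := fun A B =>
    card_bijective M (Function.Involutive.bijective h1) fun h => by simp [P, h1, and_comm]
  have P2 : ∀ A B, #(P A B) = ∑ y ∈ A, #(univ.filter fun i => (M (y, i)).1 ∈ B) := fun A B => by
    rw [card_filter, Fintype.sum_prod_type, ← sum_subset (subset_univ A) fun x _ u => by simp [u]]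
    exact sum_congr rfl fun x u => by simp only [u, true_and, card_filter]
  let B := univ.filter fun y => y ∉ S ∧ 2 ≤ k y
  have a1 : ∑ y, k y = Fintype.card I * #S := by
    rw [← P2, P1, P2]; simp [mul_comm]
  have a2 : ∑ y, k y ≤ #(P S S) + #(P B S) + #(univ.filter fun y => y ∉ S ∧ ∃ i,
      (M (y, i)).1 ∈ S ∧ ∀ j, j ≠ i → (M (y, j)).1 ∉ S) := by
    rw [P2, P2, card_filter, ← sum_filter_add_sum_filter_not univ (· ∈ S), filter_mem_eq_inter,
      univ_inter, add_assoc, sum_filter, sum_filter, ← sum_add_distrib]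
    refine Nat.add_le_add_left (sum_le_sum fun y _ => ?_) _
    by_cases u : y ∈ S
    · simp [u]
    · by_cases v : 2 ≤ k y
      · simp [u, v, k]
      · rcases Nat.le_one_iff_eq_zero_or_eq_one.1 (show k y ≤ 1 by omega) with z | z
        · simp [z]
        · obtain ⟨i, hi⟩ := card_eq_one.1 z
          rw [if_pos u, if_neg fun a => v a.2, z, if_pos ⟨u, i,
            (mem_filter.1 (hi ▸ mem_singleton_self i :)).2, fun j hj a =>
              hj (mem_singleton.1 (hi ▸ mem_filter.2 ⟨mem_univ j, a⟩))⟩]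
  have a3 : 2 * #B ≤ #(P B S) := by
    rw [P2, mul_comm]
    exact card_nsmul_le_sum B k 2 fun y hy => (mem_filter.1 hy).2.2
  have dj : ∀ y ∈ B, y ∉ S := fun y hy => (mem_filter.1 hy).2.1
  have a4 : #(P S S) + #(P B S) + #(P S B) ≤ #(P (S ∪ B) (S ∪ B)) := by
    rw [← card_union_of_disjoint (disjoint_filter.2 fun h _ a b => dj _ b.1 a.1),
      ← card_union_of_disjoint (disjoint_union_left.2 ⟨disjoint_filter.2 fun h _ a b => dj _ b.2 a.2,
        disjoint_filter.2 fun h _ a b => dj _ a.1 b.1⟩)]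
    refine card_le_card fun h => ?_
    simp only [P, mem_union, mem_filter, mem_univ, true_and]
    tauto
  have a5 : S ∪ B ⊆ S ∪ (S ×ˢ univ).image fun h => (M h).1 :=
    union_subset_union_right fun y hy => by
      obtain ⟨i, hi⟩ := card_pos.1 (show 0 < k y by have := (mem_filter.1 hy).2.2; omega)
      exact mem_image.2 ⟨M (y, i), by simpa using hi, by rw [h1]⟩
  have a6 := (hs (S ∪ B) (le_trans (by exact_mod_cast (card_le_card a5).trans (card_nb M S))
    hS)).trans (mul_le_mul (show 2 * (1 + e) ≤ 11 / 5 by linarith)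
      (Nat.cast_le.2 (card_union_le S B)) (Nat.cast_nonneg _) (by norm_num))
  have a7 : 10 * #(P (S ∪ B) (S ∪ B)) ≤ 22 * (#S + #B) := by
    have : (10 : ℝ) * #(P (S ∪ B) (S ∪ B)) ≤ 22 * (#S + #B : ℕ) := by linarith
    exact_mod_cast this
  have a8 := Nat.mul_le_mul_right #S hd
  rw [P1 S B] at a4
  rw [← Nat.cast_ofNat, ← Nat.cast_mul, Nat.cast_le]
  omega

theorem sw {H : Type} [Fintype H] [DecidableEq H] (T : Finset H) (L : ℕ) (A : Finset H) :
    2 * #A + L ≤ Fintype.card H →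
    #((Inv H).filter fun M => ∀ h ∈ A, M h ∈ T ∧ M h ∉ A) * L ^ #A ≤ #T ^ #A * #(Inv H) := by
  induction A using Finset.induction_on with
  | empty => simp
  | insert a A ha ih =>
    rw [card_insert_of_notMem ha]
    intro hL
    have key := card_mul_le_card_mul
      (s := (Inv H).filter fun M => ∀ h ∈ insert a A, M h ∈ T ∧ M h ∉ insert a A)
      (t := (Inv H).filter fun M => ∀ h ∈ A, M h ∈ T ∧ M h ∉ A) (m := L) (n := #T)
      (fun M M' => M' = Equiv.swap (M a) (M' a) * M * Equiv.swap (M a) (M' a))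
      (fun M hM => ?_) (fun M' _ => ?_)
    · calc _ = _ * L * L ^ #A := by ring
        _ ≤ _ * #T * L ^ #A := Nat.mul_le_mul_right _ key
        _ = #T * (_ * L ^ #A) := by ring
        _ ≤ #T * (#T ^ #A * #(Inv H)) := Nat.mul_le_mul_left _ (ih (by omega))
        _ = _ := by ring
    · simp only [mem_Inv, mem_filter, mem_insert, not_or] at hM
      have a1 : L ≤ #(insert a A ∪ A.image M)ᶜ := by
        have := card_union_le (insert a A) (A.image M)
        have := card_image_le (s := A) (f := M)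
        rw [card_compl, card_insert_of_notMem ha] at *
        omega
      have a2 : ∀ b ∈ (insert a A ∪ A.image M)ᶜ,
          (Equiv.swap (M a) b * M * Equiv.swap (M a) b) a = b := fun b hb => by
        simp only [mem_compl, mem_union, mem_insert, not_or] at hb
        simp [Equiv.swap_apply_of_ne_of_ne (hM.1 a).2.symm (Ne.symm hb.1.1)]
      refine a1.trans (card_le_card_of_injOn
        (fun b => Equiv.swap (M a) b * M * Equiv.swap (M a) b) (fun b hb => ?_)
        fun b hb b' hb' e => by rw [← a2 b hb, ← a2 b' hb']; exact congrArg (· a) e)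
      simp only [coe_bipartiteAbove, Set.mem_ofPred_eq, mem_filter, mem_Inv, a2 b hb, and_true]
      simp only [mem_coe, mem_compl, mem_union, mem_insert, not_or, mem_image, not_exists,
        not_and] at hb
      refine ⟨fun h => ⟨by simp [(hM.1 _).1], fun e => (hM.1 (Equiv.swap (M a) b h)).2 ?_⟩,
        fun h hh => ?_⟩
      · simpa [Equiv.swap_apply_eq_iff] using e
      · have u := hM.2 h (Or.inr hh)
        have v : h ≠ a := fun e => ha (e ▸ hh)
        simp only [Equiv.Perm.mul_apply]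
        rw [Equiv.swap_apply_of_ne_of_ne (x := h) (a := M a) (b := b)
          (fun e => (hM.2 a (Or.inl rfl)).2.2 (e ▸ hh)) fun e => hb.1.2 (e ▸ hh),
          Equiv.swap_apply_of_ne_of_ne (M.injective.ne v) (hb.2 h hh)]
        exact ⟨u.1, u.2.2⟩
    · refine card_le_card_of_injOn (fun M => M a) (fun M hM => ?_) fun M hM N hN e => ?_
      · exact ((mem_filter.1 ((mem_bipartiteBelow _).1 hM).1).2 a (mem_insert_self _ _)).1
      · have u := ((mem_bipartiteBelow _).1 hM).2
        have v := ((mem_bipartiteBelow _).1 hN).2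
        simp only at e
        rw [← e] at v
        exact mul_left_cancel (mul_right_cancel (u.symm.trans v))

theorem choose_le (N s : ℕ) (hs : 0 < s) : (N.choose s : ℝ) ≤ (3 * N / s) ^ s := by
  have s0 : (0 : ℝ) < s := by exact_mod_cast hs
  have a1 : (s : ℝ) ^ s / s.factorial ≤ 3 ^ s := (Real.pow_div_factorial_le_exp _ s0.le s).trans (by
    rw [← Real.exp_one_pow]
    exact pow_le_pow_left₀ (Real.exp_pos _).le (Real.exp_one_lt_three.le) _)
  refine (Nat.choose_le_pow_div s N).trans ?_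
  rw [div_le_iff₀ (by positivity)] at a1
  rw [div_pow, div_le_div_iff₀ (by positivity) (by positivity), mul_pow]
  linarith [mul_le_mul_of_nonneg_left a1 (pow_nonneg (Nat.cast_nonneg (α := ℝ) N) s)]

theorem term_le {N B x : ℝ} {s j k : ℕ} (hB : 1 ≤ B) (hj : s ≤ k * (j + 1)) (x0 : 0 ≤ x)
    (x1 : (4 * B) ^ k * x ≤ 1) (hx : x * N = 2 * s) :
    B ^ s * x ^ (j + 1) * N ≤ 2 * (4 * B) ^ k * (1 / 2) ^ s := by
  have a1 : (4 * B) ^ s ≤ ((4 * B) ^ k) ^ (j + 1) := by
    rw [← pow_mul]; exact pow_le_pow_right₀ (by linarith) hj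
  have a2 : ((4 * B) ^ k * x) ^ (j + 1) ≤ (4 * B) ^ k * x :=
    pow_le_of_le_one (by positivity) x1 j.succ_ne_zero
  have a3 : (s : ℝ) ≤ 2 ^ s := by exact_mod_cast s.lt_two_pow_self.le
  have a4 : (4 * B) ^ s * x ^ (j + 1) ≤ (4 * B) ^ k * x :=
    (mul_le_mul_of_nonneg_right a1 (by positivity)).trans (by rwa [mul_pow] at a2)
  rcases x0.eq_or_lt with rfl | x2
  · simp; positivity
  have N0 : 0 ≤ N := nonneg_of_mul_nonneg_right (hx ▸ by positivity) x2
  have a5 := mul_le_mul_of_nonneg_right a4 N0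
  rw [mul_assoc _ x, hx, mul_pow 4 B s, show (4 : ℝ) ^ s = 2 ^ s * 2 ^ s by
    rw [← mul_pow]; norm_num] at a5
  rw [one_div_pow, mul_one_div, le_div_iff₀ (by positivity)]
  refine le_of_mul_le_mul_left ?_ (show (0 : ℝ) < 2 ^ s by positivity)
  linarith [mul_le_mul_of_nonneg_left a3 (show 0 ≤ (4 * B) ^ k by positivity)]

theorem sp (d k : ℕ) (hd : 0 < d) (hk : 0 < k) : ∃ c : ℝ, 0 < c ∧ ∃ C : ℝ, 0 ≤ C ∧
    ∀ (V I : Type) [Fintype V] [Fintype I] [DecidableEq V] [DecidableEq I], Fintype.card I = d →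
    (#((Inv (V × I)).filter fun M : Equiv.Perm (V × I) =>
      ¬ sparse M (1 / k) (c * Fintype.card V)) : ℝ) * Fintype.card V ≤ C * #(Inv (V × I)) := by
  obtain ⟨B, hB⟩ : ∃ B : ℝ, B = 6 * 2 ^ d := ⟨_, rfl⟩
  have B6 : 6 ≤ B := by
    have : (1 : ℝ) ≤ 2 ^ d := one_le_pow₀ one_le_two
    linarith
  have B7 : 6 ≤ (4 * B) ^ k := le_trans (by linarith) (le_self_pow₀ (by linarith) hk.ne')
  refine ⟨1 / (2 * (4 * B) ^ k), by positivity, 4 * (4 * B) ^ k, by positivity, ?_⟩
  intro V I _ _ _ _ hI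
  obtain ⟨N, hN⟩ : ∃ N, N = Fintype.card V := ⟨_, rfl⟩
  rw [← hN]
  let R := (range (N + 1)).filter fun s : ℕ => 0 < s ∧ (4 * B) ^ k * (2 * s) ≤ N
  let E : Finset V → Finset (V × I) → Finset (Equiv.Perm (V × I)) := fun U A =>
    (Inv (V × I)).filter fun M => ∀ h ∈ A, M h ∈ U ×ˢ univ ∧ M h ∉ A
  have a1 : ((Inv (V × I)).filter fun M : Equiv.Perm (V × I) =>
      ¬ sparse M (1 / k) (1 / (2 * (4 * B) ^ k) * N)) ⊆ R.biUnion fun s =>
      (powersetCard s univ).biUnion fun U =>
      (powersetCard (s + (s / k + 1)) (U ×ˢ univ)).biUnion fun A => E U A := by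
    intro M hM
    obtain ⟨hM, h⟩ := mem_filter.1 hM
    have h1 := mem_Inv.1 hM
    simp only [sparse, not_forall, not_le] at h
    obtain ⟨U, hU, h⟩ := h
    let r := Fintype.equivFin (V × I)
    let A := univ.filter fun h : V × I => (h.1 ∈ U ∧ (M h).1 ∈ U) ∧ r h < r (M h)
    have b1 : #(univ.filter fun h : V × I => h.1 ∈ U ∧ (M h).1 ∈ U) ≤ #A + #A := by
      refine le_trans (card_le_card fun h hh => ?_) ((card_union_le A (A.image M)).trans
        (Nat.add_le_add_left card_image_le _))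
      rw [mem_filter] at hh
      rcases lt_or_gt_of_ne (r.injective.ne (h1 h).2) with u | u
      · exact mem_union_right _ (mem_image.2 ⟨M h, by simp [A, (h1 h).1, hh.2, u], (h1 h).1⟩)
      · exact mem_union_left _ (by simp [A, hh.2, u])
    have b2 : #U + (#U / k + 1) ≤ #A := by
      have u : ((#U / k : ℕ) : ℝ) ≤ #U / k := Nat.cast_div_le
      have v : ((#U + #U / k : ℕ) : ℝ) < #A := by
        have := h.trans_le (Nat.cast_le.2 b1)
        push_cast at this ⊢
        rw [div_eq_mul_one_div] at u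
        linarith
      exact_mod_cast v
    obtain ⟨A', u, v⟩ := exists_subset_card_eq b2
    refine mem_biUnion.2 ⟨#U, mem_filter.2 ⟨mem_range_succ_iff.2 (hN ▸ card_le_univ U),
      Nat.pos_of_ne_zero fun e => ?_, ?_⟩, mem_biUnion.2 ⟨U, by simp, mem_biUnion.2 ⟨A',
      mem_powersetCard.2 ⟨fun h hh => ?_, v⟩, mem_filter.2 ⟨hM, fun h hh => ⟨?_, fun e => ?_⟩⟩⟩⟩⟩
    · simp [card_eq_zero.1 e] at h
    · rw [one_div, inv_mul_eq_div, le_div_iff₀ (by positivity)] at hU
      linarith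
    · simpa using (mem_filter.1 (u hh)).2.1.1
    · simpa using (mem_filter.1 (u hh)).2.1.2
    · have := (mem_filter.1 (u e)).2.2
      rw [(h1 h).1] at this
      exact lt_asymm this (mem_filter.1 (u hh)).2.2
  have a2 : ∀ s ∈ R, (#((powersetCard s univ).biUnion fun U =>
      (powersetCard (s + (s / k + 1)) (U ×ˢ univ)).biUnion fun A => E U A) : ℝ) * N ≤
      2 * (4 * B) ^ k * (1 / 2) ^ s * #(Inv (V × I)) := by
    intro s hs
    obtain ⟨-, s0, s1⟩ := mem_filter.1 hs
    have s2 : (0 : ℝ) < s := by exact_mod_cast s0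
    have s3 : (12 : ℝ) * s ≤ N := by nlinarith
    have N0 : (0 : ℝ) < N := by linarith
    have s4 : 4 * (s + (s / k + 1)) ≤ N * d := by
      have : 12 * s ≤ N := by exact_mod_cast s3
      have := Nat.div_le_self s k
      have := Nat.le_mul_of_pos_right N hd
      omega
    have b1 : ∀ U ∈ powersetCard s (univ : Finset V), ∀ A ∈ powersetCard (s + (s / k + 1))
        (U ×ˢ (univ : Finset I)), (#(E U A) : ℝ) ≤
          (2 * s / N) ^ (s + (s / k + 1)) * #(Inv (V × I)) := by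
      intro U hU A hA
      have u := sw (U ×ˢ univ) (N * d - 2 * (s + (s / k + 1))) A (by
        rw [(mem_powersetCard.1 hA).2, Fintype.card_prod, ← hN, hI]; omega)
      rw [(mem_powersetCard.1 hA).2, card_product, (mem_powersetCard.1 hU).2, card_univ, hI] at u
      have v : (N : ℝ) * d ≤ 2 * (N * d - 2 * (s + (s / k + 1)) : ℕ) := by
        exact_mod_cast (by omega)
      have d0 : (0 : ℝ) < d := by exact_mod_cast hd
      have u' := (Nat.cast_le (α := ℝ)).2 u
      rw [Nat.cast_mul, Nat.cast_mul, Nat.cast_pow, Nat.cast_pow] at u'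
      have w := (mul_le_mul_of_nonneg_left (pow_le_pow_left₀ (by positivity)
        ((div_le_iff₀' two_pos).2 v) _) (Nat.cast_nonneg _)).trans u'
      rw [← le_div_iff₀ (by positivity), mul_div_right_comm, ← div_pow] at w
      refine w.trans_eq ?_
      push_cast
      congr 2
      field_simp
    have b2 : (#((powersetCard s univ).biUnion fun U =>
        (powersetCard (s + (s / k + 1)) (U ×ˢ univ)).biUnion fun A => E U A) : ℝ) ≤
        (3 * N / s) ^ s * ((2 ^ d) ^ s * ((2 * s / N) ^ (s + (s / k + 1)) * #(Inv (V × I)))) := by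
      refine le_trans (Nat.cast_le.2 card_biUnion_le) ?_
      rw [Nat.cast_sum]
      refine (sum_le_card_nsmul _ _ ((2 ^ d) ^ s * ((2 * s / N) ^ (s + (s / k + 1)) *
        #(Inv (V × I))) : ℝ) fun U hU => ?_).trans ?_
      swap
      · rw [nsmul_eq_mul, card_powersetCard, card_univ, ← hN]
        exact mul_le_mul_of_nonneg_right (choose_le N s s0) (by positivity)
      refine le_trans (Nat.cast_le.2 card_biUnion_le) ?_
      rw [Nat.cast_sum]
      refine (sum_le_card_nsmul _ _ _ (b1 U hU)).trans ?_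
      rw [nsmul_eq_mul, card_powersetCard, card_product, (mem_powersetCard.1 hU).2, card_univ, hI,
        ← pow_mul, mul_comm d]
      exact mul_le_mul_of_nonneg_right (by exact_mod_cast Nat.choose_le_two_pow _ _)
        (by positivity)
    have b3 := term_le (N := N) (B := B) (x := 2 * s / N) (s := s) (j := s / k) (k := k)
      (by linarith) (Nat.lt_mul_div_succ s hk).le (by positivity)
      (by rw [← mul_div_assoc, div_le_one N0]; exact s1) (by field_simp)
    have b4 : B ^ s = (3 * N / s) ^ s * (2 ^ d) ^ s * (2 * s / N) ^ s := by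
      rw [← mul_pow, ← mul_pow, hB]
      congr 1
      field_simp
      norm_num
    refine (mul_le_mul_of_nonneg_right b2 N0.le).trans (le_trans (le_of_eq ?_)
      (mul_le_mul_of_nonneg_right b3 (Nat.cast_nonneg _)))
    rw [b4, pow_add _ s]
    ring
  refine (mul_le_mul_of_nonneg_right (Nat.cast_le.2 ((card_le_card a1).trans card_biUnion_le))
    (Nat.cast_nonneg _)).trans ?_
  rw [Nat.cast_sum, sum_mul]
  refine (sum_le_sum a2).trans ?_
  rw [← sum_mul, ← mul_sum]
  refine mul_le_mul_of_nonneg_right ?_ (Nat.cast_nonneg _)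
  have := (sum_le_sum_of_subset_of_nonneg (filter_subset _ _ : R ⊆ _)
    fun s _ _ => by positivity).trans (sum_geometric_two_le (N + 1))
  nlinarith

theorem tail {Ω J : Type} [Fintype Ω] [Fintype J] (w : Ω → ℝ) (x : Ω → J → ℝ) (g : J → ℝ → ℝ)
    (g0 T B : ℝ) (w0 : ∀ o, 0 ≤ w o) (h0 : 0 ≤ g0) (h1 : ∀ j u, 0 ≤ g j u)
    (h2 : ∀ j u, |u| ≤ 1 → g0 ≤ g j u) (T0 : 0 ≤ T) (B0 : 0 ≤ B) (R : Finset Ω)
    (hR : ∀ o ∈ R, (∀ j, |x o j| ≤ T) ∧ ∑ o', w o' * ∏ j, g j (x o j - x o' j) ≤ B) :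
    g0 ^ Fintype.card J * ∑ o ∈ R, w o ≤ (2 * T + 2) ^ Fintype.card J * B := by
  rw [← sum_fiberwise_of_maps_to (g := fun o j => ⌊x o j⌋)
    (t := Fintype.piFinset fun _ => Icc ⌊-T⌋ ⌊T⌋) fun o ho => Fintype.mem_piFinset.2 fun j =>
      mem_Icc.2 ⟨Int.floor_mono (abs_le.1 ((hR o ho).1 j)).1,
        Int.floor_mono (abs_le.1 ((hR o ho).1 j)).2⟩, mul_sum]
  refine (sum_le_card_nsmul _ _ B fun z _ => ?_).trans ?_
  · rcases (R.filter fun o => (fun j => ⌊x o j⌋) = z).eq_empty_or_nonempty with e | ⟨o, ho⟩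
    · simpa [e] using B0
    · refine le_trans ?_ (hR o (mem_filter.1 ho).1).2
      rw [mul_sum]
      refine le_trans (sum_le_sum fun o' ho' => ?_) (sum_le_sum_of_subset_of_nonneg (subset_univ _)
        fun o' _ _ => mul_nonneg (w0 _) (prod_nonneg fun j _ => h1 _ _))
      rw [mul_comm, ← card_univ, ← prod_const]
      refine mul_le_mul_of_nonneg_left (prod_le_prod (fun _ _ => h0) fun j _ => h2 _ _ ?_) (w0 _)
      exact (Int.abs_sub_lt_one_of_floor_eq_floor (congrFun
        ((mem_filter.1 ho).2.trans (mem_filter.1 ho').2.symm) j)).le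
  · rw [nsmul_eq_mul, Fintype.card_piFinset, prod_const, card_univ, Nat.cast_pow]
    refine mul_le_mul_of_nonneg_right (pow_le_pow_left₀ (Nat.cast_nonneg _) ?_ _) B0
    have a := Int.card_Icc_of_le (a := ⌊-T⌋) (b := ⌊T⌋)
      ((Int.floor_mono (by linarith)).trans (Int.le_add_one le_rfl))
    have a' : (#(Icc ⌊-T⌋ ⌊T⌋) : ℝ) = ⌊T⌋ + 1 - ⌊-T⌋ := by exact_mod_cast a
    linarith [Int.floor_le T, Int.lt_floor_add_one (-T)]

end Pool.Agent.P.MP_6b977f_mp.RG.X91
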