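import Mathlib

/-! Number of labels and of types; the Gibbs inequality for labellings. -/

set_option autoImplicit false
set_option linter.unusedSectionVars false

namespace Pool.Agent.P.MP_6b977f_mp.RG.C22

open Finset

/-- subsets of bounded size -/
theorem card_small_subsets {β : Type} [DecidableEq β] (U : Finset β) (m : ℕ) (F : Finset (Finset β))
    (hF : ∀ S ∈ F, S ⊆ U ∧ S.card ≤ m) : F.card ≤ (U.card + 1) ^ m := by
  have h1 : F ⊆ (range (m + 1)).biUnion fun k => U.powersetCard k := by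
    intro S hS
    exact Finset.mem_biUnion.2 ⟨S.card, Finset.mem_range.2 (Nat.lt_succ_of_le (hF S hS).2),
      Finset.mem_powersetCard.2 ⟨(hF S hS).1, rfl⟩⟩
  refine (Finset.card_le_card h1).trans (Finset.card_biUnion_le.trans ?_)
  rw [add_pow]
  refine Finset.sum_le_sum fun k hk => ?_
  rw [Finset.card_powersetCard, one_pow, mul_one]
  have h2 : 1 ≤ m.choose k := Nat.choose_pos (Nat.lt_succ_iff.1 (Finset.mem_range.1 hk))
  calc U.card.choose k ≤ U.card ^ k := Nat.choose_le_pow _ _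
    _ ≤ _ := Nat.le_mul_of_pos_right _ h2

/-- functions with small support in `U` and values at most `n` -/
theorem card_types {β : Type} [DecidableEq β] (U : Finset β) (m n : ℕ) (F : Finset (β → ℕ))
    (hF : ∀ c ∈ F, (∀ e, c e ≤ n) ∧ (∀ e, c e ≠ 0 → e ∈ U) ∧ (U.filter fun e => c e ≠ 0).card ≤ m) :
    F.card ≤ (U.card * (n + 1) + 1) ^ m := by
  classical
  let gr : (β → ℕ) → Finset (β × ℕ) := fun c => (U.filter fun e => c e ≠ 0).image fun e => (e, c e)
  have hmem : ∀ c ∈ F, ∀ e k, (e, k) ∈ gr c ↔ c e ≠ 0 ∧ c e = k := by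
    intro c hc e k
    simp only [gr, Finset.mem_image, Finset.mem_filter, Prod.mk.injEq]
    constructor
    · rintro ⟨a, ⟨-, h⟩, rfl, rfl⟩; exact ⟨h, rfl⟩
    · rintro ⟨h, rfl⟩; exact ⟨e, ⟨(hF c hc).2.1 e h, h⟩, rfl, rfl⟩
  have inj : Set.InjOn gr F := by
    intro c hc c' hc' h
    funext e
    by_cases h1 : c e = 0
    · by_contra h2
      have h3 : (e, c' e) ∈ gr c' := (hmem c' hc' e _).2 ⟨fun h4 => h2 (h1.trans h4.symm), rfl⟩
      rw [← h] at h3
      exact ((hmem c hc e _).1 h3).1 h1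
    · have h3 : (e, c e) ∈ gr c := (hmem c hc e _).2 ⟨h1, rfl⟩
      rw [h] at h3
      exact ((hmem c' hc' e _).1 h3).2.symm
  rw [← Finset.card_image_of_injOn inj]
  have h := card_small_subsets (U ×ˢ range (n + 1)) m (F.image gr) (by
    intro S hS
    obtain ⟨c, hc, rfl⟩ := Finset.mem_image.1 hS
    refine ⟨fun x hx => ?_, Finset.card_image_le.trans (hF c hc).2.2⟩
    obtain ⟨e, he, rfl⟩ := Finset.mem_image.1 hx
    exact Finset.mem_product.2 ⟨(Finset.mem_filter.1 he).1,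
      Finset.mem_range.2 (Nat.lt_succ_of_le ((hF c hc).1 e))⟩)
  simpa [Finset.card_product] using h

/-- few labels are used by a labelling of small square sum -/
theorem card_image_le {α : Type} [Fintype α] (lab : α → ℤ × ℤ) (R D : ℕ)
    (h : ∑ x, ((lab x).1 ^ 2 + (lab x).2 ^ 2) ≤ (D : ℤ) * (R : ℤ) ^ 2) :
    (univ.image lab).card ≤ (D + 10) * (R + 1) := by
  set k := Nat.sqrt R with hk
  have hk1 : k * k ≤ R := Nat.sqrt_le R
  have hk2 : R < (k + 1) * (k + 1) := Nat.lt_succ_sqrt R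
  let P : ℤ × ℤ → Prop := fun e => e.1 ^ 2 + e.2 ^ 2 ≤ (R : ℤ)
  have hA : ((univ.image lab).filter P).card ≤ (2 * k + 1) * (2 * k + 1) := by
    have : (univ.image lab).filter P ⊆ Icc (-(k : ℤ)) k ×ˢ Icc (-(k : ℤ)) k := by
      intro e he
      have hP : e.1 ^ 2 + e.2 ^ 2 ≤ (R : ℤ) := (Finset.mem_filter.1 he).2
      have hk3 : (R : ℤ) < ((k : ℤ) + 1) * ((k : ℤ) + 1) := by exact_mod_cast hk2
      have hk0 : (0 : ℤ) ≤ k := Int.natCast_nonneg k
      simp only [Finset.mem_product, Finset.mem_Icc]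
      refine ⟨⟨?_, ?_⟩, ?_, ?_⟩ <;> by_contra hc <;> push Not at hc <;>
        nlinarith [sq_nonneg e.1, sq_nonneg e.2]
    refine (Finset.card_le_card this).trans (le_of_eq ?_)
    have h2 : ((k : ℤ) + 1 - -(k : ℤ)).toNat = 2 * k + 1 := by omega
    rw [Finset.card_product, Int.card_Icc, h2]
  have hB : ((univ.image lab).filter fun e => ¬ P e).card ≤ D * R := by
    have h1 : ((((univ.image lab).filter fun e => ¬ P e).card : ℕ) : ℤ) * ((R : ℤ) + 1) ≤
        ∑ e ∈ univ.image lab, (e.1 ^ 2 + e.2 ^ 2) := by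
      rw [← nsmul_eq_mul]
      refine (Finset.card_nsmul_le_sum _ (fun e : ℤ × ℤ => e.1 ^ 2 + e.2 ^ 2) _ fun e he => ?_).trans
        (Finset.sum_le_sum_of_subset_of_nonneg (Finset.filter_subset _ _) fun _ _ _ => by positivity)
      have := (Finset.mem_filter.1 he).2
      simp only [P, not_le] at this
      omega
    have h2 : ∑ e ∈ univ.image lab, (e.1 ^ 2 + e.2 ^ 2) ≤ ∑ x, ((lab x).1 ^ 2 + (lab x).2 ^ 2) :=
      Finset.sum_image_le_of_nonneg (f := fun e : ℤ × ℤ => e.1 ^ 2 + e.2 ^ 2) fun _ _ => by positivity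
    have h3 := h1.trans (h2.trans h)
    by_contra hc
    push Not at hc
    have h4 : (D : ℤ) * R < (((univ.image lab).filter fun e => ¬ P e).card : ℕ) := by exact_mod_cast hc
    have h5 : (0 : ℤ) ≤ (D : ℤ) * R := by positivity
    have h6 : (0 : ℤ) ≤ R := Int.natCast_nonneg R
    nlinarith
  rw [← Finset.card_filter_add_card_filter_not P]
  nlinarith [sq_nonneg ((k : ℤ) - 1), Nat.zero_le D]

end Pool.Agent.P.MP_6b977f_mp.RG.C22
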