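import Mathlib

/-! Lattice points near an approximate eigenvector: a Gaussian volume bound. -/

set_option autoImplicit false
set_option linter.unusedSectionVars false

namespace Pool.Agent.P.MP_6b977f_mp.RG.C22

open Finset Matrix MeasureTheory

variable {ι : Type} [Fintype ι] [DecidableEq ι]

theorem gauss_orth (U : Matrix ι ι ℝ) (hU : U * Uᵀ = 1) (p : ι → ℝ) (hp : ∀ j, 0 < p j) :
    Integrable (fun v : ι → ℝ => Real.exp (-∑ j, p j * (Uᵀ *ᵥ v) j ^ 2)) ∧
      ∫ v : ι → ℝ, Real.exp (-∑ j, p j * (Uᵀ *ᵥ v) j ^ 2) = ∏ j, √(Real.pi / p j) := by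
  have hdet : |(Uᵀ.det)⁻¹| = 1 := by
    have h := congrArg Matrix.det hU
    rw [Matrix.det_mul, Matrix.det_transpose, Matrix.det_one] at h
    rw [Matrix.det_transpose, abs_inv]
    rcases mul_self_eq_one_iff.1 h with h | h <;> simp [h]
  have hd0 : Uᵀ.det ≠ 0 := fun h => by simp [h] at hdet
  have hmap := Real.map_matrix_volume_pi_eq_smul_volume_pi hd0
  rw [hdet, ENNReal.ofReal_one, one_smul] at hmap
  have hmp : MeasurePreserving (Matrix.toLin' Uᵀ) (volume : Measure (ι → ℝ)) volume :=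
    ⟨(LinearMap.continuous_of_finiteDimensional _).measurable, hmap⟩
  let g : (ι → ℝ) → ℝ := fun u => ∏ j, Real.exp (-p j * u j ^ 2)
  have hg : Integrable g :=
    Integrable.fintype_prod (f := fun j x => Real.exp (-p j * x ^ 2))
      fun j => integrable_exp_neg_mul_sq (hp j)
  have he : (fun v : ι → ℝ => Real.exp (-∑ j, p j * (Uᵀ *ᵥ v) j ^ 2)) = g ∘ Matrix.toLin' Uᵀ := by
    funext v
    simp only [g, Function.comp, Matrix.toLin'_apply]
    rw [← Real.exp_sum, ← Finset.sum_neg_distrib]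
    simp only [neg_mul]
  rw [he]
  refine ⟨(hmp.integrable_comp hg.aestronglyMeasurable).2 hg, ?_⟩
  have h2 : ∫ v, (g ∘ Matrix.toLin' Uᵀ) v = ∫ u, g u := by
    have := integral_map (μ := (volume : Measure (ι → ℝ))) (φ := Matrix.toLin' Uᵀ) (f := g)
      hmp.measurable.aemeasurable (by rw [hmap]; exact hg.aestronglyMeasurable)
    rw [hmap] at this
    exact this.symm
  rw [h2]
  simp only [g]
  rw [integral_fintype_prod_volume_eq_prod fun j x => Real.exp (-p j * x ^ 2)]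
  exact Finset.prod_congr rfl fun j _ => integral_gaussian _

theorem sq_orth (U : Matrix ι ι ℝ) (hU : Uᵀ * U = 1) (w : ι → ℝ) :
    ∑ x, (U *ᵥ w) x ^ 2 = ∑ j, w j ^ 2 := by
  have h : (U *ᵥ w) ⬝ᵥ (U *ᵥ w) = w ⬝ᵥ w := by
    rw [Matrix.dotProduct_mulVec, Matrix.vecMul_mulVec, hU, Matrix.vecMul_one]
  simpa only [dotProduct, ← sq] using h

theorem exists_orth (A : Matrix ι ι ℝ) (hA : A.IsHermitian) :
    ∃ U : Matrix ι ι ℝ, U * Uᵀ = 1 ∧ ∀ (lam gam : ℝ) (v : ι → ℝ),
      ∑ x, ((A *ᵥ v) x - lam * v x) ^ 2 + gam ^ 2 * ∑ x, v x ^ 2 =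
        ∑ j, ((hA.eigenvalues j - lam) ^ 2 + gam ^ 2) * (Uᵀ *ᵥ v) j ^ 2 := by
  set U : Matrix ι ι ℝ := (hA.eigenvectorUnitary : Matrix ι ι ℝ) with hUdef
  have hst : star U = Uᵀ := by
    ext i j; simp [Matrix.star_apply]
  have h1 : U * Uᵀ = 1 := by
    rw [← hst]; exact Unitary.coe_mul_star_self hA.eigenvectorUnitary
  have h2 : Uᵀ * U = 1 := by
    rw [← hst]; exact Unitary.coe_star_mul_self hA.eigenvectorUnitary
  have hsp : A = U * diagonal hA.eigenvalues * Uᵀ := by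
    have := hA.spectral_theorem
    rw [Unitary.conjStarAlgAut_apply] at this
    rw [← hst]
    simpa using this
  refine ⟨U, h1, fun lam gam v => ?_⟩
  set w := Uᵀ *ᵥ v with hw
  have hv : v = U *ᵥ w := by rw [hw, Matrix.mulVec_mulVec, h1, Matrix.one_mulVec]
  have hAv : ∀ x, (A *ᵥ v) x - lam * v x = (U *ᵥ fun j => (hA.eigenvalues j - lam) * w j) x := by
    intro x
    have e1 : A *ᵥ v = U *ᵥ (diagonal hA.eigenvalues *ᵥ w) := by
      conv_lhs => rw [hsp]
      rw [hw, Matrix.mulVec_mulVec, Matrix.mulVec_mulVec]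
    rw [e1]
    conv_lhs => rw [hv]
    simp only [Matrix.mulVec, dotProduct, Finset.mul_sum, ← Finset.sum_sub_distrib]
    refine Finset.sum_congr rfl fun j _ => ?_
    have : ∑ k, diagonal hA.eigenvalues j k * w k = hA.eigenvalues j * w j :=
      Matrix.mulVec_diagonal hA.eigenvalues w j
    rw [← Finset.mul_sum, this]; ring
  have e2 : ∑ x, v x ^ 2 = ∑ j, w j ^ 2 := by
    conv_lhs => rw [hv]
    exact sq_orth U h2 w
  simp only [hAv]
  rw [sq_orth U h2, e2, Finset.mul_sum, ← Finset.sum_add_distrib]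
  exact Finset.sum_congr rfl fun j _ => by ring

/-- the lattice points in a ball form a finite set -/
theorem exists_ball_finset (ψ : ι → ℝ) (del r : ℝ) (hdel : 0 < del) :
    ∃ F : Finset (ι → ℤ), ∀ φ : ι → ℤ, φ ∈ F ↔ ∑ x, (del * φ x - ψ x) ^ 2 ≤ r := by
  classical
  let K : ι → ℤ := fun x => ⌈(|ψ x| + 1 + r) / del⌉
  refine ⟨(Fintype.piFinset fun x => Icc (-K x) (K x)).filter
    fun φ => ∑ x, (del * φ x - ψ x) ^ 2 ≤ r, fun φ => ⟨fun h => (Finset.mem_filter.1 h).2,
      fun h => Finset.mem_filter.2 ⟨Fintype.mem_piFinset.2 fun x => ?_, h⟩⟩⟩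
  have h1 : (del * φ x - ψ x) ^ 2 ≤ r :=
    (Finset.single_le_sum (f := fun x => (del * φ x - ψ x) ^ 2) (fun _ _ => sq_nonneg _)
      (Finset.mem_univ x)).trans h
  have h2 : |(φ x : ℝ)| ≤ (|ψ x| + 1 + r) / del := by
    rw [le_div_iff₀ hdel]
    have h3 : |del * φ x - ψ x| ≤ 1 + r := by
      rw [abs_le]; constructor <;> nlinarith [sq_nonneg (del * φ x - ψ x + 1), sq_nonneg (del * φ x - ψ x - 1), sq_nonneg (del * φ x - ψ x)]
    have h4 : |del * φ x| ≤ |del * φ x - ψ x| + |ψ x| := by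
      simpa using abs_add_le (del * φ x - ψ x) (ψ x)
    rw [abs_mul, abs_of_pos hdel] at h4
    linarith
  have h5 : |φ x| ≤ K x := by
    have : ((|φ x| : ℤ) : ℝ) ≤ (K x : ℝ) := by
      push_cast; exact h2.trans (Int.le_ceil _)
    exact_mod_cast this
  exact Finset.mem_Icc.2 (abs_le.1 h5)

theorem cell_int (a : ι → ℝ) (del : ℝ) (hdel : 0 < del) :
    Integrable (fun v : ι → ℝ => ∏ x, (Set.Ico (a x) (a x + del)).indicator (fun _ => (1 : ℝ)) (v x)) ∧
      ∫ v : ι → ℝ, ∏ x, (Set.Ico (a x) (a x + del)).indicator (fun _ => (1 : ℝ)) (v x) =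
        del ^ Fintype.card ι := by
  refine ⟨Integrable.fintype_prod
    (f := fun x t => (Set.Ico (a x) (a x + del)).indicator (fun _ => (1 : ℝ)) t) fun x => ?_, ?_⟩
  · rw [integrable_indicator_iff measurableSet_Ico]
    exact integrableOn_const (by simp)
  · rw [integral_fintype_prod_volume_eq_prod
      fun x t => (Set.Ico (a x) (a x + del)).indicator (fun _ => (1 : ℝ)) t]
    rw [← Finset.card_univ, ← Finset.prod_const]
    refine Finset.prod_congr rfl fun x _ => ?_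
    rw [integral_indicator measurableSet_Ico]
    simp [hdel.le]

theorem mix_sq (z x y : ℝ) (hz : 0 < z) : (1 - z) * (x + y) ^ 2 ≤ x ^ 2 + y ^ 2 / z := by
  have h : x ^ 2 + y ^ 2 / z - (1 - z) * (x + y) ^ 2 = ((z * x - (1 - z) * y) ^ 2 + z * y ^ 2) / z := by
    field_simp; ring
  have : 0 ≤ ((z * x - (1 - z) * y) ^ 2 + z * y ^ 2) / z := by positivity
  linarith

/-- VOL -/
theorem vol_main [Nonempty ι] (A : Matrix ι ι ℝ) (hA : A.IsHermitian)
    (lam gam eta del zeta z1 D : ℝ) (ψ : ι → ℝ)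
    (hD : ∀ u : ι → ℝ, ∑ x, ((A *ᵥ u) x - lam * u x) ^ 2 ≤ D ^ 2 * ∑ x, u x ^ 2)
    (hgam : 0 < gam) (heta : 0 < eta) (hdel : 0 < del) (hz : 0 < z1)
    (h1 : eta ≤ gam * zeta / 4) (h2 : del ≤ zeta / 2)
    (hψ : ∑ x, ((A *ᵥ ψ) x - lam * ψ x) ^ 2 ≤ del ^ 2 * Fintype.card ι)
    (F : Finset (ι → ℤ))
    (hF : ∀ φ : ι → ℤ, ∑ x, (del * φ x - ψ x) ^ 2 ≤ zeta ^ 2 * Fintype.card ι → φ ∈ F) :
    1 / 3 * Real.exp (Fintype.card ι * (-Real.log del + 1 / 2 * Real.log (2 * Real.pi * eta ^ 2)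
        - (1 + D ^ 2) * del ^ 2 / (z1 * eta ^ 2))
        - 1 / 2 * ∑ j, Real.log ((hA.eigenvalues j - lam) ^ 2 + gam ^ 2)) ≤
      ∑ φ ∈ F, Real.exp (-((1 - z1) * del ^ 2 / (2 * eta ^ 2)) *
        ∑ x, ((A *ᵥ fun y => (φ y : ℝ)) x - lam * φ x) ^ 2) := by
  obtain ⟨U, hU, hQ⟩ := exists_orth A hA
  set n : ℕ := Fintype.card ι with hn
  have hn1 : 1 ≤ n := Fintype.card_pos
  set p : ι → ℝ := fun j => (hA.eigenvalues j - lam) ^ 2 + gam ^ 2 with hp
  have hp0 : ∀ j, 0 < p j := fun j => by positivity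
  set c : ℝ := (1 + D ^ 2) * del ^ 2 / (z1 * eta ^ 2) with hc
  set w : (ι → ℤ) → ℝ := fun φ => Real.exp (-((1 - z1) * del ^ 2 / (2 * eta ^ 2)) *
        ∑ x, ((A *ᵥ fun y => (φ y : ℝ)) x - lam * φ x) ^ 2) with hw
  obtain ⟨i1, e1⟩ := gauss_orth U hU (fun j => p j / (2 * eta ^ 2)) fun j => by
    have := hp0 j; positivity
  obtain ⟨i2, e2⟩ := gauss_orth U hU (fun j => p j / (4 * eta ^ 2)) fun j => by
    have := hp0 j; positivity
  let cell : (ι → ℤ) → (ι → ℝ) → ℝ := fun φ v =>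
    ∏ x, (Set.Ico (del * φ x - ψ x) (del * φ x - ψ x + del)).indicator (fun _ => (1 : ℝ)) (v x)
  have hcell := fun φ : ι → ℤ => cell_int (fun x => del * φ x - ψ x) del hdel
  have hcell0 : ∀ φ v, 0 ≤ cell φ v := fun φ v =>
    Finset.prod_nonneg fun x _ => Set.indicator_nonneg (fun _ _ => zero_le_one) _
  have hQ' : ∀ (k : ℝ) (v : ι → ℝ), ∑ j, p j / k * (Uᵀ *ᵥ v) j ^ 2 =
      (∑ x, ((A *ᵥ v) x - lam * v x) ^ 2 + gam ^ 2 * ∑ x, v x ^ 2) / k := by
    intro k v
    rw [hQ lam gam v, Finset.sum_div]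
    exact Finset.sum_congr rfl fun j _ => by simp only [hp]; ring
  have key : ∀ v : ι → ℝ, Real.exp (-∑ j, p j / (2 * eta ^ 2) * (Uᵀ *ᵥ v) j ^ 2) ≤
      Real.exp (n * c) * ∑ φ ∈ F, w φ * cell φ v +
        Real.exp (-n) * Real.exp (-∑ j, p j / (4 * eta ^ 2) * (Uᵀ *ᵥ v) j ^ 2) := by
    intro v
    have hS0 : 0 ≤ ∑ φ ∈ F, w φ * cell φ v :=
      Finset.sum_nonneg fun φ _ => mul_nonneg (Real.exp_pos _).le (hcell0 φ v)
    rw [hQ', hQ']
    set Bv := ∑ x, ((A *ᵥ v) x - lam * v x) ^ 2 with hBv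
    set V := ∑ x, v x ^ 2 with hV
    have hBv0 : 0 ≤ Bv := Finset.sum_nonneg fun _ _ => sq_nonneg _
    have hV0 : 0 ≤ V := Finset.sum_nonneg fun _ _ => sq_nonneg _
    by_cases hb : V ≤ zeta ^ 2 * n / 4
    · let φ : ι → ℤ := fun x => ⌊(ψ x + v x) / del⌋
      let r : ι → ℝ := fun x => del * φ x - ψ x - v x
      have hr : ∀ x, -del < r x ∧ r x ≤ 0 := by
        intro x
        have a1 := Int.floor_le ((ψ x + v x) / del)
        have a2 := Int.lt_floor_add_one ((ψ x + v x) / del)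
        rw [le_div_iff₀ hdel] at a1
        rw [div_lt_iff₀ hdel] at a2
        simp only [r, φ]
        constructor <;> nlinarith
      have hr2 : ∑ x, r x ^ 2 ≤ del ^ 2 * n := by
        calc ∑ x, r x ^ 2 ≤ ∑ _x : ι, del ^ 2 :=
              Finset.sum_le_sum fun x _ => by nlinarith [hr x]
          _ = _ := by simp [hn, mul_comm]
      have hφF : φ ∈ F := by
        refine hF φ ?_
        have hn0 : (0 : ℝ) ≤ n := Nat.cast_nonneg n
        calc ∑ x, (del * φ x - ψ x) ^ 2 ≤ ∑ x, (2 * v x ^ 2 + 2 * r x ^ 2) :=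
              Finset.sum_le_sum fun x _ => by
                have : del * φ x - ψ x = v x + r x := by simp only [r]; ring
                rw [this]; nlinarith [sq_nonneg (v x - r x)]
          _ = 2 * V + 2 * ∑ x, r x ^ 2 := by
              rw [Finset.sum_add_distrib, ← Finset.mul_sum, ← Finset.mul_sum]
          _ ≤ _ := by
              have : del ^ 2 ≤ zeta ^ 2 / 4 := by nlinarith
              nlinarith
      have hc1 : cell φ v = 1 := by
        refine Finset.prod_eq_one fun x _ => Set.indicator_of_mem ?_ _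
        have := hr x
        simp only [r] at this
        constructor <;> linarith [this.1, this.2]
      have hlin : ∀ x, del * ((A *ᵥ fun y => (φ y : ℝ)) x - lam * φ x) =
          ((A *ᵥ v) x - lam * v x) + (((A *ᵥ ψ) x - lam * ψ x) + ((A *ᵥ r) x - lam * r x)) := by
        intro x
        have : r = del • (fun y => (φ y : ℝ)) - ψ - v := by funext y; simp [r]
        rw [this, Matrix.mulVec_sub, Matrix.mulVec_sub, Matrix.mulVec_smul]
        simp only [Pi.sub_apply, Pi.smul_apply, smul_eq_mul]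
        ring
      have hE : (1 - z1) * del ^ 2 * ∑ x, ((A *ᵥ fun y => (φ y : ℝ)) x - lam * φ x) ^ 2 ≤
          Bv + 2 * (1 + D ^ 2) * del ^ 2 * n / z1 := by
        have b1 : (1 - z1) * del ^ 2 * ∑ x, ((A *ᵥ fun y => (φ y : ℝ)) x - lam * φ x) ^ 2 ≤
            ∑ x, (((A *ᵥ v) x - lam * v x) ^ 2 + (2 * ((A *ᵥ ψ) x - lam * ψ x) ^ 2 +
              2 * ((A *ᵥ r) x - lam * r x) ^ 2) / z1) := by
          rw [Finset.mul_sum]
          refine Finset.sum_le_sum fun x _ => ?_
          have b2 := mix_sq z1 ((A *ᵥ v) x - lam * v x)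
            (((A *ᵥ ψ) x - lam * ψ x) + ((A *ᵥ r) x - lam * r x)) hz
          rw [← hlin x] at b2
          have b3 : (((A *ᵥ ψ) x - lam * ψ x) + ((A *ᵥ r) x - lam * r x)) ^ 2 / z1 ≤
              (2 * ((A *ᵥ ψ) x - lam * ψ x) ^ 2 + 2 * ((A *ᵥ r) x - lam * r x) ^ 2) / z1 := by
            gcongr
            nlinarith [sq_nonneg (((A *ᵥ ψ) x - lam * ψ x) - ((A *ᵥ r) x - lam * r x))]
          rw [mul_pow, ← mul_assoc] at b2
          linarith
        rw [Finset.sum_add_distrib, ← Finset.sum_div, Finset.sum_add_distrib, ← Finset.mul_sum,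
          ← Finset.mul_sum] at b1
        have b4 : ∑ x, ((A *ᵥ r) x - lam * r x) ^ 2 ≤ D ^ 2 * (del ^ 2 * n) :=
          (hD r).trans (by gcongr)
        refine b1.trans ?_
        gcongr
        linarith
      have hw1 : Real.exp (-((Bv + gam ^ 2 * V) / (2 * eta ^ 2))) ≤ Real.exp (n * c) * w φ := by
        simp only [hw]
        rw [← Real.exp_add, Real.exp_le_exp]
        have b5 : n * c = 2 * (1 + D ^ 2) * del ^ 2 * n / z1 / (2 * eta ^ 2) := by
          simp only [hc]; field_simp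
        have b6 : 0 ≤ gam ^ 2 * V := by positivity
        rw [b5, ← neg_div, neg_mul, div_mul_eq_mul_div, ← sub_eq_add_neg, ← sub_div]
        gcongr
        linarith
      have hw2 : w φ ≤ ∑ φ ∈ F, w φ * cell φ v := by
        have := Finset.single_le_sum (f := fun φ => w φ * cell φ v)
          (fun φ _ => mul_nonneg (Real.exp_pos _).le (hcell0 φ v)) hφF
        simpa only [hc1, mul_one] using this
      have : 0 ≤ Real.exp (-n) * Real.exp (-((Bv + gam ^ 2 * V) / (4 * eta ^ 2))) := by positivity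
      calc _ ≤ _ := hw1
        _ ≤ Real.exp (n * c) * ∑ φ ∈ F, w φ * cell φ v := by gcongr
        _ ≤ _ := by linarith
    · have hb' : (n : ℝ) ≤ (Bv + gam ^ 2 * V) / (4 * eta ^ 2) := by
        rw [le_div_iff₀ (by positivity)]
        push Not at hb
        have hn0 : (0 : ℝ) ≤ n := Nat.cast_nonneg n
        have b1 : 16 * eta ^ 2 ≤ gam ^ 2 * zeta ^ 2 := by nlinarith
        have b2 : gam ^ 2 * (zeta ^ 2 * n / 4) ≤ gam ^ 2 * V := by gcongr
        nlinarith
      have : 0 ≤ Real.exp (n * c) * ∑ φ ∈ F, w φ * cell φ v := by positivity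
      have b3 : Real.exp (-((Bv + gam ^ 2 * V) / (2 * eta ^ 2))) ≤
          Real.exp (-n) * Real.exp (-((Bv + gam ^ 2 * V) / (4 * eta ^ 2))) := by
        rw [← Real.exp_add, Real.exp_le_exp]
        have : (Bv + gam ^ 2 * V) / (2 * eta ^ 2) = 2 * ((Bv + gam ^ 2 * V) / (4 * eta ^ 2)) := by
          field_simp; ring
        linarith
      linarith
  have i3 : Integrable fun v : ι → ℝ => ∑ φ ∈ F, w φ * cell φ v :=
    integrable_finsetSum _ fun φ _ => (hcell φ).1.const_mul _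
  have hint := integral_mono i1 ((i3.const_mul _).add (i2.const_mul _)) key
  simp only [Pi.add_apply] at hint
  rw [integral_add (i3.const_mul _) (i2.const_mul _), integral_const_mul, integral_const_mul,
    integral_finsetSum _ fun φ _ => (hcell φ).1.const_mul _, e1, e2] at hint
  have e3 : ∑ φ ∈ F, ∫ v, w φ * cell φ v = (∑ φ ∈ F, w φ) * del ^ n := by
    rw [Finset.sum_mul]
    exact Finset.sum_congr rfl fun φ _ => by rw [integral_const_mul, (hcell φ).2]
  rw [e3] at hint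
  set I1 := ∏ j, √(Real.pi / (p j / (2 * eta ^ 2))) with hI1
  have e4 : ∏ j, √(Real.pi / (p j / (4 * eta ^ 2))) = √2 ^ n * I1 := by
    rw [hI1, hn, ← Finset.card_univ, ← Finset.prod_const, ← Finset.prod_mul_distrib]
    refine Finset.prod_congr rfl fun j _ => ?_
    rw [← Real.sqrt_mul (by norm_num)]
    congr 1
    have := hp0 j
    field_simp; ring
  have e5 : I1 = Real.exp (n * (1 / 2 * Real.log (2 * Real.pi * eta ^ 2)) -
      1 / 2 * ∑ j, Real.log (p j)) := by
    rw [hI1, hn, ← Finset.card_univ, ← nsmul_eq_mul, ← Finset.sum_const, Finset.mul_sum,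
      ← Finset.sum_sub_distrib, Real.exp_sum]
    refine Finset.prod_congr rfl fun j _ => ?_
    have := hp0 j
    have hpi := Real.pi_pos
    rw [Real.sqrt_eq_rpow, Real.rpow_def_of_pos (by positivity), ← mul_sub,
      ← Real.log_div (by positivity) this.ne', mul_comm]
    congr 3
    field_simp
  have hI0 : 0 < I1 := by rw [e5]; exact Real.exp_pos _
  have e6 : Real.exp (-n) * √2 ^ n ≤ 2 / 3 := by
    have a1 : √2 ≤ 3 / 2 := Real.sqrt_le_iff.2 ⟨by norm_num, by norm_num⟩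
    have a2 : Real.exp (-1) ≤ 4 / 9 := by
      rw [Real.exp_neg, inv_le_comm₀ (Real.exp_pos _) (by norm_num)]
      have := Real.exp_one_gt_d9; linarith
    have a3 : Real.exp (-1) * √2 ≤ 2 / 3 := by
      calc Real.exp (-1) * √2 ≤ 4 / 9 * (3 / 2) := by gcongr
        _ = 2 / 3 := by norm_num
    calc Real.exp (-n) * √2 ^ n = (Real.exp (-1) * √2) ^ n := by
          rw [mul_pow, ← Real.exp_nat_mul]; simp
      _ ≤ (2 / 3) ^ n := by gcongr
      _ ≤ (2 / 3) ^ 1 := pow_le_pow_of_le_one (by norm_num) (by norm_num) hn1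
      _ = _ := pow_one _
  rw [e4, ← mul_assoc] at hint
  have e7 : 1 / 3 * I1 ≤ Real.exp (n * c) * ((∑ φ ∈ F, w φ) * del ^ n) := by nlinarith
  have e8 : Real.exp (n * (-Real.log del + 1 / 2 * Real.log (2 * Real.pi * eta ^ 2) - c)
      - 1 / 2 * ∑ j, Real.log (p j)) * (Real.exp (n * c) * del ^ n) = I1 := by
    have : del ^ n = Real.exp (n * Real.log del) := by rw [Real.exp_nat_mul, Real.exp_log hdel]
    rw [e5, this, ← Real.exp_add, ← Real.exp_add]
    congr 1; ring
  refine le_of_mul_le_mul_right ?_ (show 0 < Real.exp (n * c) * del ^ n by positivity)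
  rw [mul_assoc, e8]
  linarith

theorem log_det_eq (A : Matrix ι ι ℝ) (hA : A.IsHermitian) (lam gam : ℝ) (hgam : gam ≠ 0) :
    Real.log ((A - lam • 1) * (A - lam • 1) + gam ^ 2 • (1 : Matrix ι ι ℝ)).det =
      ∑ j, Real.log ((hA.eigenvalues j - lam) ^ 2 + gam ^ 2) := by
  set U : Matrix ι ι ℝ := (hA.eigenvectorUnitary : Matrix ι ι ℝ) with hUdef
  have hst : star U = Uᵀ := by
    ext i j; simp [Matrix.star_apply]
  have h1 : U * Uᵀ = 1 := by
    rw [← hst]; exact Unitary.coe_mul_star_self hA.eigenvectorUnitary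
  have h2 : Uᵀ * U = 1 := by
    rw [← hst]; exact Unitary.coe_star_mul_self hA.eigenvectorUnitary
  have hsp : A = U * diagonal hA.eigenvalues * Uᵀ := by
    have := hA.spectral_theorem
    rw [Unitary.conjStarAlgAut_apply] at this
    rw [← hst]
    simpa using this
  have h3 : A - lam • 1 = U * diagonal (fun j => hA.eigenvalues j - lam) * Uᵀ := by
    have : diagonal (fun j => hA.eigenvalues j - lam) = diagonal hA.eigenvalues - lam • 1 := by
      ext i j; by_cases h : i = j <;> simp [h]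
    rw [this, Matrix.mul_sub, Matrix.sub_mul, ← hsp, Matrix.mul_smul, Matrix.mul_one,
      Matrix.smul_mul, h1]
  have h4 : (A - lam • 1) * (A - lam • 1) + gam ^ 2 • (1 : Matrix ι ι ℝ) =
      U * diagonal (fun j => (hA.eigenvalues j - lam) ^ 2 + gam ^ 2) * Uᵀ := by
    have : diagonal (fun j => (hA.eigenvalues j - lam) ^ 2 + gam ^ 2) =
        diagonal (fun j => hA.eigenvalues j - lam) * diagonal (fun j => hA.eigenvalues j - lam) +
          gam ^ 2 • 1 := by
      rw [Matrix.diagonal_mul_diagonal]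
      ext i j; by_cases h : i = j <;> simp [h, sq]
    rw [this, Matrix.mul_add, Matrix.add_mul, Matrix.mul_smul, Matrix.mul_one, Matrix.smul_mul, h1,
      h3]
    congr 1
    simp only [Matrix.mul_assoc]
    rw [← Matrix.mul_assoc Uᵀ U, h2, Matrix.one_mul]
  have h5 : U.det * Uᵀ.det = 1 := by rw [← Matrix.det_mul, h1, Matrix.det_one]
  rw [h4, Matrix.det_mul, Matrix.det_mul, mul_right_comm, h5, one_mul, Matrix.det_diagonal,
    Real.log_prod fun j _ => by positivity]

end Pool.Agent.P.MP_6b977f_mp.RG.C22
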