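import Pool.Agent.P.MP_6b977f_mp.RG.Api

/-! Statements on Gaussian mixtures, the entropy inequality and its stability. -/

namespace Pool.Agent.P.MP_6b977f_mp.RG

open Finset MeasureTheory Real
open scoped Classical

/-! ### Gaussian mixtures -/

-- deps:
def S_KER : Prop := ∀ (ι : Type) [Fintype ι] (v x : ι → ℝ), (∀ j, 0 < v j) →
  (∀ g, PG g → Integrable fun y => g y * ker v (y - x)) ∧ ∫ y, ker v (y - x) = 1 ∧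
  (∀ j, ∫ y, (y j - x j) * ker v (y - x) = 0) ∧ ∀ j, ∫ y, (y j - x j) ^ 2 * ker v (y - x) = v j

-- deps: KER
def S_KT : Prop := ∀ (ι : Type) [Fintype ι], ∃ C : ℝ, 1 ≤ C ∧ ∀ (v x : ι → ℝ) (L : ℝ),
  (∀ j, 0 < v j ∧ v j ≤ 4) → 1 ≤ L →
  ∫ y, (1 + ‖y - x‖) ^ 2 * ind (L < ‖y - x‖) * ker v (y - x) ≤ C / L ^ 2 ∧
  ∫ y, (1 + ‖y - x‖) ^ 2 * ker v (y - x) ≤ C

-- deps:
def S_KCH : Prop := ∀ (ι : Type) [Fintype ι] (m : Mix ι) (v ξ : ι → ℝ), (∀ j, 0 < v j) →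
  m.chv v ξ = m.chi ξ * (exp (-(∑ j, v j * ξ j ^ 2) / 2) : ℝ)

-- deps: KER
def S_MIX : Prop := ∀ (ι : Type) [Fintype ι] (m : Mix ι) (v : ι → ℝ), (∀ j, 0 < v j) →
  (∀ y, 0 < m.den v y) ∧ Continuous (m.den v) ∧ PG (fun y => log (m.den v y)) ∧
  (∀ j, PG (m.sc v j)) ∧ (∀ j k, PG (m.dsc v j k)) ∧ m.Ex v (fun _ => 1) = 1 ∧
  ∀ g, PG g → Integrable (fun y => g y * m.den v y) ∧
    m.Ex v g = ∑ ω, m.p ω * ∫ y, g y * ker v (y - m.x ω) ∧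
    ∀ j, m.Ex v (fun y => m.sc v j y * g y) =
      ∑ ω, m.p ω * ∫ y, (m.x ω j - y j) / v j * g y * ker v (y - m.x ω)

-- deps: MIX
def S_DER : Prop := ∀ (ι : Type) [Fintype ι] (m : Mix ι) (v y : ι → ℝ), (∀ j, 0 < v j) →
  HasFDerivAt (m.den v) (lin fun j => m.den v y * m.sc v j y) y ∧
  HasFDerivAt (fun y => log (m.den v y)) (lin fun j => m.sc v j y) y ∧
  ∀ j, HasFDerivAt (m.sc v j) (lin fun k => m.dsc v j k y) y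

-- deps: MIX DER
def S_IBP : Prop := ∀ (ι : Type) [Fintype ι] (m : Mix ι) (v u : ι → ℝ) (g g' : (ι → ℝ) → ℝ),
  (∀ j, 0 < v j) → PG g → PG g' → (∀ y, HasLineDerivAt ℝ g (g' y) y u) →
  m.Ex v (fun y => (∑ j, u j * m.sc v j y) * g y) = -m.Ex v g'

-- deps: KER MIX DER IBP
def S_DB : Prop := ∀ (ι : Type) [Fintype ι] (m : Mix ι) (α β : ι → ℝ) (t : ℝ),
  (∀ j, 0 < α j + β j * t) →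
  HasDerivAt (fun t => m.ent fun j => α j + β j * t)
    ((∑ j, β j * m.Ex (fun j => α j + β j * t) fun y => m.sc (fun j => α j + β j * t) j y ^ 2) / 2) t

-- deps: MIX
def S_GIB : Prop := ∀ (ι : Type) [Fintype ι] (m : Mix ι) (v : ι → ℝ) (q : (ι → ℝ) → ℝ),
  (∀ j, 0 < v j) → (∀ y, 0 < q y) → Integrable q → ∫ y, q y ≤ 1 → PG (fun y => log (q y)) →
  m.ent v ≤ -m.Ex v fun y => log (q y)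

-- deps: KER MIX
def S_HLO : Prop := ∀ (ι : Type) [Fintype ι] (m : Mix ι) (v : ι → ℝ), (∀ j, 0 < v j) →
  ∑ j, (log (2 * π * v j) + 1) / 2 ≤ m.ent v

-- deps: KER MIX
def S_LS : Prop := ∀ (ι : Type) [Fintype ι] (m : Mix ι) (v : ι → ℝ) (Z : Type) [Fintype Z]
  (f : m.Ω → Z) (μ : Z → ℝ) (B : ℝ), (∀ j, 0 < v j) → (∀ z, 0 < μ z) →
  (∀ z, ∑ ω ∈ univ.filter fun ω => f ω = z, m.p ω = μ z) → 0 < B →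
  (∀ y, ∑ ω, m.p ω / μ (f ω) * ker v (y - m.x ω) ≤ B) →
  -∑ z, μ z * log (μ z) - log B ≤ m.ent v

-- deps: KER
def S_PUSH : Prop := ∀ (ι κ : Type) [Fintype ι] [Fintype κ] (B : κ → ι → ℝ) (v x : ι → ℝ)
  (w : κ → ℝ) (g : (κ → ℝ) → ℝ), (∀ j, 0 < v j) → (∀ k, 0 < w k) →
  (∀ k, ∑ j, B k j ^ 2 * v j = w k) → (∀ k l, k ≠ l → ∑ j, B k j * B l j * v j = 0) → PG g →
  ∫ y, g (fun k => ∑ j, B k j * y j) * ker v (y - x) =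
    ∫ z, g z * ker w (z - fun k => ∑ j, B k j * x j)

-- deps: MIX
def S_POST : Prop := ∀ (ι : Type) [Fintype ι] (L : ℝ), ∃ C : ℝ, 1 ≤ C ∧
  ∀ (m : Mix ι) (v y : ι → ℝ), (∀ j, 1 ≤ v j ∧ v j ≤ 4) → m.E (fun x => ‖x‖ ^ 2) ≤ L →
  exp (-(C * (1 + ‖y‖) ^ 2)) ≤ m.den v y ∧ m.den v y ≤ 1 ∧
  (∀ j, |m.sc v j y| ≤ C * (1 + ‖y‖)) ∧ ∀ j k, |m.dsc v j k y| ≤ C * (1 + ‖y‖) ^ 2

/-! ### the entropy inequality -/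

-- deps:
def S_FR : Prop := ∀ (d : ℕ) (lam : ℝ), 3 ≤ d → lam ^ 2 ≤ 4 * (d - 1) → ∃ P : Par d, P.lam = lam

-- deps:
def S_JAC : Prop := ∀ (d : ℕ) (P : Par d) (g : (SI d → ℝ) → ℝ), Integrable g →
  Integrable (fun z => g (P.wh z)) ∧ ∫ z, g (P.wh z) = P.Dl * ∫ y, g y

-- deps: PUSH MIX
def S_EP : Prop := ∀ (d : ℕ) (P : Par d) (m : Mix (SI d)) (κ t : ℝ), 0 < κ → 0 ≤ t →
  (∀ g, PG g → ∑ i, m.Ex (vs d κ t) (fun y => g (P.ed i y)) = d * (P.edge m).Ex (P.ve κ t) g) ∧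
  (∀ g, PG g → m.Ex (vs d κ t) (fun y => g (vp y)) = (m.map vp).Ex (fun _ => κ ^ 2 + t) g) ∧
  ∀ g, PG g → ∀ j, m.Ex (vs d κ t) (fun y => m.sc (vs d κ t) (some j) y * g (vp y)) =
    (m.map vp).Ex (fun _ => κ ^ 2 + t) fun y => (m.map vp).sc (fun _ => κ ^ 2 + t) j y * g y

-- deps: MIX
def S_PM : Prop := ∀ (d : ℕ) (P : Par d) (m : Mix (SI d)) (v : Fin 2 → ℝ), P.Sym m →
  (∀ j, 0 < v j) → (P.edge m).Ex v (fun e => (P.edge m).sc v 0 e * (P.edge m).sc v 1 e) = 0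

-- deps: MIX IBP EP
def S_ORT : Prop := ∀ (d : ℕ) (P : Par d) (m : Mix (SI d)) (κ t : ℝ) (f : (Fin 2 → ℝ) → ℝ)
  (f' : Fin 2 → (Fin 2 → ℝ) → ℝ), 0 < κ → 0 ≤ t → PG f → (∀ j, PG (f' j)) →
  (∀ e, HasFDerivAt f (lin fun j => f' j e) e) →
  ∑ i, m.Ex (vs d κ t) (fun y =>
    (m.sc (vs d κ t) (some none) y - P.za m κ t (P.ed i y)) * f (P.ed i y)) = 0 ∧
  ∑ i, m.Ex (vs d κ t) (fun y => P.ww m κ t i y * f (P.ed i y)) = 0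

-- deps: DB
def S_FD : Prop := ∀ (d : ℕ) (P : Par d) (m : Mix (SI d)) (κ t : ℝ), 0 < κ → 0 ≤ t →
  HasDerivAt (P.Phi m κ) (P.Dr m κ t / 2) t

-- deps: MIX DER EP PM ORT
def S_FISH : Prop := ∀ (d : ℕ) (P : Par d) (m : Mix (SI d)) (κ t : ℝ), P.Sym m → 0 < κ → 0 ≤ t →
  P.Dr m κ t = P.Dd m κ t ∧ 0 ≤ P.Dd m κ t

-- deps: KER MIX GIB HLO FD FISH
def S_INF : Prop := ∀ (d : ℕ) (P : Par d) (m : Mix (SI d)) (κ t s : ℝ), P.Sym m → 0 < κ → 0 ≤ t →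
  0 < s → P.Phi m κ t ≤ log (2 * π * s ^ 2) / 2 + (m.E (fun y => y none ^ 2) + κ ^ 2) / (2 * s ^ 2)

-- deps: KER JAC
def S_RIE : Prop := ∀ (d : ℕ) (P : Par d) (κ ε : ℝ), 0 < κ → 0 < ε → ∃ h0 : ℝ, 0 < h0 ∧
  ∀ h : ℝ, 0 < h → h ≤ h0 → ∀ (U : Finset (St d)) (y : SI d → ℝ),
    h ^ (d + 1) * ∑ u ∈ U, ker (fun _ => κ ^ 2) (y - P.wh (re h u)) ≤ (1 + ε) * P.Dl

-- deps: LS RIE
def S_LAT1 : Prop := ∀ (d : ℕ) (P : Par d) (μ : Law d) (δ κ ε : ℝ), 0 < δ → 0 < κ → 0 < ε →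
  ∃ K : ℕ, μ.E (fun s => -log (μ.p s)) + (d + 1) * log δ - log P.Dl - ε ≤
    (P.mix μ δ K).ent (vs d κ 0)

-- deps: KER MIX GIB
def S_LAT2 : Prop := ∀ (d : ℕ) (P : Par d) (μ : Law d) (δ ε : ℝ), 0 < δ → 0 < ε →
  ∃ κ0 : ℝ, 0 < κ0 ∧ ∀ κ : ℝ, 0 < κ → κ ≤ κ0 → ∀ K : ℕ,
    (P.edge (P.mix μ δ K)).ent (P.ve κ 0) ≤
      -(μ.E fun s => ∑ i, log (μ.nu (s none) (s (some i)))) / d + 2 * log δ - log P.r + ε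

-- deps:
def S_LSYM : Prop := ∀ (d : ℕ) (P : Par d) (μ : Law d) (δ : ℝ) (K : ℕ), μ.Sym → P.Sym (P.mix μ δ K)

-- deps:
def S_ELL : Prop := ∀ (d : ℕ) (P : Par d),
  log P.Dl - d / 2 * log P.r - log (d - P.lam) = -ell d P.lam

-- deps: FD FISH INF LAT1 LAT2 LSYM ELL
def S_AN : Prop := ∀ (d : ℕ) (P : Par d) (μ : Law d) (δ η ε : ℝ), μ.Sym → 0 < δ → 0 < η → 0 < ε →
  0 ≤ μ.gap δ η P.lam ∧ ∃ (K : ℕ) (κ t : ℝ), 0 < κ ∧ κ ≤ P.cs ∧ κ ^ 2 ≤ ε ∧ 1 < t ∧ t < 2 ∧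
    P.Dd (P.mix μ δ K) κ t ≤ 2 * μ.gap δ η P.lam + ε

/-! ### stability -/

-- deps: MIX DER POST EP
def S_DROP : Prop := ∀ (d : ℕ) (c0 L : ℝ), 0 < c0 → ∃ C : ℝ, 1 ≤ C ∧
  ∀ (P : Par d) (m : Mix (SI d)) (κ t ε T : ℝ), P.Stab m κ t ε c0 L → 1 ≤ T → ∀ i,
  (m.map vp).Ex (fun _ => κ ^ 2 + t) (fun y => ind (‖y‖ ≤ T) *
    ((m.map vp).sc (fun _ => κ ^ 2 + t) none y - P.za m κ t (P.ed0 (y none) (P.ci i y))) ^ 2) ≤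
      C * T ^ 4 * ε ∧
  (m.map vp).Ex (fun _ => κ ^ 2 + t) (fun y => ind (‖y‖ ≤ T) *
    (∑ k, P.e i k * (m.map vp).sc (fun _ => κ ^ 2 + t) (some k) y -
      P.zc m κ t (P.ed0 (y none) (P.ci i y))) ^ 2) ≤ C * T ^ 4 * ε

-- deps:
def S_SUP : Prop := ∀ (ι : Type) [Fintype ι] (g f : (ι → ℝ) → ℝ) (T L b s ε : ℝ), 0 ≤ T → 0 < L →
  0 < b → 0 < s → s ≤ 2 * L → (∀ y, 0 ≤ f y) → (∀ y, ‖y‖ ≤ T + 1 → b ≤ f y) →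
  (∀ y y', ‖y‖ ≤ T + 1 → ‖y'‖ ≤ T + 1 → |g y - g y'| ≤ L * ‖y - y'‖) →
  Integrable (fun y => ind (‖y‖ ≤ T + 1) * g y ^ 2 * f y) →
  ∫ y, ind (‖y‖ ≤ T + 1) * g y ^ 2 * f y ≤ ε →
  ε < b * (s / 2) ^ 2 * (s / L) ^ Fintype.card ι → ∀ y, ‖y‖ ≤ T → |g y| < s

-- deps: MIX DER POST DROP SUP
def S_LOC : Prop := ∀ (d : ℕ) (c0 L : ℝ), 0 < c0 → ∃ C : ℝ, 1 ≤ C ∧
  ∀ (P : Par d) (m : Mix (SI d)) (κ t ε T s : ℝ), P.Stab m κ t ε c0 L → 1 ≤ T → 0 < s → s ≤ 1 →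
  ε * exp (C * T ^ 2) ≤ s ^ (d + 2) → ∀ y : VI d → ℝ, ‖y‖ ≤ T → ∀ i,
  |(m.map vp).sc (fun _ => κ ^ 2 + t) none y - P.za m κ t (P.ed0 (y none) (P.ci i y))| ≤ s ∧
  |∑ k, P.e i k * (m.map vp).sc (fun _ => κ ^ 2 + t) (some k) y -
      P.zc m κ t (P.ed0 (y none) (P.ci i y))| ≤ s

-- deps:
def S_HU : Prop := ∀ (A : ℝ → ℝ) (T ε K : ℝ), 0 < T → (∀ s, |s| ≤ T → |A s| ≤ K) →
  (∀ s s', |s| ≤ T → |s'| ≤ T → |s + s'| ≤ T → |A (s + s') - A s - A s'| ≤ ε) →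
  ∀ s, |s| ≤ T → |A s - s * (A T / T)| ≤ 7 * ε

-- deps: HU
def S_CAU : Prop := ∀ d : ℕ, ∃ C : ℝ, 1 ≤ C ∧ ∀ (P : Par d) (l : (VI d → ℝ) → ℝ)
  (ρ : VI d → (VI d → ℝ) → ℝ) (G G' : ℝ → ℝ → ℝ) (T s K : ℝ), 4 * d ≤ T → 0 ≤ s →
  (∀ y, HasFDerivAt l (lin fun j => ρ j y) y) → (∀ y, ‖y‖ ≤ T → ∀ j, |ρ j y| ≤ K) →
  (∀ y, ‖y‖ ≤ T → ∀ i, |ρ none y - G (y none) (P.ci i y)| ≤ s ∧
    |∑ k, P.e i k * ρ (some k) y - G' (y none) (P.ci i y)| ≤ s) →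
  ∃ θ : ℝ, ∀ y, ‖y‖ ≤ T / (4 * d) → ∀ k, |ρ (some k) y + θ * y (some k)| ≤ C * s

-- deps: DER POST LOC CAU
def S_NL : Prop := ∀ (d : ℕ) (c0 L : ℝ), 0 < c0 → ∃ C : ℝ, 1 ≤ C ∧
  ∀ (P : Par d) (m : Mix (SI d)) (κ t ε T s : ℝ), P.Stab m κ t ε c0 L → 1 ≤ T → 0 < s → s ≤ 1 →
  ε * exp (C * T ^ 2) ≤ s ^ (d + 2) → ∃ θ : ℝ, NL (m.map vp) (κ ^ 2 + t) θ (C * s) T

-- deps: KER KT MIX DER POST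
def S_TH : Prop := ∀ (d : ℕ) (L : ℝ), 3 ≤ d → ∃ c : ℝ, 0 < c ∧ c ≤ 1 ∧
  ∀ (F : Mix (VI d)) (v θ s T : ℝ), 1 ≤ v → v ≤ 3 → F.E (fun x => ‖x‖ ^ 2) ≤ L → 1 / c ≤ T →
  0 ≤ s → s * T ≤ c → NL F v θ s T → c ≤ θ ∧ θ ≤ 1 / c

-- deps: KER KT MIX DER POST
def S_TAIL : Prop := ∀ (d : ℕ) (c : ℝ), 0 < c → ∃ C c' : ℝ, 1 ≤ C ∧ 0 < c' ∧
  ∀ (P : Par d) (F : Mix (VI d)) (v θ s T τ : ℝ), 1 ≤ v → v ≤ 3 → C ≤ T → 0 ≤ s → s * T ≤ 1 →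
  c ≤ θ → NL F v θ s T → 0 ≤ τ →
  F.E (fun x => ind (‖x‖ ≤ T / 2 ∧ ∃ i, τ ≤ |P.ci i x|)) ≤ C * T ^ d * exp (-(c' * τ ^ 2))

-- deps: KER KT KCH MIX POST IBP
def S_STE : Prop := ∀ (d : ℕ) (L c : ℝ), 0 < c → ∃ C : ℝ, 1 ≤ C ∧
  ∀ (F : Mix (VI d)) (v θ s T h : ℝ), 1 ≤ v → v ≤ 3 → F.E (fun x => ‖x‖ ^ 2) ≤ L → 2 ≤ T →
  0 ≤ s → c ≤ θ → θ ≤ 1 / c → NL F v θ s T → F.E (fun x => max (‖x‖ - T / 4) 0 ^ 2) ≤ h →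
  |θ * F.Ex (fun _ => v) (fun y => ∑ k, y (some k) ^ 2) - (d - 1 : ℕ)| ≤ C * (s + h + 1 / T) ∧
  ∀ ξ : VI d → ℝ, ‖F.chv (fun _ => v) ξ - F.chv (fun _ => v) (fun j => j.elim (ξ none) fun _ => 0) *
      (exp (-(∑ k, ξ (some k) ^ 2) / (2 * θ)) : ℝ)‖ ≤ C * (s + h + 1 / T) * ∑ k, |ξ (some k)|

-- deps: KER KCH MIX
def S_CHAR : Prop := ∀ (d : ℕ) (L c R ε : ℝ), 0 < c → 0 < ε → ∃ s0 : ℝ, 0 < s0 ∧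
  ∀ (P : Par d) (m : Mix (SI d)) (v θ : ℝ), P.Sym m → 1 ≤ v → v ≤ 3 →
  m.E (fun x => ‖x‖ ^ 2) ≤ L → m.E (fun y => y none ^ 2) ≤ s0 → c ≤ θ → θ ≤ 1 / c →
  |θ * (m.map vp).Ex (fun _ => v) (fun y => ∑ k, y (some k) ^ 2) - (d - 1 : ℕ)| ≤ s0 →
  (∀ ξ : VI d → ℝ, ‖(m.map vp).chv (fun _ => v) ξ -
      (m.map vp).chv (fun _ => v) (fun j => j.elim (ξ none) fun _ => 0) *
      (exp (-(∑ k, ξ (some k) ^ 2) / (2 * θ)) : ℝ)‖ ≤ s0 * ∑ k, |ξ (some k)|) →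
  ∀ ξ : VI d → ℝ, ‖ξ‖ ≤ R → ‖(m.map vp).chi ξ -
    (exp (-(m.E (fun y => P.val y none ^ 2) * ∑ j, ξ j ^ 2) / 2) : ℝ)‖ ≤ ε

-- deps: AN LSYM NL TH TAIL
def S_AN1 : Prop := ∀ (d : ℕ) (κ0 L : ℝ), 0 < κ0 → ∃ C c : ℝ, 1 ≤ C ∧ 0 < c ∧
  ∀ (P : Par d) (μ : Law d) (δ η ε T : ℝ), |P.lam| ≤ 2 * √(d - 1) - κ0 → μ.Sym → 0 < δ → δ ≤ ε →
  0 < η → μ.gap δ η P.lam ≤ ε → μ.E (fun s => Wd P.lam (re δ s) ^ 2) ≤ ε →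
  μ.E (fun s => ‖re δ s‖ ^ 2) ≤ L → C ≤ T → ε * exp (C * T ^ 2) ≤ 1 →
  μ.E (fun s => ind (‖re δ s‖ ≤ 3 * d * T ∧
    ∃ i, T / 100 ≤ |re δ s (some i) - P.rho * re δ s none|)) ≤ exp (-(c * T ^ 2))

-- deps: AN LSYM NL TH STE CHAR
def S_AN2 : Prop := ∀ (d : ℕ) (κ0 L : ℝ), 0 < κ0 → ∃ C : ℝ, 1 ≤ C ∧ ∀ R ε' : ℝ, 0 < ε' →
  ∃ s0 : ℝ, 0 < s0 ∧ ∀ (P : Par d) (μ : Law d) (δ η ε T : ℝ), |P.lam| ≤ 2 * √(d - 1) - κ0 → μ.Sym →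
  0 < δ → δ ≤ ε → 0 < η → μ.gap δ η P.lam ≤ ε → μ.E (fun s => Wd P.lam (re δ s) ^ 2) ≤ ε →
  μ.E (fun s => ‖re δ s‖ ^ 2) ≤ L → 1 / s0 ≤ T → ε * exp (C * T ^ 2) ≤ 1 →
  μ.E (fun s => max (‖re δ s‖ - T) 0 ^ 2) ≤ s0 →
  ∀ (s : ℝ) (t : Fin d → ℝ), |s| + ∑ i, |t i| ≤ R → ‖μ.chi δ s t -
    (exp (-(μ.E (fun z => re δ z none ^ 2) * cov d P.lam s t) / 2) : ℝ)‖ ≤ ε'

end Pool.Agent.P.MP_6b977f_mp.RG
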