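import Pool.Agent.P.MP_6b977f_mp.RG.Api

/-! Statements on random configurations. -/

namespace Pool.Agent.P.MP_6b977f_mp.RG

open Finset MeasureTheory Real
open scoped Classical

/-! ### counting -/

-- deps:
def S_CNT : Prop := ∀ (H L : Type) [Fintype H] (fl : L → L) (lab : H → L), (∀ l, fl (fl l) = l) →
  (#((Inv H).filter fun M => ∀ h, lab (M h) = fl (lab h)) : ℝ) ≤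
    #(Inv H) * (exp 1 * Fintype.card H) ^ #(univ.image lab) *
      exp ((∑ h, log (#(univ.filter fun h' => lab h' = lab h) / Fintype.card H)) / 2)

-- deps:
def S_TYP : Prop := ∀ (H : Type) [Fintype H] (R : ℝ), 1 ≤ R →
  ∃ T : Finset (ℤ × ℤ → ℕ), (#T : ℝ) ≤ exp (40 * R * log (26 * R ^ 2 * (Fintype.card H + 1))) ∧
    ∀ lab : H → ℤ × ℤ, ∑ h, (((lab h).1 : ℝ) ^ 2 + ((lab h).2 : ℝ) ^ 2) ≤ 2 * R ^ 2 →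
      (#(univ.image lab) : ℝ) ≤ 40 * R ∧ (fun l => #(univ.filter fun h => lab h = l)) ∈ T

-- deps: CNT TYP
def S_FM : Prop := ∀ d : ℕ, 1 ≤ d → ∃ C : ℝ, 0 < C ∧ ∀ (N : ℕ) (lam β R Z Ψ : ℝ) (K : Type)
  (g : K → St d → ℝ) (c : K → ℝ) (B : Finset (Cfg d N)) (F : Cfg d N → Finset (Fin N → ℤ)),
  B ⊆ Cf d N → 1 ≤ N → 1 ≤ R →
  (∀ M ∈ B, (∀ φ ∈ F M, ∑ x, (φ x : ℝ) ^ 2 ≤ R ^ 2 ∧ ∀ k, ∑ x, g k (star M φ x) ≤ N * c k) ∧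
    Z ≤ ∑ φ ∈ F M, exp (-(β * ∑ x, Wd lam (re 1 (star M φ x)) ^ 2))) →
  (∀ μ : Law d, μ.Sym → (∀ k, μ.E (g k) ≤ c k) →
    μ.Phi - β * μ.E (fun s => Wd lam (re 1 s) ^ 2) ≤ Ψ) →
  #B * Z ≤ #(Cf d N) * exp (N * Ψ + C * R * log (2 * N * R))

-- deps:
def S_GAU : Prop := ∀ (N : ℕ) (Q : Matrix (Fin N) (Fin N) ℝ), Q.PosDef →
  Integrable (fun v : Fin N → ℝ => exp (-(v ⬝ᵥ Q.mulVec v) / 2)) ∧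
  ∫ v : Fin N → ℝ, exp (-(v ⬝ᵥ Q.mulVec v) / 2) = exp (N * log (2 * π) / 2 - log Q.det / 2)

-- deps: GAU
def S_VOL : Prop := ∀ (d N : ℕ) (M : Cfg d N) (ψ : Fin N → ℝ) (lam δ η γ ζ z : ℝ), M ∈ Cf d N →
  1 ≤ d → 1 ≤ N → |lam| ≤ d → 0 < η → 0 < δ → 2 * δ ≤ ζ → 4 * η ≤ γ * ζ → 0 < z → z ≤ 1 / 2 →
  ∑ x, (adj M ψ x - lam * ψ x) ^ 2 ≤ δ ^ 2 * N →
  ∃ F : Finset (Fin N → ℤ), (∀ φ ∈ F, ∑ x, (δ * φ x - ψ x) ^ 2 ≤ ζ ^ 2 * N) ∧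
    exp (N * (log (2 * π * η ^ 2) / 2 - log δ - LD M lam γ - 10 * d ^ 2 * δ ^ 2 / (z * η ^ 2))) / 3 ≤
      ∑ φ ∈ F, exp (-((1 - z) * δ ^ 2 / (2 * η ^ 2) * ∑ x, Wd lam (re 1 (star M φ x)) ^ 2))

-- deps: FM VOL
def S_KEY : Prop := ∀ d : ℕ, 1 ≤ d → ∃ C : ℝ, 0 < C ∧ ∀ (N : ℕ) (lam δ η ζ z R Sb γ0 : ℝ)
  (K : Type) (g : K → St d → ℝ) (c : K → ℝ) (B : Finset (Cfg d N)), B ⊆ Cf d N → 1 ≤ N →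
  |lam| ≤ d → 0 < η → 0 < δ → 2 * δ ≤ ζ → 0 < z → z ≤ 1 / 2 → 1 ≤ R →
  (∀ M ∈ B, ∃ (γ : ℝ) (ψ : Fin N → ℝ), 4 * η ≤ γ * ζ ∧ LD M lam γ ≤ Sb ∧
    ∑ x, (adj M ψ x - lam * ψ x) ^ 2 ≤ δ ^ 2 * N ∧
    ∀ φ : Fin N → ℤ, ∑ x, (δ * φ x - ψ x) ^ 2 ≤ ζ ^ 2 * N →
      ∑ x, (φ x : ℝ) ^ 2 ≤ R ^ 2 ∧ ∀ k, ∑ x, g k (star M φ x) ≤ N * c k) →
  (∀ (μ : Law d) (η' : ℝ), μ.Sym → 0 < η' → (∀ k, μ.E (g k) ≤ c k) → γ0 ≤ μ.gap δ η' lam) →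
  (#B : ℝ) ≤ #(Cf d N) * exp (N * (Sb - ell d lam - γ0 + C * z + C * δ ^ 2 / (z * η ^ 2)) +
    C * R * log (2 * N * R) + 2)

/-! ### the determinant -/

-- deps:
def S_EIG : Prop := ∀ (d N : ℕ) (M : Cfg d N), M ∈ Cf d N → ∃ ev : Fin N → ℝ,
  (∀ lam γ, γ ≠ 0 → LD M lam γ = Sv ev lam γ) ∧ ∑ j, ev j ^ 2 = d * N + par M

-- deps:
def S_JEN : Prop := ∀ (d N : ℕ) (ev : Fin N → ℝ) (m2 r0 r θ0 B : ℝ), 3 ≤ d → 1 ≤ N → 0 ≤ m2 →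
  ∑ j, ev j ^ 2 ≤ N * (d + m2) → 0 < r0 → r0 < r → r < 1 → sin θ0 ≠ 0 → 1 ≤ B →
  Sv ev (lamw d r0 θ0) (gamw d r0 θ0) ≤ ellw d r0 θ0 +
    2 / (r - r0) * (1 / √B + B * m2 + (1 + 2 * B) * Yv d ev r)

-- deps:
def S_EL : Prop := ∀ d : ℕ, 3 ≤ d → ∃ C : ℝ, 0 < C ∧ ∀ r θ : ℝ, 1 / 2 ≤ r → r ≤ 1 →
  ellw d r θ ≤ C ∧
  (lamw d r θ ^ 2 ≤ 4 * (d - 1) → |ellw d r θ - ell d (lamw d r θ)| ≤ C * (1 - r))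

-- deps: KEY FR AN
def S_LOW : Prop := ∀ d : ℕ, 3 ≤ d → ∃ (C : ℝ) (N0 : ℕ), 0 < C ∧ ∀ N : ℕ, N0 ≤ N →
  ∀ g lam γ : ℝ, (N : ℝ) ^ (-(1 / 10) : ℝ) ≤ g → g ≤ 1 / 2 → lam ^ 2 ≤ 4 * (d - 1) → g ^ 2 ≤ γ →
  (#((Cf d N).filter fun M => LD M lam γ ≤ ell d lam - C * g) : ℝ) ≤ exp (-(g * N)) * #(Cf d N)

-- deps:
def S_PAIR : Prop := ∀ (H J : Type) [Fintype H] [Fintype J] (f g : J → H),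
  Function.Injective (Sum.elim f g) → 4 * Fintype.card J ≤ Fintype.card H →
  (#((Inv H).filter fun M => ∀ j, M (f j) = g j) : ℝ) ≤
    (4 / Fintype.card H) ^ Fintype.card J * #(Inv H)

-- deps: PAIR
def S_M2 : Prop := ∀ d : ℕ, ∃ C : ℝ, 0 < C ∧ ∀ N : ℕ, 8 ≤ N →
  ∑ M ∈ Cf d N, par M ≤ C * #(Cf d N) ∧
  ∑ M ∈ Cf d N, ∑ h, ind (tip M h = h.1) ≤ C * #(Cf d N)

-- deps: EIG EL LOW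
def S_EY : Prop := ∀ d : ℕ, 3 ≤ d → ∃ (C : ℝ) (N0 : ℕ), 0 < C ∧ ∀ N : ℕ, N0 ≤ N →
  ∀ ev : Cfg d N → Fin N → ℝ, (∀ M ∈ Cf d N, ∀ lam γ, γ ≠ 0 → LD M lam γ = Sv (ev M) lam γ) →
  ∑ M ∈ Cf d N, Yv d (ev M) (1 - (N : ℝ) ^ (-(1 / 10) : ℝ)) ≤
    C * (N : ℝ) ^ (-(1 / 20) : ℝ) * #(Cf d N)

-- deps: EIG JEN EL M2 EY
def S_DET : Prop := ∀ d : ℕ, 3 ≤ d → ∃ a : ℝ, 0 < a ∧ a ≤ 1 / 100 ∧ ∀ κ0 ε : ℝ, 0 < κ0 → 0 < ε →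
  ∃ N0 : ℕ, ∀ N : ℕ, N0 ≤ N →
  (#((Cf d N).filter fun M => ¬ ∀ lam, |lam| ≤ 2 * √(d - 1) - κ0 →
    LD M lam ((N : ℝ) ^ (-(2 * a))) ≤ ell d lam + (N : ℝ) ^ (-a)) : ℝ) ≤ ε * #(Cf d N)

/-! ### expansion -/

-- deps: PAIR
def S_SP : Prop := ∀ (d : ℕ) (e0 : ℝ), 1 ≤ d → 0 < e0 → ∃ d0 : ℝ, 0 < d0 ∧ ∀ ε : ℝ, 0 < ε →
  ∃ N0 : ℕ, ∀ N : ℕ, N0 ≤ N →
  (#((Cf d N).filter fun M => ¬ Sparse M e0 d0) : ℝ) ≤ ε * #(Cf d N)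

-- deps:
def S_MASSP : Prop := ∀ (d : ℕ) (κ0 p : ℝ), 3 ≤ d → 0 < κ0 → 1 ≤ p → p < 2 →
  ∃ e0 C : ℝ, 0 < e0 ∧ 0 < C ∧ ∀ (N : ℕ) (M : Cfg d N) (ψ : Fin N → ℝ) (lam t d0 : ℝ),
  M ∈ Cf d N → Sparse M e0 d0 → (∀ x, adj M ψ x = lam * ψ x) → |lam| ≤ 2 * √(d - 1) - κ0 → 0 < t →
  (d + 1) * nb ψ t ≤ d0 * N →
  ∑ x ∈ univ.filter fun x => t < |ψ x|, |ψ x| ^ p ≤ C * t ^ p * nb ψ t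

-- deps:
def S_NB : Prop := ∀ (d N : ℕ) (M : Cfg d N) (ψ : Fin N → ℝ) (lam t e0 d0 : ℝ), 3 ≤ d →
  M ∈ Cf d N → Sparse M e0 d0 → e0 ≤ 1 / 10 → (∀ x, adj M ψ x = lam * ψ x) → |lam| ≤ d → 0 ≤ t →
  (d + 1) * nb ψ t ≤ d0 * N →
  nb ψ t ≤ 2 * #(univ.filter fun y => Reg1 t (star M ψ y))

/-! ### assembly -/

-- deps: KEY FR AN1
def S_CA : Prop := ∀ (d : ℕ) (κ0 a : ℝ), 3 ≤ d → 0 < κ0 → 0 < a → a ≤ 1 / 100 →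
  ∃ c0 c : ℝ, 0 < c0 ∧ 0 < c ∧ ∀ b : ℝ, 0 < b → b ≤ c0 → ∃ N0 : ℕ, ∀ N : ℕ, N0 ≤ N →
  ∀ lam' : ℝ, |lam'| ≤ 2 * √(d - 1) - κ0 →
  (#((Cf d N).filter fun M => LD M lam' ((N : ℝ) ^ (-(2 * a))) ≤ ell d lam' + (N : ℝ) ^ (-a) ∧
    ∃ ψ lam, Eig M ψ lam ∧ |lam - lam'| ≤ 1 / N ∧
      (N : ℝ) ^ (1 - c * b) ≤ #(univ.filter fun y => Reg1 √(b * log N) (star M ψ y))) : ℝ) ≤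
    exp (-(N : ℝ) ^ (1 - a)) * #(Cf d N)

-- deps: KEY FR AN2
def S_CB : Prop := ∀ (d : ℕ) (κ0 a : ℝ), 3 ≤ d → 0 < κ0 → 0 < a → a ≤ 1 / 100 →
  ∃ c0 : ℝ, 0 < c0 ∧ ∀ b R ε : ℝ, 0 < b → b ≤ c0 → 0 < ε → ∃ (s0 : ℝ) (N0 : ℕ), 0 < s0 ∧
  ∀ N : ℕ, N0 ≤ N → ∀ (lam' s : ℝ) (t : Fin d → ℝ) (w : ℂ), |lam'| ≤ 2 * √(d - 1) - κ0 →
  |s| + ∑ i, |t i| ≤ R → ‖w‖ ≤ 1 →
  (#((Cf d N).filter fun M => LD M lam' ((N : ℝ) ^ (-(2 * a))) ≤ ell d lam' + (N : ℝ) ^ (-a) ∧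
    ∃ ψ lam, Eig M ψ lam ∧ |lam - lam'| ≤ 1 / N ∧
      ∑ x, max (|ψ x| - √(b * log N)) 0 ^ 2 ≤ s0 * N ∧
      ε ≤ (w * (chi M ψ s t - (exp (-cov d lam' s t / 2) : ℝ))).re) : ℝ) ≤
    exp (-(N : ℝ) ^ (1 - a)) * #(Cf d N)

-- deps:
def S_NET : Prop := ∀ (d : ℕ) (R ε : ℝ), 1 ≤ d → 0 < ε →
  ∃ (τ : ℝ) (T : Finset (ℝ × (Fin d → ℝ) × ℂ)), 0 < τ ∧
    (∀ p ∈ T, |p.1| + ∑ i, |p.2.1 i| ≤ R ∧ ‖p.2.2‖ ≤ 1) ∧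
    ∀ (N : ℕ) (M : Cfg d N) (ψ : Fin N → ℝ) (lam lam' s : ℝ) (t : Fin d → ℝ), M ∈ Cf d N → 1 ≤ N →
      ∑ x, ψ x ^ 2 = N → |lam| ≤ d → |lam'| ≤ d → |lam - lam'| ≤ τ → |s| + ∑ i, |t i| ≤ R →
      ε < ‖chi M ψ s t - (exp (-cov d lam s t / 2) : ℝ)‖ →
      ∃ p ∈ T, ε / 4 ≤ (p.2.2 * (chi M ψ p.1 p.2.1 - (exp (-cov d lam' p.1 p.2.1 / 2) : ℝ))).re

-- deps: DET SP MASSP NB CA CB NET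
def S_CONF : Prop := ∀ (d : ℕ) (κ R ε : ℝ), 3 ≤ d → 0 < κ → 0 < ε → ∃ N0 : ℕ, ∀ N : ℕ, N0 ≤ N →
  (#((Cf d N).filter fun M => ¬ BerryC κ R ε M) : ℝ) ≤ ε * #(Cf d N)

-- deps: M2
def S_SIM : Prop := ∀ d : ℕ, ∃ (c : ℝ) (N0 : ℕ), 0 < c ∧ ∀ N : ℕ, N0 ≤ N →
  c * #(Cf d N) ≤ #((Cf d N).filter Simple)

-- deps:
def S_FIB : Prop := ∀ d N : ℕ, (∀ M ∈ Cf d N, Simple M → graph M ∈ Reg d N) ∧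
  ∀ G ∈ Reg d N, #((Cf d N).filter fun M => Simple M ∧ graph M = G) = d.factorial ^ N

-- deps:
def S_TR : Prop := ∀ (d N : ℕ) (M : Cfg d N) (κ R ε : ℝ), M ∈ Cf d N → Simple M → 1 ≤ N →
  BerryC κ R ε M → Berry d κ R ε (graph M)

-- deps: CONF SIM FIB TR
def S_MAIN : Prop := ∀ (d : ℕ) (κ R ε : ℝ), 3 ≤ d → 0 < κ → 0 < ε → ∃ N0 : ℕ, ∀ N : ℕ, N0 ≤ N →
  (#((Reg d N).filter fun G => ¬ Berry d κ R ε G) : ℝ) ≤ ε * #(Reg d N)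

end Pool.Agent.P.MP_6b977f_mp.RG
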