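import Pool.Agent.P.MP_6b977f_mp.RG.IfaceA

/-! Step DB. -/

namespace Pool.Agent.P.MP_6b977f_mp.RG

open Finset MeasureTheory Real
open scoped Classical

namespace DBx

variable {ι : Type} [Fintype ι]

/-- logarithmic derivative of the kernel in the variances -/
noncomputable def hh (β v u : ι → ℝ) : ℝ := ∑ j, β j / 2 * (u j ^ 2 / v j ^ 2 - 1 / v j)

theorem ker_exp {v : ι → ℝ} (hv : ∀ j, 0 < v j) (u : ι → ℝ) :
    ker v u = exp (∑ j, (-u j ^ 2 / (2 * v j) - log (2 * π * v j) / 2)) := by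
  rw [exp_sum]
  refine prod_congr rfl fun j _ => ?_
  have h : 0 < 2 * π * v j := by have := hv j; positivity
  rw [g1, exp_sub, sqrt_eq_rpow, rpow_def_of_pos h]
  congr 2
  ring

theorem ev_pos {α β : ι → ℝ} {t : ℝ} (h : ∀ j, 0 < α j + β j * t) :
    ∀ᶠ s in nhds t, ∀ j, (α j + β j * t) / 2 ≤ α j + β j * s ∧
      α j + β j * s ≤ 2 * (α j + β j * t) := by
  refine Filter.eventually_all.2 fun j => ?_
  have c : ContinuousAt (fun s : ℝ => α j + β j * s) t := by fun_prop
  have := h j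
  exact (c.eventually_const_le (by linarith)).and (c.eventually_le_const (by linarith))

theorem der_ker {α β : ι → ℝ} {t : ℝ} (h : ∀ j, 0 < α j + β j * t) (u : ι → ℝ) :
    HasDerivAt (fun s => ker (fun j => α j + β j * s) u)
      (ker (fun j => α j + β j * t) u * hh β (fun j => α j + β j * t) u) t := by
  have h1 : ∀ j, HasDerivAt
      (fun s : ℝ => -u j ^ 2 / (2 * (α j + β j * s)) - log (2 * π * (α j + β j * s)) / 2)
      (β j / 2 * (u j ^ 2 / (α j + β j * t) ^ 2 - 1 / (α j + β j * t))) t := by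
    intro j
    have a : HasDerivAt (fun s : ℝ => α j + β j * s) (β j) t := by
      simpa using ((hasDerivAt_id t).const_mul (β j)).const_add (α j)
    have hj := h j
    have b := ((hasDerivAt_const t (-u j ^ 2)).div (a.const_mul 2) (by positivity)).sub
      (((a.const_mul (2 * π)).log (by positivity)).div_const 2)
    refine HasDerivAt.congr_deriv b ?_
    field_simp
    ring
  have h2 := (HasDerivAt.fun_sum (u := univ) fun j _ => h1 j).exp
  rw [ker_exp h]
  refine h2.congr_of_eventuallyEq ?_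
  filter_upwards [ev_pos h] with s hs
  exact ker_exp (fun j => by linarith [(hs j).1, h j]) u

variable (m : Mix ι)

/-- derivative of the density along the flow -/
noncomputable def DD (β v y : ι → ℝ) : ℝ := ∑ ω, m.p ω * (ker v (y - m.x ω) * hh β v (y - m.x ω))

theorem der_den {α β : ι → ℝ} {t : ℝ} (h : ∀ j, 0 < α j + β j * t) (y : ι → ℝ) :
    HasDerivAt (fun s => m.den (fun j => α j + β j * s) y)
      (DD m β (fun j => α j + β j * t) y) t :=
  HasDerivAt.fun_sum fun ω _ => (der_ker h (y - m.x ω)).const_mul (m.p ω)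

/-- sum of the squared distances to the atoms in one coordinate -/
noncomputable def qq (j : ι) (y : ι → ℝ) : ℝ := ∑ ω, (y j - m.x ω j) ^ 2

omit [Fintype ι] in
theorem le_qq (j : ι) (y : ι → ℝ) (ω : m.Ω) : (y - m.x ω) j ^ 2 ≤ qq m j y :=
  single_le_sum (f := fun ω => (y j - m.x ω j) ^ 2) (fun _ _ => sq_nonneg _) (mem_univ ω)

theorem PG_qq (j : ι) : PG (qq m j) :=
  PG.sum _ fun _ _ => ((PG.coord j).sub (PG.const _)).pow 2

/-- bound for the logarithmic derivative -/
noncomputable def H1 (β v y : ι → ℝ) : ℝ := ∑ j, |β j| / 2 * (qq m j y / (v j / 2) ^ 2 + 1 / (v j / 2))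

/-- bound for the logarithm of the density -/
noncomputable def H2 (v y : ι → ℝ) : ℝ :=
  ∑ j, (qq m j y / v j + (|log (π * v j)| + |log (4 * π * v j)|))

theorem PG_H1 (β v : ι → ℝ) : PG (H1 m β v) :=
  PG.sum _ fun j _ => (((PG_qq m j).div _).add (PG.const _)).cmul _

theorem PG_H2 (v : ι → ℝ) : PG (H2 m v) :=
  PG.sum _ fun j _ => ((PG_qq m j).div _).add (PG.const _)

variable {v w : ι → ℝ}

theorem hh_le (hv : ∀ j, 0 < v j) (hw : ∀ j, v j / 2 ≤ w j ∧ w j ≤ 2 * v j) (β y : ι → ℝ)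
    (ω : m.Ω) : |hh β w (y - m.x ω)| ≤ H1 m β v y := by
  refine (abs_sum_le_sum_abs _ _).trans (sum_le_sum fun j _ => ?_)
  have h0 : 0 < v j / 2 := half_pos (hv j)
  have h1 : 0 < w j := h0.trans_le (hw j).1
  rw [abs_mul, abs_div, abs_two]
  refine mul_le_mul_of_nonneg_left ((abs_sub _ _).trans ?_) (by positivity)
  rw [abs_of_nonneg (by positivity), abs_of_nonneg (by positivity)]
  exact add_le_add (div_le_div₀ ((sq_nonneg _).trans (le_qq m j y ω)) (le_qq m j y ω)
    (by positivity) (pow_le_pow_left₀ h0.le (hw j).1 2)) (one_div_le_one_div_of_le h0 (hw j).1)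

theorem log_le (hv : ∀ j, 0 < v j) (hw : ∀ j, v j / 2 ≤ w j ∧ w j ≤ 2 * v j) (y : ι → ℝ) :
    |log (m.den w y)| ≤ H2 m v y := by
  have h1 : ∀ j, 0 < w j := fun j => (half_pos (hv j)).trans_le (hw j).1
  have k : ∀ ω, |∑ j, (-(y - m.x ω) j ^ 2 / (2 * w j) - log (2 * π * w j) / 2)| ≤ H2 m v y := by
    intro ω
    refine (abs_sum_le_sum_abs _ _).trans (sum_le_sum fun j _ => (abs_sub _ _).trans ?_)
    have a := hv j
    have b := h1 j
    refine add_le_add ?_ ?_
    · rw [neg_div, abs_neg, abs_of_nonneg (by positivity)]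
      exact div_le_div₀ ((sq_nonneg _).trans (le_qq m j y ω)) (le_qq m j y ω) a
        (by linarith [(hw j).1])
    · have l1 : log (π * v j) ≤ log (2 * π * w j) :=
        log_le_log (by positivity) (by nlinarith [(hw j).1, pi_pos])
      have l2 : log (2 * π * w j) ≤ log (4 * π * v j) :=
        log_le_log (by positivity) (by nlinarith [(hw j).2, pi_pos])
      rw [abs_le]
      constructor <;> linarith [neg_abs_le (log (π * v j)), le_abs_self (log (4 * π * v j)),
        abs_nonneg (log (π * v j)), abs_nonneg (log (4 * π * v j))]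
  have lo : exp (-H2 m v y) ≤ m.den w y := by
    rw [← one_mul (exp _), ← m.p1, sum_mul]
    refine sum_le_sum fun ω _ => mul_le_mul_of_nonneg_left ?_ (m.p0 ω)
    rw [ker_exp h1]
    exact exp_le_exp.2 (abs_le.1 (k ω)).1
  have hi : m.den w y ≤ exp (H2 m v y) := by
    rw [← one_mul (exp _), ← m.p1, sum_mul]
    refine sum_le_sum fun ω _ => mul_le_mul_of_nonneg_left ?_ (m.p0 ω)
    rw [ker_exp h1]
    exact exp_le_exp.2 (abs_le.1 (k ω)).2
  have p := (exp_pos _).trans_le lo
  exact abs_le.2 ⟨(le_log_iff_exp_le p).2 lo, (log_le_iff_le_exp p).2 hi⟩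

theorem ker_le (hv : ∀ j, 0 < v j) (hw : ∀ j, v j / 2 ≤ w j ∧ w j ≤ 2 * v j) (u : ι → ℝ) :
    ker w u ≤ 2 ^ Fintype.card ι * ker (fun j => 2 * v j) u := by
  have h1 : ∀ j, 0 < w j := fun j => (half_pos (hv j)).trans_le (hw j).1
  rw [ker, ker, ← card_univ, ← prod_const, ← prod_mul_distrib]
  refine prod_le_prod (fun j _ => (g1_pos (h1 j) _).le) fun j _ => ?_
  have a := hv j
  have b := h1 j
  have e : exp (-u j ^ 2 / (2 * w j)) ≤ exp (-u j ^ 2 / (2 * (2 * v j))) := by
    rw [exp_le_exp, neg_div, neg_div, neg_le_neg_iff]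
    exact div_le_div_of_nonneg_left (sq_nonneg _) (by positivity) (by linarith [(hw j).2])
  have s : √(2 * π * (2 * v j)) ≤ 2 * √(2 * π * w j) := by
    rw [sqrt_le_left (by positivity), mul_pow, sq_sqrt (by positivity)]
    nlinarith [(hw j).1, pi_pos]
  rw [g1, g1, ← mul_div_assoc, div_le_div_iff₀ (by positivity) (by positivity)]
  have := mul_le_mul e s (sqrt_nonneg _) (exp_pos _).le
  linarith

theorem DD_le (hv : ∀ j, 0 < v j) (hw : ∀ j, v j / 2 ≤ w j ∧ w j ≤ 2 * v j) (β y : ι → ℝ) :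
    |DD m β w y| ≤ 2 ^ Fintype.card ι * H1 m β v y * m.den (fun j => 2 * v j) y := by
  have h1 : ∀ j, 0 < w j := fun j => (half_pos (hv j)).trans_le (hw j).1
  rw [Mix.den, mul_sum]
  refine (abs_sum_le_sum_abs _ _).trans (sum_le_sum fun ω _ => ?_)
  rw [abs_mul, abs_mul, abs_of_nonneg (m.p0 ω), abs_of_pos (ker_pos h1 _), mul_left_comm _ (m.p ω)]
  refine mul_le_mul_of_nonneg_left ?_ (m.p0 ω)
  have := mul_le_mul (ker_le hv hw (y - m.x ω)) (hh_le m hv hw β y ω) (abs_nonneg _)
    (mul_pos (by positivity) (ker_pos (fun j => by linarith [hv j]) _)).le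
  linarith

theorem DD_eq (β y : ι → ℝ) (hp : 0 < m.den v y) :
    DD m β v y = (∑ j, β j / 2 * (m.dsc v j j y + m.sc v j y ^ 2)) * m.den v y := by
  have k : ∀ j, (m.dsc v j j y + m.sc v j y ^ 2) * m.den v y =
      ∑ ω, m.p ω * ker v (y - m.x ω) * ((y - m.x ω) j ^ 2 / v j ^ 2 - 1 / v j) := by
    intro j
    have e : m.dsc v j j y + m.sc v j y ^ 2 =
        m.po v (fun x => (x j - y j) / v j * ((x j - y j) / v j)) y - 1 / v j := by
      rw [Mix.dsc, ind_pos rfl]; ring
    rw [e, sub_mul, Mix.po, div_mul_cancel₀ _ hp.ne', Mix.den, mul_sum, ← sum_sub_distrib]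
    exact sum_congr rfl fun ω _ => by rw [Pi.sub_apply]; ring
  simp only [sum_mul, mul_assoc (β _ / 2), k, DD, hh, mul_sum]
  rw [sum_comm]
  exact sum_congr rfl fun j _ => sum_congr rfl fun ω _ => by ring

end DBx

open DBx in
theorem p_DB (hKER : S_KER) (hMIX : S_MIX) (hDER : S_DER) (hIBP : S_IBP) :
    S_DB := by
  intro ι _ m α β t h
  obtain ⟨v, hv⟩ : ∃ v : ι → ℝ, v = fun j => α j + β j * t := ⟨_, rfl⟩
  have hv0 : ∀ j, 0 < v j := by rw [hv]; exact h
  obtain ⟨dp, -, plog, psc, pdsc, -, hI⟩ := hMIX ι m v hv0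
  have hs : ∀ᶠ s in nhds t, ∀ j, v j / 2 ≤ α j + β j * s ∧ α j + β j * s ≤ 2 * v j := by
    rw [hv]; exact ev_pos h
  have hpos : ∀ s, (∀ j, v j / 2 ≤ α j + β j * s ∧ α j + β j * s ≤ 2 * v j) →
      ∀ j, 0 < α j + β j * s := fun s hs j => (half_pos (hv0 j)).trans_le (hs j).1
  have pG : ∀ j, PG fun y => β j / 2 * ((1 + log (m.den v y)) * (m.dsc v j j y + m.sc v j y ^ 2)) :=
    fun j => (((PG.const 1).add plog).mul ((pdsc j j).add ((psc j).pow 2))).cmul _
  have eF : ∀ y, (1 + log (m.den v y)) * DD m β v y =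
      ∑ j, β j / 2 * ((1 + log (m.den v y)) * (m.dsc v j j y + m.sc v j y ^ 2)) * m.den v y := by
    intro y
    rw [DD_eq m β y (dp y), sum_mul, mul_sum]
    exact sum_congr rfl fun j _ => by ring
  have key := (hasDerivAt_integral_of_dominated_loc_of_deriv_le (μ := volume) (x₀ := t)
    (F := fun s y => log (m.den (fun j => α j + β j * s) y) * m.den (fun j => α j + β j * s) y)
    (F' := fun s y => (1 + log (m.den (fun j => α j + β j * s) y)) * DD m β (fun j => α j + β j * s) y)
    (bound := fun y => (1 + H2 m v y) * (2 ^ Fintype.card ι * H1 m β v y) * m.den (fun j => 2 * v j) y)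
    hs (by
      filter_upwards [hs] with s hs
      obtain ⟨-, -, pl, -, -, -, hJ⟩ := hMIX ι m _ (hpos s hs)
      exact (hJ _ pl).1.aestronglyMeasurable)
    (by rw [← hv]; exact (hI _ plog).1)
    (by
      rw [← hv]
      simp only [eF]
      exact (integrable_finsetSum _ fun j _ => (hI _ (pG j)).1).aestronglyMeasurable)
    (ae_of_all _ fun y s hs => by
      rw [Real.norm_eq_abs, abs_mul, mul_assoc]
      have a := log_le m hv0 hs y
      refine mul_le_mul ((abs_add_le _ _).trans (by rw [abs_one]; linarith)) (DD_le m hv0 hs β y)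
        (abs_nonneg _) (by linarith [abs_nonneg (log (m.den (fun j => α j + β j * s) y))]))
    ((hMIX ι m (fun j => 2 * v j) fun j => by linarith [hv0 j]).2.2.2.2.2.2 _
      (((PG.const 1).add (PG_H2 m v)).mul ((PG_H1 m β v).cmul _))).1
    (ae_of_all _ fun y s hs => by
      have a := der_den m (hpos s hs) y
      have p := (hMIX ι m _ (hpos s hs)).1 y
      refine HasDerivAt.congr_deriv ((a.log p.ne').mul a) ?_
      rw [div_mul_cancel₀ _ p.ne', add_mul, one_mul])).2
  have ibp : ∀ j, ∫ y, β j / 2 * ((1 + log (m.den v y)) * (m.dsc v j j y + m.sc v j y ^ 2)) *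
      m.den v y = -(β j * m.Ex v fun y => m.sc v j y ^ 2) / 2 := by
    intro j
    have p1 : PG fun y => (1 + log (m.den v y)) * m.sc v j y := ((PG.const 1).add plog).mul (psc j)
    have p2 : PG fun y => (1 + log (m.den v y)) * m.dsc v j j y :=
      ((PG.const 1).add plog).mul (pdsc j j)
    have p3 : PG fun y => m.sc v j y ^ 2 := (psc j).pow 2
    have p4 : PG fun y => m.sc v j y * ((1 + log (m.den v y)) * m.sc v j y) := (psc j).mul p1
    have a := hIBP ι m v (Pi.single j 1) _ _ hv0 p1 (p3.add p2) fun y => by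
      obtain ⟨-, d1, d2⟩ := hDER ι m v y hv0
      have b := ((d1.const_add 1).mul (d2 j)).hasLineDerivAt (Pi.single j 1)
      refine HasDerivAt.congr_deriv b ?_
      simp [lin_apply, Pi.single_apply]
      ring
    simp only [Pi.single_apply, ite_mul, one_mul, zero_mul, sum_ite_eq', mem_univ, if_true,
      Mix.Ex, add_mul (m.sc v j _ ^ 2)] at a
    rw [integral_add (hI _ p3).1 (hI _ p2).1] at a
    have e : ∀ y, β j / 2 * ((1 + log (m.den v y)) * (m.dsc v j j y + m.sc v j y ^ 2)) * m.den v y =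
        β j / 2 * ((1 + log (m.den v y)) * m.dsc v j j y * m.den v y +
          m.sc v j y * ((1 + log (m.den v y)) * m.sc v j y) * m.den v y) := fun y => by ring
    simp only [e]
    rw [integral_const_mul, integral_add (hI _ p2).1 (hI _ p4).1, a, Mix.Ex]
    ring
  rw [← hv] at key ⊢
  simp only [eF] at key
  rw [integral_finsetSum _ fun j _ => (hI _ (pG j)).1] at key
  simp only [ibp] at key
  refine HasDerivAt.congr_deriv key.neg ?_
  rw [← sum_div, sum_neg_distrib]
  ring

end Pool.Agent.P.MP_6b977f_mp.RG
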