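import Pool.Agent.P.MP_6b977f_mp.RG.IfaceA

/-! Step DER. -/

namespace Pool.Agent.P.MP_6b977f_mp.RG

open Finset MeasureTheory Real
open scoped Classical

namespace DERx

variable {ι : Type} [Fintype ι] {f g : (ι → ℝ) → ℝ} {a b y : ι → ℝ}

theorem cg (h : HasFDerivAt f (lin a) y) (e : ∀ k, b k = a k) : HasFDerivAt f (lin b) y := by
  rw [funext e]; exact h

theorem of (L : (ι → ℝ) →L[ℝ] ℝ) (h : HasFDerivAt f L y) (e : ∀ u, L u = ∑ k, a k * u k) :
    HasFDerivAt f (lin a) y := by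
  have : lin a = L := ContinuousLinearMap.ext fun u => by rw [lin_apply, e]
  rw [this]; exact h

theorem mul (h : HasFDerivAt f (lin a) y) (h' : HasFDerivAt g (lin b) y) :
    HasFDerivAt (fun z => f z * g z) (lin fun k => f y * b k + g y * a k) y :=
  of _ (h.fun_mul h') fun u => by
    simp only [ContinuousLinearMap.add_apply, ContinuousLinearMap.smul_apply, lin_apply,
      smul_eq_mul, mul_sum, ← sum_add_distrib]
    exact sum_congr rfl fun k _ => by ring

theorem cmp {φ : ℝ → ℝ} {c : ℝ} (hφ : HasDerivAt φ c (f y)) (h : HasFDerivAt f (lin a) y) :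
    HasFDerivAt (fun z => φ (f z)) (lin fun k => c * a k) y :=
  of _ (hφ.comp_hasFDerivAt y h) fun u => by
    simp only [ContinuousLinearMap.smul_apply, lin_apply, smul_eq_mul, mul_sum, mul_assoc]

theorem sm {κ : Type} (s : Finset κ) {F : κ → (ι → ℝ) → ℝ} {A : κ → ι → ℝ}
    (h : ∀ i ∈ s, HasFDerivAt (F i) (lin (A i)) y) :
    HasFDerivAt (fun z => ∑ i ∈ s, F i z) (lin fun k => ∑ i ∈ s, A i k) y :=
  of _ (HasFDerivAt.fun_sum h) fun u => by
    simp only [ContinuousLinearMap.sum_apply, lin_apply, sum_mul]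
    exact sum_comm

theorem co (j : ι) (y : ι → ℝ) : HasFDerivAt (fun z : ι → ℝ => z j) (lin fun k => ind (j = k)) y :=
  of _ (hasFDerivAt_apply j y) fun u => by simp [ind]

theorem kr {v : ι → ℝ} (hv : ∀ j, 0 < v j) (x y : ι → ℝ) :
    HasFDerivAt (fun z => ker v (z - x)) (lin fun k => ker v (y - x) * ((x k - y k) / v k)) y := by
  have e : ∀ z : ι → ℝ, ker v (z - x) =
      exp (∑ j, -(z j - x j) ^ 2 / (2 * v j)) / ∏ j, √(2 * π * v j) := fun z => by
    simp only [ker, g1, prod_div_distrib, exp_sum, Pi.sub_apply]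
  simp only [e]
  have h1 : ∀ j ∈ (univ : Finset ι), HasFDerivAt (fun z : ι → ℝ => -(z j - x j) ^ 2 / (2 * v j))
      (lin fun k => (x j - y j) / v j * ind (j = k)) y := fun j _ => by
    refine cmp (φ := fun t => -(t - x j) ^ 2 / (2 * v j)) ?_ (co j y)
    have := ((((hasDerivAt_id (y j)).sub_const (x j)).fun_pow 2).fun_neg).div_const (2 * v j)
    refine this.congr_deriv ?_
    have := (hv j).ne'
    simp only [id]
    field_simp
    ring
  refine cg (cmp (φ := fun t => exp t / ∏ j, √(2 * π * v j))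
    ((hasDerivAt_exp _).div_const _) (sm univ h1)) fun k => ?_
  simp [ind]

end DERx

theorem p_DER (hMIX : S_MIX) :
    S_DER := by
  intro ι _ m v y hv
  have hp := ((hMIX ι m v hv).1 y).ne'
  have k1 : ∀ ω, HasFDerivAt (fun z => m.p ω * ker v (z - m.x ω))
      (lin fun k => m.p ω * (ker v (y - m.x ω) * ((m.x ω k - y k) / v k))) y := fun ω =>
    DERx.cmp (φ := fun t => m.p ω * t) (by simpa using (hasDerivAt_id _).const_mul (m.p ω))
      (DERx.kr hv _ y)
  have d1 : HasFDerivAt (m.den v) (lin fun j => m.den v y * m.sc v j y) y :=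
    DERx.cg (DERx.sm univ fun ω _ => k1 ω) fun k => by
      rw [Mix.sc, Mix.po, mul_div_cancel₀ _ hp]
      simp only [mul_assoc]
  refine ⟨d1, DERx.cg (DERx.cmp (hasDerivAt_log hp) d1) fun k => by field_simp, fun j => ?_⟩
  have hj := (hv j).ne'
  have k2 : ∀ ω, HasFDerivAt (fun z : ι → ℝ => (m.x ω j - z j) / v j)
      (lin fun k => -1 / v j * ind (j = k)) y := fun ω =>
    DERx.cmp (φ := fun t => (m.x ω j - t) / v j)
      (((hasDerivAt_id _).const_sub _).div_const _) (DERx.co j y)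
  have k3 := DERx.mul (DERx.sm univ fun ω _ => DERx.mul (k1 ω) (k2 ω))
    (DERx.cmp (hasDerivAt_inv hp) d1)
  have e : m.sc v j = fun z => (∑ ω, m.p ω * ker v (z - m.x ω) * ((m.x ω j - z j) / v j)) *
      (m.den v z)⁻¹ := funext fun z => by rw [Mix.sc, Mix.po, div_eq_mul_inv]
  rw [e]
  refine DERx.cg k3 fun k => ?_
  have e1 : ∑ ω, m.p ω * ker v (y - m.x ω) * ((m.x ω j - y j) / v j) =
      m.den v y * m.sc v j y := by rw [Mix.sc, Mix.po, mul_div_cancel₀ _ hp]
  have e2 : ∑ ω, (m.p ω * ker v (y - m.x ω) * (-1 / v j * ind (j = k)) +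
      (m.x ω j - y j) / v j * (m.p ω * (ker v (y - m.x ω) * ((m.x ω k - y k) / v k)))) =
      m.den v y * (-1 / v j * ind (j = k)) +
        m.den v y * m.po v (fun x => (x j - y j) / v j * ((x k - y k) / v k)) y := by
    rw [sum_add_distrib, ← sum_mul, Mix.po, mul_div_cancel₀ _ hp]
    congr 1
    exact sum_congr rfl fun ω _ => by ring
  rw [e1, e2, Mix.dsc]
  field_simp
  ring

end Pool.Agent.P.MP_6b977f_mp.RG
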