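import Pool.Agent.P.MP_6b977f_mp.RG.IfaceA

/-! Step GIB. -/

namespace Pool.Agent.P.MP_6b977f_mp.RG

open Finset MeasureTheory Real
open scoped Classical

theorem p_GIB (hMIX : S_MIX) :
    S_GIB := by
  intro ι _ m v q hv hq iq h1 pq
  obtain ⟨d0, -, pd, -, -, e1, hg⟩ := hMIX ι m v hv
  have i1 := (hg _ (PG.const 1)).1
  have := integral_mono ((hg _ pq).1.add i1) ((hg _ pd).1.add iq) fun y => by
    have := mul_le_mul_of_nonneg_right (log_le_sub_one_of_pos (div_pos (hq y) (d0 y))) (d0 y).le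
    rw [log_div (hq y).ne' (d0 y).ne', sub_mul (q y / _), div_mul_cancel₀ _ (d0 y).ne'] at this
    simp only [Pi.add_apply]
    linarith
  simp only [Pi.add_apply] at this
  rw [integral_add (hg _ pq).1 i1, integral_add (hg _ pd).1 iq] at this
  simp only [Mix.ent, Mix.Ex] at e1 ⊢
  linarith

end Pool.Agent.P.MP_6b977f_mp.RG
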