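import Pool.Agent.P.MP_6b977f_mp.RG.IfaceA

/-! Step HLO. -/

namespace Pool.Agent.P.MP_6b977f_mp.RG

open Finset MeasureTheory Real
open scoped Classical

namespace HLOx

variable {ι : Type} [Fintype ι]

/-- the logarithm of the kernel -/
noncomputable def lk (v x y : ι → ℝ) : ℝ :=
  ∑ j, (-(1 / (2 * v j)) * (y j - x j) ^ 2 + -(log (2 * π * v j) / 2))

theorem log_ker {v : ι → ℝ} (hv : ∀ j, 0 < v j) (x y : ι → ℝ) :
    log (ker v (y - x)) = lk v x y := by
  rw [ker, log_prod fun j _ => (g1_pos (hv j) _).ne']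
  refine sum_congr rfl fun j _ => ?_
  have h : 0 < 2 * π * v j := by have := hv j; positivity
  rw [g1, log_div (exp_pos _).ne' (sqrt_pos.2 h).ne', log_exp, log_sqrt h.le, Pi.sub_apply]
  ring

theorem pg_sq (x : ι → ℝ) (j : ι) : PG fun y : ι → ℝ => (y j - x j) ^ 2 :=
  ((PG.coord j).sub (PG.const _)).pow 2

theorem pg_lk (v x : ι → ℝ) : PG (lk v x) :=
  PG.sum _ fun j _ => ((pg_sq x j).cmul _).add (PG.const _)

theorem int_lk (hKER : S_KER) {v : ι → ℝ} (hv : ∀ j, 0 < v j) (x : ι → ℝ) :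
    ∫ y, lk v x y * ker v (y - x) = -∑ j, (log (2 * π * v j) + 1) / 2 := by
  obtain ⟨h1, h2, -, h4⟩ := hKER ι v x hv
  simp only [lk, sum_mul]
  rw [integral_finsetSum _ fun j _ => h1 _ (((pg_sq x j).cmul _).add (PG.const _)),
    ← sum_neg_distrib]
  refine sum_congr rfl fun j _ => ?_
  simp only [add_mul]
  rw [integral_add (h1 _ ((pg_sq x j).cmul _)) (h1 _ (PG.const _))]
  simp only [mul_assoc (-(1 / (2 * v j)))]
  rw [integral_const_mul, integral_const_mul, h2, h4]
  have := (hv j).ne'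
  field_simp
  ring

end HLOx

open HLOx in
theorem p_HLO (hKER : S_KER) (hMIX : S_MIX) :
    S_HLO := by
  intro ι _ m v hv
  obtain ⟨-, -, h3, -, -, -, h7⟩ := hMIX ι m v hv
  have hi : ∀ ω, Integrable fun y => m.p ω * (lk v (m.x ω) y * ker v (y - m.x ω)) := fun ω =>
    ((hKER ι v (m.x ω) hv).1 _ (pg_lk v _)).const_mul _
  have key : m.Ex v (fun y => log (m.den v y)) ≤
      ∫ y, ∑ ω, m.p ω * (lk v (m.x ω) y * ker v (y - m.x ω)) := by
    refine integral_mono (h7 _ h3).1 (integrable_finsetSum _ fun ω _ => hi ω) fun y => ?_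
    have := convexOn_mul_log.map_sum_le (t := univ) (w := m.p) (p := fun ω => ker v (y - m.x ω))
      (fun ω _ => m.p0 ω) m.p1 fun ω _ => (ker_pos hv _).le
    simp only [smul_eq_mul, log_ker hv] at this
    simpa only [Mix.den, mul_comm] using this
  rw [integral_finsetSum _ fun ω _ => hi ω] at key
  simp only [integral_const_mul, int_lk hKER hv, ← sum_mul, m.p1, one_mul] at key
  rw [Mix.ent]
  linarith

end Pool.Agent.P.MP_6b977f_mp.RG
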