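import Pool.Agent.P.MP_6b977f_mp.RG.IfaceA

/-! Step IBP. -/

namespace Pool.Agent.P.MP_6b977f_mp.RG

open Finset MeasureTheory Real
open scoped Classical

theorem p_IBP (hMIX : S_MIX) (hDER : S_DER) :
    S_IBP := by
  intro ι _ m v u g g' hv hg hg' hd
  obtain ⟨-, -, -, h4, -, -, h7⟩ := hMIX ι m v hv
  have hs : PG fun y => (∑ j, u j * m.sc v j y) * g y :=
    (PG.sum _ fun j _ => (h4 j).cmul (u j)).mul hg
  have hden : ∀ y, HasLineDerivAt ℝ (m.den v) ((∑ j, u j * m.sc v j y) * m.den v y) y u := by
    intro y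
    have h := (hDER ι m v y hv).1.hasLineDerivAt u
    rwa [lin_apply, show ∑ j, m.den v y * m.sc v j y * u j = (∑ j, u j * m.sc v j y) * m.den v y by
      rw [sum_mul]; exact sum_congr rfl fun j _ => by ring] at h
  have key := integral_bilinear_hasLineDerivAt_right_eq_neg_left_of_integrable
    (μ := (volume : Measure (ι → ℝ))) (B := ContinuousLinearMap.mul ℝ ℝ) (f := g) (f' := g')
    (g := m.den v) (g' := fun y => (∑ j, u j * m.sc v j y) * m.den v y) (v := u)
    (by simpa using (h7 g' hg').1)
    (by
      refine ((h7 _ hs).1).congr (Filter.Eventually.of_forall fun y => ?_)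
      simp only [ContinuousLinearMap.mul_apply']
      ring)
    (by simpa using (h7 g hg).1) (fun y _ => hd y) (fun y _ => hden y)
  simp only [ContinuousLinearMap.mul_apply'] at key
  unfold Mix.Ex
  rw [← key]
  exact integral_congr_ae (Filter.Eventually.of_forall fun y => by ring)

end Pool.Agent.P.MP_6b977f_mp.RG
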