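import Pool.Agent.P.MP_6b977f_mp.RG.IfaceA

/-! Step KER. -/

namespace Pool.Agent.P.MP_6b977f_mp.RG

open Finset MeasureTheory Real
open scoped Classical

namespace KERx

open ProbabilityTheory

lemma int1 {v : ℝ} (hv : 0 < v) (f : ℝ → ℝ) :
    ∫ u, f u * g1 v u = ∫ u, f u ∂gaussianReal 0 v.toNNReal := by
  rw [integral_gaussianReal_eq_integral_smul (toNNReal_pos.2 hv).ne']
  refine integral_congr_ae (.of_forall fun u => ?_)
  simp only [g1, gaussianPDFReal, sub_zero, smul_eq_mul, coe_toNNReal v hv.le]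
  ring

lemma m0 {v : ℝ} (hv : 0 < v) : ∫ u, 1 * g1 v u = 1 := by
  rw [int1 hv fun _ => 1]
  simp

lemma m1 {v : ℝ} (hv : 0 < v) : ∫ u, u * g1 v u = 0 := by
  rw [int1 hv fun u => u, integral_id_gaussianReal]

lemma m2 {v : ℝ} (hv : 0 < v) : ∫ u, u ^ 2 * g1 v u = v := by
  have h := variance_fun_id_gaussianReal (μ := 0) (v := v.toNNReal)
  rw [variance_eq_integral measurable_id'.aemeasurable] at h
  rw [int1 hv fun u => u ^ 2]
  simpa [hv.le] using h

lemma ig {v : ℝ} (hv : 0 < v) (k : ℝ) : Integrable fun u => exp (k * |u|) * g1 v u := by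
  have h := (integrable_exp_neg_mul_sq (b := 1 / (4 * v)) (by positivity)).const_mul
    (exp (k ^ 2 * v) / √(2 * π * v))
  refine h.mono' (Measurable.aestronglyMeasurable (by unfold g1; fun_prop)) (.of_forall fun u => ?_)
  rw [norm_of_nonneg (mul_pos (exp_pos _) (g1_pos hv u)).le, g1, ← mul_div_assoc, ← exp_add,
    div_mul_eq_mul_div, ← exp_add]
  refine div_le_div_of_nonneg_right (exp_le_exp.2 ?_) (sqrt_nonneg _)
  have h1 : k ^ 2 * v + -(1 / (4 * v)) * u ^ 2 - (k * |u| + -u ^ 2 / (2 * v)) =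
      (2 * k * v - |u|) ^ 2 / (4 * v) := by
    rw [← sq_abs u]
    field_simp
    ring
  have h2 : 0 ≤ (2 * k * v - |u|) ^ 2 / (4 * v) := by positivity
  linarith

variable {ι : Type} [Fintype ι] {v : ι → ℝ}

lemma pr (hv : ∀ j, 0 < v j) (f : ℝ → ℝ) (j : ι) (x : ι → ℝ) :
    ∫ y, f (y j - x j) * ker v (y - x) = ∫ u, f u * g1 (v j) u := by
  have h := integral_fintype_prod_volume_eq_prod
    fun (i : ι) (u : ℝ) => (if i = j then f u else 1) * g1 (v i) u
  rw [prod_eq_single j (fun i _ hi => by simpa [hi] using m0 (hv i)) (by simp)] at h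
  rw [← integral_sub_right_eq_self _ x] at h
  simpa only [prod_mul_distrib, ker, prod_ite_eq', mem_univ, if_true, Pi.sub_apply] using h

lemma pw (k : ℕ) (u : ι → ℝ) : (1 + ‖u‖) ^ k ≤ ∏ j, exp (k * |u j|) := by
  have h : ‖u‖ ≤ ∑ j, |u j| := (pi_norm_le_iff_of_nonneg (by positivity)).2 fun j =>
    single_le_sum (f := fun j => |u j|) (fun _ _ => abs_nonneg _) (mem_univ j)
  rw [← exp_sum, ← mul_sum, exp_nat_mul]
  exact pow_le_pow_left₀ (by positivity) (by linarith [add_one_le_exp (∑ j, |u j|)]) k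

end KERx

theorem p_KER :
    S_KER := by
  intro ι _ v x hv
  refine ⟨fun g ⟨hg, C, k, hC⟩ => ?_, ?_, fun j => ?_, fun j => ?_⟩
  · have h := ((Integrable.fintype_prod (μ := fun _ : ι => (volume : Measure ℝ))
      fun j => KERx.ig (hv j) k).comp_sub_right x).const_mul (|C| * (1 + ‖x‖) ^ k)
    refine h.mono' (Measurable.aestronglyMeasurable (by unfold ker g1; fun_prop))
      (.of_forall fun y => ?_)
    rw [prod_mul_distrib, ← mul_assoc, norm_mul, norm_of_nonneg (ker_pos hv _).le]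
    refine mul_le_mul_of_nonneg_right ((hC y).trans ?_) (ker_pos hv _).le
    have h1 : 1 + ‖y‖ ≤ (1 + ‖x‖) * (1 + ‖y - x‖) := by
      nlinarith [norm_le_norm_add_norm_sub' y x, mul_nonneg (norm_nonneg x) (norm_nonneg (y - x))]
    rw [mul_assoc]
    refine mul_le_mul (le_abs_self C) ((pow_le_pow_left₀ (by positivity) h1 k).trans ?_)
      (by positivity) (abs_nonneg C)
    rw [mul_pow]
    exact mul_le_mul_of_nonneg_left (KERx.pw k _) (by positivity)
  · rw [integral_sub_right_eq_self (ker v) x]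
    exact (integral_fintype_prod_volume_eq_prod fun j u => g1 (v j) u).trans
      (prod_eq_one fun j _ => by simpa using KERx.m0 (hv j))
  · exact (KERx.pr hv (fun u => u) j x).trans (KERx.m1 (hv j))
  · exact (KERx.pr hv (fun u => u ^ 2) j x).trans (KERx.m2 (hv j))

end Pool.Agent.P.MP_6b977f_mp.RG
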