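import Pool.Agent.P.MP_6b977f_mp.RG.IfaceA

/-! Step KT. -/

namespace Pool.Agent.P.MP_6b977f_mp.RG

open Finset MeasureTheory Real
open scoped Classical

namespace KTx

theorem one {v : ℝ} (h0 : 0 < v) (h4 : v ≤ 4) (u : ℝ) :
    (1 + |u|) ^ 4 * g1 v u ≤ 2 * exp 64 * g1 (2 * v) u := by
  have h1 : (1 + |u|) ^ 4 ≤ exp (4 * |u|) := by
    rw [show (4 : ℝ) * |u| = (4 : ℕ) * |u| by norm_num, exp_nat_mul]
    exact pow_le_pow_left₀ (by positivity) (by linarith [add_one_le_exp |u|]) 4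
  have h2 : u ^ 2 / 16 ≤ u ^ 2 / (4 * v) := by gcongr; linarith
  have h3 : exp (4 * |u|) * exp (-u ^ 2 / (2 * v)) ≤ exp 64 * exp (-u ^ 2 / (2 * (2 * v))) := by
    rw [← exp_add, ← exp_add, exp_le_exp]
    have : -u ^ 2 / (2 * v) = -u ^ 2 / (2 * (2 * v)) - u ^ 2 / (4 * v) := by field_simp; ring
    nlinarith [sq_nonneg (|u| / 4 - 8), sq_abs u]
  have h5 : √(2 * π * (2 * v)) ≤ 2 * √(2 * π * v) := by
    rw [sqrt_le_left (by positivity), mul_pow, sq_sqrt (by positivity)]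
    nlinarith [mul_pos pi_pos h0]
  have h6 : 0 < √(2 * π * (2 * v)) := by positivity
  have h7 : 0 < √(2 * π * v) := by positivity
  unfold g1
  rw [← mul_div_assoc, ← mul_div_assoc, div_le_div_iff₀ h7 h6]
  calc _ ≤ (exp 64 * exp (-u ^ 2 / (2 * (2 * v)))) * (2 * √(2 * π * v)) :=
        mul_le_mul ((mul_le_mul_of_nonneg_right h1 (exp_pos _).le).trans h3) h5 h6.le
          (by positivity)
    _ = _ := by ring

theorem nrm {ι : Type} [Fintype ι] (u : ι → ℝ) : 1 + ‖u‖ ≤ ∏ j, (1 + |u j|) := by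
  have h : ∀ s : Finset ι, 1 ≤ ∏ j ∈ s, (1 + |u j|) := fun s =>
    one_le_prod fun j _ => le_add_of_nonneg_right (abs_nonneg _)
  rw [← le_sub_iff_add_le', pi_norm_le_iff_of_nonneg (sub_nonneg.2 (h _))]
  intro j
  rw [← mul_prod_erase _ _ (mem_univ j), norm_eq_abs]
  nlinarith [h (univ.erase j), abs_nonneg (u j)]

theorem four {ι : Type} [Fintype ι] {v : ι → ℝ} (hv : ∀ j, 0 < v j ∧ v j ≤ 4) (u : ι → ℝ) :
    (1 + ‖u‖) ^ 4 * ker v u ≤ (2 * exp 64) ^ Fintype.card ι * ker (fun j => 2 * v j) u := by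
  calc _ ≤ (∏ j, (1 + |u j|)) ^ 4 * ker v u :=
        mul_le_mul_of_nonneg_right (pow_le_pow_left₀ (by positivity) (nrm u) 4)
          (ker_pos (fun j => (hv j).1) u).le
    _ = ∏ j, (1 + |u j|) ^ 4 * g1 (v j) (u j) := by rw [ker, prod_mul_distrib, prod_pow]
    _ ≤ ∏ j, 2 * exp 64 * g1 (2 * v j) (u j) :=
        prod_le_prod (fun j _ => mul_nonneg (by positivity) (g1_pos (hv j).1 _).le)
          fun j _ => one (hv j).1 (hv j).2 _
    _ = _ := by rw [prod_mul_distrib, prod_const, card_univ, ker]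

end KTx

open KTx in
theorem p_KT (hKER : S_KER) :
    S_KT := by
  intro ι _
  refine ⟨(2 * exp 64) ^ Fintype.card ι,
    one_le_pow₀ (by linarith [one_le_exp (show (0 : ℝ) ≤ 64 by norm_num)]), fun v x L hv hL => ?_⟩
  obtain ⟨hi, h1, -⟩ := hKER ι (fun j => 2 * v j) x fun j => mul_pos two_pos (hv j).1
  have hk : ∀ u, 0 ≤ ker v u := fun u => (ker_pos (fun j => (hv j).1) u).le
  have key : ∀ (c : ℝ) (g : (ι → ℝ) → ℝ), 0 ≤ c → (∀ u, 0 ≤ g u) →
      (∀ u, g u ≤ c * (1 + ‖u‖) ^ 4) →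
      ∫ y, g (y - x) * ker v (y - x) ≤ c * (2 * exp 64) ^ Fintype.card ι := by
    intro c g hc h0 hg
    refine (integral_mono_of_nonneg (.of_forall fun y => mul_nonneg (h0 _) (hk _))
      (hi _ (PG.const (c * (2 * exp 64) ^ Fintype.card ι))) (.of_forall fun y => ?_)).trans_eq ?_
    · calc _ ≤ c * (1 + ‖y - x‖) ^ 4 * ker v (y - x) := mul_le_mul_of_nonneg_right (hg _) (hk _)
        _ ≤ _ := by
          rw [mul_assoc]
          exact (mul_le_mul_of_nonneg_left (four hv _) hc).trans_eq (mul_assoc _ _ _).symm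
    · rw [integral_const_mul, h1, mul_one]
  constructor
  · refine (key (L ^ 2)⁻¹ (fun u => (1 + ‖u‖) ^ 2 * ind (L < ‖u‖)) (by positivity)
      (fun u => mul_nonneg (by positivity) (ind_nonneg _)) fun u => ?_).trans_eq
      (by rw [inv_mul_eq_div])
    by_cases h : L < ‖u‖
    · rw [ind_pos h, mul_one, le_inv_mul_iff₀ (by positivity),
        show (1 + ‖u‖) ^ 4 = (1 + ‖u‖) ^ 2 * (1 + ‖u‖) ^ 2 by ring]
      gcongr
      linarith
    · rw [ind_neg h, mul_zero]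
      positivity
  · refine (key 1 (fun u => (1 + ‖u‖) ^ 2) zero_le_one (fun u => by positivity)
      fun u => ?_).trans_eq (one_mul _)
    rw [one_mul]
    exact pow_le_pow_right₀ (le_add_of_nonneg_right (norm_nonneg _)) (by norm_num)

end Pool.Agent.P.MP_6b977f_mp.RG
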