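import Pool.Agent.P.MP_6b977f_mp.RG.IfaceA

/-! Step MIX. -/

namespace Pool.Agent.P.MP_6b977f_mp.RG

open Finset MeasureTheory Real
open scoped Classical

namespace MIXx
variable {ι : Type} [Fintype ι] (m : Mix ι) {v : ι → ℝ}

theorem ker_cont (v x : ι → ℝ) : Continuous fun y => ker v (y - x) := by
  unfold ker g1
  fun_prop

theorem den_cont (v : ι → ℝ) : Continuous (m.den v) :=
  continuous_finsetSum _ fun _ _ => (ker_cont v _).const_mul _

omit [Fintype ι] in
theorem ex_pos : ∃ ω, 0 < m.p ω := by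
  by_contra h
  push Not at h
  have h1 := m.p1
  rw [sum_eq_zero fun ω _ => le_antisymm (h ω) (m.p0 ω)] at h1
  exact zero_ne_one h1

theorem le_den (hv : ∀ j, 0 < v j) (y : ι → ℝ) (ω : m.Ω) :
    m.p ω * ker v (y - m.x ω) ≤ m.den v y :=
  single_le_sum (f := fun ω => m.p ω * ker v (y - m.x ω))
    (fun ω _ => mul_nonneg (m.p0 ω) (ker_pos hv _).le) (mem_univ ω)

theorem den_pos (hv : ∀ j, 0 < v j) (y : ι → ℝ) : 0 < m.den v y :=
  let ⟨ω, h⟩ := ex_pos m
  (mul_pos h (ker_pos hv _)).trans_le (le_den m hv y ω)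

theorem den_le (hv : ∀ j, 0 < v j) (y : ι → ℝ) : m.den v y ≤ ∏ j, 1 / √(2 * π * v j) := by
  refine le_trans (sum_le_sum (g := fun ω => m.p ω * ∏ j, 1 / √(2 * π * v j)) fun ω _ =>
    mul_le_mul_of_nonneg_left (prod_le_prod (fun j _ => (g1_pos (hv j) _).le) fun j _ => ?_)
      (m.p0 ω)) (by rw [← sum_mul, m.p1, one_mul])
  refine div_le_div_of_nonneg_right (exp_le_one_iff.2 ?_) (sqrt_nonneg _)
  have := hv j
  exact div_nonpos_of_nonpos_of_nonneg (neg_nonpos.2 (sq_nonneg _)) (by positivity)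

theorem pg_log (hv : ∀ j, 0 < v j) : PG fun y => log (m.den v y) := by
  obtain ⟨ω, h⟩ := ex_pos m
  have h1 : PG fun y : ι → ℝ => log (m.p ω) +
      ∑ j, (-(y j - m.x ω j) ^ 2 / (2 * v j) - log √(2 * π * v j)) :=
    (PG.const _).add (PG.sum _ fun j _ =>
      ((((PG.coord j).sub (PG.const _)).pow 2).neg.div _).sub (PG.const _))
  refine ((PG.const |∏ j, 1 / √(2 * π * v j)|).add h1.abs).of_le
    (den_cont m v).measurable.log fun y => le_trans ?_ (le_abs_self _)
  have h2 : log (m.p ω) + ∑ j, (-(y j - m.x ω j) ^ 2 / (2 * v j) - log √(2 * π * v j)) =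
      log (m.p ω * ker v (y - m.x ω)) := by
    rw [log_mul h.ne' (ker_pos hv _).ne', ker, log_prod fun j _ => (g1_pos (hv j) _).ne']
    refine congrArg _ (sum_congr rfl fun j _ => ?_)
    have := hv j
    rw [g1, log_div (exp_pos _).ne' (by positivity), log_exp, Pi.sub_apply]
  rw [h2]
  have h3 := log_le_log (mul_pos h (ker_pos hv _)) (le_den m hv y ω)
  have h4 := log_le_sub_one_of_pos (den_pos m hv y)
  have h5 := den_le m hv y
  have h6 := le_abs_self (∏ j, 1 / √(2 * π * v j))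
  have h7 := abs_nonneg (∏ j, 1 / √(2 * π * v j))
  have h8 := neg_abs_le (log (m.p ω * ker v (y - m.x ω)))
  have h9 := abs_nonneg (log (m.p ω * ker v (y - m.x ω)))
  exact abs_le.2 ⟨by linarith, by linarith⟩

theorem pg_po (hv : ∀ j, 0 < v j) {G : (ι → ℝ) → (ι → ℝ) → ℝ} (hG : ∀ x, PG fun y => G y x) :
    PG fun y => m.po v (G y) y := by
  have e : (fun y => m.po v (G y) y) =
      fun y => ∑ ω, m.p ω * ker v (y - m.x ω) / m.den v y * G y (m.x ω) := by
    funext y
    rw [Mix.po, sum_div]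
    exact sum_congr rfl fun ω _ => by ring
  rw [e]
  refine PG.sum _ fun ω _ => (PG.bdd (((ker_cont v _).const_mul _).measurable.div
    (den_cont m v).measurable) 1 fun y => ?_).mul (hG _)
  change |m.p ω * ker v (y - m.x ω) / m.den v y| ≤ 1
  rw [abs_of_nonneg (div_nonneg (mul_nonneg (m.p0 ω) (ker_pos hv _).le) (den_pos m hv y).le)]
  exact (div_le_one (den_pos m hv y)).2 (le_den m hv y ω)

theorem pg_lin (v x : ι → ℝ) (j : ι) : PG fun y : ι → ℝ => (x j - y j) / v j :=
  ((PG.const _).sub (PG.coord j)).div _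

end MIXx

theorem p_MIX (hKER : S_KER) :
    S_MIX := by
  intro ι _ m v hv
  have hs : ∀ j, PG (m.sc v j) := fun j =>
    MIXx.pg_po m hv (G := fun y x => (x j - y j) / v j) fun x => MIXx.pg_lin v x j
  have hi : ∀ (g : (ι → ℝ) → ℝ) (ω : m.Ω), PG g →
      Integrable fun y => m.p ω * (g y * ker v (y - m.x ω)) := fun g ω hg =>
    ((hKER ι v (m.x ω) hv).1 g hg).const_mul _
  have e : ∀ g : (ι → ℝ) → ℝ, (fun y => g y * m.den v y) =
      fun y => ∑ ω, m.p ω * (g y * ker v (y - m.x ω)) := fun g => by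
    funext y
    rw [Mix.den, mul_sum]
    exact sum_congr rfl fun ω _ => by ring
  have hE : ∀ g, PG g → m.Ex v g = ∑ ω, m.p ω * ∫ y, g y * ker v (y - m.x ω) := fun g hg => by
    rw [Mix.Ex, e, integral_finsetSum _ fun ω _ => hi g ω hg]
    simp only [integral_const_mul]
  refine ⟨MIXx.den_pos m hv, MIXx.den_cont m v, MIXx.pg_log m hv, hs, fun j k => ?_, ?_,
    fun g hg => ⟨?_, hE g hg, fun j => ?_⟩⟩
  · exact ((MIXx.pg_po m hv (G := fun y x => (x j - y j) / v j * ((x k - y k) / v k)) fun x =>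
      (MIXx.pg_lin v x j).mul (MIXx.pg_lin v x k)).sub ((hs j).mul (hs k))).sub (PG.const _)
  · rw [hE _ (PG.const 1)]
    simp only [one_mul, (hKER ι v _ hv).2.1, mul_one, m.p1]
  · rw [e]; exact integrable_finsetSum _ fun ω _ => hi g ω hg
  · have e2 : (fun y => m.sc v j y * g y * m.den v y) =
        fun y => ∑ ω, m.p ω * ((m.x ω j - y j) / v j * g y * ker v (y - m.x ω)) := by
      funext y
      rw [mul_right_comm, Mix.sc, Mix.po, div_mul_cancel₀ _ (MIXx.den_pos m hv y).ne', sum_mul]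
      exact sum_congr rfl fun ω _ => by ring
    rw [Mix.Ex, e2, integral_finsetSum _ fun ω _ => hi _ ω ((MIXx.pg_lin v (m.x ω) j).mul hg)]
    simp only [integral_const_mul]

end Pool.Agent.P.MP_6b977f_mp.RG
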