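import Pool.Agent.P.MP_6b977f_mp.RG.IfaceB

/-! Step PAIR. -/

namespace Pool.Agent.P.MP_6b977f_mp.RG

open Finset MeasureTheory Real
open scoped Classical

namespace PAIRx

theorem sw {H : Type} [Fintype H] [DecidableEq H] (T : H → Finset H) (hT : ∀ h, #(T h) ≤ 1) (L : ℕ)
    (A : Finset H) :
    2 * #A + L ≤ Fintype.card H →
    #((Inv H).filter fun M => ∀ h ∈ A, M h ∈ T h ∧ M h ∉ A) * L ^ #A ≤ #(Inv H) := by
  induction A using Finset.induction_on with
  | empty => simp
  | insert a A ha ih =>
    rw [card_insert_of_notMem ha]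
    intro hL
    have key := card_mul_le_card_mul
      (s := (Inv H).filter fun M => ∀ h ∈ insert a A, M h ∈ T h ∧ M h ∉ insert a A)
      (t := (Inv H).filter fun M => ∀ h ∈ A, M h ∈ T h ∧ M h ∉ A) (m := L) (n := #(T a))
      (fun M M' => M' = Equiv.swap (M a) (M' a) * M * Equiv.swap (M a) (M' a))
      (fun M hM => ?_) (fun M' _ => ?_)
    · calc _ = _ * L * L ^ #A := by ring
        _ ≤ _ * 1 * L ^ #A := Nat.mul_le_mul_right _ (key.trans (Nat.mul_le_mul_left _ (hT a)))
        _ ≤ _ := by rw [mul_one]; exact ih (by omega)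
    · simp only [mem_Inv, mem_filter, mem_insert, not_or] at hM
      have a1 : L ≤ #(insert a A ∪ A.image M)ᶜ := by
        have := card_union_le (insert a A) (A.image M)
        have := card_image_le (s := A) (f := M)
        rw [card_compl, card_insert_of_notMem ha] at *
        omega
      have a2 : ∀ b ∈ (insert a A ∪ A.image M)ᶜ,
          (Equiv.swap (M a) b * M * Equiv.swap (M a) b) a = b := fun b hb => by
        simp only [mem_compl, mem_union, mem_insert, not_or] at hb
        simp [Equiv.swap_apply_of_ne_of_ne (hM.1 a).2.symm (Ne.symm hb.1.1)]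
      refine a1.trans (card_le_card_of_injOn
        (fun b => Equiv.swap (M a) b * M * Equiv.swap (M a) b) (fun b hb => ?_)
        fun b hb b' hb' e => by rw [← a2 b hb, ← a2 b' hb']; exact congrArg (· a) e)
      simp only [coe_bipartiteAbove, Set.mem_ofPred_eq, mem_filter, mem_Inv, a2 b hb, and_true]
      simp only [mem_coe, mem_compl, mem_union, mem_insert, not_or, mem_image, not_exists,
        not_and] at hb
      refine ⟨fun h => ⟨by simp [(hM.1 _).1], fun e => (hM.1 (Equiv.swap (M a) b h)).2 ?_⟩,
        fun h hh => ?_⟩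
      · simpa [Equiv.swap_apply_eq_iff] using e
      · have u := hM.2 h (Or.inr hh)
        have v : h ≠ a := fun e => ha (e ▸ hh)
        simp only [Equiv.Perm.mul_apply]
        rw [Equiv.swap_apply_of_ne_of_ne (x := h) (a := M a) (b := b)
          (fun e => (hM.2 a (Or.inl rfl)).2.2 (e ▸ hh)) fun e => hb.1.2 (e ▸ hh),
          Equiv.swap_apply_of_ne_of_ne (M.injective.ne v) (hb.2 h hh)]
        exact ⟨u.1, u.2.2⟩
    · refine card_le_card_of_injOn (fun M => M a) (fun M hM => ?_) fun M hM N hN e => ?_
      · exact ((mem_filter.1 ((mem_bipartiteBelow _).1 hM).1).2 a (mem_insert_self _ _)).1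
      · have u := ((mem_bipartiteBelow _).1 hM).2
        have v := ((mem_bipartiteBelow _).1 hN).2
        simp only at e
        rw [← e] at v
        exact mul_left_cancel (mul_right_cancel (u.symm.trans v))

end PAIRx

theorem p_PAIR :
    S_PAIR := by
  intro H J _ _ f g hfg hJ
  have fi : Function.Injective f := fun a b e =>
    Sum.inl_injective (hfg (show Sum.elim f g (.inl a) = Sum.elim f g (.inl b) from e))
  have hc : #(univ.image f) = Fintype.card J := by rw [card_image_of_injective _ fi, card_univ]
  have h := PAIRx.sw (fun h => (univ.filter fun j => f j = h).image g)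
    (fun h => card_image_le.trans (card_le_one.2 fun a ha b hb =>
      fi ((mem_filter.1 ha).2.trans (mem_filter.1 hb).2.symm)))
    (Fintype.card H - 2 * Fintype.card J) (univ.image f) (by omega)
  rw [hc] at h
  have h1 := (Nat.mul_le_mul_right _ (card_le_card (s := (Inv H).filter fun M => ∀ j, M (f j) = g j)
    fun M hM => mem_filter.2 ⟨(mem_filter.1 hM).1, fun h hh => by
      obtain ⟨j, -, rfl⟩ := mem_image.1 hh
      rw [(mem_filter.1 hM).2 j]
      refine ⟨mem_image.2 ⟨j, by simp, rfl⟩, fun e => ?_⟩
      obtain ⟨k, -, e⟩ := mem_image.1 e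
      exact Sum.inl_ne_inr (hfg (show Sum.elim f g (.inl k) = Sum.elim f g (.inr j) from e))⟩)).trans h
  rcases (Fintype.card J).eq_zero_or_pos with z | z
  · rw [z] at h1 ⊢
    simpa using h1
  have h2 := (Nat.cast_le (α := ℝ)).2 h1
  have h3 : (0 : ℝ) < Fintype.card H := by exact_mod_cast (by omega : 0 < Fintype.card H)
  have h4 : (Fintype.card H : ℝ) ≤ 4 * (Fintype.card H - 2 * Fintype.card J : ℕ) := by
    exact_mod_cast (by omega)
  rw [Nat.cast_mul, Nat.cast_pow] at h2
  have h5 := (mul_le_mul_of_nonneg_left (pow_le_pow_left₀ (by positivity)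
    ((div_le_iff₀' four_pos).2 h4) _) (Nat.cast_nonneg _)).trans h2
  rwa [← le_div_iff₀ (by positivity), div_eq_inv_mul, ← inv_pow, inv_div] at h5

end Pool.Agent.P.MP_6b977f_mp.RG
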