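import Mathlib

/-! From small mean square errors to sup norms, and the approximate Cauchy equation. -/

set_option autoImplicit false
set_option linter.unusedSectionVars false

namespace Pool.Agent.P.MP_6b977f_mp.RG.Sb

open Finset Real MeasureTheory

theorem sup_of_L2 {J : Type*} [Fintype J] (h F : (J → ℝ) → ℝ) {T L m e δ : ℝ} (hδ : 0 < δ)
    (hδL : δ ≤ L) (hm : 0 ≤ m)
    (hlip : ∀ y y', ‖y‖ ≤ T + 1 → ‖y'‖ ≤ T + 1 → |h y' - h y| ≤ L * ‖y' - y‖)
    (hF : ∀ y, ‖y‖ ≤ T + 1 → m ≤ F y)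
    (hint : IntegrableOn (fun y => F y * h y ^ 2) (Metric.closedBall 0 (T + 1)))
    (he : ∫ y in Metric.closedBall 0 (T + 1), F y * h y ^ 2 ≤ e)
    (hsmall : e < m * δ ^ 2 * (2 * (δ / L)) ^ Fintype.card J) :
    ∀ y, ‖y‖ ≤ T → |h y| ≤ 2 * δ := by
  intro y0 hy0
  by_contra hc
  push Not at hc
  have hL : 0 < L := hδ.trans_le hδL
  have hr : 0 ≤ δ / L := by positivity
  have hr1 : δ / L ≤ 1 := (div_le_one hL).2 hδL
  have hsub : Metric.closedBall y0 (δ / L) ⊆ Metric.closedBall 0 (T + 1) := by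
    intro y hy
    rw [mem_closedBall_iff_norm] at hy
    rw [mem_closedBall_zero_iff]
    have := norm_add_le (y - y0) y0
    rw [sub_add_cancel] at this
    linarith
  have hlow : ∀ y ∈ Metric.closedBall y0 (δ / L), m * δ ^ 2 ≤ F y * h y ^ 2 := by
    intro y hy
    have hy1 := mem_closedBall_zero_iff.1 (hsub hy)
    rw [mem_closedBall_iff_norm] at hy
    have h1 := hlip y0 y (by linarith) hy1
    have h2 : L * ‖y - y0‖ ≤ δ := by
      have := mul_le_mul_of_nonneg_left hy hL.le
      rwa [mul_div_cancel₀ _ hL.ne'] at this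
    have h3 : δ ≤ |h y| := by
      have := abs_sub_abs_le_abs_sub (h y0) (h y)
      rw [abs_sub_comm] at this
      linarith
    have h4 : δ ^ 2 ≤ h y ^ 2 := by
      rw [← sq_abs (h y)]; exact pow_le_pow_left₀ hδ.le h3 2
    exact mul_le_mul (hF y hy1) h4 (sq_nonneg _) (hm.trans (hF y hy1))
  have hvol : (volume : Measure (J → ℝ)).real (Metric.closedBall y0 (δ / L)) =
      (2 * (δ / L)) ^ Fintype.card J := by
    rw [Measure.real, Real.volume_pi_closedBall _ hr, ENNReal.toReal_ofReal (by positivity)]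
  have h5 := setIntegral_ge_of_const_le_real measurableSet_closedBall
    (measure_closedBall_lt_top (μ := (volume : Measure (J → ℝ)))).ne hlow (hint.mono_set hsub)
  have h6 : ∫ y in Metric.closedBall y0 (δ / L), F y * h y ^ 2 ≤
      ∫ y in Metric.closedBall 0 (T + 1), F y * h y ^ 2 := by
    refine setIntegral_mono_set hint ?_ hsub.eventuallyLE
    refine (ae_restrict_iff' measurableSet_closedBall).2 (Filter.Eventually.of_forall fun y hy => ?_)
    exact mul_nonneg (hm.trans (hF y (mem_closedBall_zero_iff.1 hy))) (sq_nonneg _)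
  rw [hvol] at h5
  linarith

theorem cauchy_approx (γ : ℝ → ℝ) {S η B : ℝ} (hS : 0 < S) (hB : ∀ s, |s| ≤ S → |γ s| ≤ B)
    (hadd : ∀ s s', |s| ≤ S → |s'| ≤ S → |s + s'| ≤ S → |γ (s + s') - γ s - γ s'| ≤ η) :
    ∃ θ : ℝ, ∀ s, |s| ≤ S → |γ s + θ * s| ≤ 5 * η := by
  refine ⟨-(γ S / S), ?_⟩
  set φ : ℝ → ℝ := fun s => γ s + -(γ S / S) * s with hφ
  have hφS : φ S = 0 := by simp only [hφ]; field_simp; ring
  have ha : ∀ s s', |s| ≤ S → |s'| ≤ S → |s + s'| ≤ S → |φ (s + s') - φ s - φ s'| ≤ η := by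
    intro s s' h1 h2 h3
    have : φ (s + s') - φ s - φ s' = γ (s + s') - γ s - γ s' := by simp only [hφ]; ring
    rw [this]; exact hadd s s' h1 h2 h3
  have hbdd : BddAbove ((fun s => |φ s|) '' Set.Icc 0 S) := by
    refine ⟨B + |γ S / S| * S, ?_⟩
    rintro _ ⟨s, hs, rfl⟩
    have h1 : |s| ≤ S := by rw [abs_of_nonneg hs.1]; exact hs.2
    have h2 := abs_add_le (γ s) (-(γ S / S) * s)
    rw [abs_mul, abs_neg] at h2
    have h3 := mul_le_mul_of_nonneg_left h1 (abs_nonneg (γ S / S))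
    have h4 := hB s h1
    simp only [hφ]
    linarith
  set M := sSup ((fun s => |φ s|) '' Set.Icc 0 S) with hM
  have hle : ∀ s, 0 ≤ s → s ≤ S → |φ s| ≤ M := fun s h1 h2 => le_csSup hbdd ⟨s, ⟨h1, h2⟩, rfl⟩
  have hη : |φ 0| ≤ η := by
    have := ha 0 0 (by simpa using hS.le) (by simpa using hS.le) (by simpa using hS.le)
    rw [add_zero, sub_self, zero_sub, abs_neg] at this
    exact this
  have hη0 : 0 ≤ η := (abs_nonneg _).trans hη
  have hhalf : ∀ s, 0 ≤ s → s ≤ S / 2 → |φ s| ≤ (M + η) / 2 := by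
    intro s h1 h2
    have h3 := ha s s (by rw [abs_of_nonneg h1]; linarith) (by rw [abs_of_nonneg h1]; linarith)
      (by rw [abs_of_nonneg (by linarith)]; linarith)
    have h4 := hle (s + s) (by linarith) (by linarith)
    rw [abs_le] at h3 h4 ⊢
    constructor <;> linarith [h3.1, h3.2, h4.1, h4.2]
  have hM2 : M ≤ η + (M + η) / 2 := by
    refine csSup_le ⟨_, ⟨0, ⟨le_rfl, hS.le⟩, rfl⟩⟩ ?_
    rintro _ ⟨s, hs, rfl⟩
    rcases le_total s (S / 2) with h | h
    · have := hhalf s hs.1 h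
      show |φ s| ≤ _
      linarith
    · have h4 := hhalf (S - s) (by linarith [hs.2]) (by linarith)
      have h3 := ha s (S - s) (by rw [abs_of_nonneg hs.1]; exact hs.2)
        (by rw [abs_of_nonneg (by linarith [hs.2])]; linarith [hs.1])
        (by rw [add_sub_cancel, abs_of_pos hS])
      rw [add_sub_cancel, hφS] at h3
      show |φ s| ≤ _
      rw [abs_le] at h3 h4 ⊢
      constructor <;> linarith [h3.1, h3.2, h4.1, h4.2]
  intro s hs
  show |φ s| ≤ _
  rcases le_total 0 s with h | h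
  · have := hle s h ((le_abs_self s).trans hs)
    linarith
  · have h4 := hle (-s) (by linarith) ((neg_le_abs s).trans hs)
    have h3 := ha s (-s) hs (by rwa [abs_neg]) (by simpa using hS.le)
    rw [add_neg_cancel] at h3
    rw [abs_le] at h3 h4 hη ⊢
    constructor <;> linarith [h3.1, h3.2, h4.1, h4.2, hη.1, hη.2]

variable {I K : Type*} [Fintype I] [Fintype K] [DecidableEq I] [DecidableEq K]

/-- frame coordinates -/
noncomputable def cc (e : I → K → ℝ) (y : Option K → ℝ) (i : I) : ℝ := ∑ k, e i k * y (some k)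

/-- the point with prescribed frame coordinates -/
noncomputable def vec (e : I → K → ℝ) (q a : ℝ) (s : I → ℝ) : Option K → ℝ
  | none => a
  | some k => q / (q + 1) * ∑ i, s i * e i k

theorem e_le {e : I → K → ℝ} {q : ℝ}
    (f1 : ∀ i j, ∑ k, e i k * e j k = if i = j then 1 else -1 / q) (i : I) (k : K) :
    |e i k| ≤ 1 := by
  have h := f1 i i
  rw [if_pos rfl] at h
  have h2 : e i k * e i k ≤ 1 := h ▸
    single_le_sum (f := fun k => e i k * e i k) (fun _ _ => mul_self_nonneg _) (mem_univ k)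
  exact abs_le_one_iff_mul_self_le_one.2 h2

theorem cc_vec {e : I → K → ℝ} {q : ℝ} (hq : 0 < q)
    (f1 : ∀ i j, ∑ k, e i k * e j k = if i = j then 1 else -1 / q) (a : ℝ) {s : I → ℝ}
    (hs : ∑ i, s i = 0) (i : I) : cc e (vec e q a s) i = s i := by
  have h1 : cc e (vec e q a s) i = q / (q + 1) * ∑ j, s j * ∑ k, e i k * e j k := by
    simp only [cc, vec, mul_sum]
    rw [sum_comm]
    exact sum_congr rfl fun j _ => sum_congr rfl fun k _ => by ring
  have h2 : ∀ j, s j * ∑ k, e i k * e j k =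
      (if i = j then s j * (1 + 1 / q) else 0) + -1 / q * s j := by
    intro j; rw [f1]; split_ifs <;> ring
  rw [h1]
  simp only [h2, sum_add_distrib, ← mul_sum, hs, sum_ite_eq, mem_univ, if_true]
  field_simp
  ring

theorem norm_vec {e : I → K → ℝ} {q : ℝ} (hq : 0 < q)
    (f1 : ∀ i j, ∑ k, e i k * e j k = if i = j then 1 else -1 / q) {a R : ℝ} {s : I → ℝ}
    (ha : |a| ≤ R) (hs : ∑ i, |s i| ≤ R) : ‖vec e q a s‖ ≤ R := by
  refine (pi_norm_le_iff_of_nonneg ((abs_nonneg a).trans ha)).2 fun j => ?_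
  rcases j with _ | k
  · exact ha
  · simp only [vec, Real.norm_eq_abs, abs_mul]
    have h1 : |q / (q + 1)| ≤ 1 := by
      rw [abs_of_pos (by positivity), div_le_one (by positivity)]; linarith
    have h2 : |∑ i, s i * e i k| ≤ ∑ i, |s i| := by
      refine (abs_sum_le_sum_abs _ _).trans (sum_le_sum fun i _ => ?_)
      rw [abs_mul]
      exact mul_le_of_le_one_right (abs_nonneg _) (e_le f1 i k)
    have := mul_le_mul h1 h2 (abs_nonneg _) zero_le_one
    linarith

theorem cc_le {e : I → K → ℝ} {q : ℝ}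
    (f1 : ∀ i j, ∑ k, e i k * e j k = if i = j then 1 else -1 / q) {y : Option K → ℝ} {T : ℝ}
    (hy : ‖y‖ ≤ T) (i : I) : |cc e y i| ≤ Fintype.card K * T := by
  have : |cc e y i| ≤ ∑ _k : K, T := by
    refine (abs_sum_le_sum_abs _ _).trans (sum_le_sum fun k _ => ?_)
    rw [abs_mul]
    have h := (norm_le_pi_norm y (some k)).trans hy
    rw [Real.norm_eq_abs] at h
    have := mul_le_mul (e_le f1 i k) h (abs_nonneg _) zero_le_one
    linarith
  simpa using this

/-- a vector with three prescribed coordinates -/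
def tri (i1 i2 i3 : I) (s1 s2 s3 : ℝ) : I → ℝ := fun i =>
  if i = i1 then s1 else if i = i2 then s2 else if i = i3 then s3 else 0

theorem sum_tri {i1 i2 i3 : I} (h12 : i1 ≠ i2) (h13 : i1 ≠ i3) (h23 : i2 ≠ i3) (s1 s2 s3 : ℝ)
    (g : ℝ → ℝ) (g0 : g 0 = 0) : ∑ i, g (tri i1 i2 i3 s1 s2 s3 i) = g s1 + g s2 + g s3 := by
  have : ∀ i, g (tri i1 i2 i3 s1 s2 s3 i) = (if i = i1 then g s1 else 0) +
      (if i = i2 then g s2 else 0) + (if i = i3 then g s3 else 0) := by
    intro i
    unfold tri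
    by_cases a1 : i = i1
    · subst a1; simp [h12, h13]
    · by_cases a2 : i = i2
      · subst a2; simp [a1, h23]
      · by_cases a3 : i = i3
        · subst a3; simp [a1, a2]
        · simp [a1, a2, a3, g0]
  simp only [this, sum_add_distrib, sum_ite_eq', mem_univ, if_true]

theorem ray (l : (Option K → ℝ) → ℝ) (S : (Option K → ℝ) → Option K → ℝ)
    (hder : ∀ y u t, HasDerivAt (fun t : ℝ => l (y + t • u)) (∑ j, u j * S (y + t • u) j) t)
    {T θ s a : ℝ}
    (hC : ∀ y : Option K → ℝ, ‖y‖ ≤ T → y none = a → ∀ k, |S y (some k) + θ * y (some k)| ≤ s)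
    (y : Option K → ℝ) (hy : ‖y‖ ≤ T) (ha : y none = a) :
    |l y - l (Pi.single none a) + θ / 2 * ∑ k, y (some k) ^ 2| ≤ Fintype.card K * (T * s) := by
  have hT : 0 ≤ T := (norm_nonneg _).trans hy
  set ya : Option K → ℝ := Pi.single none a with hya
  set yc : Option K → ℝ := y - ya with hyc
  have hyj : ∀ j, |y j| ≤ T := fun j => (norm_le_pi_norm y j).trans hy
  have c0 : yc none = 0 := by simp [hyc, hya, ha]
  have c1 : ∀ k, yc (some k) = y (some k) := fun k => by simp [hyc, hya]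
  have a0 : ya none = a := by simp [hya]
  have a1 : ∀ k, ya (some k) = 0 := fun k => by simp [hya]
  have hd2 : ∀ t : ℝ, HasDerivAt (fun t : ℝ => θ / 2 * t ^ 2 * ∑ k, y (some k) ^ 2)
      (θ * t * ∑ k, y (some k) ^ 2) t := by
    intro t
    have := (((hasDerivAt_id t).pow 2).const_mul (θ / 2)).mul_const (∑ k, y (some k) ^ 2)
    refine HasDerivAt.congr_deriv this ?_
    simp only [id]
    ring
  have m2 := norm_image_sub_le_of_norm_deriv_le_segment_01' (C := Fintype.card K * (T * s))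
    (fun t (_ : t ∈ Set.Icc (0 : ℝ) 1) => ((hder ya yc t).add (hd2 t)).hasDerivWithinAt) (by
      intro t ht
      have hn1 : ‖ya + t • yc‖ ≤ T := by
        refine (pi_norm_le_iff_of_nonneg hT).2 fun j => ?_
        rcases j with _ | k
        · simpa [c0, a0, ha] using hyj none
        · have : |t * y (some k)| ≤ T := by
            rw [abs_mul, abs_of_nonneg ht.1]
            have := mul_le_mul ht.2.le (hyj (some k)) (abs_nonneg _) zero_le_one
            linarith
          simpa [c1, a1] using this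
      have hb := hC _ hn1 (by simp [c0, a0])
      have e4 : ∑ j, yc j * S (ya + t • yc) j + θ * t * ∑ k, y (some k) ^ 2 =
          ∑ k, y (some k) * (S (ya + t • yc) (some k) + θ * (ya + t • yc) (some k)) := by
        simp only [Fintype.sum_option, c0, zero_mul, zero_add, c1, mul_sum, ← sum_add_distrib,
          Pi.smul_apply, smul_eq_mul, Pi.add_apply, a1]
        exact sum_congr rfl fun _ _ => by ring
      rw [e4, Real.norm_eq_abs]
      refine (abs_sum_le_sum_abs _ _).trans ?_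
      have := sum_le_sum fun k (_ : k ∈ (univ : Finset K)) =>
        (abs_mul _ _).le.trans (mul_le_mul (hyj (some k)) (hb k) (abs_nonneg _) hT)
      rwa [sum_const, card_univ, nsmul_eq_mul] at this)
  have hy1 : ya + yc = y := add_sub_cancel _ _
  simp only [Pi.add_apply, one_smul, zero_smul, add_zero, hy1, one_pow,
    mul_one, Real.norm_eq_abs] at m2
  rw [abs_le] at m2 ⊢
  constructor <;> nlinarith [m2.1, m2.2]

theorem cau (e : I → K → ℝ) {q : ℝ} (hI : (Fintype.card I : ℝ) = q + 1) (h2 : 2 ≤ q)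
    (f0 : ∀ k, ∑ i, e i k = 0)
    (f1 : ∀ i j, ∑ k, e i k * e j k = if i = j then 1 else -1 / q)
    (f2 : ∀ k l, ∑ i, e i k * e i l = if k = l then (q + 1) / q else 0)
    (l : (Option K → ℝ) → ℝ) (S : (Option K → ℝ) → Option K → ℝ)
    (hder : ∀ y u t, HasDerivAt (fun t : ℝ => l (y + t • u)) (∑ j, u j * S (y + t • u) j) t)
    (G G' : ℝ → ℝ → ℝ) {T R ε B : ℝ} (hT : 0 < T) (hK : 1 ≤ (Fintype.card K : ℝ))
    (hR : 3 * (Fintype.card K * T) ≤ R)
    (hG : ∀ y, ‖y‖ ≤ R → ∀ i, |S y none - G (y none) (cc e y i)| ≤ ε)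
    (hG' : ∀ y, ‖y‖ ≤ R → ∀ i, |∑ k, e i k * S y (some k) - G' (y none) (cc e y i)| ≤ ε)
    (hB : ∀ y, ‖y‖ ≤ R → ∀ j, |S y j| ≤ B) :
    ∃ θ : ℝ, ∀ y : Option K → ℝ, ‖y‖ ≤ T → ∀ k, |S y (some k) + θ * y (some k)| ≤
      (8 + 110 * Fintype.card K * (q + 1) ^ 2) * ε := by
  have hq : 0 < q := by linarith
  obtain ⟨i1, i2, i3, h12, h13, h23⟩ : ∃ a b c : I, a ≠ b ∧ a ≠ c ∧ b ≠ c := by
    refine Fintype.two_lt_card_iff.1 ?_
    have : (2 : ℝ) < Fintype.card I := by linarith
    exact_mod_cast this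
  set n : ℝ := (Fintype.card K : ℝ) with hn
  have hnT : T ≤ n * T := le_mul_of_one_le_left hT.le hK
  have hTR : T ≤ R := by linarith
  have hR0 : 0 ≤ R := by linarith
  have hε : 0 ≤ ε := (abs_nonneg _).trans (hG 0 (by simpa using hR0) i1)
  have htn : ∀ s1 s2 s3 : ℝ, |s1| ≤ n * T → |s2| ≤ n * T → |s3| ≤ n * T →
      ∑ i, |tri i1 i2 i3 s1 s2 s3 i| ≤ R := by
    intro s1 s2 s3 a1 a2 a3
    rw [sum_tri h12 h13 h23 s1 s2 s3 (fun s => |s|) abs_zero]
    linarith
  have hts : ∀ s1 s2 s3 : ℝ, s1 + s2 + s3 = 0 → ∑ i, tri i1 i2 i3 s1 s2 s3 i = 0 := by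
    intro s1 s2 s3 a
    rw [sum_tri h12 h13 h23 s1 s2 s3 (fun s => s) rfl, a]
  have t1 : ∀ s1 s2 s3 : ℝ, tri i1 i2 i3 s1 s2 s3 i1 = s1 := fun _ _ _ => by simp [tri]
  have t2 : ∀ s1 s2 s3 : ℝ, tri i1 i2 i3 s1 s2 s3 i2 = s2 := fun _ _ _ => by simp [tri, h12.symm]
  have h0 : |(0 : ℝ)| ≤ n * T := by rw [abs_zero]; linarith
  have hsn : ∀ a : ℝ, |a| ≤ R → ‖(Pi.single none a : Option K → ℝ)‖ ≤ R := by
    intro a ha
    rw [Pi.norm_single]; exact ha
  have hcs : ∀ (a : ℝ) i, cc e (Pi.single none a) i = 0 := by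
    intro a i; simp [cc]
  have hA : ∀ y : Option K → ℝ, ‖y‖ ≤ T →
      |S y none - S (Pi.single none (y none)) none| ≤ 4 * ε := by
    intro y hy
    have hc := cc_le f1 hy i1
    have ha : |y none| ≤ R := ((norm_le_pi_norm y none).trans hy).trans hTR
    have hv := norm_vec hq f1 ha (htn (cc e y i1) 0 (-cc e y i1) hc h0 (by rwa [abs_neg]))
    have hs := hts (cc e y i1) 0 (-cc e y i1) (by ring)
    have a1 := hG y (hy.trans hTR) i1
    have a2 := hG _ hv i1
    have a3 := hG _ hv i2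
    have a4 := hG _ (hsn _ ha) i1
    rw [cc_vec hq f1 _ hs, t1] at a2
    rw [cc_vec hq f1 _ hs, t2] at a3
    rw [hcs, Pi.single_eq_same] at a4
    have hvn : vec e q (y none) (tri i1 i2 i3 (cc e y i1) 0 (-cc e y i1)) none = y none := rfl
    rw [hvn] at a2 a3
    rw [abs_le] at a1 a2 a3 a4 ⊢
    constructor <;> linarith [a1.1, a1.2, a2.1, a2.2, a3.1, a3.2, a4.1, a4.2]
  have hCa : ∀ a : ℝ, |a| ≤ T → ∃ θ : ℝ, ∀ y : Option K → ℝ, ‖y‖ ≤ T → y none = a → ∀ k,
      |S y (some k) + θ * y (some k)| ≤ 22 * (q + 1) ^ 2 * ε := by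
    intro a haT
    have haR : |a| ≤ R := haT.trans hTR
    have hsum : ∀ s : I → ℝ, ∑ i, s i = 0 → ∑ i, |s i| ≤ R → |∑ i, G' a (s i)| ≤ (q + 1) * ε := by
      intro s hs hs'
      have hv := norm_vec hq f1 haR hs'
      have z : ∑ i, ∑ k, e i k * S (vec e q a s) (some k) = 0 := by
        rw [sum_comm]
        simp only [← sum_mul, f0, zero_mul, sum_const_zero]
      have : ∑ i, G' a (s i) = -∑ i, (∑ k, e i k * S (vec e q a s) (some k) - G' a (s i)) := by
        rw [sum_sub_distrib, z]; ring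
      rw [this, abs_neg]
      refine (abs_sum_le_sum_abs _ _).trans ?_
      have h3 : ∑ i, |∑ k, e i k * S (vec e q a s) (some k) - G' a (s i)| ≤ ∑ _i : I, ε := by
        refine sum_le_sum fun i _ => ?_
        have := hG' _ hv i
        rwa [cc_vec hq f1 _ hs] at this
      rw [sum_const, card_univ, nsmul_eq_mul, hI] at h3
      exact h3
    have hz : |(q + 1) * G' a 0| ≤ (q + 1) * ε := by
      have := hsum (fun _ => 0) (by simp) (by simpa using hR0)
      rwa [sum_const, card_univ, nsmul_eq_mul, hI] at this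
    have hβ0 : |G' a 0| ≤ ε := by
      rw [abs_mul, abs_of_pos (by linarith)] at hz
      exact le_of_mul_le_mul_left hz (by linarith)
    set γ : ℝ → ℝ := fun s => G' a s - G' a 0 with hγ
    have h3 : ∀ s1 s2 s3 : ℝ, |s1| ≤ n * T → |s2| ≤ n * T → |s3| ≤ n * T → s1 + s2 + s3 = 0 →
        |γ s1 + γ s2 + γ s3| ≤ 2 * ((q + 1) * ε) := by
      intro s1 s2 s3 a1 a2 a3 a4
      rw [← sum_tri h12 h13 h23 s1 s2 s3 γ (sub_self _)]
      simp only [hγ]
      rw [sum_sub_distrib, sum_const, card_univ, nsmul_eq_mul, hI]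
      have := hsum _ (hts s1 s2 s3 a4) (htn s1 s2 s3 a1 a2 a3)
      have := abs_sub (∑ i, G' a (tri i1 i2 i3 s1 s2 s3 i)) ((q + 1) * G' a 0)
      linarith
    obtain ⟨θ, hθ⟩ := cauchy_approx γ (S := n * T) (η := 4 * ((q + 1) * ε)) (B := n * B + 2 * ε)
      (by linarith) (by
        intro s hs
        have hv := norm_vec hq f1 haR (htn s 0 (-s) hs h0 (by rwa [abs_neg]))
        have a5 := hG' _ hv i1
        rw [cc_vec hq f1 _ (hts s 0 (-s) (by ring)), t1] at a5
        have b : |∑ k, e i1 k * S (vec e q a (tri i1 i2 i3 s 0 (-s))) (some k)| ≤ ∑ _k : K, B := by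
          refine (abs_sum_le_sum_abs _ _).trans (sum_le_sum fun k _ => ?_)
          rw [abs_mul]
          have := mul_le_mul (e_le f1 i1 k) (hB _ hv (some k)) (abs_nonneg _) zero_le_one
          linarith
        rw [sum_const, card_univ, nsmul_eq_mul] at b
        have hvn : vec e q a (tri i1 i2 i3 s 0 (-s)) none = a := rfl
        rw [hvn] at a5
        simp only [hγ]
        rw [abs_le] at a5 b hβ0 ⊢
        constructor <;> linarith [a5.1, a5.2, b.1, b.2, hβ0.1, hβ0.2]) (by
        intro s s' a1 a2 a3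
        have b1 := h3 s s' (-(s + s')) a1 a2 (by rwa [abs_neg]) (by ring)
        have b2 := h3 (s + s') 0 (-(s + s')) a3 h0 (by rwa [abs_neg]) (by ring)
        have b3 : γ 0 = 0 := sub_self _
        rw [b3] at b2
        rw [abs_le] at b1 b2 ⊢
        constructor <;> linarith [b1.1, b1.2, b2.1, b2.2])
    refine ⟨θ, ?_⟩
    · intro y hy hy0 k
      have e1 : ∀ v : K → ℝ, q / (q + 1) * ∑ i, e i k * ∑ l, e i l * v l = v k := by
        intro v
        have : ∑ i, e i k * ∑ l, e i l * v l = ∑ l, (∑ i, e i k * e i l) * v l := by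
          simp only [mul_sum, sum_mul]
          rw [sum_comm]
          exact sum_congr rfl fun _ _ => sum_congr rfl fun _ _ => by ring
        rw [this]
        simp only [f2, ite_mul, zero_mul, sum_ite_eq, mem_univ, if_true]
        field_simp
      have e2 := e1 fun l => S y (some l) + θ * y (some l)
      have b : ∀ i, |e i k * ∑ l, e i l * (S y (some l) + θ * y (some l))| ≤ 22 * (q + 1) * ε := by
        intro i
        have e3 : ∑ l, e i l * (S y (some l) + θ * y (some l)) =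
            ∑ l, e i l * S y (some l) + θ * cc e y i := by
          simp only [cc, mul_add, sum_add_distrib, mul_sum]
          congr 1
          exact sum_congr rfl fun _ _ => by ring
        have a6 := hG' y (hy.trans hTR) i
        have a' := hθ _ (cc_le f1 hy i)
        rw [hy0] at a6
        simp only [hγ] at a'
        have c : |∑ l, e i l * S y (some l) + θ * cc e y i| ≤ 22 * (q + 1) * ε := by
          have : ε ≤ (q + 1) * ε := le_mul_of_one_le_left hε (by linarith)
          rw [abs_le] at a6 a' hβ0 ⊢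
          constructor <;> linarith [a6.1, a6.2, a'.1, a'.2, hβ0.1, hβ0.2]
        rw [abs_mul, e3]
        have := mul_le_mul (e_le f1 i k) c (abs_nonneg _) zero_le_one
        linarith
      rw [← e2, abs_mul]
      have b1 : |q / (q + 1)| ≤ 1 := by
        rw [abs_of_pos (by positivity), div_le_one (by positivity)]; linarith
      have b2 := (abs_sum_le_sum_abs _ _).trans (sum_le_sum fun i (_ : i ∈ univ) => b i)
      rw [sum_const, card_univ, nsmul_eq_mul, hI] at b2
      have := mul_le_mul b1 b2 (abs_nonneg _) zero_le_one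
      nlinarith
  obtain ⟨θ, hθ⟩ := hCa 0 (by simpa using hT.le)
  refine ⟨θ, fun y hy k => ?_⟩
  have hyj : ∀ j, |y j| ≤ T := fun j => (norm_le_pi_norm y j).trans hy
  obtain ⟨θ', hθ'⟩ := hCa (y none) (hyj none)
  set ya : Option K → ℝ := Pi.single none (y none) with hya
  set yc : Option K → ℝ := Pi.single (some k) T with hyc
  have c0 : yc none = 0 := by simp [hyc]
  have a0 : ya none = y none := by simp [hya]
  have a1 : ∀ k, ya (some k) = 0 := fun k => by simp [hya]
  have c1 : ∀ l, |yc (some l)| ≤ T := fun l =>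
    (norm_le_pi_norm yc (some l)).trans (by rw [hyc, Pi.norm_single, Real.norm_eq_abs, abs_of_pos hT])
  have c2 : ∑ l, yc (some l) ^ 2 = T ^ 2 := by
    rw [sum_eq_single k]
    · simp [hyc]
    · intro l _ hl; simp [hyc, hl]
    · intro h; exact absurd (mem_univ k) h
  have hn1 : ∀ t ∈ Set.Icc (0 : ℝ) 1, ‖yc + t • ya‖ ≤ T := by
    intro t ht
    refine (pi_norm_le_iff_of_nonneg hT.le).2 fun j => ?_
    rcases j with _ | l
    · have : |t * y none| ≤ T := by
        rw [abs_mul, abs_of_nonneg ht.1]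
        have := mul_le_mul ht.2 (hyj none) (abs_nonneg _) zero_le_one
        linarith
      simpa [c0, a0] using this
    · simpa [a1] using c1 l
  have m1 := norm_image_sub_le_of_norm_deriv_le_segment_01' (C := T * (4 * ε))
    (fun t (_ : t ∈ Set.Icc (0 : ℝ) 1) => ((hder yc ya t).sub (hder 0 ya t)).hasDerivWithinAt) (by
      intro t ht
      have hs : (Pi.single none ((yc + t • ya) none) : Option K → ℝ) = 0 + t • ya := by
        funext j
        rcases j with _ | k
        · simp [c0]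
        · simp [a1]
      have := hA _ (hn1 t ⟨ht.1, ht.2.le⟩)
      rw [hs] at this
      simp only [Fintype.sum_option, a1, zero_mul, sum_const_zero, add_zero, a0]
      rw [← mul_sub, Real.norm_eq_abs, abs_mul]
      exact mul_le_mul (hyj none) this (abs_nonneg _) hT.le)
  have n0 := hn1 0 ⟨le_rfl, zero_le_one⟩
  have n1 := hn1 1 ⟨zero_le_one, le_rfl⟩
  simp only [Pi.sub_apply, one_smul, zero_smul, add_zero, zero_add, Real.norm_eq_abs] at m1 n0 n1
  have r0 := ray l S hder hθ yc n0 c0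
  have r1 := ray l S hder hθ' (yc + ya) n1 (by simp [c0, a0])
  simp only [Pi.add_apply, a1, add_zero, c2, Pi.single_zero, ← hya, ← hn] at r0 r1
  have hd : |θ - θ'| * T ≤ 8 * ε + 88 * n * (q + 1) ^ 2 * ε := by
    refine le_of_mul_le_mul_right ?_ hT
    have : |(θ - θ') / 2 * T ^ 2| ≤ T * (4 * ε) + 2 * (n * (T * (22 * (q + 1) ^ 2 * ε))) := by
      rw [abs_le] at m1 r0 r1 ⊢
      constructor <;> linarith [m1.1, m1.2, r0.1, r0.2, r1.1, r1.2]
    rw [abs_mul, abs_div, abs_of_pos (pow_pos hT 2), abs_two] at this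
    nlinarith
  have b1 := hθ' y hy rfl k
  have b2 : |(θ - θ') * y (some k)| ≤ |θ - θ'| * T := by
    rw [abs_mul]; exact mul_le_mul_of_nonneg_left (hyj _) (abs_nonneg _)
  have b3 : (q + 1) ^ 2 * ε ≤ n * ((q + 1) ^ 2 * ε) := le_mul_of_one_le_left (by positivity) hK
  rw [abs_le] at b1 b2 ⊢
  constructor <;> nlinarith [b1.1, b1.2, b2.1, b2.2]

end Pool.Agent.P.MP_6b977f_mp.RG.Sb
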