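import Pool.Agent.P.MP_6b977f_mp.RG.LibS1

/-! Integrating out the last coordinate of a finite Gaussian mixture. -/

set_option autoImplicit false
set_option linter.unusedSectionVars false

namespace Pool.Agent.P.MP_6b977f_mp.RG.Sb

open Finset Real MeasureTheory ProbabilityTheory

/-- one dimensional Gaussian density -/
noncomputable def gg (κ o t : ℝ) : ℝ := (√(2 * π * κ))⁻¹ * exp (-(t - o) ^ 2 / (2 * κ))

theorem gg_eq {κ : ℝ} (hκ : 0 < κ) (o : ℝ) : gg κ o = gaussianPDFReal o κ.toNNReal := by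
  funext t
  simp only [gg, gaussianPDFReal, Real.coe_toNNReal _ hκ.le]

theorem gg_ne {κ : ℝ} (hκ : 0 < κ) : κ.toNNReal ≠ 0 := by
  simpa using hκ

theorem gg_nonneg (κ o t : ℝ) : 0 ≤ gg κ o t := by unfold gg; positivity

theorem gg_int {κ : ℝ} (hκ : 0 < κ) (o : ℝ) : Integrable (gg κ o) := by
  rw [gg_eq hκ]; exact integrable_gaussianPDFReal _ _

theorem gg_one {κ : ℝ} (hκ : 0 < κ) (o : ℝ) : ∫ t, gg κ o t = 1 := by
  rw [gg_eq hκ]; exact integral_gaussianPDFReal_eq_one _ (gg_ne hκ)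

theorem gg_int2 {κ : ℝ} (hκ : 0 < κ) (o : ℝ) : Integrable fun t => gg κ o t * t ^ 2 := by
  have h : Integrable (fun t : ℝ => t ^ 2) (gaussianReal o κ.toNNReal) := by
    simpa using (memLp_id_gaussianReal (μ := o) (v := κ.toNNReal) 2).integrable_sq
  rw [gaussianReal_of_var_ne_zero _ (gg_ne hκ),
    integrable_withDensity_iff_integrable_smul' (measurable_gaussianPDF _ _)
      (ae_of_all _ fun _ => gaussianPDF_lt_top)] at h
  rw [gg_eq hκ]
  simpa using h

theorem gg_two {κ : ℝ} (hκ : 0 < κ) (o : ℝ) : ∫ t, gg κ o t * t ^ 2 = o ^ 2 + κ := by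
  have h := variance_eq_sub (μ := gaussianReal o κ.toNNReal) (X := id)
    (memLp_id_gaussianReal (μ := o) (v := κ.toNNReal) 2)
  rw [variance_id_gaussianReal, Real.coe_toNNReal _ hκ.le] at h
  have h2 : ∫ t, id t ∂gaussianReal o κ.toNNReal = o := integral_id_gaussianReal
  rw [h2, integral_gaussianReal_eq_integral_smul (gg_ne hκ)] at h
  rw [gg_eq hκ]
  simp only [Pi.pow_apply, id, smul_eq_mul] at h
  linarith

variable {Ω J : Type*} [Fintype Ω] [Fintype J]

/-- normalising constant -/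
noncomputable def Nc (σ : J → ℝ) : ℝ := ∏ j, (√(2 * π * σ j))⁻¹

theorem Nc_pos {σ : J → ℝ} (hσ : ∀ j, 0 < σ j) : 0 < Nc σ :=
  prod_pos fun j _ => by have := hσ j; positivity

variable {w : Ω → ℝ} {x : Ω → J → ℝ} {σ : J → ℝ}

theorem Nc_WW (y : J → ℝ) (ω : Ω) :
    Nc σ * WW w x σ y ω = w ω * ∏ j, gg (σ j) (x ω j) (y j) := by
  unfold Nc WW gg QQ
  rw [prod_mul_distrib, ← exp_sum, ← sum_neg_distrib, sum_div]
  have : ∑ j, -((y - x ω) j ^ 2 / σ j) / 2 = ∑ j, -(y j - x ω j) ^ 2 / (2 * σ j) :=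
    sum_congr rfl fun j _ => by rw [Pi.sub_apply]; ring
  rw [this]
  ring

theorem Nc_ZZ (y : J → ℝ) : Nc σ * ZZ w x σ y = ∑ ω, w ω * ∏ j, gg (σ j) (x ω j) (y j) := by
  unfold ZZ
  rw [mul_sum]
  exact sum_congr rfl fun ω _ => Nc_WW y ω

theorem cont_WW (ω : Ω) : Continuous fun y => WW w x σ y ω := by
  unfold WW QQ
  fun_prop

theorem cont_ZZ : Continuous fun y => ZZ w x σ y := continuous_finsetSum _ fun ω _ => cont_WW ω

theorem cont_SS (hw : ∀ ω, 0 ≤ w ω) (h1 : ∑ ω, w ω = 1) (j : J) :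
    Continuous fun y => SS w x σ y j := by
  refine Continuous.div (continuous_finsetSum _ fun ω _ => (cont_WW ω).mul (by fun_prop)) cont_ZZ
    fun y => (ZZ_pos hw h1 y).ne'

theorem int_den (hσ : ∀ j, 0 < σ j) : Integrable fun y => Nc σ * ZZ w x σ y := by
  simp only [Nc_ZZ]
  exact integrable_finsetSum _ fun ω _ =>
    (Integrable.fintype_prod (f := fun j => gg (σ j) (x ω j)) fun j => gg_int (hσ j) _).const_mul _

theorem den_sq [DecidableEq J] (y : J → ℝ) (l : J) : Nc σ * ZZ w x σ y * y l ^ 2 =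
    ∑ ω, w ω * ∏ j, (gg (σ j) (x ω j) (y j) * if j = l then y j ^ 2 else 1) := by
  rw [Nc_ZZ, sum_mul]
  refine sum_congr rfl fun ω _ => ?_
  rw [prod_mul_distrib, prod_ite_eq', if_pos (mem_univ l), mul_assoc]

theorem int_fac [DecidableEq J] (hσ : ∀ j, 0 < σ j) (l j : J) (o : ℝ) :
    Integrable fun t : ℝ => gg (σ j) o t * if j = l then t ^ 2 else 1 := by
  split_ifs
  · exact gg_int2 (hσ j) _
  · simpa using gg_int (hσ j) _

theorem int_den_sq (hσ : ∀ j, 0 < σ j) (l : J) :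
    Integrable fun y => Nc σ * ZZ w x σ y * y l ^ 2 := by
  classical
  simp only [den_sq]
  exact integrable_finsetSum _ fun ω _ =>
    (Integrable.fintype_prod (f := fun j t => gg (σ j) (x ω j) t * if j = l then t ^ 2 else 1)
      fun j => int_fac hσ l j _).const_mul _

theorem integral_den_sq (hσ : ∀ j, 0 < σ j) (l : J) :
    ∫ y, Nc σ * ZZ w x σ y * y l ^ 2 = ∑ ω, w ω * (x ω l ^ 2 + σ l) := by
  classical
  simp only [den_sq]
  have hi : ∀ ω ∈ (univ : Finset Ω), Integrable fun y : J → ℝ =>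
      w ω * ∏ j, (gg (σ j) (x ω j) (y j) * if j = l then y j ^ 2 else 1) := fun ω _ =>
    (Integrable.fintype_prod (f := fun j t => gg (σ j) (x ω j) t * if j = l then t ^ 2 else 1)
      fun j => int_fac hσ l j _).const_mul _
  rw [integral_finsetSum _ hi]
  refine sum_congr rfl fun ω _ => ?_
  rw [integral_const_mul, integral_fintype_prod_volume_eq_prod
    (fun j t => gg (σ j) (x ω j) t * if j = l then t ^ 2 else 1), prod_eq_single l]
  · simp only [if_true]; rw [gg_two (hσ l)]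
  · intro j _ hj
    simp only [if_neg hj, mul_one]; exact gg_one (hσ j) _
  · intro h; exact absurd (mem_univ l) h

theorem norm_sq_le (y : J → ℝ) : ‖y‖ ^ 2 ≤ ∑ j, y j ^ 2 := by
  have h0 : 0 ≤ ∑ j, y j ^ 2 := sum_nonneg fun _ _ => sq_nonneg _
  have : ‖y‖ ≤ √(∑ j, y j ^ 2) := by
    refine (pi_norm_le_iff_of_nonneg (sqrt_nonneg _)).2 fun j => ?_
    exact abs_le_sqrt (single_le_sum (f := fun j => y j ^ 2) (fun _ _ => sq_nonneg _) (mem_univ j))
  exact (pow_le_pow_left₀ (norm_nonneg _) this 2).trans (sq_sqrt h0).le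

theorem int_growth (hw : ∀ ω, 0 ≤ w ω) (h1 : ∑ ω, w ω = 1) (hσ : ∀ j, 0 < σ j)
    {g : (J → ℝ) → ℝ} (hg : Continuous g) {C : ℝ} (hC : ∀ y, |g y| ≤ C * (1 + ‖y‖)) :
    Integrable fun y => Nc σ * ZZ w x σ y * g y ^ 2 := by
  have hi := ((int_den (w := w) (x := x) hσ).add
    (integrable_finsetSum univ fun l _ => int_den_sq (w := w) (x := x) hσ l)).const_mul (2 * C ^ 2)
  refine hi.mono' (((continuous_const.mul cont_ZZ).mul (hg.pow 2)).aestronglyMeasurable)
    (ae_of_all _ fun y => ?_)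
  have hp : 0 ≤ Nc σ * ZZ w x σ y := (mul_pos (Nc_pos hσ) (ZZ_pos hw h1 y)).le
  rw [Real.norm_eq_abs, abs_of_nonneg (mul_nonneg hp (sq_nonneg _))]
  simp only [Pi.add_apply, ← mul_sum]
  have h2 : g y ^ 2 ≤ (C * (1 + ‖y‖)) ^ 2 := by
    rw [← sq_abs]; exact pow_le_pow_left₀ (abs_nonneg _) (hC y) 2
  have h3 : (1 + ‖y‖) ^ 2 ≤ 2 * (1 + ∑ j, y j ^ 2) := by
    nlinarith [norm_sq_le y, sq_nonneg (1 - ‖y‖)]
  have h4 : g y ^ 2 ≤ 2 * C ^ 2 * (1 + ∑ j, y j ^ 2) := by
    have := mul_le_mul_of_nonneg_left h3 (sq_nonneg C)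
    nlinarith
  have := mul_le_mul_of_nonneg_left h4 hp
  nlinarith

theorem SS_growth (hw : ∀ ω, 0 ≤ w ω) (h1 : ∑ ω, w ω = 1) (j : J) :
    ∃ C : ℝ, ∀ y, |SS w x σ y j| ≤ C * (1 + ‖y‖) := by
  refine ⟨(1 + ∑ ω, |x ω j|) * |(σ j)⁻¹|, fun y => ?_⟩
  have hZ := ZZ_pos (x := x) (σ := σ) hw h1 y
  unfold SS
  rw [abs_div, abs_of_pos hZ, div_le_iff₀ hZ]
  refine (abs_sum_le_sum_abs _ _).trans ?_
  unfold ZZ
  rw [mul_sum]
  refine sum_le_sum fun ω _ => ?_
  rw [abs_mul, abs_of_nonneg (WW_nonneg hw y ω), mul_comm]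
  refine mul_le_mul_of_nonneg_right ?_ (WW_nonneg hw y ω)
  rw [div_eq_mul_inv, abs_mul, mul_right_comm]
  refine mul_le_mul_of_nonneg_right ?_ (abs_nonneg _)
  have a1 : |x ω j| ≤ ∑ ω, |x ω j| :=
    single_le_sum (f := fun ω => |x ω j|) (fun _ _ => abs_nonneg _) (mem_univ ω)
  have a2 : |y j| ≤ ‖y‖ := norm_le_pi_norm y j
  have a3 := abs_sub (x ω j) (y j)
  nlinarith [abs_nonneg (x ω j), norm_nonneg y]

/-- put the last coordinate back -/
def cons (t : ℝ) (y : J → ℝ) : Option J → ℝ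
  | none => t
  | some j => y j

theorem drop {X : Ω → Option J → ℝ} {τ : Option J → ℝ} (hw : ∀ ω, 0 ≤ w ω) (h1 : ∑ ω, w ω = 1)
    (hτ : ∀ l, 0 < τ l) (b : J → ℝ) {g : (Option J → ℝ) → ℝ} (hg : Continuous g) {C : ℝ}
    (hC : ∀ y, |g y| ≤ C * (1 + ‖y‖)) {R Λ : ℝ}
    (hlip : ∀ y t, ‖y‖ ≤ R → |g (cons t y) - g (cons 0 y)| ≤ Λ * |t|) :
    ∫ y in Metric.closedBall 0 R,
        Nc (fun j => τ (some j)) * ZZ w (fun ω j => X ω (some j)) (fun j => τ (some j)) y *
          (∑ j, b j * SS w (fun ω j => X ω (some j)) (fun j => τ (some j)) y j - g (cons 0 y)) ^ 2 ≤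
      2 * (∫ y, Nc τ * ZZ w X τ y * (∑ j, b j * SS w X τ y (some j) - g y) ^ 2) +
        2 * Λ ^ 2 * ∑ ω, w ω * (X ω none ^ 2 + τ none) := by
  set σ : J → ℝ := fun j => τ (some j) with hσd
  set x : Ω → J → ℝ := fun ω j => X ω (some j) with hxd
  have hσ : ∀ j, 0 < σ j := fun j => hτ _
  have hcons : Continuous fun y : J → ℝ => cons 0 y := by
    refine continuous_pi fun l => ?_
    rcases l with _ | j
    · exact continuous_const
    · exact continuous_apply j
  choose Cs hCs using fun j => SS_growth (x := X) (σ := τ) hw h1 (some j)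
  have hρc : Continuous fun y => ∑ j, b j * SS w X τ y (some j) - g y :=
    (continuous_finsetSum _ fun j _ => continuous_const.mul (cont_SS hw h1 _)).sub hg
  have hρg : ∀ y, |∑ j, b j * SS w X τ y (some j) - g y| ≤ (∑ j, |b j| * Cs j + C) * (1 + ‖y‖) := by
    intro y
    refine (abs_sub _ _).trans ?_
    rw [add_mul, sum_mul]
    refine add_le_add ((abs_sum_le_sum_abs _ _).trans (sum_le_sum fun j _ => ?_)) (hC y)
    rw [abs_mul, mul_assoc]
    exact mul_le_mul_of_nonneg_left (hCs j y) (abs_nonneg _)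
  have i1 := int_growth (x := X) hw h1 hτ hρc hρg
  have i2 := int_den_sq (w := w) (x := X) hτ none
  set H : (Option J → ℝ) → ℝ := fun y =>
    2 * (Nc τ * ZZ w X τ y * (∑ j, b j * SS w X τ y (some j) - g y) ^ 2) +
      2 * Λ ^ 2 * (Nc τ * ZZ w X τ y * y none ^ 2) with hH
  have iH : Integrable H := (i1.const_mul 2).add (i2.const_mul _)
  have hf : ∀ y, 0 < Nc τ * ZZ w X τ y := fun y => mul_pos (Nc_pos hτ) (ZZ_pos hw h1 y)
  have H0 : ∀ y, 0 ≤ H y := fun y => by
    have := hf y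
    simp only [hH]; positivity
  have eH : ∫ y, H y = 2 * (∫ y, Nc τ * ZZ w X τ y * (∑ j, b j * SS w X τ y (some j) - g y) ^ 2) +
        2 * Λ ^ 2 * ∑ ω, w ω * (X ω none ^ 2 + τ none) := by
    rw [integral_add (i1.const_mul 2) (i2.const_mul _), integral_const_mul, integral_const_mul,
      integral_den_sq hτ]
  rw [← eH]
  let E := (MeasurableEquiv.piOptionEquivProd fun _ : Option J => ℝ).symm
  have hE : ∀ p : (J → ℝ) × ℝ, E p = cons p.2 p.1 := by
    intro p
    funext l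
    rcases l with _ | j <;> rfl
  have mp : MeasurePreserving E ((volume : Measure (J → ℝ)).prod (volume : Measure ℝ)) volume :=
    ⟨E.measurable, Measure.pi_map_piOptionEquivProd fun _ => volume⟩
  have iP : Integrable (fun p : (J → ℝ) × ℝ => H (cons p.2 p.1))
      ((volume : Measure (J → ℝ)).prod (volume : Measure ℝ)) := by
    have := (mp.integrable_comp_emb E.measurableEmbedding).2 iH
    simpa only [Function.comp_def, hE] using this
  have eP : ∫ y, H y = ∫ y : J → ℝ, ∫ t : ℝ, H (cons t y) := by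
    rw [← mp.integral_comp' H, ← integral_prod _ iP]
    simp only [hE]
  rw [eP]
  have hW : ∀ (y : J → ℝ) t ω, Nc τ * WW w X τ (cons t y) ω =
      Nc σ * WW w x σ y ω * gg (τ none) (X ω none) t := by
    intro y t ω
    rw [Nc_WW, Nc_WW, Fintype.prod_option]
    simp only [cons, hσd, hxd]
    ring
  have key : ∀ y : J → ℝ, ‖y‖ ≤ R → Integrable (fun t => H (cons t y)) →
      Nc σ * ZZ w x σ y * (∑ j, b j * SS w x σ y j - g (cons 0 y)) ^ 2 ≤ ∫ t, H (cons t y) := by
    intro y hy hi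
    set g0 := g (cons 0 y) with hg0
    set c := ∑ j, b j * SS w x σ y j - g0 with hc
    set B : Ω → ℝ := fun ω => ∑ j, b j * ((x ω j - y j) / σ j) with hB
    have hZ := ZZ_pos (x := x) (σ := σ) hw h1 y
    have s1 : ZZ w x σ y * ∑ j, b j * SS w x σ y j = ∑ ω, WW w x σ y ω * B ω := by
      simp only [hB, SS, mul_sum]
      rw [sum_comm]
      refine sum_congr rfl fun j _ => ?_
      rw [mul_left_comm, mul_div_cancel₀ _ hZ.ne', mul_sum]
      exact sum_congr rfl fun ω _ => by ring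
    have s2 : ∀ t, ZZ w X τ (cons t y) * ∑ j, b j * SS w X τ (cons t y) (some j) =
        ∑ ω, WW w X τ (cons t y) ω * B ω := by
      intro t
      simp only [hB, SS, mul_sum]
      rw [sum_comm]
      refine sum_congr rfl fun j _ => ?_
      rw [mul_left_comm, mul_div_cancel₀ _ (ZZ_pos hw h1 _).ne', mul_sum]
      exact sum_congr rfl fun ω _ => by simp only [cons, hσd, hxd]; ring
    set L : ℝ → ℝ := fun t => ∑ ω, Nc σ * WW w x σ y ω * (2 * c * (B ω - g0) - c ^ 2) *
      gg (τ none) (X ω none) t with hL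
    have iL : ∀ ω, Integrable fun t => Nc σ * WW w x σ y ω * (2 * c * (B ω - g0) - c ^ 2) *
      gg (τ none) (X ω none) t := fun ω => (gg_int (hτ none) _).const_mul _
    have eL : ∫ t, L t = Nc σ * ZZ w x σ y * c ^ 2 := by
      rw [integral_finsetSum _ fun ω _ => iL ω]
      simp only [integral_const_mul, gg_one (hτ none), mul_one]
      have : ∀ ω, Nc σ * WW w x σ y ω * (2 * c * (B ω - g0) - c ^ 2) =
          2 * c * Nc σ * (WW w x σ y ω * B ω) - Nc σ * (2 * c * g0 + c ^ 2) * WW w x σ y ω :=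
        fun ω => by ring
      simp only [this, sum_sub_distrib, ← mul_sum, ← s1]
      have e1 : ∑ j, b j * SS w x σ y j = c + g0 := by rw [hc]; ring
      rw [e1]
      unfold ZZ
      ring
    rw [← eL]
    refine integral_mono (integrable_finsetSum _ fun ω _ => iL ω) hi fun t => ?_
    set ρ := ∑ j, b j * SS w X τ (cons t y) (some j) with hρ
    have e2 : L t = Nc τ * ZZ w X τ (cons t y) * (2 * c * (ρ - g0) - c ^ 2) := by
      have : ∀ ω, Nc σ * WW w x σ y ω * (2 * c * (B ω - g0) - c ^ 2) * gg (τ none) (X ω none) t =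
          2 * c * Nc τ * (WW w X τ (cons t y) ω * B ω) -
            Nc τ * (2 * c * g0 + c ^ 2) * WW w X τ (cons t y) ω := by
        intro ω
        have := hW y t ω
        linear_combination (-(2 * c * (B ω - g0) - c ^ 2)) * this
      simp only [hL, this, sum_sub_distrib, ← mul_sum, ← s2]
      unfold ZZ
      ring
    have l1 := hlip y t hy
    have l2 : (g (cons t y) - g0) ^ 2 ≤ Λ ^ 2 * t ^ 2 := by
      rw [← sq_abs, ← sq_abs t, ← mul_pow]
      exact pow_le_pow_left₀ (abs_nonneg _) l1 2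
    have l3 : 2 * c * (ρ - g0) - c ^ 2 ≤ 2 * (ρ - g (cons t y)) ^ 2 + 2 * Λ ^ 2 * t ^ 2 := by
      nlinarith [sq_nonneg (ρ - g0 - c), sq_nonneg (ρ - g (cons t y) - (g (cons t y) - g0))]
    have := mul_le_mul_of_nonneg_left l3 (hf (cons t y)).le
    have e3 : cons t y none = t := rfl
    simp only [hH, e3, ← hρ]
    rw [e2]
    linarith
  have iI := iP.integral_prod_left
  refine le_trans (setIntegral_mono_ae_restrict ?_ iI.integrableOn ?_)
    (setIntegral_le_integral iI (ae_of_all _ fun y => integral_nonneg fun t => H0 _))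
  · refine ContinuousOn.integrableOn_compact (isCompact_closedBall _ _) (Continuous.continuousOn ?_)
    exact (continuous_const.mul cont_ZZ).mul
      (((continuous_finsetSum _ fun j _ => continuous_const.mul (cont_SS hw h1 _)).sub
        (hg.comp hcons)).pow 2)
  · refine (ae_restrict_iff' measurableSet_closedBall).2 ?_
    filter_upwards [iP.prod_right_ae] with y hy hb
    exact key y (mem_closedBall_zero_iff.1 hb) hy

end Pool.Agent.P.MP_6b977f_mp.RG.Sb
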