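import Pool.Agent.P.MP_6b977f_mp.RG.Api
import Pool.Agent.P.MP_6b977f_mp.RG.LibS2
import Pool.Agent.P.MP_6b977f_mp.RG.LibS3

/-! The posterior bounds in the language of mixtures; scores of the star are nearly functions of
one edge. -/

namespace Pool.Agent.P.MP_6b977f_mp.RG.Sb

open Finset MeasureTheory Real
open scoped Classical

section bridge
variable {ι : Type} [Fintype ι] (m : Mix ι) {v : ι → ℝ}

theorem pker (y : ι → ℝ) (ω : m.Ω) : m.p ω * ker v (y - m.x ω) = Nc v * WW m.p m.x v y ω := by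
  rw [Nc_WW]
  congr 1
  refine prod_congr rfl fun j _ => ?_
  simp only [g1, gg, Pi.sub_apply]
  rw [div_eq_inv_mul]

theorem den_eq (y : ι → ℝ) : m.den v y = Nc v * ZZ m.p m.x v y := by
  simp only [Mix.den, pker, ZZ, mul_sum]

theorem po_eq (hv : ∀ j, 0 < v j) (g : (ι → ℝ) → ℝ) (y : ι → ℝ) :
    m.po v g y = (∑ ω, WW m.p m.x v y ω * g (m.x ω)) / ZZ m.p m.x v y := by
  simp only [Mix.po, pker, den_eq, mul_assoc, ← mul_sum]
  rw [mul_div_mul_left _ _ (Nc_pos hv).ne']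

theorem sc_eq (hv : ∀ j, 0 < v j) (j : ι) (y : ι → ℝ) : m.sc v j y = SS m.p m.x v y j :=
  po_eq m hv _ y

theorem den_pos (hv : ∀ j, 0 < v j) (y : ι → ℝ) : 0 < m.den v y := by
  rw [den_eq]; exact mul_pos (Nc_pos hv) (ZZ_pos m.p0 m.p1 y)

theorem Ex_eq (g : (ι → ℝ) → ℝ) : m.Ex v g = ∫ y, Nc v * ZZ m.p m.x v y * g y := by
  simp only [Mix.Ex, den_eq, mul_comm]

theorem mom_le {L : ℝ} (h : m.E (fun x => ‖x‖ ^ 2) ≤ L) :
    ∑ ω, m.p ω * ∑ j, m.x ω j ^ 2 ≤ Fintype.card ι * L := by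
  refine le_trans ?_ (mul_le_mul_of_nonneg_left h (Nat.cast_nonneg _))
  rw [Mix.E, mul_sum]
  refine sum_le_sum fun ω _ => ?_
  rw [mul_left_comm]
  exact mul_le_mul_of_nonneg_left (sum_sq_le le_rfl) (m.p0 ω)

theorem L_nonneg {L : ℝ} (h : m.E (fun x => ‖x‖ ^ 2) ≤ L) : 0 ≤ L :=
  (sum_nonneg fun ω _ => mul_nonneg (m.p0 ω) (sq_nonneg _)).trans h

theorem Nc_ge (hv : ∀ j, 1 ≤ v j ∧ v j ≤ 4) : exp (-(5 * Fintype.card ι)) ≤ Nc v := by
  have h : ∀ j, exp (-5) ≤ (√(2 * π * v j))⁻¹ := by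
    intro j
    have h0 : 0 < v j := lt_of_lt_of_le one_pos (hv j).1
    rw [exp_neg]
    refine inv_anti₀ (by positivity) ?_
    have h1 : √(2 * π * v j) ≤ 6 := by
      rw [sqrt_le_left (by norm_num)]
      nlinarith [pi_le_four, (hv j).2, pi_pos]
    linarith [add_one_le_exp (5 : ℝ)]
  have := prod_le_prod (s := (univ : Finset ι)) (fun _ _ => (exp_pos (-5)).le) fun j _ => h j
  rw [prod_const, card_univ, ← exp_nat_mul] at this
  exact le_trans (exp_le_exp.2 (le_of_eq (by ring))) this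

theorem den_ge (hv : ∀ j, 1 ≤ v j ∧ v j ≤ 4) {C0 : ℝ}
    (hC : ∑ ω, m.p ω * ∑ j, m.x ω j ^ 2 ≤ C0) {R : ℝ} {y : ι → ℝ} (hy : ‖y‖ ≤ R) :
    exp (-(5 * Fintype.card ι + Fintype.card ι * R ^ 2 + C0)) ≤ Nc v * ZZ m.p m.x v y := by
  have h1 := ZZ_ge (x := m.x) (σ := v) m.p0 m.p1 y
  have h2 := prior_Q m.p0 m.p1 (fun j => (hv j).1) hC y
  have h3 : exp (-(Fintype.card ι * R ^ 2 + C0)) ≤ ZZ m.p m.x v y :=
    le_trans (exp_le_exp.2 (by linarith [sum_sq_le hy])) h1
  have := mul_le_mul (Nc_ge hv) h3 (exp_pos _).le ((exp_pos _).le.trans (Nc_ge hv))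
  rw [← exp_add] at this
  exact le_trans (exp_le_exp.2 (le_of_eq (by ring))) this

theorem den_le (hv : ∀ j, 1 ≤ v j) (y : ι → ℝ) : m.den v y ≤ 1 := by
  rw [← m.p1]
  refine sum_le_sum fun ω _ => mul_le_of_le_one_right (m.p0 ω) ?_
  have h0 : ∀ j, 0 < v j := fun j => lt_of_lt_of_le one_pos (hv j)
  refine prod_le_one (fun j _ => (g1_pos (h0 j) _).le) fun j _ => ?_
  have h1 : 1 ≤ √(2 * π * v j) := one_le_sqrt.2 (by nlinarith [pi_gt_three, hv j])
  rw [g1, div_le_one (by linarith)]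
  refine le_trans (exp_le_one_iff.2 ?_) h1
  have := h0 j
  rw [neg_div]
  exact neg_nonpos.2 (by positivity)

theorem hasDerivAt_log_den (hv : ∀ j, 0 < v j) (y u : ι → ℝ) (t : ℝ) :
    HasDerivAt (fun t : ℝ => log (m.den v (y + t • u))) (∑ j, u j * m.sc v j (y + t • u)) t := by
  have h := (hasDerivAt_log_ZZ (x := m.x) (σ := v) m.p0 m.p1 y u t).const_add (log (Nc v))
  simp only [sc_eq m hv, den_eq, log_mul (Nc_pos hv).ne' (ZZ_pos m.p0 m.p1 _).ne']
  exact h

end bridge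

/-- the multiplicative form of the structure of the density on a cube -/
theorem str_of_NL {d : ℕ} {F : Mix (VI d)} {v θ s T : ℝ} (hv : 0 < v) (hs : 0 ≤ s)
    (h : NL F v θ s T) (y : VI d → ℝ) (hy : ‖y‖ ≤ T) :
    |log (F.den (fun _ => v) y) - log (F.den (fun _ => v) (Pi.single none (y none))) +
      θ / 2 * ∑ k, y (some k) ^ 2| ≤ d * s * T := by
  have hT : 0 ≤ T := (norm_nonneg _).trans hy
  have := ray (fun y => log (F.den (fun _ => v) y)) (fun y j => F.sc (fun _ => v) j y)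
    (hasDerivAt_log_den F fun _ => hv) (fun y hy _ k => h y hy k) y hy rfl
  have h2 : (Fintype.card (Fin (d - 1)) : ℝ) ≤ d := by
    rw [Fintype.card_fin]; exact_mod_cast Nat.sub_le d 1
  refine le_trans (by convert this) ?_
  nlinarith [mul_le_mul_of_nonneg_right h2 (mul_nonneg hT hs)]

section loc
variable {d : ℕ} (P : Par d)

include P in
theorem card_VI : (Fintype.card (VI d) : ℝ) = d := by
  have := P.hd
  rw [Fintype.card_option, Fintype.card_fin, Nat.sub_add_cancel (by omega)]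

theorem norm_ed (i : Fin d) (y : SI d → ℝ) : ‖P.ed i y‖ ≤ (1 + d) * ‖vp y‖ + 7 * |y none| := by
  have a : |y (some none)| ≤ ‖vp y‖ := norm_le_pi_norm (vp y) none
  have c := P.abs_ci i (vp y)
  have o : |y none / P.cs| ≤ 7 * |y none| := by
    rw [abs_div, abs_of_pos P.cs_pos, div_le_iff₀ P.cs_pos]
    nlinarith [P.cs_ge, abs_nonneg (y none)]
  have b : ∀ α x : ℝ, 0 < α → α ≤ 1 → |α * x| ≤ |x| := fun α x h0 h1 => by
    rw [abs_mul, abs_of_pos h0]; exact mul_le_of_le_one_left (abs_nonneg _) h1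
  refine (pi_norm_le_iff_of_nonneg (by positivity)).2 fun j => ?_
  fin_cases j
  · refine (abs_add_three _ _ _).trans ?_
    linarith [b _ (y (some none)) P.cs_pos P.cs_le, b _ (P.ci i (vp y)) P.sn_pos P.sn_le]
  · refine (abs_sub _ _).trans ?_
    linarith [b _ (y (some none)) P.sn_pos P.sn_le, b _ (P.ci i (vp y)) P.cs_pos P.cs_le,
      abs_nonneg (y none)]

theorem ed_sub (i : Fin d) (y y' : SI d → ℝ) : P.ed i y - P.ed i y' = P.ed i (y - y') := by
  have : P.ci i (vp (y - y')) = P.ci i (vp y) - P.ci i (vp y') := by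
    simp only [Par.ci, vp, Pi.sub_apply, mul_sub, sum_sub_distrib]
  funext j
  fin_cases j <;> simp [Par.ed, this] <;> ring

theorem cont_ed (i : Fin d) : Continuous (P.ed i) := by
  refine continuous_pi fun j => ?_
  fin_cases j <;> simp only [Par.ed, Par.ci, vp] <;> simp <;> fun_prop

theorem ed_cons (i : Fin d) (y : VI d → ℝ) :
    P.ed i (cons 0 y) = P.ed0 (y none) (P.ci i y) := by
  have : vp (cons 0 y) = y := rfl
  simp [Par.ed, Par.ed0, this, cons]

theorem edge_mom (m : Mix (SI d)) {L : ℝ} (h : m.E (fun x => ‖x‖ ^ 2) ≤ L) :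
    ∑ ω, (P.edge m).p ω * ∑ j, (P.edge m).x ω j ^ 2 ≤ 2 * (8 + d) ^ 2 * L := by
  have h3 := P.d3
  have k : ∀ ω : m.Ω × Fin d, (P.edge m).p ω * ∑ j, (P.edge m).x ω j ^ 2 ≤
      2 * (8 + d) ^ 2 / d * (m.p ω.1 * ‖m.x ω.1‖ ^ 2) := by
    intro ω
    have n : ‖P.ed ω.2 (m.x ω.1)‖ ≤ (8 + d) * ‖m.x ω.1‖ := by
      have a := norm_ed P ω.2 (m.x ω.1)
      have b : |m.x ω.1 none| ≤ ‖m.x ω.1‖ := norm_le_pi_norm (m.x ω.1) none
      nlinarith [norm_vp (m.x ω.1)]
    have s := sum_sq_le n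
    rw [Fintype.card_fin] at s
    have := mul_le_mul_of_nonneg_left s (div_nonneg (m.p0 ω.1) (by linarith : (0 : ℝ) ≤ d))
    refine le_trans this (le_of_eq ?_)
    push_cast
    ring
  refine (sum_le_sum (s := (univ : Finset (m.Ω × Fin d))) fun ω _ => k ω).trans ?_
  rw [Fintype.sum_prod_type]
  simp only [sum_const, card_univ, Fintype.card_fin, nsmul_eq_mul, ← mul_sum]
  have : ∑ ω, m.p ω * ‖m.x ω‖ ^ 2 ≤ L := h
  have e : (d : ℝ) * (2 * (8 + d) ^ 2 / d * ∑ ω, m.p ω * ‖m.x ω‖ ^ 2) =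
      2 * (8 + d) ^ 2 * ∑ ω, m.p ω * ‖m.x ω‖ ^ 2 := by field_simp
  rw [e]
  exact mul_le_mul_of_nonneg_left this (by positivity)

variable {P} {m : Mix (SI d)} {κ t ε c0 L : ℝ}

theorem ve_ge (h : P.Stab m κ t ε c0 L) (j : Fin 2) : 1 ≤ P.ve κ t j := by
  have := h.t1
  fin_cases j
  · simp only [Par.ve]; simp; nlinarith [sq_nonneg κ, div_nonneg (sq_nonneg κ) (sq_nonneg P.cs)]
  · simp only [Par.ve]; simp; nlinarith [sq_nonneg κ]

theorem vs_pos (h : P.Stab m κ t ε c0 L) (l : SI d) : 0 < vs d κ t l := by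
  have := h.t1
  have := h.k0
  rcases l with _ | j
  · simp only [vs, Option.elim]; positivity
  · simp only [vs, Option.elim]; positivity

theorem v_mem (h : P.Stab m κ t ε c0 L) : 1 ≤ κ ^ 2 + t ∧ κ ^ 2 + t ≤ 3 := by
  have := h.t1
  have := h.t2
  have := h.k0
  have := h.k1.trans P.cs_le
  constructor <;> nlinarith

/-- a linear combination of the edge scores -/
noncomputable def zz (P : Par d) (m : Mix (SI d)) (κ t α β : ℝ) (e : Fin 2 → ℝ) : ℝ :=
  α * SS (P.edge m).p (P.edge m).x (P.ve κ t) e 0 + β * SS (P.edge m).p (P.edge m).x (P.ve κ t) e 1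

theorem zz_cont (α β : ℝ) : Continuous (zz P m κ t α β) :=
  (continuous_const.mul (cont_SS (P.edge m).p0 (P.edge m).p1 0)).add
    (continuous_const.mul (cont_SS (P.edge m).p0 (P.edge m).p1 1))

theorem zz_le (h : P.Stab m κ t ε c0 L) {α β : ℝ} (hα : |α| ≤ 1) (hβ : |β| ≤ 1) (e : Fin 2 → ℝ) :
    |zz P m κ t α β e| ≤ 2 * (3 * ‖e‖ + (1 + 2 * (8 + d) ^ 2 * L)) := by
  have hL := L_nonneg m h.mom
  set C1 := 2 * (8 + (d : ℝ)) ^ 2 * L with hC1
  have h1 : 0 ≤ C1 := by positivity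
  have k : ∀ j, |SS (P.edge m).p (P.edge m).x (P.ve κ t) e j| ≤ 3 * ‖e‖ + (1 + C1) := by
    intro j
    have a := SS_sq (P.edge m).p0 (P.edge m).p1 (ve_ge h) (edge_mom P m h.mom) e j
    have b := sum_sq_le (le_refl ‖e‖)
    rw [Fintype.card_fin] at a b
    push_cast at a b
    refine abs_le_of_sq_le_sq ?_ (by positivity)
    nlinarith [norm_nonneg e, sq_nonneg (1 - C1), mul_nonneg (norm_nonneg e) h1]
  refine (abs_add_le _ _).trans ?_
  rw [abs_mul, abs_mul]
  linarith [mul_le_mul hα (k 0) (abs_nonneg _) zero_le_one,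
    mul_le_mul hβ (k 1) (abs_nonneg _) zero_le_one]

theorem zz_lip (h : P.Stab m κ t ε c0 L) {α β : ℝ} (hα : |α| ≤ 1) (hβ : |β| ≤ 1) {R : ℝ}
    {e e' : Fin 2 → ℝ} (he : ‖e‖ ≤ R) (he' : ‖e'‖ ≤ R) :
    |zz P m κ t α β e' - zz P m κ t α β e| ≤
      2 * (1 + 16 * R ^ 2 + 16 * (8 + d) ^ 2 * L) * ‖e' - e‖ := by
  have k := fun j => SS_lip (P.edge m).p0 (P.edge m).p1 (ve_ge h) (edge_mom P m h.mom) he he' j
  simp only [Fintype.card_fin, Nat.cast_ofNat] at k
  have e1 : zz P m κ t α β e' - zz P m κ t α β e =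
      α * (SS (P.edge m).p (P.edge m).x (P.ve κ t) e' 0 - SS (P.edge m).p (P.edge m).x (P.ve κ t) e 0) +
      β * (SS (P.edge m).p (P.edge m).x (P.ve κ t) e' 1 - SS (P.edge m).p (P.edge m).x (P.ve κ t) e 1) := by
    unfold zz; ring
  rw [e1]
  refine (abs_add_le _ _).trans ?_
  rw [abs_mul, abs_mul]
  linarith [mul_le_mul hα (k 0) (abs_nonneg _) zero_le_one,
    mul_le_mul hβ (k 1) (abs_nonneg _) zero_le_one]

theorem zz_growth (h : P.Stab m κ t ε c0 L) {α β : ℝ} (hα : |α| ≤ 1) (hβ : |β| ≤ 1) (i : Fin d) :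
    ∃ C : ℝ, ∀ y, |zz P m κ t α β (P.ed i y)| ≤ C * (1 + ‖y‖) := by
  have hL := L_nonneg m h.mom
  have h3 := P.d3
  refine ⟨6 * (8 + d) + 2 * (1 + 2 * (8 + d) ^ 2 * L), fun y => (zz_le h hα hβ _).trans ?_⟩
  have a := norm_ed P i y
  have b : |y none| ≤ ‖y‖ := norm_le_pi_norm y none
  have c : 0 ≤ 1 + 2 * (8 + (d : ℝ)) ^ 2 * L := by positivity
  nlinarith [norm_vp y, norm_nonneg y, mul_nonneg c (norm_nonneg y)]

theorem loc0 {K1 Ae A T s α β : ℝ} (hK : 0 ≤ K1) (b : VI d → ℝ) (i : Fin d)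
    (hAe : 1 + 1296 * d ^ 4 + 16 * (8 + d) ^ 2 * L ≤ Ae) (hA1 : 14 * Ae ≤ A)
    (hA2 : 2 * (1 + d) * Ae + d * (1 + 64 * d ^ 4 + 4 * d ^ 2 * L) ≤ A)
    (hA3 : 5 * d + 16 * d ^ 3 + d * L ≤ A)
    (h : P.Stab m κ t ε c0 L) (hT : 1 ≤ T) (hs : 0 < s) (hs1 : s ≤ 1)
    (hε : ε * exp ((8 * K1 + 17 + (d + 3) * A) * T ^ 2) ≤ s ^ (d + 2)) (hα : |α| ≤ 1) (hβ : |β| ≤ 1)
    (hb : ∀ j, |b j| ≤ 1)
    (hI : ∫ y, Nc (vs d κ t) * ZZ m.p m.x (vs d κ t) y *
      (∑ j, b j * SS m.p m.x (vs d κ t) y (some j) - zz P m κ t α β (P.ed i y)) ^ 2 ≤ K1 * ε) :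
    ∀ y : VI d → ℝ, ‖y‖ ≤ 3 * d * T →
      |∑ j, b j * SS m.p (m.map vp).x (fun _ => κ ^ 2 + t) y j -
        zz P m κ t α β (P.ed0 (y none) (P.ci i y))| ≤ s := by
  have hL := L_nonneg m h.mom
  have hAe0 : 1 ≤ Ae := le_trans (by rw [add_assoc]; exact le_add_of_nonneg_right (by positivity)) hAe
  have hA0 : 1 ≤ A := by linarith
  have h3 := P.d3
  have hε0 : 0 < ε := lt_of_lt_of_le (pow_pos h.k0 2) h.k2
  have hT2 : 1 ≤ T ^ 2 := one_le_pow₀ hT
  have hdT : T ≤ d * T := le_mul_of_one_le_left (by linarith) (by linarith)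
  have hR1 : 3 * d * T + 1 ≤ 4 * d * T := by linarith
  have hR2 : (1 + d) * (4 * d * T) + 7 ≤ 9 * d ^ 2 * T := by
    have k1 : 3 * (d * T) ≤ d * (d * T) := mul_le_mul_of_nonneg_right h3 (by linarith)
    have k2 : 3 * T ≤ d * T := mul_le_mul_of_nonneg_right h3 (by linarith)
    linarith
  have hLe : 1 + 16 * (9 * d ^ 2 * T) ^ 2 + 16 * (8 + d) ^ 2 * L ≤ Ae * T ^ 2 := by
    have : 0 ≤ 16 * (8 + (d : ℝ)) ^ 2 * L := by positivity
    have k1 := mul_le_mul_of_nonneg_left hT2 this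
    have k2 := mul_le_mul_of_nonneg_right hAe (sq_nonneg T)
    linarith
  have hen : ∀ (y : VI d → ℝ) (u : ℝ), ‖y‖ ≤ 3 * d * T + 1 →
      ‖P.ed i (cons u y)‖ ≤ (1 + d) * (4 * d * T) + 7 * |u| := by
    intro y u hy
    have a := norm_ed P i (cons u y)
    have e1 : vp (cons u y) = y := rfl
    have e2 : cons u y none = u := rfl
    rw [e1, e2] at a
    have := mul_le_mul_of_nonneg_left (hy.trans hR1) (by linarith : (0 : ℝ) ≤ 1 + d)
    linarith
  obtain ⟨Cg, hCg⟩ := zz_growth h hα hβ i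
  have hdrop := drop (X := m.x) m.p0 m.p1 (vs_pos h) b ((zz_cont α β).comp (cont_ed P i)) hCg
    (R := 3 * d * T + 1) (Λ := A * T ^ 2) (by
      intro y u hy
      have n0 := hen y 0 hy
      have n1 := hen y u hy
      rw [abs_zero] at n0
      have hAT : 14 * (Ae * T ^ 2) ≤ A * T ^ 2 := by
        rw [← mul_assoc]; exact mul_le_mul_of_nonneg_right (by linarith) (by positivity)
      refine le_trans ?_ (mul_le_mul_of_nonneg_right hAT (abs_nonneg u))
      simp only [Function.comp]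
      rcases le_total |u| 1 with hu | hu
      · have a := zz_lip h hα hβ (R := 9 * d ^ 2 * T) (e := P.ed i (cons 0 y)) (e' := P.ed i (cons u y))
          (by linarith) (by linarith)
        have n := norm_ed P i (cons u y - cons 0 y)
        have e1 : vp (cons u y - cons 0 y) = 0 := by funext j; simp [vp, cons]
        have e2 : (cons u y - cons 0 y) none = u := by simp [cons]
        rw [e1, e2, norm_zero, mul_zero, zero_add, ← ed_sub] at n
        have := mul_le_mul (mul_le_mul_of_nonneg_left hLe zero_le_two) n (norm_nonneg _)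
          (by positivity)
        linarith
      · have a := zz_le h hα hβ (P.ed i (cons u y))
        have a0 := zz_le h hα hβ (P.ed i (cons 0 y))
        refine (abs_sub _ _).trans ?_
        obtain ⟨W, hW⟩ : ∃ W, W = 9 * (d : ℝ) ^ 2 * T := ⟨_, rfl⟩
        obtain ⟨C1, hC1⟩ : ∃ C1, C1 = (8 + (d : ℝ)) ^ 2 * L := ⟨_, rfl⟩
        have hC10 : 0 ≤ C1 := by rw [hC1]; positivity
        have k0 : 0 ≤ (1 + d) * (4 * d * T) := by positivity
        rw [← hW] at hR2 hLe
        rw [mul_assoc 16 _ L, ← hC1] at hLe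
        have hW7 : 7 ≤ W := by linarith
        have k1 : 12 * W + 4 + 8 * C1 + 42 ≤ 14 * (Ae * T ^ 2) := by
          have : 7 * W ≤ W * W := mul_le_mul_of_nonneg_right hW7 (by linarith)
          linarith
        have k2 := mul_le_mul_of_nonneg_right k1 (abs_nonneg u)
        have k3 : 12 * W + 4 + 8 * C1 ≤ (12 * W + 4 + 8 * C1) * |u| :=
          le_mul_of_one_le_right (by positivity) hu
        have e3 : 2 * (8 + (d : ℝ)) ^ 2 * L = 2 * C1 := by rw [hC1]; ring
        rw [e3] at a a0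
        linarith)
  have hom : ∑ ω, m.p ω * (m.x ω none ^ 2 + vs d κ t none) ≤ 2 * ε := by
    have a : ∑ ω, m.p ω * m.x ω none ^ 2 ≤ ε := h.om
    have e1 : vs d κ t none = κ ^ 2 := rfl
    simp only [mul_add, sum_add_distrib, ← sum_mul, m.p1, e1]
    linarith [h.k2]
  have hv := v_mem h
  have hFm := mom_le (m.map vp) (L := L) ((m.E_mono fun x =>
    pow_le_pow_left₀ (norm_nonneg _) (norm_vp x) 2).trans h.mom)
  rw [card_VI P] at hFm
  have hcons : Continuous fun y : VI d → ℝ => cons 0 y := by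
    refine continuous_pi fun l => ?_
    rcases l with _ | j
    · exact continuous_const
    · exact continuous_apply j
  have hsup := sup_of_L2
    (fun y => ∑ j, b j * SS m.p (m.map vp).x (fun _ => κ ^ 2 + t) y j -
      zz P m κ t α β (P.ed i (cons 0 y)))
    (fun y => Nc (fun _ : VI d => κ ^ 2 + t) * ZZ m.p (m.map vp).x (fun _ => κ ^ 2 + t) y)
    (T := 3 * d * T) (L := A * T ^ 2) (m := exp (-(A * T ^ 2))) (δ := s / 2)
    (e := 2 * (K1 * ε) + 2 * (A * T ^ 2) ^ 2 * (2 * ε)) (by linarith)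
    (by linarith [one_le_mul_of_one_le_of_one_le hA0 hT2]) (exp_pos _).le
    (by
      intro y y' hy hy'
      have a := zz_lip h hα hβ (R := 9 * d ^ 2 * T) (e := P.ed i (cons 0 y)) (e' := P.ed i (cons 0 y'))
        (by linarith [hen y 0 hy, abs_zero (α := ℝ)]) (by linarith [hen y' 0 hy', abs_zero (α := ℝ)])
      have n := norm_ed P i (cons 0 y' - cons 0 y)
      have e1 : vp (cons 0 y' - cons 0 y) = y' - y := rfl
      have e2 : (cons 0 y' - cons 0 y) none = 0 := by simp [cons]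
      rw [e1, e2, abs_zero, mul_zero, add_zero, ← ed_sub] at n
      have a1 := mul_le_mul (mul_le_mul_of_nonneg_left hLe zero_le_two) n (norm_nonneg _)
        (by positivity)
      have k := fun j => SS_lip (x := (m.map vp).x) (σ := fun _ => κ ^ 2 + t) m.p0 m.p1
        (fun _ => hv.1) hFm (hy.trans hR1) (hy'.trans hR1) j
      rw [card_VI P] at k
      have hLF : 1 + 2 * (d * (2 * (d * (4 * d * T) ^ 2) + 2 * (d * L))) ≤
          (1 + 64 * d ^ 4 + 4 * d ^ 2 * L) * T ^ 2 := by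
        have : 0 ≤ 4 * (d : ℝ) ^ 2 * L := by positivity
        linarith [mul_le_mul_of_nonneg_left hT2 this]
      have a2 : |∑ j, b j * SS m.p (m.map vp).x (fun _ => κ ^ 2 + t) y' j -
          ∑ j, b j * SS m.p (m.map vp).x (fun _ => κ ^ 2 + t) y j| ≤
          d * ((1 + 64 * d ^ 4 + 4 * d ^ 2 * L) * T ^ 2 * ‖y' - y‖) := by
        rw [← sum_sub_distrib]
        refine (abs_sum_le_sum_abs _ _).trans ?_
        have := sum_le_sum fun j (_ : j ∈ (univ : Finset (VI d))) =>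
          ((congrArg abs (mul_sub (b j) _ _).symm).trans (abs_mul _ _)).le.trans
            (mul_le_mul (hb j) ((k j).trans (mul_le_mul_of_nonneg_right hLF (norm_nonneg _)))
              (abs_nonneg _) zero_le_one)
        rwa [sum_const, card_univ, nsmul_eq_mul, card_VI P, one_mul] at this
      have hAT : (2 * (1 + d) * Ae + d * (1 + 64 * d ^ 4 + 4 * d ^ 2 * L)) * (T ^ 2 * ‖y' - y‖) ≤
          A * (T ^ 2 * ‖y' - y‖) := mul_le_mul_of_nonneg_right (by linarith) (by positivity)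
      rw [abs_le] at a a2 ⊢
      constructor <;> linarith [a.1, a.2, a2.1, a2.2])
    (by
      intro y hy
      have a := den_ge (m.map vp) (v := fun _ => κ ^ 2 + t) (fun _ => ⟨hv.1, by linarith [hv.2]⟩)
        hFm (hy.trans hR1)
      rw [card_VI P] at a
      refine le_trans (exp_le_exp.2 (neg_le_neg ?_)) a
      have k1 : (5 * d + 16 * d ^ 3 + d * L) * T ^ 2 ≤ A * T ^ 2 :=
        mul_le_mul_of_nonneg_right (by linarith) (by positivity)
      have : 0 ≤ 5 * (d : ℝ) + d * L := by positivity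
      linarith [mul_le_mul_of_nonneg_left hT2 this])
    (ContinuousOn.integrableOn_compact (isCompact_closedBall _ _) (Continuous.continuousOn
      ((continuous_const.mul cont_ZZ).mul
        (((continuous_finsetSum _ fun j _ => continuous_const.mul (cont_SS m.p0 m.p1 _)).sub
          ((zz_cont α β).comp ((cont_ed P i).comp hcons))).pow 2))))
    (hdrop.trans (add_le_add (mul_le_mul_of_nonneg_left hI zero_le_two)
      (mul_le_mul_of_nonneg_left hom (by positivity))))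
    (by
      have hc : Fintype.card (VI d) = d := by exact_mod_cast card_VI P
      rw [hc]
      obtain ⟨X, hX⟩ : ∃ X, X = A * T ^ 2 := ⟨_, rfl⟩
      rw [← hX]
      have hX1 : 1 ≤ X := hX ▸ one_le_mul_of_one_le_of_one_le hA0 hT2
      have hXe : X ≤ exp X := by linarith [add_one_le_exp X]
      have e1 : exp (-X) * (s / 2) ^ 2 * (2 * (s / 2 / X)) ^ d = s ^ (d + 2) / (4 * X ^ d * exp X) := by
        rw [exp_neg, show 2 * (s / 2 / X) = s / X by ring, div_pow s X]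
        field_simp
        ring
      rw [e1, lt_div_iff₀ (by positivity)]
      refine lt_of_lt_of_le ?_ hε
      have e2 : exp ((8 * K1 + 17 + (d + 3) * A) * T ^ 2) =
          exp ((8 * K1 + 17) * T ^ 2) * exp X ^ 2 * (exp X ^ d * exp X) := by
        rw [← exp_nat_mul, ← exp_nat_mul, ← exp_add, ← exp_add, ← exp_add, hX]
        congr 1
        push_cast
        ring
      have k1 : 8 * K1 + 17 ≤ exp ((8 * K1 + 17) * T ^ 2) := by
        have := add_one_le_exp ((8 * K1 + 17) * T ^ 2)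
        have := le_mul_of_one_le_right (by linarith : 0 ≤ 8 * K1 + 17) hT2
        linarith
      have k2 : X ^ 2 ≤ exp X ^ 2 := pow_le_pow_left₀ (by linarith) hXe 2
      have k3 : X ^ d ≤ exp X ^ d := pow_le_pow_left₀ (by linarith) hXe d
      have k4 : 1 ≤ X ^ 2 := one_le_pow₀ hX1
      have k5 : 8 * K1 + 16 * X ^ 2 < exp ((8 * K1 + 17) * T ^ 2) * exp X ^ 2 := by
        have := mul_le_mul k1 k2 (by positivity) (exp_pos _).le
        have := le_mul_of_one_le_right hK k4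
        linarith
      have k6 := mul_lt_mul k5 (mul_le_mul_of_nonneg_right k3 (exp_pos X).le) (by positivity)
        (by positivity)
      rw [e2]
      have := mul_lt_mul_of_pos_left k6 hε0
      linarith)
  intro y hy
  have := hsup y hy
  rw [ed_cons] at this
  linarith

end loc

end Pool.Agent.P.MP_6b977f_mp.RG.Sb
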