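import Pool.Agent.P.MP_6b977f_mp.RG.IfaceA
import Pool.Agent.P.MP_6b977f_mp.RG.LibS4

/-! Step POST. -/

namespace Pool.Agent.P.MP_6b977f_mp.RG

open Finset MeasureTheory Real
open scoped Classical

open Sb in
theorem p_POST :
    S_POST := by
  intro ι _ L
  obtain ⟨n, hn⟩ : ∃ n : ℝ, n = Fintype.card ι := ⟨_, rfl⟩
  have n0 : 0 ≤ n := by rw [hn]; positivity
  obtain ⟨K, hK⟩ : ∃ K : ℝ, K = 2 * n ^ 2 * (1 + |L|) := ⟨_, rfl⟩
  have K0 : 0 ≤ K := by rw [hK]; positivity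
  have t0 : 0 ≤ n * |L| := by positivity
  refine ⟨1 + 2 * K + (6 * n + n * |L|), by linarith, fun m v y hv h => ?_⟩
  have hL := L_nonneg m h
  rw [abs_of_nonneg hL] at hK t0 ⊢
  have hv1 : ∀ j, 1 ≤ v j := fun j => (hv j).1
  have hv0 : ∀ j, 0 < v j := fun j => lt_of_lt_of_le one_pos (hv1 j)
  have hm := mom_le m h
  have y0 := norm_nonneg y
  have r1 : 1 ≤ (1 + ‖y‖) ^ 2 := one_le_pow₀ (by linarith)
  have r2 : ‖y‖ ^ 2 ≤ (1 + ‖y‖) ^ 2 := pow_le_pow_left₀ y0 (by linarith) 2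
  have hB : (Fintype.card ι : ℝ) * (2 * ∑ j, y j ^ 2 + 2 * (Fintype.card ι * L)) ≤
      K * (1 + ‖y‖) ^ 2 := by
    have a := mul_le_mul_of_nonneg_left (sum_sq_le (le_refl ‖y‖)) n0
    rw [← hn] at a ⊢
    have b := mul_le_mul_of_nonneg_left r2 (sq_nonneg n)
    have c := mul_le_mul_of_nonneg_left r1 (mul_nonneg (sq_nonneg n) hL)
    rw [hK]
    linarith
  have hs : ∀ j, m.sc v j y ^ 2 ≤ K * (1 + ‖y‖) ^ 2 := fun j => by
    rw [sc_eq m hv0]; exact (SS_sq m.p0 m.p1 hv1 hm y j).trans hB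
  have t1 : 0 ≤ (6 * n + n * L) * (1 + ‖y‖) ^ 2 := by positivity
  refine ⟨?_, den_le m hv1 y, fun j => ?_, fun j k => ?_⟩
  · rw [den_eq]
    refine le_trans (exp_le_exp.2 (neg_le_neg ?_)) (den_ge m hv hm (le_refl ‖y‖))
    rw [← hn]
    have b := mul_le_mul_of_nonneg_left r2 n0
    have c := mul_le_mul_of_nonneg_left r1 (by positivity : 0 ≤ 5 * n + n * L)
    have e := mul_nonneg (by linarith : 0 ≤ 1 + 2 * K) (sq_nonneg (1 + ‖y‖))
    linarith
  · refine abs_le_of_sq_le_sq ((hs j).trans ?_) (by positivity)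
    rw [mul_pow]
    refine mul_le_mul_of_nonneg_right ?_ (sq_nonneg _)
    have : 0 ≤ 6 * n + n * L := by positivity
    nlinarith
  · have hZ := ZZ_pos (x := m.x) (σ := v) m.p0 m.p1 y
    have a : |m.po v (fun x => (x j - y j) / v j * ((x k - y k) / v k)) y| ≤ K * (1 + ‖y‖) ^ 2 := by
      rw [po_eq m hv0, abs_div, abs_of_pos hZ, div_le_iff₀ hZ]
      refine le_trans ?_ ((post_A2 m.p0 m.p1 hv1 hm y).trans (mul_le_mul_of_nonneg_right hB hZ.le))
      refine (abs_sum_le_sum_abs _ _).trans (sum_le_sum fun ω _ => ?_)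
      rw [abs_mul, abs_of_nonneg (WW_nonneg m.p0 y ω), abs_mul, sq]
      exact mul_le_mul_of_nonneg_left (mul_le_mul (abs_le_AA y _ j) (abs_le_AA y _ k) (abs_nonneg _)
        (AA_nonneg _)) (WW_nonneg m.p0 y ω)
    have b : |m.sc v j y * m.sc v k y| ≤ K * (1 + ‖y‖) ^ 2 := by
      rw [abs_le]
      constructor <;> nlinarith [hs j, hs k, sq_nonneg (m.sc v j y + m.sc v k y),
        sq_nonneg (m.sc v j y - m.sc v k y)]
    have c : |ind (j = k) / v j| ≤ 1 := by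
      rw [abs_of_nonneg (div_nonneg (ind_nonneg _) (hv0 j).le)]
      exact (div_le_self (ind_nonneg _) (hv1 j)).trans (ind_le _)
    unfold Mix.dsc
    rw [abs_le] at a b c ⊢
    constructor <;> linarith [a.1, a.2, b.1, b.2, c.1, c.2]

end Pool.Agent.P.MP_6b977f_mp.RG
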