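import Pool.Agent.P.MP_6b977f_mp.RG.IfaceA

/-! Step PUSH. -/

namespace Pool.Agent.P.MP_6b977f_mp.RG

open Finset MeasureTheory Real
open scoped Classical

namespace PUSHx

open ProbabilityTheory

variable {ι : Type} [Fintype ι] {v : ι → ℝ}

/-- the Gaussian measure -/
noncomputable def mu (v x : ι → ℝ) : Measure (ι → ℝ) :=
  volume.withDensity fun y => ENNReal.ofReal (ker v (y - x))

lemma meas (v x : ι → ℝ) : Measurable fun y : ι → ℝ => ker v (y - x) := by
  unfold ker g1
  fun_prop

lemma int_mu {E : Type} [NormedAddCommGroup E] [NormedSpace ℝ E] (hv : ∀ j, 0 < v j) (x : ι → ℝ)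
    (f : (ι → ℝ) → E) : ∫ y, f y ∂(mu v x) = ∫ y, ker v (y - x) • f y := by
  rw [mu, integral_withDensity_eq_integral_toReal_smul (meas v x).ennreal_ofReal
    (ae_of_all _ fun _ => ENNReal.ofReal_lt_top)]
  simp only [ENNReal.toReal_ofReal (ker_pos hv _).le]

lemma one {s : ℝ} (hs : 0 < s) (x c : ℝ) :
    ∫ u : ℝ, (g1 s (u - x) : ℂ) * Complex.exp (c * u * Complex.I) =
      Complex.exp (c * x * Complex.I - s * c ^ 2 / 2) := by
  lift s to NNReal using hs.le
  have h := charFun_gaussianReal (μ := x) (v := s) c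
  rw [charFun_apply_real, integral_gaussianReal_eq_integral_smul
    (show s ≠ 0 by exact_mod_cast hs.ne')] at h
  refine Eq.trans ?_ h
  congr 1
  funext u
  rw [Complex.real_smul, gaussianPDFReal, g1, div_eq_inv_mul]

lemma chr (hv : ∀ j, 0 < v j) (x c : ι → ℝ) :
    ∫ y, Complex.exp ((∑ j, c j * y j : ℝ) * Complex.I) ∂(mu v x) =
      Complex.exp ((∑ j, c j * x j : ℝ) * Complex.I - (∑ j, v j * c j ^ 2 : ℝ) / 2) := by
  rw [int_mu hv]
  have e : ∀ y : ι → ℝ, ker v (y - x) • Complex.exp ((∑ j, c j * y j : ℝ) * Complex.I) =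
      ∏ j, ((g1 (v j) (y j - x j) : ℂ) * Complex.exp (c j * y j * Complex.I)) := by
    intro y
    rw [Complex.real_smul, ker, prod_mul_distrib, ← Complex.exp_sum, ← sum_mul]
    push_cast
    rfl
  simp only [e]
  rw [integral_fintype_prod_volume_eq_prod
    (fun j (u : ℝ) => (g1 (v j) (u - x j) : ℂ) * Complex.exp (c j * u * Complex.I))]
  simp only [one (hv _)]
  rw [← Complex.exp_sum, sum_sub_distrib, ← sum_mul, ← sum_div]
  push_cast
  rfl

lemma fin (hKER : S_KER) (hv : ∀ j, 0 < v j) (x : ι → ℝ) : IsFiniteMeasure (mu v x) := by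
  have h := (hKER ι v x hv).1 _ (PG.const 1)
  simp only [one_mul] at h
  exact isFiniteMeasure_withDensity_ofReal h.2

lemma dual (L : StrongDual ℝ (ι → ℝ)) (z : ι → ℝ) : L z = ∑ k, L (Pi.single k 1) * z k := by
  conv_lhs => rw [pi_eq_sum_univ' z]
  simp only [map_sum, map_smul, smul_eq_mul, mul_comm]

end PUSHx

open PUSHx in
theorem p_PUSH (hKER : S_KER) :
    S_PUSH := by
  intro ι κ _ _ B v x w g hv hw h1 h2 hg
  have hB : Measurable fun (y : ι → ℝ) (k : κ) => ∑ j, B k j * y j := by fun_prop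
  have := fin hKER hv x
  have := fin hKER hw fun k => ∑ j, B k j * x j
  have sw : ∀ (c : κ → ℝ) (y : ι → ℝ),
      ∑ k, c k * ∑ j, B k j * y j = ∑ j, (∑ k, c k * B k j) * y j := by
    intro c y
    simp only [mul_sum, sum_mul, mul_assoc]
    exact sum_comm
  have key : (mu v x).map (fun y k => ∑ j, B k j * y j) = mu w fun k => ∑ j, B k j * x j := by
    refine Measure.ext_of_charFunDual (funext fun L => ?_)
    rw [charFunDual_apply, charFunDual_apply, integral_map hB.aemeasurable (by fun_prop)]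
    obtain ⟨c, e⟩ : ∃ c : κ → ℝ, ∀ z, L z = ∑ k, c k * z k := ⟨_, dual L⟩
    simp only [e]
    rw [chr hw]
    simp only [sw]
    rw [chr hv]
    congr 4
    have e2 : ∀ j, v j * (∑ k, c k * B k j) ^ 2 =
        ∑ k, ∑ l, c k * c l * (B k j * B l j * v j) := by
      intro j
      rw [sq, sum_mul_sum, mul_sum]
      refine sum_congr rfl fun k _ => ?_
      rw [mul_sum]
      exact sum_congr rfl fun l _ => by ring
    simp only [e2]
    rw [sum_comm]
    refine sum_congr rfl fun k _ => ?_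
    rw [sum_comm, sum_eq_single k]
    · rw [← mul_sum, ← h1 k]
      simp only [sq]
      ring
    · intro l _ hl
      rw [← mul_sum, h2 k l (Ne.symm hl), mul_zero]
    · simp
  have h3 := int_mu hw (fun k => ∑ j, B k j * x j) g
  rw [← key, integral_map hB.aemeasurable hg.1.aestronglyMeasurable, int_mu hv] at h3
  simpa only [smul_eq_mul, mul_comm] using h3

end Pool.Agent.P.MP_6b977f_mp.RG
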