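import Pool.Agent.P.MP_6b977f_mp.RG.IfaceB
import Pool.Agent.P.MP_6b977f_mp.RG.Lib91

/-! Step SP. -/

namespace Pool.Agent.P.MP_6b977f_mp.RG

open Finset MeasureTheory Real
open scoped Classical

theorem p_SP (hPAIR : S_PAIR) :
    S_SP := by
  intro d e0 hd he
  obtain ⟨k, hk⟩ := exists_nat_one_div_lt he
  obtain ⟨c, c0, C, C0, h⟩ := X91.sp d (k + 1) hd k.succ_pos
  refine ⟨c, c0, fun ε hε => ?_⟩
  obtain ⟨N0, hN0⟩ := exists_nat_gt (C / ε)
  refine ⟨N0, fun N hN => ?_⟩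
  have h1 := h (Fin N) (Fin d) (Fintype.card_fin d)
  have h2 : C / ε < N := hN0.trans_le (Nat.cast_le.2 hN)
  have h3 : (0 : ℝ) < N := (div_nonneg C0 hε.le).trans_lt h2
  rw [Fintype.card_fin] at h1
  refine le_of_mul_le_mul_right (le_trans (mul_le_mul_of_nonneg_right (Nat.cast_le.2
    (card_le_card fun M hM => ?_)) h3.le) (h1.trans ?_)) h3
  · rw [mem_filter] at hM ⊢
    refine ⟨hM.1, fun u => hM.2 fun U hU => (u U hU).trans ?_⟩
    push_cast
    exact mul_le_mul_of_nonneg_right (by linarith) (Nat.cast_nonneg _)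
  · rw [div_lt_iff₀ hε] at h2
    rw [mul_right_comm]
    exact mul_le_mul_of_nonneg_right (by linarith) (Nat.cast_nonneg _)

end Pool.Agent.P.MP_6b977f_mp.RG
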