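import Pool.Agent.P.MP_6b977f_mp.RG.LibM43

/-! Finite Gaussian mixtures: the lower bound on the curvature and the product form of the
characteristic function of the centres. -/

set_option linter.unusedSectionVars false

namespace Pool.Agent.P.MP_6b977f_mp.RG.H43

open MeasureTheory Finset Real

variable {K : Type} [Fintype K] [DecidableEq K] {Ω : Type} [Fintype Ω] {μ : Ω → ℝ}
  {X : Ω → Option K → ℝ} {v : ℝ}

/-- the density of the mixture -/
noncomputable def mx (μ : Ω → ℝ) (X : Ω → Option K → ℝ) (v : ℝ) (y : Option K → ℝ) : ℝ :=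
  ∑ s, μ s * kn v⁻¹ (X s) y

/-- the characteristic function of the centres -/
noncomputable def cx (μ : Ω → ℝ) (X : Ω → Option K → ℝ) (ζ : Option K → ℝ) : ℂ :=
  ∑ s, (μ s : ℂ) * ch ζ (X s)

theorem mx_pos (h0 : ∀ s, 0 ≤ μ s) (h1 : ∑ s, μ s = 1) (hv : 0 < v) (y : Option K → ℝ) :
    0 < mx μ X v y := by
  obtain ⟨s, -, hs⟩ := exists_ne_zero_of_sum_ne_zero (h1.trans_ne one_ne_zero)
  exact sum_pos' (fun s _ => mul_nonneg (h0 s) (kn_pos (inv_pos.2 hv) _ _).le)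
    ⟨s, mem_univ _, mul_pos ((h0 s).lt_of_ne' hs) (kn_pos (inv_pos.2 hv) _ _)⟩

theorem mx_cont : Continuous (mx μ X v) :=
  continuous_finsetSum _ fun _ _ => (kn_cont _ _).const_mul _

theorem mx_lin {f : (Option K → ℝ) → ℝ} (h : ∀ s, Integrable fun y => f y * kn v⁻¹ (X s) y) :
    (Integrable fun y => f y * mx μ X v y) ∧
      ∫ y, f y * mx μ X v y = ∑ s, μ s * ∫ y, f y * kn v⁻¹ (X s) y := by
  simp only [mx, mul_sum, mul_left_comm (f _)]
  refine ⟨integrable_finsetSum _ fun s _ => (h s).const_mul _, ?_⟩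
  rw [integral_finsetSum _ fun s _ => (h s).const_mul _]
  simp only [integral_const_mul]

theorem mx_int (h1 : ∑ s, μ s = 1) (hv : 0 < v) :
    Integrable (mx μ X v) ∧ ∫ y, mx μ X v y = 1 := by
  have := mx_lin (μ := μ) (X := X) (f := fun _ => 1) fun s => by
    simpa only [one_mul] using kn_intb (inv_pos.2 hv) (X s)
  simpa only [one_mul, kn_int (inv_pos.2 hv), mul_one, h1] using this

theorem mx_sq (h1 : ∑ s, μ s = 1) (hv : 0 < v) (j : Option K) :
    (Integrable fun y => y j ^ 2 * mx μ X v y) ∧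
      ∫ y, y j ^ 2 * mx μ X v y = ∑ s, μ s * X s j ^ 2 + v := by
  have a := fun s => kn_sq (inv_pos.2 hv) (X s) 0 j
  simp only [Pi.zero_apply, sub_zero, inv_inv] at a
  have := mx_lin (μ := μ) (f := fun y => y j ^ 2) fun s => (a s).1
  simpa only [(a _).2, mul_add, sum_add_distrib, ← sum_mul, h1, one_mul] using this

theorem mx_sq' (h1 : ∑ s, μ s = 1) (hv : 0 < v) :
    (Integrable fun y => sq y * mx μ X v y) ∧
      ∫ y, sq y * mx μ X v y = ∑ s, μ s * sq (X s) + Fintype.card K * v := by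
  simp only [sq, sum_mul]
  refine ⟨integrable_finsetSum _ fun j _ => (mx_sq h1 hv _).1, ?_⟩
  rw [integral_finsetSum _ fun j _ => (mx_sq h1 hv _).1]
  simp only [(mx_sq h1 hv _).2, sum_add_distrib, mul_sum, sum_const, card_univ, nsmul_eq_mul]
  rw [sum_comm]

theorem mx_chi (hv : 0 < v) (ζ : Option K → ℝ) :
    chi (mx μ X v) ζ = cx μ X ζ * (exp (-(v / 2) * nq ζ) : ℝ) := by
  have a := fun s => kn_chi (inv_pos.2 hv) (X s) ζ
  have e : -nq ζ / (2 * v⁻¹) = -(v / 2) * nq ζ := by field_simp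
  simp only [chi, e] at a
  simp only [chi, mx, cx, Complex.ofReal_sum, Complex.ofReal_mul, sum_mul, mul_assoc]
  rw [integral_finsetSum _ fun s _ => (ch_intb (kn_intb (inv_pos.2 hv) (X s)) ζ).const_mul _]
  simp only [integral_const_mul, a]

theorem norm_cx (h0 : ∀ s, 0 ≤ μ s) (h1 : ∑ s, μ s = 1) (ζ : Option K → ℝ) : ‖cx μ X ζ‖ ≤ 1 := by
  refine (norm_sum_le _ _).trans_eq ?_
  simp only [norm_mul, norm_ch, mul_one, Complex.norm_real, norm_eq_abs, abs_of_nonneg (h0 _), h1]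

/-- the lower bound on the curvature -/
theorem th_mx [Nonempty K] {C : ℝ} (hC : 0 ≤ C) : ∃ θ0 > (0 : ℝ), ∃ T0 > (0 : ℝ),
    ∀ (Ω : Type) [Fintype Ω] (μ : Ω → ℝ) (X : Ω → Option K → ℝ) (v θ T : ℝ), (∀ s, 0 ≤ μ s) →
      ∑ s, μ s = 1 → 0 < v → v ≤ 4 → ∑ s, μ s * nq (X s) ≤ C → T0 ≤ T → St (mx μ X v) θ T 1 →
      θ0 ≤ θ := by
  set R := 100 * (C + (Fintype.card K + 1) * 4) + 1
  have R1 : 1 ≤ R := le_add_of_nonneg_left (by positivity)
  refine ⟨1 / R ^ 2, by positivity, 3 * R, by positivity, ?_⟩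
  intro Ω _ μ X v θ T h0 h1 hv v4 hX hT hS
  refine th_abs (Classical.arbitrary K) (mx_pos h0 h1 hv) (mx_int h1 hv).1 (mx_int h1 hv).2
    (fun j => (mx_sq h1 hv j).1) (C := C + (Fintype.card K + 1) * 4) ?_ (by positivity)
    (by nlinarith [show R = _ from rfl]) hT hS
  simp only [(mx_sq h1 hv _).2, sum_add_distrib, sum_const, card_univ, nsmul_eq_mul,
    Fintype.card_option, Nat.cast_add, Nat.cast_one]
  rw [sum_comm]
  simp only [nq, mul_sum] at hX
  gcongr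

theorem exp_lip {x y : ℝ} (hx : 0 ≤ x) (hy : 0 ≤ y) : |exp (-x) - exp (-y)| ≤ |x - y| := by
  have k : ∀ a b : ℝ, 0 ≤ a → exp (-a) - exp (-b) ≤ |a - b| := fun a b ha => by
    have e : exp (-b) = exp (-a) * exp (a - b) := by rw [← exp_add]; congr 1; ring
    have a1 : exp (-a) ≤ 1 := exp_le_one_iff.2 (by linarith)
    nlinarith [add_one_le_exp (a - b), exp_pos (-a), neg_abs_le (a - b), abs_nonneg (a - b)]
  rw [abs_le]
  exact ⟨by linarith [k y x hy, abs_sub_comm x y], k x y hx⟩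

/-- the product form -/
theorem prod_mx [Nonempty K] {C : ℝ} (hC : 0 ≤ C) : ∃ D ≥ (1 : ℝ),
    ∀ (Ω : Type) [Fintype Ω] (μ : Ω → ℝ) (X : Ω → Option K → ℝ) (v θ T e σ : ℝ), (∀ s, 0 ≤ μ s) →
      ∑ s, μ s = 1 → 1 ≤ v → v ≤ 4 → ∑ s, μ s * nq (X s) ≤ C → 0 < e → D * e ≤ 1 → 1 / e ≤ T →
      St (mx μ X v) θ T e → ∑ s, μ s * wt (T / 2) (X s) ≤ e →
      0 ≤ σ → |∑ s, μ s * sq (X s) - Fintype.card K * σ| ≤ e → ∀ ζ,
      ‖cx μ X ζ - cx μ X (Pi.single none (ζ none)) * (exp (-(σ * sq ζ / 2)) : ℝ)‖ ≤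
        D * e * ((1 + nq ζ) * exp (2 * nq ζ)) := by
  obtain ⟨θ0, p0, T0, pT, th⟩ := th_mx (K := K) hC
  set q : ℝ := (Fintype.card K : ℝ) with hq
  have q1 : 1 ≤ q := by rw [hq]; exact_mod_cast Fintype.card_pos
  set A := (4 / θ0 + 32 / θ0 ^ 2) * 2 ^ Fintype.card K
  set B := 2 * (1 + (q + 1) / (1 / 4)) +
    8 * (4 / (1 / 4) + 32 / (1 / 4 : ℝ) ^ 2) * 2 ^ (Fintype.card K + 1) * (1 + C)
  set D1 := 2 * (2 * (1 + (C + q * 4)) + B + A)
  have A0 : 0 < A := by positivity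
  have B0 : 0 < B := by positivity
  have D0 : 0 < D1 := by positivity
  have c0 : 0 < q / θ0 := by positivity
  refine ⟨1 + T0 + 2 * A + D1 * (2 + q / θ0), by nlinarith, ?_⟩
  intro Ω _ μ X v θ T e σ h0 h1 v1 v4 hX e0 eD eT hS hw σ0 h2 ζ
  have hv : 0 < v := by linarith
  have n1 : 0 < T0 * e := by positivity
  have n2 : 0 < A * e := by positivity
  have n3 : 0 < D1 * e := by positivity
  have n4 : 0 < D1 * e * (q / θ0) := by positivity
  have e1 : e ≤ 1 := by linarith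
  have Tp : 0 < T := lt_of_lt_of_le (by positivity) eT
  rw [div_le_iff₀ e0] at eT
  have T2 : 1 / T ^ 2 ≤ e := by
    rw [div_le_iff₀ (by positivity)]; nlinarith [show 1 ≤ T by nlinarith]
  have hθ := th Ω μ X v θ T h0 h1 hv v4 hX (le_of_mul_le_mul_right (by linarith) e0)
    fun y hy => (hS y hy).trans e1
  have θp : 0 < θ := p0.trans_le hθ
  have vi : 1 / 4 ≤ v⁻¹ := by rw [one_div]; exact inv_anti₀ hv v4
  obtain ⟨w1, w2⟩ := mx_lin (μ := μ) fun s => wt_intb (inv_pos.2 hv) T (X s)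
  obtain ⟨s1, s2⟩ := mx_sq' (X := X) h1 hv
  have s3 : ∑ s, μ s * sq (X s) ≤ C :=
    (sum_le_sum fun s _ => mul_le_mul_of_nonneg_left (sq_le_nq _) (h0 s)).trans hX
  have w3 : ∫ y, wt T y * mx μ X v y ≤ B * e := by
    rw [w2]
    refine (sum_le_sum fun s _ => mul_le_mul_of_nonneg_left
      (wt_kn (by norm_num) vi Tp (X s)) (h0 s)).trans ?_
    simp only [mul_add (μ _), mul_left_comm (μ _), sum_add_distrib, ← mul_sum, mul_one, h1]
    rw [add_mul, div_eq_mul_one_div _ (T ^ 2), mul_right_comm _ (1 + C)]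
    have := sum_nonneg fun s (_ : s ∈ univ) => mul_nonneg (h0 s) (nq_nonneg (X s))
    gcongr
  obtain ⟨l1, l2⟩ := l1_abs (δ := D1 * e) (κ := A * e) (mx_pos h0 h1 hv) mx_cont (mx_int h1 hv).1
    (mx_int h1 hv).2 s1 (wt_nonneg T) wt_ge w1 p0 hθ Tp e0.le e1 hS
    (by rw [div_eq_mul_one_div _ (T ^ 2), mul_right_comm]; gcongr) (by linarith)
    (by
      have : (∫ y, sq y * mx μ X v y) ≤ C + q * 4 := by rw [s2]; gcongr
      have := mul_le_mul_of_nonneg_left this e0.le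
      simp only [D1]; linarith)
  rw [s2, ← hq] at l2
  clear_value A B D1
  clear w1 w2 w3 s1 s2 th hS hw
  have t1 : |1 / θ - (σ + v)| ≤ D1 * e * (1 + q / θ0) + e := by
    have e3 : q * (1 / θ - (σ + v)) = (∑ s, μ s * sq (X s) - q * σ) -
      (∑ s, μ s * sq (X s) + q * v - q / θ) := by ring
    have := abs_sub (∑ s, μ s * sq (X s) - q * σ) (∑ s, μ s * sq (X s) + q * v - q / θ)
    rw [← e3, abs_mul, abs_of_nonneg (by linarith)] at this
    nlinarith [abs_nonneg (1 / θ - (σ + v))]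
  have z0 := sq_nonneg' ζ
  have z1 := sq_le_nq ζ
  have t3 := exp_lip (x := 1 / θ * (sq ζ / 2)) (y := (σ + v) * (sq ζ / 2)) (by positivity)
    (by positivity)
  rw [← sub_mul, abs_mul, abs_of_nonneg (show 0 ≤ sq ζ / 2 by positivity),
    show -(1 / θ * (sq ζ / 2)) = -sq ζ / (2 * θ) by field_simp] at t3
  have n5 : ‖chi (mx μ X v) (Pi.single none (ζ none))‖ ≤ 1 := by
    rw [mx_chi hv, norm_mul, Complex.norm_real, norm_eq_abs, abs_of_pos (exp_pos _)]
    exact mul_le_one₀ (norm_cx h0 h1 _) (exp_pos _).le (exp_le_one_iff.2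
      (by nlinarith [nq_nonneg (Pi.single none (ζ none) : Option K → ℝ)]))
  have l3 : ‖chi (mx μ X v) ζ - chi (mx μ X v) (Pi.single none (ζ none)) *
      (exp (-((σ + v) * (sq ζ / 2))) : ℝ)‖ ≤
      (1 + T0 + 2 * A + D1 * (2 + q / θ0)) * e * (1 + nq ζ) := by
    refine (norm_sub_le_norm_sub_add_norm_sub _ _ _).trans ((add_le_add (l1 ζ) le_rfl).trans ?_)
    rw [← mul_sub, norm_mul, ← Complex.ofReal_sub, Complex.norm_real, norm_eq_abs, mul_add _ 1]
    refine add_le_add (by linarith) ((mul_le_of_le_one_left (abs_nonneg _) n5).trans (t3.trans ?_))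
    exact mul_le_mul (by linarith) (by linarith) (by positivity) (by positivity)
  have nn : nq (Pi.single none (ζ none) : Option K → ℝ) + sq ζ = nq ζ := by
    simp [nq, sq, Fintype.sum_option]
  have ee : exp (-(v / 2) * nq (Pi.single none (ζ none) : Option K → ℝ)) *
      exp (-((σ + v) * (sq ζ / 2))) = exp (-(σ * sq ζ / 2)) * exp (-(v / 2) * nq ζ) := by
    rw [← exp_add, ← exp_add, ← nn]; congr 1; ring
  rw [mx_chi hv, mx_chi hv, mul_assoc, ← Complex.ofReal_mul, ee, Complex.ofReal_mul, ← mul_assoc,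
    ← sub_mul, norm_mul, Complex.norm_real, norm_eq_abs, abs_of_pos (exp_pos _),
    ← le_mul_inv_iff₀ (exp_pos _), ← exp_neg] at l3
  refine l3.trans ?_
  rw [← mul_assoc]
  have z2 := z0.trans z1
  gcongr; linarith [mul_le_mul_of_nonneg_right v4 z2]

/-- the iteration -/
theorem iter {χ : ℝ → ℂ} {ρ ρ0 R η C σ : ℝ} (hρ : |ρ| ≤ ρ0) (ρ1 : ρ0 ≤ 1) (hC : 0 ≤ C) (σ0 : 0 ≤ σ)
    (h1 : ∀ s, |s| ≤ R → ‖χ s - χ (ρ * s) * (exp (-(σ * ((1 - ρ ^ 2) * s ^ 2) / 2)) : ℝ)‖ ≤ η)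
    (h2 : ∀ s, ‖χ s - 1‖ ≤ C * |s|) (j : ℕ) : ∀ s, |s| ≤ R →
    ‖χ s - (exp (-(σ * s ^ 2 / 2)) : ℝ)‖ ≤ j * η + ρ0 ^ j * |s| * (C + σ * R) := by
  have r0 := (abs_nonneg ρ).trans hρ
  induction j with
  | zero =>
    intro s hs
    have a := exp_lip (x := 0) (y := σ * s ^ 2 / 2) le_rfl (by positivity)
    rw [neg_zero, exp_zero, zero_sub, abs_neg, abs_of_nonneg (show 0 ≤ σ * s ^ 2 / 2 by positivity),
      ← norm_eq_abs, ← Complex.norm_real, Complex.ofReal_sub, Complex.ofReal_one] at a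
    refine (norm_sub_le_norm_sub_add_norm_sub _ 1 _).trans ((add_le_add (h2 s) a).trans ?_)
    rw [← sq_abs s]; simp only [Nat.cast_zero, pow_zero]
    nlinarith [mul_nonneg σ0 (abs_nonneg s), abs_nonneg s]
  | succ j ih =>
    intro s hs
    have s0 := abs_nonneg s
    have a : |ρ * s| ≤ ρ0 * |s| := by rw [abs_mul]; gcongr
    have b := ih (ρ * s) (by nlinarith)
    have ρ2 : ρ ^ 2 ≤ 1 := by rw [← sq_abs]; nlinarith [abs_nonneg ρ]
    have c : exp (-(σ * ((1 - ρ ^ 2) * s ^ 2) / 2)) ≤ 1 := exp_le_one_iff.2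
      (by linarith [mul_nonneg σ0 (mul_nonneg (sub_nonneg.2 ρ2) (sq_nonneg s))])
    have e : exp (-(σ * s ^ 2 / 2)) =
        exp (-(σ * (ρ * s) ^ 2 / 2)) * exp (-(σ * ((1 - ρ ^ 2) * s ^ 2) / 2)) := by
      rw [← exp_add]; congr 1; ring
    refine (norm_sub_le_norm_sub_add_norm_sub _ _ _).trans ((add_le_add (h1 s hs) (le_refl _)).trans ?_)
    rw [e, Complex.ofReal_mul, ← sub_mul, norm_mul, Complex.norm_real, norm_eq_abs,
      abs_of_pos (exp_pos _)]
    have d := (mul_le_of_le_one_right (norm_nonneg _) c).trans b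
    have f : ρ0 ^ j * |ρ * s| * (C + σ * R) ≤ ρ0 ^ j * (ρ0 * |s|) * (C + σ * R) := by
      have := s0.trans hs
      gcongr
    rw [pow_succ ρ0, Nat.cast_succ]; linarith

end Pool.Agent.P.MP_6b977f_mp.RG.H43
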