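import Pool.Agent.P.MP_6b977f_mp.RG.LibL43
import Pool.Agent.P.MP_6b977f_mp.RG.LibN43

/-! The mixtures of the interface in the notation of the stability lemmas. -/

namespace Pool.Agent.P.MP_6b977f_mp.RG

open Finset MeasureTheory Real
open scoped Classical

theorem den_eq {d : ℕ} (F : Mix (VI d)) {v : ℝ} (hv : 0 < v) :
    F.den (fun _ => v) = H43.mx F.p F.x v := by
  funext y
  refine sum_congr rfl fun ω _ => congrArg _ (prod_congr rfl fun j _ => ?_)
  rw [g1, H43.g, H43.Z, Pi.sub_apply]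
  congr 2 <;> field_simp

theorem nq_le {d : ℕ} (y : VI d → ℝ) : H43.nq y ≤ (d + 1) * ‖y‖ ^ 2 := by
  refine (sum_le_card_nsmul _ _ (‖y‖ ^ 2) fun j _ => ?_).trans ?_
  · rw [← sq_abs]; exact pow_le_pow_left₀ (abs_nonneg _) (norm_le_pi_norm y j) 2
  · rw [card_univ, Fintype.card_option, Fintype.card_fin, nsmul_eq_mul]
    gcongr; exact_mod_cast (by omega : d - 1 + 1 ≤ d + 1)

theorem St_NL (hDER : S_DER) {d : ℕ} {F : Mix (VI d)} {v θ s T e : ℝ} (hv : 0 < v) (hs : 0 ≤ s)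
    (h : NL F v θ s T) (he : d * s * T ≤ e) : H43.St (H43.mx F.p F.x v) θ T e := fun y hy => by
  rw [← den_eq F hv]; exact (str_NL hDER hv hs h y hy).trans he

end Pool.Agent.P.MP_6b977f_mp.RG
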