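import Pool.Agent.P.MP_6b977f_mp.RG.IfaceA
import Pool.Agent.P.MP_6b977f_mp.RG.LibB43

/-! Step TH. -/

namespace Pool.Agent.P.MP_6b977f_mp.RG

open Finset MeasureTheory Real
open scoped Classical

theorem p_TH (hDER : S_DER) (hPOST : S_POST) :
    S_TH := by
  intro d L hd
  have : Nonempty (Fin (d - 1)) := ⟨⟨0, by omega⟩⟩
  obtain ⟨θ0, p0, T0, pT, th⟩ := H43.th_mx (K := Fin (d - 1)) (C := (d + 1) * |L|) (by positivity)
  obtain ⟨C, C1, hC⟩ := hPOST (VI d) L
  have d0 : (0 : ℝ) ≤ d := Nat.cast_nonneg d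
  set D := T0 + d + 2 * C + 1
  have D1 : 1 ≤ D := by simp only [D]; linarith
  refine ⟨min θ0 (1 / D), by positivity, (min_le_right _ _).trans ((div_le_one (by linarith)).2 D1),
    fun F v θ s T v1 v3 hL hT s0 hs h => ?_⟩
  have a : D ≤ 1 / min θ0 (1 / D) := by
    rw [le_one_div (by linarith) (by positivity)]; exact min_le_right _ _
  have b : s * T * D ≤ 1 := (le_div_iff₀ (by linarith)).1 (hs.trans (min_le_right _ _))
  have T1 : 1 ≤ T := D1.trans (a.trans hT)
  have st : 0 ≤ s * T := by positivity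
  constructor
  · refine (min_le_left _ _).trans (th F.Ω F.p F.x v θ T F.p0 F.p1 (by linarith) (by linarith)
      ((F.E_mono nq_le).trans ?_) (le_trans (by simp only [D]; linarith) (a.trans hT))
      (St_NL hDER (by linarith) s0 h ?_))
    · rw [Mix.E_mul]; gcongr; exact hL.trans (le_abs_self _)
    · nlinarith [show (d : ℝ) ≤ D by simp only [D]; linarith]
  · set k := Classical.arbitrary (Fin (d - 1))
    have n : ‖(Pi.single (some k) 1 : VI d → ℝ)‖ = 1 := by simp [Pi.norm_single]
    have h1 := h _ (n.trans_le T1) k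
    have h2 := (hC F (fun _ => v) (Pi.single (some k) 1) (fun _ => ⟨v1, by linarith⟩) hL).2.2.1
      (some k)
    rw [n] at h2
    rw [Pi.single_eq_same] at h1
    refine le_trans ?_ a
    have : s ≤ 1 := by nlinarith
    simp only [D]; linarith [(abs_le.1 h1).2, (abs_le.1 h2).1]

end Pool.Agent.P.MP_6b977f_mp.RG
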