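import Pool.Agent.P.MP_6b977f_mp.RG.IfaceA

/-! From a lattice law with a small gap to a mixture with nearly linear score. -/

namespace Pool.Agent.P.MP_6b977f_mp.RG

open Finset MeasureTheory Real
open scoped Classical

namespace Par
variable {d : ℕ} (P : Par d)

theorem mix_E_le (μ : Law d) (δ : ℝ) (K : ℕ) {g : (SI d → ℝ) → ℝ} {f : St d → ℝ}
    (h : ∀ (s : St d) (u : Option (Fin d) → ℝ), (∀ o, 0 ≤ u o ∧ u o ≤ 1) →
      g (P.wh fun o => δ * (s o + u o)) ≤ f s) : (P.mix μ δ K).E g ≤ μ.E f := by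
  have k0 : (0 : ℝ) < K + 1 := by positivity
  refine (sum_le_sum (g := fun ω : μ.A × (Option (Fin d) → Fin (K + 1)) =>
    μ.p ω.1 / (K + 1) ^ (d + 1) * f ω.1) fun ω _ => mul_le_mul_of_nonneg_left
      (h _ _ fun o => ⟨by positivity, (div_le_one k0).2 ?_⟩) ((P.mix μ δ K).p0 ω)).trans_eq ?_
  · exact_mod_cast (ω.2 o).2.le
  · change ∑ ω : μ.A × (Option (Fin d) → Fin (K + 1)), μ.p ω.1 / (K + 1) ^ (d + 1) * f ω.1 = _
    simp only [Fintype.sum_prod_type, sum_const, card_univ, Fintype.card_fun, Fintype.card_fin,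
      Fintype.card_option, nsmul_eq_mul, Law.E]
    rw [← Finset.sum_coe_sort μ.A fun s => μ.p s * f s]
    refine sum_congr rfl fun s _ => ?_
    push_cast
    field_simp

theorem norm_shift {δ : ℝ} (h0 : 0 ≤ δ) (s : St d) {u : Option (Fin d) → ℝ}
    (hu : ∀ o, 0 ≤ u o ∧ u o ≤ 1) : ‖fun o => δ * (s o + u o)‖ ≤ ‖re δ s‖ + δ := by
  refine (pi_norm_le_iff_of_nonneg (by positivity)).2 fun o => ?_
  rw [mul_add]
  refine (norm_add_le _ _).trans (add_le_add (norm_le_pi_norm (re δ s) o) ?_)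
  rw [norm_eq_abs, abs_of_nonneg (mul_nonneg h0 (hu o).1)]
  exact mul_le_of_le_one_right h0 (hu o).2

theorem Wd_shift {δ : ℝ} (h0 : 0 ≤ δ) (s : St d) {u : Option (Fin d) → ℝ}
    (hu : ∀ o, 0 ≤ u o ∧ u o ≤ 1) :
    |Wd P.lam fun o => δ * (s o + u o)| ≤ |Wd P.lam (re δ s)| + 2 * d * δ := by
  have e : (Wd P.lam fun o => δ * (s o + u o)) = Wd P.lam (re δ s) + δ * Wd P.lam u := by
    simp only [Wd, re, mul_add, sum_add_distrib, ← mul_sum]; ring
  have n : ‖u‖ ≤ 1 := (pi_norm_le_iff_of_nonneg zero_le_one).2 fun o => by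
    rw [norm_eq_abs, abs_of_nonneg (hu o).1]; exact (hu o).2
  have := (P.abs_Wd u).trans (mul_le_of_le_one_right (by positivity) n)
  rw [e]
  refine (abs_add_le _ _).trans ?_
  rw [abs_mul, abs_of_nonneg h0]
  nlinarith

end Par

theorem law_NL (hAN : S_AN) (hLSYM : S_LSYM) (hNL : S_NL) (d : ℕ) (κ0 L M : ℝ) (h0 : 0 < κ0)
    (hM : 1 ≤ M) : ∃ C : ℝ, 1 ≤ C ∧ ∀ (P : Par d) (μ : Law d) (δ η ε T : ℝ),
    |P.lam| ≤ 2 * √(d - 1) - κ0 → μ.Sym → 0 < δ → δ ≤ ε → 0 < η → μ.gap δ η P.lam ≤ ε →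
    μ.E (fun s => Wd P.lam (re δ s) ^ 2) ≤ ε → μ.E (fun s => ‖re δ s‖ ^ 2) ≤ L → 1 ≤ T →
    ε * exp (C * T ^ 2) ≤ 1 → ∃ (K : ℕ) (v θ : ℝ), 1 ≤ v ∧ v ≤ 3 ∧ P.Sym (P.mix μ δ K) ∧
      (P.mix μ δ K).E (fun y => ‖y‖ ^ 2) ≤ 392 * d ^ 2 * (L + 1) ∧
      (P.mix μ δ K).E (fun y => y none ^ 2) ≤ 3300 * ε ∧
      NL ((P.mix μ δ K).map vp) v θ (C * exp (-(M * T) ^ 2)) (M * T) := by
  obtain ⟨C, C1, hC⟩ := hNL d (κ0 ^ 2 / 4) (392 * d ^ 2 * (L + 1)) (by positivity)
  have M2 : 1 ≤ M ^ 2 := one_le_pow₀ hM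
  have d0 : (0 : ℝ) ≤ d := Nat.cast_nonneg d
  refine ⟨(C + (d + 2) + 3300) * M ^ 2, by nlinarith, ?_⟩
  intro P μ δ η ε T hl hS hδ δε hη hg hW hL T1 hε
  have e0 : 0 < ε := hδ.trans_le δε
  have d3 := P.d3
  have T2 : 1 ≤ (M * T) ^ 2 := one_le_pow₀ (one_le_mul_of_one_le_of_one_le hM T1)
  rw [mul_assoc, ← mul_pow] at hε
  have e1 : ε ≤ 1 := le_trans (le_mul_of_one_le_right e0.le (one_le_exp (by positivity))) hε
  obtain ⟨-, K, κ, t, k0, k1, k2, t1, t2, hD⟩ := hAN d P μ δ η ε hS hδ hη e0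
  have mom : (P.mix μ δ K).E (fun y => ‖y‖ ^ 2) ≤ 392 * d ^ 2 * (L + 1) := by
    refine (P.mix_E_le μ δ K (f := fun s => 392 * d ^ 2 * (‖re δ s‖ ^ 2 + 1)) fun s u hu => ?_).trans ?_
    · have a := (P.norm_wh _).trans
        (mul_le_mul_of_nonneg_left (Par.norm_shift hδ.le s hu) (by positivity))
      refine (pow_le_pow_left₀ (norm_nonneg _) a 2).trans ?_
      have : (‖re δ s‖ + δ) ^ 2 ≤ 2 * (‖re δ s‖ ^ 2 + 1) := by
        nlinarith [sq_nonneg (‖re δ s‖ - δ)]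
      nlinarith [mul_le_mul_of_nonneg_left this (sq_nonneg (d : ℝ))]
    · rw [Law.E_mul, Law.E_add, Law.E_const]; gcongr
  have om : (P.mix μ δ K).E (fun y => y none ^ 2) ≤ 3300 * ε := by
    refine (P.mix_E_le μ δ K (f := fun s => 100 * Wd P.lam (re δ s) ^ 2 + 3200 * ε)
      fun s u hu => ?_).trans ?_
    · have a := (P.abs_om _).trans
        (mul_le_mul_of_nonneg_left (P.Wd_shift hδ.le s hu) (by positivity))
      have b : 20 / d * (|Wd P.lam (re δ s)| + 2 * d * δ) ≤ 7 * |Wd P.lam (re δ s)| + 40 * δ := by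
        rw [div_mul_eq_mul_div, div_le_iff₀ (by positivity)]
        nlinarith [abs_nonneg (Wd P.lam (re δ s))]
      rw [← sq_abs, ← sq_abs (Wd _ _)]
      refine (pow_le_pow_left₀ (abs_nonneg _) (a.trans b) 2).trans ?_
      nlinarith [sq_nonneg (7 * |Wd P.lam (re δ s)| - 40 * δ)]
    · rw [Law.E_add, Law.E_mul, Law.E_const]; linarith
  obtain ⟨θ, hθ⟩ := hC P (P.mix μ δ K) κ t (3300 * ε) (M * T) (exp (-(M * T) ^ 2))
    ⟨hLSYM d P μ δ K hS, k0, k1, by linarith, t1, t2, by linarith, om, P.bulk h0 hl, mom⟩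
    (one_le_mul_of_one_le_of_one_le hM T1) (exp_pos _) (exp_le_one_iff.2 (by linarith)) (by
      rw [← exp_nat_mul, mul_neg, exp_neg, ← one_div, le_div_iff₀ (exp_pos _)]
      refine le_trans ?_ hε
      rw [add_mul, add_mul, exp_add, exp_add]
      push_cast
      have := add_one_le_exp (3300 * (M * T) ^ 2)
      calc _ = ε * (exp (C * (M * T) ^ 2) * exp ((d + 2) * (M * T) ^ 2) * 3300) := by ring
        _ ≤ _ := by gcongr; linarith)
  refine ⟨K, κ ^ 2 + t, θ, by nlinarith, by linarith, hLSYM d P μ δ K hS, mom, om,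
    fun y hy k => (hθ y hy k).trans ?_⟩
  gcongr; nlinarith

/-- the multiplicative form -/
theorem str_NL (hDER : S_DER) {d : ℕ} {F : Mix (VI d)} {v θ s T : ℝ} (hv : 0 < v) (hs : 0 ≤ s)
    (h : NL F v θ s T) (y : VI d → ℝ) (hy : ∀ j, |y j| ≤ T) :
    |log (F.den (fun _ => v) y) - log (F.den (fun _ => v) (Pi.single none (y none))) +
      θ / 2 * ∑ k, y (some k) ^ 2| ≤ d * s * T := by
  set a : VI d → ℝ := Pi.single none (y none)
  set c : VI d → ℝ := y - a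
  have T0 := (abs_nonneg _).trans (hy none)
  have c0 : c none = 0 := by simp [c, a]
  have c1 : ∀ k, c (some k) = y (some k) := fun k => by simp [c, a]
  have D : ∀ τ : ℝ, HasDerivAt (fun τ : ℝ => log (F.den (fun _ => v) (a + τ • c)) +
      θ / 2 * (τ ^ 2 * ∑ k, y (some k) ^ 2))
      (∑ k, (F.sc (fun _ => v) (some k) (a + τ • c) + θ * (a + τ • c) (some k)) * y (some k)) τ :=
    fun τ => by
    have l : HasDerivAt (fun τ : ℝ => a + τ • c) c τ := by
      simpa using ((hasDerivAt_id τ).smul_const c).const_add a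
    convert ((hDER _ F _ (a + τ • c) fun _ => hv).2.1.comp_hasDerivAt τ l).add
      (((hasDerivAt_pow 2 τ).mul_const (∑ k, y (some k) ^ 2)).const_mul (θ / 2)) using 1
    all_goals try rfl
    simp only [lin_apply, Fintype.sum_option, c0, c1, mul_sum, add_mul, sum_add_distrib,
      Pi.add_apply, Pi.smul_apply, smul_eq_mul, a, Pi.single_eq_of_ne (Option.some_ne_none _),
      mul_zero, zero_add]
    congr 1
    exact sum_congr rfl fun k _ => by push_cast; ring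
  have := norm_image_sub_le_of_norm_deriv_le_segment_01' (C := d * s * T)
    (fun τ _ => (D τ).hasDerivWithinAt) fun τ hτ => by
    have n : ‖a + τ • c‖ ≤ T := (pi_norm_le_iff_of_nonneg T0).2 fun j => by
      cases j with
      | none => simpa [c0, a] using hy none
      | some k =>
        simp only [Pi.add_apply, Pi.smul_apply, smul_eq_mul, a, c1, zero_add,
          Pi.single_eq_of_ne (Option.some_ne_none _), norm_eq_abs, abs_mul, abs_of_nonneg hτ.1]
        exact (mul_le_of_le_one_left (abs_nonneg _) hτ.2.le).trans (hy _)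
    refine (abs_sum_le_sum_abs _ _).trans ((sum_le_sum (g := fun _ => s * T) fun k _ => ?_).trans ?_)
    · rw [abs_mul]
      exact mul_le_mul (h _ n k) (hy _) (abs_nonneg _) hs
    · rw [sum_const, card_univ, Fintype.card_fin, nsmul_eq_mul, mul_assoc]
      gcongr; exact Nat.sub_le d 1
  simpa [c, add_sub_right_comm] using this

end Pool.Agent.P.MP_6b977f_mp.RG
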