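import Pool.Agent.P.MP_6b977f_mp.RG.IfaceA
import Pool.Agent.P.MP_6b977f_mp.RG.LibL43

/-! Step AN. -/

namespace Pool.Agent.P.MP_6b977f_mp.RG

open Finset MeasureTheory Real
open scoped Classical

namespace ANx

theorem core (hINF : S_INF) (hLAT1 : S_LAT1) (hLAT2 : S_LAT2) (hLSYM : S_LSYM) (hELL : S_ELL)
    {d : ℕ} (P : Par d) (μ : Law d) {δ η e : ℝ} (hS : μ.Sym) (hδ : 0 < δ) (hη : 0 < η)
    (he : 0 < e) : ∃ (K : ℕ) (κ : ℝ), 0 < κ ∧ κ ≤ P.cs ∧ κ ^ 2 ≤ e ∧ ∀ t : ℝ, 0 ≤ t →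
      P.Phi (P.mix μ δ K) κ t - P.Phi (P.mix μ δ K) κ 0 ≤ μ.gap δ η P.lam + e := by
  have d3 := P.d3
  have hl : 0 < d - P.lam := by linarith [P.sub_lam]
  obtain ⟨κ0, h0, h2⟩ := hLAT2 d P μ δ (e / d / 2) hδ (by positivity)
  obtain ⟨κ, k0, k1, k2, k3, k4⟩ : ∃ κ : ℝ, 0 < κ ∧ κ ≤ κ0 ∧ κ ≤ P.cs ∧ κ ≤ e ∧
      κ ≤ e * (η / (d - P.lam)) ^ 2 :=
    ⟨min (min κ0 P.cs) (min e (e * (η / (d - P.lam)) ^ 2)), by have := P.cs_pos; positivity,
      (min_le_left _ _).trans (min_le_left _ _), (min_le_left _ _).trans (min_le_right _ _),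
      (min_le_right _ _).trans (min_le_left _ _), (min_le_right _ _).trans (min_le_right _ _)⟩
  have k5 : κ ^ 2 ≤ κ := by nlinarith [P.cs_le]
  obtain ⟨K, h1⟩ := hLAT1 d P μ δ κ (e / 4) hδ k0 (by positivity)
  refine ⟨K, κ, k0, k2, k5.trans k3, fun t ht => ?_⟩
  have h3 := hINF d P _ κ t (η / (d - P.lam)) (hLSYM d P μ δ K hS) k0 ht (by positivity)
  have h4 := mul_le_mul_of_nonneg_left (h2 κ k0 k1 K) (show (0 : ℝ) ≤ d / 2 by positivity)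
  have h5 : (P.mix μ δ K).E (fun y => y none ^ 2) ≤
      μ.E fun s => ((d - P.lam) ^ 2)⁻¹ * (|Wd P.lam (re δ s)| + 3 * d * δ) ^ 2 :=
    P.mix_E_le μ δ K fun s u hu => by
      have a := (P.Wd_shift hδ.le s hu).trans (show _ ≤ |Wd P.lam (re δ s)| + 3 * d * δ by
        nlinarith)
      change (Wd P.lam _ / (d - P.lam)) ^ 2 ≤ _
      rw [div_pow, div_eq_inv_mul, ← sq_abs (Wd _ _)]
      gcongr
  rw [Law.E_mul] at h5
  have h6 : ((P.mix μ δ K).E (fun y => y none ^ 2) + κ ^ 2) / (2 * (η / (d - P.lam)) ^ 2) ≤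
      μ.E (fun s => (|Wd P.lam (re δ s)| + 3 * d * δ) ^ 2) / (2 * η ^ 2) + e / 2 := by
    refine (div_le_div_of_nonneg_right (add_le_add h5 (k5.trans k4)) (by positivity)).trans_eq ?_
    field_simp
  have h7 : log (2 * π * (η / (d - P.lam)) ^ 2) = log (2 * π * η ^ 2) - 2 * log (d - P.lam) := by
    rw [div_pow, ← mul_div_assoc, log_div (by positivity) (by positivity), log_pow]; norm_num
  have h8 : μ.Phi = μ.E (fun s => -log (μ.p s)) +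
      1 / 2 * μ.E fun s => ∑ i, log (μ.nu (s none) (s (some i))) := by
    rw [← Law.E_mul, ← Law.E_add, Law.Phi]; congr 1; ext s; ring
  have h9 := hELL d P
  have h10 : (d : ℝ) / 2 * (-(μ.E fun s => ∑ i, log (μ.nu (s none) (s (some i)))) / d +
      2 * log δ - log P.r + e / d / 2) = -(1 / 2 * μ.E fun s =>
        ∑ i, log (μ.nu (s none) (s (some i)))) + d * log δ - d / 2 * log P.r + e / 4 := by
    field_simp; ring
  rw [h10] at h4
  have h11 : P.Phi (P.mix μ δ K) κ 0 = _ - _ := rfl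
  rw [Law.gap, h11]
  linarith

end ANx

theorem p_AN (hFD : S_FD) (hFISH : S_FISH) (hINF : S_INF) (hLAT1 : S_LAT1) (hLAT2 : S_LAT2) (hLSYM : S_LSYM) (hELL : S_ELL) :
    S_AN := by
  intro d P μ δ η ε hS hδ hη hε
  refine ⟨le_of_forall_pos_le_add fun e he => ?_, ?_⟩
  · obtain ⟨K, κ, -, -, -, h⟩ := ANx.core hINF hLAT1 hLAT2 hLSYM hELL P μ hS hδ hη he
    simpa using h 0 le_rfl
  obtain ⟨K, κ, k0, k1, k2, h⟩ := ANx.core hINF hLAT1 hLAT2 hLSYM hELL P μ hS hδ hη (half_pos hε)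
  have hm := hLSYM d P μ δ K hS
  have mv : ∀ a : ℝ, 0 ≤ a → ∃ t ∈ Set.Ioo a (a + 1), P.Dd (P.mix μ δ K) κ t / 2 =
      P.Phi (P.mix μ δ K) κ (a + 1) - P.Phi (P.mix μ δ K) κ a := fun a ha => by
    obtain ⟨t, ht, e⟩ := exists_hasDerivAt_eq_slope (P.Phi (P.mix μ δ K) κ)
      (fun t => P.Dr (P.mix μ δ K) κ t / 2) (lt_add_one a)
      (fun t ht => (hFD d P _ κ t k0 (ha.trans ht.1)).continuousAt.continuousWithinAt)
      fun t ht => hFD d P _ κ t k0 (ha.trans ht.1.le)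
    exact ⟨t, ht, by rw [← (hFISH d P _ κ t hm k0 (ha.trans ht.1.le)).1, e]; simp⟩
  obtain ⟨s, hs, e1⟩ := mv 0 le_rfl
  obtain ⟨t, ht, e2⟩ := mv 1 zero_le_one
  have h1 := (hFISH d P _ κ s hm k0 hs.1.le).2
  have h2 := h (1 + 1) (by norm_num)
  rw [zero_add] at e1
  exact ⟨K, κ, t, k0, k1, by linarith, ht.1, by linarith [ht.2], by linarith⟩

end Pool.Agent.P.MP_6b977f_mp.RG
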