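import Pool.Agent.P.MP_6b977f_mp.RG.IfaceA

/-! Step AN1. -/

namespace Pool.Agent.P.MP_6b977f_mp.RG

open Finset MeasureTheory Real
open scoped Classical

namespace AN1x

variable {d : ℕ} (P : Par d) (μ : Law d) {δ : ℝ} (K : ℕ)

theorem E_eq (G : St d → ℝ) : μ.E G = ∑ ω : μ.A × (Option (Fin d) → Fin (K + 1)),
    (P.mix μ δ K).p ω * G ω.1 := by
  simp only [Par.mix, Fintype.sum_prod_type, sum_const, card_univ, Fintype.card_fun,
    Fintype.card_fin, Fintype.card_option, nsmul_eq_mul]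
  rw [Law.E, ← Finset.sum_coe_sort μ.A]
  refine sum_congr rfl fun s _ => ?_
  push_cast
  field_simp

theorem near (h : 0 < δ) (ω : μ.A × (Option (Fin d) → Fin (K + 1))) :
    ∃ z, ‖z - re δ ω.1‖ ≤ δ ∧ (P.mix μ δ K).x ω = P.wh z := by
  refine ⟨_, (pi_norm_le_iff_of_nonneg h.le).2 fun o => ?_, rfl⟩
  have a : ((ω.2 o : ℕ) : ℝ) / (K + 1 : ℝ) ≤ 1 :=
    div_le_one_of_le₀ (by exact_mod_cast (ω.2 o).2.le) (by positivity)
  rw [Pi.sub_apply, re, ← mul_sub, add_sub_cancel_left, Real.norm_of_nonneg (by positivity)]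
  exact mul_le_of_le_one_right h.le a

theorem mix_le (h : 0 < δ) {g : (SI d → ℝ) → ℝ} {G : St d → ℝ}
    (H : ∀ s z, ‖z - re δ s‖ ≤ δ → g (P.wh z) ≤ G s) : (P.mix μ δ K).E g ≤ μ.E G := by
  rw [E_eq P μ K (δ := δ)]
  refine sum_le_sum fun ω _ => mul_le_mul_of_nonneg_left ?_ ((P.mix μ δ K).p0 ω)
  obtain ⟨z, a, b⟩ := near P μ K h ω
  exact b ▸ H _ z a

theorem le_mix (h : 0 < δ) {g : (SI d → ℝ) → ℝ} {G : St d → ℝ}
    (H : ∀ s z, ‖z - re δ s‖ ≤ δ → G s ≤ g (P.wh z)) : μ.E G ≤ (P.mix μ δ K).E g := by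
  rw [E_eq P μ K (δ := δ)]
  refine sum_le_sum fun ω _ => mul_le_mul_of_nonneg_left ?_ ((P.mix μ δ K).p0 ω)
  obtain ⟨z, a, b⟩ := near P μ K h ω
  exact b ▸ H _ z a

theorem om_le {ε : ℝ} (h : 0 < δ) (h1 : δ ≤ ε) (h2 : ε ≤ 1)
    (hW : μ.E (fun s => Wd P.lam (re δ s) ^ 2) ≤ ε) :
    (P.mix μ δ K).E (fun y => y none ^ 2) ≤ 3300 * ε := by
  refine (mix_le P μ K h (G := fun s => 100 * Wd P.lam (re δ s) ^ 2 + 3200 * ε)
    fun s z hz => ?_).trans (by rw [Law.E_add, Law.E_mul, Law.E_const]; linarith)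
  have d3 := P.d3
  have a1 : Wd P.lam z = Wd P.lam (re δ s) + Wd P.lam (z - re δ s) := by
    simp only [Wd, Pi.sub_apply, sum_sub_distrib]; ring
  have a2 : |Wd P.lam (z - re δ s)| ≤ 2 * d * δ :=
    (P.abs_Wd _).trans (mul_le_mul_of_nonneg_left hz (by positivity))
  have a3 : 20 / (d : ℝ) ≤ 7 := by rw [div_le_iff₀ (by linarith)]; linarith
  have a4 : |P.wh z none| ≤ 7 * |Wd P.lam (re δ s)| + 40 * δ := by
    refine (P.abs_om z).trans ?_
    have b := mul_le_mul_of_nonneg_left ((abs_add_le _ _).trans (add_le_add_right a2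
      |Wd P.lam (re δ s)|)) (show 0 ≤ 20 / (d : ℝ) by positivity)
    rw [mul_add, show 20 / (d : ℝ) * (2 * d * δ) = 40 * δ by field_simp; norm_num] at b
    rw [a1]
    linarith [mul_le_mul_of_nonneg_right a3 (abs_nonneg (Wd P.lam (re δ s)))]
  have a5 := pow_le_pow_left₀ (abs_nonneg _) a4 2
  rw [sq_abs] at a5
  nlinarith [sq_nonneg (7 * |Wd P.lam (re δ s)| - 40 * δ), sq_abs (Wd P.lam (re δ s)),
    sq_nonneg (Wd P.lam (re δ s))]

theorem norm_le {z : Option (Fin d) → ℝ} {s : St d} (h1 : δ ≤ 1) (hz : ‖z - re δ s‖ ≤ δ) :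
    ‖P.wh z‖ ≤ 14 * d * (‖re δ s‖ + 1) :=
  (P.norm_wh z).trans (mul_le_mul_of_nonneg_left
    ((norm_le_insert' z (re δ s)).trans (by linarith)) (by positivity))

theorem mom_le {L : ℝ} (h : 0 < δ) (h1 : δ ≤ 1) (hL : μ.E (fun s => ‖re δ s‖ ^ 2) ≤ L) :
    (P.mix μ δ K).E (fun y => ‖y‖ ^ 2) ≤ (14 * d) ^ 2 * (2 * L + 2) := by
  refine (mix_le P μ K h (G := fun s => (14 * d) ^ 2 * (2 * ‖re δ s‖ ^ 2 + 2))
    fun s z hz => ?_).trans ?_
  · refine (pow_le_pow_left₀ (norm_nonneg _) (norm_le P h1 hz) 2).trans ?_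
    rw [mul_pow]
    exact mul_le_mul_of_nonneg_left (by nlinarith [sq_nonneg (‖re δ s‖ - 1)]) (sq_nonneg _)
  · rw [Law.E_mul, Law.E_add, Law.E_mul, Law.E_const]
    exact mul_le_mul_of_nonneg_left (by linarith) (sq_nonneg _)

theorem region {z : Option (Fin d) → ℝ} {s : St d} {T : ℝ} (h1 : δ ≤ 1) (hT : 800 ≤ T)
    (hz : ‖z - re δ s‖ ≤ δ) :
    ind (‖re δ s‖ ≤ 3 * d * T ∧ ∃ i, T / 100 ≤ |re δ s (some i) - P.rho * re δ s none|) ≤
      ind (‖vp (P.wh z)‖ ≤ 28 * d * (3 * d + 1) * T / 2 ∧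
        ∃ i, T / 200 ≤ |P.ci i (vp (P.wh z))|) + P.wh z none ^ 2 := by
  by_cases h : ‖re δ s‖ ≤ 3 * d * T ∧ ∃ i, T / 100 ≤ |re δ s (some i) - P.rho * re δ s none|
  swap
  · rw [ind_neg h]; exact add_nonneg (ind_nonneg _) (sq_nonneg _)
  rw [ind_pos h]
  rcases le_total 1 |P.wh z none| with u | u
  · linarith [ind_nonneg (‖vp (P.wh z)‖ ≤ 28 * d * (3 * d + 1) * T / 2 ∧
      ∃ i, T / 200 ≤ |P.ci i (vp (P.wh z))|), (one_le_sq_iff_one_le_abs _).2 u]
  obtain ⟨h2, i, h3⟩ := h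
  refine (ind_pos ⟨(norm_vp _).trans ((norm_le P h1 hz).trans ?_), i, ?_⟩).ge.trans
    (le_add_of_nonneg_right (sq_nonneg _))
  · have := mul_le_mul_of_nonneg_left (show ‖re δ s‖ + 1 ≤ (3 * d + 1) * T by linarith)
      (show (0 : ℝ) ≤ 14 * d by positivity)
    linarith
  · have a1 : z none = P.wh z (some none) + P.wh z none := (congrFun (P.val_wh z) none).symm
    have a2 : z (some i) = P.rho * P.wh z (some none) + P.r * P.ci i (vp (P.wh z)) + P.wh z none :=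
      (congrFun (P.val_wh z) (some i)).symm
    have a3 : |z none - re δ s none| ≤ 1 := ((norm_le_pi_norm (z - re δ s) none).trans hz).trans h1
    have a4 : |z (some i) - re δ s (some i)| ≤ 1 :=
      ((norm_le_pi_norm (z - re δ s) (some i)).trans hz).trans h1
    have a5 : re δ s (some i) - P.rho * re δ s none = P.r * P.ci i (vp (P.wh z)) +
        (P.wh z none - P.rho * P.wh z none) +
        (P.rho * (z none - re δ s none) - (z (some i) - re δ s (some i))) := by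
      rw [a1, a2]; ring
    have r1 : |P.rho| ≤ 1 := P.abs_rho.trans (by norm_num)
    have a6 := (h3.trans_eq (congrArg abs a5)).trans ((abs_add_three _ _ _).trans
      (add_le_add (add_le_add_right (abs_sub _ _) _) (abs_sub _ _)))
    simp only [abs_mul, abs_of_pos P.r_pos] at a6
    linarith [mul_le_of_le_one_left (abs_nonneg (P.ci i (vp (P.wh z)))) P.r_le,
      mul_le_one₀ r1 (abs_nonneg _) u, mul_le_one₀ r1 (abs_nonneg _) a3]

theorem le_exp {x y T : ℝ} (h : x ≤ y) (h0 : 0 ≤ y) (hT : 1 ≤ T) : x ≤ exp (y * T) := by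
  linarith [add_one_le_exp (y * T), le_mul_of_one_le_right h0 hT]

end AN1x

theorem p_AN1 (hAN : S_AN) (hLSYM : S_LSYM) (hNL : S_NL) (hTH : S_TH) (hTAIL : S_TAIL) :
    S_AN1 := by
  intro d κ0 L hκ
  by_cases hd : 3 ≤ d
  swap
  · exact ⟨1, 1, le_rfl, one_pos, fun P => absurd P.hd hd⟩
  obtain ⟨C1, C11, hN⟩ := hNL d (κ0 ^ 2 / 4) ((14 * d) ^ 2 * (2 * L + 2)) (by positivity)
  obtain ⟨c2, c20, c21, hH⟩ := hTH d ((14 * d) ^ 2 * (2 * L + 2)) hd
  obtain ⟨C3, c3, C31, c30, hA⟩ := hTAIL d c2 c20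
  obtain ⟨B, hB⟩ : ∃ B : ℝ, B = 28 * d * (3 * d + 1) := ⟨_, rfl⟩
  have d3 : (3 : ℝ) ≤ d := by exact_mod_cast hd
  have B1 : 1 ≤ B := by nlinarith
  have n1 : 0 ≤ C1 * B ^ 2 := by positivity
  have n2 : 0 ≤ (d + 2) * (C1 * B / c2) := by positivity
  have n3 : 0 ≤ 1 / c2 := by positivity
  have n4 : 0 ≤ (d + 2 * C3 * B ^ d) / (c3 / 80000) := by positivity
  refine ⟨C1 * B ^ 2 + (d + 2) * (C1 * B / c2) + 1 / c2 + (d + 2 * C3 * B ^ d) / (c3 / 80000) +
    C3 + 6601, min (c3 / 80000) 1, by linarith, by positivity, ?_⟩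
  intro P μ δ η ε T hl hs δ0 δ1 η0 hg hW hL hT hε
  have ε0 : 0 < ε := δ0.trans_le δ1
  have T1 : 1 ≤ T := by linarith
  have T2 : 1 ≤ T ^ 2 := one_le_pow₀ T1
  have ε1 : ε ≤ 1 := (le_mul_of_one_le_right ε0.le (one_le_exp (by positivity))).trans hε
  have BT : T ≤ B * T := le_mul_of_one_le_left (by linarith) B1
  have CT : 1 ≤ C1 * (B * T) := one_le_mul_of_one_le_of_one_le C11 (by linarith)
  obtain ⟨-, K, κ, t, κ1, κ2, κ3, t1, t2, hD⟩ := hAN d P μ δ η ε hs δ0 η0 ε0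
  have om := AN1x.om_le P μ K δ0 δ1 ε1 hW
  have mo := AN1x.mom_le P μ K δ0 (δ1.trans ε1) hL
  obtain ⟨θ, hθ⟩ := hN P (P.mix μ δ K) κ t (3300 * ε) (B * T) (c2 / (C1 * (B * T)))
    ⟨hLSYM d P μ δ K hs, κ1, κ2, by linarith, t1, t2, by linarith, om, P.bulk hκ hl, mo⟩
    (by linarith) (by positivity) (div_le_one_of_le₀ (by linarith) (by linarith)) (by
      have a1 : C1 * (B * T) / c2 ≤ exp (C1 * B / c2 * T ^ 2) := by
        refine le_trans ?_ (AN1x.le_exp le_rfl (show 0 ≤ C1 * B / c2 * T by positivity) T1 |>.trans_eq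
          (by rw [mul_assoc, sq]))
        exact le_of_eq (by ring)
      have a2 := pow_le_pow_left₀ (by positivity) a1 (d + 2)
      rw [← exp_nat_mul] at a2
      have a3 := AN1x.le_exp (le_refl (3300 : ℝ)) (by norm_num) T2
      rw [← inv_div, inv_pow, ← one_div, le_div_iff₀ (by positivity)]
      refine le_trans ?_ hε
      rw [mul_comm 3300, mul_assoc, mul_assoc]
      refine mul_le_mul_of_nonneg_left ((mul_le_mul a3 (mul_le_mul_of_nonneg_left a2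
        (exp_pos _).le) (by positivity) (exp_pos _).le).trans ?_) ε0.le
      rw [← exp_add, ← exp_add, exp_le_exp]
      push_cast
      nlinarith [mul_nonneg n3 (sq_nonneg T), mul_nonneg n4 (sq_nonneg T)])
  have v1 : 1 ≤ κ ^ 2 + t := by nlinarith
  have v3 : κ ^ 2 + t ≤ 3 := by linarith
  have sT : C1 * (c2 / (C1 * (B * T))) * (B * T) = c2 := by field_simp
  have th := (hH _ _ θ _ (B * T) v1 v3 ((Mix.E_mono _ fun y =>
    pow_le_pow_left₀ (norm_nonneg _) (norm_vp y) 2).trans mo) (by linarith) (by positivity)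
    sT.le hθ).1
  have ta := hA P _ _ θ _ (B * T) (T / 200) v1 v3 (by linarith) (by positivity) (sT.trans_le c21)
    th hθ (by linarith)
  refine (AN1x.le_mix P μ K δ0 (g := fun y => ind (‖vp y‖ ≤ 28 * d * (3 * d + 1) * T / 2 ∧
    ∃ i, T / 200 ≤ |P.ci i (vp y)|) + y none ^ 2)
    fun s z hz => AN1x.region P (δ1.trans ε1) (by linarith) hz).trans ?_
  rw [Mix.E_add, ← hB]
  refine (add_le_add ta om).trans ?_
  have a1 : 2 * C3 * B ^ d * T ^ d ≤ exp (c3 / 80000 * T ^ 2) := by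
    have b1 := pow_le_pow_left₀ (by linarith) ((le_add_of_nonneg_right zero_le_one).trans
      (add_one_le_exp T)) d
    rw [← exp_nat_mul] at b1
    refine (mul_le_mul (AN1x.le_exp le_rfl (by positivity) T1) b1 (by positivity)
      (exp_pos _).le).trans ?_
    rw [← exp_add, exp_le_exp]
    have b2 : (d + 2 * C3 * B ^ d) / (c3 / 80000) ≤ T := by linarith
    rw [div_le_iff₀ (by positivity)] at b2
    nlinarith
  have a2 : C3 * (B * T) ^ d * exp (-(c3 * (T / 200) ^ 2)) ≤ exp (-(c3 / 80000 * T ^ 2)) / 2 := by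
    have b := mul_le_mul_of_nonneg_right a1 (exp_pos (-(c3 * (T / 200) ^ 2))).le
    rw [← exp_add, show c3 / 80000 * T ^ 2 + -(c3 * (T / 200) ^ 2) = -(c3 / 80000 * T ^ 2) by ring]
      at b
    rw [mul_pow]
    linarith
  have a3 : 3300 * ε ≤ exp (-(1 * T ^ 2)) / 2 := by
    have b := AN1x.le_exp (le_refl (6600 : ℝ)) (by norm_num) T2
    have b' : ε * (exp (6600 * T ^ 2) * exp (1 * T ^ 2)) ≤ 1 := by
      refine le_trans (mul_le_mul_of_nonneg_left ?_ ε0.le) hε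
      rw [← exp_add, exp_le_exp]
      nlinarith [mul_nonneg n1 (sq_nonneg T), mul_nonneg n2 (sq_nonneg T),
        mul_nonneg n3 (sq_nonneg T), mul_nonneg n4 (sq_nonneg T)]
    rw [exp_neg, le_div_iff₀ two_pos, ← one_div, le_div_iff₀ (exp_pos _)]
    nlinarith [mul_le_mul_of_nonneg_right b (mul_pos ε0 (exp_pos (1 * T ^ 2))).le]
  linarith [exp_le_exp.2 (neg_le_neg (mul_le_mul_of_nonneg_right (min_le_left (c3 / 80000) 1)
    (sq_nonneg T))), exp_le_exp.2 (neg_le_neg (mul_le_mul_of_nonneg_right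
      (min_le_right (c3 / 80000) 1) (sq_nonneg T)))]

end Pool.Agent.P.MP_6b977f_mp.RG
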