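import Pool.Agent.P.MP_6b977f_mp.RG.LibB43

/-! The characteristic function of a symmetric mixture with product structure. -/

namespace Pool.Agent.P.MP_6b977f_mp.RG

open Finset MeasureTheory Real
open scoped Classical

theorem Mix.abs_E_le {ι : Type} (m : Mix ι) {f g : (ι → ℝ) → ℝ} (h : ∀ y, |f y| ≤ g y) :
    |m.E f| ≤ m.E g :=
  (abs_sum_le_sum_abs _ _).trans (sum_le_sum fun ω _ => by
    rw [abs_mul, abs_of_nonneg (m.p0 ω)]; exact mul_le_mul_of_nonneg_left (h _) (m.p0 ω))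

theorem Mix.norm_sub_le {ι : Type} (m : Mix ι) {f f' : (ι → ℝ) → ℂ} {g : (ι → ℝ) → ℝ}
    (h : ∀ y, ‖f y - f' y‖ ≤ g y) :
    ‖∑ ω, (m.p ω : ℂ) * f (m.x ω) - ∑ ω, (m.p ω : ℂ) * f' (m.x ω)‖ ≤ m.E g := by
  rw [← sum_sub_distrib]
  refine (norm_sum_le _ _).trans (sum_le_sum fun ω _ => ?_)
  rw [← mul_sub, norm_mul, Complex.norm_real, norm_eq_abs, abs_of_nonneg (m.p0 ω)]
  exact mul_le_mul_of_nonneg_left (h _) (m.p0 ω)

theorem norm_eI_sub (a b : ℝ) :
    ‖Complex.exp (Complex.I * a) - Complex.exp (Complex.I * b)‖ ≤ |a - b| := by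
  have : Complex.exp (Complex.I * a) - Complex.exp (Complex.I * b) =
      Complex.exp (b * Complex.I) * (Complex.exp (Complex.I * (a - b : ℝ)) - 1) := by
    rw [mul_sub, ← Complex.exp_add]; push_cast; ring_nf
  rw [this, norm_mul, Complex.norm_exp_ofReal_mul_I, one_mul]
  exact Real.norm_exp_I_mul_ofReal_sub_one_le

namespace Par
variable {d : ℕ} (P : Par d)

/-- the frequency in whitened coordinates -/
noncomputable def zt (s : ℝ) (t : Fin d → ℝ) : VI d → ℝ :=
  fun j => j.elim (s + P.rho * ∑ i, t i) fun k => P.r * ∑ i, t i * P.e i k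

theorem zt_ch (s : ℝ) (t : Fin d → ℝ) (y : SI d → ℝ) :
    ‖ch s t (P.val y) - H43.ch (P.zt s t) (vp y)‖ ≤ (|s| + ∑ i, |t i|) * |y none| := by
  refine (norm_eI_sub _ _).trans ?_
  have e : s * P.val y none + ∑ i, t i * P.val y (some i) - ∑ j, P.zt s t j * vp y j =
      (s + ∑ i, t i) * y none := by
    have : ∑ i, t i * (P.r * P.ci i (vp y)) = ∑ k, P.r * (∑ i, t i * P.e i k) * vp y (some k) := by
      simp only [ci, mul_sum, sum_mul]
      rw [sum_comm]
      exact sum_congr rfl fun _ _ => sum_congr rfl fun _ _ => by ring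
    simp only [val, zt, Fintype.sum_option, Option.elim, mul_add, sum_add_distrib, this, ← sum_mul]
    simp only [vp]; ring
  rw [e, abs_mul]
  gcongr
  exact (abs_add_le _ _).trans (add_le_add le_rfl (abs_sum_le_sum_abs _ _))

theorem zt_nq (s : ℝ) (t : Fin d → ℝ) : H43.nq (P.zt s t) = cov d P.lam s t := by
  have h3 := P.d3
  have d1 : (d : ℝ) - 1 ≠ 0 := by linarith
  have e : ∑ k, (∑ i, t i * P.e i k) ^ 2 =
      ∑ i, t i ^ 2 - ((∑ i, t i) ^ 2 - ∑ i, t i ^ 2) / (d - 1) := by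
    have : ∀ i j, ∑ k, t i * P.e i k * (t j * P.e j k) =
        (if i = j then d / (d - 1 : ℝ) * t i ^ 2 else 0) - 1 / (d - 1 : ℝ) * (t i * t j) := by
      intro i j
      rw [sum_congr rfl fun k _ => mul_mul_mul_comm _ _ _ _, ← mul_sum, P.e1]
      split_ifs with h
      · subst h; field_simp
      · ring
    simp only [sq (∑ _, _), sum_mul_sum]
    rw [sum_comm, sum_congr rfl fun i _ => sum_comm]
    simp only [this, sum_sub_distrib, sum_ite_eq, mem_univ, if_true, ← mul_sum, ← sum_mul]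
    field_simp; ring
  simp only [H43.nq, zt, Fintype.sum_option, Option.elim, mul_pow, ← mul_sum, e, cov, P.r_sq,
    P.lam_eq]
  field_simp; ring

theorem zt_norm (s : ℝ) (t : Fin d → ℝ) : ‖P.zt s t‖ ≤ |s| + ∑ i, |t i| := by
  refine (pi_norm_le_iff_of_nonneg (by positivity)).2 fun j => ?_
  cases j with
  | none =>
    refine (abs_add_le _ _).trans (add_le_add le_rfl ?_)
    rw [abs_mul]
    exact (mul_le_of_le_one_left (abs_nonneg _) (P.abs_rho.trans (by norm_num))).trans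
      (abs_sum_le_sum_abs _ _)
  | some k =>
    change |P.r * _| ≤ _
    rw [abs_mul, abs_of_pos P.r_pos]
    refine (mul_le_of_le_one_left (abs_nonneg _) P.r_le).trans ((abs_sum_le_sum_abs _ _).trans
      (le_add_of_nonneg_of_le (abs_nonneg _) (sum_le_sum fun i _ => ?_)))
    rw [abs_mul]; exact mul_le_of_le_one_right (abs_nonneg _) (P.abs_e i k)

theorem sym_ch {m : Mix (SI d)} (h : P.Sym m) (s : ℝ) :
    d * ∑ ω, (m.p ω : ℂ) * ch s 0 (P.val (m.x ω)) =
      ∑ i, ∑ ω, (m.p ω : ℂ) * ch 0 (Pi.single i s) (P.val (m.x ω)) := by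
  have a := h fun a _ => (Complex.exp (Complex.I * (s * a : ℝ))).re
  have b := h fun a _ => (Complex.exp (Complex.I * (s * a : ℝ))).im
  simp only [Mix.E, sum_const, card_univ, Fintype.card_fin, nsmul_eq_mul] at a b
  simp only [ch, Pi.zero_apply, zero_mul, sum_const_zero, add_zero, zero_add, Pi.single_apply,
    ite_mul, sum_ite_eq', mem_univ, if_true]
  apply Complex.ext
  · simpa only [Complex.re_sum, Complex.re_ofReal_mul, ← Complex.ofReal_natCast] using a
  · simpa only [Complex.im_sum, Complex.im_ofReal_mul, ← Complex.ofReal_natCast] using b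

theorem sym_sq {m : Mix (SI d)} (h : P.Sym m) {e L : ℝ} (e0 : 0 < e) (e1 : e ≤ 1)
    (hL : m.E (fun y => ‖y‖ ^ 2) ≤ L) (hω : m.E (fun y => y none ^ 2) ≤ e ^ 2) :
    |m.E (fun y => H43.sq (vp y)) - (d - 1) * m.E fun y => P.val y none ^ 2| ≤
      (d - 1) * (19 * L + 20) * e := by
  have h3 := P.d3
  have r3 := P.r_ge
  have a := h fun a _ => a ^ 2
  have e2 : m.E (fun y => H43.sq (vp y)) - (d - 1) * m.E (fun y => P.val y none ^ 2) =
      m.E fun y => (d - 1) * ((2 * (1 - P.rho) / P.r ^ 2 - 2) * (y (some none) * y none) -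
        y none ^ 2) := by
    have b : ∀ y : SI d → ℝ, (d - 1) * ((2 * (1 - P.rho) / P.r ^ 2 - 2) *
        (y (some none) * y none) - y none ^ 2) = H43.sq (vp y) - (d - 1) * P.val y none ^ 2 +
        (d - 1) / (d * P.r ^ 2) * (∑ _i : Fin d, P.val y none ^ 2 - ∑ i, P.val y (some i) ^ 2) := by
      intro y
      have c : ∀ i, P.val y (some i) ^ 2 = (P.rho * y (some none) + y none) ^ 2 +
          2 * P.r * (P.rho * y (some none) + y none) * P.ci i (vp y) +
          P.r ^ 2 * P.ci i (vp y) ^ 2 := fun i => by simp only [val, Option.elim]; ring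
      have d1 : (d : ℝ) - 1 ≠ 0 := by linarith
      have r0 : 1 - P.rho ^ 2 ≠ 0 := by linarith [P.rho_sq]
      simp only [c, sum_add_distrib, ← mul_sum, P.sum_ci, P.sum_ci_sq, sum_const, card_univ,
        Fintype.card_fin, nsmul_eq_mul, H43.sq, P.r_sq]
      simp only [val, Option.elim]
      field_simp; ring
    simp only [Mix.E] at a
    rw [sum_comm, sum_comm (s := univ (α := Fin d))] at a
    simp only [← mul_sum] at a
    simp only [b, Mix.E, mul_add, mul_sub (m.p _), mul_left_comm (m.p _), sum_add_distrib,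
      sum_sub_distrib, ← mul_sum, a, sub_self, mul_zero, add_zero]
  rw [e2]
  refine (m.abs_E_le (g := fun y => (d - 1) * (19 * e * ‖y‖ ^ 2 + (19 / e + 1) * y none ^ 2))
    fun y => ?_).trans ?_
  · rw [abs_mul, abs_of_nonneg (by linarith)]
    gcongr
    · linarith
    have c : |2 * (1 - P.rho) / P.r ^ 2 - 2| ≤ 38 := by
      have c1 : 2 * (1 - P.rho) / P.r ^ 2 ≤ 36 := by
        rw [div_le_iff₀ (by positivity)]; nlinarith [(abs_le.1 P.abs_rho).1]
      have c2 : 0 ≤ 2 * (1 - P.rho) / P.r ^ 2 :=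
        div_nonneg (by linarith [(abs_le.1 P.abs_rho).2]) (by positivity)
      rw [abs_le]; constructor <;> linarith
    have n : |y (some none)| ≤ ‖y‖ := norm_le_pi_norm y _
    have f : 2 * (‖y‖ * |y none|) ≤ e * ‖y‖ ^ 2 + |y none| ^ 2 / e := by
      rw [← sub_le_iff_le_add', le_div_iff₀ e0]; nlinarith [sq_nonneg (e * ‖y‖ - |y none|)]
    refine (abs_sub _ _).trans ?_
    rw [abs_mul, abs_mul, abs_pow, ← sq_abs (y none)]
    have g := mul_le_mul c (mul_le_mul_of_nonneg_right n (abs_nonneg (y none))) (by positivity)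
      (by norm_num)
    rw [add_mul, div_mul_eq_mul_div, mul_div_assoc 19]; linarith
  · rw [Mix.E_mul, Mix.E_add, Mix.E_mul, Mix.E_mul, mul_assoc (d - 1 : ℝ)]
    gcongr
    · linarith
    have : (19 / e + 1) * m.E (fun y => y none ^ 2) ≤ (19 / e + 1) * e ^ 2 := by gcongr
    have f : (19 / e + 1) * e ^ 2 = 19 * e + e * e := by field_simp
    nlinarith

end Par

theorem char_mix (d : ℕ) {L R ε : ℝ} (hd : 3 ≤ d) (L0 : 0 ≤ L) (R0 : 0 ≤ R) (ε0 : 0 < ε) :
    ∃ e : ℝ, 0 < e ∧ e ≤ 1 ∧ ∀ (P : Par d) (m : Mix (SI d)) (v θ T σ : ℝ), P.Sym m → 1 ≤ v →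
    v ≤ 4 → m.E (fun y => ‖y‖ ^ 2) ≤ L → m.E (fun y => y none ^ 2) ≤ e ^ 2 → 1 / e ≤ T →
    H43.St (H43.mx m.p (fun ω => vp (m.x ω)) v) θ T e → m.E (fun y => H43.wt (T / 2) (vp y)) ≤ e →
    0 ≤ σ → σ ≤ L → |m.E (fun y => P.val y none ^ 2) - σ| ≤ e →
    ∀ (s : ℝ) (t : Fin d → ℝ), |s| + ∑ i, |t i| ≤ R →
      ‖∑ ω, (m.p ω : ℂ) * ch s t (P.val (m.x ω)) - (exp (-(σ * cov d P.lam s t) / 2) : ℝ)‖ ≤ ε := by
  have : Nonempty (Fin (d - 1)) := ⟨⟨0, by omega⟩⟩
  have d3 : (3 : ℝ) ≤ d := by exact_mod_cast hd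
  obtain ⟨D, D1, hD⟩ := H43.prod_mx (K := Fin (d - 1)) (C := (d + 1) * L) (by positivity)
  obtain ⟨j, hj⟩ := exists_pow_lt_of_lt_one
    (show 0 < ε / 2 / (R * (1 + L + L * R) + 1) by positivity) (show (19 / 20 : ℝ) < 1 by norm_num)
  rw [lt_div_iff₀ (by positivity)] at hj
  set D2 := (d - 1) * (19 * L + 21)
  have D3 : 1 ≤ D2 := one_le_mul_of_one_le_of_one_le (by linarith) (by linarith)
  set G := (1 + (d + 1) * R ^ 2) * exp (2 * ((d + 1) * R ^ 2))
  have G0 : 0 < G := by positivity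
  set H := 2 * R + D * D2 * G
  have H0 : 0 < H := by positivity
  obtain ⟨e, e0, a1, a2⟩ : ∃ e : ℝ, 0 < e ∧ D * D2 * e ≤ 1 ∧ (j + 1) * H * e ≤ ε / 2 :=
    ⟨min (1 / (D * D2)) (ε / 2 / ((j + 1) * H)), by positivity,
      by rw [mul_comm, ← le_div_iff₀ (by positivity)]; exact min_le_left _ _,
      by rw [mul_comm, ← le_div_iff₀ (by positivity)]; exact min_le_right _ _⟩
  have e1 : e ≤ 1 :=
    (le_mul_of_one_le_left e0.le (one_le_mul_of_one_le_of_one_le D1 D3)).trans a1
  have e2 : e ≤ D2 * e := le_mul_of_one_le_left e0.le D3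
  refine ⟨e, e0, e1, fun P m v θ T σ hS v1 v4 hL hω hT hSt hw σ0 σL hσ => ?_⟩
  have nv : ∀ y : SI d → ℝ, H43.nq (vp y) ≤ (d + 1) * ‖y‖ ^ 2 := fun y =>
    (nq_le _).trans (by have := norm_vp y; gcongr)
  have A := hD m.Ω m.p (fun ω => vp (m.x ω)) v θ T (D2 * e) σ m.p0 m.p1 v1 v4
    ((m.E_mono nv).trans (by rw [Mix.E_mul]; gcongr)) (by positivity) (by rwa [← mul_assoc])
    (le_trans (by gcongr) hT) (fun y hy => (hSt y hy).trans e2) (hw.trans e2) σ0 (by
      have a := P.sym_sq hS e0 e1 hL hω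
      have b := mul_le_mul_of_nonneg_left hσ (show (0 : ℝ) ≤ d - 1 by linarith)
      rw [← abs_of_nonneg (show (0 : ℝ) ≤ d - 1 by linarith), ← abs_mul, mul_sub,
        abs_of_nonneg (show (0 : ℝ) ≤ d - 1 by linarith)] at b
      rw [Fintype.card_fin, Nat.cast_pred (by omega)]
      refine (abs_sub_le _ _ _).trans ((add_le_add a b).trans_eq ?_)
      simp only [D2]; ring)
  set χ : ℝ → ℂ := fun s => H43.cx m.p (fun ω => vp (m.x ω)) (Pi.single none s)
  set Φ : ℝ → (Fin d → ℝ) → ℂ := fun s t => ∑ ω, (m.p ω : ℂ) * ch s t (P.val (m.x ω))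
  have B : ∀ s t, |s| + ∑ i, |t i| ≤ R →
      ‖Φ s t - H43.cx m.p (fun ω => vp (m.x ω)) (P.zt s t)‖ ≤ R * e := fun s t h => by
    refine (m.norm_sub_le (g := fun y => R * (e / 2 + 1 / (2 * e) * y none ^ 2))
      fun y => (P.zt_ch s t y).trans ?_).trans ?_
    · gcongr
      rw [← sub_le_iff_le_add', one_div_mul_eq_div, le_div_iff₀ (by positivity), ← sq_abs (y none)]
      nlinarith [sq_nonneg (e - |y none|)]
    · rw [Mix.E_mul, Mix.E_add, Mix.E_const, Mix.E_mul]
      gcongr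
      rw [← le_sub_iff_add_le', one_div_mul_eq_div, div_le_iff₀ (by positivity)]; linarith
  have C : ∀ s t, |s| + ∑ i, |t i| ≤ R → ‖Φ s t - χ (P.zt s t none) *
      (exp (-(σ * (cov d P.lam s t - P.zt s t none ^ 2) / 2)) : ℝ)‖ ≤ (R + D * D2 * G) * e :=
    fun s t h => by
    have a := A (P.zt s t)
    have b : H43.sq (P.zt s t) = cov d P.lam s t - P.zt s t none ^ 2 := by
      rw [← P.zt_nq, H43.nq, Fintype.sum_option, H43.sq]; ring
    have c : H43.nq (P.zt s t) ≤ (d + 1) * R ^ 2 :=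
      (nq_le _).trans (by have := (P.zt_norm s t).trans h; gcongr)
    rw [b] at a
    refine (norm_sub_le_norm_sub_add_norm_sub _ _ _).trans ((add_le_add (B s t h) a).trans ?_)
    have : (1 + H43.nq (P.zt s t)) * exp (2 * H43.nq (P.zt s t)) ≤ G := by simp only [G]; gcongr
    have := mul_le_mul_of_nonneg_left this (show 0 ≤ D * (D2 * e) by positivity)
    linarith
  have I := H43.iter (χ := χ) (R := R) (η := H * e) (C := 1 + L) P.abs_rho (by norm_num)
    (by positivity) σ0 (fun s hs => by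
      have a := B s 0 (by simpa using hs)
      have z : P.zt s 0 = Pi.single none s := by funext j; cases j <;> simp [Par.zt]
      rw [z, norm_sub_rev] at a
      have b : ∀ i, ‖Φ 0 (Pi.single i s) - χ (P.rho * s) *
          (exp (-(σ * ((1 - P.rho ^ 2) * s ^ 2) / 2)) : ℝ)‖ ≤ (R + D * D2 * G) * e := fun i => by
        have s1 : ∑ l, (Pi.single i s : Fin d → ℝ) l = s := by simp
        have s2 : ∑ l, (Pi.single i s : Fin d → ℝ) l ^ 2 = s ^ 2 := by simp [Pi.single_apply]
        have s3 : ∑ l, |(Pi.single i s : Fin d → ℝ) l| = |s| := by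
          simp [Pi.single_apply, apply_ite abs]
        have := C 0 (Pi.single i s) (by rwa [s3, abs_zero, zero_add])
        simp only [Par.zt, Option.elim, cov, s1, s2, zero_add] at this
        convert this using 7; ring
      have c := (norm_sum_le _ _).trans (sum_le_sum fun i (_ : i ∈ univ) => b i)
      rw [sum_sub_distrib, ← P.sym_ch hS, sum_const, sum_const, card_univ, Fintype.card_fin,
        nsmul_eq_mul, nsmul_eq_mul, ← mul_sub, norm_mul, Complex.norm_natCast] at c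
      refine (norm_sub_le_norm_sub_add_norm_sub _ _ _).trans
        ((add_le_add a (le_of_mul_le_mul_left c (by linarith))).trans_eq ?_)
      simp only [H]; ring)
    (fun s => by
      have := m.norm_sub_le (f := fun y => H43.ch (Pi.single none s) (vp y)) (f' := fun _ => 1)
        (g := fun y => |s| * (1 + ‖y‖ ^ 2)) fun y => by
        refine Real.norm_exp_I_mul_ofReal_sub_one_le.trans ?_
        simp only [Fintype.sum_option, Pi.single_eq_same, Pi.single_eq_of_ne (Option.some_ne_none _),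
          zero_mul, sum_const_zero, add_zero, norm_eq_abs, abs_mul]
        gcongr
        nlinarith [show |vp y none| ≤ ‖y‖ from norm_le_pi_norm y _, sq_nonneg (‖y‖ - 1)]
      simp only [mul_one, ← Complex.ofReal_sum, m.p1, Complex.ofReal_one] at this
      refine this.trans ?_
      rw [Mix.E_mul, Mix.E_add, Mix.E_const, mul_comm]; gcongr) j
  intro s t h
  have n : |P.zt s t none| ≤ R := ((norm_le_pi_norm _ _).trans (P.zt_norm s t)).trans h
  have a := I _ n
  have q0 : 0 ≤ cov d P.lam s t - P.zt s t none ^ 2 := by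
    rw [← P.zt_nq, H43.nq, Fintype.sum_option, add_sub_cancel_left]; positivity
  refine (norm_sub_le_norm_sub_add_norm_sub _ _ _).trans ((add_le_add (C s t h) le_rfl).trans ?_)
  rw [show exp (-(σ * cov d P.lam s t) / 2) = exp (-(σ * P.zt s t none ^ 2 / 2)) *
      exp (-(σ * (cov d P.lam s t - P.zt s t none ^ 2) / 2)) by rw [← exp_add]; congr 1; ring,
    Complex.ofReal_mul, ← sub_mul, norm_mul, Complex.norm_real, norm_eq_abs, abs_of_pos (exp_pos _)]
  have b := (mul_le_of_le_one_right (norm_nonneg _) (exp_le_one_iff.2 (show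
    -(σ * (cov d P.lam s t - P.zt s t none ^ 2) / 2) ≤ 0 by linarith [mul_nonneg σ0 q0]))).trans a
  have c : (19 / 20 : ℝ) ^ j * |P.zt s t none| * (1 + L + σ * R) ≤
      (19 / 20) ^ j * (R * (1 + L + L * R) + 1) := by
    rw [mul_assoc]; gcongr
    exact le_add_of_le_of_nonneg (by gcongr) zero_le_one
  have f : (R + D * D2 * G) * e ≤ H * e := by simp only [H]; gcongr; linarith
  linarith

end Pool.Agent.P.MP_6b977f_mp.RG
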