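import Pool.Agent.P.MP_6b977f_mp.RG.IfaceA
import Pool.Agent.P.MP_6b977f_mp.RG.LibC43

/-! Step AN2. -/

namespace Pool.Agent.P.MP_6b977f_mp.RG

open Finset MeasureTheory Real
open scoped Classical

namespace AN2x
variable {d : ℕ} (P : Par d) (μ : Law d) {δ : ℝ} (K : ℕ)

theorem chi_mix (h0 : 0 ≤ δ) (s : ℝ) (t : Fin d → ℝ) :
    ‖μ.chi δ s t - ∑ ω, ((P.mix μ δ K).p ω : ℂ) * ch s t (P.val ((P.mix μ δ K).x ω))‖ ≤
      (|s| + ∑ i, |t i|) * δ := by
  have k0 : (0 : ℝ) < K + 1 := by positivity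
  have e : μ.chi δ s t = ∑ ω : (P.mix μ δ K).Ω, ((P.mix μ δ K).p ω : ℂ) * ch s t (re δ ω.1.1) := by
    change _ = ∑ ω : μ.A × (Option (Fin d) → Fin (K + 1)),
      ((μ.p ω.1 / (K + 1) ^ (d + 1) : ℝ) : ℂ) * ch s t (re δ ω.1)
    simp only [Fintype.sum_prod_type, sum_const, card_univ, Fintype.card_fun, Fintype.card_fin,
      Fintype.card_option, nsmul_eq_mul, Law.chi]
    rw [← Finset.sum_coe_sort μ.A fun z => (μ.p z : ℂ) * ch s t (re δ z)]
    refine sum_congr rfl fun z _ => ?_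
    have : (K : ℂ) + 1 ≠ 0 := by exact_mod_cast k0.ne'
    push_cast
    field_simp
  rw [e, ← (P.mix μ δ K).E_const ((|s| + ∑ i, |t i|) * δ), ← sum_sub_distrib]
  refine (norm_sum_le _ _).trans (sum_le_sum fun ω _ => ?_)
  rw [← mul_sub, norm_mul, Complex.norm_real, norm_eq_abs, abs_of_nonneg ((P.mix μ δ K).p0 ω)]
  refine mul_le_mul_of_nonneg_left ((norm_eI_sub _ _).trans ?_) ((P.mix μ δ K).p0 ω)
  have a : ∀ o, |re δ ω.1.1 o - P.val ((P.mix μ δ K).x ω) o| ≤ δ := fun o => by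
    simp only [Par.mix, P.val_wh, re]
    rw [← mul_sub, sub_add_cancel_left, mul_neg, abs_neg, abs_of_nonneg (by positivity)]
    exact mul_le_of_le_one_right h0 ((div_le_one k0).2 (by exact_mod_cast (ω.2 o).2.le))
  rw [add_sub_add_comm, ← mul_sub, ← sum_sub_distrib, add_mul, sum_mul]
  refine (abs_add_le _ _).trans (add_le_add ?_ ((abs_sum_le_sum_abs _ _).trans
    (sum_le_sum fun i _ => ?_)))
  · rw [abs_mul]; exact mul_le_mul_of_nonneg_left (a _) (abs_nonneg _)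
  · rw [← mul_sub, abs_mul]; exact mul_le_mul_of_nonneg_left (a _) (abs_nonneg _)

theorem sq_mix (h0 : 0 ≤ δ) (h1 : δ ≤ 1) :
    |(P.mix μ δ K).E (fun y => P.val y none ^ 2) - μ.E fun z => re δ z none ^ 2| ≤
      δ * (2 + μ.E fun z => re δ z none ^ 2) := by
  have a : ∀ (s : St d) (u : Option (Fin d) → ℝ), (∀ o, 0 ≤ u o ∧ u o ≤ 1) →
      |P.val (P.wh fun o => δ * (s o + u o)) none ^ 2 - re δ s none ^ 2| ≤
        δ * (2 + re δ s none ^ 2) := fun s u hu => by
    have e : P.val (P.wh fun o => δ * (s o + u o)) none ^ 2 - re δ s none ^ 2 =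
        δ * (u none * (2 * re δ s none + δ * u none)) := by simp only [P.val_wh, re]; ring
    obtain ⟨u0, u1⟩ := hu none
    rw [e, abs_mul, abs_mul, abs_of_nonneg h0, abs_of_nonneg u0]
    gcongr
    refine (mul_le_of_le_one_left (abs_nonneg _) u1).trans (abs_le.2 ⟨?_, ?_⟩) <;>
      nlinarith [sq_nonneg (re δ s none - 1), sq_nonneg (re δ s none + 1), mul_nonneg h0 u0,
        mul_le_one₀ h1 u0 u1]
  have b := P.mix_E_le μ δ K (g := fun y => P.val y none ^ 2)
    (f := fun s => (1 + δ) * re δ s none ^ 2 + 2 * δ) fun s u hu => by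
      linarith [(abs_le.1 (a s u hu)).2]
  have c := P.mix_E_le μ δ K (g := fun y => -1 * P.val y none ^ 2)
    (f := fun s => (δ - 1) * re δ s none ^ 2 + 2 * δ) fun s u hu => by
      linarith [(abs_le.1 (a s u hu)).1]
  rw [Law.E_add, Law.E_mul, Law.E_const] at b c
  rw [Mix.E_mul] at c
  rw [abs_le]; constructor <;> linarith

theorem wt_mix {T : ℝ} (h0 : 0 ≤ δ) (h1 : δ ≤ 1) (hT : 1 ≤ T) :
    (P.mix μ δ K).E (fun y => H43.wt (84 * d * T / 2) (vp y)) ≤
      (1 + (d + 1) * (42 * d) ^ 2) * μ.E fun s => max (‖re δ s‖ - T) 0 ^ 2 := by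
  have d3 := P.d3
  rw [← Law.E_mul]
  refine P.mix_E_le μ δ K fun s u hu => ?_
  have a := (norm_vp _).trans ((P.norm_wh _).trans
    (mul_le_mul_of_nonneg_left (Par.norm_shift h0 s hu) (by positivity)))
  set y := vp (P.wh fun o => δ * (s o + u o))
  by_cases h : ∃ j, 84 * d * T / 2 < |y j|
  · obtain ⟨j, hj⟩ := h
    have b : 14 * d * (3 * T) ≤ 14 * d * (‖re δ s‖ + δ) := by
      linarith [show |y j| ≤ ‖y‖ from norm_le_pi_norm y j]
    have c := le_of_mul_le_mul_left b (by positivity)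
    have m1 := le_max_left (‖re δ s‖ - T) 0
    set m := max (‖re δ s‖ - T) 0
    have e : ‖y‖ ≤ 42 * d * m := a.trans (by nlinarith [show ‖re δ s‖ + δ ≤ 3 * m by linarith])
    refine (H43.wt_le _ _).trans ?_
    rw [add_mul, one_mul, mul_assoc, ← mul_pow]
    exact add_le_add (one_le_pow₀ (by linarith)) ((nq_le _).trans (by gcongr))
  · rw [H43.wt, Set.indicator_of_notMem (show y ∉ {y : VI d → ℝ | ∃ j, _ < |y j|} from h)]
    positivity

end AN2x

theorem p_AN2 (hAN : S_AN) (hLSYM : S_LSYM) (hNL : S_NL) (hDER : S_DER) :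
    S_AN2 := by
  intro d κ0 L h0
  by_cases hd : 3 ≤ d
  swap
  · exact ⟨1, le_rfl, fun _ _ _ => ⟨1, one_pos, fun P => (hd P.hd).elim⟩⟩
  have d3 : (3 : ℝ) ≤ d := by exact_mod_cast hd
  obtain ⟨C, C1, hC⟩ := law_NL hAN hLSYM hNL d κ0 |L| (84 * d) h0 (by linarith)
  refine ⟨C, C1, fun R ε' ε0 => ?_⟩
  set L' := 392 * (d : ℝ) ^ 2 * (|L| + 1)
  have L0 := abs_nonneg L
  have L1 : |L| ≤ L' :=
    (le_add_of_nonneg_right zero_le_one).trans (le_mul_of_one_le_left (by positivity) (by nlinarith))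
  obtain ⟨e, e0, e1, he⟩ := char_mix d hd (L0.trans L1) (abs_nonneg R) (half_pos ε0)
  set W := 1 + ((d : ℝ) + 1) * (42 * d) ^ 2
  have W0 : 0 < W := by positivity
  have R0 := abs_nonneg R
  obtain ⟨s0, sp, a1, a2⟩ : ∃ s0 : ℝ, 0 < s0 ∧ (3300 + d * C + W + |L|) * s0 ≤ e ^ 2 ∧
      (|R| + 1) * s0 ≤ ε' / 2 :=
    ⟨min (e ^ 2 / (3300 + d * C + W + |L|)) (ε' / 2 / (|R| + 1)), by positivity,
      by rw [mul_comm, ← le_div_iff₀ (by positivity)]; exact min_le_left _ _,
      by rw [mul_comm, ← le_div_iff₀ (by positivity)]; exact min_le_right _ _⟩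
  refine ⟨s0, sp, fun P μ δ η ε T hl hS hδ δε hη hg hW hL hT hε hh s t hR => ?_⟩
  have e2 : e ^ 2 ≤ e := pow_le_of_le_one e0.le e1 two_ne_zero
  have n1 : 0 < d * C * s0 := by positivity
  have n2 : 0 < W * s0 := by positivity
  have n3 : 0 ≤ |L| * s0 := by positivity
  have s1 : s0 ≤ 1 := by linarith
  have T1 : 1 ≤ T := le_trans ((one_le_div sp).2 s1) hT
  have Ts : 1 ≤ s0 * T := by rwa [div_le_iff₀' sp] at hT
  have εs : ε ≤ s0 := by
    have a := add_one_le_exp (C * T ^ 2)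
    have b : T ≤ exp (C * T ^ 2) := by
      linarith [mul_le_mul C1 (le_self_pow₀ T1 two_ne_zero) (by linarith) (by linarith)]
    exact le_of_mul_le_mul_right (((mul_le_mul_of_nonneg_left b (by linarith)).trans hε).trans Ts)
      (by linarith)
  have hL' := hL.trans (le_abs_self L)
  obtain ⟨K, v, θ, v1, v3, sy, mom, om, nl⟩ := hC P μ δ η ε T hl hS hδ δε hη hg hW hL' T1 hε
  have σ0 : 0 ≤ μ.E fun z => re δ z none ^ 2 :=
    (μ.E_const 0).symm.trans_le (μ.E_mono fun _ => sq_nonneg _)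
  have σ1 : (μ.E fun z => re δ z none ^ 2) ≤ |L| := (μ.E_mono fun z => by
    rw [← sq_abs]; exact pow_le_pow_left₀ (abs_nonneg _) (norm_le_pi_norm (re δ z) none) 2).trans hL'
  have MT : T ≤ 84 * d * T := le_mul_of_one_le_left (by linarith) (by linarith)
  have b1 : d * (C * exp (-(84 * d * T) ^ 2)) * (84 * d * T) ≤ e := by
    generalize 84 * d * T = x at MT
    have a : exp (-x ^ 2) * x ≤ s0 := by
      have x1 := T1.trans MT
      have a1 := Ts.trans (mul_le_mul_of_nonneg_left MT sp.le)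
      have a2 : x * x ≤ exp (x ^ 2) := by linarith [add_one_le_exp (x ^ 2)]
      rw [exp_neg, inv_mul_le_iff₀ (exp_pos _)]
      calc x ≤ s0 * x * x := le_mul_of_one_le_left (by linarith) a1
        _ ≤ _ := by rw [mul_assoc, mul_comm]; gcongr
    have := mul_le_mul_of_nonneg_left a (show 0 ≤ d * C by positivity)
    linarith
  have b2 := (AN2x.wt_mix P μ K hδ.le (δε.trans (εs.trans s1)) T1).trans
    ((mul_le_mul_of_nonneg_left hh W0.le).trans (show W * s0 ≤ e by linarith))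
  have b3 := (AN2x.sq_mix P μ K hδ.le (δε.trans (εs.trans s1))).trans
    ((mul_le_mul (δε.trans εs) (add_le_add le_rfl σ1) (by positivity) sp.le).trans
      (show s0 * (2 + |L|) ≤ e by linarith))
  have b4 : 1 / e ≤ 84 * d * T :=
    (one_div_le_one_div_of_le sp (by linarith)).trans (hT.trans MT)
  have b5 := St_NL hDER (by linarith) (by positivity) nl b1
  have A := he P (P.mix μ δ K) v θ (84 * d * T) _ sy v1 (by linarith) mom
    (om.trans (by linarith)) b4 b5 b2 σ0 (σ1.trans L1) b3 s t (hR.trans (le_abs_self R))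
  have B := (AN2x.chi_mix P μ K hδ.le s t).trans
    (mul_le_mul (hR.trans (le_abs_self R)) (δε.trans εs) hδ.le R0)
  exact (norm_sub_le_norm_sub_add_norm_sub _ _ _).trans ((add_le_add B A).trans (by linarith))

end Pool.Agent.P.MP_6b977f_mp.RG
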