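import Pool.Agent.P.MP_6b977f_mp.RG.LibK
import Pool.Agent.P.MP_6b977f_mp.RG.IfaceA

/-! Step CA. -/

namespace Pool.Agent.P.MP_6b977f_mp.RG

open Finset MeasureTheory Real Filter
open scoped Classical

namespace CAx

theorem pt {d : ℕ} (hd : 3 ≤ d) {ρ T : ℝ} (hρ : |ρ| ≤ 19 / 20) (hT : 25 ≤ T)
    (z z' : Option (Fin d) → ℝ) : ind (Reg1 T z) ≤
      ind (‖z'‖ ≤ 3 * d * T ∧ ∃ i, T / 100 ≤ |z' (some i) - ρ * z' none|) +
        4 * ∑ o, (z' o - z o) ^ 2 := by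
  have d3 : (3 : ℝ) ≤ d := by exact_mod_cast hd
  have p : 0 ≤ ∑ o, (z' o - z o) ^ 2 := by positivity
  by_cases h : Reg1 T z
  swap
  · rw [ind_neg h]
    linarith [ind_nonneg (‖z'‖ ≤ 3 * d * T ∧ ∃ i, T / 100 ≤ |z' (some i) - ρ * z' none|)]
  rw [ind_pos h]
  by_cases h' : ∀ o, |z' o - z o| ≤ 1 / 2
  · obtain ⟨h1, h2, i, h3⟩ := h
    have k : ∀ o, |z' o| ≤ |z o| + 1 / 2 := fun o => by
      linarith [abs_sub_abs_le_abs_sub (z' o) (z o), h' o]
    rw [ind_pos]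
    · linarith
    refine ⟨(pi_norm_le_iff_of_nonneg (by positivity)).2 fun o => (k o).trans ?_, i, ?_⟩
    · cases o with
      | none => nlinarith
      | some j => nlinarith [h2 j]
    · have a1 := abs_sub_abs_le_abs_sub (z' (some i)) (ρ * z' none)
      have a2 := abs_sub_abs_le_abs_sub (z (some i)) (z' (some i))
      rw [abs_sub_comm] at a2
      rw [abs_mul] at a1
      nlinarith [h' (some i), k none, mul_le_mul_of_nonneg_right hρ (abs_nonneg (z' none))]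
  · push Not at h'
    obtain ⟨o, ho⟩ := h'
    have := single_le_sum (f := fun o => (z' o - z o) ^ 2) (fun _ _ => sq_nonneg _) (mem_univ o)
    have h2 : 1 / 4 ≤ (z' o - z o) ^ 2 := by rw [← sq_abs]; nlinarith
    linarith [ind_nonneg (‖z'‖ ≤ 3 * d * T ∧ ∃ i, T / 100 ≤ |z' (some i) - ρ * z' none|)]

theorem star_sub {d N : ℕ} (M : Cfg d N) (f ψ : Fin N → ℝ) :
    ∑ x, ∑ o, (star M f x o - star M ψ x o) ^ 2 = (d + 1) * ∑ y, (f y - ψ y) ^ 2 := by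
  rw [← sum_star M (fun y => f y - ψ y) fun t => t ^ 2]
  refine sum_congr rfl fun x _ => sum_congr rfl fun o _ => ?_
  cases o <;> rfl

end CAx

theorem p_CA (hKEY : S_KEY) (hFR : S_FR) (hAN1 : S_AN1) :
    S_CA := by
  intro d κ0 a hd hκ ha ha'
  obtain ⟨C, c1, hC, hc1, h1⟩ := hAN1 d κ0 (4 * (d + 1)) hκ
  obtain ⟨Ce, hCe, h2⟩ := core hKEY d hd a ha ha'
  refine ⟨min (a / (2 * C)) (a / c1), c1 / 2, by positivity, by positivity, fun b hb hb' => ?_⟩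
  have b1 : C * b ≤ a / 2 := by
    have := (le_div_iff₀ (by positivity)).1 (hb'.trans (min_le_left _ _)); linarith
  have b2 : c1 * b ≤ a := by
    have := (le_div_iff₀ hc1).1 (hb'.trans (min_le_right _ _)); linarith
  have b3 : 0 < c1 * b := by positivity
  refine eventually_atTop.1 ?_
  filter_upwards [h2, eventually_ge_atTop 1, ev_T hb C, ev_T hb 25,
    ev_rpow Ce (by linarith : -a + C * b < 0), ev_rpow 3 (by linarith : -(c1 * b) < -(c1 / 2 * b)),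
    ev_rpow (3 * (4 * (d + 1))) (by linarith : -(2 * a) < -(c1 / 2 * b))] with N n0 n1 n2 n3 n4 n5 n6
  intro lam' hl
  have N1 : (1 : ℝ) ≤ N := by exact_mod_cast n1
  have N0 : (0 : ℝ) < N := by linarith
  obtain ⟨l1, l2⟩ := bulk_sq hd hκ hl
  obtain ⟨P, rfl⟩ := hFR d lam' hd l1
  have e2 : (N : ℝ) ^ (-(2 * a)) = ((N : ℝ) ^ (-a)) ^ 2 := by
    rw [← rpow_natCast, ← rpow_mul N0.le]; congr 1; push_cast; ring
  have u1 : (N : ℝ) ^ (-a) ≤ 1 := rpow_le_one_of_one_le_of_nonpos N1 (by linarith)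
  have u0 : 0 < (N : ℝ) ^ (-a) := by positivity
  refine n0 P.lam Unit (fun _ s => -1 * ind (‖re (((N : ℝ) ^ (-a)) ^ 4) s‖ ≤ 3 * d * √(b * log N) ∧
    ∃ i, √(b * log N) / 100 ≤ |re (((N : ℝ) ^ (-a)) ^ 4) s (some i) -
      P.rho * re (((N : ℝ) ^ (-a)) ^ 4) s none|))
    (fun _ => -((N : ℝ) ^ (-(c1 / 2 * b)) - 4 * (d + 1) * ((N : ℝ) ^ (-a)) ^ 2)) _
    (filter_subset _ _) l2 ?_ ?_
  · intro M hM
    obtain ⟨-, m1, ψ, lam, m2, m3, m4⟩ := mem_filter.1 hM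
    refine ⟨m1, ψ, lam, m2, m3, fun φ hφ _ => ?_⟩
    have s := sum_le_sum fun x (_ : x ∈ univ) => CAx.pt hd P.abs_rho n3 (star M ψ x)
      (star M (fun y => ((N : ℝ) ^ (-a)) ^ 4 * (φ y : ℝ)) x)
    rw [sum_add_distrib, ← mul_sum, CAx.star_sub, sum_ind] at s
    rw [sub_eq_add_neg, rpow_add N0, rpow_one] at m4
    simp only [← mul_sum, re_star]
    nlinarith [mul_le_mul_of_nonneg_left hφ (by positivity : (0 : ℝ) ≤ d + 1)]
  · intro μ η s1 s2 s3 s4 _ s5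
    by_contra hg
    have t1 := s5 ()
    rw [Law.E_mul] at t1
    have t2 := h1 P μ _ η _ _ hl s1 (by positivity) ?_ s2 (not_le.1 hg).le s3 s4 n2 ?_
    · rw [← neg_mul, exp_T n1 hb.le, neg_mul] at t2
      rw [e2] at n6
      have : 0 < (N : ℝ) ^ (-(c1 / 2 * b)) := by positivity
      linarith
    · calc ((N : ℝ) ^ (-a)) ^ 4 ≤ ((N : ℝ) ^ (-a)) ^ 1 := pow_le_pow_of_le_one u0.le u1 (by norm_num)
        _ ≤ _ := by rw [pow_one]; exact le_mul_of_one_le_left u0.le hCe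
    · rw [exp_T n1 hb.le, mul_assoc, ← rpow_add N0]
      simpa using n4

end Pool.Agent.P.MP_6b977f_mp.RG
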