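import Pool.Agent.P.MP_6b977f_mp.RG.LibK
import Pool.Agent.P.MP_6b977f_mp.RG.IfaceA

/-! Step CB. -/

namespace Pool.Agent.P.MP_6b977f_mp.RG

open Finset MeasureTheory Real Filter
open scoped Classical

namespace CBx

theorem abs_cov {d : ℕ} (hd : 3 ≤ d) {lam s R : ℝ} {t : Fin d → ℝ} (hl : |lam| ≤ d)
    (h : |s| + ∑ i, |t i| ≤ R) : |cov d lam s t| ≤ 5 * R ^ 2 := by
  have d3 : (3 : ℝ) ≤ d := by exact_mod_cast hd
  have a0 : 0 ≤ ∑ i, |t i| := by positivity
  have a1 : |∑ i, t i| ≤ R := (abs_sum_le_sum_abs _ _).trans (by linarith [abs_nonneg s])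
  have a2 : |s| ≤ R := by linarith
  have R0 : 0 ≤ R := (abs_nonneg _).trans a2
  have a3 : ∑ i, t i ^ 2 ≤ R ^ 2 := by
    have := sum_sq_le_sq_sum_of_nonneg (s := univ) (f := fun i => |t i|) fun _ _ => abs_nonneg _
    simp only [sq_abs] at this
    exact this.trans (pow_le_pow_left₀ a0 (by linarith [abs_nonneg s]) 2)
  have a4 : 0 ≤ ∑ i, t i ^ 2 := by positivity
  have a5 : (∑ i, t i) ^ 2 ≤ R ^ 2 := by rw [← sq_abs]; exact pow_le_pow_left₀ (abs_nonneg _) a1 2
  have a6 : s ^ 2 ≤ R ^ 2 := by rw [← sq_abs]; exact pow_le_pow_left₀ (abs_nonneg _) a2 2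
  have b1 : |lam / d| ≤ 1 := by
    rw [abs_div, abs_of_pos (by linarith : (0 : ℝ) < d), div_le_one (by linarith)]; exact hl
  have b2 : |(lam ^ 2 / d - 1) / (d - 1)| ≤ 1 := by
    have l2 : lam ^ 2 / d ≤ d := by
      rw [div_le_iff₀ (by linarith), ← sq_abs]; nlinarith [abs_nonneg lam]
    have l3 : 0 ≤ lam ^ 2 / d := by positivity
    rw [abs_div, abs_of_pos (by linarith : (0 : ℝ) < d - 1), div_le_one (by linarith), abs_le]
    constructor <;> linarith
  have c1 : |2 * (lam / d) * s * ∑ i, t i| ≤ 2 * 1 * R * R := by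
    rw [abs_mul, abs_mul, abs_mul, abs_two]
    gcongr
  have c2 : |(lam ^ 2 / d - 1) / (d - 1) * ((∑ i, t i) ^ 2 - ∑ i, t i ^ 2)| ≤ 1 * R ^ 2 := by
    rw [abs_mul]
    refine mul_le_mul b2 (abs_le.2 ⟨?_, ?_⟩) (abs_nonneg _) zero_le_one <;>
      linarith [sq_nonneg (∑ i, t i)]
  rw [cov, abs_le]
  constructor <;> nlinarith [abs_le.1 c1, abs_le.1 c2, sq_nonneg s]

theorem ch_sub {d : ℕ} {s R : ℝ} {t : Fin d → ℝ} (h : |s| + ∑ i, |t i| ≤ R)
    (z z' : Option (Fin d) → ℝ) : ‖ch s t z - ch s t z'‖ ≤ R * ‖z - z'‖ := by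
  have k : ∀ x y : ℝ, ‖Complex.exp (Complex.I * x) - Complex.exp (Complex.I * y)‖ ≤ |x - y| := by
    intro x y
    have : Complex.exp (Complex.I * x) - Complex.exp (Complex.I * y) =
        Complex.exp (Complex.I * y) * (Complex.exp (Complex.I * (x - y : ℝ)) - 1) := by
      rw [mul_sub, ← Complex.exp_add, mul_one]; congr 2; push_cast; ring
    rw [this, norm_mul, mul_comm Complex.I (y : ℂ), Complex.norm_exp_ofReal_mul_I, one_mul]
    exact Real.norm_exp_I_mul_ofReal_sub_one_le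
  refine (k _ _).trans ?_
  have e : s * z none + ∑ i, t i * z (some i) - (s * z' none + ∑ i, t i * z' (some i)) =
      s * (z - z') none + ∑ i, t i * (z - z') (some i) := by
    simp only [Pi.sub_apply, mul_sub, sum_sub_distrib]; ring
  rw [e]
  refine (abs_add_le _ _).trans (le_trans ?_ (mul_le_mul_of_nonneg_right h (norm_nonneg _)))
  rw [add_mul, sum_mul, abs_mul]
  refine add_le_add (mul_le_mul_of_nonneg_left (norm_le_pi_norm (z - z') none) (abs_nonneg _))
    ((abs_sum_le_sum_abs _ _).trans (sum_le_sum fun i _ => ?_))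
  rw [abs_mul]
  exact mul_le_mul_of_nonneg_left (norm_le_pi_norm (z - z') (some i)) (abs_nonneg _)

theorem heavy {ι : Type} [Fintype ι] (z : ι → ℝ) {T : ℝ} (hT : 0 ≤ T) :
    max (‖z‖ - T) 0 ^ 2 ≤ ∑ o, max (|z o| - T) 0 ^ 2 := by
  refine le_trans ?_ (norm_sq_le fun o => max (|z o| - T) 0)
  refine pow_le_pow_left₀ (le_max_right _ _) (max_le ?_ (norm_nonneg _)) 2
  rw [sub_le_iff_le_add]
  refine (pi_norm_le_iff_of_nonneg (by positivity)).2 fun o => ?_
  have := norm_le_pi_norm (fun o => max (|z o| - T) 0) o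
  rw [Real.norm_eq_abs] at this ⊢
  linarith [le_max_left (|z o| - T) 0, le_abs_self (max (|z o| - T) 0)]

theorem heavy2 (x y T : ℝ) : max (|x| - T) 0 ^ 2 ≤ 2 * max (|y| - T) 0 ^ 2 + 2 * (x - y) ^ 2 := by
  have h : max (|x| - T) 0 ≤ max (|y| - T) 0 + |x - y| := max_le
    (by linarith [abs_sub_abs_le_abs_sub x y, le_max_left (|y| - T) 0]) (by positivity)
  have := pow_le_pow_left₀ (le_max_right _ _) h 2
  nlinarith [sq_abs (x - y), sq_nonneg (max (|y| - T) 0 - |x - y|)]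

theorem star_sub {d N : ℕ} (M : Cfg d N) (f ψ : Fin N → ℝ) {u : ℝ} (hu : 0 < u)
    (h : ∑ y, (f y - ψ y) ^ 2 ≤ u ^ 2 * N) :
    ∑ x, ‖star M ψ x - star M f x‖ ≤ (d + 2) * u * N := by
  have k : ∀ x, u * ‖star M ψ x - star M f x‖ ≤ u ^ 2 +
      ∑ o, star M (fun y => f y - ψ y) x o ^ 2 := fun x => by
    have e : star M ψ x - star M f x = -star M (fun y => f y - ψ y) x := by
      funext o; cases o <;> simp [star]
    rw [e, norm_neg]
    nlinarith [norm_sq_le (star M (fun y => f y - ψ y) x),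
      sq_nonneg (u - ‖star M (fun y => f y - ψ y) x‖), norm_nonneg (star M (fun y => f y - ψ y) x)]
  have s := sum_le_sum fun x (_ : x ∈ univ) => k x
  rw [← mul_sum, sum_add_distrib, sum_star M (fun y => f y - ψ y) fun t => t ^ 2] at s
  simp only [sum_const, card_univ, Fintype.card_fin, nsmul_eq_mul] at s
  refine le_of_mul_le_mul_left (s.trans ?_) hu
  nlinarith [mul_le_mul_of_nonneg_left h (by positivity : (0 : ℝ) ≤ d + 1)]

theorem re_le {w z : ℂ} (hw : ‖w‖ ≤ 1) : (w * z).re ≤ ‖z‖ :=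
  (Complex.re_le_norm _).trans (by
    rw [norm_mul]; exact mul_le_of_le_one_left (norm_nonneg _) hw)

end CBx

theorem p_CB (hKEY : S_KEY) (hFR : S_FR) (hAN2 : S_AN2) :
    S_CB := by
  intro d κ0 a hd hκ ha ha'
  obtain ⟨C, hC, h1⟩ := hAN2 d κ0 (4 * (d + 1)) hκ
  obtain ⟨Ce, hCe, h2⟩ := core hKEY d hd a ha ha'
  refine ⟨a / (2 * C), by positivity, fun b R ε hb hb' hε => ?_⟩
  obtain ⟨s1, hs1, h1⟩ := h1 R (ε / 4) (by positivity)
  have b1 : C * b ≤ a / 2 := by
    have := (le_div_iff₀ (by positivity)).1 hb'; linarith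
  suffices h : ∀ᶠ N : ℕ in atTop, _ by
    obtain ⟨N0, h⟩ := eventually_atTop.1 h
    exact ⟨s1 / (4 * (d + 1)), N0, by positivity, h⟩
  filter_upwards [h2, eventually_ge_atTop 1, ev_T hb (1 / s1),
    ev_rpow Ce (by linarith : -a + C * b < 0), ev_rpow (4 * (d + 1) / s1) (by linarith : -a < 0),
    ev_rpow (4 * (R * (d + 2)) / ε) (by linarith : -a < 0),
    ev_rpow (8 * R ^ 2) (by linarith : -a < 0),
    ev_rpow (4 * (exp (5 * R ^ 2 / 2) * (15 * R ^ 2)) / ε) (by linarith : -a < 0)] with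
    N n0 n1 n2 n4 n5 n6 n7 n8
  intro lam' s t w hl hR hw
  have N1 : (1 : ℝ) ≤ N := by exact_mod_cast n1
  have N0 : (0 : ℝ) < N := by linarith
  obtain ⟨l1, l2⟩ := bulk_sq hd hκ hl
  obtain ⟨P, rfl⟩ := hFR d lam' hd l1
  have u1 : (N : ℝ) ^ (-a) ≤ 1 := rpow_le_one_of_one_le_of_nonpos N1 (by linarith)
  have u0 : 0 < (N : ℝ) ^ (-a) := by positivity
  have R0 : 0 ≤ R := le_trans (by positivity) hR
  have n4' : Ce * (N : ℝ) ^ (-a) * exp (C * √(b * log N) ^ 2) ≤ 1 := by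
    rw [exp_T n1 hb.le, mul_assoc, ← rpow_add N0]
    simpa using n4
  rw [rpow_zero, div_mul_eq_mul_div, div_le_one (by positivity)] at n5 n6 n8
  rw [rpow_zero] at n7
  have T0 := sqrt_nonneg (b * log N)
  generalize √(b * log N) = T at *
  refine n0 P.lam (Fin 2) ![fun z => max (‖re (((N : ℝ) ^ (-a)) ^ 4) z‖ - T) 0 ^ 2,
    fun z => -1 * (w * ch s t (re (((N : ℝ) ^ (-a)) ^ 4) z)).re]
    ![s1, -(3 * ε / 4 + (w * (exp (-cov d P.lam s t / 2) : ℝ)).re)] _ (filter_subset _ _) l2 ?_ ?_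
  · intro M hM
    obtain ⟨-, m1, ψ, lam, m2, m3, m4, m5⟩ := mem_filter.1 hM
    refine ⟨m1, ψ, lam, m2, m3, fun φ hφ k => ?_⟩
    generalize (N : ℝ) ^ (-a) = u at *
    fin_cases k
    · simp only [Fin.zero_eta, Matrix.cons_val_zero, re_star]
      refine (sum_le_sum fun x _ => CBx.heavy _ T0).trans ?_
      rw [sum_star M (fun y => u ^ 4 * (φ y : ℝ)) fun t => max (|t| - T) 0 ^ 2]
      have s := sum_le_sum fun y (_ : y ∈ univ) => CBx.heavy2 (u ^ 4 * φ y) (ψ y) T
      rw [sum_add_distrib, ← mul_sum, ← mul_sum] at s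
      have e : ((d : ℝ) + 1) * (s1 / (4 * (d + 1)) * N) = s1 * N / 4 := by field_simp
      have u2 : u ^ 2 * N ≤ u * N := mul_le_mul_of_nonneg_right (by nlinarith) N0.le
      have d0 : (0 : ℝ) ≤ d + 1 := by positivity
      nlinarith [mul_le_mul_of_nonneg_left s d0, mul_le_mul_of_nonneg_left m4 d0,
        mul_le_mul_of_nonneg_left (hφ.trans u2) d0, mul_le_mul_of_nonneg_right n5 N0.le]
    · simp only [Fin.mk_one, Matrix.cons_val_one, Matrix.cons_val_zero, re_star, ← mul_sum]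
      have k : ∀ x, (w * ch s t (star M ψ x)).re ≤
          (w * ch s t (star M (fun y => u ^ 4 * (φ y : ℝ)) x)).re +
            R * ‖star M ψ x - star M (fun y => u ^ 4 * (φ y : ℝ)) x‖ := fun x => by
        have := (CBx.re_le hw).trans
          (CBx.ch_sub hR (star M ψ x) (star M (fun y => u ^ 4 * (φ y : ℝ)) x))
        rw [mul_sub, Complex.sub_re] at this
        linarith
      have s := sum_le_sum fun x (_ : x ∈ univ) => k x
      rw [sum_add_distrib, ← mul_sum] at s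
      have s' := mul_le_mul_of_nonneg_left (CBx.star_sub M _ ψ u0 hφ) R0
      rw [mul_sub, Complex.sub_re, chi, ← mul_div_assoc, mul_sum, ← Complex.ofReal_natCast,
        Complex.div_ofReal_re, Complex.re_sum, le_sub_iff_add_le, le_div_iff₀ N0] at m5
      nlinarith [mul_le_mul_of_nonneg_right n6 N0.le]
  · intro μ η s1 s2 s3 s4 s6 s5
    by_contra hg
    have t1 : μ.E (fun z => -1 * (w * ch s t (re (((N : ℝ) ^ (-a)) ^ 4) z)).re) ≤ _ := s5 1
    have t2 := h1 P μ _ η _ T hl s1 (by positivity) ?_ s2 (not_le.1 hg).le s3 s4 n2 n4' (s5 0) s t hR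
    · rw [Law.E_mul] at t1
      have e : μ.E (fun z => (w * ch s t (re (((N : ℝ) ^ (-a)) ^ 4) z)).re) =
          (w * μ.chi (((N : ℝ) ^ (-a)) ^ 4) s t).re := by
        simp only [Law.E, Law.chi, mul_sum, Complex.re_sum]
        refine sum_congr rfl fun z _ => ?_
        rw [mul_left_comm, Complex.re_ofReal_mul]
      rw [e] at t1
      have c1 := CBx.abs_cov hd l2 hR
      generalize μ.E (fun z => re (((N : ℝ) ^ (-a)) ^ 4) z none ^ 2) = σ at s6 t2
      generalize cov d P.lam s t = v at *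
      generalize (N : ℝ) ^ (-a) = u at *
      have c2 : |-((σ - 1) * v) / 2| ≤ 3 * u * (5 * R ^ 2) / 2 := by
        rw [abs_div, abs_neg, abs_mul, abs_two]
        gcongr
      have c3 : |exp (-(σ * v) / 2) - exp (-v / 2)| ≤ exp (5 * R ^ 2 / 2) * (15 * R ^ 2 * u) := by
        rw [show -(σ * v) / 2 = -v / 2 + -((σ - 1) * v) / 2 by ring, exp_add, ← mul_sub_one, abs_mul,
          abs_of_pos (exp_pos _)]
        refine mul_le_mul (exp_le_exp.2 (by linarith [(abs_le.1 c1).1]))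
          ((abs_exp_sub_one_le (c2.trans (by nlinarith))).trans (by linarith)) (abs_nonneg _)
          (exp_pos _).le
      have c4 := (CBx.re_le hw).trans t2
      have c5 := CBx.re_le hw (z := ((exp (-(σ * v) / 2) - exp (-v / 2) : ℝ) : ℂ))
      rw [Complex.norm_real, Real.norm_eq_abs, Complex.ofReal_sub, mul_sub, Complex.sub_re] at c5
      rw [mul_sub, Complex.sub_re] at c4
      simp only [Matrix.cons_val_one, Matrix.cons_val_zero] at t1
      nlinarith
    · calc ((N : ℝ) ^ (-a)) ^ 4 ≤ ((N : ℝ) ^ (-a)) ^ 1 := pow_le_pow_of_le_one u0.le u1 (by norm_num)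
        _ ≤ _ := by rw [pow_one]; exact le_mul_of_one_le_left u0.le hCe

end Pool.Agent.P.MP_6b977f_mp.RG
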