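import Pool.Agent.P.MP_6b977f_mp.RG.LibK

/-! Step CONF. -/

namespace Pool.Agent.P.MP_6b977f_mp.RG

open Finset MeasureTheory Real Filter
open scoped Classical

namespace CONFx

theorem nb_le {N : ℕ} {ψ : Fin N → ℝ} (hψ : ∑ x, ψ x ^ 2 = N) {T : ℝ} (hT : 0 ≤ T) :
    nb ψ T * T ^ 2 ≤ N := by
  rw [← hψ, nb]
  refine le_trans ?_ (sum_le_sum_of_subset_of_nonneg (filter_subset (fun x => T < |ψ x|) _)
    fun _ _ _ => sq_nonneg _)
  rw [← nsmul_eq_mul]
  refine card_nsmul_le_sum _ _ _ fun x hx => ?_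
  rw [← sq_abs (ψ x)]
  exact pow_le_pow_left₀ hT (mem_filter.1 hx).2.le 2

theorem heavy {N : ℕ} {ψ : Fin N → ℝ} (hψ : ∑ x, ψ x ^ 2 = N) {T p : ℝ} (hT : 0 < T) (hp : p < 2) :
    ∑ x, max (|ψ x| - T) 0 ^ 2 ≤
      (N : ℝ) ^ (1 - p / 2) * ∑ x ∈ univ.filter fun x => T < |ψ x|, |ψ x| ^ p := by
  rw [sum_filter, mul_sum]
  refine sum_le_sum fun x _ => ?_
  split_ifs with h
  · have h0 : 0 < |ψ x| := hT.trans h
    have h1 : |ψ x| ^ (2 : ℝ) ≤ N := by
      rw [rpow_two, sq_abs, ← hψ]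
      exact single_le_sum (f := fun x => ψ x ^ 2) (fun _ _ => sq_nonneg _) (mem_univ x)
    have h2 : |ψ x| ^ (2 - p) ≤ (N : ℝ) ^ (1 - p / 2) := by
      rw [show 2 - p = 2 * (1 - p / 2) by ring, rpow_mul h0.le]
      exact rpow_le_rpow (by positivity) h1 (by linarith)
    calc max (|ψ x| - T) 0 ^ 2 ≤ |ψ x| ^ 2 :=
          pow_le_pow_left₀ (le_max_right _ _) (max_le (by linarith) h0.le) 2
      _ = |ψ x| ^ (2 - p) * |ψ x| ^ p := by rw [← rpow_add h0, ← rpow_two]; congr 1; ring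
      _ ≤ _ := mul_le_mul_of_nonneg_right h2 (by positivity)
  · rw [max_eq_right (by linarith [not_lt.1 h])]
    simp

theorem small {a : ℝ} (ha : a ≤ 1 / 100) (C : ℝ) :
    ∀ᶠ N : ℕ in atTop, C * N * exp (-(N : ℝ) ^ (1 - a)) ≤ 1 := by
  filter_upwards [ev_rpow (2 * C) (by linarith : 1 < (1 - a) * 2), eventually_ge_atTop 1] with N h n1
  have N0 : (0 : ℝ) < N := by exact_mod_cast n1
  rw [rpow_one, rpow_mul N0.le, rpow_two] at h
  have h0 : 0 ≤ (N : ℝ) ^ (1 - a) := by positivity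
  rw [exp_neg, ← div_eq_mul_inv, div_le_one (exp_pos _)]
  linarith [quadratic_le_exp_of_nonneg h0]

theorem card_bi {α β : Type} [DecidableEq β] (s : Finset α) (f : α → Finset β) (B : ℝ)
    (h : ∀ a ∈ s, (#(f a) : ℝ) ≤ B) : (#(s.biUnion f) : ℝ) ≤ #s * B := by
  refine le_trans (Nat.cast_le.2 card_biUnion_le) ?_
  rw [Nat.cast_sum, ← nsmul_eq_mul]
  exact sum_le_card_nsmul _ _ _ h

theorem card_un {β : Type} [DecidableEq β] (s t : Finset β) : (#(s ∪ t) : ℝ) ≤ #s + #t := by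
  exact_mod_cast card_union_le s t

end CONFx

open CONFx in
theorem p_CONF (hDET : S_DET) (hSP : S_SP) (hMASSP : S_MASSP) (hNB : S_NB) (hCA : S_CA) (hCB : S_CB) (hNET : S_NET) :
    S_CONF := by
  intro d κ R ε hd hκ hε
  have d3 : (3 : ℝ) ≤ d := by exact_mod_cast hd
  obtain ⟨a, ha, ha', h1⟩ := hDET d hd
  obtain ⟨N1, h1⟩ := h1 (κ / 2) (ε / 4) (by positivity) (by positivity)
  obtain ⟨c0, c, hc0, hc, h2⟩ := hCA d (κ / 2) a hd (by positivity) ha ha'
  obtain ⟨c1, hc1, h3⟩ := hCB d (κ / 2) a hd (by positivity) ha ha'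
  obtain ⟨b, hb, b0, b1, b2⟩ : ∃ b : ℝ, 0 < b ∧ b ≤ c0 ∧ b ≤ c1 ∧ c * b ≤ 1 :=
    ⟨min (min c0 c1) (1 / c), by positivity, (min_le_left _ _).trans (min_le_left _ _),
      (min_le_left _ _).trans (min_le_right _ _), by
        have := (le_div_iff₀ hc).1 (min_le_right (min c0 c1) (1 / c)); linarith⟩
  have cb : 0 < c * b := by positivity
  obtain ⟨N2, h2⟩ := h2 b hb b0
  obtain ⟨s0, N3, hs0, h3⟩ := h3 b R (ε / 4) hb b1 (by positivity)
  obtain ⟨e0, C, he0, hC, h4⟩ := hMASSP d κ (2 - c * b) hd hκ (by linarith) (by linarith)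
  obtain ⟨d0, hd0, h5⟩ := hSP d (min e0 (1 / 10)) (by omega) (by positivity)
  obtain ⟨N5, h5⟩ := h5 (ε / 4) (by positivity)
  obtain ⟨τ, T, hτ, t1, t2⟩ := hNET d R ε (by omega) hε
  refine eventually_atTop.1 ?_
  filter_upwards [eventually_ge_atTop N1, eventually_ge_atTop N2, eventually_ge_atTop N3,
    eventually_ge_atTop N5, eventually_ge_atTop 1, ev_T hb 1, ev_T hb ((d + 1) / d0),
    ev_rpow (1 / min τ (κ / 2)) (by norm_num : (0 : ℝ) < 1),
    ev_rpow (8 * C / c / s0) (by linarith : c * b / 2 + (1 - c * b) + c * b / 4 < 1),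
    small ha' (3 * d * (1 + #T) * 2 / ε)] with N n1 n2 n3 n5 n0 m1 m2 m3 m4 m5
  have NN : (1 : ℝ) ≤ N := by exact_mod_cast n0
  have N0 : (0 : ℝ) < N := by linarith
  have m3' : 1 / (N : ℝ) ≤ min τ (κ / 2) := by
    rw [rpow_zero, rpow_one, mul_one, div_le_iff₀ (by positivity)] at m3
    rw [div_le_iff₀ N0]; linarith
  have h1 := h1 N n1
  have h2 := h2 N n2
  have h3 := h3 N n3
  have h5 := h5 N n5
  have eT : √(b * log N) ^ 2 ≤ 4 / c * (N : ℝ) ^ (c * b / 4) := by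
    rw [sq_sqrt (mul_nonneg hb.le (log_nonneg NN))]
    refine (mul_le_mul_of_nonneg_left (log_le_rpow_div N0.le (by positivity : 0 < c * b / 4))
      hb.le).trans (le_of_eq ?_)
    field_simp
  generalize √(b * log N) = U at *
  set K := (Icc (-(d * N : ℤ)) (d * N)).filter fun k : ℤ => |(k : ℝ) / N| ≤ 2 * √(d - 1) - κ / 2
    with hK
  have hsub : ((Cf d N).filter fun M => ¬ BerryC κ R ε M) ⊆
      (((Cf d N).filter fun M => ¬ ∀ lam, |lam| ≤ 2 * √(d - 1) - κ / 2 →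
        LD M lam ((N : ℝ) ^ (-(2 * a))) ≤ ell d lam + (N : ℝ) ^ (-a)) ∪
      ((Cf d N).filter fun M => ¬ Sparse M (min e0 (1 / 10)) d0)) ∪ K.biUnion fun k =>
      ((Cf d N).filter fun M => LD M (k / N) ((N : ℝ) ^ (-(2 * a))) ≤ ell d (k / N) + (N : ℝ) ^ (-a) ∧
        ∃ ψ lam, Eig M ψ lam ∧ |lam - k / N| ≤ 1 / N ∧
          (N : ℝ) ^ (1 - c * b) ≤ #(univ.filter fun y => Reg1 U (star M ψ y))) ∪ T.biUnion fun p =>
      (Cf d N).filter fun M => LD M (k / N) ((N : ℝ) ^ (-(2 * a))) ≤ ell d (k / N) + (N : ℝ) ^ (-a) ∧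
        ∃ ψ lam, Eig M ψ lam ∧ |lam - k / N| ≤ 1 / N ∧ ∑ x, max (|ψ x| - U) 0 ^ 2 ≤ s0 * N ∧
          ε / 4 ≤ (p.2.2 * (chi M ψ p.1 p.2.1 - (exp (-cov d (k / N) p.1 p.2.1 / 2) : ℝ))).re := by
    intro M hM
    obtain ⟨hM, hbad⟩ := mem_filter.1 hM
    simp only [mem_union, mem_filter, mem_biUnion, hM, true_and]
    by_cases g1 : ∀ lam, |lam| ≤ 2 * √(d - 1) - κ / 2 →
      LD M lam ((N : ℝ) ^ (-(2 * a))) ≤ ell d lam + (N : ℝ) ^ (-a)
    swap
    · exact .inl (.inl g1)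
    by_cases g2 : Sparse M (min e0 (1 / 10)) d0
    swap
    · exact .inl (.inr g2)
    right
    unfold BerryC at hbad
    push Not at hbad
    obtain ⟨ψ, lam, e1, e2, s, t, e3, e4⟩ := hbad
    have f1 : |lam - (⌊lam * N⌋ : ℤ) / N| ≤ 1 / N := by
      rw [show lam - (⌊lam * N⌋ : ℤ) / N = (lam * N - (⌊lam * N⌋ : ℤ)) / N by field_simp, abs_div,
        abs_of_pos N0]
      refine div_le_div_of_nonneg_right (abs_le.2 ⟨?_, ?_⟩) N0.le <;>
        linarith [Int.floor_le (lam * N), Int.lt_floor_add_one (lam * N)]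
    generalize ⌊lam * N⌋ = k at f1
    have f2 : |(k : ℝ) / N| ≤ 2 * √(d - 1) - κ / 2 := by
      linarith [abs_sub_abs_le_abs_sub ((k : ℝ) / N) lam, abs_sub_comm ((k : ℝ) / N) lam,
        min_le_right τ (κ / 2)]
    have f3 := (bulk_sq hd (half_pos hκ) f2).2
    have f4 := (bulk_sq hd hκ e2).2
    have f5 : (d + 1) * nb ψ U ≤ d0 * N := by
      rw [div_le_iff₀ hd0] at m2
      have n0 : 0 ≤ nb ψ U := Nat.cast_nonneg _
      have := nb_le e1.2 (by linarith : 0 ≤ U)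
      nlinarith [mul_le_mul_of_nonneg_right m2 n0, mul_le_mul_of_nonneg_left this hd0.le,
        mul_nonneg (mul_nonneg n0 hd0.le) (mul_nonneg (by linarith : 0 ≤ U) (sub_nonneg.2 m1))]
    refine ⟨k, ?_, ?_⟩
    · rw [hK, mem_filter, mem_Icc, ← abs_le]
      refine ⟨?_, f2⟩
      rw [abs_div, abs_of_pos N0, div_le_iff₀ N0] at f3
      exact_mod_cast f3
    by_cases g3 : 2 * (N : ℝ) ^ (1 - c * b) ≤ nb ψ U
    · refine .inl ⟨g1 _ f2, ψ, lam, e1, f1, ?_⟩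
      linarith [hNB d N M ψ lam U _ d0 hd hM g2 (min_le_right _ _) e1.1 f4 (by linarith) f5]
    · obtain ⟨p, p1, p2⟩ := t2 N M ψ lam (k / N) s t hM n0 e1.2 f4 f3
        (f1.trans (m3'.trans (min_le_left _ _))) e3 e4
      refine .inr ⟨p, p1, g1 _ f2, ψ, lam, e1, f1, ?_, p2⟩
      have g4 : Sparse M e0 d0 := fun V hV => (g2 V hV).trans
        (mul_le_mul_of_nonneg_right (by linarith [min_le_left e0 (1 / 10)]) (Nat.cast_nonneg _))
      have q1 := h4 N M ψ lam U d0 hM g4 e1.1 e2 (by linarith) f5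
      have q2 := heavy e1.2 (by linarith : 0 < U) (by linarith : 2 - c * b < 2)
      have q3 : U ^ (2 - c * b) ≤ 4 / c * (N : ℝ) ^ (c * b / 4) := by
        refine le_trans ?_ eT
        rw [← rpow_two]
        exact rpow_le_rpow_of_exponent_le m1 (by linarith)
      rw [show 1 - (2 - c * b) / 2 = c * b / 2 by ring] at q2
      rw [rpow_one, rpow_add N0, rpow_add N0, div_mul_eq_mul_div, div_le_iff₀ hs0] at m4
      calc _ ≤ _ := q2
        _ ≤ (N : ℝ) ^ (c * b / 2) * (C * (4 / c * (N : ℝ) ^ (c * b / 4)) *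
            (2 * (N : ℝ) ^ (1 - c * b))) := by
          refine mul_le_mul_of_nonneg_left (q1.trans ?_) (by positivity)
          exact mul_le_mul (mul_le_mul_of_nonneg_left q3 hC.le) (not_le.1 g3).le (Nat.cast_nonneg _)
            (by positivity)
        _ = 8 * C / c * ((N : ℝ) ^ (c * b / 2) * (N : ℝ) ^ (1 - c * b) * (N : ℝ) ^ (c * b / 4)) := by
          ring
        _ ≤ _ := by linarith
  have hKc : (#K : ℝ) ≤ 3 * d * N := by
    have : #K ≤ 2 * (d * N) + 1 := (card_filter_le _ _).trans (by rw [Int.card_Icc]; omega)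
    have := (Nat.cast_le (α := ℝ)).2 this
    push_cast at this
    nlinarith
  refine le_trans (Nat.cast_le.2 (card_le_card hsub)) ((card_un _ _).trans ?_)
  have z1 := card_un ((Cf d N).filter fun M => ¬ ∀ lam, |lam| ≤ 2 * √(d - 1) - κ / 2 →
        LD M lam ((N : ℝ) ^ (-(2 * a))) ≤ ell d lam + (N : ℝ) ^ (-a))
      ((Cf d N).filter fun M => ¬ Sparse M (min e0 (1 / 10)) d0)
  refine (add_le_add z1 (card_bi _ _ ((1 + #T) * (exp (-(N : ℝ) ^ (1 - a)) * #(Cf d N)))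
    fun k hk => (card_un _ _).trans ?_)).trans ?_
  · have hk := (mem_filter.1 hk).2
    rw [add_mul, one_mul]
    exact add_le_add (h2 _ hk) (card_bi _ _ _ fun p hp => h3 _ _ _ _ hk (t1 p hp).1 (t1 p hp).2)
  · have z2 : (#K : ℝ) * ((1 + #T) * (exp (-(N : ℝ) ^ (1 - a)) * #(Cf d N))) ≤ ε / 2 * #(Cf d N) := by
      refine (mul_le_mul_of_nonneg_right hKc (by positivity)).trans ?_
      calc _ = ε / 2 * #(Cf d N) * (3 * d * (1 + #T) * 2 / ε * N * exp (-(N : ℝ) ^ (1 - a))) := by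
            field_simp
        _ ≤ _ := mul_le_of_le_one_right (by positivity) m5
    linarith

end Pool.Agent.P.MP_6b977f_mp.RG
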