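import Pool.Agent.P.MP_6b977f_mp.RG.LibGeo

/-! The mean negative part of `L` on a circle is small on average. -/

set_option autoImplicit false

namespace Pool.Agent.P.MP_6b977f_mp.RG.Jen

open Real Metric Complex InnerProductSpace

variable {ι : Type*} [Fintype ι] {q R g τ : ℝ} {w : ℂ}

lemma nu (hR : 0 < R) (hw : ‖w‖ = R) : ‖1 - w ^ 2 / (R : ℂ) ^ 2‖ = 2 * |w.im| / R := by
  have h1 : w.re ^ 2 = R ^ 2 - w.im ^ 2 := by
    rw [← hw, ← Complex.normSq_eq_norm_sq, normSq_apply]; ring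
  rw [← sq_eq_sq₀ (norm_nonneg _) (by positivity), ← Complex.normSq_eq_norm_sq, div_pow, mul_pow,
    sq_abs, ← ofReal_pow]
  simp only [normSq_apply, sub_re, one_re, div_ofReal_re, sub_im, one_im, div_ofReal_im, sq w,
    mul_re, mul_im]
  field_simp
  ring_nf
  rw [show w.re ^ 4 = (w.re ^ 2) ^ 2 by ring, h1]
  ring

lemma low_pt [Nonempty ι] (hq : 2 ≤ q) (ev : ι → ℝ) (hg : 0 < g) (hg1 : g ≤ 1 / 2)
    (hR : R = 1 - g) (hw : ‖w‖ = R) (hi : w.im ≠ 0) :
    -Lf q ev w ≤ q - Real.log g - Real.log ‖1 - w ^ 2 / (R : ℂ) ^ 2‖ := by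
  have hq0 : 0 < q := by linarith
  have hR0 : 0 < R := by linarith
  have hN : (0 : ℝ) < Fintype.card ι := Nat.cast_pos.2 Fintype.card_pos
  have hi0 := abs_pos.2 hi
  have l2 : Real.log 2 ≤ 1 := by linarith [Real.log_le_sub_one_of_pos two_pos]
  have h1 : ∀ j, Real.log g + Real.log ‖1 - w ^ 2 / (R : ℂ) ^ 2‖ - Real.log 2 ≤
      Real.log ‖1 - (ev j / √q : ℝ) * w + w ^ 2‖ := fun j => by
    rw [nu hR0 hw, ← Real.log_mul hg.ne' (by positivity), ← Real.log_div (by positivity) two_ne_zero]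
    refine Real.log_le_log (by positivity) ((sq_le_sq₀ (by positivity) (norm_nonneg _)).1 ?_)
    rw [nsq q (ev j) hq0 hR0 hw]
    refine le_trans ?_ (mul_le_mul_of_nonneg_left (le_add_of_nonneg_left (sq_nonneg _))
      (by positivity))
    rw [show R ^ 2 / q * (√q * (R⁻¹ ^ 2 - 1) * |w.im|) ^ 2 = (g * (1 + R) * |w.im| / R) ^ 2 by
      rw [mul_pow, mul_pow, Real.sq_sqrt hq0.le, show g = 1 - R by linarith]; field_simp; ring]
    refine pow_le_pow_left₀ (by positivity) ?_ 2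
    rw [show g * (2 * |w.im| / R) / 2 = g * 1 * |w.im| / R by ring]
    gcongr
    linarith
  have h2 : -Real.log 2 ≤ Real.log ‖1 - w ^ 2 / q‖ := by
    rw [← Real.log_inv]
    refine Real.log_le_log (by norm_num) (le_trans ?_ (norm_sub_norm_le _ _))
    rw [norm_one, norm_div, norm_pow, hw, norm_real, Real.norm_of_nonneg hq0.le, le_sub_comm,
      div_le_iff₀ hq0]
    nlinarith
  have h3 := mul_le_mul_of_nonneg_left (Finset.sum_le_sum fun j (_ : j ∈ Finset.univ) => h1 j)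
    (inv_pos.2 hN).le
  rw [Finset.sum_const, Finset.card_univ, nsmul_eq_mul, ← mul_assoc, inv_mul_cancel₀ hN.ne'] at h3
  have h4 := mul_le_mul_of_nonneg_left h2 (show 0 ≤ (q - 1) / 2 by linarith)
  rw [Lf]
  nlinarith

/-- A nonnegative function with small mean that dominates the arcs near the real axis. -/
noncomputable def hh (τ R : ℝ) (w : ℂ) : ℝ :=
  -Real.log τ / 2 + Real.log ‖1 - τ * (w ^ 2 / (R : ℂ) ^ 2)‖ - Real.log ‖1 - w ^ 2 / (R : ℂ) ^ 2‖

lemma hh_mean (hR : 0 < R) (h0 : 0 < τ) (h1 : τ < 1) :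
    CircleIntegrable (hh τ R) 0 R ∧ circleAverage (hh τ R) 0 R ≤ -Real.log τ / 2 := by
  have i0 := circleIntegrable_const (-Real.log τ / 2) 0 R
  have i1 : CircleIntegrable (fun w : ℂ => Real.log ‖1 - τ * (w ^ 2 / (R : ℂ) ^ 2)‖) 0 R :=
    MeromorphicOn.circleIntegrable_log_norm fun _ _ => by fun_prop
  have i2 : CircleIntegrable (fun w : ℂ => Real.log ‖1 - w ^ 2 / (R : ℂ) ^ 2‖) 0 R :=
    MeromorphicOn.circleIntegrable_log_norm fun _ _ => by fun_prop
  have i3 := fun a : ℂ => circleIntegrable_log_norm_sub_const (a := a) (c := 0) R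
  have i4 := circleIntegrable_const (2 * Real.log R) 0 R
  have e1 : circleAverage (fun w : ℂ => Real.log ‖1 - τ * (w ^ 2 / (R : ℂ) ^ 2)‖) 0 R = 0 := by
    rw [InnerProductSpace.HarmonicOnNhd.circleAverage_eq fun w hw =>
      AnalyticAt.harmonicAt_log_norm (f := fun w : ℂ => 1 - τ * (w ^ 2 / (R : ℂ) ^ 2))
        (by fun_prop) ?_]
    · simp
    refine sub_ne_zero.2 fun e => ?_
    have h2 := congrArg norm e
    have h3 : ‖w‖ ^ 2 ≤ R ^ 2 :=
      pow_le_pow_left₀ (norm_nonneg _) (by simpa [abs_of_pos hR] using hw) 2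
    rw [norm_one, norm_mul, norm_div, norm_pow, norm_pow, norm_real, norm_real,
      Real.norm_of_nonneg h0.le, Real.norm_of_nonneg hR.le] at h2
    nlinarith [(div_le_one (pow_pos hR 2)).2 h3]
  have e2 := mono_off hR (((i3 R).add (i3 (-R))).sub i4) i2 fun w hw hi => by
    have k1 : w - R ≠ 0 := fun e => hi (by simpa using congrArg Complex.im e)
    have k2 : w - -R ≠ 0 := fun e => hi (by simpa using congrArg Complex.im e)
    have k3 : (R : ℂ) ≠ 0 := ofReal_ne_zero.2 hR.ne'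
    rw [show 1 - w ^ 2 / (R : ℂ) ^ 2 = -((w - R) * (w - -R) / R ^ 2) by field_simp; ring,
      norm_neg, norm_div, norm_mul, norm_pow, norm_real, Real.norm_of_nonneg hR.le,
      Real.log_div (by positivity) (by positivity), Real.log_mul (by positivity) (by positivity),
      Real.log_pow]
    simp
  rw [circleAverage_sub ((i3 R).add (i3 (-R))) i4, circleAverage_add (i3 R) (i3 (-R)),
    circleAverage_log_norm_sub_const_of_mem_closedBall (by simp),
    circleAverage_log_norm_sub_const_of_mem_closedBall (by simp), circleAverage_const] at e2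
  refine ⟨(i0.add i1).sub i2, ?_⟩
  have e3 : circleAverage (hh τ R) 0 R = _ := circleAverage_sub (i0.add i1) i2
  rw [e3, circleAverage_fun_add i0 i1, e1, circleAverage_const]
  linarith

variable {Ω : Type*} [Fintype Ω]

lemma low_avg [Nonempty ι] (hq : 2 ≤ q) (ev : Ω → ι → ℝ) (hg : 0 < g) (hg1 : g ≤ 1 / 24)
    {C : ℝ} (hC : 0 ≤ C) (H : ∀ lam : ℝ, lam ^ 2 ≤ 4 * q → ∃ B : Finset Ω,
      (B.card : ℝ) ≤ g * Fintype.card Ω ∧ ∀ ω ∉ B, lf q lam - C * g ≤ Sf (ev ω) lam (g ^ 2))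
    (hR : R = 1 - g) (hw : ‖w‖ = R) (hi : w.im ≠ 0) :
    ∑ ω, max (-Lf q (ev ω) w) 0 ≤ Fintype.card Ω * ((2 * (q - Real.log g) + 1) *
      hh (1 - 12 * g) R w + (C + 6 * (q + 1) ^ 2 + 2 * (q - Real.log g)) * g) := by
  classical
  have hR0 : 0 < R := by linarith
  have hn := nu hR0 hw
  have hn0 : 0 < ‖1 - w ^ 2 / (R : ℂ) ^ 2‖ := by rw [hn]; have := abs_pos.2 hi; positivity
  have hu : ‖w ^ 2 / (R : ℂ) ^ 2‖ = 1 := by
    rw [norm_div, norm_pow, norm_pow, hw, norm_real, Real.norm_of_nonneg hR0.le,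
      div_self (by positivity)]
  have lg : Real.log g ≤ 0 := Real.log_nonpos hg.le (by linarith)
  have h0 : 0 ≤ hh (1 - 12 * g) R w := sub_nonneg.2
    (cmp (by linarith) (by linarith) (by rw [hu]; linarith) (norm_pos_iff.1 hn0))
  have hp := fun ω => low_pt hq (ev ω) hg (by linarith) hR hw hi
  have hT : 0 ≤ q - Real.log g := by linarith
  rcases le_or_gt ‖1 - w ^ 2 / (R : ℂ) ^ 2‖ (4 * g) with h | h
  · have k1 : Real.log (12 * g) ≤ Real.log ‖1 - (1 - 12 * g : ℝ) * (w ^ 2 / (R : ℂ) ^ 2)‖ := by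
      refine Real.log_le_log (by positivity) (le_trans ?_ (norm_sub_norm_le _ _))
      rw [norm_one, norm_mul, hu, norm_real, Real.norm_of_nonneg (by linarith)]
      linarith
    have k2 := Real.log_le_log hn0 h
    have k3 : Real.log (1 - 12 * g) ≤ 0 := Real.log_nonpos (by linarith) (by linarith)
    have k4 : Real.log (4 * g) + 1 ≤ Real.log (12 * g) := by
      rw [show 12 * g = 4 * g * 3 by ring, Real.log_mul (x := 4 * g) (by positivity) (by norm_num)]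
      have : 1 ≤ Real.log 3 := by
        rw [Real.le_log_iff_exp_le (by norm_num)]
        exact Real.exp_one_lt_three.le
      linarith
    have k5 : Real.log g ≤ Real.log (12 * g) := Real.log_le_log hg (by linarith)
    have k6 : 1 ≤ hh (1 - 12 * g) R w := by unfold hh; linarith
    have k7 : -Real.log ‖1 - w ^ 2 / (R : ℂ) ^ 2‖ ≤ hh (1 - 12 * g) R w - Real.log g := by
      unfold hh; linarith
    rw [← Finset.card_univ, ← nsmul_eq_mul]
    refine Finset.sum_le_card_nsmul _ _ _ fun ω _ => max_le ?_ (by positivity)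
    have := hp ω
    have k8 : 0 ≤ (C + 6 * (q + 1) ^ 2 + 2 * (q - Real.log g)) * g := by positivity
    nlinarith [mul_le_mul_of_nonneg_left k6 hT]
  · have k1 : Real.log g ≤ Real.log ‖1 - w ^ 2 / (R : ℂ) ^ 2‖ := Real.log_le_log hg (by linarith)
    rw [hn, lt_div_iff₀ hR0] at h
    have ht : R * R⁻¹ = 1 := mul_inv_cancel₀ hR0.ne'
    have ht1 : 1 < R⁻¹ := (one_lt_inv₀ hR0).2 (by linarith)
    have ht2 : R⁻¹ ≤ 2 := by nlinarith
    have h1 : w.re ^ 2 = R ^ 2 - |w.im| ^ 2 := by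
      rw [sq_abs, ← hw, ← Complex.normSq_eq_norm_sq, normSq_apply]; ring
    have k2 : (√q * (1 + R⁻¹ ^ 2) * w.re) ^ 2 ≤ 4 * q := by
      have a1 : w.re ^ 2 ≤ R ^ 2 * (1 - 4 * g ^ 2) := by
        nlinarith [pow_le_pow_left₀ (by positivity) (show 2 * g * R ≤ |w.im| by linarith) 2]
      have a2 : (1 + R⁻¹ ^ 2) * R = 2 + g ^ 2 * R⁻¹ := by
        rw [show g = 1 - R by linarith]; field_simp; ring
      have a3 : ((1 + R⁻¹ ^ 2) * R) ^ 2 ≤ (2 + g ^ 2 * 2) ^ 2 := by rw [a2]; gcongr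
      have a4 : g ^ 2 ≤ 1 / 4 := by nlinarith
      rw [mul_pow, mul_pow, Real.sq_sqrt (by linarith), mul_assoc, mul_comm 4]
      refine mul_le_mul_of_nonneg_left ((mul_le_mul_of_nonneg_left a1 (sq_nonneg _)).trans ?_)
        (by linarith)
      rw [← mul_assoc, ← mul_pow]
      refine (mul_le_mul_of_nonneg_right a3 (by linarith)).trans ?_
      nlinarith [pow_pos hg 2, pow_pos (pow_pos hg 2) 2, pow_pos (pow_pos hg 2) 3]
    have k3 : g ^ 2 ≤ √q * (R⁻¹ ^ 2 - 1) * |w.im| := by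
      have a1 : 1 ≤ √q := Real.one_le_sqrt.2 (by linarith)
      have a2 : g ≤ R⁻¹ ^ 2 - 1 := by nlinarith
      rw [show g ^ 2 = 1 * g * g by ring]
      have a3 : g ≤ |w.im| := by nlinarith
      have a4 := hg.le.trans a2
      gcongr
    obtain ⟨B, hB, hB'⟩ := H _ k2
    have k4 : ∀ ω, max (-Lf q (ev ω) w) 0 ≤ (C + 6 * (q + 1) ^ 2) * g +
        if ω ∈ B then 2 * (q - Real.log g) else 0 := fun ω => by
      have k8 : 0 ≤ (C + 6 * (q + 1) ^ 2) * g := by positivity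
      split_ifs with hω
      · exact max_le (by linarith [hp ω]) (by positivity)
      · have a1 := (abs_le.1 (geo hq (ev ω) (by linarith) (by linarith) hw hi k2)).1
        have a2 := (hB' ω hω).trans (Sf_mono _ _ (by positivity) k3)
        rw [show 1 - R = g by linarith] at a1
        exact max_le (by linarith) (by linarith)
    refine (Finset.sum_le_sum fun ω _ => k4 ω).trans ?_
    rw [Finset.sum_add_distrib, Finset.sum_ite_mem, Finset.univ_inter, Finset.sum_const,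
      Finset.sum_const, Finset.card_univ, nsmul_eq_mul, nsmul_eq_mul]
    nlinarith [mul_le_mul_of_nonneg_right hB hT, mul_nonneg (Nat.cast_nonneg (Fintype.card Ω))
      (mul_nonneg (show 0 ≤ 2 * (q - Real.log g) + 1 by linarith) h0)]

/-- **LOW.** -/
theorem low [Nonempty ι] (hq : 2 ≤ q) (ev : Ω → ι → ℝ) (hg : 0 < g) (hg1 : g ≤ 1 / 24)
    {C : ℝ} (hC : 0 ≤ C) (H : ∀ lam : ℝ, lam ^ 2 ≤ 4 * q → ∃ B : Finset Ω,
      (B.card : ℝ) ≤ g * Fintype.card Ω ∧ ∀ ω ∉ B, lf q lam - C * g ≤ Sf (ev ω) lam (g ^ 2)) :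
    ∑ ω, circleAverage (fun w => max (-Lf q (ev ω) w) 0) 0 (1 - g) ≤ Fintype.card Ω *
      ((C + 6 * (q + 1) ^ 2 + 12 + 26 * (q - Real.log g)) * g) := by
  have hR0 : 0 < 1 - g := by linarith
  have i1 := fun ω => int_neg (int_Lf q (ev ω) (1 - g))
  obtain ⟨i2, h2⟩ := hh_mean hR0 (τ := 1 - 12 * g) (by linarith) (by linarith)
  have i3 := i2.const_smul (a := 2 * (q - Real.log g) + 1)
  have i4 := circleIntegrable_const ((C + 6 * (q + 1) ^ 2 + 2 * (q - Real.log g)) * g) 0 (1 - g)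
  have h3 := mono_off hR0 (CircleIntegrable.sum Finset.univ fun ω _ => i1 ω)
    ((i3.add i4).const_smul (a := (Fintype.card Ω : ℝ))) fun w hw hi => by
      simpa only [Finset.sum_apply, Pi.smul_apply, Pi.add_apply, smul_eq_mul] using
        low_avg hq ev hg hg1 hC H rfl hw hi
  rw [circleAverage_sum fun ω _ => i1 ω, circleAverage_smul, circleAverage_add i3 i4,
    circleAverage_smul, circleAverage_const, smul_eq_mul, smul_eq_mul] at h3
  refine h3.trans (mul_le_mul_of_nonneg_left ?_ (Nat.cast_nonneg _))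
  have h4 : -Real.log (1 - 12 * g) / 2 ≤ 12 * g := by
    have := Real.log_le_sub_one_of_pos (inv_pos.2 (show 0 < 1 - 12 * g by linarith))
    rw [Real.log_inv] at this
    have h5 : (1 - 12 * g)⁻¹ ≤ 1 + 24 * g := by
      rw [inv_le_iff_one_le_mul₀ (by linarith)]; nlinarith
    linarith
  have lg : Real.log g ≤ 0 := Real.log_nonpos hg.le (by linarith)
  nlinarith [mul_le_mul_of_nonneg_left (h2.trans h4)
    (show 0 ≤ 2 * (q - Real.log g) + 1 by linarith)]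

/-- A point of the circle of radius `r` above a given eigenvalue. -/
lemma point (hq : 2 ≤ q) {u lam γ : ℝ} (hu : 0 < u) (hu1 : u ≤ 1 / 2) (hγ : 0 < γ)
    (h : γ ^ 2 ≤ u ^ 2 * (4 * q - lam ^ 2)) : ∃ w : ℂ, ‖w‖ = 1 - u ∧ w.im ≠ 0 ∧
      √q * (1 + (1 - u)⁻¹ ^ 2) * w.re = lam ∧ γ ≤ √q * ((1 - u)⁻¹ ^ 2 - 1) * |w.im| := by
  obtain ⟨r, hr⟩ : ∃ r, r = 1 - u := ⟨_, rfl⟩
  rw [← hr]
  have hq0 : 0 < q := by linarith
  have hr0 : 0 < r := by linarith
  have hs := Real.sqrt_pos.2 hq0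
  have ht : r * r⁻¹ = 1 := mul_inv_cancel₀ hr0.ne'
  have ht1 : 1 < r⁻¹ := (one_lt_inv₀ hr0).2 (by linarith)
  obtain ⟨x, hx⟩ : ∃ x, √q * (1 + r⁻¹ ^ 2) * x = lam :=
    ⟨lam / (√q * (1 + r⁻¹ ^ 2)), by field_simp⟩
  have h0 : 0 < 4 * q - lam ^ 2 := pos_of_mul_pos_right ((pow_pos hγ 2).trans_le h) (sq_nonneg u)
  have h1 : 4 * q * x ^ 2 ≤ r ^ 2 * lam ^ 2 := by
    have a1 : 2 ≤ r * (1 + r⁻¹ ^ 2) := by nlinarith [mul_nonneg hr0.le (sq_nonneg (r⁻¹ - 1))]
    have a2 := pow_le_pow_left₀ (by norm_num) a1 2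
    rw [← hx, mul_pow, mul_pow, Real.sq_sqrt hq0.le]
    nlinarith [mul_le_mul_of_nonneg_left a2 (show 0 ≤ q * x ^ 2 by positivity)]
  have h2 : r ^ 2 * (4 * q - lam ^ 2) ≤ 4 * q * (r ^ 2 - x ^ 2) := by linarith
  have h3 : 0 < r ^ 2 - x ^ 2 := pos_of_mul_pos_right ((mul_pos (pow_pos hr0 2) h0).trans_le h2)
    (by positivity)
  refine ⟨⟨x, √(r ^ 2 - x ^ 2)⟩, ?_, (Real.sqrt_pos.2 h3).ne', hx, ?_⟩
  · rw [← sq_eq_sq₀ (norm_nonneg _) hr0.le, ← Complex.normSq_eq_norm_sq, normSq_mk,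
      Real.mul_self_sqrt h3.le]
    ring
  · have a0 : 0 ≤ r⁻¹ ^ 2 - 1 := by nlinarith
    rw [← sq_le_sq₀ hγ.le (by positivity), mul_pow, mul_pow, sq_abs, Real.sq_sqrt hq0.le,
      Real.sq_sqrt h3.le]
    have a1 : 2 * u ≤ r * (r⁻¹ ^ 2 - 1) := by nlinarith
    have a2 := pow_le_pow_left₀ (by positivity) a1 2
    nlinarith [mul_le_mul_of_nonneg_left h2 (sq_nonneg (r⁻¹ ^ 2 - 1)),
      mul_le_mul_of_nonneg_right a2 h0.le]

/-- **DET** for finite families. -/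
theorem det [Nonempty ι] (hq : 2 ≤ q) (ev : Ω → ι → ℝ) (m : Ω → ℝ) {u C : ℝ} (hu : 0 < u)
    (hu1 : u ≤ 1 / 2) (hC : 0 ≤ C) (H : ∀ lam : ℝ, lam ^ 2 ≤ 4 * q → ∃ B : Finset Ω,
      (B.card : ℝ) ≤ u ^ 8 * Fintype.card Ω ∧
        ∀ ω ∉ B, lf q lam - C * u ^ 8 ≤ Sf (ev ω) lam ((u ^ 8) ^ 2))
    (hm0 : ∀ ω, 0 ≤ m ω) (hev : ∀ ω, ∑ j, ev ω j ^ 2 ≤ Fintype.card ι * (q + 1 + m ω))
    (hm : ∑ ω, m ω ≤ C * u ^ 7 * Fintype.card Ω) :
    ∃ B : Finset Ω, (B.card : ℝ) ≤ (2 * C + 250 * (q + 1) ^ 2) * u * Fintype.card Ω ∧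
      ∀ ω ∉ B, ∀ lam γ : ℝ, 0 < γ → γ ^ 2 ≤ u ^ 2 * (4 * q - lam ^ 2) →
        Sf (ev ω) lam γ ≤ lf q lam + 30 * (q + 1) ^ 2 * u := by
  classical
  have h7 : u ^ 7 ≤ 1 / 128 := (pow_le_pow_left₀ hu.le hu1 7).trans (by norm_num)
  have h8 : u ^ 8 ≤ u / 128 := by nlinarith [show u ^ 8 = u ^ 7 * u by ring]
  have h80 : 0 < u ^ 8 := by positivity
  have h1 := low hq ev h80 (by linarith) hC H
  have hY : ∀ ω, 0 ≤ circleAverage (fun w => max (-Lf q (ev ω) w) 0) 0 (1 - u ^ 8) := fun ω =>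
    circleAverage_nonneg_of_nonneg fun _ _ => le_max_right _ _
  generalize hZ : (fun ω => circleAverage (fun w => max (-Lf q (ev ω) w) 0) 0 (1 - u ^ 8)) = Y at h1
  replace hZ := congrFun hZ
  simp only [hZ] at hY
  refine ⟨Finset.univ.filter fun ω => u ^ 6 < m ω + Y ω, ?_, fun ω hω lam γ hγ h => ?_⟩
  · have k1 := Finset.card_nsmul_le_sum (Finset.univ.filter fun ω => u ^ 6 < m ω + Y ω)
      (fun ω => m ω + Y ω) (u ^ 6) fun ω hω => (Finset.mem_filter.1 hω).2.le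
    have k2 := k1.trans (Finset.sum_le_sum_of_subset_of_nonneg (Finset.filter_subset _ _)
      fun ω _ _ => add_nonneg (hm0 ω) (hY ω))
    rw [nsmul_eq_mul, Finset.sum_add_distrib] at k2
    have k3 : -Real.log u * u ≤ 1 := by
      have := Real.log_le_sub_one_of_pos (inv_pos.2 hu)
      rw [Real.log_inv] at this
      nlinarith [mul_inv_cancel₀ hu.ne']
    have k4 : (C + 6 * (q + 1) ^ 2 + 12 + 26 * (q - Real.log (u ^ 8))) * u ≤
        C + 250 * (q + 1) ^ 2 := by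
      rw [Real.log_pow]
      push_cast
      nlinarith [mul_le_mul_of_nonneg_left hu1 (show 0 ≤ C + 6 * (q + 1) ^ 2 + 12 + 26 * q by
        positivity)]
    have k5 := mul_le_mul_of_nonneg_left k4
      (show 0 ≤ (Fintype.card Ω : ℝ) * u ^ 7 by positivity)
    refine le_of_mul_le_mul_right ?_ (pow_pos hu 6)
    linarith
  · obtain ⟨w, hw, hi, hl, hg⟩ := point hq hu hu1 hγ h
    have h0 : 0 < 4 * q - lam ^ 2 := pos_of_mul_pos_right ((pow_pos hγ 2).trans_le h) (sq_nonneg u)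
    have k1 := (abs_le.1 (geo hq (ev ω) (by linarith) (by linarith) hw hi
      (by rw [hl]; linarith))).1
    have hb : 1 ≤ u⁻¹ ^ 2 := one_le_pow₀ ((one_le_inv₀ hu).2 (by linarith))
    have k2 := jen (M := 4 / u) (R := 1 - u ^ 8) (w₀ := w) (by linarith) (hm0 ω) (hev ω)
      (by linarith) (by linarith) (by linarith) hi (by
        rw [hw, div_le_div_iff₀ (by linarith) hu]; nlinarith) hb
    have k3 : m ω + Y ω ≤ u ^ 6 := by simpa using hω
    have k4 : (u⁻¹ ^ 2) ^ 2 * m ω + (1 + 2 * (u⁻¹ ^ 2) ^ 2) * Y ω ≤ 3 * (u⁻¹ ^ 2) ^ 2 * u ^ 6 := by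
      have a1 : 1 ≤ (u⁻¹ ^ 2) ^ 2 := one_le_pow₀ hb
      nlinarith [mul_le_mul_of_nonneg_left k3 (zero_le_one.trans a1), hY ω, hm0 ω,
        mul_le_mul_of_nonneg_right a1 (hY ω), mul_nonneg (zero_le_one.trans a1) (hm0 ω)]
    have k5 : 4 / u * (3 * (q + 1) / u⁻¹ ^ 2 + 3 * (u⁻¹ ^ 2) ^ 2 * u ^ 6) =
        (12 * (q + 1) + 12) * u := by field_simp; ring
    rw [hZ, add_assoc] at k2
    have k6 := k2.trans ((mul_le_mul_of_nonneg_left (add_le_add_right k4 _)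
      (by positivity)).trans_eq k5)
    rw [hl] at k1
    have k7 := Sf_mono (ev ω) lam hγ hg
    nlinarith [mul_nonneg hu.le (show 0 ≤ q ^ 2 by positivity),
      mul_nonneg hu.le (show 0 ≤ q by linarith)]

end Pool.Agent.P.MP_6b977f_mp.RG.Jen
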