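import Pool.Agent.P.MP_6b977f_mp.RG.IfaceB
import Pool.Agent.P.MP_6b977f_mp.RG.LibLow

/-! Step DET. -/

namespace Pool.Agent.P.MP_6b977f_mp.RG

open Finset MeasureTheory Real
open scoped Classical

namespace DETx

theorem card_sub {α : Type} (s : Finset α) (p : α → Prop) [DecidablePred p] :
    #(univ.filter fun ω : s => p ω) = #(s.filter p) := by
  rw [univ_eq_attach, filter_attach p s, card_map, card_attach]

theorem Sv_eq {N : ℕ} (ev : Fin N → ℝ) (lam γ : ℝ) : Sv ev lam γ = Jen.Sf ev lam γ := by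
  simp [Sv, Jen.Sf, div_eq_inv_mul]

theorem ell_eq (d : ℕ) (lam : ℝ) : ell d lam = Jen.lf (d - 1) lam := by
  rw [ell, Jen.lf, sub_add_cancel]; ring

end DETx

theorem p_DET (hEIG : S_EIG) (hM2 : S_M2) (hLOW : S_LOW) :
    S_DET := by
  intro d hd
  refine ⟨1 / 120, by norm_num, by norm_num, fun κ ε hκ hε => ?_⟩
  obtain ⟨C1, N1, hC1, h1⟩ := hLOW d hd
  obtain ⟨C2, hC2, h2⟩ := hM2 d
  have hq : (2 : ℝ) ≤ d - 1 := by linarith [show (3 : ℝ) ≤ d by exact_mod_cast hd]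
  obtain ⟨K, hK⟩ : ∃ K : ℝ, K = 2 * (C1 + C2) + 250 * (d - 1 + 1) ^ 2 := ⟨_, rfl⟩
  have hK1 : 2 ≤ K := by nlinarith
  have ht := (tendsto_rpow_neg_atTop (show (0 : ℝ) < 1 / 240 by norm_num)).comp
    tendsto_natCast_atTop_atTop
  obtain ⟨N2, h3⟩ := Filter.eventually_atTop.1 (ht.eventually_le_const
    (show 0 < min κ (min 1 ε / K) by positivity))
  refine ⟨max N1 (max 8 N2), fun N hN => ?_⟩
  simp only [max_le_iff] at hN
  have hN0 : (0 : ℝ) < N := by exact_mod_cast (show 0 < N by omega)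
  have hp := fun n : ℕ => rpow_mul_natCast hN0.le (-(1 / 240)) n
  have hv := h3 N hN.2.2
  have hv0 := rpow_pos_of_pos hN0 (-(1 / 240))
  simp only [Function.comp_apply, le_min_iff, le_div_iff₀ (show 0 < K by linarith)] at hv
  generalize (N : ℝ) ^ (-(1 / 240) : ℝ) = v at hp hv hv0
  have e1 : (N : ℝ) ^ (-(1 / 10) : ℝ) = (v ^ 3) ^ 8 := by rw [← pow_mul, ← hp]; norm_num
  have e2 : (N : ℝ) ^ (-(1 / 120) : ℝ) = v ^ 2 := by rw [← hp]; norm_num
  have e3 : (N : ℝ) ^ (-(2 * (1 / 120)) : ℝ) = v ^ 4 := by rw [← hp]; norm_num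
  have e4 : v ^ 240 * N = 1 := by
    rw [← hp, show (-(1 / 240) * (240 : ℕ) : ℝ) = -1 by norm_num, rpow_neg_one,
      inv_mul_cancel₀ hN0.ne']
  have hv1 : v ≤ 1 / 2 := by nlinarith [hv.2.1]
  have hw : ∀ {m n : ℕ}, m ≤ n → v ^ n ≤ v ^ m := fun h =>
    pow_le_pow_of_le_one hv0.le (by linarith) h
  have hu : v ^ 3 ≤ v := by simpa using hw (show 1 ≤ 3 by norm_num)
  choose ev hev using fun M : Cf d N => hEIG d N M M.2
  have : Nonempty (Fin N) := ⟨⟨0, by omega⟩⟩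
  have hc : (0 : ℝ) ≤ #(Cf d N) := Nat.cast_nonneg _
  obtain ⟨B, hB, hB'⟩ := Jen.det hq ev (fun M => par M.1 / N) (u := v ^ 3) (C := C1 + C2)
    (by positivity) (by linarith) (by positivity) (fun lam hl => by
      refine ⟨univ.filter fun M : Cf d N => LD M.1 lam (((v ^ 3) ^ 8) ^ 2) ≤
        ell d lam - C1 * (v ^ 3) ^ 8, ?_, fun M hM => ?_⟩
      · have k1 : (v ^ 3) ^ 8 ≤ v := by simpa [← pow_mul] using hw (show 1 ≤ 24 by norm_num)
        rw [DETx.card_sub (Cf d N) fun M => LD M lam (((v ^ 3) ^ 8) ^ 2) ≤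
          ell d lam - C1 * (v ^ 3) ^ 8, Fintype.card_coe]
        refine (h1 N hN.1 _ lam _ e1.le (by linarith) hl le_rfl).trans
          (mul_le_mul_of_nonneg_right ?_ hc)
        rw [exp_neg, inv_le_iff_one_le_mul₀ (exp_pos _)]
        have k2 := mul_le_mul_of_nonneg_left (add_one_le_exp ((v ^ 3) ^ 8 * N))
          (show 0 ≤ (v ^ 3) ^ 8 by positivity)
        have k3 := mul_le_mul_of_nonneg_right (hw (show 48 ≤ 240 by norm_num)) hN0.le
        nlinarith [show 0 ≤ (v ^ 3) ^ 8 by positivity]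
      · simp only [mem_filter, mem_univ, true_and, not_le] at hM
        rw [← DETx.ell_eq, ← DETx.Sv_eq, ← (hev M).1 _ _ (by positivity)]
        nlinarith [show 0 ≤ (v ^ 3) ^ 8 by positivity])
    (fun M => div_nonneg (sum_nonneg fun _ _ => sum_nonneg fun _ _ => sum_nonneg fun _ _ =>
      ind_nonneg _) hN0.le)
    (fun M => by rw [(hev M).2, Fintype.card_fin]; apply le_of_eq; field_simp; ring) (by
      rw [← sum_div, sum_coe_sort (Cf d N) fun M => par M, Fintype.card_coe, div_le_iff₀ hN0]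
      refine (h2 N hN.2.1).1.trans ?_
      have k3 := mul_le_mul_of_nonneg_right (hw (show 21 ≤ 240 by norm_num)) hN0.le
      rw [e4] at k3
      nlinarith [mul_le_mul_of_nonneg_left k3 (mul_nonneg hC2.le hc),
        show 0 ≤ C1 * v ^ 21 * #(Cf d N) * N by positivity])
  rw [← hK, Fintype.card_coe] at hB
  rw [← DETx.card_sub, e2, e3]
  refine le_trans (Nat.cast_le.2 (card_le_card fun M hM => ?_)) (hB.trans
    (mul_le_mul_of_nonneg_right (by nlinarith [hv.2.2]) hc))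
  by_contra hMB
  refine (mem_filter.1 hM).2 fun lam hl => ?_
  have k1 : 1 ≤ √(d - 1 : ℝ) := one_le_sqrt.2 (by linarith)
  have k2 : κ ≤ 4 * (d - 1) - lam ^ 2 := by
    nlinarith [sq_sqrt (show (0 : ℝ) ≤ d - 1 by linarith), sq_abs lam, abs_nonneg lam]
  have k3 : v ^ 2 ≤ v := by simpa using hw (show 1 ≤ 2 by norm_num)
  have k4 := hB' M hMB lam (v ^ 4) (by positivity) (by
    rw [show (v ^ 4) ^ 2 = (v ^ 3) ^ 2 * v ^ 2 by ring]
    exact mul_le_mul_of_nonneg_left (by linarith [hv.1]) (by positivity))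
  rw [(hev M).1 _ _ (by positivity), DETx.Sv_eq, DETx.ell_eq]
  have k5 : v * (30 * (d - 1 + 1) ^ 2) ≤ 1 :=
    (mul_le_mul_of_nonneg_left (by nlinarith) hv0.le).trans hv.2.1
  nlinarith [mul_le_mul_of_nonneg_left k5 (sq_nonneg v)]

end Pool.Agent.P.MP_6b977f_mp.RG
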