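import Pool.Agent.P.MP_6b977f_mp.RG.IfaceA

/-! Step ELL. -/

namespace Pool.Agent.P.MP_6b977f_mp.RG

open Finset MeasureTheory Real
open scoped Classical

theorem p_ELL :
    S_ELL := by
  intro d P
  have h3 := P.d3
  have hd : (0 : ℝ) < d := by linarith
  have hd1 : (0 : ℝ) < d - 1 := by linarith
  have hr := P.r_pos
  have hρ : 0 < 1 - P.rho := by linarith [(abs_le.1 P.abs_rho).2]
  have hc : ((d - 1 : ℕ) : ℝ) = d - 1 := by
    rw [Nat.cast_sub (by have := P.hd; omega), Nat.cast_one]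
  have h1 : (d : ℝ) - P.lam = d * (1 - P.rho) := by rw [P.lam_eq]; ring
  have h2 : (d : ℝ) ^ 2 - P.lam ^ 2 = (d * P.r) ^ 2 := by
    rw [mul_pow, P.r_sq, P.lam_eq]; ring
  rw [Par.Dl, ell, h1, h2, log_mul (by positivity) (by positivity),
    log_mul (by positivity) hρ.ne', log_pow, log_mul hr.ne' (by positivity),
    log_sqrt hd.le, log_sqrt (by positivity), log_div hd.ne' hd1.ne', log_mul hd.ne' hρ.ne',
    log_pow, log_mul hd.ne' hr.ne', hc]
  push_cast
  ring

end Pool.Agent.P.MP_6b977f_mp.RG
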