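import Pool.Agent.P.MP_6b977f_mp.RG.IfaceA

/-! Step EP. -/

namespace Pool.Agent.P.MP_6b977f_mp.RG

open Finset MeasureTheory Real
open scoped Classical

namespace EPx

theorem vs_pos (d : ℕ) {κ t : ℝ} (hκ : 0 < κ) (ht : 0 ≤ t) (j : SI d) : 0 < vs d κ t j := by
  cases j <;> simp only [vs, Option.elim] <;> positivity

theorem pvp (hP : S_PUSH) {d : ℕ} {κ t : ℝ} (hκ : 0 < κ) (ht : 0 ≤ t) (x : SI d → ℝ)
    (g : (VI d → ℝ) → ℝ) (hg : PG g) : ∫ y, g (vp y) * ker (vs d κ t) (y - x) =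
      ∫ z, g z * ker (fun _ => κ ^ 2 + t) (z - vp x) := by
  have e : ∀ y : SI d → ℝ, (fun k : VI d => ∑ j, (if j = some k then (1 : ℝ) else 0) * y j) = vp y :=
    fun y => funext fun k => by simp [vp]
  have := hP (SI d) (VI d) (fun k j => if j = some k then 1 else 0) (vs d κ t) x
    (fun _ => κ ^ 2 + t) g (vs_pos d hκ ht) (fun _ => by positivity) (fun k => by simp [vs])
    (fun k l h => by simp [h.symm]) hg
  simpa only [e] using this

theorem ped (hP : S_PUSH) {d : ℕ} (P : Par d) {κ t : ℝ} (hκ : 0 < κ) (ht : 0 ≤ t) (i : Fin d)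
    (x : SI d → ℝ) (g : (Fin 2 → ℝ) → ℝ) (hg : PG g) :
    ∫ y, g (P.ed i y) * ker (vs d κ t) (y - x) = ∫ z, g z * ker (P.ve κ t) (z - P.ed i x) := by
  let B : Fin 2 → SI d → ℝ := ![fun j => j.elim (1 / P.cs) fun j => j.elim P.cs fun k => P.sn * P.e i k,
    fun j => j.elim 0 fun j => j.elim P.sn fun k => -P.cs * P.e i k]
  have hc := P.cs_pos
  have e : ∀ y : SI d → ℝ, (fun k => ∑ j, B k j * y j) = P.ed i y := fun y => funext fun k => by
    fin_cases k <;>
      simp [B, Par.ed, Par.ci, vp, Fintype.sum_option, mul_sum, mul_assoc] <;> ring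
  have h1 : ∀ a b : ℝ, ∑ k, a * P.e i k * (b * P.e i k) * (κ ^ 2 + t) = a * b * (κ ^ 2 + t) := by
    intro a b
    have := P.e1 i i
    rw [if_pos rfl] at this
    rw [← sum_mul, sum_congr rfl fun k _ => mul_mul_mul_comm a _ b _, ← mul_sum, this, mul_one]
  have h2 : P.cs * P.cs + P.sn * P.sn = 1 := by rw [← sq, ← sq, P.cs_sq, P.sn_sq]; ring
  have := hP (SI d) (Fin 2) B (vs d κ t) x (P.ve κ t) g (vs_pos d hκ ht)
    (fun k => by fin_cases k <;> simp only [Par.ve] <;> simp <;> positivity) (fun k => ?_)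
    (fun k l h => ?_) hg
  · simpa only [e] using this
  · fin_cases k
    · simp only [B, Par.ve, vs, Fintype.sum_option, Option.elim, sq, Fin.zero_eta,
        Matrix.cons_val_zero]
      rw [← sq κ, h1]
      field_simp
      linear_combination (κ ^ 2 + t) * P.cs ^ 2 * h2
    · simp only [B, Par.ve, vs, Fintype.sum_option, Option.elim, sq, Fin.mk_one,
        Matrix.cons_val_one, Matrix.cons_val_zero]
      rw [← sq κ, h1]
      linear_combination (κ ^ 2 + t) * h2
  · fin_cases k <;> fin_cases l <;> first | exact absurd rfl h | skip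
    all_goals
      simp only [B, vs, Fintype.sum_option, Option.elim, Fin.zero_eta, Fin.mk_one,
        Matrix.cons_val_one, Matrix.cons_val_zero]
      rw [h1]
      ring

end EPx

theorem p_EP (hPUSH : S_PUSH) (hMIX : S_MIX) :
    S_EP := by
  intro d P m κ t hκ ht
  have hv := EPx.vs_pos d hκ ht
  have hc := P.cs_pos
  have hw : ∀ _ : VI d, 0 < κ ^ 2 + t := fun _ => by positivity
  refine ⟨fun g hg => ?_, fun g hg => ?_, fun g hg j => ?_⟩
  · rw [((hMIX _ (P.edge m) (P.ve κ t) fun k => by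
      fin_cases k <;> simp only [Par.ve] <;> simp <;> positivity).2.2.2.2.2.2 g hg).2.1,
      sum_congr rfl fun i _ => ((hMIX _ m _ hv).2.2.2.2.2.2 _ (hg.comp (P.PG_ed i))).2.1, sum_comm]
    simp only [EPx.ped hPUSH P hκ ht _ _ g hg]
    change _ = d * ∑ ω : m.Ω × Fin d, m.p ω.1 / d *
      ∫ y, g y * ker (P.ve κ t) (y - P.ed ω.2 (m.x ω.1))
    have : (d : ℝ) ≠ 0 := by have := P.hd; positivity
    rw [Fintype.sum_prod_type, mul_sum]
    refine sum_congr rfl fun ω _ => ?_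
    rw [mul_sum]
    refine sum_congr rfl fun i _ => ?_
    field_simp
  · rw [((hMIX _ m _ hv).2.2.2.2.2.2 _ (hg.comp Par.PG_vp)).2.1,
      ((hMIX _ (m.map vp) _ hw).2.2.2.2.2.2 g hg).2.1]
    exact sum_congr rfl fun ω _ => congrArg _ (EPx.pvp hPUSH hκ ht _ g hg)
  · rw [((hMIX _ m _ hv).2.2.2.2.2.2 _ (hg.comp Par.PG_vp)).2.2,
      ((hMIX _ (m.map vp) _ hw).2.2.2.2.2.2 g hg).2.2]
    exact sum_congr rfl fun ω _ => congrArg _ (EPx.pvp hPUSH hκ ht (m.x ω)
      (fun z => (m.x ω (some j) - z j) / (κ ^ 2 + t) * g z)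
      ((((PG.const _).sub (PG.coord j)).div _).mul hg))

end Pool.Agent.P.MP_6b977f_mp.RG
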