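import Pool.Agent.P.MP_6b977f_mp.RG.IfaceA

/-! Step FD. -/

namespace Pool.Agent.P.MP_6b977f_mp.RG

open Finset MeasureTheory Real
open scoped Classical

namespace FDx

theorem vs_eq (d : ℕ) (κ t : ℝ) :
    (fun j : SI d => κ ^ 2 + (j.elim (0 : ℝ) fun _ => 1) * t) = vs d κ t := by
  funext j
  cases j <;> simp [vs]

theorem ve_eq {d : ℕ} (P : Par d) (κ t : ℝ) :
    (fun j => P.ve κ 0 j + 1 * t) = P.ve κ t := by
  funext j
  fin_cases j <;> simp [Par.ve]
  ring

end FDx

theorem p_FD (hDB : S_DB) :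
    S_FD := by
  intro d P m κ t hκ ht
  have h1 := hDB (SI d) m (fun _ => κ ^ 2) (fun j => j.elim 0 fun _ => 1) t fun j => by
    cases j <;> simp only [Option.elim] <;> positivity
  have h2 := hDB (Fin 2) (P.edge m) (P.ve κ 0) (fun _ => 1) t fun j => by
    fin_cases j <;> simp [Par.ve] <;> positivity
  simp only [FDx.vs_eq] at h1
  simp only [FDx.ve_eq] at h2
  refine (h1.sub (h2.const_mul ((d : ℝ) / 2))).congr_deriv ?_
  rw [Par.Dr, Fintype.sum_option (α := VI d)]
  simp only [Option.elim, zero_mul, one_mul, zero_add]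
  ring

end Pool.Agent.P.MP_6b977f_mp.RG
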