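import Pool.Agent.P.MP_6b977f_mp.RG.IfaceB

/-! Step FIB. -/

namespace Pool.Agent.P.MP_6b977f_mp.RG

open Finset MeasureTheory Real
open scoped Classical

namespace FIBx
variable {d N : ℕ} {M : Cfg d N} {G : SimpleGraph (Fin N)}

theorem adj_iff (hM : M ∈ Cf d N) (hs : Simple M) (x y : Fin N) :
    (graph M).Adj x y ↔ ∃ i, tip M (x, i) = y := by
  rw [graph, SimpleGraph.fromRel_adj]
  refine ⟨fun h => h.2.elim id fun ⟨i, e⟩ => ⟨(M (y, i)).2, ?_⟩,
    fun ⟨i, e⟩ => ⟨fun e' => hs.1 (x, i) (e.trans e'.symm), .inl ⟨i, e⟩⟩⟩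
  rw [← e]
  exact tip_mate hM (y, i)

theorem tip_mem (hM : M ∈ Cf d N) (hs : Simple M) (x : Fin N) :
    (fun i => tip M (x, i)) ∈ enum d (graph M) x :=
  mem_filter.2 ⟨mem_univ _, hs.2 x, fun i => (adj_iff hM hs _ _).2 ⟨i, rfl⟩⟩

theorem reg (hM : M ∈ Cf d N) (hs : Simple M) : graph M ∈ Reg d N :=
  mem_filter.2 ⟨mem_univ _, fun x => by
    rw [show (graph M).neighborSet x = Set.range fun i => tip M (x, i) from
      Set.ext (adj_iff hM hs x), Set.ncard_range_of_injective (hs.2 x)]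
    simp⟩

theorem card_enum (hG : G ∈ Reg d N) (x : Fin N) : #(enum d G x) = d.factorial := by
  have e : enum d G x ≃ (Fin d ↪ G.neighborSet x) :=
    ⟨fun e => ⟨fun i => ⟨e.1 i, (mem_filter.1 e.2).2.2 i⟩,
        fun i j h => (mem_filter.1 e.2).2.1 (congrArg Subtype.val h)⟩,
      fun f => ⟨fun i => f i, mem_filter.2 ⟨mem_univ _,
        Subtype.val_injective.comp f.injective, fun i => (f i).2⟩⟩, fun _ => rfl, fun _ => rfl⟩
  rw [card_eq_of_equiv_fintype e, Fintype.card_embedding_eq, ← Nat.card_eq_fintype_card,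
    Nat.card_coe_set_eq, (mem_filter.1 hG).2 x, Fintype.card_fin, Nat.descFactorial_self]

theorem surj (hG : G ∈ Reg d N) {x y : Fin N} {e : Fin d → Fin N} (he : e ∈ enum d G x)
    (h : G.Adj x y) : ∃ i, e i = y := by
  obtain ⟨h1, h2⟩ := (mem_filter.1 he).2
  have : Set.range e = G.neighborSet x := Set.eq_of_subset_of_ncard_le
    (Set.range_subset_iff.2 h2) (by
      rw [(mem_filter.1 hG).2 x, Set.ncard_range_of_injective h1]
      simp)
  exact (Set.ext_iff.1 this y).2 h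

end FIBx

theorem p_FIB :
    S_FIB := by
  refine fun d N => ⟨fun M => FIBx.reg, fun G hG => ?_⟩
  have : #(Fintype.piFinset fun x => enum d G x) = d.factorial ^ N := by
    simp [FIBx.card_enum hG]
  rw [← this]
  refine card_bij (fun M _ x i => tip M (x, i)) (fun M hM => ?_) (fun M hM M' hM' e => ?_)
    fun φ hφ => ?_
  · obtain ⟨m, s, rfl⟩ := mem_filter.1 hM
    exact Fintype.mem_piFinset.2 (FIBx.tip_mem m s)
  · have t : ∀ h, tip M h = tip M' h := fun h => congrFun (congrFun e h.1) h.2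
    obtain ⟨m, s, -⟩ := mem_filter.1 hM
    refine Equiv.ext fun h => Prod.ext (t h) (s.2 (M h).1 _ _ ?_)
    have := tip_mate (mem_filter.1 hM').1 h
    rw [← t] at this
    rw [tip_mate m, ← this, show (M h).1 = (M' h).1 from t h]
  · rw [Fintype.mem_piFinset] at hφ
    have a : ∀ x i, G.Adj x (φ x i) := fun x => (mem_filter.1 (hφ x)).2.2
    have b : ∀ x, Function.Injective (φ x) := fun x => (mem_filter.1 (hφ x)).2.1
    choose j hj using fun h : Fin N × Fin d => FIBx.surj hG (hφ _) (a h.1 h.2).symm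
    have inv : Function.Involutive fun h : Fin N × Fin d => (φ h.1 h.2, j h) := fun h =>
      Prod.ext (hj h) (b h.1 (by
        have := hj (φ h.1 h.2, j h)
        rwa [hj h] at this))
    have m : inv.toPerm _ ∈ Cf d N :=
      mem_Cf.2 fun h => ⟨inv h, fun e => (a h.1 h.2).ne' (congrArg Prod.fst e)⟩
    have s : Simple (inv.toPerm _) := ⟨fun h => (a h.1 h.2).ne', fun x => b x⟩
    refine ⟨inv.toPerm _, mem_filter.2 ⟨m, s, SimpleGraph.ext (funext₂ fun x y => propext ?_)⟩, rfl⟩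
    rw [FIBx.adj_iff m s]
    exact ⟨fun ⟨i, e⟩ => e ▸ a x i, FIBx.surj hG (hφ x)⟩

end Pool.Agent.P.MP_6b977f_mp.RG
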