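import Pool.Agent.P.MP_6b977f_mp.RG.IfaceA

/-! Step FISH. -/

namespace Pool.Agent.P.MP_6b977f_mp.RG

open Finset MeasureTheory Real
open scoped Classical

namespace FISHx

variable {ι : Type} [Fintype ι] {m : Mix ι} {v : ι → ℝ}

theorem cm (c : ℝ) (f : (ι → ℝ) → ℝ) : m.Ex v (fun y => c * f y) = c * m.Ex v f := by
  simp only [Mix.Ex, mul_assoc]
  exact integral_const_mul _ _

theorem sm (h : ∀ g, PG g → Integrable fun y => g y * m.den v y) {α : Type} (s : Finset α)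
    (F : α → (ι → ℝ) → ℝ) (hF : ∀ a, PG (F a)) :
    m.Ex v (fun y => ∑ a ∈ s, F a y) = ∑ a ∈ s, m.Ex v (F a) := by
  simp only [Mix.Ex, sum_mul]
  exact integral_finsetSum _ fun a _ => h _ (hF a)

theorem ad (h : ∀ g, PG g → Integrable fun y => g y * m.den v y) {f g : (ι → ℝ) → ℝ} {x : ℝ}
    (hf : PG f ∧ m.Ex v f = x) (c : ℝ) (hg : PG g) :
    PG (fun y => f y + c * g y) ∧ m.Ex v (fun y => f y + c * g y) = x + c * m.Ex v g := by
  refine ⟨hf.1.add (hg.cmul c), ?_⟩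
  rw [← hf.2, ← cm c g]
  simp only [Mix.Ex, add_mul]
  exact integral_add (h _ hf.1) (h _ (hg.cmul c))

theorem nn {f : (ι → ℝ) → ℝ} (h : ∀ y, 0 < m.den v y) : 0 ≤ m.Ex v fun y => f y ^ 2 :=
  integral_nonneg fun y => mul_nonneg (sq_nonneg _) (h y).le

/-- the expansion of one term -/
theorem one (h : ∀ g, PG g → Integrable fun y => g y * m.den v y) {a u z z' : (ι → ℝ) → ℝ}
    (ha : PG a) (hu : PG u) (hz : PG z) (hz' : PG z') (q k : ℝ) :
    (q - k ^ 2) * m.Ex v (fun y => (u y - z' y) ^ 2) +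
      m.Ex v (fun y => (a y - z y + k * (u y - z' y)) ^ 2) =
    m.Ex v (fun y => a y ^ 2) + q * m.Ex v (fun y => u y ^ 2) +
      2 * k * m.Ex v (fun y => a y * u y) + (-2) * m.Ex v (fun y => (a y - z y) * z y) +
      (-2 * k) * m.Ex v (fun y => (a y - z y) * z' y) +
      (-2 * k) * m.Ex v (fun y => (u y - z' y) * z y) +
      (-2 * q) * m.Ex v (fun y => (u y - z' y) * z' y) +
      (-1) * m.Ex v (fun y => q * z' y ^ 2 + z y ^ 2 + 2 * k * (z y * z' y)) := by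
  have h1 := (ad h ⟨((ha.sub hz).add ((hu.sub hz').cmul k)).pow 2, rfl⟩ (q - k ^ 2)
    ((hu.sub hz').pow 2)).2
  have h2 := (ad h (ad h (ad h (ad h (ad h (ad h (ad h ⟨ha.pow 2, rfl⟩ q (hu.pow 2)) (2 * k)
    (ha.mul hu)) (-2) ((ha.sub hz).mul hz)) (-2 * k) ((ha.sub hz).mul hz')) (-2 * k)
    ((hu.sub hz').mul hz)) (-2 * q) ((hu.sub hz').mul hz')) (-1)
    ((((hz'.pow 2).cmul q).add (hz.pow 2)).add ((hz.mul hz').cmul (2 * k)))).2
  rw [← h2, add_comm, ← h1]
  congr 1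
  funext y
  ring

theorem lin2 (c1 c2 : ℝ) (a b : ι → ℝ) :
    lin (fun j => c1 * a j + c2 * b j) = c1 • lin a + c2 • lin b := by
  ext u
  simp only [lin_apply, ContinuousLinearMap.add_apply, ContinuousLinearMap.smul_apply, smul_eq_mul,
    mul_sum, ← sum_add_distrib]
  exact sum_congr rfl fun j _ => by ring

end FISHx

open FISHx in
theorem p_FISH (hMIX : S_MIX) (hDER : S_DER) (hEP : S_EP) (hPM : S_PM) (hORT : S_ORT) :
    S_FISH := by
  intro d P m κ t hs hκ ht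
  have h3 := P.d3
  have hv : ∀ j, 0 < vs d κ t j := fun j => by
    cases j <;> simp only [vs, Option.elim] <;> positivity
  have hw : ∀ j, 0 < P.ve κ t j := fun j => by
    have := P.cs_pos
    fin_cases j <;> simp only [Par.ve] <;> simp <;> positivity
  obtain ⟨dp, -, -, ps, -, -, hI⟩ := hMIX _ m _ hv
  obtain ⟨-, -, -, qs, qd, -, hJ⟩ := hMIX _ (P.edge m) _ hw
  have I1 := fun g hg => (hI g hg).1
  have I2 := fun g hg => (hJ g hg).1
  have pa : PG (P.za m κ t) := ((qs 0).cmul _).add ((qs 1).cmul _)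
  have pc : PG (P.zc m κ t) := ((qs 0).cmul _).sub ((qs 1).cmul _)
  have pu : ∀ i, PG (P.uu m κ t i) := fun i => PG.sum _ fun k _ => (ps _).cmul _
  refine ⟨?_, div_nonneg (sum_nonneg fun i _ => add_nonneg
    (mul_nonneg (by linarith [P.kk_sq]) (nn dp)) (nn dp)) (by linarith)⟩
  have D := fun e => (hDER _ (P.edge m) _ e hw).2.2
  obtain ⟨o1, o3⟩ := hORT d P m κ t (P.za m κ t)
    (fun k e => P.cs * (P.edge m).dsc (P.ve κ t) 0 k e + P.sn * (P.edge m).dsc (P.ve κ t) 1 k e)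
    hκ ht pa (fun k => ((qd 0 k).cmul _).add ((qd 1 k).cmul _)) fun e => by
      rw [lin2]
      exact ((D e 0).const_mul _).add ((D e 1).const_mul _)
  obtain ⟨o2, o4⟩ := hORT d P m κ t (P.zc m κ t)
    (fun k e => P.sn * (P.edge m).dsc (P.ve κ t) 0 k e + -P.cs * (P.edge m).dsc (P.ve κ t) 1 k e)
    hκ ht pc (fun k => ((qd 0 k).cmul _).add ((qd 1 k).cmul _)) fun e => by
      rw [lin2]
      refine (((D e 0).const_mul P.sn).add ((D e 1).const_mul (-P.cs))).congr_of_eventuallyEq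
        (Filter.Eventually.of_forall fun y => ?_)
      simp only [Par.zc, Pi.add_apply]
      ring
  have o5 : ∑ i, m.Ex (vs d κ t) (fun y => m.sc (vs d κ t) (some none) y * P.uu m κ t i y) = 0 := by
    rw [← sm I1 _ _ fun i => (ps _).mul (pu i)]
    have : ∀ y, ∑ i, m.sc (vs d κ t) (some none) y * P.uu m κ t i y = 0 * 0 := fun y => by
      rw [← mul_sum, show ∑ i, P.uu m κ t i y = 0 from
        P.sum_ci fun j => m.sc (vs d κ t) (some j) y]
      ring
    simp only [this, Mix.Ex, zero_mul, integral_zero]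
  have o6 : ∑ i, m.Ex (vs d κ t) (fun y => P.uu m κ t i y ^ 2) = d / (d - 1) *
      ∑ k, m.Ex (vs d κ t) fun y => m.sc (vs d κ t) (some (some k)) y ^ 2 := by
    rw [← sm I1 _ _ fun i => (pu i).pow 2, ← sm I1 _ _ fun k => (ps _).pow 2, ← cm]
    congr 1
    funext y
    exact P.sum_ci_sq fun j => m.sc (vs d κ t) (some j) y
  have o7 := (hEP d P m κ t hκ ht).1 _
    ((((pc.pow 2).cmul (d - 1)).add (pa.pow 2)).add ((pa.mul pc).cmul (2 * P.kk)))
  have o8 : (P.edge m).Ex (P.ve κ t) (fun e => (d - 1) * P.zc m κ t e ^ 2 + P.za m κ t e ^ 2 +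
      2 * P.kk * (P.za m κ t e * P.zc m κ t e)) = d / 2 *
      ∑ j, (P.edge m).Ex (P.ve κ t) fun e => (P.edge m).sc (P.ve κ t) j e ^ 2 := by
    have h1 := (ad I2 (ad I2 ⟨((qs 0).pow 2).cmul (d / 2), cm _ _⟩ (d / 2) ((qs 1).pow 2))
      (P.r * (2 - d) - 2 * P.kk * P.rho) ((qs 0).mul (qs 1))).2
    rw [hPM d P m _ hs hw, mul_zero, add_zero, ← mul_add] at h1
    rw [Fin.sum_univ_two, ← h1]
    congr 1
    funext e
    have k1 : 2 * P.kk * P.r = (d - 2) * P.rho := by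
      have := P.r_pos
      rw [Par.kk]
      field_simp
    have k2 := P.cs_sq
    have k3 := P.sn_sq
    have k4 := P.cs_sn
    simp only [Par.za, Par.zc]
    generalize (P.edge m).sc (P.ve κ t) 0 e = A
    generalize (P.edge m).sc (P.ve κ t) 1 e = B
    linear_combination (A ^ 2 + (d - 1) * B ^ 2 - 2 * P.kk * A * B) * k2 +
      ((d - 1) * A ^ 2 + B ^ 2 + 2 * P.kk * A * B) * k3 +
      ((2 - d) * A * B + P.kk * (A ^ 2 - B ^ 2)) * k4 + (A ^ 2 - B ^ 2) / 2 * k1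
  have key := fun i => one I1 (ps (some none)) (pu i) (pa.comp (P.PG_ed i)) (pc.comp (P.PG_ed i))
    (d - 1) P.kk
  simp only [Par.ww] at o3 o4
  simp only [Par.Dr, Par.Dd, Par.ww, key, sum_add_distrib, ← mul_sum, o1, o2, o3, o4, o5, o6, o7, o8,
    Fintype.sum_option, sum_const, card_univ, Fintype.card_fin, nsmul_eq_mul]
  have d1 : (d : ℝ) - 1 ≠ 0 := by linarith
  have d0 : (d : ℝ) ≠ 0 := by linarith
  field_simp
  ring

end Pool.Agent.P.MP_6b977f_mp.RG
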