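import Mathlib

/-! The Gibbs inequality for labellings against the product of the averaged one-site law. -/

set_option autoImplicit false
set_option linter.unusedSectionVars false

namespace Pool.Agent.P.MP_6b977f_mp.RG.C22

open Finset

theorem gibbs {V S : Type} [Fintype V] [DecidableEq V] [Nonempty V] [DecidableEq S]
    (Om : Finset (V → S)) (hne : Om.Nonempty) (w : S → ℝ) :
    ∃ (T : Finset S) (μ : S → ℝ) (P : (V → S) → ℝ), (∀ s ∈ T, 0 < μ s) ∧ (∀ s, s ∉ T → μ s = 0) ∧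
      ∑ s ∈ T, μ s = 1 ∧ (∀ o ∈ Om, 0 < P o) ∧ ∑ o ∈ Om, P o = 1 ∧ (∀ o ∈ Om, ∀ x, o x ∈ T) ∧
      (∀ g : S → ℝ, ∑ s ∈ T, μ s * g s =
        ∑ o ∈ Om, P o * ((∑ x, g (o x)) / Fintype.card V)) ∧
      Real.log (∑ o ∈ Om, Real.exp (-∑ x, w (o x))) ≤
        Fintype.card V * ∑ s ∈ T, μ s * (-Real.log (μ s) - w s) := by
  set Z := ∑ o ∈ Om, Real.exp (-∑ x, w (o x)) with hZ
  have hZ0 : 0 < Z := Finset.sum_pos (fun _ _ => Real.exp_pos _) hne
  have hn : (0 : ℝ) < Fintype.card V := by exact_mod_cast Fintype.card_pos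
  let P : (V → S) → ℝ := fun o => Real.exp (-∑ x, w (o x)) / Z
  have hP0 : ∀ o, 0 < P o := fun o => div_pos (Real.exp_pos _) hZ0
  have hP1 : ∑ o ∈ Om, P o = 1 := by
    simp only [P]; rw [← Finset.sum_div, div_self hZ0.ne']
  let T : Finset S := Om.biUnion fun o => univ.image o
  have hT : ∀ o ∈ Om, ∀ x, o x ∈ T := fun o ho x =>
    Finset.mem_biUnion.2 ⟨o, ho, Finset.mem_image_of_mem _ (Finset.mem_univ x)⟩
  let μ : S → ℝ := fun s => ∑ o ∈ Om, P o * ((∑ x, if o x = s then (1 : ℝ) else 0) / Fintype.card V)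
  have hg : ∀ g : S → ℝ, ∑ s ∈ T, μ s * g s =
      ∑ o ∈ Om, P o * ((∑ x, g (o x)) / Fintype.card V) := by
    intro g
    simp only [μ, Finset.sum_mul]
    rw [Finset.sum_comm]
    refine Finset.sum_congr rfl fun o ho => ?_
    simp only [mul_assoc]
    rw [← Finset.mul_sum]
    congr 1
    simp only [div_mul_eq_mul_div, Finset.sum_mul]
    rw [← Finset.sum_div, Finset.sum_comm]
    congr 1
    refine Finset.sum_congr rfl fun x _ => ?_
    simp [hT o ho x]
  have hμ0 : ∀ s ∈ T, 0 < μ s := by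
    intro s hs
    obtain ⟨o, ho, hs⟩ := Finset.mem_biUnion.1 hs
    obtain ⟨x, -, rfl⟩ := Finset.mem_image.1 hs
    refine Finset.sum_pos' (fun o _ => mul_nonneg (hP0 o).le (div_nonneg
      (Finset.sum_nonneg fun _ _ => by positivity) hn.le)) ⟨o, ho, mul_pos (hP0 o) (div_pos ?_ hn)⟩
    exact Finset.sum_pos' (fun _ _ => by positivity) ⟨x, Finset.mem_univ x, by simp⟩
  have hμz : ∀ s, s ∉ T → μ s = 0 := by
    intro s hs
    refine Finset.sum_eq_zero fun o ho => ?_
    have : ∑ x, (if o x = s then (1 : ℝ) else 0) = 0 :=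
      Finset.sum_eq_zero fun x _ => if_neg fun h : o x = s => hs (h ▸ hT o ho x)
    rw [this]
    simp
  have hμ1 : ∑ s ∈ T, μ s = 1 := by
    have := hg fun _ => 1
    simp only [mul_one, Finset.sum_const, Finset.card_univ, nsmul_eq_mul, div_self hn.ne'] at this
    rw [this, hP1]
  refine ⟨T, μ, P, hμ0, hμz, hμ1, fun o _ => hP0 o, hP1, hT, hg, ?_⟩
  rw [hg, Finset.mul_sum]
  have hQ : ∑ o ∈ Om, ∏ x, μ (o x) ≤ 1 := by
    calc ∑ o ∈ Om, ∏ x, μ (o x) ≤ ∑ o ∈ Fintype.piFinset (fun _ : V => T), ∏ x, μ (o x) :=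
          Finset.sum_le_sum_of_subset_of_nonneg
            (fun o ho => Fintype.mem_piFinset.2 (hT o ho)) fun o ho _ =>
              Finset.prod_nonneg fun x _ => (hμ0 _ (Fintype.mem_piFinset.1 ho x)).le
      _ = ∏ _x : V, ∑ s ∈ T, μ s := (Finset.prod_univ_sum _ _).symm
      _ = 1 := by simp [hμ1]
  have hpt : ∀ o ∈ Om, P o * Real.log Z - Fintype.card V *
      (P o * ((∑ x, (-Real.log (μ (o x)) - w (o x))) / Fintype.card V)) ≤ ∏ x, μ (o x) - P o := by
    intro o ho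
    have hq : 0 < ∏ x, μ (o x) := Finset.prod_pos fun x _ => hμ0 _ (hT o ho x)
    have h1 := Real.log_le_sub_one_of_pos (div_pos hq (hP0 o))
    rw [Real.log_div hq.ne' (hP0 o).ne', Real.log_prod fun x _ => (hμ0 _ (hT o ho x)).ne'] at h1
    have h2 : Real.log (P o) = -∑ x, w (o x) - Real.log Z := by
      simp only [P]; rw [Real.log_div (Real.exp_pos _).ne' hZ0.ne', Real.log_exp]
    rw [h2] at h1
    have h3 := mul_le_mul_of_nonneg_left h1 (hP0 o).le
    have h4 : P o * ((∏ x, μ (o x)) / P o - 1) = ∏ x, μ (o x) - P o := by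
      have := (hP0 o).ne'; field_simp
    rw [h4] at h3
    refine le_trans (le_of_eq ?_) h3
    rw [Finset.sum_sub_distrib, Finset.sum_neg_distrib]
    field_simp
    ring
  have h5 := Finset.sum_le_sum hpt
  rw [Finset.sum_sub_distrib, Finset.sum_sub_distrib, ← Finset.sum_mul, hP1] at h5
  linarith

end Pool.Agent.P.MP_6b977f_mp.RG.C22
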