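import Pool.Agent.P.MP_6b977f_mp.RG.LibCnt
import Pool.Agent.P.MP_6b977f_mp.RG.LibTyp
import Pool.Agent.P.MP_6b977f_mp.RG.LibGib

/-! First moment bound over pairings and lattice vectors. -/

set_option autoImplicit false
set_option linter.unusedSectionVars false

namespace Pool.Agent.P.MP_6b977f_mp.RG.C22

open Finset

variable {N d : ℕ}

/-- values on the star of `x` -/
def starL (M : Equiv.Perm (Fin N × Fin d)) (φ : Fin N → ℤ) (x : Fin N) : ℤ × (Fin d → ℤ) :=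
  (φ x, fun i => φ (M (x, i)).1)

/-- half-edge labels of a star labelling -/
def labo (o : Fin N → ℤ × (Fin d → ℤ)) (h : Fin N × Fin d) : ℤ × ℤ := ((o h.1).1, (o h.1).2 h.2)

/-- averaged edge law -/
noncomputable def nuL (T : Finset (ℤ × (Fin d → ℤ))) (μ : ℤ × (Fin d → ℤ) → ℝ) (e : ℤ × ℤ) : ℝ :=
  ∑ s ∈ T, μ s * ((∑ i : Fin d, if (s.1, s.2 i) = e then (1 : ℝ) else 0) / d)

theorem labo_star (M : Equiv.Perm (Fin N × Fin d)) (hM : IsPM M) (φ : Fin N → ℤ)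
    (h : Fin N × Fin d) : labo (starL M φ) (M h) = Prod.swap (labo (starL M φ) h) := by
  simp only [labo, starL, Prod.mk.eta, (hM h).1, Prod.swap_prod_mk]

theorem labo_sq (M : Equiv.Perm (Fin N × Fin d)) (φ : Fin N → ℤ) (R : ℕ)
    (hR : ∑ x, φ x ^ 2 ≤ (R : ℤ) ^ 2) :
    ∑ h, ((labo (starL M φ) h).1 ^ 2 + (labo (starL M φ) h).2 ^ 2) ≤ ((2 * d : ℕ) : ℤ) * (R : ℤ) ^ 2 := by
  have h1 : ∑ h : Fin N × Fin d, φ h.1 ^ 2 = d * ∑ x, φ x ^ 2 := by
    rw [Fintype.sum_prod_type, Finset.mul_sum]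
    simp
  have h2 : ∑ h : Fin N × Fin d, φ (M h).1 ^ 2 = ∑ h : Fin N × Fin d, φ h.1 ^ 2 :=
    Equiv.sum_comp M fun h => φ h.1 ^ 2
  simp only [labo, starL, Prod.mk.eta]
  rw [Finset.sum_add_distrib, h2, h1]
  have : (0 : ℤ) ≤ d := Int.natCast_nonneg d
  push_cast
  nlinarith

theorem mem_box (φ : Fin N → ℤ) (R : ℕ) (hR : ∑ x, φ x ^ 2 ≤ (R : ℤ) ^ 2) (x : Fin N) :
    φ x ∈ Icc (-(R : ℤ)) R := by
  have h1 : φ x ^ 2 ≤ (R : ℤ) ^ 2 :=
    (Finset.single_le_sum (f := fun x => φ x ^ 2) (fun _ _ => sq_nonneg _) (Finset.mem_univ x)).trans hR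
  exact Finset.mem_Icc.2 (abs_le_of_sq_le_sq' h1 (Int.natCast_nonneg R))

/-- FM -/
theorem fm_main (hN : 0 < N) (hd : 0 < d) {K : Type} (g : K → ℤ × (Fin d → ℤ) → ℝ) (c : K → ℝ)
    (w : ℤ × (Fin d → ℤ) → ℝ) (B : Finset (Equiv.Perm (Fin N × Fin d))) (hB : ∀ M ∈ B, IsPM M)
    (F : Equiv.Perm (Fin N × Fin d) → Finset (Fin N → ℤ)) (R : ℕ) (Z Ψ : ℝ)
    (hR : ∀ M ∈ B, ∀ φ ∈ F M, ∑ x, φ x ^ 2 ≤ (R : ℤ) ^ 2)
    (hg : ∀ M ∈ B, ∀ φ ∈ F M, ∀ k, (∑ x, g k (starL M φ x)) / N ≤ c k)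
    (hZ : ∀ M ∈ B, Z ≤ ∑ φ ∈ F M, Real.exp (-∑ x, w (starL M φ x)))
    (hΨ : ∀ (T : Finset (ℤ × (Fin d → ℤ))) (μ : ℤ × (Fin d → ℤ) → ℝ), (∀ s ∈ T, 0 < μ s) →
      (∀ s, s ∉ T → μ s = 0) → ∑ s ∈ T, μ s = 1 → (∀ e, nuL T μ (Prod.swap e) = nuL T μ e) →
      (∀ k, ∑ s ∈ T, μ s * g k s ≤ c k) →
      ∑ s ∈ T, μ s * (-Real.log (μ s) + 1 / 2 * ∑ i, Real.log (nuL T μ (s.1, s.2 i)) - w s) ≤ Ψ) :
    B.card * Z ≤ (univ.filter fun M : Equiv.Perm (Fin N × Fin d) => IsPM M).card *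
      (Real.exp (N * Ψ) * ((Real.exp 1 * (N * d)) ^ ((2 * d + 10) * (R + 1)) *
        (((2 * R + 1) ^ 2 * (N * d + 1) + 1 : ℕ) : ℝ) ^ ((2 * d + 10) * (R + 1)))) := by
  classical
  have : Nonempty (Fin N) := ⟨⟨0, hN⟩⟩
  set m := (2 * d + 10) * (R + 1) with hm
  set PMc : ℝ := ((univ.filter fun M : Equiv.Perm (Fin N × Fin d) => IsPM M).card : ℝ) with hPMc
  have hPM0 : 0 ≤ PMc := Nat.cast_nonneg _
  have hN' : (0 : ℝ) < N := by exact_mod_cast hN
  have hd' : (0 : ℝ) < d := by exact_mod_cast hd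
  have hcard : (Fintype.card (Fin N × Fin d) : ℝ) = N * d := by simp
  let Om : Finset (Fin N → ℤ × (Fin d → ℤ)) := B.biUnion fun M => (F M).image (starL M)
  have hOm : ∀ o ∈ Om, ∃ M ∈ B, ∃ φ ∈ F M, starL M φ = o := fun o ho => by
    obtain ⟨M, hM, ho⟩ := Finset.mem_biUnion.1 ho
    obtain ⟨φ, hφ, rfl⟩ := Finset.mem_image.1 ho
    exact ⟨M, hM, φ, hφ, rfl⟩
  let E : (Fin N → ℤ × (Fin d → ℤ)) → ℝ := fun o => Real.exp (-∑ x, w (o x))
  let cp : (Fin N → ℤ × (Fin d → ℤ)) → Equiv.Perm (Fin N × Fin d) → Prop :=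
    fun o M => IsPM M ∧ ∀ h, labo o (M h) = Prod.swap (labo o h)
  let wt : (ℤ × ℤ → ℕ) → ℤ × (Fin d → ℤ) → ℝ :=
    fun τ s => w s - 1 / 2 * ∑ i, Real.log ((τ (s.1, s.2 i) : ℝ) / (N * d))
  have h1e : (1 : ℝ) ≤ Real.exp 1 * (N * d) := by
    have a1 : (1 : ℝ) ≤ N := by exact_mod_cast hN
    have a2 : (1 : ℝ) ≤ d := by exact_mod_cast hd
    have a3 := Real.add_one_le_exp (1 : ℝ)
    nlinarith [mul_le_mul a1 a2 zero_le_one hN'.le]
  have himg : ∀ o ∈ Om, (univ.image (labo o)).card ≤ m := fun o ho => by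
    obtain ⟨M, hM, φ, hφ, rfl⟩ := hOm o ho
    exact card_image_le _ R (2 * d) (labo_sq M φ R (hR M hM φ hφ))
  have s1 : B.card * Z ≤ ∑ o ∈ Om, E o * (univ.filter (cp o)).card := by
    calc B.card * Z ≤ ∑ M ∈ B, ∑ φ ∈ F M, E (starL M φ) := by
          rw [← nsmul_eq_mul]; exact Finset.card_nsmul_le_sum _ _ _ hZ
      _ ≤ ∑ M ∈ B, ∑ o ∈ Om, if cp o M then E o else 0 := by
          refine Finset.sum_le_sum fun M hM => ?_
          rw [← Finset.sum_filter, ← Finset.sum_image (f := E) (g := starL M)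
            (fun φ _ φ' _ h => funext fun x => congrArg Prod.fst (congrFun h x))]
          refine Finset.sum_le_sum_of_subset_of_nonneg (fun o ho => ?_)
            fun _ _ _ => (Real.exp_pos _).le
          refine Finset.mem_filter.2 ⟨Finset.mem_biUnion.2 ⟨M, hM, ho⟩, hB M hM, ?_⟩
          obtain ⟨φ, -, rfl⟩ := Finset.mem_image.1 ho
          exact labo_star M (hB M hM) φ
      _ ≤ ∑ M, ∑ o ∈ Om, if cp o M then E o else 0 :=
          Finset.sum_le_sum_of_subset_of_nonneg (Finset.subset_univ _) fun _ _ _ =>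
            Finset.sum_nonneg fun o _ => by
              split_ifs
              · exact (Real.exp_pos _).le
              · exact le_rfl
      _ = _ := by
          rw [Finset.sum_comm]
          refine Finset.sum_congr rfl fun o _ => ?_
          rw [← Finset.sum_filter, Finset.sum_const, nsmul_eq_mul, mul_comm]
  have s2 : ∀ o ∈ Om, E o * (univ.filter (cp o)).card ≤
      PMc * (Real.exp 1 * (N * d)) ^ m * Real.exp (-∑ x, wt (cnt (labo o)) (o x)) := by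
    intro o ho
    have a1 := cnt_main Prod.swap Prod.swap_swap (labo o)
    rw [hcard] at a1
    have a2 : Real.exp (-∑ x, wt (cnt (labo o)) (o x)) = E o *
        Real.exp (1 / 2 * ∑ h, Real.log ((cnt (labo o) (labo o h) : ℝ) / (N * d))) := by
      simp only [E, wt]
      rw [← Real.exp_add, Fintype.sum_prod_type, Finset.sum_sub_distrib, ← Finset.mul_sum]
      congr 1
      simp only [labo]
      ring
    have a3 : (Real.exp 1 * (N * d)) ^ (univ.image (labo o)).card ≤ (Real.exp 1 * (N * d)) ^ m :=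
      pow_le_pow_right₀ h1e (himg o ho)
    have a4 : 0 < E o := Real.exp_pos _
    rw [a2]
    calc E o * (univ.filter (cp o)).card ≤ E o * (PMc * (Real.exp 1 * (N * d)) ^ m *
          Real.exp (1 / 2 * ∑ h, Real.log ((cnt (labo o) (labo o h) : ℝ) / (N * d)))) := by
          refine mul_le_mul_of_nonneg_left (le_trans (le_of_eq ?_) (a1.trans ?_)) a4.le
          · congr 1
          · gcongr
      _ = _ := by ring
  have s3 : ∀ τ ∈ Om.image (fun o => cnt (labo o)),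
      ∑ o ∈ Om.filter (fun o => cnt (labo o) = τ), Real.exp (-∑ x, wt (cnt (labo o)) (o x)) ≤
        Real.exp (N * Ψ) := by
    intro τ hτ
    obtain ⟨o0, ho0, hτ0⟩ := Finset.mem_image.1 hτ
    have hne : (Om.filter fun o => cnt (labo o) = τ).Nonempty :=
      ⟨o0, Finset.mem_filter.2 ⟨ho0, hτ0⟩⟩
    rw [Finset.sum_congr rfl fun o ho => by rw [(Finset.mem_filter.1 ho).2]]
    obtain ⟨T, μ, P, b1, b2, b3, b4, b5, -, b7, b8⟩ := gibbs _ hne (wt τ)
    rw [Fintype.card_fin] at b7 b8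
    have hnu : ∀ e, nuL T μ e = (τ e : ℝ) / (N * d) := by
      intro e
      unfold nuL
      rw [b7 fun s => (∑ i : Fin d, if (s.1, s.2 i) = e then (1 : ℝ) else 0) / d]
      have b0 : (τ e : ℝ) / (N * d) =
          ∑ o ∈ Om.filter (fun o => cnt (labo o) = τ), P o * ((τ e : ℝ) / (N * d)) := by
        rw [← Finset.sum_mul, b5, one_mul]
      rw [b0]
      refine Finset.sum_congr rfl fun o ho => ?_
      congr 1
      rw [← (Finset.mem_filter.1 ho).2, ← Finset.sum_div, div_div, mul_comm (d : ℝ)]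
      congr 1
      rw [cnt, Finset.card_filter, Fintype.sum_prod_type]
      push_cast
      rfl
    have hsym : ∀ e, nuL T μ (Prod.swap e) = nuL T μ e := by
      intro e
      obtain ⟨M, hM, φ, -, rfl⟩ := hOm o0 ho0
      rw [hnu, hnu, ← hτ0, cnt_flip M Prod.swap Prod.swap_swap _ (labo_star M (hB M hM) φ)]
    have hcon : ∀ k, ∑ s ∈ T, μ s * g k s ≤ c k := by
      intro k
      have b0 : c k = ∑ o ∈ Om.filter (fun o => cnt (labo o) = τ), P o * c k := by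
        rw [← Finset.sum_mul, b5, one_mul]
      rw [b7, b0]
      refine Finset.sum_le_sum fun o ho => mul_le_mul_of_nonneg_left ?_ (b4 o ho).le
      obtain ⟨M, hM, φ, hφ, rfl⟩ := hOm o (Finset.mem_filter.1 ho).1
      exact hg M hM φ hφ k
    have b9 := hΨ T μ b1 b2 b3 hsym hcon
    have b10 : ∑ s ∈ T, μ s * (-Real.log (μ s) - wt τ s) ≤ Ψ := by
      refine le_trans (le_of_eq (Finset.sum_congr rfl fun s _ => ?_)) b9
      simp only [wt, hnu]
      ring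
    rw [← Real.exp_log (Finset.sum_pos (fun _ _ => Real.exp_pos _) hne), Real.exp_le_exp]
    exact b8.trans (mul_le_mul_of_nonneg_left b10 hN'.le)
  have s4 : (Om.image fun o => cnt (labo o)).card ≤ ((2 * R + 1) ^ 2 * (N * d + 1) + 1) ^ m := by
    have hU : (Icc (-(R : ℤ)) R ×ˢ Icc (-(R : ℤ)) R).card = (2 * R + 1) ^ 2 := by
      have h2 : ((R : ℤ) + 1 - -(R : ℤ)).toNat = 2 * R + 1 := by omega
      rw [Finset.card_product, Int.card_Icc, h2, sq]
    rw [← hU]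
    refine card_types _ m (N * d) _ fun τ hτ => ?_
    obtain ⟨o, ho, rfl⟩ := Finset.mem_image.1 hτ
    have hsupp : ∀ e, cnt (labo o) e ≠ 0 → e ∈ univ.image (labo o) := fun e he => by
      obtain ⟨h, hh⟩ := Finset.card_pos.1 (Nat.pos_of_ne_zero he)
      exact Finset.mem_image.2 ⟨h, Finset.mem_univ _, (Finset.mem_filter.1 hh).2⟩
    refine ⟨fun e => by simpa using cnt_le (labo o) e, fun e he => ?_,
      (Finset.card_le_card fun e he => hsupp e (Finset.mem_filter.1 he).2).trans (himg o ho)⟩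
    obtain ⟨h, -, rfl⟩ := Finset.mem_image.1 (hsupp e he)
    obtain ⟨M, hM, φ, hφ, rfl⟩ := hOm o ho
    exact Finset.mem_product.2 ⟨mem_box φ R (hR M hM φ hφ) _, mem_box φ R (hR M hM φ hφ) _⟩
  have s5 : ∑ o ∈ Om, Real.exp (-∑ x, wt (cnt (labo o)) (o x)) ≤
      (((2 * R + 1) ^ 2 * (N * d + 1) + 1 : ℕ) : ℝ) ^ m * Real.exp (N * Ψ) := by
    rw [← Finset.sum_fiberwise_of_maps_to (g := fun o => cnt (labo o))
      (t := Om.image fun o => cnt (labo o)) (fun o ho => Finset.mem_image_of_mem _ ho)]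
    refine (Finset.sum_le_card_nsmul _ _ _ s3).trans ?_
    rw [nsmul_eq_mul]
    have : ((Om.image fun o => cnt (labo o)).card : ℝ) ≤
        (((2 * R + 1) ^ 2 * (N * d + 1) + 1 : ℕ) : ℝ) ^ m := by exact_mod_cast s4
    gcongr
  calc B.card * Z ≤ _ := s1
    _ ≤ _ := Finset.sum_le_sum s2
    _ ≤ PMc * (Real.exp 1 * (N * d)) ^ m *
        ((((2 * R + 1) ^ 2 * (N * d + 1) + 1 : ℕ) : ℝ) ^ m * Real.exp (N * Ψ)) := by
        rw [← Finset.mul_sum]; gcongr
    _ = _ := by ring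

end Pool.Agent.P.MP_6b977f_mp.RG.C22
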