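import Pool.Agent.P.MP_6b977f_mp.RG.IfaceB
import Pool.Agent.P.MP_6b977f_mp.RG.LibFm

/-! Step FM. -/

namespace Pool.Agent.P.MP_6b977f_mp.RG

open Finset MeasureTheory Real
open scoped Classical

namespace FMx

/-- a centre value and neighbour values as a star -/
def cv {d : ℕ} (s : ℤ × (Fin d → ℤ)) : St d := fun o => o.elim s.1 s.2

theorem cv_inj {d : ℕ} : Function.Injective (cv (d := d)) := fun _ _ h =>
  Prod.ext (congrFun h none) (funext fun i => congrFun h (some i))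

theorem cv_star {d N : ℕ} (M : Cfg d N) (φ : Fin N → ℤ) (x : Fin N) :
    cv (C22.starL M φ x) = star M φ x := rfl

theorem size (d N R' : ℕ) (R : ℝ) (hd : 1 ≤ d) (hN : 1 ≤ N) (hR : 1 ≤ R) (h : (R' : ℝ) ≤ R + 1) :
    (exp 1 * (N * d)) ^ ((2 * d + 10) * (R' + 1)) *
        (((2 * R' + 1) ^ 2 * (N * d + 1) + 1 : ℕ) : ℝ) ^ ((2 * d + 10) * (R' + 1)) ≤
      exp (3 * (2 * d + 10) * (108 * d + 3) * R * log (2 * N * R)) := by
  have hd' : (1 : ℝ) ≤ d := by exact_mod_cast hd
  have hN' : (1 : ℝ) ≤ N := by exact_mod_cast hN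
  have hNR : 1 ≤ N * R := one_le_mul_of_one_le_of_one_le hN' hR
  set Y := 2 * N * R with hY
  have hY2 : 2 ≤ Y := by rw [hY]; linarith
  have hl : 1 / 2 ≤ log Y := le_trans (by have := log_two_gt_d9; linarith)
    (log_le_log (by norm_num) hY2)
  have hYe : exp (log Y) = Y := exp_log (by linarith)
  have a1 : exp 1 * (N * d) ≤ exp ((6 * d + 1) * log Y) := by
    have b1 : exp 1 ≤ 3 := by have := exp_one_lt_d9; linarith
    have b2 : 3 * (d : ℝ) ≤ exp (6 * d * log Y) := by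
      have := add_one_le_exp (6 * d * log Y); nlinarith
    have b3 : (N : ℝ) ≤ Y := by rw [hY]; nlinarith
    calc exp 1 * (N * d) ≤ 3 * (Y * d) := by gcongr
      _ = 3 * d * Y := by ring
      _ ≤ exp (6 * d * log Y) * Y := by gcongr
      _ = _ := by rw [add_mul, exp_add, one_mul, hYe]
  have a2 : (((2 * R' + 1) ^ 2 * (N * d + 1) + 1 : ℕ) : ℝ) ≤ exp ((102 * d + 2) * log Y) := by
    have b1 : (2 * (R' : ℝ) + 1) ^ 2 ≤ (5 * R) ^ 2 := by gcongr; linarith
    have b0 : 1 ≤ (N : ℝ) * d := one_le_mul_of_one_le_of_one_le hN' hd'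
    have b2 : (N : ℝ) * d + 1 ≤ 2 * (N * d) := by linarith
    have b3 : 51 * (d : ℝ) ≤ exp (102 * d * log Y) := by
      have := add_one_le_exp (102 * d * log Y); nlinarith
    have b4 : R ^ 2 * N ≤ Y ^ 2 := by
      rw [hY]; nlinarith [mul_le_mul_of_nonneg_left hN' (by positivity : 0 ≤ R ^ 2 * N)]
    have b5 : 1 ≤ R ^ 2 * (N * d) := one_le_mul_of_one_le_of_one_le (one_le_pow₀ hR) b0
    push_cast
    calc (2 * (R' : ℝ) + 1) ^ 2 * (N * d + 1) + 1 ≤ (5 * R) ^ 2 * (2 * (N * d)) + R ^ 2 * (N * d) := by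
          gcongr
      _ = 51 * d * (R ^ 2 * N) := by ring
      _ ≤ exp (102 * d * log Y) * Y ^ 2 := by gcongr
      _ = _ := by rw [add_mul, exp_add, two_mul (log Y), exp_add, hYe, sq]
  calc _ ≤ exp ((6 * d + 1) * log Y) ^ ((2 * d + 10) * (R' + 1)) *
        exp ((102 * d + 2) * log Y) ^ ((2 * d + 10) * (R' + 1)) := by gcongr
    _ = exp ((((2 * d + 10) * (R' + 1) : ℕ) : ℝ) * ((108 * d + 3) * log Y)) := by
        rw [← mul_pow, ← exp_add, ← exp_nat_mul]; congr 2; ring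
    _ ≤ _ := by
        rw [exp_le_exp]
        push_cast
        have b1 : (R' : ℝ) + 1 ≤ 3 * R := by linarith
        have b2 : 0 ≤ (108 * (d : ℝ) + 3) * log Y := by positivity
        calc (2 * (d : ℝ) + 10) * (R' + 1) * ((108 * d + 3) * log Y)
            ≤ (2 * d + 10) * (3 * R) * ((108 * d + 3) * log Y) := by gcongr
          _ = _ := by ring

end FMx

theorem p_FM :
    S_FM := by
  intro d hd
  refine ⟨3 * (2 * d + 10) * (108 * d + 3), by positivity, ?_⟩
  intro N lam β R Z Ψ K g c B F hB hN hR hF hΨ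
  have hN' : (0 : ℝ) < N := by exact_mod_cast hN
  have hR1 : R ≤ (⌈R⌉₊ : ℝ) := Nat.le_ceil R
  have hR2 : (⌈R⌉₊ : ℝ) ≤ R + 1 := (Nat.ceil_lt_add_one (by linarith)).le
  have h := C22.fm_main hN hd (fun k s => g k (FMx.cv s)) c
    (fun s => β * Wd lam (re 1 (FMx.cv s)) ^ 2) B (fun M hM => mem_Cf.1 (hB hM)) F ⌈R⌉₊ Z Ψ
    (fun M hM φ hφ => by
      have a1 : ∑ x, (φ x : ℝ) ^ 2 ≤ (⌈R⌉₊ : ℝ) ^ 2 :=
        ((hF M hM).1 φ hφ).1.trans (by gcongr)
      exact_mod_cast a1)
    (fun M hM φ hφ k => by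
      rw [div_le_iff₀ hN', mul_comm]
      exact ((hF M hM).1 φ hφ).2 k)
    (fun M hM => by
      simp only [FMx.cv_star, ← mul_sum]
      exact (hF M hM).2)
    (fun T μ b1 _ b3 b4 b5 => by
      let ν : Law d := ⟨T.image FMx.cv, fun s => μ (s none, fun i => s (some i)),
        fun s hs => by
          obtain ⟨t, ht, rfl⟩ := mem_image.1 hs
          exact b1 t ht,
        by rw [sum_image fun _ _ _ _ h => FMx.cv_inj h]; exact b3⟩
      have hE : ∀ f : St d → ℝ, ν.E f = ∑ s ∈ T, μ s * f (FMx.cv s) := fun f => by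
        unfold Law.E
        exact sum_image fun _ _ _ _ h => FMx.cv_inj h
      have hnu : ∀ a b, ν.nu a b = C22.nuL T μ (a, b) := fun a b => by
        unfold Law.nu C22.nuL
        rw [hE]
        refine sum_congr rfl fun s _ => ?_
        congr 2
        refine sum_congr rfl fun i _ => ?_
        simp only [ind, FMx.cv, Option.elim, Prod.mk.injEq]
        congr
      have h1 := hΨ ν (fun a b => by rw [hnu, hnu]; exact b4 (b, a)) fun k => by
        rw [hE]; exact b5 k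
      refine le_trans (le_of_eq ?_) h1
      unfold Law.Phi
      rw [hE, hE, mul_sum, ← sum_sub_distrib]
      refine sum_congr rfl fun s _ => ?_
      simp only [hnu]
      show μ s * _ = μ s * (-log (μ s) + (∑ i, log (C22.nuL T μ (s.1, s.2 i))) / 2) - _
      ring)
  have hc : (univ.filter fun M : Equiv.Perm (Fin N × Fin d) => C22.IsPM M) = Cf d N := by
    ext M
    simp only [mem_filter, mem_univ, true_and, mem_Cf]
    rfl
  rw [hc] at h
  refine h.trans ?_
  rw [exp_add]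
  gcongr
  exact FMx.size d N _ R hd hN hR hR2

end Pool.Agent.P.MP_6b977f_mp.RG
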