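import Pool.Agent.P.MP_6b977f_mp.RG.IfaceA

/-! Step FR. -/

namespace Pool.Agent.P.MP_6b977f_mp.RG

open Finset MeasureTheory Real
open scoped Classical

namespace FRx

theorem basis (n : ℕ) : ∃ b : Fin n → Fin (n + 1) → ℝ, (∀ k, ∑ i, b k i = 0) ∧
    (∀ k l, ∑ i, b k i * b l i = if k = l then 1 else 0) ∧
    ∀ i j, ∑ k, b k i * b k j = (if i = j then 1 else 0) - 1 / (n + 1 : ℝ) := by
  let u : EuclideanSpace ℝ (Fin (n + 1)) := WithLp.toLp 2 fun _ => 1
  have hu : u ≠ 0 := fun e => one_ne_zero (congrArg (fun x => x.ofLp 0) e)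
  have : Fact (Module.finrank ℝ (EuclideanSpace ℝ (Fin (n + 1))) = n + 1) := ⟨by simp⟩
  let b := OrthonormalBasis.fromOrthogonalSpanSingleton (𝕜 := ℝ) n hu
  have hm : ∀ x : EuclideanSpace ℝ (Fin (n + 1)), x ∈ (ℝ ∙ u)ᗮ ↔ ∑ i, x i = 0 := fun x => by
    rw [Submodule.mem_orthogonal_singleton_iff_inner_right]
    simp [u, PiLp.inner_apply]
  have h1 : ∀ k, ∑ i, (b k).1 i = 0 := fun k => (hm _).1 (b k).2
  have hn : (n + 1 : ℝ) ≠ 0 := by positivity
  let p : Fin (n + 1) → (ℝ ∙ u)ᗮ := fun i =>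
    ⟨WithLp.toLp 2 fun j => (if i = j then 1 else 0) - 1 / (n + 1 : ℝ), (hm _).2 (by
      simp [sum_sub_distrib, hn])⟩
  have hp : ∀ i (x : (ℝ ∙ u)ᗮ), inner ℝ (p i) x = x.1 i := fun i x => by
    simp [p, PiLp.inner_apply, mul_sub, sum_sub_distrib, ← sum_mul, (hm _).1 x.2]
  refine ⟨fun k i => (b k).1 i, h1, fun k l => ?_, fun i j => ?_⟩
  · have := orthonormal_iff_ite.1 b.orthonormal k l
    simpa [PiLp.inner_apply, mul_comm] using this
  · have := b.sum_inner_mul_inner (p i) (p j)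
    simp only [real_inner_comm (p j), hp] at this
    rw [this]

end FRx

theorem p_FR :
    S_FR := by
  intro d lam hd hl
  obtain ⟨n, rfl⟩ : ∃ n, d = n + 1 := ⟨d - 1, by omega⟩
  obtain ⟨b, h1, h2, h3⟩ := FRx.basis n
  have hn : (0 : ℝ) < n := by exact_mod_cast (by omega : 0 < n)
  have hs : √((n + 1) / n) * √((n + 1) / n) = (n + 1 : ℝ) / n := mul_self_sqrt (by positivity)
  refine ⟨⟨hd, lam, hl, fun i k => √((n + 1) / n) * b k i, fun i j => ?_, fun k => ?_,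
    fun k l => ?_⟩, rfl⟩
  · simp only [mul_mul_mul_comm _ (b _ i), hs, ← mul_sum]
    refine (congrArg _ (h3 i j)).trans ?_
    split_ifs
    · field_simp; ring
    · rw [Nat.cast_succ, add_sub_cancel_right]; field_simp; ring
  · rw [← mul_sum, h1, mul_zero]
  · simp only [mul_mul_mul_comm _ (b k _), hs, ← mul_sum]
    refine (congrArg _ (h2 k l)).trans ?_
    split_ifs <;> simp_all

end Pool.Agent.P.MP_6b977f_mp.RG
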