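import Pool.Agent.P.MP_6b977f_mp.RG.IfaceA

/-! Step JAC. -/

namespace Pool.Agent.P.MP_6b977f_mp.RG

open Finset MeasureTheory Real
open scoped Classical

namespace JACx
open Matrix
variable {d : ℕ} (P : Par d)

/-- the matrix of the map to values -/
noncomputable def T : Matrix (Option (Fin d)) (SI d) ℝ := Matrix.of fun o j =>
  j.elim 1 fun j => j.elim (o.elim 1 fun _ => P.rho) fun k => o.elim 0 fun i => P.r * P.e i k

theorem T_mul (y : SI d → ℝ) : T P *ᵥ y = P.val y := by
  funext o
  cases o <;> simp [T, mulVec, dotProduct, Fintype.sum_option, Par.val, Par.ci, vp, mul_sum,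
    mul_assoc, add_comm]

theorem Dl_pos : 0 < P.Dl := by
  have h3 := P.d3
  have h1 := (abs_le.1 P.abs_rho).2
  have h2 := P.r_pos
  have : (0 : ℝ) < d / (d - 1) := div_pos (by linarith) (by linarith)
  exact mul_pos (mul_pos (sqrt_pos.2 (by linarith)) (by linarith)) (by positivity)

theorem gram : ((T P)ᵀ * T P).det = P.Dl ^ 2 := by
  have h3 := P.d3
  have h0 : (0 : ℝ) ≤ d / (d - 1) := div_nonneg (by linarith) (by linarith)
  let N : Matrix (SI d) (SI d) ℝ := transvection none (some none) ((1 + d * P.rho) / (1 + d))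
  let D : SI d → ℝ := fun j => j.elim (1 + d) fun j => j.elim (d * (1 - P.rho) ^ 2 / (1 + d))
    fun _ => P.r ^ 2 * (d / (d - 1))
  have e : (T P)ᵀ * T P = Nᵀ * (diagonal D * N) := by
    have e3 : ∀ k l, ∑ i, P.r * P.e i k * (P.r * P.e i l) =
        if l = k then P.r ^ 2 * (d / (d - 1)) else 0 := fun k l => by
      rw [← mul_zero (P.r ^ 2), ← mul_ite, ← P.e3, mul_sum]
      exact sum_congr rfl fun i _ => by ring
    ext j k
    simp only [mul_apply (M := Nᵀ), mul_apply (M := (T P)ᵀ), diagonal_mul, transpose_apply]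
    rcases j with _ | _ | j <;> rcases k with _ | _ | k <;>
      simp [T, N, D, transvection, Fintype.sum_option, one_apply, e3, ← mul_sum, ← sum_mul,
        P.e2] <;> field_simp <;> ring
  rw [e, det_mul, det_mul, det_transpose, det_transvection_of_ne _ _ (by simp), det_diagonal,
    Par.Dl, mul_pow, mul_pow, sq_sqrt (by linarith), ← pow_mul, mul_comm (d - 1), pow_mul, mul_pow,
    sq_sqrt h0]
  simp [D, Fintype.prod_option]
  field_simp

/-- the map to values as a measurable equivalence -/
noncomputable def Φ : (SI d → ℝ) ≃ᵐ (Option (Fin d) → ℝ) where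
  toFun := P.val
  invFun := P.wh
  left_inv := P.wh_val
  right_inv := P.val_wh
  measurable_toFun := by
    refine measurable_pi_lambda _ fun o => ?_
    cases o <;> simp only [Equiv.coe_fn_mk, Par.val, Par.ci, vp, Option.elim] <;> fun_prop
  measurable_invFun := by
    refine measurable_pi_lambda _ fun j => ?_
    rcases j with _ | _ | k <;>
      simp only [Equiv.coe_fn_symm_mk, Par.wh, Wd, Option.elim] <;> fun_prop

theorem map_eq : Measure.map (Φ P) volume = ENNReal.ofReal P.Dl⁻¹ • volume := by
  have hd := P.hd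
  let e : SI d ≃ Option (Fin d) := Fintype.equivOfCardEq (by simp; omega)
  let M := (T P).submatrix e id
  have h1 : |M.det| = P.Dl := by
    rw [← abs_of_pos (Dl_pos P), ← sq_eq_sq_iff_abs_eq_abs, ← gram, sq]
    nth_rewrite 1 [← det_transpose]
    rw [← det_mul, transpose_submatrix, submatrix_mul_equiv, submatrix_id_id]
  have h2 : M.det ≠ 0 := abs_pos.1 (h1 ▸ Dl_pos P)
  have h3 := volume_measurePreserving_piCongrLeft (fun _ => ℝ) e
  have h4 : ⇑(Φ P) = MeasurableEquiv.piCongrLeft (fun _ => ℝ) e ∘ toLin' M := by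
    funext y o
    obtain ⟨j, rfl⟩ := e.surjective o
    rw [Function.comp_apply, MeasurableEquiv.piCongrLeft_apply_apply]
    exact (congrFun (T_mul P y) (e j)).symm
  rw [h4, ← Measure.map_map h3.measurable (toLin' M).continuous_of_finiteDimensional.measurable,
    map_matrix_volume_pi_eq_smul_volume_pi h2, Measure.map_smul, h3.map_eq, abs_inv, h1]

end JACx

theorem p_JAC :
    S_JAC := by
  intro d P g hg
  have h0 := JACx.Dl_pos P
  have e : ∀ y, g (P.wh (JACx.Φ P y)) = g y := fun y => congrArg g (P.wh_val y)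
  have h1 := (integrable_map_equiv (μ := volume) (JACx.Φ P) fun z => g (P.wh z)).2
    (hg.congr (Filter.Eventually.of_forall fun y => (e y).symm))
  have h2 := integral_map_equiv (μ := volume) (JACx.Φ P) fun z => g (P.wh z)
  rw [JACx.map_eq] at h1 h2
  refine ⟨(integrable_smul_measure (by simpa using h0) ENNReal.ofReal_ne_top).1 h1, ?_⟩
  simp only [e, integral_smul_measure, ENNReal.toReal_ofReal (inv_pos.2 h0).le, smul_eq_mul] at h2
  rw [← h2, mul_inv_cancel_left₀ h0.ne']

end Pool.Agent.P.MP_6b977f_mp.RG
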