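import Pool.Agent.P.MP_6b977f_mp.RG.IfaceB

/-! Step KEY. -/

namespace Pool.Agent.P.MP_6b977f_mp.RG

open Finset MeasureTheory Real
open scoped Classical

namespace KEYx

theorem Wd_re {d : ℕ} (lam δ : ℝ) (s : St d) : Wd lam (re δ s) = δ * Wd lam (re 1 s) := by
  simp only [Wd, re, one_mul, mul_sub, mul_sum]
  ring

theorem split (z x y : ℝ) (hz : 0 < z) : (|x| + y) ^ 2 ≤ (1 + z) * x ^ 2 + (1 + z) / z * y ^ 2 := by
  rw [← sq_abs x]
  have h : (1 + z) * |x| ^ 2 + (1 + z) / z * y ^ 2 - (|x| + y) ^ 2 = (z * |x| - y) ^ 2 / z := by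
    field_simp; ring
  have : 0 ≤ (z * |x| - y) ^ 2 / z := by positivity
  linarith

end KEYx

theorem p_KEY (hFM : S_FM) (hVOL : S_VOL) :
    S_KEY := by
  intro d hd
  obtain ⟨C, hC, hFM⟩ := hFM d hd
  refine ⟨C + 2 + 15 * d ^ 2, by positivity, ?_⟩
  intro N lam δ η ζ z R Sb γ0 K g c B hB hN hlam hη hδ h1 hz hz2 hR hM hgap
  have hN' : (1 : ℝ) ≤ N := by exact_mod_cast hN
  set q : ℝ := δ ^ 2 / (z * η ^ 2) with hq
  have hq0 : 0 ≤ q := by positivity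
  set β : ℝ := (1 - z) * δ ^ 2 / (2 * η ^ 2) with hβ
  set a : ℝ := N * (log (2 * π * η ^ 2) / 2 - log δ - Sb - 10 * d ^ 2 * q) with ha
  have hF : ∀ M : Cfg d N, ∃ F : Finset (Fin N → ℤ), M ∈ B →
      (∀ φ ∈ F, ∑ x, (φ x : ℝ) ^ 2 ≤ R ^ 2 ∧ ∀ k, ∑ x, g k (star M φ x) ≤ N * c k) ∧
        exp a / 3 ≤ ∑ φ ∈ F, exp (-(β * ∑ x, Wd lam (re 1 (star M φ x)) ^ 2)) := by
    intro M
    by_cases hMB : M ∈ B
    · obtain ⟨γ, ψ, b1, b2, b3, b4⟩ := hM M hMB
      obtain ⟨F, f1, f2⟩ := hVOL d N M ψ lam δ η γ ζ z (hB hMB) hd hN hlam hη hδ h1 b1 hz hz2 b3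
      refine ⟨F, fun _ => ⟨fun φ hφ => b4 φ (f1 φ hφ), le_trans ?_ f2⟩⟩
      rw [ha, hq, mul_div_assoc]
      gcongr
    · exact ⟨∅, fun h => absurd h hMB⟩
  choose F hF using hF
  have hz1 : 0 < 1 - z := by linarith
  have h := hFM N lam β R (exp a / 3)
    (log (2 * π * η ^ 2) / 2 + 2 * z + 5 * d ^ 2 * q - ell d lam - log δ - γ0) K g c B F hB hN hR hF
    (fun μ hs hc => by
      have hr : 0 < (1 + z) / (1 - z) := by positivity
      have b := hgap μ (η * √((1 + z) / (1 - z))) hs (by positivity) hc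
      unfold Law.gap at b
      rw [mul_pow η, sq_sqrt hr.le] at b
      have b1 : log (2 * π * (η ^ 2 * ((1 + z) / (1 - z)))) ≤ log (2 * π * η ^ 2) + 4 * z := by
        rw [← mul_assoc, log_mul (by positivity) hr.ne']
        have c1 := log_le_sub_one_of_pos hr
        have c2 : (1 + z) / (1 - z) ≤ 1 + 4 * z := by
          rw [div_le_iff₀ hz1]; nlinarith
        linarith
      have b2 : μ.E (fun s => (|Wd lam (re δ s)| + 3 * d * δ) ^ 2) ≤
          (1 + z) * δ ^ 2 * μ.E (fun s => Wd lam (re 1 s) ^ 2) + (1 + z) / z * (3 * d * δ) ^ 2 := by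
        rw [← μ.E_mul, ← μ.E_const ((1 + z) / z * (3 * d * δ) ^ 2), ← μ.E_add]
        refine μ.E_mono fun s => (KEYx.split z _ _ hz).trans (le_of_eq ?_)
        rw [KEYx.Wd_re]; ring
      have b3 : μ.E (fun s => (|Wd lam (re δ s)| + 3 * d * δ) ^ 2) /
          (2 * (η ^ 2 * ((1 + z) / (1 - z)))) ≤
          β * μ.E (fun s => Wd lam (re 1 s) ^ 2) + 5 * d ^ 2 * q := by
        refine (div_le_div_of_nonneg_right b2 (by positivity)).trans ?_
        have c1 : ((1 + z) * δ ^ 2 * μ.E (fun s => Wd lam (re 1 s) ^ 2) +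
            (1 + z) / z * (3 * d * δ) ^ 2) / (2 * (η ^ 2 * ((1 + z) / (1 - z)))) =
            β * μ.E (fun s => Wd lam (re 1 s) ^ 2) + 9 / 2 * (1 - z) * (d ^ 2 * q) := by
          rw [hβ, hq]; field_simp; ring
        rw [c1]
        have c2 : 0 ≤ (d : ℝ) ^ 2 * q := by positivity
        nlinarith
      linarith)
  rw [← mul_div_assoc, div_le_iff₀ (by norm_num), ← le_div_iff₀ (exp_pos a)] at h
  refine h.trans ?_
  rw [mul_assoc, mul_div_assoc]
  refine mul_le_mul_of_nonneg_left ?_ (Nat.cast_nonneg _)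
  have e3 : (3 : ℝ) ≤ exp 2 := by have := add_one_le_exp (2 : ℝ); linarith
  have hL : 0 ≤ R * log (2 * N * R) :=
    mul_nonneg (by linarith) (log_nonneg (by nlinarith))
  rw [div_le_iff₀ (exp_pos a)]
  refine le_trans (mul_le_mul_of_nonneg_left e3 (exp_pos _).le) ?_
  rw [← exp_add, ← exp_add, exp_le_exp, ha, mul_div_assoc, ← hq]
  have c1 : 0 ≤ (N : ℝ) * ((C + 15 * d ^ 2) * z + (C + 2) * q) := by positivity
  have c2 : 0 ≤ (2 + 15 * (d : ℝ) ^ 2) * (R * log (2 * N * R)) := by positivity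
  nlinarith

end Pool.Agent.P.MP_6b977f_mp.RG
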