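import Pool.Agent.P.MP_6b977f_mp.RG.IfaceA

/-! Step LAT1. -/

namespace Pool.Agent.P.MP_6b977f_mp.RG

open Finset MeasureTheory Real
open scoped Classical

namespace LAT1x

theorem Dl_pos {d : ℕ} (P : Par d) : 0 < P.Dl := by
  have h3 := P.d3
  have h1 := (abs_le.1 P.abs_rho).2
  have h2 := P.r_pos
  have h4 : (0 : ℝ) < d / (d - 1) := div_pos (by linarith) (by linarith)
  have h5 : 0 < 1 - P.rho := by linarith
  have h6 : (0 : ℝ) < d := by linarith
  unfold Par.Dl
  positivity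

/-- the point of the finer lattice -/
def pt {d : ℕ} (μ : Law d) (K : ℕ) (ω : μ.A × (Option (Fin d) → Fin (K + 1))) : St d :=
  fun o => (K + 1 : ℕ) * ω.1.1 o + (ω.2 o : ℕ)

theorem pt_inj {d : ℕ} (μ : Law d) (K : ℕ) : Function.Injective (pt μ K) := by
  rintro ⟨s, u⟩ ⟨s', u'⟩ h
  have key : ∀ o, s.1 o = s'.1 o ∧ u o = u' o := fun o => by
    have e := congrFun h o
    simp only [pt] at e
    have a := (u o).2
    have b := (u' o).2
    have hs : s.1 o = s'.1 o := by
      have a' : ((u o : ℕ) : ℤ) < (K + 1 : ℕ) := by exact_mod_cast a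
      have b' : ((u' o : ℕ) : ℤ) < (K + 1 : ℕ) := by exact_mod_cast b
      have a0 : (0 : ℤ) ≤ (u o : ℕ) := Int.natCast_nonneg _
      have b0 : (0 : ℤ) ≤ (u' o : ℕ) := Int.natCast_nonneg _
      have K0 : (0 : ℤ) < (K + 1 : ℕ) := by exact_mod_cast Nat.succ_pos K
      rcases lt_trichotomy (s.1 o) (s'.1 o) with l | l | l
      · nlinarith
      · exact l
      · nlinarith
    refine ⟨hs, Fin.ext ?_⟩
    rw [hs] at e
    exact_mod_cast add_left_cancel e
  exact Prod.ext (Subtype.ext (funext fun o => (key o).1)) (funext fun o => (key o).2)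

end LAT1x

theorem p_LAT1 (hLS : S_LS) (hRIE : S_RIE) :
    S_LAT1 := by
  intro d P μ δ κ ε hδ hκ hε
  obtain ⟨h0, h0p, hR⟩ := hRIE d P κ ε hκ hε
  obtain ⟨K, hK⟩ := exists_nat_ge (δ / h0)
  refine ⟨K, ?_⟩
  have K0 : (0 : ℝ) < K + 1 := by positivity
  have hD := LAT1x.Dl_pos P
  have hh : δ / (K + 1) ≤ h0 := by
    rw [div_le_iff₀ K0]
    rw [div_le_iff₀ h0p] at hK
    nlinarith
  have hv : vs d κ 0 = fun _ => κ ^ 2 := by
    funext j
    cases j <;> simp [vs]
  have hB : 0 < (1 + ε) * P.Dl / δ ^ (d + 1) := by positivity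
  have key := hLS (SI d) (P.mix μ δ K) (fun _ => κ ^ 2) μ.A Prod.fst (fun z => μ.p z.1)
    ((1 + ε) * P.Dl / δ ^ (d + 1)) (fun _ => by positivity) (fun z => μ.pos _ z.2) ?_ hB ?_
  · rw [hv]
    refine le_trans ?_ key
    have e1 : μ.E (fun s => -log (μ.p s)) = -∑ z : μ.A, μ.p z.1 * log (μ.p z.1) := by
      rw [Law.E, Finset.sum_coe_sort μ.A fun s => μ.p s * log (μ.p s), ← sum_neg_distrib]
      exact sum_congr rfl fun s _ => by ring
    rw [e1, log_div (by positivity) (by positivity), log_mul (by positivity) hD.ne', log_pow]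
    have := log_le_sub_one_of_pos (by positivity : 0 < 1 + ε)
    push_cast
    linarith
  · intro z
    rw [sum_filter]
    change ∑ ω : μ.A × (Option (Fin d) → Fin (K + 1)),
      @ite ℝ (ω.1 = z) (Classical.propDecidable _) (μ.p ω.1 / (K + 1 : ℝ) ^ (d + 1)) 0 = _
    rw [Fintype.sum_prod_type, sum_eq_single z]
    · simp only [if_true, sum_const, card_univ, Fintype.card_fun, Fintype.card_fin,
        Fintype.card_option, nsmul_eq_mul]
      push_cast
      field_simp
    · intro b _ hb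
      simp [hb]
    · simp
  · intro y
    have h1 := hR (δ / (K + 1)) (by positivity) hh (univ.image (LAT1x.pt μ K)) y
    rw [sum_image fun a _ b _ h => LAT1x.pt_inj μ K h] at h1
    change ∑ ω : μ.A × (Option (Fin d) → Fin (K + 1)),
      μ.p ω.1 / (K + 1 : ℝ) ^ (d + 1) / μ.p ω.1 * ker (fun _ => κ ^ 2)
        (y - P.wh fun o => δ * (ω.1.1 o + (ω.2 o : ℕ) / (K + 1 : ℝ))) ≤ _
    have e : ∀ ω : μ.A × (Option (Fin d) → Fin (K + 1)),
        μ.p ω.1 / (K + 1 : ℝ) ^ (d + 1) / μ.p ω.1 * ker (fun _ => κ ^ 2)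
          (y - P.wh fun o => δ * (ω.1.1 o + (ω.2 o : ℕ) / (K + 1 : ℝ))) =
        1 / (K + 1 : ℝ) ^ (d + 1) *
          ker (fun _ => κ ^ 2) (y - P.wh (re (δ / (K + 1)) (LAT1x.pt μ K ω))) := fun ω => by
      have hp := (μ.pos _ ω.1.2).ne'
      have : (fun o => δ * (ω.1.1 o + (ω.2 o : ℕ) / (K + 1 : ℝ))) =
          re (δ / (K + 1)) (LAT1x.pt μ K ω) := by
        funext o
        simp only [re, LAT1x.pt]
        push_cast
        field_simp
      rw [this]
      congr 1
      field_simp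
    rw [sum_congr rfl fun ω _ => e ω, ← mul_sum, le_div_iff₀ (by positivity)]
    refine le_trans (le_of_eq ?_) h1
    rw [div_pow]
    ring

end Pool.Agent.P.MP_6b977f_mp.RG
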