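import Pool.Agent.P.MP_6b977f_mp.RG.IfaceB
import Pool.Agent.P.MP_6b977f_mp.RG.IfaceA

/-! Step LOW. -/

namespace Pool.Agent.P.MP_6b977f_mp.RG

open Finset MeasureTheory Real
open scoped Classical

namespace LOWx

end LOWx

theorem p_LOW (hKEY : S_KEY) (hFR : S_FR) (hAN : S_AN) :
    S_LOW := by
  intro d hd
  obtain ⟨C, hC, h⟩ := hKEY d (by omega)
  refine ⟨36 * C + 3, 1, by positivity, fun N hN g lam γ hg hg1 hl hγ => ?_⟩
  have hN1 : (1 : ℝ) ≤ N := by exact_mod_cast hN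
  have ht1 : 1 ≤ (N : ℝ) ^ (1 / 10 : ℝ) := one_le_rpow hN1 (by norm_num)
  have e1 : ((N : ℝ) ^ (1 / 10 : ℝ)) ^ 10 = N := by
    rw [← rpow_mul_natCast (by linarith)]; norm_num
  rw [rpow_neg (by linarith), inv_le_iff_one_le_mul₀ (by linarith)] at hg
  generalize (N : ℝ) ^ (1 / 10 : ℝ) = t at ht1 e1 hg
  have ht0 : 0 < t := by linarith
  have hg0 : 0 < g := pos_of_mul_pos_left (one_pos.trans_le hg) ht0.le
  have hg3 : g ^ 3 ≤ (1 / 2) ^ 3 := by gcongr
  obtain ⟨P, rfl⟩ := hFR d lam hd hl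
  refine (h N P.lam (g ^ 3) (g ^ 2 / 4) 1 g (t ^ 8) (ell d P.lam - (36 * C + 3) * g) 0 Empty
    (fun k => k.elim) (fun k => k.elim) _ (filter_subset _ _) hN P.abs_lam (by positivity)
    (by positivity) (by linarith) hg0 hg1 (one_le_pow₀ ht1)
    (fun M hM => ⟨γ, 0, by linarith, (mem_filter.1 hM).2, ?_, fun φ hφ => ⟨?_, fun k => k.elim⟩⟩)
    (fun μ η hμ hη _ => (hAN d P μ _ η 1 hμ (by positivity) hη one_pos).1)).trans ?_
  · simp only [adj, Pi.zero_apply, sum_const_zero, mul_zero, sub_zero, ne_eq, OfNat.ofNat_ne_zero,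
      not_false_eq_true, zero_pow]
    positivity
  · simp only [Pi.zero_apply, sub_zero, mul_pow, ← mul_sum, one_pow, one_mul, ← e1] at hφ
    have k1 : 1 ≤ (g * t) ^ 6 := one_le_pow₀ hg
    have k2 : 0 ≤ ∑ x, (φ x : ℝ) ^ 2 := sum_nonneg fun _ _ => sq_nonneg _
    nlinarith [mul_le_mul_of_nonneg_left k1 k2, mul_le_mul_of_nonneg_left hφ (pow_pos ht0 6).le]
  · rw [mul_comm]
    refine mul_le_mul_of_nonneg_right (exp_le_exp.2 ?_) (Nat.cast_nonneg _)
    have k1 : log (2 * N * t ^ 8) ≤ 19 * t := by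
      rw [← e1, mul_assoc, ← pow_add, log_mul two_ne_zero (by positivity), log_pow]
      push_cast
      linarith [log_le_sub_one_of_pos ht0, log_le_sub_one_of_pos two_pos]
    have k2 : C * (g ^ 3) ^ 2 / (g * (g ^ 2 / 4) ^ 2) = 16 * C * g := by field_simp; ring
    have k3 := mul_le_mul_of_nonneg_left k1 (show 0 ≤ C * t ^ 8 by positivity)
    have k4 : t ^ 9 ≤ g * N := by
      rw [← e1]; nlinarith [mul_le_mul_of_nonneg_left hg (pow_pos ht0 9).le]
    have k5 : 1 ≤ t ^ 9 := one_le_pow₀ ht1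
    rw [k2]
    nlinarith [mul_le_mul_of_nonneg_left k4 hC.le]

end Pool.Agent.P.MP_6b977f_mp.RG
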