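import Pool.Agent.P.MP_6b977f_mp.RG.IfaceA

/-! Step LSYM. -/

namespace Pool.Agent.P.MP_6b977f_mp.RG

open Finset MeasureTheory Real
open scoped Classical

namespace LSYMx

theorem expand {d : ℕ} (hd : (d : ℝ) ≠ 0) (μ : Law d) (T : Finset ℤ)
    (hT : ∀ s ∈ μ.A, ∀ o, s o ∈ T) (F : ℤ → ℤ → ℝ) :
    ∑ s ∈ μ.A, μ.p s * ∑ i, F (s none) (s (some i)) =
      ∑ a ∈ T, ∑ b ∈ T, d * μ.nu a b * F a b := by
  have h1 : ∀ s ∈ μ.A, ∀ i, F (s none) (s (some i)) =
      ∑ a ∈ T, ∑ b ∈ T, ind (s none = a ∧ s (some i) = b) * F a b := by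
    intro s hs i
    rw [sum_eq_single (s none), sum_eq_single (s (some i))]
    · rw [ind_pos ⟨rfl, rfl⟩, one_mul]
    · intro b _ hb
      rw [ind_neg (fun h => hb h.2.symm), zero_mul]
    · intro h
      exact absurd (hT s hs _) h
    · intro a _ ha
      exact sum_eq_zero fun b _ => by rw [ind_neg (fun h => ha h.1.symm), zero_mul]
    · intro h
      exact absurd (hT s hs _) h
  have h2 : ∀ a b, d * μ.nu a b * F a b =
      ∑ s ∈ μ.A, μ.p s * ∑ i, ind (s none = a ∧ s (some i) = b) * F a b := by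
    intro a b
    unfold Law.nu Law.E
    rw [mul_sum, sum_mul]
    refine sum_congr rfl fun s _ => ?_
    rw [← sum_mul]
    field_simp
  simp only [h2]
  calc ∑ s ∈ μ.A, μ.p s * ∑ i, F (s none) (s (some i))
      = ∑ s ∈ μ.A, ∑ a ∈ T, ∑ b ∈ T,
          μ.p s * ∑ i, ind (s none = a ∧ s (some i) = b) * F a b := by
        refine sum_congr rfl fun s hs => ?_
        rw [sum_congr rfl fun i _ => h1 s hs i, sum_comm, mul_sum]
        refine sum_congr rfl fun a _ => ?_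
        rw [sum_comm, mul_sum]
    _ = _ := by
        rw [sum_comm]
        refine sum_congr rfl fun a _ => ?_
        rw [sum_comm]

theorem law_sym {d : ℕ} (hd : (d : ℝ) ≠ 0) (μ : Law d) (hs : μ.Sym) (F : ℤ → ℤ → ℝ) :
    ∑ s ∈ μ.A, μ.p s * ∑ i, F (s none) (s (some i)) =
      ∑ s ∈ μ.A, μ.p s * ∑ i, F (s (some i)) (s none) := by
  have hT : ∀ s ∈ μ.A, ∀ o, s o ∈ μ.A.biUnion fun s => univ.image s := fun s h o =>
    mem_biUnion.2 ⟨s, h, mem_image_of_mem _ (mem_univ _)⟩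
  rw [expand hd μ _ hT F, expand hd μ _ hT fun a b => F b a, sum_comm]
  refine sum_congr rfl fun a _ => sum_congr rfl fun b _ => ?_
  rw [hs b a]

theorem pair_sum {ι α : Type} [Fintype ι] [DecidableEq ι] [Fintype α] (h : α → α → ℝ)
    {a b c e : ι} (hab : a ≠ b) (hce : c ≠ e) :
    ∑ u : ι → α, h (u c) (u e) = ∑ u : ι → α, h (u a) (u b) := by
  set τ : Equiv.Perm ι := Equiv.swap a c with hτ
  have h1 : τ a = c := by simp [hτ]
  have h2 : a ≠ τ.symm e := by
    intro h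
    apply hce
    rw [← h1, h]
    simp
  set σ : Equiv.Perm ι := (Equiv.swap b (τ.symm e)).trans τ with hσ
  have h3 : σ a = c := by
    rw [hσ, Equiv.trans_apply, Equiv.swap_apply_of_ne_of_ne hab h2, h1]
  have h4 : σ b = e := by
    rw [hσ, Equiv.trans_apply, Equiv.swap_apply_left]
    simp
  refine Fintype.sum_equiv (Equiv.arrowCongr σ.symm (Equiv.refl α)) _ _ fun u => ?_
  simp [Equiv.arrowCongr_apply, h3, h4]

end LSYMx

theorem p_LSYM :
    S_LSYM := by
  intro d P μ δ K hs g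
  have hd : (d : ℝ) ≠ 0 := by have := P.d3; positivity
  have hd0 : 0 < d := by have := P.hd; omega
  let G : ℤ → ℤ → ℝ := fun a b => (∑ u : Option (Fin d) → Fin (K + 1),
    g (δ * (a + (u none : ℕ) / (K + 1 : ℝ))) (δ * (b + (u (some ⟨0, hd0⟩) : ℕ) / (K + 1 : ℝ)))) /
      (K + 1) ^ (d + 1)
  have key : ∀ o1 o2 : Option (Fin d), o1 ≠ o2 →
      (P.mix μ δ K).E (fun y => g (P.val y o1) (P.val y o2)) =
        ∑ s ∈ μ.A, μ.p s * G (s o1) (s o2) := by
    intro o1 o2 ho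
    rw [← Finset.sum_coe_sort μ.A]
    show ∑ ω : μ.A × (Option (Fin d) → Fin (K + 1)), μ.p ω.1 / (K + 1) ^ (d + 1) *
      g (P.val (P.wh fun o => δ * (ω.1.1 o + (ω.2 o : ℕ) / (K + 1 : ℝ))) o1)
        (P.val (P.wh fun o => δ * (ω.1.1 o + (ω.2 o : ℕ) / (K + 1 : ℝ))) o2) = _
    simp only [P.val_wh]
    rw [Fintype.sum_prod_type]
    refine sum_congr rfl fun s _ => ?_
    have := LSYMx.pair_sum (ι := Option (Fin d)) (α := Fin (K + 1))
      (fun x y => g (δ * (s.1 o1 + (x : ℕ) / (K + 1 : ℝ))) (δ * (s.1 o2 + (y : ℕ) / (K + 1 : ℝ))))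
      (a := none) (b := some ⟨0, hd0⟩) (c := o1) (e := o2) (by simp) ho
    simp only [G]
    rw [← this, ← mul_sum]
    ring
  have e1 : ∀ i : Fin d, (P.mix μ δ K).E (fun y => g (P.val y none) (P.val y (some i))) =
      ∑ s ∈ μ.A, μ.p s * G (s none) (s (some i)) := fun i => key _ _ (by simp)
  have e2 : ∀ i : Fin d, (P.mix μ δ K).E (fun y => g (P.val y (some i)) (P.val y none)) =
      ∑ s ∈ μ.A, μ.p s * G (s (some i)) (s none) := fun i => key _ _ (by simp)
  simp only [e1, e2]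
  rw [sum_comm, sum_comm (s := (univ : Finset (Fin d)))]
  simp only [← mul_sum]
  exact LSYMx.law_sym hd μ hs G

end Pool.Agent.P.MP_6b977f_mp.RG
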