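import Pool.Agent.P.MP_6b977f_mp.RG.Api

/-! Switchings in the configuration model. -/

namespace Pool.Agent.P.MP_6b977f_mp.RG.L37

open Finset Equiv
open scoped Classical

variable {d N : ℕ} {M : Cfg d N} {h g : Fin N × Fin d}

/-- loops and parallel half-edges -/
def Bad (M : Cfg d N) (h : Fin N × Fin d) : Prop :=
  tip M h = h.1 ∨ ∃ z, z ≠ h ∧ z.1 = h.1 ∧ tip M z = tip M h

/-- the set of bad half-edges -/
noncomputable def bad (M : Cfg d N) : Finset (Fin N × Fin d) := univ.filter (Bad M)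

/-- the switching -/
def sw (M : Cfg d N) (h g : Fin N × Fin d) : Cfg d N := swap (M h) g * M * swap (M h) g

/-- the neighbours of a vertex -/
noncomputable def nbr (M : Cfg d N) (x : Fin N) : Finset (Fin N) := univ.image fun i => tip M (x, i)

theorem card_nbr (M : Cfg d N) (x : Fin N) : #(nbr M x) ≤ d := card_image_le.trans (by simp)

theorem mem_nbr (z : Fin N × Fin d) : tip M z ∈ nbr M z.1 := mem_image.2 ⟨z.2, mem_univ _, rfl⟩

theorem card_fst (A : Finset (Fin N)) :
    #(univ.filter fun g : Fin N × Fin d => g.1 ∈ A) = #A * d := by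
  rw [show (univ.filter fun g : Fin N × Fin d => g.1 ∈ A) = A ×ˢ univ by ext; simp]
  simp

theorem card_tip (M : Cfg d N) (A : Finset (Fin N)) :
    #(univ.filter fun g => tip M g ∈ A) = #A * d := by
  rw [← card_fst]
  exact card_equiv M fun g => by rw [mem_filter, mem_filter]; simp [tip]

theorem sw_mem (hM : M ∈ Cf d N) (h g : Fin N × Fin d) : sw M h g ∈ Cf d N :=
  mem_Cf.2 fun z => ⟨by simp [sw, (mem_Cf.1 hM _).1], fun e => (mem_Cf.1 hM (swap (M h) g z)).2 (by
    have := congrArg (swap (M h) g) e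
    simpa [sw] using this)⟩

theorem sw_h (hM : M ∈ Cf d N) (hg : h ≠ g) : sw M h g h = g := by
  simp [sw, swap_apply_of_ne_of_ne (mem_Cf.1 hM h).2.symm hg]

theorem sw_k (hM : M ∈ Cf d N) (hg : h ≠ g) : sw M h g (M h) = M g := by
  simp [sw, swap_apply_of_ne_of_ne (M.injective.ne hg.symm) (mem_Cf.1 hM g).2]

theorem sw_off (hM : M ∈ Cf d N) {z : Fin N × Fin d} (h1 : z ≠ h) (h2 : z ≠ M h) (h3 : z ≠ g)
    (h4 : z ≠ M g) : sw M h g z = M z := by
  have h5 : M z ≠ g := fun e => h4 (by rw [← e, (mem_Cf.1 hM z).1])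
  simp [sw, swap_apply_of_ne_of_ne h2 h3, swap_apply_of_ne_of_ne (M.injective.ne h1) h5]

/-- double counting of switchings that remove a bad half-edge -/
theorem count (S T : Finset (Cfg d N)) (B : Cfg d N → Finset (Fin N × Fin d))
    (G : Cfg d N → Fin N × Fin d → Finset (Fin N × Fin d)) (hS : S ⊆ Cf d N)
    (H : ∀ M ∈ S, ∀ h ∈ B M, Bad M h ∧ ∀ g ∈ G M h, g.1 ≠ h.1 ∧ tip M g ≠ h.1 ∧ sw M h g ∈ T) :
    ∑ M ∈ S, ∑ h ∈ B M, #(G M h) ≤ #T * (N * d * ((d + 1) * d)) := by
  have key : #(S.sigma fun M => (B M).sigma (G M)) ≤ #(T.sigma fun M => univ.sigma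
      fun h : Fin N × Fin d => univ.filter fun k : Fin N × Fin d => k.1 ∈ insert h.1 (nbr M h.1)) := by
    refine card_le_card_of_injOn (fun p => ⟨sw p.1 p.2.1 p.2.2, p.2.1, p.1 p.2.1⟩) ?_ ?_
    · rintro ⟨M, h, g⟩ hp
      simp only [coe_sigma, Set.mem_sigma_iff, mem_coe] at hp
      obtain ⟨b, c⟩ := H M hp.1 h hp.2.1
      obtain ⟨c1, c2, c3⟩ := c g hp.2.2
      simp only [coe_sigma, Set.mem_sigma_iff, mem_coe, mem_univ, true_and, mem_filter,
        mem_insert]
      refine ⟨c3, or_iff_not_imp_left.2 fun n => ?_⟩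
      obtain ⟨z, z1, z2, z3⟩ := b.resolve_left n
      have := mem_nbr (M := sw M h g) z
      rwa [z2, tip, sw_off (hS hp.1) z1 (fun e => n (by rw [← e, z2]))
        (fun e => c1 (by rw [← e, z2]))
        (fun e => c2 (by rw [tip, ← e, z2])), show (M z).1 = (M h).1 from z3] at this
    · rintro ⟨M, h, g⟩ hp ⟨M', h', g'⟩ hq e
      simp only [coe_sigma, Set.mem_sigma_iff, mem_coe] at hp hq
      simp only [Sigma.mk.injEq, heq_eq_eq] at e
      obtain ⟨e1, rfl, e3⟩ := e
      have a := sw_h (h := h) (g := g) (hS hp.1) fun e =>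
        ((H M hp.1 h hp.2.1).2 g hp.2.2).1 (by rw [e])
      have b := sw_h (h := h) (g := g') (hS hq.1) fun e =>
        ((H M' hq.1 h hq.2.1).2 g' hq.2.2).1 (by rw [e])
      obtain rfl : g = g' := by rw [← a, e1, b]
      rw [sw, sw, e3] at e1
      rw [mul_left_cancel (mul_right_cancel e1)]
  simp only [card_sigma] at key
  refine key.trans ((sum_le_card_nsmul _ _ _ fun M _ => ?_).trans_eq (smul_eq_mul _ _))
  refine (sum_le_card_nsmul _ _ ((d + 1) * d) fun h _ => ?_).trans_eq (by simp)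
  rw [card_fst]
  exact Nat.mul_le_mul_right _ ((card_insert_le _ _).trans (Nat.succ_le_succ (card_nbr _ _)))

theorem card_good (M : Cfg d N) (A B : Finset (Fin N)) (C : Finset (Fin N × Fin d)) :
    N * d ≤ #(univ.filter fun g => g.1 ∉ A ∧ tip M g ∉ B ∧ g ∉ C) + (#A * d + #B * d + #C) := by
  rw [← card_fst, ← card_tip M]
  refine le_trans (by simp) ((card_le_card (s := univ) (t := _ ∪ (_ ∪ _ ∪ _)) fun g _ => ?_).trans
    ((card_union_le _ _).trans (Nat.add_le_add_left ((card_union_le _ _).trans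
      (Nat.add_le_add_right (card_union_le _ _) _)) _)))
  simp only [mem_union, mem_filter, mem_univ, true_and]
  tauto

/-- the first moment of the number of bad half-edges -/
theorem moment (hN : 4 ≤ N) : ∑ M ∈ Cf d N, #(bad M) ≤ 2 * ((d + 1) * d) * #(Cf d N) := by
  rcases Nat.eq_zero_or_pos d with rfl | hd
  · simp [eq_empty_of_isEmpty]
  have k := count (Cf d N) (Cf d N) bad (fun M h => univ.filter fun g =>
    g.1 ∉ ({h.1} : Finset _) ∧ tip M g ∉ ({h.1} : Finset _) ∧ g ∉ (∅ : Finset _)) Subset.rfl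
    fun M hM h hh => ⟨(mem_filter.1 hh).2, fun g hg => by
      simp only [mem_filter, mem_singleton] at hg
      exact ⟨hg.2.1, hg.2.2.1, sw_mem hM _ _⟩⟩
  refine Nat.le_of_mul_le_mul_left (c := N * d) ?_ (by positivity)
  calc N * d * ∑ M ∈ Cf d N, #(bad M) = ∑ M ∈ Cf d N, ∑ h ∈ bad M, N * d := by
        simp [mul_sum, mul_comm]
    _ ≤ 2 * _ := by
        rw [mul_sum]
        refine sum_le_sum fun M _ => ?_
        rw [mul_sum]
        refine sum_le_sum fun h _ => ?_
        have := card_good M {h.1} {h.1} ∅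
        simp only [card_singleton, card_empty] at this
        nlinarith [Nat.mul_le_mul_right d hN]
    _ ≤ 2 * _ := Nat.mul_le_mul_left _ k
    _ = _ := by ring

/-- a good switching lowers the number of bad half-edges -/
theorem drop (hM : M ∈ Cf d N) (hb : Bad M h) (h1 : g.1 ∉ insert h.1 (nbr M h.1))
    (h2 : tip M g ∉ insert h.1 (insert (tip M h) (nbr M (tip M h)))) (h3 : g ∉ bad M) :
    #(bad (sw M h g)) < #(bad M) := by
  simp only [mem_insert, not_or] at h1 h2
  have ce : tip M g ≠ g.1 := fun e => h3 (mem_filter.2 ⟨mem_univ _, .inl e⟩)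
  have cb : g.1 ≠ tip M h := fun e => h1.2 (e ▸ mem_nbr h)
  have hg : h ≠ g := fun e => h1.1 (e ▸ rfl)
  have i' := fun z => (mem_Cf.1 (sw_mem hM h g) z).1
  have t1 : tip (sw M h g) h = g.1 := by rw [tip, sw_h hM hg]
  have t2 : tip (sw M h g) (M h) = tip M g := by rw [tip, sw_k hM hg, tip]
  have t3 : tip (sw M h g) g = h.1 := by
    have := i' h
    rw [sw_h hM hg] at this
    rw [tip, this]
  have t4 : tip (sw M h g) (M g) = tip M h := by rw [tip, ← sw_k hM hg, i', tip]
  have cs : ∀ z, z = h ∨ z = M h ∨ z = g ∨ z = M g ∨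
      (z ≠ h ∧ tip (sw M h g) z = tip M z ∧ tip M z ∈ nbr M z.1 ∧ z.1 ∈ nbr M (tip M z)) := by
    intro z
    by_contra! n
    refine n.2.2.2.2 n.1 (by rw [tip, sw_off hM n.1 n.2.1 n.2.2.1 n.2.2.2.1, tip]) (mem_nbr z) ?_
    have := mem_nbr (M := M) (M z)
    rwa [tip_mate hM] at this
  have m1 : (M h).1 = tip M h := rfl
  have m2 : (M g).1 = tip M g := rfl
  refine lt_of_le_of_lt (card_le_card fun y hy => ?_)
    (card_erase_lt_of_mem (mem_filter.2 ⟨mem_univ h, hb⟩))
  have hy := (mem_filter.1 hy).2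
  simp only [bad, mem_erase, mem_filter, mem_univ, true_and]
  rcases hy with hy | ⟨z, z1, z2, z3⟩
  · rcases cs y with rfl | rfl | rfl | rfl | c
    any_goals grind
    exact ⟨c.1, .inl (c.2.1 ▸ hy)⟩
  · rcases cs y with rfl | rfl | rfl | rfl | c <;> rcases cs z with rfl | rfl | rfl | rfl | c'
    any_goals grind
    exact ⟨c.1, .inr ⟨z, z1, z2, by rw [← c.2.1, ← c'.2.1, z3]⟩⟩

theorem level (j : ℕ) (hN : 2 * (2 * d + 3 + (j + 1)) ≤ N) :
    #((Cf d N).filter fun M => #(bad M) ≤ j + 1) ≤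
      (1 + 2 * ((d + 1) * d)) * #((Cf d N).filter fun M => #(bad M) ≤ j) := by
  rcases Nat.eq_zero_or_pos d with rfl | hd
  · simp [eq_empty_of_isEmpty]
  set S := (Cf d N).filter fun M => #(bad M) = j + 1
  set T := (Cf d N).filter fun M => #(bad M) ≤ j
  have k := count S T bad (fun M h => univ.filter fun g => g.1 ∉ insert h.1 (nbr M h.1) ∧
    tip M g ∉ insert h.1 (insert (tip M h) (nbr M (tip M h))) ∧ g ∉ bad M) (filter_subset _ _)
    fun M hM h hh => ⟨(mem_filter.1 hh).2, fun g hg => by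
      obtain ⟨a, b, c⟩ := (mem_filter.1 hg).2
      obtain ⟨m, e⟩ := mem_filter.1 hM
      have := drop m (mem_filter.1 hh).2 a b c
      exact ⟨fun e => a (e ▸ mem_insert_self _ _), fun e => b (e ▸ mem_insert_self _ _),
        mem_filter.2 ⟨sw_mem m _ _, by omega⟩⟩⟩
  have k2 : #S ≤ 2 * ((d + 1) * d) * #T := by
    refine Nat.le_of_mul_le_mul_left (c := N * d) (?_ : _ ≤ _) (Nat.mul_pos (by omega) hd)
    calc N * d * #S = ∑ M ∈ S, N * d := by simp [mul_comm]
      _ ≤ 2 * _ := by
          rw [mul_sum]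
          refine sum_le_sum fun M hM => ?_
          have e := (mem_filter.1 hM).2
          obtain ⟨h, hh⟩ := card_pos.1 (show 0 < #(bad M) by omega)
          refine le_trans ?_ (Nat.mul_le_mul_left 2 (single_le_sum (fun _ _ => Nat.zero_le _) hh))
          have := card_good M (insert h.1 (nbr M h.1))
            (insert h.1 (insert (tip M h) (nbr M (tip M h)))) (bad M)
          have a := Nat.mul_le_mul_right d
            ((card_insert_le h.1 _).trans (Nat.succ_le_succ (card_nbr M h.1)))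
          have b := Nat.mul_le_mul_right d ((card_insert_le h.1 _).trans (Nat.succ_le_succ
            ((card_insert_le (tip M h) _).trans (Nat.succ_le_succ (card_nbr M (tip M h))))))
          have c := Nat.mul_le_mul_right d hN
          have f := Nat.le_mul_of_pos_right (j + 1) hd
          simp only [Nat.succ_eq_add_one] at a b
          nlinarith
      _ ≤ 2 * _ := Nat.mul_le_mul_left _ k
      _ = _ := by ring
  refine (card_le_card (t := T ∪ S) fun M hM => ?_).trans ((card_union_le _ _).trans (by linarith))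
  simp only [S, T, mem_union, mem_filter] at hM ⊢
  exact (Nat.le_succ_iff_eq_or_le.1 hM.2).symm.imp (fun e => ⟨hM.1, e⟩) fun e => ⟨hM.1, e⟩

end Pool.Agent.P.MP_6b977f_mp.RG.L37
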