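import Pool.Agent.P.MP_6b977f_mp.RG.IfaceB
import Pool.Agent.P.MP_6b977f_mp.RG.Lib37

/-! Step M2. -/

namespace Pool.Agent.P.MP_6b977f_mp.RG

open Finset MeasureTheory Real
open scoped Classical

theorem p_M2 (hPAIR : S_PAIR) :
    S_M2 := by
  intro d
  refine ⟨(d + 1) * (2 * ((d + 1) * d)) + 1, by positivity, fun N hN => ?_⟩
  have k : ∑ M ∈ Cf d N, ((d + 1) * ∑ h, ind (L37.Bad M h) : ℝ) ≤
      ((d + 1) * (2 * ((d + 1) * d)) + 1) * #(Cf d N) := by
    have : (∑ M ∈ Cf d N, #(L37.bad M) : ℝ) ≤ 2 * ((d + 1) * d) * #(Cf d N) := by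
      exact_mod_cast L37.moment (by omega)
    simp only [sum_ind]
    rw [← mul_sum, add_mul (_ * _), mul_assoc]
    exact le_add_of_le_of_nonneg (mul_le_mul_of_nonneg_left this (by positivity)) (by positivity)
  refine ⟨(sum_le_sum fun M _ => ?_).trans k, (sum_le_sum fun M _ => ?_).trans k⟩
  · rw [par, Fintype.sum_prod_type, mul_sum]
    refine sum_le_sum fun x _ => ?_
    rw [mul_sum]
    refine sum_le_sum fun i _ => (sum_le_card_nsmul _ _ (ind (L37.Bad M (x, i))) fun j _ => ?_).trans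
      (by simpa using mul_le_mul_of_nonneg_right (le_add_of_nonneg_right zero_le_one) (ind_nonneg _))
    by_cases c : i ≠ j ∧ tip M (x, i) = tip M (x, j)
    · rw [ind_pos (P := L37.Bad M (x, i))
        (.inr ⟨(x, j), fun e => c.1 (congrArg Prod.snd e).symm, rfl, c.2.symm⟩)]
      exact ind_le _
    · rw [ind_neg c]
      exact ind_nonneg _
  · refine (sum_le_sum fun h _ => ?_).trans (le_mul_of_one_le_left
      (sum_nonneg fun _ _ => ind_nonneg _) (le_add_of_nonneg_left (Nat.cast_nonneg d)))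
    by_cases c : tip M h = h.1
    · rw [ind_pos (P := L37.Bad _ _) (.inl c)]
      exact ind_le _
    · rw [ind_neg c]
      exact ind_nonneg _

end Pool.Agent.P.MP_6b977f_mp.RG
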