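import Pool.Agent.P.MP_6b977f_mp.RG.IfaceB

/-! Step MAIN. -/

namespace Pool.Agent.P.MP_6b977f_mp.RG

open Finset MeasureTheory Real
open scoped Classical

namespace MAINx

theorem count (hFIB : S_FIB) (d N : ℕ) (T : Finset (SimpleGraph (Fin N))) (hT : T ⊆ Reg d N) :
    #((Cf d N).filter fun M => Simple M ∧ graph M ∈ T) = #T * d.factorial ^ N := by
  rw [card_eq_sum_card_fiberwise (f := graph) (t := T) fun M hM => (mem_filter.1 hM).2.2]
  rw [sum_congr rfl (g := fun _ => d.factorial ^ N), sum_const, smul_eq_mul]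
  intro G hG
  rw [← (hFIB d N).2 G (hT hG), filter_filter]
  congr 1
  refine filter_congr fun M _ => ⟨fun h => ⟨h.1.1, h.2⟩, fun h => ⟨⟨h.1, h.2 ▸ hG⟩, h.2⟩⟩

end MAINx

theorem p_MAIN (hCONF : S_CONF) (hSIM : S_SIM) (hFIB : S_FIB) (hTR : S_TR) :
    S_MAIN := by
  intro d κ R ε hd hκ hε
  obtain ⟨c, N1, hc, h1⟩ := hSIM d
  obtain ⟨N2, h2⟩ := hCONF d κ R (min ε (ε * c)) hd hκ (by positivity)
  refine ⟨max 1 (max N1 N2), fun N hN => ?_⟩
  have a1 := MAINx.count hFIB d N ((Reg d N).filter fun G => ¬ Berry d κ R ε G) (filter_subset _ _)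
  have a2 := MAINx.count hFIB d N (Reg d N) subset_rfl
  have a3 : ((Cf d N).filter fun M => Simple M ∧ graph M ∈ Reg d N) = (Cf d N).filter Simple :=
    filter_congr fun M hM => ⟨fun h => h.1, fun h => ⟨h, (hFIB d N).1 M hM h⟩⟩
  have a4 : ((Cf d N).filter fun M => Simple M ∧
      graph M ∈ (Reg d N).filter fun G => ¬ Berry d κ R ε G) ⊆
      (Cf d N).filter fun M => ¬ BerryC κ R (min ε (ε * c)) M := by
    intro M hM
    simp only [mem_filter] at hM ⊢
    refine ⟨hM.1, fun h => hM.2.2.2 (hTR d N M κ R ε hM.1 hM.2.1 (by omega) ?_)⟩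
    exact fun ψ lam e l s t r => (h ψ lam e l s t r).trans (min_le_left _ _)
  have b1 : (#((Reg d N).filter fun G => ¬ Berry d κ R ε G) * d.factorial ^ N : ℝ) ≤
      ε * (#(Reg d N) * d.factorial ^ N) := by
    have c1 := (Nat.cast_le (α := ℝ)).2 (card_le_card a4)
    have c2 := h2 N (by omega)
    have c3 := h1 N (by omega)
    rw [a1] at c1
    rw [← a3, a2] at c3
    push_cast at c1 c3
    have c4 : min ε (ε * c) * (#(Cf d N) : ℝ) ≤ ε * c * #(Cf d N) :=
      mul_le_mul_of_nonneg_right (min_le_right _ _) (Nat.cast_nonneg _)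
    nlinarith [mul_le_mul_of_nonneg_left c3 hε.le]
  rw [← mul_assoc] at b1
  exact le_of_mul_le_mul_right b1 (by positivity)

end Pool.Agent.P.MP_6b977f_mp.RG
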