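import Pool.Agent.P.MP_6b977f_mp.RG.IfaceB
import Pool.Agent.P.MP_6b977f_mp.RG.Lib91

/-! Step NB. -/

namespace Pool.Agent.P.MP_6b977f_mp.RG

open Finset MeasureTheory Real
open scoped Classical

theorem p_NB :
    S_NB := by
  intro d N M ψ lam t e0 d0 hd hM hs he hψ hl t0 hK
  refine (X91.free M (fun x => (mem_Cf.1 hM x).1) (by rwa [Fintype.card_fin]) e0 (d0 * N) he hs
    (univ.filter fun x => t < |ψ x|) (by rwa [Fintype.card_fin])).trans
    (mul_le_mul_of_nonneg_left (Nat.cast_le.2 (card_le_card fun y hy => ?_)) zero_le_two)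
  simp only [mem_filter, mem_univ, true_and, not_lt] at hy ⊢
  obtain ⟨h1, i, h2, h3⟩ := hy
  have d3 : (3 : ℝ) ≤ d := by exact_mod_cast hd
  refine ⟨h1, fun j => ?_, i, h2⟩
  by_cases u : j = i
  · have a := hψ y
    rw [adj, ← add_sum_erase _ _ (mem_univ j), ← eq_sub_iff_add_eq] at a
    have b : |∑ k ∈ univ.erase j, ψ (tip M (y, k))| ≤ d * t := by
      refine (abs_sum_le_sum_abs _ _).trans ((sum_le_card_nsmul _ _ t fun k hk =>
        h3 k (u ▸ ne_of_mem_erase hk)).trans ?_)
      rw [nsmul_eq_mul]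
      exact mul_le_mul_of_nonneg_right (by
        exact_mod_cast card_erase_le.trans (card_fin d).le) t0
    refine (congrArg abs a).trans_le ((abs_sub _ _).trans ?_)
    rw [abs_mul]
    linarith [mul_le_mul hl h1 (abs_nonneg _) (Nat.cast_nonneg d)]
  · exact (h3 j u).trans (by nlinarith)

end Pool.Agent.P.MP_6b977f_mp.RG
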