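import Pool.Agent.P.MP_6b977f_mp.RG.IfaceA
import Pool.Agent.P.MP_6b977f_mp.RG.LibS4

/-! Step NL. -/

namespace Pool.Agent.P.MP_6b977f_mp.RG

open Finset MeasureTheory Real
open scoped Classical

namespace NLx

open Sb

variable {d : ℕ} {P : Par d} {m : Mix (SI d)} {κ t ε c0 L : ℝ}

/-- a star score minus an edge score -/
noncomputable def df (P : Par d) (m : Mix (SI d)) (κ t α β : ℝ) (b : VI d → ℝ) (i : Fin d)
    (y : SI d → ℝ) : ℝ :=
  ∑ j, b j * SS m.p m.x (vs d κ t) y (some j) - zz P m κ t α β (P.ed i y)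

theorem df_cont (α β : ℝ) (b : VI d → ℝ) (i : Fin d) : Continuous (df P m κ t α β b i) :=
  (continuous_finsetSum _ fun _ _ => continuous_const.mul (cont_SS m.p0 m.p1 _)).sub
    ((zz_cont α β).comp (cont_ed P i))

theorem df_growth (h : P.Stab m κ t ε c0 L) {α β : ℝ} (hα : |α| ≤ 1) (hβ : |β| ≤ 1)
    (b : VI d → ℝ) (i : Fin d) : ∃ C : ℝ, ∀ y, |df P m κ t α β b i y| ≤ C * (1 + ‖y‖) := by
  obtain ⟨C, hC⟩ := zz_growth h hα hβ i
  choose Cs hCs using fun j : VI d => SS_growth (x := m.x) (σ := vs d κ t) m.p0 m.p1 (some j)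
  refine ⟨∑ j, |b j| * Cs j + C, fun y => (abs_sub _ _).trans ?_⟩
  rw [add_mul, sum_mul]
  refine add_le_add ((abs_sum_le_sum_abs _ _).trans (sum_le_sum fun j _ => ?_)) (hC y)
  rw [abs_mul, mul_assoc]
  exact mul_le_mul_of_nonneg_left (hCs j y) (abs_nonneg _)

/-- coefficients of the score in direction `a'` -/
def ba (d : ℕ) : VI d → ℝ := fun j => j.elim 1 fun _ => 0

/-- coefficients of the score along a frame vector -/
def bw (P : Par d) (i : Fin d) : VI d → ℝ := fun j => j.elim 0 (P.e i)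

theorem za_eq (h : P.Stab m κ t ε c0 L) (e : Fin 2 → ℝ) :
    P.za m κ t e = zz P m κ t P.cs P.sn e := by
  have hv : ∀ j, 0 < P.ve κ t j := fun j => lt_of_lt_of_le one_pos (ve_ge h j)
  simp only [Par.za, zz, sc_eq _ hv]

theorem zc_eq (h : P.Stab m κ t ε c0 L) (e : Fin 2 → ℝ) :
    P.zc m κ t e = zz P m κ t P.sn (-P.cs) e := by
  have hv : ∀ j, 0 < P.ve κ t j := fun j => lt_of_lt_of_le one_pos (ve_ge h j)
  simp only [Par.zc, zz, sc_eq _ hv]
  ring

theorem ww_eq (h : P.Stab m κ t ε c0 L) (i : Fin d) (y : SI d → ℝ) :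
    P.ww m κ t i y = df P m κ t P.sn (-P.cs) (bw P i) i y := by
  simp only [Par.ww, Par.uu, df, zc_eq h, sc_eq _ (vs_pos h), Fintype.sum_option, bw, Option.elim,
    zero_mul, zero_add]

theorem aa_eq (h : P.Stab m κ t ε c0 L) (i : Fin d) (y : SI d → ℝ) :
    m.sc (vs d κ t) (some none) y - P.za m κ t (P.ed i y) = df P m κ t P.cs P.sn (ba d) i y := by
  simp only [df, za_eq h, sc_eq _ (vs_pos h), Fintype.sum_option, ba, Option.elim,
    zero_mul, one_mul, sum_const_zero, add_zero]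

theorem acs : |P.cs| ≤ 1 := by rw [abs_of_pos P.cs_pos]; exact P.cs_le

theorem asn : |P.sn| ≤ 1 := by rw [abs_of_pos P.sn_pos]; exact P.sn_le

theorem ancs : |-P.cs| ≤ 1 := by rw [abs_neg]; exact acs

theorem ints (h : P.Stab m κ t ε c0 L) (h0 : 0 < c0) (i : Fin d) :
    ∫ y, Nc (vs d κ t) * ZZ m.p m.x (vs d κ t) y * df P m κ t P.cs P.sn (ba d) i y ^ 2 ≤
      (2 * d + 2 * d * (d / c0)) * ε ∧
    ∫ y, Nc (vs d κ t) * ZZ m.p m.x (vs d κ t) y * df P m κ t P.sn (-P.cs) (bw P i) i y ^ 2 ≤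
      (2 * d + 2 * d * (d / c0)) * ε := by
  have h3 := P.d3
  have hε0 : 0 < ε := lt_of_lt_of_le (pow_pos h.k0 2) h.k2
  have hf : ∀ y, 0 < Nc (vs d κ t) * ZZ m.p m.x (vs d κ t) y := fun y =>
    mul_pos (Nc_pos (vs_pos h)) (ZZ_pos m.p0 m.p1 y)
  have nn : ∀ g : (SI d → ℝ) → ℝ, 0 ≤ ∫ y, Nc (vs d κ t) * ZZ m.p m.x (vs d κ t) y * g y ^ 2 :=
    fun g => integral_nonneg fun y => mul_nonneg (hf y).le (sq_nonneg _)
  have hc : 0 ≤ d - 1 - P.kk ^ 2 := h0.le.trans h.bulk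
  have hD := h.dd
  simp only [Par.Dd, Ex_eq, ww_eq h, aa_eq h] at hD
  rw [div_le_iff₀ (by linarith)] at hD
  have hD2 := (single_le_sum (fun j _ => add_nonneg (mul_nonneg hc
    (nn fun y => df P m κ t P.sn (-P.cs) (bw P j) j y)) (nn fun y => df P m κ t P.cs P.sn (ba d) j y +
      P.kk * df P m κ t P.sn (-P.cs) (bw P j) j y)) (mem_univ i)).trans hD
  obtain ⟨C1, hC1⟩ := df_growth h (acs (P := P)) (asn (P := P)) (ba d) i
  obtain ⟨C2, hC2⟩ := df_growth h (asn (P := P)) (ancs (P := P)) (bw P i) i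
  have c1 := df_cont (P := P) (m := m) (κ := κ) (t := t) P.cs P.sn (ba d) i
  have c2 := df_cont (P := P) (m := m) (κ := κ) (t := t) P.sn (-P.cs) (bw P i) i
  generalize df P m κ t P.cs P.sn (ba d) i = A at *
  generalize df P m κ t P.sn (-P.cs) (bw P i) i = W at *
  have i1 := int_growth (x := m.x) m.p0 m.p1 (vs_pos h) c1 hC1
  have i2 := int_growth (x := m.x) m.p0 m.p1 (vs_pos h) c2 hC2
  have i3 := int_growth (x := m.x) m.p0 m.p1 (vs_pos h) (g := fun y => A y + P.kk * W y)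
    (c1.add (continuous_const.mul c2)) (C := C1 + |P.kk| * C2) fun y => by
      refine (abs_add_le _ _).trans ?_
      rw [abs_mul]
      linarith [hC1 y, mul_le_mul_of_nonneg_left (hC2 y) (abs_nonneg P.kk)]
  have k := integral_mono i1 ((i3.const_mul 2).add (i2.const_mul (2 * P.kk ^ 2))) fun y => by
    have a : A y ^ 2 ≤ 2 * (A y + P.kk * W y) ^ 2 + 2 * P.kk ^ 2 * W y ^ 2 := by
      nlinarith [sq_nonneg (A y + 2 * P.kk * W y)]
    have := mul_le_mul_of_nonneg_left a (hf y).le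
    simp only [Pi.add_apply]
    linarith
  simp only [Pi.add_apply] at k
  rw [integral_add (i3.const_mul 2) (i2.const_mul _), integral_const_mul, integral_const_mul] at k
  have n2 := nn W
  have n3 := nn fun y => A y + P.kk * W y
  generalize ∫ y, Nc (vs d κ t) * ZZ m.p m.x (vs d κ t) y * W y ^ 2 = IW at *
  generalize ∫ y, Nc (vs d κ t) * ZZ m.p m.x (vs d κ t) y * (A y + P.kk * W y) ^ 2 = IS at *
  have b1 : IW ≤ d / c0 * ε := by
    rw [div_mul_eq_mul_div, le_div_iff₀ h0]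
    linarith [mul_le_mul_of_nonneg_right h.bulk n2]
  have b2 : IS ≤ ε * d := by linarith [mul_nonneg hc n2]
  have b3 : P.kk ^ 2 * IW ≤ d * (d / c0 * ε) :=
    mul_le_mul (by linarith [P.kk_sq]) b1 n2 (by linarith)
  have b4 : d / c0 * ε ≤ d * (d / c0 * ε) := le_mul_of_one_le_left (by positivity) (by linarith)
  have b5 : 0 ≤ d * (d / c0 * ε) := by positivity
  have b6 : 0 ≤ d * ε := by positivity
  constructor <;> linarith

theorem nl_of (P : Par d) (F : Mix (VI d)) {v : ℝ} (hv : 0 < v) (G G' : ℝ → ℝ → ℝ) {T s : ℝ}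
    (hT : 0 < T)
    (la : ∀ y : VI d → ℝ, ‖y‖ ≤ 3 * d * T → ∀ i,
      |∑ j, ba d j * SS F.p F.x (fun _ => v) y j - G (y none) (P.ci i y)| ≤ s)
    (lw : ∀ y : VI d → ℝ, ‖y‖ ≤ 3 * d * T → ∀ i,
      |∑ j, bw P i j * SS F.p F.x (fun _ => v) y j - G' (y none) (P.ci i y)| ≤ s) :
    ∃ θ, NL F v θ ((8 + 110 * (d - 1) * d ^ 2) * s) T := by
  have h3 := P.d3
  have hv0 : ∀ _ : VI d, 0 < v := fun _ => hv
  have hn : (Fintype.card (Fin (d - 1)) : ℝ) = d - 1 := by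
    have := P.hd
    rw [Fintype.card_fin, Nat.cast_sub (by omega), Nat.cast_one]
  choose Cs hCs using fun j : VI d => SS_growth (x := F.x) (σ := fun _ => v) F.p0 F.p1 j
  have f1 : ∀ i j, ∑ k, P.e i k * P.e j k = if i = j then 1 else -1 / (d - 1 : ℝ) :=
    fun i j => by convert P.e1 i j
  have f2 : ∀ k l, ∑ i, P.e i k * P.e i l = if k = l then (d - 1 + 1) / (d - 1 : ℝ) else 0 :=
    fun k l => by rw [sub_add_cancel]; convert P.e3 k l
  have hG : ∀ y : VI d → ℝ, ‖y‖ ≤ 3 * d * T → ∀ i,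
      |F.sc (fun _ => v) none y - G (y none) (cc P.e y i)| ≤ s := fun y hy i => by
    have := la y hy i
    simp only [Fintype.sum_option, ba, Option.elim, zero_mul, one_mul, sum_const_zero,
      add_zero] at this
    rw [sc_eq _ hv0]
    exact this
  have hG' : ∀ y : VI d → ℝ, ‖y‖ ≤ 3 * d * T → ∀ i,
      |∑ k, P.e i k * F.sc (fun _ => v) (some k) y - G' (y none) (cc P.e y i)| ≤ s := fun y hy i => by
    have := lw y hy i
    simp only [Fintype.sum_option, bw, Option.elim, zero_mul, zero_add] at this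
    simp only [sc_eq _ hv0]
    exact this
  have hB : ∀ y : VI d → ℝ, ‖y‖ ≤ 3 * d * T → ∀ j,
      |F.sc (fun _ => v) j y| ≤ (∑ j, |Cs j|) * (1 + 3 * d * T) := fun y hy j => by
    rw [sc_eq _ hv0]
    refine (hCs j y).trans (mul_le_mul ((le_abs_self _).trans ?_) (by linarith) (by positivity)
      (sum_nonneg fun _ _ => abs_nonneg _))
    exact single_le_sum (f := fun j => |Cs j|) (fun _ _ => abs_nonneg _) (mem_univ j)
  have hR : 3 * ((Fintype.card (Fin (d - 1)) : ℝ) * T) ≤ 3 * d * T := by rw [hn]; linarith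
  obtain ⟨θ, hθ⟩ := cau P.e (q := d - 1) (by rw [Fintype.card_fin]; ring) (by linarith) P.e2 f1 f2
    (fun y => log (F.den (fun _ => v) y)) (fun y j => F.sc (fun _ => v) j y)
    (hasDerivAt_log_den F hv0) G G' hT (by rw [hn]; linarith) hR hG hG' hB
  rw [hn, sub_add_cancel] at hθ
  exact ⟨θ, hθ⟩

end NLx

open Sb NLx in
theorem p_NL :
    S_NL := by
  intro d c0 L h0
  obtain ⟨Ae, hAe⟩ : ∃ Ae : ℝ, Ae = 1 + 1296 * d ^ 4 + 16 * (8 + d) ^ 2 * |L| := ⟨_, rfl⟩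
  obtain ⟨A, hA⟩ : ∃ A : ℝ, A = 14 * Ae + (2 * (1 + d) * Ae + d * (1 + 64 * d ^ 4 + 4 * d ^ 2 * |L|)) +
    (5 * d + 16 * d ^ 3 + d * |L|) := ⟨_, rfl⟩
  obtain ⟨K1, hK1⟩ : ∃ K1 : ℝ, K1 = 2 * d + 2 * d * (d / c0) := ⟨_, rfl⟩
  have hK : 0 ≤ K1 := by rw [hK1]; positivity
  have hAe0 : 0 ≤ Ae := by rw [hAe]; positivity
  have t1 : 0 ≤ 2 * (1 + d) * Ae + d * (1 + 64 * d ^ 4 + 4 * d ^ 2 * |L|) := by positivity
  have t2 : 0 ≤ 5 * (d : ℝ) + 16 * d ^ 3 + d * |L| := by positivity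
  have hA0 : 0 ≤ A := by linarith
  have t3 : 0 ≤ ((d : ℝ) + 3) * A := by positivity
  have t4 : 0 ≤ 110 * (d : ℝ) ^ 3 := by positivity
  refine ⟨8 * K1 + 17 + (d + 3) * A + 110 * d ^ 3, by linarith, ?_⟩
  intro P m κ t ε T s h hT hs hs1 hε
  have h3 := P.d3
  have hL := L_nonneg m h.mom
  rw [abs_of_nonneg hL] at hAe hA t1 t2
  have hε0 : 0 < ε := lt_of_lt_of_le (pow_pos h.k0 2) h.k2
  have hε' : ε * exp ((8 * K1 + 17 + (d + 3) * A) * T ^ 2) ≤ s ^ (d + 2) :=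
    le_trans (mul_le_mul_of_nonneg_left (exp_le_exp.2
      (mul_le_mul_of_nonneg_right (by linarith) (sq_nonneg T))) hε0.le) hε
  have hv := v_mem h
  have hv0 : ∀ _ : VI d, 0 < κ ^ 2 + t := fun _ => by linarith [hv.1]
  have q1 : 14 * Ae ≤ A := by linarith
  have q2 : 2 * (1 + d) * Ae + d * (1 + 64 * d ^ 4 + 4 * d ^ 2 * L) ≤ A := by linarith
  have q3 : 5 * d + 16 * d ^ 3 + d * L ≤ A := by linarith
  have la := fun i => loc0 hK (ba d) i hAe.ge q1 q2 q3 h hT hs hs1 hε'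
    (acs (P := P)) (asn (P := P)) (fun j => by rcases j with _ | k <;> simp [ba])
    (by rw [hK1]; exact (ints h h0 i).1)
  have lw := fun i => loc0 hK (bw P i) i hAe.ge q1 q2 q3 h hT hs hs1
    hε' (asn (P := P)) (ancs (P := P)) (fun j => by
      rcases j with _ | k
      · simp [bw]
      · exact P.abs_e i k) (by rw [hK1]; exact (ints h h0 i).2)
  obtain ⟨θ, hθ⟩ := nl_of P (m.map vp) (v := κ ^ 2 + t) (by linarith [hv.1])
    (fun a c => zz P m κ t P.cs P.sn (P.ed0 a c)) (fun a c => zz P m κ t P.sn (-P.cs) (P.ed0 a c))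
    (by linarith : 0 < T) (fun y hy i => la i y hy) (fun y hy i => lw i y hy)
  refine ⟨θ, fun y hy k => (hθ y hy k).trans (mul_le_mul_of_nonneg_right ?_ hs.le)⟩
  have := sq_nonneg (d : ℝ)
  linarith

end Pool.Agent.P.MP_6b977f_mp.RG
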