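import Pool.Agent.P.MP_6b977f_mp.RG.IfaceA

/-! Step ORT. -/

namespace Pool.Agent.P.MP_6b977f_mp.RG

open Finset MeasureTheory Real
open scoped Classical

namespace ORTx

theorem core (hMIX : S_MIX) (hIBP : S_IBP) (hEP : S_EP) {d : ℕ} (P : Par d) (m : Mix (SI d))
    {κ t : ℝ} {f : (Fin 2 → ℝ) → ℝ} {f' : Fin 2 → (Fin 2 → ℝ) → ℝ} (hκ : 0 < κ) (ht : 0 ≤ t)
    (hf : PG f) (hf' : ∀ j, PG (f' j)) (hd : ∀ e, HasFDerivAt f (lin fun j => f' j e) e)
    (u : Fin d → SI d → ℝ) (w : Fin 2 → ℝ)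
    (h : ∀ i y (s : ℝ), P.ed i (y + s • u i) = P.ed i y + s • w) :
    ∑ i, m.Ex (vs d κ t) (fun y => (∑ j, u i j * m.sc (vs d κ t) j y -
      ∑ j, w j * (P.edge m).sc (P.ve κ t) j (P.ed i y)) * f (P.ed i y)) = 0 := by
  have v1 : ∀ j, 0 < vs d κ t j := fun j => by
    cases j <;> simp only [vs, Option.elim] <;> positivity
  have v2 : ∀ j, 0 < P.ve κ t j := fun j => by
    fin_cases j <;> simp only [Par.ve] <;> simp <;> positivity
  obtain ⟨-, -, -, s1, -, -, i1⟩ := hMIX _ m _ v1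
  obtain ⟨-, -, -, s2, -, -, -⟩ := hMIX _ (P.edge m) _ v2
  have pD : PG fun e => ∑ j, f' j e * w j := PG.sum _ fun j _ => (hf' j).mul (PG.const _)
  have pB : PG fun e => (∑ j, w j * (P.edge m).sc (P.ve κ t) j e) * f e :=
    (PG.sum _ fun j _ => (s2 j).cmul _).mul hf
  have l2 : ∀ e, HasLineDerivAt ℝ f (∑ j, f' j e * w j) e w := fun e => by
    simpa only [lin_apply] using (hd e).hasLineDerivAt w
  have l1 : ∀ i y, HasLineDerivAt ℝ (fun y => f (P.ed i y)) (∑ j, f' j (P.ed i y) * w j) y (u i) :=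
    fun i y => by
      have := l2 (P.ed i y)
      simpa only [HasLineDerivAt, h] using this
  have a1 := fun i => hIBP _ m _ (u i) _ _ v1 (hf.comp (P.PG_ed i)) (pD.comp (P.PG_ed i)) (l1 i)
  have a2 := hIBP _ (P.edge m) _ w _ _ v2 hf pD l2
  have e1 := (hEP d P m κ t hκ ht).1 _ pD
  have e2 := (hEP d P m κ t hκ ht).1 _ pB
  have sp : ∀ i, m.Ex (vs d κ t) (fun y => (∑ j, u i j * m.sc (vs d κ t) j y -
      ∑ j, w j * (P.edge m).sc (P.ve κ t) j (P.ed i y)) * f (P.ed i y)) =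
      m.Ex (vs d κ t) (fun y => (∑ j, u i j * m.sc (vs d κ t) j y) * f (P.ed i y)) -
      m.Ex (vs d κ t) fun y =>
        (∑ j, w j * (P.edge m).sc (P.ve κ t) j (P.ed i y)) * f (P.ed i y) := fun i => by
    simp only [Mix.Ex, sub_mul]
    exact integral_sub
      (i1 _ ((PG.sum _ fun j _ => (s1 j).cmul _).mul (hf.comp (P.PG_ed i)))).1
      (i1 _ (pB.comp (P.PG_ed i))).1
  simp only [sp, a1, sum_sub_distrib, sum_neg_distrib]
  rw [e1, e2, a2]
  ring

end ORTx

theorem p_ORT (hMIX : S_MIX) (hIBP : S_IBP) (hEP : S_EP) :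
    S_ORT := by
  intro d P m κ t f f' hκ ht hf hf' hd
  constructor
  · have := ORTx.core hMIX hIBP hEP P m hκ ht hf hf' hd (fun _ => Pi.single (some none) 1)
      ![P.cs, P.sn] fun i y s => by
        funext j
        fin_cases j <;> simp [Par.ed, Par.ci, vp] <;> ring
    simpa [Par.za, Pi.single_apply, Fin.sum_univ_two] using this
  · have := ORTx.core hMIX hIBP hEP P m hκ ht hf hf' hd
      (fun i j => j.elim 0 fun j => j.elim 0 (P.e i)) ![P.sn, -P.cs] fun i y s => by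
        have e := P.e1 i i
        rw [if_pos rfl] at e
        have c : P.ci i (vp (y + s • fun j : SI d => j.elim 0 fun j => j.elim 0 (P.e i))) =
            P.ci i (vp y) + s := by
          simp only [Par.ci, vp, Pi.add_apply, Pi.smul_apply, Option.elim, smul_eq_mul, mul_add,
            sum_add_distrib, mul_left_comm _ s, ← mul_sum, e, mul_one]
        funext j
        fin_cases j <;> simp [Par.ed, c] <;> ring
    simpa [Par.ww, Par.uu, Par.zc, Fintype.sum_option, Fin.sum_univ_two, sub_eq_add_neg] using this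

end Pool.Agent.P.MP_6b977f_mp.RG
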