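import Pool.Agent.P.MP_6b977f_mp.RG.IfaceA

/-! Step PM. -/

namespace Pool.Agent.P.MP_6b977f_mp.RG

open Finset MeasureTheory Real
open scoped Classical

namespace PMx

/-- the signs -/
def sg : Fin 2 → ℝ := ![1, -1]

/-- the reflection -/
def R (e : Fin 2 → ℝ) : Fin 2 → ℝ := fun j => sg j * e j

theorem sg_sq (j : Fin 2) : sg j * sg j = 1 := by fin_cases j <;> simp [sg]

theorem RR (e : Fin 2 → ℝ) : R (R e) = e := funext fun j => by
  rw [R, R, ← mul_assoc, sg_sq, one_mul]

theorem mp : MeasurePreserving R := volume_preserving_pi (f := fun j x => sg j * x) fun j => by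
  fin_cases j
  · simpa [sg] using! MeasurePreserving.id (volume : Measure ℝ)
  · simpa [sg] using Measure.measurePreserving_neg (volume : Measure ℝ)

theorem int_R (f : (Fin 2 → ℝ) → ℝ) : ∫ e, f (R e) = ∫ e, f e :=
  MeasurePreserving.integral_comp' (f := MeasurableEquiv.ofInvolutive R RR mp.measurable) mp f

theorem ker_R (v e x : Fin 2 → ℝ) : ker v (R e - R x) = ker v (e - x) :=
  prod_congr rfl fun j _ => by
    rw [g1, g1, Pi.sub_apply, Pi.sub_apply, R, R, ← mul_sub, mul_pow, sq (sg j), sg_sq, one_mul]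

variable {d : ℕ} {P : Par d} {m : Mix (SI d)}

theorem sum_R (h : P.Sym m) (G : (Fin 2 → ℝ) → ℝ) :
    ∑ ω, (P.edge m).p ω * G ((P.edge m).x ω) = ∑ ω, (P.edge m).p ω * G (R ((P.edge m).x ω)) := by
  have e : ∀ G : (Fin 2 → ℝ) → ℝ, ∑ ω, (P.edge m).p ω * G ((P.edge m).x ω) =
      (∑ i, m.E fun y => G (P.ed i y)) / d := fun G => by
    change ∑ ω : m.Ω × Fin d, m.p ω.1 / d * G (P.ed ω.2 (m.x ω.1)) = _
    rw [Fintype.sum_prod_type_right, sum_div]
    refine sum_congr rfl fun i _ => ?_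
    rw [Mix.E, sum_div]
    exact sum_congr rfl fun ω _ => by ring
  rw [e, e fun x => G (R x)]
  congr 1
  simp only [P.ed_val]
  refine (h fun a b => G ![(a + b) / (2 * P.cs), (a - b) / (2 * P.sn)]).trans ?_
  refine sum_congr rfl fun i _ => congrArg m.E (funext fun y => congrArg G (funext fun j => ?_))
  fin_cases j <;> simp [R, sg] <;> ring

theorem den_R (h : P.Sym m) (v e : Fin 2 → ℝ) : (P.edge m).den v (R e) = (P.edge m).den v e := by
  rw [Mix.den, sum_R h fun x => ker v (R e - x)]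
  simp only [ker_R]
  rfl

theorem sc_R (h : P.Sym m) (v e : Fin 2 → ℝ) (j : Fin 2) :
    (P.edge m).sc v j (R e) = sg j * (P.edge m).sc v j e := by
  rw [Mix.sc, Mix.sc, Mix.po, Mix.po, den_R h, ← mul_div_assoc, mul_sum]
  simp only [mul_assoc]
  rw [sum_R h fun x => ker v (R e - x) * ((x j - R e j) / v j)]
  congr 1
  refine sum_congr rfl fun ω _ => ?_
  rw [ker_R, R, R]
  ring

end PMx

theorem p_PM (hMIX : S_MIX) :
    S_PM := by
  intro d P m v h _
  have e := PMx.int_R fun e => (P.edge m).sc v 0 e * (P.edge m).sc v 1 e * (P.edge m).den v e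
  simp only [PMx.sc_R h, PMx.den_R h, PMx.sg, Matrix.cons_val_zero, Matrix.cons_val_one, one_mul,
    neg_mul, mul_neg, integral_neg] at e
  rw [Mix.Ex]
  linarith

end Pool.Agent.P.MP_6b977f_mp.RG
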