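import Pool.Agent.P.MP_6b977f_mp.RG.IfaceB
import Pool.Agent.P.MP_6b977f_mp.RG.Lib37

/-! Step SIM. -/

namespace Pool.Agent.P.MP_6b977f_mp.RG

open Finset MeasureTheory Real
open scoped Classical

namespace SIMx
open L37

theorem iter {d N : ℕ} (j : ℕ) (hN : 2 * (2 * d + 3 + j) ≤ N) :
    #((Cf d N).filter fun M => #(bad M) ≤ j) ≤
      (1 + 2 * ((d + 1) * d)) ^ j * #((Cf d N).filter Simple) := by
  induction j with
  | zero =>
    rw [pow_zero, one_mul]
    refine card_le_card (monotone_filter_right _ fun M _ h => ?_)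
    have h0 : ∀ z, ¬ Bad M z := fun z hz =>
      (card_pos.2 ⟨z, mem_filter.2 ⟨mem_univ _, hz⟩⟩).not_ge h
    exact ⟨fun z e => h0 z (.inl e), fun x i j e => by_contra fun n =>
      h0 (x, j) (.inr ⟨(x, i), fun e => n (congrArg Prod.snd e), rfl, e⟩)⟩
  | succ j ih =>
    rw [pow_succ', mul_assoc]
    exact (level j hN).trans (Nat.mul_le_mul_left _ (ih (by omega)))

theorem half {d N : ℕ} (hN : 4 ≤ N) :
    #(Cf d N) ≤ 2 * #((Cf d N).filter fun M => #(bad M) ≤ 4 * ((d + 1) * d)) := by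
  have a := card_filter_add_card_filter_not (s := Cf d N) fun M => #(bad M) ≤ 4 * ((d + 1) * d)
  have b := card_nsmul_le_sum ((Cf d N).filter fun M => ¬ #(bad M) ≤ 4 * ((d + 1) * d))
    (fun M => #(bad M)) (4 * ((d + 1) * d) + 1) fun M hM => not_le.1 (mem_filter.1 hM).2
  have c := b.trans ((sum_le_sum_of_subset (filter_subset _ _)).trans (moment hN))
  rw [smul_eq_mul] at c
  by_contra! n
  rw [← a] at c n
  generalize (d + 1) * d = K at *
  rw [two_mul, Nat.add_lt_add_iff_left] at n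
  nlinarith [Nat.mul_le_mul_left K n.le]

end SIMx

theorem p_SIM (hM2 : S_M2) :
    S_SIM := by
  intro d
  refine ⟨1 / (2 * (1 + 2 * ((d + 1) * d)) ^ (4 * ((d + 1) * d)) : ℕ),
    2 * (2 * d + 3 + 4 * ((d + 1) * d)), by positivity, fun N hN => ?_⟩
  rw [one_div, inv_mul_le_iff₀ (by positivity)]
  exact_mod_cast (SIMx.half (by omega)).trans
    ((Nat.mul_le_mul_left 2 (SIMx.iter _ hN)).trans_eq (mul_assoc _ _ _).symm)

end Pool.Agent.P.MP_6b977f_mp.RG
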