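import Pool.Agent.P.MP_6b977f_mp.RG.IfaceA
import Pool.Agent.P.MP_6b977f_mp.RG.Lib91

/-! Step TAIL. -/

namespace Pool.Agent.P.MP_6b977f_mp.RG

open Finset MeasureTheory Real
open scoped Classical

namespace TAILx

theorem g1_le {v : ℝ} (h : 1 ≤ v) (u : ℝ) : g1 v u ≤ 1 :=
  div_le_one_of_le₀ ((exp_le_one_iff.2 (div_nonpos_of_nonpos_of_nonneg (by nlinarith [sq_nonneg u])
    (by linarith))).trans (one_le_sqrt.2 (by nlinarith [two_le_pi]))) (sqrt_nonneg _)

theorem le_g1 {v u : ℝ} (h : 1 ≤ v) (h' : v ≤ 3) (hu : |u| ≤ 1) : 1 / 10 ≤ g1 v u := by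
  have a1 : u ^ 2 ≤ 1 := (sq_le_one_iff_abs_le_one u).2 hu
  have a2 : -(1 / 2) ≤ -u ^ 2 / (2 * v) := by rw [le_div_iff₀ (by linarith)]; linarith
  have a3 : √(2 * π * v) ≤ 5 := sqrt_le_iff.2 ⟨by norm_num, by nlinarith [pi_le_four, pi_pos]⟩
  rw [g1, le_div_iff₀ (sqrt_pos.2 (by positivity))]
  linarith [add_one_le_exp (-u ^ 2 / (2 * v))]

theorem den_le {d : ℕ} (hMIX : S_MIX) (hDER : S_DER) (F : Mix (VI d)) {v θ s T : ℝ} (h : 1 ≤ v)
    (hs : 0 ≤ s) (hN : NL F v θ s T) (y : VI d → ℝ) (hy : ‖y‖ ≤ T) :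
    F.den (fun _ => v) y ≤ exp (d * (s * T) - θ / 2 * ∑ k, y (some k) ^ 2) := by
  have v0 : ∀ _ : VI d, 0 < v := fun _ => by linarith
  have p := (hMIX _ F _ v0).1
  let w : VI d → ℝ := fun j => j.elim 0 fun k => y (some k)
  let z : ℝ → VI d → ℝ := fun u => (y - w) + u • w
  have a1 : ∀ u : ℝ, HasDerivAt (fun u => log (F.den (fun _ => v) (z u)) +
      θ / 2 * (∑ k, y (some k) ^ 2) * u ^ 2)
      (∑ k, y (some k) * (F.sc (fun _ => v) (some k) (z u) + θ * z u (some k))) u := fun u => by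
    have b1 : HasDerivAt z w u :=
      (((hasDerivAt_id u).smul_const w).const_add (y - w)).congr_deriv (one_smul _ _)
    have b2 := ((hDER _ F _ (z u) v0).2.1.comp_hasDerivAt u b1).add
      ((hasDerivAt_pow 2 u).const_mul (θ / 2 * ∑ k, y (some k) ^ 2))
    refine b2.congr_deriv ?_
    have b3 : ∀ k, z u (some k) = u * y (some k) := fun k => by simp [z, w]
    rw [lin_apply, Fintype.sum_option, mul_sum, sum_mul, show w none = 0 from rfl, mul_zero,
      zero_add, ← sum_add_distrib]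
    refine sum_congr rfl fun k _ => ?_
    rw [b3, show w (some k) = y (some k) from rfl]
    push_cast
    ring
  obtain ⟨u, hu, e⟩ := exists_hasDerivAt_eq_slope _ _ one_pos
    (fun u _ => (a1 u).continuousAt.continuousWithinAt) fun u _ => a1 u
  have T0 : 0 ≤ T := (norm_nonneg _).trans hy
  have a2 : ‖z u‖ ≤ T := (pi_norm_le_iff_of_nonneg T0).2 fun j => by
    refine le_trans ?_ ((norm_le_pi_norm y j).trans hy)
    cases j with
    | none => simp [z, w]
    | some k => simpa [z, w, abs_of_pos hu.1] using mul_le_of_le_one_left (abs_nonneg _) hu.2.le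
  have a3 : ∑ k, y (some k) * (F.sc (fun _ => v) (some k) (z u) + θ * z u (some k)) ≤
      d * (s * T) := by
    refine (sum_le_card_nsmul _ _ (s * T) fun k _ => (le_abs_self _).trans ?_).trans ?_
    · rw [abs_mul, mul_comm]
      exact mul_le_mul (hN _ a2 k) ((norm_le_pi_norm y _).trans hy) (abs_nonneg _) hs
    · rw [card_univ, Fintype.card_fin, nsmul_eq_mul]
      exact mul_le_mul_of_nonneg_right (Nat.cast_le.2 (Nat.sub_le d 1)) (mul_nonneg hs T0)
  have a4 : log (F.den (fun _ => v) (z 0)) ≤ 0 := log_nonpos (p _).le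
    ((sum_le_sum fun ω _ => mul_le_of_le_one_right (F.p0 ω)
      (prod_le_one (fun _ _ => (g1_pos (v0 none) _).le) fun _ _ => g1_le h _)).trans_eq F.p1)
  rw [show z 1 = y by simp [z]] at e
  rw [← log_le_iff_le_exp (p y)]
  linarith

end TAILx

theorem p_TAIL (hKER : S_KER) (hKT : S_KT) (hMIX : S_MIX) (hDER : S_DER) (hPOST : S_POST) :
    S_TAIL := by
  intro d c hc
  have C1 : 1 ≤ (30 : ℝ) ^ d * exp d :=
    one_le_mul_of_one_le_of_one_le (one_le_pow₀ (by norm_num)) (one_le_exp (Nat.cast_nonneg _))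
  refine ⟨30 ^ d * exp d, c / 2, C1, by positivity, ?_⟩
  intro P F v θ s T τ v1 v3 hT hs hsT hθ hN τ0
  have T1 : 1 ≤ T := C1.trans hT
  have h := X91.tail F.p F.x (fun _ => g1 v) (1 / 10) (T / 2) (exp d * exp (-(c / 2 * τ ^ 2))) F.p0
    (by norm_num) (fun _ _ => (g1_pos (by linarith) _).le) (fun _ _ => TAILx.le_g1 v1 v3)
    (by linarith) (by positivity)
    (univ.filter fun ω => ‖F.x ω‖ ≤ T / 2 ∧ ∃ i, τ ≤ |P.ci i (F.x ω)|) fun ω hω => by
      obtain ⟨h1, i, h2⟩ := (mem_filter.1 hω).2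
      refine ⟨fun j => (norm_le_pi_norm _ j).trans h1,
        (TAILx.den_le hMIX hDER F v1 hs hN _ (by linarith)).trans ?_⟩
      rw [← exp_add, exp_le_exp]
      have a1 := sum_mul_sq_le_sq_mul_sq univ (P.e i) fun k => F.x ω (some k)
      have a2 : ∑ k, P.e i k ^ 2 = 1 := by simpa [sq] using P.e1 i i
      have a3 : τ ^ 2 ≤ ∑ k, F.x ω (some k) ^ 2 := by
        rw [a2, one_mul] at a1
        exact (sq_le_sq.2 (by rwa [abs_of_nonneg τ0])).trans a1
      nlinarith [mul_le_of_le_one_right (Nat.cast_nonneg (α := ℝ) d) hsT,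
        mul_le_mul hθ a3 (sq_nonneg _) (hc.le.trans hθ)]
  rw [Fintype.card_option, Fintype.card_fin, Nat.sub_add_cancel (by have := P.hd; omega),
    one_div_pow, one_div, inv_mul_le_iff₀ (by positivity)] at h
  simp only [Mix.E, ind, mul_ite, mul_one, mul_zero, ← sum_filter]
  refine h.trans ?_
  have a := pow_le_pow_left₀ (by linarith) (show 10 * (2 * (T / 2) + 2) ≤ 30 * T by linarith) d
  rw [mul_pow, mul_pow] at a
  linarith [mul_le_mul_of_nonneg_right a
    (show 0 ≤ exp d * exp (-(c / 2 * τ ^ 2)) by positivity)]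

end Pool.Agent.P.MP_6b977f_mp.RG
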