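import Pool.Agent.P.MP_6b977f_mp.RG.IfaceB
import Pool.Agent.P.MP_6b977f_mp.RG.TFIB

/-! Step TR. -/

namespace Pool.Agent.P.MP_6b977f_mp.RG

open Finset MeasureTheory Real
open scoped Classical

namespace TRx
variable {d N : ℕ} {M : Cfg d N}

theorem sum_enum (hM : M ∈ Cf d N) (hs : Simple M) (x : Fin N) (F : (Fin d → Fin N) → ℂ) :
    ∑ e ∈ enum d (graph M) x, F e = ∑ σ : Equiv.Perm (Fin d), F fun i => tip M (x, σ i) := by
  have inj : Function.Injective fun (σ : Equiv.Perm (Fin d)) i => tip M (x, σ i) :=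
    fun σ τ e => Equiv.ext fun i => hs.2 x _ _ (congrFun e i)
  rw [← sum_image (s := univ) (f := F) fun _ _ _ _ e => inj e]
  refine sum_congr (eq_of_subset_of_card_le (image_subset_iff.2 fun σ _ => mem_filter.2
    ⟨mem_univ _, fun i j e => σ.injective (hs.2 x _ _ e),
      fun i => (FIBx.adj_iff hM hs _ _).2 ⟨_, rfl⟩⟩) ?_).symm fun _ _ => rfl
  rw [card_image_of_injective _ inj]
  exact (FIBx.card_enum (FIBx.reg hM hs) x).trans_le (by simp [Fintype.card_perm])

end TRx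

theorem p_TR :
    S_TR := by
  intro d N M κ R ε hM hs hN H ψ lam h1 h2 h3 s t h4
  have e : Eig M ψ lam := ⟨fun x => by
    rw [← h1, adj, ← sum_image (s := univ) (f := ψ) fun i _ j _ e => hs.2 x i j e]
    exact sum_congr (by ext; simp [FIBx.adj_iff hM hs]) fun _ _ => rfl, h2⟩
  have k : ∀ σ : Equiv.Perm (Fin d),
      ‖chi M ψ s (t ∘ σ.symm) - (exp (-cov d lam s t / 2) : ℝ)‖ ≤ ε := fun σ => by
    have := H ψ lam e h3 s (t ∘ σ.symm) (by
      rwa [show ∑ i, |(t ∘ σ.symm) i| = ∑ i, |t i| from Equiv.sum_comp σ.symm fun i => |t i|])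
    rwa [cov, show ∑ i, (t ∘ σ.symm) i = ∑ i, t i from Equiv.sum_comp σ.symm t,
      show ∑ i, (t ∘ σ.symm) i ^ 2 = ∑ i, t i ^ 2 from Equiv.sum_comp σ.symm fun i => t i ^ 2]
      at this
  have f0 : (d.factorial : ℂ) ≠ 0 := by exact_mod_cast d.factorial_ne_zero
  have n0 : (N : ℂ) ≠ 0 := by exact_mod_cast (by omega : N ≠ 0)
  have : (∑ x, ∑ e ∈ enum d (graph M) x,
      Complex.exp (Complex.I * (s * ψ x + ∑ i, t i * ψ (e i) : ℝ))) / (N * d.factorial) -
      (exp (-cov d lam s t / 2) : ℝ) = (∑ σ : Equiv.Perm (Fin d),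
        (chi M ψ s (t ∘ σ.symm) - (exp (-cov d lam s t / 2) : ℝ))) / d.factorial := by
    simp only [TRx.sum_enum hM hs]
    rw [sum_comm, sum_sub_distrib, sub_div, sum_const, card_univ, Fintype.card_perm,
      Fintype.card_fin, nsmul_eq_mul, mul_div_cancel_left₀ _ f0, ← div_div, sum_div]
    congr 2
    refine sum_congr rfl fun σ _ => congrArg (· / _) (sum_congr rfl fun x _ => ?_)
    rw [ch, ← Equiv.sum_comp σ fun i => (t ∘ σ.symm) i * star M ψ x (some i)]
    simp [star]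
  rw [this, norm_div, Complex.norm_natCast, div_le_iff₀ (by exact_mod_cast d.factorial_pos)]
  refine (norm_sum_le _ _).trans ((sum_le_card_nsmul _ _ _ fun σ _ => k σ).trans_eq ?_)
  simp [Fintype.card_perm, mul_comm]

end Pool.Agent.P.MP_6b977f_mp.RG
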