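import Pool.Agent.P.MP_6b977f_mp.RG.IfaceB
import Pool.Agent.P.MP_6b977f_mp.RG.LibVol

/-! Step VOL. -/

namespace Pool.Agent.P.MP_6b977f_mp.RG

open Finset MeasureTheory Real
open scoped Classical

theorem p_VOL :
    S_VOL := by
  intro d N M ψ lam δ η γ ζ z hM hd hN hlam hη hδ h1 h2 hz _ hψ
  have : Nonempty (Fin N) := ⟨⟨0, hN⟩⟩
  have hA : (Am M).IsHermitian := by
    ext x y
    simp [Matrix.conjTranspose_apply, Am_symm hM x y]
  have hζ : 0 < ζ := by linarith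
  have hγ : 0 < γ := by
    by_contra hc
    nlinarith [mul_nonneg (neg_nonneg.2 (not_lt.1 hc)) hζ.le]
  have hd' : (1 : ℝ) ≤ d := by exact_mod_cast hd
  have hN' : (0 : ℝ) < N := by exact_mod_cast hN
  obtain ⟨F, hF⟩ := C22.exists_ball_finset ψ δ (ζ ^ 2 * N) hδ
  refine ⟨F, fun φ h => (hF φ).1 h, ?_⟩
  have hD : ∀ u : Fin N → ℝ, ∑ x, (((Am M).mulVec u) x - lam * u x) ^ 2 ≤
      (2 * d) ^ 2 * ∑ x, u x ^ 2 := by
    intro u
    rw [Am_mulVec]
    have a1 := adj_sq_le M u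
    have a2 : lam ^ 2 ≤ (d : ℝ) ^ 2 := sq_le_sq' (abs_le.1 hlam).1 (abs_le.1 hlam).2
    have a3 : 0 ≤ ∑ x, u x ^ 2 := sum_nonneg fun _ _ => sq_nonneg _
    calc ∑ x, (adj M u x - lam * u x) ^ 2 ≤ ∑ x, (2 * adj M u x ^ 2 + 2 * lam ^ 2 * u x ^ 2) :=
          sum_le_sum fun x _ => by nlinarith [sq_nonneg (adj M u x + lam * u x)]
      _ = 2 * ∑ x, adj M u x ^ 2 + 2 * lam ^ 2 * ∑ x, u x ^ 2 := by
          rw [sum_add_distrib, ← mul_sum, ← mul_sum]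
      _ ≤ _ := by nlinarith [mul_le_mul_of_nonneg_right a2 a3]
  have h := C22.vol_main (Am M) hA lam γ η δ ζ z (2 * d) ψ hD hγ hη hδ hz (by linarith)
    (by linarith) (by rw [Am_mulVec, Fintype.card_fin]; exact hψ) F
    (fun φ h => (hF φ).2 (by rwa [Fintype.card_fin] at h))
  rw [Fintype.card_fin, ← C22.log_det_eq (Am M) hA lam γ hγ.ne'] at h
  refine le_trans ?_ (h.trans (le_of_eq (sum_congr rfl fun φ _ => ?_)))
  · rw [div_eq_inv_mul, ← one_div]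
    refine mul_le_mul_of_nonneg_left (exp_le_exp.2 ?_) (by norm_num)
    have e : N * LD M lam γ =
        1 / 2 * log ((Am M - lam • 1) * (Am M - lam • 1) + γ ^ 2 • 1).det := by
      unfold LD; field_simp
    have b : (1 + (2 * (d : ℝ)) ^ 2) * δ ^ 2 / (z * η ^ 2) ≤ 10 * d ^ 2 * δ ^ 2 / (z * η ^ 2) := by
      gcongr; nlinarith
    have b2 := mul_le_mul_of_nonneg_left b hN'.le
    convert (by linarith : (N : ℝ) * (log (2 * π * η ^ 2) / 2 - log δ - LD M lam γ -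
      10 * d ^ 2 * δ ^ 2 / (z * η ^ 2)) ≤ N * (-log δ + 1 / 2 * log (2 * π * η ^ 2) -
      (1 + (2 * (d : ℝ)) ^ 2) * δ ^ 2 / (z * η ^ 2)) - N * LD M lam γ) using 2
    rw [e]
  · rw [Am_mulVec, neg_mul]
    simp only [Wd_star, one_mul]

end Pool.Agent.P.MP_6b977f_mp.RG
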