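import Pool.Agent.P.MP_6b977f_mp.RG.TEIG
import Pool.Agent.P.MP_6b977f_mp.RG.TPAIR
import Pool.Agent.P.MP_6b977f_mp.RG.TM2
import Pool.Agent.P.MP_6b977f_mp.RG.TFM
import Pool.Agent.P.MP_6b977f_mp.RG.TVOL
import Pool.Agent.P.MP_6b977f_mp.RG.TKEY
import Pool.Agent.P.MP_6b977f_mp.RG.TFR
import Pool.Agent.P.MP_6b977f_mp.RG.TKER
import Pool.Agent.P.MP_6b977f_mp.RG.TMIX
import Pool.Agent.P.MP_6b977f_mp.RG.TDER
import Pool.Agent.P.MP_6b977f_mp.RG.TIBP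
import Pool.Agent.P.MP_6b977f_mp.RG.TDB
import Pool.Agent.P.MP_6b977f_mp.RG.TFD
import Pool.Agent.P.MP_6b977f_mp.RG.TPUSH
import Pool.Agent.P.MP_6b977f_mp.RG.TEP
import Pool.Agent.P.MP_6b977f_mp.RG.TPM
import Pool.Agent.P.MP_6b977f_mp.RG.TORT
import Pool.Agent.P.MP_6b977f_mp.RG.TFISH
import Pool.Agent.P.MP_6b977f_mp.RG.TGIB
import Pool.Agent.P.MP_6b977f_mp.RG.THLO
import Pool.Agent.P.MP_6b977f_mp.RG.TINF
import Pool.Agent.P.MP_6b977f_mp.RG.TLS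
import Pool.Agent.P.MP_6b977f_mp.RG.TJAC
import Pool.Agent.P.MP_6b977f_mp.RG.TRIE
import Pool.Agent.P.MP_6b977f_mp.RG.TLAT1
import Pool.Agent.P.MP_6b977f_mp.RG.TLAT2
import Pool.Agent.P.MP_6b977f_mp.RG.TLSYM
import Pool.Agent.P.MP_6b977f_mp.RG.TELL
import Pool.Agent.P.MP_6b977f_mp.RG.TAN
import Pool.Agent.P.MP_6b977f_mp.RG.TLOW
import Pool.Agent.P.MP_6b977f_mp.RG.TDET
import Pool.Agent.P.MP_6b977f_mp.RG.TSP
import Pool.Agent.P.MP_6b977f_mp.RG.TMASSP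
import Pool.Agent.P.MP_6b977f_mp.RG.TNB
import Pool.Agent.P.MP_6b977f_mp.RG.TNL
import Pool.Agent.P.MP_6b977f_mp.RG.TPOST
import Pool.Agent.P.MP_6b977f_mp.RG.TTH
import Pool.Agent.P.MP_6b977f_mp.RG.TKT
import Pool.Agent.P.MP_6b977f_mp.RG.TTAIL
import Pool.Agent.P.MP_6b977f_mp.RG.TAN1
import Pool.Agent.P.MP_6b977f_mp.RG.TCA
import Pool.Agent.P.MP_6b977f_mp.RG.TAN2
import Pool.Agent.P.MP_6b977f_mp.RG.TCB
import Pool.Agent.P.MP_6b977f_mp.RG.TNET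
import Pool.Agent.P.MP_6b977f_mp.RG.TCONF
import Pool.Agent.P.MP_6b977f_mp.RG.TSIM
import Pool.Agent.P.MP_6b977f_mp.RG.TFIB
import Pool.Agent.P.MP_6b977f_mp.RG.TTR
import Pool.Agent.P.MP_6b977f_mp.RG.TMAIN

/-! All steps put together. -/

namespace Pool.Agent.P.MP_6b977f_mp.RG

theorem a_EIG : S_EIG := p_EIG

theorem a_PAIR : S_PAIR := p_PAIR

theorem a_M2 : S_M2 := p_M2 a_PAIR

theorem a_FM : S_FM := p_FM

theorem a_VOL : S_VOL := p_VOL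

theorem a_KEY : S_KEY := p_KEY a_FM a_VOL

theorem a_FR : S_FR := p_FR

theorem a_KER : S_KER := p_KER

theorem a_MIX : S_MIX := p_MIX a_KER

theorem a_DER : S_DER := p_DER a_MIX

theorem a_IBP : S_IBP := p_IBP a_MIX a_DER

theorem a_DB : S_DB := p_DB a_KER a_MIX a_DER a_IBP

theorem a_FD : S_FD := p_FD a_DB

theorem a_PUSH : S_PUSH := p_PUSH a_KER

theorem a_EP : S_EP := p_EP a_PUSH a_MIX

theorem a_PM : S_PM := p_PM a_MIX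

theorem a_ORT : S_ORT := p_ORT a_MIX a_IBP a_EP

theorem a_FISH : S_FISH := p_FISH a_MIX a_DER a_EP a_PM a_ORT

theorem a_GIB : S_GIB := p_GIB a_MIX

theorem a_HLO : S_HLO := p_HLO a_KER a_MIX

theorem a_INF : S_INF := p_INF a_KER a_MIX a_GIB a_HLO a_FD a_FISH

theorem a_LS : S_LS := p_LS a_KER a_MIX

theorem a_JAC : S_JAC := p_JAC

theorem a_RIE : S_RIE := p_RIE a_KER a_JAC

theorem a_LAT1 : S_LAT1 := p_LAT1 a_LS a_RIE

theorem a_LAT2 : S_LAT2 := p_LAT2 a_KER a_MIX a_GIB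

theorem a_LSYM : S_LSYM := p_LSYM

theorem a_ELL : S_ELL := p_ELL

theorem a_AN : S_AN := p_AN a_FD a_FISH a_INF a_LAT1 a_LAT2 a_LSYM a_ELL

theorem a_LOW : S_LOW := p_LOW a_KEY a_FR a_AN

theorem a_DET : S_DET := p_DET a_EIG a_M2 a_LOW

theorem a_SP : S_SP := p_SP a_PAIR

theorem a_MASSP : S_MASSP := p_MASSP

theorem a_NB : S_NB := p_NB

theorem a_NL : S_NL := p_NL

theorem a_POST : S_POST := p_POST

theorem a_TH : S_TH := p_TH a_DER a_POST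

theorem a_KT : S_KT := p_KT a_KER

theorem a_TAIL : S_TAIL := p_TAIL a_KER a_KT a_MIX a_DER a_POST

theorem a_AN1 : S_AN1 := p_AN1 a_AN a_LSYM a_NL a_TH a_TAIL

theorem a_CA : S_CA := p_CA a_KEY a_FR a_AN1

theorem a_AN2 : S_AN2 := p_AN2 a_AN a_LSYM a_NL a_DER

theorem a_CB : S_CB := p_CB a_KEY a_FR a_AN2

theorem a_NET : S_NET := p_NET

theorem a_CONF : S_CONF := p_CONF a_DET a_SP a_MASSP a_NB a_CA a_CB a_NET

theorem a_SIM : S_SIM := p_SIM a_M2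

theorem a_FIB : S_FIB := p_FIB

theorem a_TR : S_TR := p_TR

theorem a_MAIN : S_MAIN := p_MAIN a_CONF a_SIM a_FIB a_TR


end Pool.Agent.P.MP_6b977f_mp.RG
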