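import Pool.Agent.P.MP_6b977f_mp.RG.IfaceU

/-! Step AN3. -/

namespace Pool.Agent.P.MP_6b977f_mp.RG

open Finset MeasureTheory Real
open scoped Classical

theorem p_AN3 (hUENT : S_UENT) (hUSY : S_USY) (hUPROD : S_UPROD) (hUL1 : S_UL1) (hUCE : S_UCE) (hUXI : S_UXI) (hUCP : S_UCP) (hUBND : S_UBND) (hUREC : S_UREC) :
    S_AN3 := by
  intro d T K ε ε0
  by_cases hd : 3 ≤ d
  swap
  · exact ⟨1, one_pos, fun P => (hd P.hd).elim⟩
  have d3 : (3 : ℝ) ≤ d := by exact_mod_cast hd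
  obtain ⟨K', KK, hB⟩ := hUBND d T K hd
  obtain ⟨C, C0, hC⟩ := hUREC d T
  obtain ⟨M, M1, KM⟩ : ∃ M : ℝ, 1 ≤ M ∧ K' ≤ M := ⟨max 1 K', le_max_left _ _, le_max_right _ _⟩
  obtain ⟨e, e0, e1, eC⟩ : ∃ e : ℝ, 0 < e ∧ e ≤ 1 ∧ C * e ≤ ε :=
    ⟨min 1 (ε / (C + 1)), by positivity, min_le_left _ _,
      (mul_le_mul_of_nonneg_left (min_le_right _ _) C0).trans (by
        rw [mul_div_assoc', div_le_iff₀ (by positivity)]; nlinarith)⟩
  obtain ⟨W, hW⟩ : ∃ W : ℝ, W = 1 + 3 * (d + 2) ^ 2 := ⟨_, rfl⟩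
  have W1 : 1 ≤ W := by rw [hW]; nlinarith
  obtain ⟨D, hD⟩ : ∃ D : ℝ, D = (d + 1) ^ 2 * M := ⟨_, rfl⟩
  have MD : M ≤ D := by rw [hD]; exact le_mul_of_one_le_left (by linarith) (by nlinarith)
  have DW : 1 ≤ D * W := one_le_mul_of_one_le_of_one_le (M1.trans MD) W1
  obtain ⟨x, x0, hx⟩ : ∃ x : ℝ, 0 < x ∧ (D * W + 2) * x = e ^ 2 / (4 * (d + 1)) :=
    ⟨e ^ 2 / (4 * (d + 1)) / (D * W + 2), by positivity, by field_simp⟩
  have xe : (D * W + 2) * x ≤ e / 2 := by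
    rw [hx, div_le_div_iff₀ (by positivity) two_pos]; nlinarith
  have DWx := mul_pos (one_pos.trans_le DW) x0
  have x2 : x ≤ 1 := by linarith
  have x1 : x ^ 2 ≤ x := pow_le_of_le_one x0.le x2 two_ne_zero
  obtain ⟨ε2, p2, h2⟩ := hUCE d ((d + 1) * M) (x ^ 2) (e / 2) (by positivity) (half_pos e0)
  obtain ⟨ε3, p3, h3⟩ := hUL1 (VI d) (x ^ 2) ε2 (by positivity) p2
  obtain ⟨z, z0, hz⟩ : ∃ z : ℝ, 0 < z ∧ 4 * d ^ 2 * (1 / ε3) * (3 * z) = ε3 / 2 :=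
    ⟨ε3 ^ 2 / (24 * d ^ 2), by positivity, by field_simp; ring⟩
  obtain ⟨ε1, p1, a1, a2, a3, a4, a5, a6, a7⟩ : ∃ ε1 : ℝ, 0 < ε1 ∧ ε1 ≤ x ∧ ε1 ≤ ε3 / 2 ∧
      ε1 ≤ ε3 / (4 * d ^ 2) ∧ ε1 ≤ z ^ 2 / 3300 ∧ ε1 ≤ z ∧ ε1 ≤ ε2 / 3300 ∧ ε1 ≤ 1 / D := by
    have : 0 < D := by linarith
    refine ⟨min (min (min x (ε3 / 2)) (min (ε3 / (4 * d ^ 2)) (z ^ 2 / 3300)))
      (min (min z (ε2 / 3300)) (1 / D)), by positivity, ?_, ?_, ?_, ?_, ?_, ?_, ?_⟩ <;>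
      simp only [min_le_iff, le_refl, true_or, or_true]
  refine ⟨ε1, p1, fun P μ vl mk δ η t al be Q cc inj rc bt hS δ0 δ1 η0 hg hWd hch => ?_⟩
  obtain ⟨n, κ, k0, k1, hH⟩ := hUENT d P T.A μ vl mk δ η (min (x ^ 2) ε2) (x ^ 2) inj hS δ0 η0
    (by positivity) (by positivity) (by linarith)
  have k2 := k1.trans (min_le_left _ _)
  have bt' : ∀ p, |t p| ≤ M := fun p => (bt p).trans (KK.trans KM)
  obtain ⟨c1, c2, c3, c4, c5⟩ := hUCP d P T μ vl mk t δ κ (x ^ 2) x M n δ0 k0 (by positivity) x0 bt'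
  have hN : δ + (d + 2) ^ 2 * (x + (κ ^ 2 + x ^ 2) / x) ≤ W * x := by
    have : (κ ^ 2 + x ^ 2) / x ≤ 2 * x := by rw [div_le_iff₀ x0]; linarith
    rw [hW]
    linarith [mul_le_mul_of_nonneg_left this (sq_nonneg ((d : ℝ) + 2))]
  have om : (P.mixU μ vl δ n).E (fun y => y none ^ 2) ≤ 3300 * ε1 := by
    linarith [pow_le_of_le_one δ0.le (δ1.trans (a1.trans x2)) two_ne_zero]
  have sy := hUSY d P T.A μ vl mk δ n hS
  rw [← c5]
  refine (hC P _ _ κ (x ^ 2) t al be Q cc M e ⟨sy, k0, by positivity, rc, bt', fun p hp => ?_, ?_,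
    ?_, fun s τ hs hτ => ?_⟩).trans eC
  · obtain ⟨b1, b2, b3⟩ := hB P.lam t al be Q cc P.abs_lam rc bt p hp
    exact ⟨b1.trans KM, b2.trans KM, b3⟩
  · have := hUPROD d P T _ _ κ (x ^ 2) (e ^ 2 / (4 * (d + 1))) (e / 4) t sy k0 (by positivity)
      (by positivity) (by
        have b1 := mul_le_mul MD hN (by positivity) (by linarith)
        have b2 := min_le_left (x ^ 2) ε2
        rw [Law.gapU] at hg
        linarith)
    rwa [show (d + 1) * (e ^ 2 / (4 * (d + 1))) / (2 * (e / 4)) + 2 * (e / 4) = e by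
      field_simp; ring] at this
  · refine fun j s τ H b1 b2 b3 b4 => (h2 P _ κ k0 (k1.trans (min_le_right _ _)) (by linarith)
      (h3 _ _ (le_add_of_nonneg_left (sq_nonneg _)) (by linarith) fun ξ hξ => ?_) j s τ H b1 b2 b3 b4).trans (by linarith)
    obtain ⟨s, τ, f1, f2, f3⟩ := hUXI d P (P.mixU μ vl δ n) ξ z z0
    have f4 : 4 * d ^ 2 * ‖ξ‖ ≤ 4 * d ^ 2 * (1 / ε3) := by gcongr
    have f5 := hch s τ (f1.trans (f4.trans (by
      rw [mul_one_div, ← one_div_div]; exact one_div_le_one_div_of_le p1 a3)))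
    have f6 : (P.mixU μ vl δ n).E (fun y => y none ^ 2) / z ≤ z := by
      rw [div_le_iff₀ z0]; linarith
    have f0 : 0 ≤ (P.mixU μ vl δ n).E fun y => y none ^ 2 :=
      (Mix.E_const _ 0).symm.trans_le (Mix.E_mono _ fun _ => sq_nonneg _)
    have f7 := f3.trans (mul_le_mul f4 (add_le_add le_rfl f6) (by positivity) (by positivity))
    have f8 := (c3 s τ).trans (mul_le_mul (f1.trans f4) (δ1.trans a5) δ0.le (by positivity))
    rw [f2] at f5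
    exact (norm_sub_le_norm_sub_add_norm_sub _ _ _).trans ((add_le_add f7
      ((norm_sub_le_norm_sub_add_norm_sub _ _ _).trans (add_le_add f8 f5))).trans (by linarith))
  · have f1 : |s| + ∑ i, |τ i| ≤ D := by
      have := sum_le_card_nsmul univ _ _ fun i _ => hτ i
      rw [card_univ, Fintype.card_fin, nsmul_eq_mul] at this
      rw [hD]; linarith
    have f2 := (c4 s τ).trans (mul_le_mul f1 hN (by positivity) (by linarith))
    have f3 := hch s τ (f1.trans ((le_one_div (by linarith) p1).2 a7))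
    exact (norm_sub_le_norm_sub_add_norm_sub _ _ _).trans ((add_le_add f2 f3).trans (by linarith))

end Pool.Agent.P.MP_6b977f_mp.RG
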