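import Pool.Agent.P.MP_6b977f_mp.RG.IfaceB

/-! Step NET. -/

namespace Pool.Agent.P.MP_6b977f_mp.RG

open Finset MeasureTheory Real
open scoped Classical

namespace NETx

theorem exp_lip (x y : ℝ) :
    ‖Complex.exp (Complex.I * (x : ℂ)) - Complex.exp (Complex.I * (y : ℂ))‖ ≤ |x - y| := by
  have h : Complex.exp (Complex.I * (x : ℂ)) - Complex.exp (Complex.I * (y : ℂ)) =
      Complex.exp (Complex.I * (y : ℂ)) * (Complex.exp (Complex.I * ((x - y : ℝ) : ℂ)) - 1) := by
    rw [mul_sub, ← Complex.exp_add, mul_one]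
    congr 2
    push_cast
    ring
  rw [h, norm_mul, mul_comm Complex.I (y : ℂ), Complex.norm_exp_ofReal_mul_I, one_mul]
  simpa using Real.norm_exp_I_mul_ofReal_sub_one_le (x := x - y)

theorem sum_abs {N : ℕ} (ψ : Fin N → ℝ) (h : ∑ x, ψ x ^ 2 = N) : ∑ x, |ψ x| ≤ N := by
  have : ∑ x, |ψ x| ≤ ∑ x, (1 + ψ x ^ 2) / 2 := sum_le_sum fun x _ => by
    nlinarith [sq_nonneg (|ψ x| - 1), sq_abs (ψ x)]
  rw [← sum_div, sum_add_distrib, h] at this
  simp only [sum_const, card_univ, Fintype.card_fin, nsmul_eq_mul, mul_one] at this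
  linarith

theorem chi_lip {d N : ℕ} (M : Cfg d N) (ψ : Fin N → ℝ) (hN : 1 ≤ N) (h : ∑ x, ψ x ^ 2 = N)
    (s s' : ℝ) (t t' : Fin d → ℝ) (δ : ℝ) (hs : |s - s'| ≤ δ) (ht : ∀ i, |t i - t' i| ≤ δ) :
    ‖chi M ψ s t - chi M ψ s' t'‖ ≤ (d + 1) * δ := by
  have hδ : 0 ≤ δ := (abs_nonneg _).trans hs
  have hN' : (0 : ℝ) < N := by exact_mod_cast hN
  unfold chi
  rw [← sub_div, ← sum_sub_distrib, norm_div, Complex.norm_natCast, div_le_iff₀ hN']
  refine (norm_sum_le _ _).trans ?_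
  have h1 : ∀ x, ‖ch s t (star M ψ x) - ch s' t' (star M ψ x)‖ ≤
      δ * (|ψ x| + ∑ i, |ψ (tip M (x, i))|) := by
    intro x
    refine (exp_lip _ _).trans ?_
    have e : s * star M ψ x none + ∑ i, t i * star M ψ x (some i) -
        (s' * star M ψ x none + ∑ i, t' i * star M ψ x (some i)) =
        (s - s') * ψ x + ∑ i, (t i - t' i) * ψ (tip M (x, i)) := by
      simp only [star, Option.elim, sub_mul, sum_sub_distrib]
      ring
    rw [e, mul_add, mul_sum]
    refine (abs_add_le _ _).trans (add_le_add ?_ ((abs_sum_le_sum_abs _ _).trans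
      (sum_le_sum fun i _ => ?_)))
    · rw [abs_mul]; gcongr
    · rw [abs_mul]; gcongr; exact ht i
  refine (sum_le_sum fun x _ => h1 x).trans ?_
  rw [← mul_sum, sum_add_distrib, sum_tip M fun y => |ψ y|]
  have := sum_abs ψ h
  have hd : (0 : ℝ) ≤ d := Nat.cast_nonneg _
  have h2 : ∑ x, |ψ x| + d * ∑ y, |ψ y| ≤ (d + 1) * N := by nlinarith
  nlinarith

theorem dir (z : ℂ) : ∃ u ∈ ({1, -1, Complex.I, -Complex.I} : Finset ℂ), ‖z‖ / 2 ≤ (u * z).re := by
  have h := Complex.norm_le_abs_re_add_abs_im z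
  by_cases h1 : |z.im| ≤ |z.re|
  · rcases abs_cases z.re with h2 | h2
    · exact ⟨1, by simp, by simp; linarith [h2.1]⟩
    · exact ⟨-1, by simp, by simp; linarith [h2.1]⟩
  · rcases abs_cases z.im with h2 | h2
    · exact ⟨-Complex.I, by simp, by simp; linarith [h2.1]⟩
    · exact ⟨Complex.I, by simp, by simp; linarith [h2.1]⟩

theorem cpt (d : ℕ) (R : ℝ) :
    IsCompact {q : ℝ × (Fin d → ℝ) | |q.1| + ∑ i, |q.2 i| ≤ R} := by
  refine Metric.isCompact_of_isClosed_isBounded (isClosed_le (by fun_prop) continuous_const) ?_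
  refine (Metric.isBounded_closedBall (x := 0) (r := max R 0)).subset fun q hq => ?_
  simp only [Set.mem_ofPred_eq] at hq
  have h0 : 0 ≤ ∑ i, |q.2 i| := sum_nonneg fun i _ => abs_nonneg _
  rw [mem_closedBall_zero_iff, Prod.norm_def, max_le_iff]
  refine ⟨le_max_of_le_left (by rw [Real.norm_eq_abs]; linarith), ?_⟩
  refine (pi_norm_le_iff_of_nonneg (le_max_right _ _)).2 fun i => le_max_of_le_left ?_
  have := single_le_sum (f := fun i => |q.2 i|) (fun i _ => abs_nonneg _) (mem_univ i)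
  rw [Real.norm_eq_abs]
  linarith [abs_nonneg q.1]

end NETx

open NETx in
theorem p_NET :
    S_NET := by
  intro d R ε hd hε
  set K : Set (ℝ × (Fin d → ℝ)) := {q | |q.1| + ∑ i, |q.2 i| ≤ R} with hK
  have hKc : IsCompact K := cpt d R
  let G : ℝ × (ℝ × (Fin d → ℝ)) → ℝ := fun q => exp (-cov d q.1 q.2.1 q.2.2 / 2)
  have hG : Continuous G := by
    unfold G cov
    fun_prop
  have hL : IsCompact (Set.Icc (-(d : ℝ)) d ×ˢ K) := isCompact_Icc.prod hKc
  obtain ⟨δ, hδ, hu⟩ := Metric.uniformContinuousOn_iff.1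
    (hL.uniformContinuousOn_of_continuous hG.continuousOn) (ε / 8) (by positivity)
  have hd0 : (0 : ℝ) < d + 1 := by positivity
  set η : ℝ := min (δ / 2) (ε / 8 / (d + 1)) with hη
  have hη0 : 0 < η := lt_min (by positivity) (by positivity)
  obtain ⟨S, hSK, hSf, hcov⟩ := finite_cover_balls_of_compact hKc hη0
  refine ⟨δ / 2, (hSf.toFinset ×ˢ ({1, -1, Complex.I, -Complex.I} : Finset ℂ)).image
    fun q => (q.1.1, q.1.2, q.2), by positivity, ?_, ?_⟩
  · intro p hp
    obtain ⟨q, hq, rfl⟩ := mem_image.1 hp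
    obtain ⟨h1, h2⟩ := mem_product.1 hq
    refine ⟨hSK (hSf.mem_toFinset.1 h1), ?_⟩
    simp only [mem_insert, mem_singleton] at h2
    rcases h2 with h | h | h | h <;> simp [h]
  · intro N M ψ lam lam' s t _ hN hψ hl hl' hll hst hbig
    have hmem : (s, t) ∈ K := hst
    obtain ⟨q, hqS, hq⟩ := Set.mem_iUnion₂.1 (hcov hmem)
    obtain ⟨u, hu1, hu2⟩ := dir (chi M ψ s t - (exp (-cov d lam s t / 2) : ℝ))
    refine ⟨(q.1, q.2, u), mem_image.2 ⟨(q, u), mem_product.2 ⟨hSf.mem_toFinset.2 hqS, hu1⟩, rfl⟩,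
      ?_⟩
    have hun : ‖u‖ ≤ 1 := by
      simp only [mem_insert, mem_singleton] at hu1
      rcases hu1 with h | h | h | h <;> simp [h]
    rw [Metric.mem_ball] at hq
    have hq1 : |s - q.1| ≤ η := by
      have : dist s q.1 ≤ dist (s, t) q := by rw [Prod.dist_eq]; exact le_max_left _ _
      rw [Real.dist_eq] at this
      linarith
    have hq2 : ∀ i, |t i - q.2 i| ≤ η := fun i => by
      have : dist t q.2 ≤ dist (s, t) q := by rw [Prod.dist_eq]; exact le_max_right _ _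
      have h2 := dist_le_pi_dist t q.2 i
      rw [Real.dist_eq] at h2
      linarith
    have e1 : ‖chi M ψ s t - chi M ψ q.1 q.2‖ ≤ ε / 8 := by
      refine (chi_lip M ψ hN hψ s q.1 t q.2 η hq1 hq2).trans ?_
      have : η ≤ ε / 8 / (d + 1) := min_le_right _ _
      rw [le_div_iff₀ hd0] at this
      linarith
    have e2 : |exp (-cov d lam s t / 2) - exp (-cov d lam' q.1 q.2 / 2)| ≤ ε / 8 := by
      have := hu (lam, (s, t)) ⟨abs_le.1 hl, hmem⟩ (lam', q) ⟨abs_le.1 hl', hSK hqS⟩ (by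
        rw [Prod.dist_eq, max_lt_iff, Real.dist_eq]
        exact ⟨by linarith, by linarith [min_le_left (δ / 2) (ε / 8 / (d + 1))]⟩)
      rw [Real.dist_eq] at this
      exact this.le
    set z := chi M ψ s t - (exp (-cov d lam s t / 2) : ℝ) with hz
    set w := chi M ψ q.1 q.2 - (exp (-cov d lam' q.1 q.2 / 2) : ℝ) with hw
    have e3 : ‖z - w‖ ≤ ε / 4 := by
      have : z - w = (chi M ψ s t - chi M ψ q.1 q.2) -
          ((exp (-cov d lam s t / 2) - exp (-cov d lam' q.1 q.2 / 2) : ℝ) : ℂ) := by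
        rw [hz, hw, Complex.ofReal_sub]; ring
      rw [this]
      refine (norm_sub_le _ _).trans ?_
      rw [Complex.norm_real, Real.norm_eq_abs]
      linarith
    have e4 : (u * (z - w)).re ≤ ε / 4 := by
      refine (Complex.re_le_norm _).trans ?_
      rw [norm_mul]
      nlinarith [norm_nonneg u, norm_nonneg (z - w)]
    rw [mul_sub, Complex.sub_re] at e4
    show ε / 4 ≤ (u * w).re
    linarith

end Pool.Agent.P.MP_6b977f_mp.RG
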