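import Pool.Agent.P.MP_6b977f_mp.RG.IfaceT
import Pool.Agent.P.MP_6b977f_mp.RG.TNET

/-! Step NETU. -/

namespace Pool.Agent.P.MP_6b977f_mp.RG

open Finset MeasureTheory Real
open scoped Classical

namespace NETUx

theorem sph_cont (d : ℕ) : ∀ l, Continuous fun lam => LW.sph d lam l
  | 0 => continuous_const
  | 1 => by unfold LW.sph; fun_prop
  | l + 2 => by
    have h1 := sph_cont d (l + 1)
    have h0 := sph_cont d l
    unfold LW.sph
    fun_prop

/-- the values of a normalised vector on the copies -/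
theorem mass (hF : S_FIBU) {d m N : ℕ} {T : SimpleGraph (Fin m)} {G : SimpleGraph (Fin N)}
    (hT : T.Connected) (hG : G ∈ Reg d N) (f : Fin N → ℝ) (hf : ∀ y, 0 ≤ f y) (v : Fin m) :
    ∑ e ∈ LW.emb T G, f (e v) ≤ (d + 1) ^ m * ∑ y, f y := by
  rw [← sum_fiberwise (s := LW.emb T G) (g := fun e => e v), mul_sum]
  refine sum_le_sum fun y _ => ?_
  rw [sum_congr rfl (g := fun _ => f y) fun e he => by rw [(mem_filter.1 he).2], sum_const,
    nsmul_eq_mul]
  exact mul_le_mul_of_nonneg_right (by exact_mod_cast hF d m N T G v y hT hG) (hf y)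

theorem chi_lip (hF : S_FIBU) {d m N : ℕ} {T : SimpleGraph (Fin m)} {G : SimpleGraph (Fin N)}
    (hd : 1 ≤ d) (hT : T.Connected) (hG : G ∈ Reg d N) (ψ : Fin N → ℝ) (hN : 1 ≤ N)
    (h : ∑ x, ψ x ^ 2 = N) (a a' : Fin m → ℝ) (δ : ℝ) (hδ : 0 ≤ δ) (ha : ∀ v, |a v - a' v| ≤ δ) :
    ‖chiT d T G ψ a - chiT d T G ψ a'‖ ≤ m * (d + 1) ^ m * δ := by
  have hN' : (1 : ℝ) ≤ N := by exact_mod_cast hN
  have hd' : (1 : ℝ) ≤ d := by exact_mod_cast hd
  have hf : (1 : ℝ) ≤ ((d - 1).factorial : ℝ) ^ #(LW.inn d T) :=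
    one_le_pow₀ (by exact_mod_cast Nat.factorial_pos _)
  unfold chiT
  rw [← sub_div, ← sum_sub_distrib, norm_div, norm_mul, norm_mul, norm_pow, Complex.norm_natCast,
    Complex.norm_natCast, Complex.norm_natCast, div_le_iff₀ (by positivity)]
  refine (norm_sum_le _ _).trans ((sum_le_sum (g := fun e => ∑ v, δ * |ψ (e v)|)
    fun e _ => ?_).trans ?_)
  · refine (NETx.exp_lip _ _).trans ?_
    rw [← sum_sub_distrib]
    refine (abs_sum_le_sum_abs _ _).trans (sum_le_sum fun v _ => ?_)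
    rw [← sub_mul, abs_mul]
    exact mul_le_mul_of_nonneg_right (ha v) (abs_nonneg _)
  · rw [sum_comm]
    have k : ∀ v, ∑ e ∈ LW.emb T G, δ * |ψ (e v)| ≤ δ * ((d + 1) ^ m * N) := fun v => by
      rw [← mul_sum]
      exact mul_le_mul_of_nonneg_left ((mass hF hT hG (fun y => |ψ y|) (fun _ => abs_nonneg _)
        v).trans (mul_le_mul_of_nonneg_left (NETx.sum_abs ψ h) (by positivity))) hδ
    refine (sum_le_sum fun v _ => k v).trans ?_
    rw [sum_const, card_univ, Fintype.card_fin, nsmul_eq_mul]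
    have : (N : ℝ) ≤ N * d * ((d - 1).factorial : ℝ) ^ #(LW.inn d T) := by
      rw [mul_assoc]
      exact le_mul_of_one_le_right (by positivity) (one_le_mul_of_one_le_of_one_le hd' hf)
    calc (m : ℝ) * (δ * ((d + 1) ^ m * N)) = m * (d + 1) ^ m * δ * N := by ring
      _ ≤ _ := mul_le_mul_of_nonneg_left this (by positivity)

theorem cpt (m : ℕ) (R : ℝ) : IsCompact {a : Fin m → ℝ | ∑ i, |a i| ≤ R} := by
  refine Metric.isCompact_of_isClosed_isBounded (isClosed_le (by fun_prop) continuous_const) ?_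
  refine (Metric.isBounded_closedBall (x := 0) (r := max R 0)).subset fun q hq => ?_
  rw [mem_closedBall_zero_iff]
  refine (pi_norm_le_iff_of_nonneg (le_max_right _ _)).2 fun i => le_max_of_le_left ?_
  exact (single_le_sum (f := fun i => |q i|) (fun i _ => abs_nonneg _) (mem_univ i)).trans hq

end NETUx

open NETUx in
theorem p_NETU (hFIBU : S_FIBU) :
    S_NETU := by
  intro d m T R ε hd hT hε
  set K : Set (Fin m → ℝ) := {a | ∑ i, |a i| ≤ R} with hK
  have hKc : IsCompact K := cpt m R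
  let g : ℝ × (Fin m → ℝ) → ℝ := fun q => exp (-varT d T q.1 q.2 / 2)
  have hg : Continuous g := by
    have := fun l => (sph_cont d l).comp (continuous_fst (X := ℝ) (Y := Fin m → ℝ))
    refine continuous_exp.comp ((Continuous.neg ?_).div_const _)
    refine continuous_finsetSum _ fun u _ => continuous_finsetSum _ fun v _ => ?_
    exact Continuous.mul (by fun_prop) (this _)
  have hL : IsCompact (Set.Icc (-(d : ℝ)) d ×ˢ K) := isCompact_Icc.prod hKc
  obtain ⟨δ, hδ, hu⟩ := Metric.uniformContinuousOn_iff.1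
    (hL.uniformContinuousOn_of_continuous hg.continuousOn) (ε / 4) (by positivity)
  have hC : (0 : ℝ) < m * (d + 1) ^ m + 1 := by positivity
  set η : ℝ := min δ (ε / 4 / (m * (d + 1) ^ m + 1)) with hη
  have hη0 : 0 < η := lt_min hδ (by positivity)
  obtain ⟨S, hSK, hSf, hcov⟩ := finite_cover_balls_of_compact hKc hη0
  refine ⟨hSf.toFinset, fun N G ψ lam hG hN hψ hl H a ha => ?_⟩
  obtain ⟨q, hqS, hq⟩ := Set.mem_iUnion₂.1 (hcov (show a ∈ K from ha))
  rw [Metric.mem_ball] at hq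
  have e1 := chi_lip hFIBU (by omega) hT hG ψ hN hψ a q η hη0.le fun v => by
    have h2 := dist_le_pi_dist a q v
    rw [Real.dist_eq] at h2
    linarith
  have e1' : m * (d + 1) ^ m * η ≤ ε / 4 := by
    have : η ≤ ε / 4 / (m * (d + 1) ^ m + 1) := min_le_right _ _
    rw [le_div_iff₀ hC] at this
    nlinarith
  have e2 := hu (lam, q) ⟨abs_le.1 hl, hSK hqS⟩ (lam, a) ⟨abs_le.1 hl, ha⟩ (by
    rw [Prod.dist_eq, dist_self, max_lt_iff, dist_comm]
    exact ⟨hδ, hq.trans_le (min_le_left _ _)⟩)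
  rw [Real.dist_eq] at e2
  have e3 := H q (hSf.mem_toFinset.2 hqS)
  show ‖chiT d T G ψ a - (exp (-varT d T lam a / 2) : ℝ)‖ ≤ ε
  have : chiT d T G ψ a - (exp (-varT d T lam a / 2) : ℝ) = (chiT d T G ψ a - chiT d T G ψ q) +
      (chiT d T G ψ q - (exp (-varT d T lam q / 2) : ℝ)) + (g (lam, q) - g (lam, a) : ℝ) := by
    simp only [g, Complex.ofReal_sub]
    ring
  rw [this]
  refine (norm_add₃_le).trans ?_
  rw [Complex.norm_real, Real.norm_eq_abs]
  linarith

end Pool.Agent.P.MP_6b977f_mp.RG
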