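import Pool.Agent.P.MP_6b977f_mp.RG.IfaceV
import Pool.Agent.P.MP_6b977f_mp.RG.TCONF
import Pool.Agent.P.MP_6b977f_mp.RG.TNETU

/-! Step CONFU. -/

namespace Pool.Agent.P.MP_6b977f_mp.RG

open Finset MeasureTheory Real Filter
open scoped Classical

open CONFx in
theorem p_CONFU (hDET : S_DET) (hCONF : S_CONF) (hCU : S_CU) :
    S_CONFU := by
  intro d m T b κ ε hd hT hκ hε
  have d3 : (3 : ℝ) ≤ d := by exact_mod_cast hd
  obtain ⟨a, ha, ha', h1⟩ := hDET d hd
  obtain ⟨N1, h1⟩ := h1 (κ / 2) (ε / 4) (by positivity) (by positivity)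
  obtain ⟨ε1, C, N2, he, hC, h2⟩ := hCU d m T b a (ε / 4) hd hT ha ha' (by positivity)
  obtain ⟨N3, h3⟩ := hCONF d κ (1 / ε1) (min ε1 (ε / 4)) hd hκ (by positivity)
  have hg : Continuous fun lam => exp (-varT d T lam b / 2) :=
    continuous_exp.comp ((Continuous.neg (continuous_finsetSum _ fun u _ => continuous_finsetSum _
      fun v _ => continuous_const.mul (NETUx.sph_cont d _))).div_const _)
  obtain ⟨τ, hτ, hu⟩ := Metric.uniformContinuousOn_iff.1
    ((isCompact_Icc (a := -(d : ℝ)) (b := d)).uniformContinuousOn_of_continuous hg.continuousOn)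
    (ε / 2) (by positivity)
  refine eventually_atTop.1 ?_
  filter_upwards [eventually_ge_atTop N1, eventually_ge_atTop N2, eventually_ge_atTop N3,
    eventually_ge_atTop 1, ev_rpow (1 / min (τ / 2) (κ / 2)) (by norm_num : (0 : ℝ) < 1),
    small ha' (3 * d * (4 * C) * 2 / ε)] with N n1 n2 n3 n0 m3 m5
  have NN : (1 : ℝ) ≤ N := by exact_mod_cast n0
  have N0 : (0 : ℝ) < N := by linarith
  have m3' : 1 / (N : ℝ) ≤ min (τ / 2) (κ / 2) := by
    rw [rpow_zero, rpow_one, mul_one, div_le_iff₀ (by positivity)] at m3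
    rw [div_le_iff₀ N0]; linarith
  have h1 := h1 N n1
  have h2 := h2 N n2
  have h3 := (h3 N n3).trans (mul_le_mul_of_nonneg_right (min_le_right _ _) (Nat.cast_nonneg _))
  set K := (Icc (-(d * N : ℤ)) (d * N)).filter fun k : ℤ => |(k : ℝ) / N| ≤ 2 * √(d - 1) - κ / 2
    with hK
  set U : Finset ℂ := {1, -1, Complex.I, -Complex.I} with hU
  have hsub : ((Cf d N).filter fun M => Simple M ∧ ∃ ψ lam, Eig M ψ lam ∧
      |lam| ≤ 2 * √(d - 1) - κ ∧
        ε < ‖chiT d T (graph M) ψ b - (exp (-varT d T lam b / 2) : ℝ)‖) ⊆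
      (((Cf d N).filter fun M => ¬ ∀ lam, |lam| ≤ 2 * √(d - 1) - κ / 2 →
        LD M lam ((N : ℝ) ^ (-(2 * a))) ≤ ell d lam + (N : ℝ) ^ (-a)) ∪
      ((Cf d N).filter fun M => ¬ BerryC κ (1 / ε1) (min ε1 (ε / 4)) M)) ∪ K.biUnion fun k =>
      U.biUnion fun w => (Cf d N).filter fun M => Simple M ∧
        LD M (k / N) ((N : ℝ) ^ (-(2 * a))) ≤ ell d (k / N) + (N : ℝ) ^ (-a) ∧
        ∃ ψ lam, Eig M ψ lam ∧ |lam| ≤ d ∧ |lam - k / N| ≤ 1 / N ∧
          (∀ (s : ℝ) (t : Fin d → ℝ), |s| + ∑ i, |t i| ≤ 1 / ε1 →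
            ‖chi M ψ s t - (exp (-cov d lam s t / 2) : ℝ)‖ ≤ ε1) ∧ ε / 4 ≤
          (w * (chiT d T (graph M) ψ b - (exp (-varT d T (k / N) b / 2) : ℝ))).re := by
    intro M hM
    obtain ⟨hM, hs, ψ, lam, e1, e2, e4⟩ := mem_filter.1 hM
    simp only [mem_union, mem_filter, mem_biUnion, hM, true_and]
    by_cases g1 : ∀ lam, |lam| ≤ 2 * √(d - 1) - κ / 2 →
      LD M lam ((N : ℝ) ^ (-(2 * a))) ≤ ell d lam + (N : ℝ) ^ (-a)
    swap
    · exact .inl (.inl g1)
    by_cases g2 : BerryC κ (1 / ε1) (min ε1 (ε / 4)) M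
    swap
    · exact .inl (.inr g2)
    right
    have f1 : |lam - (⌊lam * N⌋ : ℤ) / N| ≤ 1 / N := by
      rw [show lam - (⌊lam * N⌋ : ℤ) / N = (lam * N - (⌊lam * N⌋ : ℤ)) / N by field_simp, abs_div,
        abs_of_pos N0]
      refine div_le_div_of_nonneg_right (abs_le.2 ⟨?_, ?_⟩) N0.le <;>
        linarith [Int.floor_le (lam * N), Int.lt_floor_add_one (lam * N)]
    generalize ⌊lam * N⌋ = k at f1
    have f2 : |(k : ℝ) / N| ≤ 2 * √(d - 1) - κ / 2 := by
      linarith [abs_sub_abs_le_abs_sub ((k : ℝ) / N) lam, abs_sub_comm ((k : ℝ) / N) lam,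
        min_le_right (τ / 2) (κ / 2)]
    have f3 := (bulk_sq hd (half_pos hκ) f2).2
    have f4 := (bulk_sq hd hκ e2).2
    have f5 := hu _ (abs_le.1 f3) _ (abs_le.1 f4) (by
      rw [Real.dist_eq, abs_sub_comm]; linarith [min_le_left (τ / 2) (κ / 2)])
    obtain ⟨w, w1, w2⟩ := NETx.dir (chiT d T (graph M) ψ b - (exp (-varT d T (k / N) b / 2) : ℝ))
    have f6 := norm_sub_le_norm_sub_add_norm_sub (chiT d T (graph M) ψ b)
      (exp (-varT d T (k / N) b / 2) : ℝ) (exp (-varT d T lam b / 2) : ℝ)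
    rw [← Complex.ofReal_sub, Complex.norm_real, ← dist_eq_norm (E := ℝ)] at f6
    refine ⟨k, ?_, w, w1, hs, g1 _ f2, ψ, lam, e1, f4, f1,
      fun s t h => (g2 ψ lam e1 e2 s t h).trans (min_le_left _ _), by linarith⟩
    rw [hK, mem_filter, mem_Icc, ← abs_le]
    refine ⟨?_, f2⟩
    rw [abs_div, abs_of_pos N0, div_le_iff₀ N0] at f3
    exact_mod_cast f3
  have hKc : (#K : ℝ) ≤ 3 * d * N := by
    have : #K ≤ 2 * (d * N) + 1 := (card_filter_le _ _).trans (by rw [Int.card_Icc]; omega)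
    have := (Nat.cast_le (α := ℝ)).2 this
    push_cast at this
    nlinarith
  have hUc : (#U : ℝ) ≤ 4 := by exact_mod_cast card_le_four
  refine le_trans (Nat.cast_le.2 (card_le_card hsub)) ((card_un _ _).trans ?_)
  refine (add_le_add ((card_un _ _).trans (add_le_add h1 h3))
    (card_bi _ _ (4 * (C * exp (-(N : ℝ) ^ (1 - a)) * #(Cf d N))) fun k hk =>
      (card_bi _ _ _ fun w hw => h2 _ w (bulk_sq hd (half_pos hκ) (mem_filter.1 hk).2).1 ?_).trans
        (mul_le_mul_of_nonneg_right hUc (by positivity)))).trans ?_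
  · simp only [hU, mem_insert, mem_singleton] at hw
    rcases hw with rfl | rfl | rfl | rfl <;> simp
  · have z2 : (#K : ℝ) * (4 * (C * exp (-(N : ℝ) ^ (1 - a)) * #(Cf d N))) ≤ ε / 2 * #(Cf d N) := by
      refine (mul_le_mul_of_nonneg_right hKc (by positivity)).trans ?_
      calc _ = ε / 2 * #(Cf d N) * (3 * d * (4 * C) * 2 / ε * N * exp (-(N : ℝ) ^ (1 - a))) := by
            field_simp
        _ ≤ _ := mul_le_of_le_one_right (by positivity) m5
    linarith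

end Pool.Agent.P.MP_6b977f_mp.RG
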