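import Pool.Agent.P.MP_6b977f_mp.RG.LibU
import Pool.Agent.P.MP_6b977f_mp.RG.LibK
import Pool.Agent.P.MP_6b977f_mp.RG.TFM
import Pool.Agent.P.MP_6b977f_mp.RG.TVOL
import Pool.Agent.P.MP_6b977f_mp.RG.TKEY

/-! The first moment bound for labels that carry marks. -/

namespace Pool.Agent.P.MP_6b977f_mp.RG

open Finset MeasureTheory Real Filter Topology
open scoped Classical

theorem fmw (d : ℕ) (hd : 1 ≤ d) : ∃ C : ℝ, 0 < C ∧ ∀ (N : ℕ) (R Z Ψ : ℝ) (K : Type)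
    (g : K → St d → ℝ) (c : K → ℝ) (w : St d → ℝ) (B : Finset (Cfg d N))
    (F : Cfg d N → Finset (Fin N → ℤ)), B ⊆ Cf d N → 1 ≤ N → 1 ≤ R →
    (∀ M ∈ B, (∀ φ ∈ F M, ∑ x, (φ x : ℝ) ^ 2 ≤ R ^ 2 ∧ ∀ k, ∑ x, g k (star M φ x) ≤ N * c k) ∧
      Z ≤ ∑ φ ∈ F M, exp (-∑ x, w (star M φ x))) →
    (∀ μ : Law d, μ.Sym → (∀ k, μ.E (g k) ≤ c k) → μ.Phi - μ.E w ≤ Ψ) →
    #B * Z ≤ #(Cf d N) * exp (N * Ψ + C * R * log (2 * N * R)) := by
  refine ⟨3 * (2 * d + 10) * (108 * d + 3), by positivity, ?_⟩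
  intro N R Z Ψ K g c w B F hB hN hR hF hΨ
  have hN' : (0 : ℝ) < N := by exact_mod_cast hN
  have hR1 : R ≤ (⌈R⌉₊ : ℝ) := Nat.le_ceil R
  have hR2 : (⌈R⌉₊ : ℝ) ≤ R + 1 := (Nat.ceil_lt_add_one (by linarith)).le
  have h := C22.fm_main hN hd (fun k s => g k (FMx.cv s)) c
    (fun s => w (FMx.cv s)) B (fun M hM => mem_Cf.1 (hB hM)) F ⌈R⌉₊ Z Ψ
    (fun M hM φ hφ => by
      have a1 : ∑ x, (φ x : ℝ) ^ 2 ≤ (⌈R⌉₊ : ℝ) ^ 2 :=
        ((hF M hM).1 φ hφ).1.trans (by gcongr)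
      exact_mod_cast a1)
    (fun M hM φ hφ k => by
      rw [div_le_iff₀ hN', mul_comm]
      exact ((hF M hM).1 φ hφ).2 k)
    (fun M hM => (hF M hM).2)
    (fun T μ b1 _ b3 b4 b5 => by
      let ν : Law d := ⟨T.image FMx.cv, fun s => μ (s none, fun i => s (some i)),
        fun s hs => by
          obtain ⟨t, ht, rfl⟩ := mem_image.1 hs
          exact b1 t ht,
        by rw [sum_image fun _ _ _ _ h => FMx.cv_inj h]; exact b3⟩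
      have hE : ∀ f : St d → ℝ, ν.E f = ∑ s ∈ T, μ s * f (FMx.cv s) := fun f => by
        unfold Law.E
        exact sum_image fun _ _ _ _ h => FMx.cv_inj h
      have hnu : ∀ a b, ν.nu a b = C22.nuL T μ (a, b) := fun a b => by
        unfold Law.nu C22.nuL
        rw [hE]
        refine sum_congr rfl fun s _ => ?_
        congr 2
        refine sum_congr rfl fun i _ => ?_
        simp only [ind, FMx.cv, Option.elim, Prod.mk.injEq]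
        congr
      have h1 := hΨ ν (fun a b => by rw [hnu, hnu]; exact b4 (b, a)) fun k => by
        rw [hE]; exact b5 k
      refine le_trans (le_of_eq ?_) h1
      unfold Law.Phi
      rw [hE, hE, ← sum_sub_distrib]
      refine sum_congr rfl fun s _ => ?_
      simp only [hnu]
      show μ s * _ = μ s * (-log (μ s) + (∑ i, log (C22.nuL T μ (s.1, s.2 i))) / 2) - _
      ring)
  have hc : (univ.filter fun M : Equiv.Perm (Fin N × Fin d) => C22.IsPM M) = Cf d N := by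
    ext M
    simp only [mem_filter, mem_univ, true_and, mem_Cf]
    rfl
  rw [hc] at h
  refine h.trans ?_
  rw [exp_add]
  gcongr
  exact FMx.size d N _ R hd hN hR hR2

theorem star_vl {d N : ℕ} (M : Cfg d N) (vl : ℤ → ℤ) (χ : Fin N → ℤ) (x : Fin N) :
    vl ∘ star M χ x = star M (vl ∘ χ) x := by
  funext o; cases o <;> rfl

theorem keyU (d : ℕ) (hd : 1 ≤ d) : ∃ C : ℝ, 0 < C ∧ ∀ (N : ℕ) (lam δ η ζ z R Sb γ0 z0 : ℝ)
    (K : Type) (g : K → St d → ℝ) (c : K → ℝ) (vl : ℤ → ℤ) (h : St d → ℝ) (B : Finset (Cfg d N)),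
    B ⊆ Cf d N → 1 ≤ N → |lam| ≤ d → 0 < η → 0 < δ → 2 * δ ≤ ζ → 0 < z → z ≤ 1 / 2 → 1 ≤ R →
    0 ≤ z0 → (∀ M ∈ B, ∃ (γ : ℝ) (ψ : Fin N → ℝ), 4 * η ≤ γ * ζ ∧ LD M lam γ ≤ Sb ∧
      ∑ x, (adj M ψ x - lam * ψ x) ^ 2 ≤ δ ^ 2 * N ∧
      ∀ φ : Fin N → ℤ, ∑ x, (δ * φ x - ψ x) ^ 2 ≤ ζ ^ 2 * N → ∃ T : Finset (Fin N → ℤ),
        z0 ≤ ∑ χ ∈ T, exp (-∑ x, h (star M χ x)) ∧ ∀ χ ∈ T, vl ∘ χ = φ ∧
          ∑ x, (χ x : ℝ) ^ 2 ≤ R ^ 2 ∧ ∀ k, ∑ x, g k (star M χ x) ≤ N * c k) →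
    (∀ (μ : Law d) (η' : ℝ), μ.Sym → 0 < η' → (∀ k, μ.E (g k) ≤ c k) →
      γ0 ≤ μ.gap0 vl δ η' lam + μ.E h) →
    #B * z0 ≤ #(Cf d N) * exp (N * (Sb - ell d lam - γ0 + C * z + C * δ ^ 2 / (z * η ^ 2)) +
      C * R * log (2 * N * R) + 2) := by
  obtain ⟨C, hC, hFM⟩ := fmw d hd
  refine ⟨C + 2 + 15 * d ^ 2, by positivity, ?_⟩
  intro N lam δ η ζ z R Sb γ0 z0 K g c vl h B hB hN hlam hη hδ h1 hz hz2 hR hz0 hM hgap
  have hN' : (1 : ℝ) ≤ N := by exact_mod_cast hN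
  set q : ℝ := δ ^ 2 / (z * η ^ 2) with hq
  have hq0 : 0 ≤ q := by positivity
  set β : ℝ := (1 - z) * δ ^ 2 / (2 * η ^ 2) with hβ
  set a : ℝ := N * (log (2 * π * η ^ 2) / 2 - log δ - Sb - 10 * d ^ 2 * q) with ha
  have hF : ∀ M : Cfg d N, ∃ F : Finset (Fin N → ℤ), M ∈ B →
      (∀ φ ∈ F, ∑ x, (φ x : ℝ) ^ 2 ≤ R ^ 2 ∧ ∀ k, ∑ x, g k (star M φ x) ≤ N * c k) ∧
        exp a / 3 * z0 ≤ ∑ φ ∈ F, exp (-∑ x,
          (β * Wd lam (re 1 (vl ∘ star M φ x)) ^ 2 + h (star M φ x))) := by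
    intro M
    by_cases hMB : M ∈ B
    · obtain ⟨γ, ψ, b1, b2, b3, b4⟩ := hM M hMB
      obtain ⟨F, f1, f2⟩ := p_VOL d N M ψ lam δ η γ ζ z (hB hMB) hd hN hlam hη hδ h1 b1 hz hz2 b3
      choose! T t1 t2 using b4
      refine ⟨F.biUnion T, fun _ => ⟨fun χ hχ => ?_, ?_⟩⟩
      · obtain ⟨φ, hφ, hχ⟩ := mem_biUnion.1 hχ
        exact (t2 φ (f1 φ hφ) χ hχ).2
      rw [sum_biUnion fun φ hφ φ' hφ' ne => disjoint_left.2 fun χ x y =>
        ne ((t2 φ (f1 φ hφ) χ x).1.symm.trans (t2 φ' (f1 φ' hφ') χ y).1)]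
      have f3 : exp a / 3 ≤ ∑ φ ∈ F, exp (-(β * ∑ x, Wd lam (re 1 (star M φ x)) ^ 2)) := by
        refine le_trans ?_ f2
        rw [ha, hq, mul_div_assoc]
        gcongr
      refine (mul_le_mul_of_nonneg_right f3 hz0).trans ?_
      rw [sum_mul]
      refine sum_le_sum fun φ hφ =>
        (mul_le_mul_of_nonneg_left (t1 φ (f1 φ hφ)) (exp_pos _).le).trans_eq ?_
      rw [mul_sum]
      refine sum_congr rfl fun χ hχ => ?_
      simp only [star_vl, (t2 φ (f1 φ hφ) χ hχ).1, sum_add_distrib, ← mul_sum, ← exp_add, neg_add]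
    · exact ⟨∅, fun h => absurd h hMB⟩
  choose F hF using hF
  have hz1 : 0 < 1 - z := by linarith
  have h := hFM N R (exp a / 3 * z0)
    (log (2 * π * η ^ 2) / 2 + 2 * z + 5 * d ^ 2 * q - ell d lam - log δ - γ0) K g c
    (fun s => β * Wd lam (re 1 (vl ∘ s)) ^ 2 + h s) B F hB hN hR hF
    (fun μ hs hc => by
      have hr : 0 < (1 + z) / (1 - z) := by positivity
      have b := hgap μ (η * √((1 + z) / (1 - z))) hs (by positivity) hc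
      unfold Law.gap0 at b
      rw [mul_pow η, sq_sqrt hr.le] at b
      have b1 : log (2 * π * (η ^ 2 * ((1 + z) / (1 - z)))) ≤ log (2 * π * η ^ 2) + 4 * z := by
        rw [← mul_assoc, log_mul (by positivity) hr.ne']
        have c1 := log_le_sub_one_of_pos hr
        have c2 : (1 + z) / (1 - z) ≤ 1 + 4 * z := by
          rw [div_le_iff₀ hz1]; nlinarith
        linarith
      have b2 : μ.E (fun s => (|Wd lam (re δ (vl ∘ s))| + 3 * d * δ) ^ 2) ≤ (1 + z) * δ ^ 2 *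
          μ.E (fun s => Wd lam (re 1 (vl ∘ s)) ^ 2) + (1 + z) / z * (3 * d * δ) ^ 2 := by
        rw [← μ.E_mul, ← μ.E_const ((1 + z) / z * (3 * d * δ) ^ 2), ← μ.E_add]
        refine μ.E_mono fun s => (KEYx.split z _ _ hz).trans (le_of_eq ?_)
        rw [KEYx.Wd_re]; ring
      have b3 : μ.E (fun s => (|Wd lam (re δ (vl ∘ s))| + 3 * d * δ) ^ 2) /
          (2 * (η ^ 2 * ((1 + z) / (1 - z)))) ≤
          β * μ.E (fun s => Wd lam (re 1 (vl ∘ s)) ^ 2) + 5 * d ^ 2 * q := by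
        refine (div_le_div_of_nonneg_right b2 (by positivity)).trans ?_
        have c1 : ((1 + z) * δ ^ 2 * μ.E (fun s => Wd lam (re 1 (vl ∘ s)) ^ 2) +
            (1 + z) / z * (3 * d * δ) ^ 2) / (2 * (η ^ 2 * ((1 + z) / (1 - z)))) =
            β * μ.E (fun s => Wd lam (re 1 (vl ∘ s)) ^ 2) + 9 / 2 * (1 - z) * (d ^ 2 * q) := by
          rw [hβ, hq]; field_simp; ring
        rw [c1]
        have c2 : 0 ≤ (d : ℝ) ^ 2 * q := by positivity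
        nlinarith
      rw [μ.E_add, μ.E_mul]
      linarith)
  rw [show #B * (exp a / 3 * z0) = #B * z0 * exp a / 3 by ring, div_le_iff₀ (by norm_num),
    ← le_div_iff₀ (exp_pos a)] at h
  refine h.trans ?_
  rw [mul_assoc, mul_div_assoc]
  refine mul_le_mul_of_nonneg_left ?_ (Nat.cast_nonneg _)
  have e3 : (3 : ℝ) ≤ exp 2 := by have := add_one_le_exp (2 : ℝ); linarith
  have hL : 0 ≤ R * log (2 * N * R) :=
    mul_nonneg (by linarith) (log_nonneg (by nlinarith))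
  rw [div_le_iff₀ (exp_pos a)]
  refine le_trans (mul_le_mul_of_nonneg_left e3 (exp_pos _).le) ?_
  rw [← exp_add, ← exp_add, exp_le_exp, ha, mul_div_assoc, ← hq]
  have c1 : 0 ≤ (N : ℝ) * ((C + 15 * d ^ 2) * z + (C + 2) * q) := by positivity
  have c2 : 0 ≤ (2 + 15 * (d : ℝ) ^ 2) * (R * log (2 * N * R)) := by positivity
  nlinarith

theorem coreU (d : ℕ) (hd : 3 ≤ d) (a n : ℝ) (ha : 0 < a) (ha' : a ≤ 1 / 100) (hn : 1 ≤ n) :
    ∃ Ce : ℝ, 1 ≤ Ce ∧ ∀ᶠ N : ℕ in atTop, ∀ (lam' z0 : ℝ) (K : Type) (g : K → St d → ℝ) (c : K → ℝ)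
      (vl : ℤ → ℤ) (h : St d → ℝ) (B : Finset (Cfg d N)), B ⊆ Cf d N → |lam'| ≤ d → 0 ≤ z0 →
      (∀ z : ℤ, (z : ℝ) ^ 2 ≤ 2 * n ^ 2 * ((vl z : ℝ) ^ 2 + 1)) →
      (∀ M ∈ B, LD M lam' ((N : ℝ) ^ (-(2 * a))) ≤ ell d lam' + (N : ℝ) ^ (-a) ∧
        ∃ ψ lam, Eig M ψ lam ∧ |lam - lam'| ≤ 1 / N ∧ ∀ φ : Fin N → ℤ,
          ∑ x, (((N : ℝ) ^ (-a)) ^ 4 * φ x - ψ x) ^ 2 ≤ ((N : ℝ) ^ (-a)) ^ 2 * N →
          ∃ T : Finset (Fin N → ℤ), z0 ≤ ∑ χ ∈ T, exp (-∑ x, h (star M χ x)) ∧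
            ∀ χ ∈ T, vl ∘ χ = φ ∧ ∀ k, ∑ x, g k (star M χ x) ≤ N * c k) →
      (∀ (μ : Law d) (η : ℝ), μ.Sym → 0 < η →
        μ.E (fun s => Wd lam' (re (((N : ℝ) ^ (-a)) ^ 4) (vl ∘ s)) ^ 2) ≤ Ce * (N : ℝ) ^ (-a) →
        (∀ k, μ.E (g k) ≤ c k) →
        Ce * (N : ℝ) ^ (-a) ≤ μ.gap0 vl (((N : ℝ) ^ (-a)) ^ 4) η lam' + μ.E h) →
      #B * z0 ≤ exp (-(N : ℝ) ^ (1 - a)) * #(Cf d N) := by
  obtain ⟨C, hC, hK⟩ := keyU d (by omega)
  have d3 : (3 : ℝ) ≤ d := by exact_mod_cast hd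
  refine ⟨17 * C + 3 + (3 + 6 * d ^ 2), by nlinarith, ?_⟩
  filter_upwards [eventually_ge_atTop 1, ev_rpow 2 (by linarith : -a < 0),
    ev_rpow (C * (4 * n) * 20 + 2) (by linarith : 1 / 2 + 4 * a + 1 / 5 < 1 - a),
    ev_rpow (8 * n) (by linarith : 1 + (1 / 2 + 4 * a) < 2)] with N n1 n2 n3 n4
  intro lam' z0 K g c vl h B hB hl hz0 hvl h1 h2
  have N1 : (1 : ℝ) ≤ N := by exact_mod_cast n1
  have N0 : (0 : ℝ) < N := by linarith
  rw [rpow_zero] at n2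
  have e2 : (N : ℝ) ^ (-(2 * a)) = ((N : ℝ) ^ (-a)) ^ 2 := by
    rw [← rpow_natCast, ← rpow_mul N0.le]; congr 1; push_cast; ring
  have e1 : (N : ℝ) ^ (1 - a) = N * (N : ℝ) ^ (-a) := by
    rw [sub_eq_add_neg, rpow_add N0, rpow_one]
  have e4 : ((N : ℝ) ^ (1 / 2 + 4 * a)) ^ 2 * (((N : ℝ) ^ (-a)) ^ 4) ^ 2 = N := by
    rw [← mul_pow, ← rpow_natCast _ 4, ← rpow_mul N0.le, ← rpow_add N0, ← rpow_natCast,
      ← rpow_mul N0.le]
    norm_num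
    rw [show (1 / 2 + 4 * a + -(a * 4)) * 2 = 1 by ring, rpow_one]
  have e5 : 1 / (N : ℝ) ≤ ((N : ℝ) ^ (-a)) ^ 4 := by
    rw [← rpow_natCast, ← rpow_mul N0.le, one_div, ← rpow_neg_one]
    exact rpow_le_rpow_of_exponent_le N1 (by push_cast; linarith)
  have r1 : 1 ≤ (N : ℝ) ^ (1 / 2 + 4 * a) := one_le_rpow N1 (by linarith)
  have e6 : log (2 * N * (4 * n * (N : ℝ) ^ (1 / 2 + 4 * a))) ≤ 10 * (N : ℝ) ^ (1 / 5 : ℝ) := by
    have b1 : 2 * N * (4 * n * (N : ℝ) ^ (1 / 2 + 4 * a)) ≤ (N : ℝ) ^ (2 : ℝ) := by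
      rw [rpow_add N0, rpow_one] at n4; linarith
    refine (log_le_log (by positivity) b1).trans ?_
    rw [log_rpow N0]
    linarith [log_le_rpow_div N0.le (by norm_num : (0 : ℝ) < 1 / 5)]
  have r2 : 1 ≤ (N : ℝ) ^ (1 / 5 : ℝ) := one_le_rpow N1 (by norm_num)
  rw [rpow_add N0, e1] at n3
  rw [e2] at h1
  rw [e1]
  have g0 : 0 < (N : ℝ) ^ (-a) := by positivity
  generalize (N : ℝ) ^ (-a) = u at *
  generalize (N : ℝ) ^ (1 / 2 + 4 * a) = R at *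
  generalize (N : ℝ) ^ (1 / 5 : ℝ) = R' at *
  have u1 : u ≤ 1 / 2 := by linarith
  have u3 : u ^ 3 ≤ 1 / 2 := by nlinarith [pow_le_one₀ g0.le (by linarith : u ≤ 1) (n := 2)]
  have u8 : (u ^ 4) ^ 2 ≤ u := by
    calc (u ^ 4) ^ 2 = u * u ^ 7 := by ring
      _ ≤ u := mul_le_of_le_one_right g0.le (pow_le_one₀ g0.le (by linarith))
  have hR : (N : ℝ) ≤ R ^ 2 := by
    rw [← e4]; exact mul_le_of_le_one_right (sq_nonneg _) (by linarith)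
  have := hK N lam' (u ^ 4) (u ^ 3 / 4) u u (4 * n * R) (ell d lam' + u)
    ((17 * C + 3 + (3 + 6 * d ^ 2)) * u) z0 (Option K)
    (fun k => k.elim (fun s => Wd lam' (re (u ^ 4) (vl ∘ s)) ^ 2) g)
    (fun k => k.elim ((17 * C + 3 + (3 + 6 * d ^ 2)) * u) c) vl h B hB n1
    hl (by positivity) (by positivity) (by nlinarith) g0 u1 (by nlinarith) hz0 ?_ ?_
  · refine this.trans ?_
    rw [mul_comm]
    refine mul_le_mul_of_nonneg_right (exp_le_exp.2 ?_) (Nat.cast_nonneg _)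
    have f1 : C * (u ^ 4) ^ 2 / (u * (u ^ 3 / 4) ^ 2) = 16 * C * u := by field_simp; ring
    have f2 : C * (4 * n * R) * log (2 * N * (4 * n * R)) ≤ C * (4 * n * R) * (10 * R') :=
      mul_le_mul_of_nonneg_left e6 (by positivity)
    have f3 : 1 ≤ R * R' := one_le_mul_of_one_le_of_one_le r1 r2
    rw [f1]
    nlinarith [mul_pos N0 g0, mul_pos (mul_pos hC (by linarith : 0 < n)) (by linarith : 0 < R * R'),
      mul_nonneg (mul_pos N0 g0).le (sq_nonneg (d : ℝ))]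
  · intro M hM
    obtain ⟨b1, ψ, lam, ⟨b2, b3⟩, b4, b5⟩ := h1 M hM
    have b6 : ∑ x, (adj M ψ x - lam' * ψ x) ^ 2 ≤ (u ^ 4) ^ 2 * N := by
      simp only [b2, ← sub_mul, mul_pow, ← mul_sum, b3]
      exact mul_le_mul_of_nonneg_right (sq_le_sq' (by linarith [(abs_le.1 (b4.trans e5)).1])
        (abs_le.1 (b4.trans e5)).2) N0.le
    refine ⟨u ^ 2, ψ, by linarith, b1, b6, fun φ hφ => ?_⟩
    obtain ⟨c1, -⟩ := near g0 (by linarith) b3 hφ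
    have c3 : ∑ x, (u ^ 4 * φ x) ^ 2 ≤ 4 * N := by nlinarith
    have c4 : ∑ x, (φ x : ℝ) ^ 2 ≤ 4 * R ^ 2 := by
      simp only [mul_pow, ← mul_sum] at c3
      refine le_of_mul_le_mul_left ?_ (by positivity : 0 < (u ^ 4) ^ 2)
      nlinarith
    obtain ⟨T, t1, t2⟩ := b5 φ hφ
    refine ⟨T, t1, fun χ hχ => ⟨(t2 χ hχ).1, ?_, ?_⟩⟩
    · refine (sum_le_sum fun x _ => hvl (χ x)).trans ?_
      rw [← mul_sum, sum_add_distrib, show ∑ x, ((vl (χ x) : ℤ) : ℝ) ^ 2 = ∑ x, (φ x : ℝ) ^ 2 by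
        rw [← (t2 χ hχ).1]; rfl]
      simp only [sum_const, card_univ, Fintype.card_fin, nsmul_eq_mul, mul_one]
      nlinarith [mul_le_mul_of_nonneg_left (add_le_add c4 hR) (sq_nonneg n),
        mul_nonneg (sq_nonneg n) (sq_nonneg R)]
    · rintro (_ | k)
      · have := defect M hl b6 hφ
        simp only [Option.elim, star_vl, (t2 χ hχ).1, Wd_star]
        have u2 : u ^ 2 ≤ u := by nlinarith
        nlinarith [mul_le_mul_of_nonneg_right u8 N0.le, mul_pos N0 g0, mul_pos hC (mul_pos N0 g0),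
          mul_le_mul_of_nonneg_left (mul_le_mul_of_nonneg_right u2 N0.le) (sq_nonneg (d : ℝ))]
      · exact (t2 χ hχ).2 k
  · exact fun μ η s1 s2 s3 => h2 μ η s1 s2 (s3 none) fun k => s3 (some k)

end Pool.Agent.P.MP_6b977f_mp.RG
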