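import Pool.Agent.P.MP_6b977f_mp.RG.IfaceM
import Pool.Agent.P.MP_6b977f_mp.RG.TCB
import Pool.Agent.P.MP_6b977f_mp.RG.TNETU

/-! Codes for marks, the reverse Markov inequality, perturbation of characters. -/

namespace Pool.Agent.P.MP_6b977f_mp.RG

open Finset MeasureTheory Real
open scoped Classical

namespace CUx

theorem code (A : Type) [Fintype A] (a0 : A) : ∃ (E : ℤ ≃ ℤ × A) (n : ℝ), 1 ≤ n ∧
    ∀ z : ℤ, (z : ℝ) ^ 2 ≤ 2 * n ^ 2 * (((E z).1 : ℝ) ^ 2 + 1) := by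
  have h : 0 < Fintype.card A := Fintype.card_pos_iff.2 ⟨a0⟩
  have : NeZero (Fintype.card A) := ⟨h.ne'⟩
  refine ⟨(Int.divModEquiv (Fintype.card A)).trans
    ((Equiv.refl ℤ).prodCongr (Fintype.equivFin A).symm), Fintype.card A, by exact_mod_cast h,
    fun z => ?_⟩
  change _ ≤ 2 * _ * (((z / (Fintype.card A : ℕ) : ℤ) : ℝ) ^ 2 + 1)
  generalize Fintype.card A = n at *
  have n0 : (0 : ℤ) < n := by exact_mod_cast h
  have h1 := Int.emod_nonneg z n0.ne'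
  have h2 := Int.emod_lt_of_pos z n0
  have h3 := Int.mul_ediv_add_emod z n
  have : z ^ 2 ≤ 2 * (n : ℤ) ^ 2 * ((z / n) ^ 2 + 1) := by
    generalize z / n = q at *
    generalize z % n = r at *
    rw [← h3]
    nlinarith [sq_nonneg (n * q - r), mul_le_mul h2.le h2.le h1 n0.le]
  exact_mod_cast this

theorem rm {Ω : Type} [Fintype Ω] (W X : Ω → ℝ) (h0 : ∀ ω, 0 ≤ W ω) (h1 : ∑ ω, W ω = 1)
    {N c η : ℝ} (hN : 0 < N) (hη : η ≤ 1) (hX : ∀ ω, |X ω| ≤ N)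
    (h : (c + 2 * η) * N ≤ ∑ ω, W ω * X ω) :
    η / 2 ≤ ∑ ω ∈ univ.filter fun ω => (c + η) * N ≤ X ω, W ω := by
  by_cases hc : c + η ≤ -1
  · rw [filter_true_of_mem fun ω _ => by nlinarith [(abs_le.1 (hX ω)).1], h1]
    linarith
  have k : ∀ ω, W ω * X ω ≤ (c + η) * N * W ω +
      2 * N * if (c + η) * N ≤ X ω then W ω else 0 := fun ω => by
    split_ifs with g
    · nlinarith [mul_le_mul_of_nonneg_left (abs_le.1 (hX ω)).2 (h0 ω),
        mul_nonneg (mul_nonneg (by linarith : 0 ≤ c + η + 1) hN.le) (h0 ω)]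
    · nlinarith [mul_le_mul_of_nonneg_left (not_le.1 g).le (h0 ω)]
  have s := h.trans (sum_le_sum fun ω _ => k ω)
  rw [sum_add_distrib, ← mul_sum, ← mul_sum, h1, ← sum_filter] at s
  refine le_of_mul_le_mul_left ?_ hN
  linarith

theorem l1 {N : ℕ} {f ψ : Fin N → ℝ} {u : ℝ} (hu : 0 < u) (h : ∑ y, (f y - ψ y) ^ 2 ≤ u ^ 2 * N) :
    ∑ y, |ψ y - f y| ≤ u * N := by
  have k : ∀ y, 2 * u * |ψ y - f y| ≤ u ^ 2 + (f y - ψ y) ^ 2 := fun y => by
    nlinarith [sq_nonneg (u - |ψ y - f y|), sq_abs (ψ y - f y)]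
  have s := sum_le_sum fun y (_ : y ∈ univ) => k y
  rw [← mul_sum, sum_add_distrib] at s
  simp only [sum_const, card_univ, Fintype.card_fin, nsmul_eq_mul] at s
  refine le_of_mul_le_mul_left ?_ (by positivity : 0 < 2 * u)
  linarith

theorem chiT_lip (hF : S_FIBU) {d m N : ℕ} {T : SimpleGraph (Fin m)} {G : SimpleGraph (Fin N)}
    (hd : 1 ≤ d) (hT : T.Connected) (hG : G ∈ Reg d N) (hN : 1 ≤ N) (b : Fin m → ℝ)
    {f ψ : Fin N → ℝ} {u : ℝ} (hu : 0 < u) (h : ∑ y, (f y - ψ y) ^ 2 ≤ u ^ 2 * N) :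
    ‖chiT d T G ψ b - chiT d T G f b‖ ≤ (∑ v, |b v|) * (d + 1) ^ m * u := by
  have hN' : (1 : ℝ) ≤ N := by exact_mod_cast hN
  have hd' : (1 : ℝ) ≤ d := by exact_mod_cast hd
  have hf : (1 : ℝ) ≤ ((d - 1).factorial : ℝ) ^ #(LW.inn d T) :=
    one_le_pow₀ (by exact_mod_cast Nat.factorial_pos _)
  unfold chiT
  rw [← sub_div, ← sum_sub_distrib, norm_div, norm_mul, norm_mul, norm_pow, Complex.norm_natCast,
    Complex.norm_natCast, Complex.norm_natCast, div_le_iff₀ (by positivity)]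
  refine (norm_sum_le _ _).trans ((sum_le_sum (g := fun e => ∑ v, |b v| * |ψ (e v) - f (e v)|)
    fun e _ => ?_).trans ?_)
  · refine (NETx.exp_lip _ _).trans ?_
    rw [← sum_sub_distrib]
    refine (abs_sum_le_sum_abs _ _).trans (sum_le_sum fun v _ => ?_)
    rw [← mul_sub, abs_mul]
  · rw [sum_comm]
    have k : ∀ v, ∑ e ∈ LW.emb T G, |b v| * |ψ (e v) - f (e v)| ≤
        |b v| * ((d + 1) ^ m * (u * N)) := fun v => by
      rw [← mul_sum]
      exact mul_le_mul_of_nonneg_left ((NETUx.mass hF hT hG (fun y => |ψ y - f y|)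
        (fun _ => abs_nonneg _) v).trans
        (mul_le_mul_of_nonneg_left (l1 hu h) (by positivity))) (abs_nonneg _)
    refine (sum_le_sum fun v _ => k v).trans ?_
    rw [← sum_mul]
    have : (N : ℝ) ≤ N * d * ((d - 1).factorial : ℝ) ^ #(LW.inn d T) := by
      rw [mul_assoc]
      exact le_mul_of_one_le_right (by positivity) (one_le_mul_of_one_le_of_one_le hd' hf)
    calc (∑ v, |b v|) * ((d + 1) ^ m * (u * N)) = (∑ v, |b v|) * (d + 1) ^ m * u * N := by ring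
      _ ≤ _ := mul_le_mul_of_nonneg_left this (by positivity)

theorem chi_sub {d N : ℕ} (M : Cfg d N) (hN : 1 ≤ N) {f ψ : Fin N → ℝ} {u R s : ℝ} {t : Fin d → ℝ}
    (hu : 0 < u) (h : ∑ y, (f y - ψ y) ^ 2 ≤ u ^ 2 * N) (hR : |s| + ∑ i, |t i| ≤ R) :
    ‖chi M f s t - chi M ψ s t‖ ≤ R * (d + 2) * u := by
  have N0 : (0 : ℝ) < N := by exact_mod_cast hN
  have R0 : 0 ≤ R := le_trans (by positivity) hR
  rw [norm_sub_rev, chi, chi, ← sub_div, ← sum_sub_distrib, norm_div, Complex.norm_natCast,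
    div_le_iff₀ N0]
  refine (norm_sum_le _ _).trans ((sum_le_sum fun x _ => CBx.ch_sub hR _ _).trans ?_)
  rw [← mul_sum]
  exact (mul_le_mul_of_nonneg_left (CBx.star_sub M f ψ hu h) R0).trans_eq (by ring)

theorem gauss_uc (d : ℕ) (R ε : ℝ) (hε : 0 < ε) : ∃ τ : ℝ, 0 < τ ∧ ∀ (lam lam' s : ℝ)
    (t : Fin d → ℝ), |lam| ≤ d → |lam'| ≤ d → |lam - lam'| < τ → |s| + ∑ i, |t i| ≤ R →
    |exp (-cov d lam s t / 2) - exp (-cov d lam' s t / 2)| ≤ ε := by
  let G : ℝ × (ℝ × (Fin d → ℝ)) → ℝ := fun q => exp (-cov d q.1 q.2.1 q.2.2 / 2)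
  have hG : Continuous G := by
    unfold G cov
    fun_prop
  obtain ⟨δ, hδ, hu⟩ := Metric.uniformContinuousOn_iff.1
    (((isCompact_Icc (a := -(d : ℝ)) (b := d)).prod (NETx.cpt d R)).uniformContinuousOn_of_continuous
      hG.continuousOn) ε hε
  refine ⟨δ, hδ, fun lam lam' s t h1 h2 h3 h4 => le_of_lt ?_⟩
  exact hu (lam, s, t) ⟨abs_le.1 h1, h4⟩ (lam', s, t) ⟨abs_le.1 h2, h4⟩ (by
    rw [Prod.dist_eq, dist_self, max_lt_iff]; exact ⟨h3, hδ⟩)

theorem norm_le_of_re {z : ℂ} {e : ℝ} (h : ∀ w : ℂ, ‖w‖ ≤ 1 → (w * z).re ≤ e) : ‖z‖ ≤ e := by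
  by_cases hz : z = 0
  · simpa [hz] using h 0
  have n : (‖z‖ : ℂ) ≠ 0 := by simpa using hz
  have := h ((starRingEnd ℂ) z / ‖z‖) (by simp [div_self (norm_ne_zero_iff.2 hz)])
  rwa [div_mul_eq_mul_div, Complex.conj_mul', sq, mul_div_assoc, div_self n, mul_one,
    Complex.ofReal_re] at this

theorem E_re {d : ℕ} (μ : Law d) (w : ℂ) (F : St d → ℂ) :
    μ.E (fun z => (w * F z).re) = (w * ∑ z ∈ μ.A, (μ.p z : ℂ) * F z).re := by
  simp only [Law.E, mul_sum, Complex.re_sum]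
  exact sum_congr rfl fun z _ => by rw [mul_left_comm, Complex.re_ofReal_mul]

theorem norm_th {d : ℕ} (T : Tr d) (a : T.A) : ‖T.th a‖ ≤ 1 := by
  unfold Tr.th
  split_ifs <;> simp [norm_z4]

/-- markings with a large root statistic have positive weight -/
theorem marks (hM : S_MARK) {d N : ℕ} (T : Tr d) {M : Cfg d N} (h : M ∈ Cf d N) (hN : 1 ≤ N)
    (t : T.P → ℝ) (E : ℤ ≃ ℤ × T.A) (δ : ℝ) (φ : Fin N → ℤ) {w : ℂ} (hw : ‖w‖ ≤ 1) {c η : ℝ}
    (hη : η ≤ 1) (hc : (c + 2 * η) * N ≤ (w * ((∑ e ∈ T.emb M,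
      Complex.exp (Complex.I * (∑ p, t p * (δ * φ (e p)) : ℝ))) /
      (4 * Fintype.card T.P) ^ Fintype.card T.P)).re) :
    ∃ S : Finset (Fin N → ℤ), η / 2 ≤ ∑ χ ∈ S, exp (-∑ x, (log (Fintype.card T.P) -
      log (T.qk t (δ * (E (star M χ x none)).1) ((fun z => (E z).2) ∘ star M χ x)))) ∧
      ∀ χ ∈ S, (fun z => (E z).1) ∘ χ = φ ∧ (c + η) * N ≤ ∑ x, (w * T.th (E (χ x)).2).re := by
  obtain ⟨h1, h2⟩ := hM d N T M t (fun x => δ * φ x) h
  have p0 : (0 : ℝ) < Fintype.card T.P := by linarith [T.card_pos]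
  have q0 : ∀ a b, 0 < T.qk t a b := fun a b => by linarith [(T.qk_mem t a b).1]
  have r := rm (T.W t M fun x => δ * φ x) (fun mk => ∑ x, (w * T.th (mk x)).re)
    (fun mk => prod_nonneg fun x _ => (div_pos (q0 _ _) p0).le) h1 (c := c) (N := N)
    (by exact_mod_cast hN) hη (fun mk => (abs_sum_le_sum_abs _ _).trans (by
      simpa using sum_le_card_nsmul univ (fun x => |(w * T.th (mk x)).re|) 1 fun x _ =>
        (Complex.abs_re_le_norm _).trans ((norm_mul _ _).trans_le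
          (mul_le_one₀ hw (norm_nonneg _) (norm_th T _))))) (by
      rw [← h2, mul_sum, Complex.re_sum] at hc
      refine hc.trans_eq (sum_congr rfl fun mk _ => ?_)
      rw [mul_left_comm, Complex.re_ofReal_mul, mul_sum, Complex.re_sum])
  refine ⟨(univ.filter fun mk : Fin N → T.A => (c + η) * N ≤ ∑ x, (w * T.th (mk x)).re).image
    fun mk x => E.symm (φ x, mk x), ?_, fun χ hχ => ?_⟩
  · rw [sum_image fun mk _ mk' _ e => funext fun x =>
      (Prod.ext_iff.1 (E.symm.injective (congrFun e x))).2]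
    refine r.trans_eq (sum_congr rfl fun mk _ => ?_)
    rw [← sum_neg_distrib, exp_sum]
    refine prod_congr rfl fun x _ => ?_
    have e : ((fun z => (E z).2) ∘ star M (fun x => E.symm (φ x, mk x)) x) = star M mk x := by
      funext o; cases o <;> simp [star]
    rw [e, neg_sub, exp_sub, exp_log (q0 _ _), exp_log p0]
    simp [star]
  · obtain ⟨mk, hm, rfl⟩ := mem_image.1 hχ
    exact ⟨funext fun x => by simp, by simpa using (mem_filter.1 hm).2⟩

end CUx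

end Pool.Agent.P.MP_6b977f_mp.RG
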