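import Mathlib

/-! Regular graphs, copies of finite trees and the Gaussian wave of the regular tree. -/

namespace Pool.Agent.P.MP_6b977f_mp.LW

open Finset
open scoped Classical

/-- the `d`-regular simple graphs on `N` labelled vertices -/
noncomputable def Reg (d N : ℕ) : Finset (SimpleGraph (Fin N)) :=
  univ.filter fun G => ∀ x, (G.neighborSet x).ncard = d

/-- the spherical function of the `d`-regular tree with eigenvalue `lam`, at distance `l` -/
noncomputable def sph (d : ℕ) (lam : ℝ) : ℕ → ℝ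
  | 0 => 1
  | 1 => lam / d
  | l + 2 => (lam * sph d lam (l + 1) - sph d lam l) / (d - 1)

/-- the vertices of degree `d` -/
noncomputable def inn (d : ℕ) {m : ℕ} (T : SimpleGraph (Fin m)) : Finset (Fin m) :=
  univ.filter fun v => (T.neighborSet v).ncard = d

/-- finite trees whose degrees are `d` or one, with some vertex of degree `d` -/
def Full (d : ℕ) {m : ℕ} (T : SimpleGraph (Fin m)) : Prop :=
  T.IsTree ∧ (inn d T).Nonempty ∧ ∀ v, v ∈ inn d T ∨ (T.neighborSet v).ncard = 1

/-- the labelled copies of `T` in `G` -/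
noncomputable def emb {m N : ℕ} (T : SimpleGraph (Fin m)) (G : SimpleGraph (Fin N)) :
    Finset (Fin m → Fin N) :=
  univ.filter fun e => Function.Injective e ∧ ∀ u v, T.Adj u v → G.Adj (e u) (e v)

/-- the empirical law of `ψ` on the copies of `T` is close to the law on `T` of the Gaussian wave
of variance one and eigenvalue `lam` -/
def Wave (d : ℕ) {m N : ℕ} (T : SimpleGraph (Fin m)) (G : SimpleGraph (Fin N)) (ψ : Fin N → ℝ)
    (lam R ε : ℝ) : Prop :=
  ∀ a : Fin m → ℝ, ∑ v, |a v| ≤ R →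
    ‖(∑ e ∈ emb T G, Complex.exp (Complex.I * (∑ v, a v * ψ (e v) : ℝ))) /
        (N * d * (d - 1).factorial ^ #(inn d T)) -
      (Real.exp (-(∑ u, ∑ v, a u * a v * sph d lam (T.dist u v)) / 2) : ℝ)‖ ≤ ε

/-- every normalised adjacency eigenvector with eigenvalue in the bulk is close to the wave -/
def Berry (d : ℕ) {m N : ℕ} (T : SimpleGraph (Fin m)) (κ R ε : ℝ) (G : SimpleGraph (Fin N)) :
    Prop :=
  ∀ (ψ : Fin N → ℝ) (lam : ℝ), (∀ x, ∑ y ∈ univ.filter (G.Adj x), ψ y = lam * ψ x) →
    ∑ x, ψ x ^ 2 = N → |lam| ≤ 2 * √(d - 1) - κ → Wave d T G ψ lam R ε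

end Pool.Agent.P.MP_6b977f_mp.LW
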