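import Pool.Agent.P.MP_6b977f_mp.RG.IfaceB
import Pool.Agent.P.MP_6b977f_mp.RG.DefsT

/-! The statement for all radii and the last steps of its proof. -/

namespace Pool.Agent.P.MP_6b977f_mp.RG

open Finset MeasureTheory Real
open scoped Classical

/-- the empirical characteristic function on the copies of `T` -/
noncomputable def chiT (d : ℕ) {m N : ℕ} (T : SimpleGraph (Fin m)) (G : SimpleGraph (Fin N))
    (ψ : Fin N → ℝ) (a : Fin m → ℝ) : ℂ :=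
  (∑ e ∈ LW.emb T G, Complex.exp (Complex.I * (∑ v, a v * ψ (e v) : ℝ))) /
    (N * d * (d - 1).factorial ^ #(LW.inn d T))

/-- the variance of the wave -/
noncomputable def varT (d : ℕ) {m : ℕ} (T : SimpleGraph (Fin m)) (lam : ℝ) (a : Fin m → ℝ) : ℝ :=
  ∑ u, ∑ v, a u * a v * LW.sph d lam (T.dist u v)

-- deps:
def S_CONFU : Prop := ∀ (d m : ℕ) (T : SimpleGraph (Fin m)) (a : Fin m → ℝ) (κ ε : ℝ), 3 ≤ d →
  LW.Full d T → 0 < κ → 0 < ε → ∃ N0 : ℕ, ∀ N : ℕ, N0 ≤ N →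
  (#((Cf d N).filter fun M => Simple M ∧ ∃ ψ lam, Eig M ψ lam ∧ |lam| ≤ 2 * √(d - 1) - κ ∧
    ε < ‖chiT d T (graph M) ψ a - (exp (-varT d T lam a / 2) : ℝ)‖) : ℝ) ≤ ε * #(Cf d N)

-- deps:
def S_FIBU : Prop := ∀ (d m N : ℕ) (T : SimpleGraph (Fin m)) (G : SimpleGraph (Fin N))
  (w : Fin m) (y : Fin N), T.Connected → G ∈ Reg d N →
  #((LW.emb T G).filter fun e => e w = y) ≤ (d + 1) ^ m

-- deps: FIBU
def S_NETU : Prop := ∀ (d m : ℕ) (T : SimpleGraph (Fin m)) (R ε : ℝ), 3 ≤ d → T.Connected →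
  0 < ε → ∃ A : Finset (Fin m → ℝ), ∀ (N : ℕ) (G : SimpleGraph (Fin N)) (ψ : Fin N → ℝ) (lam : ℝ),
    G ∈ Reg d N → 1 ≤ N → ∑ x, ψ x ^ 2 = N → |lam| ≤ d →
    (∀ a ∈ A, ‖chiT d T G ψ a - (exp (-varT d T lam a / 2) : ℝ)‖ ≤ ε / 2) →
    LW.Wave d T G ψ lam R ε

-- deps: CONFU NETU SIM FIB
def S_MAINU : Prop := ∀ (d m : ℕ) (T : SimpleGraph (Fin m)) (κ R ε : ℝ), 3 ≤ d → LW.Full d T →
  0 < κ → 0 < ε → ∃ N0 : ℕ, ∀ N : ℕ, N0 ≤ N →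
  (#((LW.Reg d N).filter fun G => ¬ LW.Berry d T κ R ε G) : ℝ) ≤ ε * #(LW.Reg d N)

end Pool.Agent.P.MP_6b977f_mp.RG
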