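import Mathlib

/-! Distances in finite trees. -/

set_option autoImplicit false

namespace Pool.Agent.P.MP_6b977f_mp.RG.Tree

open Finset SimpleGraph

variable {P : Type} {T : SimpleGraph P}

theorem closer_exists (hT : T.IsTree) {z p : P} (h : z ≠ p) :
    ∃ c, T.Adj p c ∧ T.dist z c + 1 = T.dist z p := by
  obtain ⟨w, hw⟩ := hT.connected.exists_walk_length_eq_dist p z
  cases w with
  | nil => exact absurd rfl h
  | @cons _ c _ ha w =>
    refine ⟨c, ha, ?_⟩
    have h1 := dist_le w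
    rw [Walk.length_cons] at hw
    rw [dist_comm (u := z), dist_comm (u := z)]
    rcases hT.dist_eq_dist_add_one_of_adj z ha with e | e <;>
      rw [dist_comm (u := z), dist_comm (u := z)] at e <;> omega

theorem closer_unique (hT : T.IsTree) {z p c c' : P} (h : T.Adj p c) (h' : T.Adj p c')
    (e : T.dist z c + 1 = T.dist z p) (e' : T.dist z c' + 1 = T.dist z p) : c = c' := by
  obtain ⟨w, hw⟩ := hT.connected.exists_walk_length_eq_dist c z
  obtain ⟨w', hw'⟩ := hT.connected.exists_walk_length_eq_dist c' z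
  have k := (Walk.cons h w).isPath_of_length_eq_dist (by
    rw [Walk.length_cons, hw, dist_comm, e, dist_comm])
  have k' := (Walk.cons h' w').isPath_of_length_eq_dist (by
    rw [Walk.length_cons, hw', dist_comm, e', dist_comm])
  have := congrArg (fun p : T.Path p z => p.1.getVert 1) 
    ((hT.isAcyclic.subsingleton_path p z).elim ⟨_, k⟩ ⟨_, k'⟩)
  simpa using this

theorem down (hT : T.IsTree) {o z : P} : ∀ (n : ℕ) {p c : P}, T.Adj p c →
    T.dist o p + 1 = T.dist o c → T.dist z c + 1 = T.dist z p → T.dist z c = n →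
    T.dist o z = T.dist o c + n
  | 0, _, _, _, _, _, h => by rw [hT.connected.dist_eq_zero_iff.1 h, add_zero]
  | n + 1, p, c, ha, h1, h2, h => by
    obtain ⟨c1, a1, e1⟩ := closer_exists hT (z := z) (p := c) fun e => by simp [e] at h
    have h3 : T.dist o c + 1 = T.dist o c1 := by
      rcases hT.dist_eq_dist_add_one_of_adj o a1 with e | e
      · have := closer_unique hT a1 ha.symm e.symm h1
        subst this
        omega
      · exact e.symm
    have := down hT n a1 h3 e1 (by omega)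
    omega

/-- a vertex that is not deeper than `c` is seen from `c` through its parent -/
theorem through (hT : T.IsTree) {o z p c : P} (ha : T.Adj p c) (h1 : T.dist o p + 1 = T.dist o c)
    (hz : T.dist o z ≤ T.dist o c) (hne : z ≠ c) : T.dist c z = T.dist p z + 1 := by
  rw [dist_comm, dist_comm (u := p)]
  rcases hT.dist_eq_dist_add_one_of_adj z ha with e | e
  · have := down hT _ ha h1 e.symm rfl
    have := hT.connected.pos_dist_of_ne hne
    omega
  · exact e

open scoped Classical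

/-- a rooted tree with degrees `d` or one, with numbered neighbours -/
structure Rt (T : SimpleGraph P) (d : ℕ) where
  tree : T.IsTree
  root : P
  inner : P → Prop
  nb : P → Fin d → P
  up : P → Fin d
  par : P → P
  inner_root : inner root
  inj : ∀ p, inner p → Function.Injective (nb p)
  adj : ∀ p, inner p → ∀ c, T.Adj p c ↔ ∃ i, nb p i = c
  leaf : ∀ p, ¬ inner p → ∀ c c', T.Adj p c → T.Adj p c' → c = c'
  par_adj : ∀ p, p ≠ root → T.Adj p (par p)
  par_dist : ∀ p, p ≠ root → T.dist root (par p) + 1 = T.dist root p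
  nb_up : ∀ p, inner p → p ≠ root → nb p (up p) = par p

theorem exists_Rt [Finite P] {d : ℕ} (hT : T.IsTree) (hd : 0 < d)
    (h : ∀ p, (T.neighborSet p).ncard = d ∨ (T.neighborSet p).ncard = 1) (o : P)
    (ho : (T.neighborSet o).ncard = d) : Nonempty (Rt T d) := by
  have h1 : ∀ p, ∃ f : Fin d → P, (T.neighborSet p).ncard = d →
      Function.Injective f ∧ ∀ c, T.Adj p c ↔ ∃ i, f i = c := fun p => by
    by_cases hp : (T.neighborSet p).ncard = d
    · have e : T.neighborSet p ≃ Fin d := Finite.equivFinOfCardEq hp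
      exact ⟨fun i => e.symm i, fun _ => ⟨Subtype.val_injective.comp e.symm.injective, fun c =>
        ⟨fun hc => ⟨e ⟨c, hc⟩, by simp⟩, fun ⟨i, hi⟩ => hi ▸ (e.symm i).2⟩⟩⟩
    · exact ⟨fun _ => p, fun h => absurd h hp⟩
  choose nb hnb using h1
  have h2 : ∀ p, ∃ c, p ≠ o → T.Adj p c ∧ T.dist o c + 1 = T.dist o p := fun p => by
    by_cases hp : p = o
    · exact ⟨p, fun h => absurd hp h⟩
    · exact (closer_exists hT (Ne.symm hp)).imp fun _ h _ => h
  choose par hpar using h2
  have h3 : ∀ p, ∃ i, (T.neighborSet p).ncard = d → p ≠ o → nb p i = par p := fun p => by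
    by_cases hp : (T.neighborSet p).ncard = d ∧ p ≠ o
    · exact (((hnb p hp.1).2 _).1 (hpar p hp.2).1).imp fun _ h _ _ => h
    · exact ⟨⟨0, hd⟩, fun a b => absurd ⟨a, b⟩ hp⟩
  choose up hup using h3
  refine ⟨⟨hT, o, fun p => (T.neighborSet p).ncard = d, nb, up, par, ho, fun p hp => (hnb p hp).1,
    fun p hp => (hnb p hp).2, fun p hp c c' hc hc' => ?_, fun p hp => (hpar p hp).1,
    fun p hp => (hpar p hp).2, hup⟩⟩
  obtain ⟨a, ha⟩ := Set.ncard_eq_one.1 ((h p).resolve_left hp)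
  exact (show c ∈ ({a} : Set P) from ha ▸ hc).trans (show c' ∈ ({a} : Set P) from ha ▸ hc').symm

namespace Rt
variable {d : ℕ} (R : Rt T d)

/-- the ports that lead to children -/
noncomputable def ch (p : P) : Finset (Fin d) :=
  univ.filter fun i => R.inner p ∧ (p = R.root ∨ i ≠ R.up p)

theorem mem_ch {p : P} {i : Fin d} : i ∈ R.ch p ↔ R.inner p ∧ (p = R.root ∨ i ≠ R.up p) := by
  simp [ch]

theorem ch_root : R.ch R.root = univ := by ext i; simp [mem_ch, R.inner_root]

theorem ch_inner {p : P} (h : R.inner p) (hp : p ≠ R.root) : R.ch p = univ.erase (R.up p) := by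
  ext i; simp [mem_ch, h, hp]

theorem ch_leaf {p : P} (h : ¬ R.inner p) : R.ch p = ∅ := by ext i; simp [mem_ch, h]

theorem adj_nb {p : P} (h : R.inner p) (i : Fin d) : T.Adj p (R.nb p i) := (R.adj p h _).2 ⟨i, rfl⟩

theorem dist_ch {p : P} {i : Fin d} (h : i ∈ R.ch p) :
    T.dist R.root p + 1 = T.dist R.root (R.nb p i) := by
  obtain ⟨h1, h2⟩ := R.mem_ch.1 h
  rcases R.tree.dist_eq_dist_add_one_of_adj R.root (R.adj_nb h1 i) with e | e
  · have hp : p ≠ R.root := fun k => by simp [k] at e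
    have := closer_unique R.tree (R.adj_nb h1 i) (R.par_adj p hp) e.symm (R.par_dist p hp)
    rw [← R.nb_up p h1 hp] at this
    exact absurd (R.inj p h1 this) (h2.resolve_left hp)
  · exact e.symm

theorem ch_ne {p : P} {i : Fin d} (h : i ∈ R.ch p) : R.nb p i ≠ R.root := fun e => by
  simpa [e] using R.dist_ch h

theorem par_ch {p : P} {i : Fin d} (h : i ∈ R.ch p) : R.par (R.nb p i) = p :=
  closer_unique R.tree (R.par_adj _ (R.ch_ne h)) (R.adj_nb (R.mem_ch.1 h).1 i).symm
    (R.par_dist _ (R.ch_ne h)) (R.dist_ch h)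

theorem exists_ch {u : P} (hu : u ≠ R.root) : ∃ i ∈ R.ch (R.par u), R.nb (R.par u) i = u := by
  have h1 := R.par_dist u hu
  have h2 : R.inner (R.par u) := by
    by_contra h
    have hp : R.par u ≠ R.root := fun e => h (e ▸ R.inner_root)
    have := R.par_dist _ hp
    rw [R.leaf _ h _ _ (R.par_adj _ hp) (R.par_adj u hu).symm] at this
    omega
  obtain ⟨i, hi⟩ := (R.adj _ h2 u).1 (R.par_adj u hu).symm
  refine ⟨i, R.mem_ch.2 ⟨h2, or_iff_not_imp_left.2 fun hp e => ?_⟩, hi⟩
  have := R.par_dist _ hp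
  rw [← R.nb_up _ h2 hp, ← e, hi] at this
  omega

variable [Fintype P]

theorem prod_ch [DecidableEq P] {M : Type} [CommMonoid M] (F : P → P → M) :
    ∏ p, ∏ i ∈ R.ch p, F (R.nb p i) p = ∏ u ∈ univ.erase R.root, F u (R.par u) := by
  rw [prod_sigma']
  refine prod_bij (fun x _ => R.nb x.1 x.2) (fun x hx => by simpa using R.ch_ne (mem_sigma.1 hx).2)
    ?_ (fun u hu => ?_) fun x hx => by rw [R.par_ch (mem_sigma.1 hx).2]
  · rintro ⟨p, i⟩ hx ⟨p', i'⟩ hy e
    have h1 : i ∈ R.ch p := (mem_sigma.1 hx).2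
    have h2 : i' ∈ R.ch p' := (mem_sigma.1 hy).2
    obtain rfl : p = p' := (R.par_ch h1).symm.trans ((congrArg _ e).trans (R.par_ch h2))
    rw [show i = i' from R.inj p (R.mem_ch.1 h1).1 e]
  · obtain ⟨i, hi, e⟩ := R.exists_ch (ne_of_mem_erase hu)
    exact ⟨⟨_, i⟩, mem_sigma.2 ⟨mem_univ _, hi⟩, e⟩

theorem sum_ch [DecidableEq P] (F : P → P → ℝ) :
    ∑ p, ∑ i ∈ R.ch p, F (R.nb p i) p = ∑ u ∈ univ.erase R.root, F u (R.par u) :=
  R.prod_ch (M := Multiplicative ℝ) F

theorem wf : WellFounded fun c p : P => T.dist R.root p < T.dist R.root c :=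
  @Finite.wellFounded_of_trans_of_irrefl P _ _ ⟨fun _ _ _ h h' => h'.trans h⟩ ⟨fun _ => lt_irrefl _⟩

/-- induction from the leaves to the root -/
theorem ind_up {C : P → Prop} (h : ∀ p, (∀ i ∈ R.ch p, C (R.nb p i)) → C p) (p : P) : C p :=
  R.wf.induction p fun p ih => h p fun _ hi => ih _ (Nat.lt_of_succ_le (R.dist_ch hi).le)

/-- recursion from the leaves to the root -/
theorem rec_up {α : Type} (a0 : α) (F : P → (Fin d → α) → α) : ∃ a : P → α,
    ∀ p, a p = F p fun i => if i ∈ R.ch p then a (R.nb p i) else a0 := by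
  refine ⟨R.wf.fix fun p ih => F p fun i => if h : i ∈ R.ch p then
    ih _ (Nat.lt_of_succ_le (R.dist_ch h).le) else a0, fun p => ?_⟩
  rw [WellFounded.fix_eq]
  simp only [dite_eq_ite]

section cov
variable {lam : ℝ} {φ : ℕ → ℝ} {t al be : P → ℝ}

omit [Fintype P] in
theorem eigen (h1 : d * φ 1 = lam * φ 0) (h : ∀ n, φ n + (d - 1) * φ (n + 2) = lam * φ (n + 1))
    {p : P} (hp : R.inner p) (z : P) :
    ∑ i, φ (T.dist (R.nb p i) z) = lam * φ (T.dist p z) := by
  by_cases hz : z = p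
  · subst hz
    simp [dist_eq_one_iff_adj.2 (R.adj_nb hp _).symm, h1]
  obtain ⟨c, hc, e⟩ := closer_exists R.tree hz
  obtain ⟨j, rfl⟩ := (R.adj p hp c).1 hc
  have k : ∀ i ∈ univ.erase j, φ (T.dist (R.nb p i) z) = φ (T.dist z (R.nb p j) + 2) :=
    fun i hi => by
      rcases R.tree.dist_eq_dist_add_one_of_adj z (R.adj_nb hp i) with e' | e'
      · exact absurd (R.inj p hp (closer_unique R.tree (R.adj_nb hp i) hc e'.symm e))
          (ne_of_mem_erase hi)
      · rw [dist_comm, e', ← e]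
  rw [← add_sum_erase _ _ (mem_univ j), sum_congr rfl k, sum_const, card_erase_of_mem (mem_univ j),
    card_fin, nsmul_eq_mul, Nat.cast_pred j.pos, dist_comm, h, e, dist_comm]

/-- decomposition of a linear functional into the star at the root and the innovations -/
theorem dec [DecidableEq P] {f : P → ℝ}
    (hf : ∀ p, R.inner p → ∑ i, f (R.nb p i) = lam * f p)
    (ha : ∀ p, p ≠ R.root → al p = t p + ∑ i ∈ R.ch p, be (R.nb p i) +
      lam / (d - 1) * ∑ i ∈ R.ch p, al (R.nb p i))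
    (hb : ∀ p, p ≠ R.root → be p = -(∑ i ∈ R.ch p, al (R.nb p i)) / (d - 1)) :
    ∑ u, t u * f u = (t R.root + ∑ i, be (R.nb R.root i)) * f R.root +
      ∑ i, al (R.nb R.root i) * f (R.nb R.root i) + ∑ p ∈ univ.erase R.root, ∑ i ∈ R.ch p,
        (al (R.nb p i) - (∑ j ∈ R.ch p, al (R.nb p j)) / (d - 1)) * f (R.nb p i) := by
  have h1 := R.sum_ch fun c _ => al c * f c
  have h2 := R.sum_ch fun c p => be c * f p
  rw [← add_sum_erase _ _ (mem_univ R.root), ch_root] at h1 h2
  have h3 : ∀ u ∈ univ.erase R.root, t u * f u = al u * f u -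
      ∑ i ∈ R.ch u, be (R.nb u i) * f u + be u * f (R.par u) -
      ∑ i ∈ R.ch u, (∑ j ∈ R.ch u, al (R.nb u j)) / (d - 1) * f (R.nb u i) := fun u hu => by
    have hu := ne_of_mem_erase hu
    rw [← sum_mul, ← mul_sum, ha u hu, hb u hu]
    by_cases hi : R.inner u
    · have := hf u hi
      rw [← add_sum_erase _ _ (mem_univ (R.up u)), R.nb_up u hi hu, ← R.ch_inner hi hu] at this
      linear_combination (∑ j ∈ R.ch u, al (R.nb u j)) / (d - 1) * this
    · simp [R.ch_leaf hi]
  rw [← add_sum_erase _ _ (mem_univ R.root), sum_congr rfl h3]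
  simp only [sum_sub_distrib, sum_add_distrib, sub_mul, ← sum_mul] at h1 h2 ⊢
  linarith

omit [Fintype P] in
theorem orth {p z : P} {w : Fin d → ℝ} (hw : ∑ i ∈ R.ch p, w i = 0)
    (hz : T.dist R.root z ≤ T.dist R.root p + 1) (hne : ∀ i ∈ R.ch p, z ≠ R.nb p i) :
    ∑ i ∈ R.ch p, w i * φ (T.dist (R.nb p i) z) = 0 := by
  rw [sum_congr rfl fun i hi => by
    rw [through R.tree (R.adj_nb (R.mem_ch.1 hi).1 i) (R.dist_ch hi) (R.dist_ch hi ▸ hz)
      (hne i hi)], ← sum_mul, hw, zero_mul]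

omit [Fintype P] in
theorem sib {p : P} {w v : Fin d → ℝ} (h0 : φ 0 = 1) :
    ∑ i ∈ R.ch p, w i * ∑ j ∈ R.ch p, v j * φ (T.dist (R.nb p j) (R.nb p i)) =
      (1 - φ 2) * ∑ i ∈ R.ch p, w i * v i + φ 2 * ((∑ i ∈ R.ch p, w i) * ∑ i ∈ R.ch p, v i) := by
  rw [sum_mul, mul_sum, mul_sum, ← sum_add_distrib]
  refine sum_congr rfl fun i hi => ?_
  have hp := (R.mem_ch.1 hi).1
  have k : ∀ j ∈ R.ch p, v j * φ (T.dist (R.nb p j) (R.nb p i)) =
      v j * φ 2 + if i = j then (1 - φ 2) * v j else 0 := fun j hj => by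
    split_ifs with e
    · subst e; simp [h0]; ring
    · rw [through R.tree (R.adj_nb hp j) (R.dist_ch hj) ((R.dist_ch hi).ge.trans (R.dist_ch hj).le)
        fun k => e (R.inj p hp k), dist_eq_one_iff_adj.2 (R.adj_nb hp i), add_zero]
  rw [sum_congr rfl k, sum_add_distrib, sum_ite_eq, if_pos hi, ← sum_mul]
  ring

/-- the variance splits into the star at the root and the innovations -/
theorem quad [DecidableEq P] (hd : (d : ℝ) - 1 ≠ 0) (h0 : φ 0 = 1) (h1 : d * φ 1 = lam)
    (h : ∀ n, φ n + (d - 1) * φ (n + 2) = lam * φ (n + 1))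
    (ha : ∀ p, p ≠ R.root → al p = t p + ∑ i ∈ R.ch p, be (R.nb p i) +
      lam / (d - 1) * ∑ i ∈ R.ch p, al (R.nb p i))
    (hb : ∀ p, p ≠ R.root → be p = -(∑ i ∈ R.ch p, al (R.nb p i)) / (d - 1)) :
    ∑ u, t u * ∑ v, t v * φ (T.dist v u) = (t R.root + ∑ i, be (R.nb R.root i)) ^ 2 +
      2 * φ 1 * (t R.root + ∑ i, be (R.nb R.root i)) * ∑ i, al (R.nb R.root i) +
      ((1 - φ 2) * ∑ i, al (R.nb R.root i) ^ 2 + φ 2 * (∑ i, al (R.nb R.root i)) ^ 2) +
      ∑ p ∈ univ.erase R.root, (1 - φ 2) * (∑ i ∈ R.ch p, al (R.nb p i) ^ 2 -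
        (∑ i ∈ R.ch p, al (R.nb p i)) ^ 2 / (d - 1)) := by
  have he := fun p hp z => R.eigen (φ := φ) (lam := lam) (by rw [h0, h1, mul_one]) h (p := p) hp z
  obtain ⟨w, hw⟩ : ∃ w : P → Fin d → ℝ,
    ∀ p i, al (R.nb p i) - (∑ j ∈ R.ch p, al (R.nb p j)) / (d - 1) = w p i := ⟨_, fun _ _ => rfl⟩
  have hc : ∀ p ∈ univ.erase R.root, R.inner p → (#(R.ch p) : ℝ) = d - 1 := fun p hp hi => by
    rw [R.ch_inner hi (ne_of_mem_erase hp), card_erase_of_mem (mem_univ _), card_fin,
      Nat.cast_pred (R.up p).pos]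
  have w0 : ∀ p ∈ univ.erase R.root, ∑ i ∈ R.ch p, w p i = 0 := fun p hp => by
    by_cases hi : R.inner p
    · simp only [← hw, sum_sub_distrib, sum_const, nsmul_eq_mul, hc p hp hi]; field_simp; ring
    · simp [R.ch_leaf hi]
  have pos : ∀ p ∈ univ.erase R.root, 1 ≤ T.dist R.root p := fun p hp =>
    R.tree.connected.pos_dist_of_ne (ne_of_mem_erase hp).symm
  have d1 : ∀ i, T.dist R.root (R.nb R.root i) = 1 := fun i =>
    dist_eq_one_iff_adj.2 (R.adj_nb R.inner_root i)
  have o1 : ∀ z, T.dist R.root z ≤ 1 → ∑ p ∈ univ.erase R.root, ∑ i ∈ R.ch p,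
      w p i * φ (T.dist (R.nb p i) z) = 0 := fun z hz => sum_eq_zero fun p hp =>
    R.orth (w0 p hp) (by omega) fun i hi e => by
      have := R.dist_ch hi; have := pos p hp; rw [← e] at *; omega
  have g := fun z => R.dec (f := fun v => φ (T.dist v z)) (fun p hp => he p hp z) ha hb
  simp only [hw] at g
  rw [R.dec (f := fun u => ∑ v, t v * φ (T.dist v u)) (fun p hp => by
    rw [sum_comm, mul_sum]
    exact sum_congr rfl fun v _ => by
      simp only [← mul_sum, dist_comm (u := v), he p hp v]; ring) ha hb]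
  simp only [hw]
  have e3 : ∀ p ∈ univ.erase R.root, ∑ i ∈ R.ch p, w p i * ∑ v, t v * φ (T.dist v (R.nb p i)) =
      (1 - φ 2) * (∑ i ∈ R.ch p, al (R.nb p i) ^ 2 -
        (∑ i ∈ R.ch p, al (R.nb p i)) ^ 2 / (d - 1)) := fun p hp => by
    have o2 : ∀ z, T.dist R.root z ≤ 1 →
        ∑ i ∈ R.ch p, w p i * φ (T.dist z (R.nb p i)) = 0 := fun z hz => by
      simp only [dist_comm (u := z)]
      exact R.orth (w0 p hp) (by omega) fun i hi e => by
        have := R.dist_ch hi; have := pos p hp; rw [← e] at *; omega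
    have o3 : ∀ p' ∈ univ.erase R.root, p' ≠ p → ∑ i ∈ R.ch p, w p i *
        ∑ j ∈ R.ch p', w p' j * φ (T.dist (R.nb p' j) (R.nb p i)) = 0 := fun p' hp' hne => by
      rcases le_total (T.dist R.root p) (T.dist R.root p') with k | k
      · refine sum_eq_zero fun i hi => mul_eq_zero_of_right _ (R.orth (w0 p' hp')
          (by have := R.dist_ch hi; omega) fun j hj e => hne ?_)
        rw [← R.par_ch hi, e, R.par_ch hj]
      · simp only [mul_sum, mul_left_comm (w p _)]
        rw [sum_comm]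
        refine sum_eq_zero fun j hj => ?_
        simp only [← mul_sum, dist_comm (u := R.nb p' j)]
        refine mul_eq_zero_of_right _ (R.orth (w0 p hp)
          (by have := R.dist_ch hj; omega) fun i hi e => hne ?_)
        rw [← R.par_ch hi, ← e, R.par_ch hj]
    have o4 : ∑ i ∈ R.ch p, w p i * ∑ j, al (R.nb R.root j) *
        φ (T.dist (R.nb R.root j) (R.nb p i)) = 0 := by
      simp only [mul_sum, mul_left_comm (w p _)]
      rw [sum_comm]
      exact sum_eq_zero fun j _ => by rw [← mul_sum, o2 _ (d1 j).le, mul_zero]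
    simp only [g, mul_add, sum_add_distrib, o4, mul_left_comm (w p _), ← mul_sum,
      o2 R.root (by simp), mul_zero, zero_add]
    simp only [mul_sum (s := univ.erase R.root)]
    rw [sum_comm, sum_eq_single_of_mem p hp o3, R.sib h0, w0 p hp, mul_zero, mul_zero, add_zero]
    by_cases hi : R.inner p
    · simp only [← hw, ← sq, sub_sq, sum_add_distrib, sum_sub_distrib, ← sum_mul, ← mul_sum,
        sum_const, nsmul_eq_mul, hc p hp hi]
      field_simp
      ring
    · simp [R.ch_leaf hi]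
  have s1 := R.sib (p := R.root) (w := fun i => al (R.nb R.root i))
    (v := fun i => al (R.nb R.root i)) h0
  rw [ch_root] at s1
  rw [sum_congr rfl e3, g, o1 _ (by simp)]
  simp only [g, o1 _ (d1 _).le, d1, dist_comm (v := R.root), SimpleGraph.dist_self, h0, add_zero, mul_add,
    sum_add_distrib, s1, ← sum_mul, ← sq]
  ring

end cov

end Rt

end Pool.Agent.P.MP_6b977f_mp.RG.Tree
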