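import Pool.Agent.P.MP_6b977f_mp.RG.LibU
import Pool.Agent.P.MP_6b977f_mp.RG.LibTree
import Pool.Agent.P.MP_6b977f_mp.RG.IfaceT

/-! Tree data from a finite tree: the recursion, the variance and the constant. -/

namespace Pool.Agent.P.MP_6b977f_mp.RG.Tree

open Finset Real
open scoped Classical

variable {d m : ℕ} {T : SimpleGraph (Fin m)}

theorem exists_full (hd : 3 ≤ d) (h : LW.Full d T) : Nonempty (Rt T d) := by
  obtain ⟨o, ho⟩ := h.2.1
  exact exists_Rt h.1 (by omega) (fun p => by simpa [LW.inn] using h.2.2 p) o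
    (by simpa [LW.inn] using ho)

namespace Rt
variable (R : Rt T d)

theorem mem_ch' {p : Fin m} {i : Fin d} (hp : R.inner p)
    (h : T.dist R.root p < T.dist R.root (R.nb p i)) : i ∈ R.ch p :=
  R.mem_ch.2 ⟨hp, or_iff_not_imp_left.2 fun k e => by
    have := R.par_dist p k
    rw [e, R.nb_up p hp k] at h
    omega⟩

/-- the positions -/
noncomputable def toTr : Tr d where
  P := Fin m
  dep := T.dist R.root
  inner := R.inner
  nb := R.nb
  root := R.root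
  up := R.up
  inner_root := R.inner_root
  inj := R.inj
  dep_root i := Nat.lt_of_succ_le (R.dist_ch (R.ch_root ▸ mem_univ i)).le
  dep_up p h hp := by rw [R.nb_up p h hp]; exact Nat.lt_of_succ_le (R.par_dist p hp).le
  dep_ch p h _ i hi := Nat.lt_of_succ_le (R.dist_ch (R.mem_ch.2 ⟨h, Or.inr hi⟩)).le
  ch_ne p i h k := R.ch_ne (R.mem_ch' h k)
  ch_up p i h k h' := by rw [R.nb_up _ h' (R.ch_ne (R.mem_ch' h k)), R.par_ch (R.mem_ch' h k)]
  par := R.par
  par_in p hp := by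
    obtain ⟨i, hi, e⟩ := R.exists_ch hp
    exact ⟨(R.mem_ch.1 hi).1, Nat.lt_of_succ_le (R.par_dist p hp).le, i, e⟩
  par_ch p i h k := R.par_ch (R.mem_ch' h k)

theorem card_P : Fintype.card R.toTr.P = m := Fintype.card_fin m

theorem inner_iff (hd : 3 ≤ d) (p : Fin m) : R.inner p ↔ p ∈ LW.inn d T := by
  rw [LW.inn, mem_filter, and_iff_right (mem_univ p)]
  refine ⟨fun h => ?_, fun h => by_contra fun k => ?_⟩
  · rw [show T.neighborSet p = Set.range (R.nb p) from Set.ext fun c => R.adj p h c,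
      Set.ncard_range_of_injective (R.inj p h), Nat.card_fin]
  · have := (Set.ncard_le_one_iff (s := T.neighborSet p)).2 fun a b => R.leaf p k _ _ a b
    omega

theorem exists_rec (lam : ℝ) (t : Fin m → ℝ) :
    ∃ al be Q cc : Fin m → ℝ, R.toTr.Rec lam t al be Q cc := by
  obtain ⟨a, ha⟩ := R.rec_up ((0, 0, 0, 1) : ℝ × ℝ × ℝ × ℝ) fun p v =>
    (t p + ∑ i ∈ R.ch p, (v i).2.1 + lam / (d - 1) * ∑ i ∈ R.ch p, (v i).1,
      -(∑ i ∈ R.ch p, (v i).1) / (d - 1), ∑ i ∈ R.ch p, (v i).2.2.1 +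
        (d ^ 2 - lam ^ 2) / (d * (d - 1)) *
        (∑ i ∈ R.ch p, (v i).1 ^ 2 - (∑ i ∈ R.ch p, (v i).1) ^ 2 / (d - 1)),
      (if R.inner p then (d - 1).factorial / (4 * (m : ℝ) ^ (d - 1)) else 1 / 4) *
        ∏ i ∈ R.ch p, (v i).2.2.2)
  have s : ∀ p (f : ℝ × ℝ × ℝ × ℝ → ℝ), ∑ i ∈ R.ch p,
      f (if i ∈ R.ch p then a (R.nb p i) else (0, 0, 0, 1)) = ∑ i ∈ R.ch p, f (a (R.nb p i)) :=
    fun p f => sum_congr rfl fun i hi => by rw [if_pos hi]
  have s' : ∀ p, ∏ i ∈ R.ch p, (if i ∈ R.ch p then a (R.nb p i) else (0, 0, 0, 1)).2.2.2 =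
      ∏ i ∈ R.ch p, (a (R.nb p i)).2.2.2 := fun p => prod_congr rfl fun i hi => by rw [if_pos hi]
  refine ⟨fun p => (a p).1, fun p => (a p).2.1, fun p => (a p).2.2.1, fun p => (a p).2.2.2,
    fun (p : Fin m) hp => ?_⟩
  have := ha p
  beta_reduce at this
  rw [s p (·.1), s p (·.2.1), s p (·.2.2.1), s p (·.1 ^ 2), s'] at this
  refine ⟨fun (h : ¬ R.inner p) => ?_, fun (h : R.inner p) => ?_⟩
  · rw [R.ch_leaf h, if_neg h] at this
    simp [this]
  · rw [R.ch_inner h hp, if_pos h] at this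
    rw [card_P]
    exact ⟨congrArg (·.1) this, congrArg (·.2.1) this, congrArg (·.2.2.1) this,
      congrArg (·.2.2.2) this⟩

variable {R} {lam : ℝ} {t al be Q cc : Fin m → ℝ}

theorem rec_ch (h : R.toTr.Rec lam t al be Q cc) {p : Fin m} (hp : p ≠ R.root) :
    al p = t p + ∑ i ∈ R.ch p, be (R.nb p i) + lam / (d - 1) * ∑ i ∈ R.ch p, al (R.nb p i) ∧
    be p = -(∑ i ∈ R.ch p, al (R.nb p i)) / (d - 1) ∧
    Q p = ∑ i ∈ R.ch p, Q (R.nb p i) + (d ^ 2 - lam ^ 2) / (d * (d - 1)) *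
      (∑ i ∈ R.ch p, al (R.nb p i) ^ 2 - (∑ i ∈ R.ch p, al (R.nb p i)) ^ 2 / (d - 1)) ∧
    cc p = (if R.inner p then (d - 1).factorial / (4 * (m : ℝ) ^ (d - 1)) else 1 / 4) *
      ∏ i ∈ R.ch p, cc (R.nb p i) := by
  by_cases hi : R.inner p
  · have := (h p hp).2 hi
    rw [R.ch_inner hi hp, if_pos hi]
    rwa [card_P] at this
  · have := (h p hp).1 hi
    simpa [R.ch_leaf hi, hi] using this

theorem V_eq (hd : 3 ≤ d) (h : R.toTr.Rec lam t al be Q cc) :
    R.toTr.V lam t al be Q = varT d T lam t := by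
  have d3 : (3 : ℝ) ≤ d := by exact_mod_cast hd
  have d1 : (d : ℝ) - 1 ≠ 0 := by linarith
  have d0 : (d : ℝ) ≠ 0 := by linarith
  have h1 := R.quad (φ := LW.sph d lam) (lam := lam) d1 rfl (by rw [LW.sph]; field_simp)
    (fun n => by rw [LW.sph]; field_simp; ring) (fun p hp => (rec_ch h hp).1)
    fun p hp => (rec_ch h hp).2.1
  have h2 := R.sum_ch fun c _ => Q c
  rw [← add_sum_erase _ _ (mem_univ R.root), ch_root,
    sum_congr rfl (fun p hp => (rec_ch h (ne_of_mem_erase hp)).2.2.1), sum_add_distrib] at h2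
  have h3 : 1 - LW.sph d lam 2 = (d ^ 2 - lam ^ 2) / (d * (d - 1)) := by
    simp only [LW.sph]; field_simp; ring
  have h4 : varT d T lam t = ∑ u, t u * ∑ v, t v * LW.sph d lam (T.dist v u) := by
    simp only [varT, mul_sum, mul_assoc, SimpleGraph.dist_comm]
  rw [h4, h1, h3, show LW.sph d lam 2 = (lam ^ 2 / d - 1) / (d - 1) by simp only [LW.sph]; ring,
    ← add_left_cancel ((add_comm _ _).trans h2)]
  simp only [Tr.V, cov, toTr, LW.sph]
  field_simp
  ring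

theorem c0_eq (hd : 3 ≤ d) (h : R.toTr.Rec lam t al be Q cc) :
    R.toTr.c0 cc = d * (d - 1).factorial ^ #(LW.inn d T) / (4 * m) ^ m := by
  have m0 : (0 : ℝ) < m := by exact_mod_cast R.root.pos
  have pos : ∀ p, p ≠ R.root → 0 < cc p := R.ind_up fun p ih hp => by
    rw [(rec_ch h hp).2.2.2]
    exact mul_pos (by split_ifs <;> positivity) (prod_pos fun i hi => ih i hi (R.ch_ne hi))
  have h1 := R.prod_ch fun c _ => cc c
  have h2 := R.prod_ch fun _ _ => (m : ℝ)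
  rw [← mul_prod_erase _ _ (mem_univ R.root), ch_root] at h1 h2
  have h3 : 0 < ∏ p ∈ univ.erase R.root, ∏ i ∈ R.ch p, cc (R.nb p i) :=
    prod_pos fun p _ => prod_pos fun i hi => pos _ (R.ch_ne hi)
  rw [prod_congr rfl (fun p hp => (rec_ch h (ne_of_mem_erase hp)).2.2.2), prod_mul_distrib] at h1
  have h4 : ∀ p ∈ univ.erase R.root, (if R.inner p then (d - 1).factorial / (4 * (m : ℝ) ^ (d - 1))
      else 1 / 4) = (if p ∈ LW.inn d T then ((d - 1).factorial : ℝ) else 1) /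
        (4 * ∏ _i ∈ R.ch p, (m : ℝ)) := fun p hp => by
    simp only [← R.inner_iff hd]
    split_ifs with hi
    · rw [R.ch_inner hi (ne_of_mem_erase hp), prod_const, card_erase_of_mem (mem_univ _), card_fin]
    · simp [R.ch_leaf hi]
  have h5 := mul_prod_erase univ (fun p => if p ∈ LW.inn d T then ((d - 1).factorial : ℝ) else 1)
    (mem_univ R.root)
  rw [prod_ite_mem univ, univ_inter, prod_const, if_pos ((R.inner_iff hd _).1 R.inner_root)] at h5
  have h6 := mul_right_cancel₀ h3.ne' h1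
  rw [prod_congr rfl h4, prod_div_distrib, prod_mul_distrib] at h6
  simp only [prod_const (s := univ.erase R.root), prod_const (s := univ), card_fin,
    card_erase_of_mem (mem_univ R.root)] at h2 h6
  have h8 : R.toTr.c0 cc = d.factorial / (4 * (m : ℝ) ^ (d + 1)) * ∏ i, cc (R.nb R.root i) := by
    unfold Tr.c0
    rw [card_P]; rfl
  rw [h8, h6, ← h5]
  obtain ⟨n, rfl⟩ : ∃ n, m = n + 1 := ⟨_, (Nat.succ_pred_eq_of_pos R.root.pos).symm⟩
  obtain ⟨q, rfl⟩ : ∃ q, d = q + 1 := ⟨d - 1, by omega⟩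
  have h7 : 0 < ∏ p ∈ univ.erase R.root, ∏ _i ∈ R.ch p, ((n + 1 : ℕ) : ℝ) := by positivity
  simp only [add_tsub_cancel_right, mul_pow, Nat.factorial_succ] at h2 ⊢
  rw [pow_succ _ n, pow_succ _ n, ← h2]
  push_cast
  field_simp
  ring

theorem bdd (R : Rt T d) (hd : 3 ≤ d) (t : Fin m → ℝ) : ∃ K : ℝ, 1 ≤ K ∧ (∀ p, |t p| ≤ K) ∧
    ∀ (lam : ℝ) (al be Q cc : Fin m → ℝ), |lam| ≤ d → R.toTr.Rec lam t al be Q cc →
      ∀ p, p ≠ R.root → |al p| ≤ K ∧ |be p| ≤ K := by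
  have d3 : (3 : ℝ) ≤ d := by exact_mod_cast hd
  obtain ⟨A, hA⟩ := R.rec_up (0 : ℝ) fun p v => |t p| + 2 * ∑ i ∈ R.ch p, v i
  have k : ∀ (f : Fin m → ℝ) p, |f p| ≤ ∑ p, |f p| := fun f p =>
    single_le_sum (f := fun p => |f p|) (fun _ _ => abs_nonneg _) (mem_univ p)
  have k0 : ∀ f : Fin m → ℝ, 0 ≤ ∑ p, |f p| := fun f => sum_nonneg fun _ _ => abs_nonneg _
  refine ⟨1 + ∑ p, |t p| + ∑ p, |A p|, by linarith [k0 t, k0 A],
    fun p => by linarith [k t p, k0 A], fun lam al be Q cc hl h p hp => ?_⟩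
  have h1 : ∀ p, p ≠ R.root → |al p| + |be p| ≤ A p := R.ind_up fun p ih hp => by
    obtain ⟨e1, e2, -⟩ := rec_ch h hp
    have a1 := abs_sum_le_sum_abs (fun i => al (R.nb p i)) (R.ch p)
    have a2 := abs_sum_le_sum_abs (fun i => be (R.nb p i)) (R.ch p)
    have a3 := sum_le_sum fun i hi => ih i hi (R.ch_ne hi)
    have a4 : |lam / (d - 1)| ≤ 3 / 2 := by
      rw [abs_div, abs_of_pos (show (0 : ℝ) < d - 1 by linarith), div_le_iff₀ (by linarith)]
      linarith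
    have a5 : |be p| ≤ |∑ i ∈ R.ch p, al (R.nb p i)| / 2 := by
      rw [e2, abs_div, abs_neg, abs_of_pos (show (0 : ℝ) < d - 1 by linarith)]
      gcongr
      linarith
    have a6 := mul_le_mul_of_nonneg_right a4 (abs_nonneg (∑ i ∈ R.ch p, al (R.nb p i)))
    have a7 := abs_add_three (t p) (∑ i ∈ R.ch p, be (R.nb p i))
      (lam / (d - 1) * ∑ i ∈ R.ch p, al (R.nb p i))
    rw [← e1, abs_mul] at a7
    rw [hA p, sum_congr rfl fun i hi => if_pos hi]
    rw [sum_add_distrib] at a3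
    linarith [abs_nonneg (∑ i ∈ R.ch p, be (R.nb p i))]
  constructor <;> linarith [h1 p hp, abs_nonneg (al p), abs_nonneg (be p), k A p, k0 t,
    le_abs_self (A p)]

end Rt

end Pool.Agent.P.MP_6b977f_mp.RG.Tree
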