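import Pool.Agent.P.MP_6b977f_mp.RG.IfaceM
import Pool.Agent.P.MP_6b977f_mp.RG.LibT0

/-! Step TREE. -/

namespace Pool.Agent.P.MP_6b977f_mp.RG

open Finset MeasureTheory Real
open scoped Classical

namespace TREEx

theorem md {d m : ℕ} {G : SimpleGraph (Fin m)} (R : Tree.Rt G d) :
    R.toTr.Mod G (Equiv.refl (Fin m)) := fun (u v : Fin m) => by
  have k : ∀ u v, G.Adj u v → G.dist R.root u = G.dist R.root v + 1 →
      R.inner v ∧ ∃ j, R.nb v j = u := fun u v h e => by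
    have hu : u ≠ R.root := fun k => by simp [k] at e
    obtain ⟨i, hi, e'⟩ := R.exists_ch hu
    rw [Tree.closer_unique R.tree h (R.par_adj u hu) e.symm (R.par_dist u hu)]
    exact ⟨(R.mem_ch.1 hi).1, i, e'⟩
  refine ⟨fun (h : G.Adj u v) => ?_, ?_⟩
  · exact (R.tree.dist_eq_dist_add_one_of_adj R.root h).symm.imp (k v u h.symm) (k u v h)
  · rintro (⟨h, e⟩ | ⟨h, e⟩)
    exacts [(R.adj u h v).2 e, ((R.adj v h u).2 e).symm]

end TREEx

theorem p_TREE :
    S_TREE := fun d m G hd h => by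
  obtain ⟨R⟩ := Tree.exists_full hd h
  refine ⟨R.toTr, _, TREEx.md R, fun lam a => ?_⟩
  obtain ⟨al, be, Q, cc, k⟩ := R.exists_rec lam a
  exact ⟨al, be, Q, cc, k, Tree.Rt.V_eq hd k, Tree.Rt.c0_eq hd k⟩

end Pool.Agent.P.MP_6b977f_mp.RG
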