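import Pool.Agent.P.MP_6b977f_mp.RG.IfaceV
import Pool.Agent.P.MP_6b977f_mp.RG.LibKU
import Pool.Agent.P.MP_6b977f_mp.RG.LibKV
import Pool.Agent.P.MP_6b977f_mp.RG.TTREE

/-! Step CU. -/

namespace Pool.Agent.P.MP_6b977f_mp.RG

open Finset MeasureTheory Real Filter
open scoped Classical

theorem p_CU (hFR : S_FR) (hAN3 : S_AN3) (hMARK : S_MARK) (hTRU : S_TRU) (hFIBU : S_FIBU) (hFIB : S_FIB) :
    S_CU := by
  intro d m G b a ε hd hG ha ha' hε
  obtain ⟨T, ι, hmod, hrec⟩ := p_TREE d m G hd hG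
  have cP : Fintype.card T.P = m := (Fintype.card_congr ι).trans (Fintype.card_fin m)
  have m0 : (0 : ℝ) < m := by rw [← cP]; linarith [T.card_pos]
  have d3 : (3 : ℝ) ≤ d := by exact_mod_cast hd
  obtain ⟨c0, hc0⟩ : ∃ c0 : ℝ, c0 = d * (d - 1).factorial ^ #(LW.inn d G) / (4 * m) ^ m := ⟨_, rfl⟩
  have c00 : 0 < c0 := by rw [hc0]; positivity
  obtain ⟨η, η0, η1, η2⟩ : ∃ η : ℝ, 0 < η ∧ η ≤ 1 ∧ η ≤ c0 * ε / 4 :=
    ⟨min 1 (c0 * ε / 4), by positivity, min_le_left _ _, min_le_right _ _⟩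
  obtain ⟨e1, he1, h1⟩ := hAN3 d T (∑ v, |b v|) (η / 2) (by positivity)
  obtain ⟨E, n, hn, hE⟩ := CUx.code T.A (T.root, 0)
  obtain ⟨Ce, hCe, h2⟩ := coreU d hd a n ha ha' hn
  obtain ⟨τ, hτ, h3⟩ := CUx.gauss_uc d (1 / e1) (e1 / 4) (by positivity)
  suffices h : ∀ᶠ N : ℕ in atTop, _ by
    obtain ⟨N0, h⟩ := eventually_atTop.1 h
    exact ⟨e1 / 2, 2 / η, N0, by positivity, by positivity, h⟩
  filter_upwards [h2, eventually_ge_atTop 1, ev_rpow (Ce / e1) (by linarith : -a < 0),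
    ev_rpow (1 / e1 * (d + 2) / (e1 / 4)) (by linarith : -a < 0),
    ev_rpow ((∑ v, |b v|) * (d + 1) ^ m / (ε / 2)) (by linarith : -a < 0),
    ev_rpow (2 / τ) (by norm_num : (0 : ℝ) < 1)] with N n0 n1 n2 n3 n4 n5
  intro lam' w hl hw
  have N1 : (1 : ℝ) ≤ N := by exact_mod_cast n1
  have N0 : (0 : ℝ) < N := by linarith
  obtain ⟨P, rfl⟩ := hFR d lam' hd hl
  obtain ⟨al, be, Q, cc, r1, r2, r3⟩ := hrec P.lam b
  have u1 : (N : ℝ) ^ (-a) ≤ 1 := rpow_le_one_of_one_le_of_nonpos N1 (by linarith)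
  have u0 : 0 < (N : ℝ) ^ (-a) := by positivity
  rw [rpow_zero, div_mul_eq_mul_div, div_le_one (by positivity)] at n2 n3 n4
  have n6 : 1 / (N : ℝ) < τ := by
    rw [rpow_zero, rpow_one, mul_one, div_le_iff₀ hτ] at n5
    rw [div_lt_iff₀ N0]; linarith
  obtain ⟨c, hc⟩ : ∃ c : ℝ, c = (w * (c0 * exp (-varT d G P.lam b / 2) : ℝ)).re := ⟨_, rfl⟩
  rw [div_mul_eq_mul_div, div_mul_eq_mul_div, le_div_iff₀ η0, mul_assoc 2, ← div_le_iff₀' two_pos,
    mul_div_assoc]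
  refine n0 P.lam (η / 2)
    (Option {p : ℝ × (Fin d → ℝ) × ℂ // |p.1| + ∑ i, |p.2.1 i| ≤ 1 / e1 ∧ ‖p.2.2‖ ≤ 1})
    (fun k z => k.elim (-1 * (w * T.th (E (z none)).2).re) fun p =>
      (p.1.2.2 * ch p.1.1 p.1.2.1 (re (((N : ℝ) ^ (-a)) ^ 4) ((fun z => (E z).1) ∘ z))).re)
    (fun k => k.elim (-(c + η)) fun p =>
      (p.1.2.2 * (exp (-cov d P.lam p.1.1 p.1.2.1 / 2) : ℝ)).re + e1) (fun z => (E z).1)
    (fun s => log (Fintype.card T.P) - log (T.qk (b ∘ ι) (((N : ℝ) ^ (-a)) ^ 4 * (E (s none)).1)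
      ((fun z => (E z).2) ∘ s))) _ (filter_subset _ _) P.abs_lam (by positivity) hE ?_ ?_
  · intro M hM'
    obtain ⟨hM, m1, m2, ψ, lam, m3, m4, m5, m6, m7⟩ := mem_filter.1 hM'
    refine ⟨m2, ψ, lam, m3, m5, fun φ hφ => ?_⟩
    clear hM' n0
    generalize (N : ℝ) ^ (-a) = u at *
    have l1 := CUx.chiT_lip hFIBU (by omega) hG.1.connected ((hFIB d N).1 M hM m1) n1 b u0 hφ
    obtain ⟨S, s1, s2⟩ := CUx.marks hMARK T hM n1 (b ∘ ι) E (u ^ 4) φ hw (c := c) η1 (by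
      have e : (∑ e ∈ T.emb M, Complex.exp (Complex.I *
          (∑ p, (b ∘ ι) p * (u ^ 4 * φ (e p)) : ℝ))) / (4 * Fintype.card T.P) ^ Fintype.card T.P =
          (c0 * N : ℝ) * chiT d G (graph M) (fun x => u ^ 4 * φ x) b := by
        have f0 : ((d - 1).factorial : ℂ) ≠ 0 := by exact_mod_cast Nat.factorial_ne_zero _
        have f1 : (d : ℂ) ≠ 0 := by exact_mod_cast (by omega : d ≠ 0)
        have f2 : (N : ℂ) ≠ 0 := by exact_mod_cast (by omega : N ≠ 0)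
        have f3 : ∀ e : T.P → Fin N, ∑ p, (b ∘ ι) p * (u ^ 4 * φ (e p)) =
            ∑ v, b v * (u ^ 4 * φ ((e ∘ ι.symm) v)) := fun e => by
          rw [← Equiv.sum_comp ι]; simp
        rw [chiT, hTRU d m N T G ι M _ hmod hM, cP, hc0]
        simp only [f3]
        generalize (∑ e ∈ T.emb M, Complex.exp (Complex.I *
          (∑ v, b v * (u ^ 4 * φ ((e ∘ ι.symm) v)) : ℝ))) = X
        push_cast
        field_simp
      have l2 := (CBx.re_le hw).trans l1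
      rw [e, mul_left_comm, Complex.re_ofReal_mul, hc, Complex.ofReal_mul, mul_left_comm w,
        Complex.re_ofReal_mul]
      rw [mul_sub, Complex.sub_re] at m7 l2
      have l3 := mul_le_mul_of_nonneg_left (show (w * (exp (-varT d G P.lam b / 2) : ℝ)).re + ε / 2 ≤
        (w * chiT d G (graph M) (fun x => u ^ 4 * φ x) b).re by linarith) (mul_pos c00 N0).le
      nlinarith [mul_le_mul_of_nonneg_right η2 N0.le])
    refine ⟨S, s1, fun χ hχ => ⟨(s2 χ hχ).1, ?_⟩⟩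
    rintro (_ | ⟨⟨s, t, w'⟩, p1, p2⟩)
    · simp only [Option.elim, ← mul_sum]
      have := (s2 χ hχ).2
      change -1 * ∑ x, (w * T.th (E (χ x)).2).re ≤ _
      linarith
    · simp only [Option.elim, star_vl, (s2 χ hχ).1, re_star]
      have k1 := CUx.chi_sub M n1 u0 hφ p1
      have k2 := m6 s t (p1.trans (by rw [div_le_div_iff₀ he1 (by positivity)]; linarith))
      have k3 := h3 lam P.lam s t m4 P.abs_lam (m5.trans_lt n6) p1
      rw [← Real.norm_eq_abs, ← Complex.norm_real, Complex.ofReal_sub] at k3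
      have k4 := (CBx.re_le p2).trans ((norm_sub_le_norm_sub_add_norm_sub _ _ _).trans
        (add_le_add ((norm_sub_le_norm_sub_add_norm_sub _ _ _).trans (add_le_add k1 k2)) k3))
      rw [mul_sub, Complex.sub_re, chi, ← mul_div_assoc, mul_sum, ← Complex.ofReal_natCast,
        Complex.div_ofReal_re, Complex.re_sum, sub_le_iff_le_add, div_le_iff₀' N0] at k4
      exact k4.trans (mul_le_mul_of_nonneg_left (by linarith) N0.le)
  · intro μ η' s1 s2 s3 s4
    by_contra hg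
    have t1 : μ.E (fun z => -1 * (w * T.th (E (z none)).2).re) ≤ -(c + η) := s4 none
    have t2 := h1 P μ (fun z => (E z).1) (fun z => (E z).2) _ η' (b ∘ ι) al be Q cc E.injective r1
      (fun p => single_le_sum (f := fun v => |b v|) (fun _ _ => abs_nonneg _) (mem_univ (ι p))) s1
      (by positivity) ?_ s2 ((not_le.1 hg).le.trans n2) (s3.trans n2) fun s t hst =>
        CUx.norm_le_of_re fun w' hw' => by
          have := s4 (some ⟨(s, t, w'), hst, hw'⟩)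
          simp only [Option.elim] at this
          rw [CUx.E_re] at this
          rw [mul_sub, Complex.sub_re]
          linarith
    · rw [Law.E_mul, CUx.E_re] at t1
      have t3 := (CBx.re_le hw).trans t2
      rw [mul_sub, Complex.sub_re, r2, r3, ← hc0, ← hc] at t3
      linarith
    · calc ((N : ℝ) ^ (-a)) ^ 4 ≤ ((N : ℝ) ^ (-a)) ^ 1 := pow_le_pow_of_le_one u0.le u1 (by norm_num)
        _ ≤ _ := by rw [pow_one]; exact (le_mul_of_one_le_left u0.le hCe).trans n2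

end Pool.Agent.P.MP_6b977f_mp.RG
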