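import Pool.Agent.P.MP_6b977f_mp.RG.IfaceT

/-! Step FIBU. -/

namespace Pool.Agent.P.MP_6b977f_mp.RG

open Finset MeasureTheory Real
open scoped Classical

namespace FIBUx

theorem parent {m : ℕ} {T : SimpleGraph (Fin m)} (hT : T.Connected) (w v : Fin m) :
    ∃ u, v ≠ w → T.Adj u v ∧ T.dist u w < T.dist v w := by
  obtain ⟨p, hp⟩ := hT.exists_walk_length_eq_dist v w
  cases p with
  | nil => exact ⟨w, fun h => absurd rfl h⟩
  | cons h p' =>
    refine ⟨_, fun _ => ⟨h.symm, ?_⟩⟩
    have := T.dist_le p'
    rw [SimpleGraph.Walk.length_cons] at hp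
    omega

theorem idx {d N : ℕ} {G : SimpleGraph (Fin N)} (hG : G ∈ Reg d N) (z : Fin N) :
    ∃ f : Fin N → ℕ, (∀ y, f y < d + 1) ∧ ∀ y y', G.Adj z y → G.Adj z y' → f y = f y' → y = y' := by
  have h := (mem_filter.1 hG).2 z
  rw [Set.ncard_eq_toFinset_card'] at h
  set s := (G.neighborSet z).toFinset
  refine ⟨fun y => if h : y ∈ s then (s.equivFin ⟨y, h⟩ : ℕ) else 0, fun y => ?_,
    fun y y' a a' e => ?_⟩
  · dsimp only
    split_ifs with hy
    · have := (s.equivFin ⟨y, hy⟩).2
      omega
    · omega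
  · have b : y ∈ s := Set.mem_toFinset.2 a
    have b' : y' ∈ s := Set.mem_toFinset.2 a'
    simp only [b, b', dif_pos] at e
    exact congrArg Subtype.val (s.equivFin.injective (Fin.ext e))

end FIBUx

theorem p_FIBU :
    S_FIBU := by
  intro d m N T G w y hT hG
  choose par hp using FIBUx.parent hT w
  choose f f1 f2 using FIBUx.idx hG
  have : #(Fintype.piFinset fun _ : Fin m => range (d + 1)) = (d + 1) ^ m := by simp
  rw [← this]
  refine card_le_card_of_injOn (fun e v => f (e (par v)) (e v))
    (fun e _ => by simpa using fun v => Nat.lt_succ_iff.1 (f1 _ _)) fun e he e' he' h => ?_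
  simp only [LW.emb, coe_filter, mem_filter, mem_univ, true_and, Set.mem_ofPred_eq] at he he'
  have key : ∀ n v, T.dist v w = n → e v = e' v := by
    intro n
    induction n using Nat.strong_induction_on with
    | _ n ih =>
      intro v hv
      by_cases hw : v = w
      · rw [hw, he.2, he'.2]
      · obtain ⟨a, b⟩ := hp v hw
        have c := ih _ (hv ▸ b) _ rfl
        have g := congrFun h v
        dsimp only at g
        rw [← c] at g
        exact f2 _ _ _ (he.1.2 _ _ a) (c ▸ he'.1.2 _ _ a) g
  exact funext fun v => key _ v rfl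

end Pool.Agent.P.MP_6b977f_mp.RG
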