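import Pool.Agent.P.MP_6b977f_mp.RG.IfaceT
import Pool.Agent.P.MP_6b977f_mp.RG.TMAIN
import Pool.Agent.P.MP_6b977f_mp.RG.TFIB

/-! Step MAINU. -/

namespace Pool.Agent.P.MP_6b977f_mp.RG

open Finset MeasureTheory Real
open scoped Classical

namespace MAINUx

theorem bulk {d : ℕ} (hd : 3 ≤ d) {lam κ : ℝ} (hκ : 0 < κ) (h : |lam| ≤ 2 * √(d - 1) - κ) :
    |lam| ≤ d := by
  have h3 : (3 : ℝ) ≤ d := by exact_mod_cast hd
  have := sq_sqrt (show (0 : ℝ) ≤ d - 1 by linarith)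
  nlinarith [sq_nonneg (√((d : ℝ) - 1) - 1)]

end MAINUx

theorem p_MAINU (hCONFU : S_CONFU) (hNETU : S_NETU) (hSIM : S_SIM) (hFIB : S_FIB) :
    S_MAINU := by
  intro d m T κ R ε hd hT hκ hε
  obtain ⟨c, N1, hc, h1⟩ := hSIM d
  obtain ⟨A, hA⟩ := hNETU d m T R ε hd hT.1.connected hε
  set e1 := min (ε / 2) (ε * c / (#A + 1)) with he1
  choose N2 h2 using fun a => hCONFU d m T a κ e1 hd hT hκ (by positivity)
  refine ⟨max 1 (max N1 (A.sup N2)), fun N hN => ?_⟩
  change (#((Reg d N).filter fun G => ¬ LW.Berry d T κ R ε G) : ℝ) ≤ ε * #(Reg d N)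
  have a1 := MAINx.count hFIB d N ((Reg d N).filter fun G => ¬ LW.Berry d T κ R ε G)
    (filter_subset _ _)
  have a2 := MAINx.count hFIB d N (Reg d N) subset_rfl
  have a3 : ((Cf d N).filter fun M => Simple M ∧ graph M ∈ Reg d N) = (Cf d N).filter Simple :=
    filter_congr fun M hM => ⟨fun h => h.1, fun h => ⟨h, (hFIB d N).1 M hM h⟩⟩
  have a4 : ((Cf d N).filter fun M => Simple M ∧
      graph M ∈ (Reg d N).filter fun G => ¬ LW.Berry d T κ R ε G) ⊆ A.biUnion fun a =>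
      (Cf d N).filter fun M => Simple M ∧ ∃ ψ lam, Eig M ψ lam ∧ |lam| ≤ 2 * √(d - 1) - κ ∧
        e1 < ‖chiT d T (graph M) ψ a - (exp (-varT d T lam a / 2) : ℝ)‖ := by
    intro M hM
    simp only [mem_filter, mem_biUnion] at hM ⊢
    obtain ⟨hM, hs, hG, hB⟩ := hM
    by_contra hn
    refine hB fun ψ lam q1 q2 q3 => hA N _ ψ lam hG (by omega) q2 (MAINUx.bulk hd hκ q3)
      fun a ha => le_trans (not_lt.1 fun h => hn ⟨a, ha, hM, hs, ψ, lam, ⟨fun x => ?_, q2⟩, q3, h⟩)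
        (min_le_left _ _)
    rw [← q1, adj, ← sum_image (s := univ) (f := ψ) fun i _ j _ e => hs.2 x i j e]
    exact sum_congr (by ext; simp [FIBx.adj_iff hM hs]) fun _ _ => rfl
  have b1 : (#((Reg d N).filter fun G => ¬ LW.Berry d T κ R ε G) * d.factorial ^ N : ℝ) ≤
      ε * (#(Reg d N) * d.factorial ^ N) := by
    have c1 := (Nat.cast_le (α := ℝ)).2 ((card_le_card a4).trans card_biUnion_le)
    have c3 := h1 N (by omega)
    rw [a1, Nat.cast_sum, Nat.cast_mul, Nat.cast_pow] at c1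
    rw [← a3, a2] at c3
    push_cast at c3
    have c2 := sum_le_card_nsmul A _ _ fun a ha => h2 a N (by have := le_sup (f := N2) ha; omega)
    rw [nsmul_eq_mul] at c2
    have c5 : #A * e1 ≤ ε * c := by
      have : e1 ≤ ε * c / (#A + 1) := min_le_right _ _
      rw [le_div_iff₀ (by positivity)] at this
      have : 0 ≤ e1 := by positivity
      nlinarith
    have c4 : #A * e1 * (#(Cf d N) : ℝ) ≤ ε * c * #(Cf d N) :=
      mul_le_mul_of_nonneg_right c5 (Nat.cast_nonneg _)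
    nlinarith [mul_le_mul_of_nonneg_left c3 hε.le]
  rw [← mul_assoc] at b1
  exact le_of_mul_le_mul_right b1 (by positivity)

end Pool.Agent.P.MP_6b977f_mp.RG
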