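import Pool.Agent.P.MP_6b977f_mp.RG.LibU

/-! Summing out the payloads by increasing rank. -/

namespace Pool.Agent.P.MP_6b977f_mp.RG.Mk

open Finset
open scoped Classical

variable {V : Type} [Fintype V] [DecidableEq V]

/-- four times the conditional law of a payload -/
noncomputable def qq (u : Fin 4) (B : ℂ) : ℂ := (1 + ((starRingEnd ℂ) (z4 u) * B).re / 2 : ℝ)

theorem sum_qq (B : ℂ) : ∑ u, qq u B = 4 := by
  simp only [qq, z4, Fin.sum_univ_four, ← Complex.ofReal_add]
  norm_cast
  simp [pow_succ]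
  ring

theorem sum_zqq (B : ℂ) : ∑ u, z4 u * qq u B = B := by
  simp only [qq, z4, Fin.sum_univ_four]
  apply Complex.ext <;> simp [pow_succ] <;> ring

/-- product of payloads -/
noncomputable def zz {V : Type} (S : Finset V) (U : V → Fin 4) : ℂ := ∏ y ∈ S, z4 (U y)

omit [Fintype V] in
theorem zz_up {S : Finset V} {x : V} (h : x ∉ S) (U : V → Fin 4) (u : Fin 4) :
    zz S (Function.update U x u) = zz S U :=
  prod_congr rfl fun y hy => by rw [Function.update_of_ne (ne_of_mem_of_not_mem hy h)]

theorem out (x : V) (g : Fin 4 → (V → Fin 4) → ℂ)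
    (h : ∀ u U u', g u (Function.update U x u') = g u U) :
    ∑ U, g (U x) U = (∑ U, ∑ u, g u U) / 4 := by
  have i : Function.Involutive fun p : (V → Fin 4) × Fin 4 =>
      (Function.update p.1 x p.2, p.1 x) := fun p => by simp
  have := Equiv.sum_comp i.toPerm fun p => g (p.1 x) p.1
  simp only [Function.Involutive.coe_toPerm, Function.update_self, h, Fintype.sum_prod_type,
    sum_const, card_univ, Fintype.card_fin, nsmul_eq_mul] at this
  rw [this, ← mul_sum]
  push_cast
  ring

theorem bn (r : V → ℕ) (c : V → ℂ) (ch : V → Finset V) (hr : ∀ x, ∀ y ∈ ch x, r x < r y)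
    (A : Finset V) : ∀ S D : Finset V, S ⊆ D → D ⊆ A → (∀ x ∈ D, ch x ⊆ D) →
    (∀ y ∈ D, y ∈ S ∨ ∃ x ∈ D, y ∈ ch x) → (∀ x ∈ D, Disjoint S (ch x)) →
    (∀ x ∈ D, ∀ x' ∈ D, x ≠ x' → Disjoint (ch x) (ch x')) →
    ∑ U, zz S U * ∏ x ∈ A, qq (U x) (c x * zz (ch x) U) =
      4 ^ Fintype.card V * ∏ x ∈ D, c x / 4 := by
  induction A using Finset.induction_on_min_value r with
  | empty =>
    intro S D h1 h2 _ _ _ _
    obtain rfl := subset_empty.1 h2
    obtain rfl := subset_empty.1 h1
    simp [zz]
  | insert x A hx hm ih =>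
    intro S D h1 h2 h3 h4 h5 h6
    have n1 : x ∉ ch x := fun h => (hr _ _ h).false
    have n2 : ∀ U u, ∏ y ∈ A, qq (Function.update U x u y) (c y * zz (ch y) (Function.update U x u))
        = ∏ y ∈ A, qq (U y) (c y * zz (ch y) U) := fun U u => prod_congr rfl fun y hy => by
      rw [Function.update_of_ne (ne_of_mem_of_not_mem hy hx), zz_up fun h => (hm y hy).not_gt (hr _ _ h)]
    simp only [prod_insert hx]
    by_cases hS : x ∈ S
    · have hD := h1 hS
      have := out x (fun u U => z4 u * qq u (c x * zz (ch x) U) *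
        (zz (S.erase x) U * ∏ y ∈ A, qq (U y) (c y * zz (ch y) U))) fun u U u' => by
          rw [n2, zz_up n1, zz_up (notMem_erase _ _)]
      simp only [← sum_mul, sum_zqq] at this
      rw [sum_congr rfl fun U _ => ?_, this, ← mul_prod_erase D _ hD, mul_left_comm,
        ← ih (S.erase x ∪ ch x) (D.erase x), mul_sum, sum_div]
      · refine sum_congr rfl fun U _ => ?_
        rw [zz, zz, zz, prod_union ((h5 x hD).mono_left (erase_subset _ _))]
        ring
      · exact union_subset (erase_subset_erase _ h1) fun y hy =>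
          mem_erase.2 ⟨fun e => n1 (e ▸ hy), h3 x hD hy⟩
      · exact fun y hy => (mem_insert.1 (h2 (mem_erase.1 hy).2)).resolve_left (mem_erase.1 hy).1
      · exact fun y hy z hz => mem_erase.2 ⟨fun e => disjoint_left.1 (h5 y (mem_erase.1 hy).2) hS
          (e ▸ hz), h3 y (mem_erase.1 hy).2 hz⟩
      · intro y hy
        rcases h4 y (mem_erase.1 hy).2 with h | ⟨z, hz, h⟩
        · exact .inl (mem_union_left _ (mem_erase.2 ⟨(mem_erase.1 hy).1, h⟩))
        · by_cases e : z = x
          · exact .inl (mem_union_right _ (e ▸ h))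
          · exact .inr ⟨z, mem_erase.2 ⟨e, hz⟩, h⟩
      · exact fun y hy => disjoint_union_left.2
          ⟨(h5 y (mem_erase.1 hy).2).mono_left (erase_subset _ _),
            h6 x hD y (mem_erase.1 hy).2 (mem_erase.1 hy).1.symm⟩
      · exact fun y hy z hz => h6 y (mem_erase.1 hy).2 z (mem_erase.1 hz).2
      · rw [zz, zz, zz, ← mul_prod_erase S _ hS]
        ring
    · have hD : x ∉ D := fun hD => by
        obtain ⟨z, hz, h⟩ := (h4 x hD).resolve_left hS
        rcases mem_insert.1 (h2 hz) with e | e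
        · exact n1 (e ▸ h)
        · exact (hm z e).not_gt (hr _ _ h)
      have := out x (fun u U => qq u (c x * zz (ch x) U) *
        (zz S U * ∏ y ∈ A, qq (U y) (c y * zz (ch y) U))) fun u U u' => by
          rw [n2, zz_up n1, zz_up hS]
      simp only [← sum_mul, sum_qq] at this
      rw [sum_congr rfl fun U _ => mul_left_comm _ _ _, this, ← mul_sum,
        ih S D h1 (fun y hy => (mem_insert.1 (h2 hy)).resolve_left fun e => hD (e ▸ hy))
          h3 h4 h5 h6]
      ring

end Pool.Agent.P.MP_6b977f_mp.RG.Mk
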