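import Pool.Agent.P.MP_6b977f_mp.RG.IfaceM
import Pool.Agent.P.MP_6b977f_mp.RG.LibMk

/-! Step MARK. -/

namespace Pool.Agent.P.MP_6b977f_mp.RG

open Finset MeasureTheory Real
open scoped Classical

namespace MARKx
open Mk
variable {d N : ℕ} (T : Tr d) (M : Cfg d N) (ρ : Fin N → T.P)

/-- the neighbours carry the expected positions -/
def ok (x : Fin N) : Prop :=
  ∃ σ : Equiv.Perm (Fin d), ∀ i, ρ (tip M (x, i)) = T.nb (ρ x) (σ i)

/-- the children of a vertex -/
noncomputable def ch (x : Fin N) : Finset (Fin N) :=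
  if T.inner (ρ x) ∧ ok T M ρ x then
    (univ.filter fun i => T.dep (ρ x) < T.dep (ρ (tip M (x, i)))).image fun i => tip M (x, i)
  else ∅

/-- the local constant -/
noncomputable def cc (t : T.P → ℝ) (a : Fin N → ℝ) (x : Fin N) : ℂ :=
  Complex.exp (Complex.I * (t (ρ x) * a x : ℝ)) * if T.inner (ρ x) ∧ ¬ ok T M ρ x then 0 else 1

variable {T M ρ}

theorem mem_ch {x y : Fin N} : y ∈ ch T M ρ x ↔ T.inner (ρ x) ∧ ok T M ρ x ∧
    T.dep (ρ x) < T.dep (ρ y) ∧ ∃ i, tip M (x, i) = y := by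
  unfold ch
  split_ifs with h
  · simp only [mem_image, mem_filter, mem_univ, true_and]
    exact ⟨fun ⟨i, a, b⟩ => ⟨h.1, h.2, b ▸ a, i, b⟩, fun ⟨_, _, a, i, b⟩ => ⟨i, b ▸ a, b⟩⟩
  · exact ⟨fun a => absurd a (notMem_empty _), fun a => absurd ⟨a.1, a.2.1⟩ h⟩

theorem port {x : Fin N} (h1 : T.inner (ρ x)) (h2 : ok T M ρ x) {i j : Fin d}
    (e : ρ (tip M (x, i)) = ρ (tip M (x, j))) : i = j := by
  obtain ⟨σ, h⟩ := h2
  rw [h, h] at e
  exact σ.injective (T.inj _ h1 e)

theorem qk_eq (t : T.P → ℝ) (a : Fin N → ℝ) (U : Fin N → Fin 4) (x : Fin N) :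
    (T.qk t (a x) (star M (fun y => (ρ y, U y)) x) : ℂ) =
      qq (U x) (cc T M ρ t a x * zz (ch T M ρ x) U) / 4 := by
  have : T.Am (star M (fun y => (ρ y, U y)) x) =
      (if T.inner (ρ x) ∧ ¬ ok T M ρ x then 0 else 1) * zz (ch T M ρ x) U := by
    unfold Tr.Am
    by_cases h1 : T.inner (ρ x)
    · by_cases h2 : ok T M ρ x
      · rw [if_pos (by exact h1), if_pos (by exact h2), if_neg fun h => h.2 h2, one_mul, ch,
          if_pos ⟨h1, h2⟩, zz, prod_image fun i _ j _ e => port h1 h2 (congrArg ρ e), prod_filter]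
        rfl
      · rw [if_pos (by exact h1), if_neg (by exact h2), if_pos ⟨h1, h2⟩, zero_mul]
    · rw [if_neg (by exact h1), if_neg fun h => h1 h.1, ch, if_neg fun h => h1 h.1, zz, prod_empty,
        one_mul]
  rw [Tr.qk, this, qq, cc, mul_assoc]
  push_cast
  rfl

theorem ch_par {x y : Fin N} (h : y ∈ ch T M ρ x) : ρ y ≠ T.root ∧ T.par (ρ y) = ρ x := by
  obtain ⟨a, ⟨σ, s⟩, b, i, rfl⟩ := mem_ch.1 h
  rw [s] at b ⊢
  exact ⟨T.ch_ne _ _ a b, T.par_ch _ _ a b⟩

variable (T M ρ)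

/-- the descendants of a vertex -/
noncomputable def D (x0 : Fin N) : Finset (Fin N) :=
  univ.filter (Relation.ReflTransGen (fun x y => y ∈ ch T M ρ x) x0)

variable {T M ρ} {x0 : Fin N}

theorem D0 : x0 ∈ D T M ρ x0 := mem_filter.2 ⟨mem_univ _, .refl⟩

theorem D1 {x y : Fin N} (h : x ∈ D T M ρ x0) (h' : y ∈ ch T M ρ x) : y ∈ D T M ρ x0 :=
  mem_filter.2 ⟨mem_univ _, (mem_filter.1 h).2.tail h'⟩

theorem D2 {y : Fin N} (h : y ∈ D T M ρ x0) : y = x0 ∨ ∃ x ∈ D T M ρ x0, y ∈ ch T M ρ x :=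
  (mem_filter.1 h).2.cases_tail.imp id fun ⟨x, a, b⟩ => ⟨x, mem_filter.2 ⟨mem_univ _, a⟩, b⟩

theorem injD (h0 : ρ x0 = T.root) {y y' : Fin N} (hy : y ∈ D T M ρ x0) (hy' : y' ∈ D T M ρ x0)
    (e : ρ y = ρ y') : y = y' := by
  induction hn : T.dep (ρ y) using Nat.strong_induction_on generalizing y y' with
  | _ n ih =>
    rcases D2 hy with rfl | ⟨x, hx, a⟩
    · rcases D2 hy' with rfl | ⟨x', _, a'⟩
      · rfl
      · exact absurd (e ▸ h0) (ch_par a').1
    · rcases D2 hy' with rfl | ⟨x', hx', a'⟩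
      · exact absurd (e ▸ h0) (ch_par a).1
      · obtain rfl : x = x' := ih _ (hn ▸ (mem_ch.1 a).2.2.1) hx hx'
          (by rw [← (ch_par a).2, ← (ch_par a').2, e]) rfl
        obtain ⟨b, c, -, i, rfl⟩ := mem_ch.1 a
        obtain ⟨-, -, -, j, rfl⟩ := mem_ch.1 a'
        rw [port b c e]

theorem sumD (h0 : ρ x0 = T.root) (c : Fin N → ℂ) :
    ∑ U : Fin N → Fin 4, z4 (U x0) * ∏ x, qq (U x) (c x * zz (ch T M ρ x) U) =
      4 ^ N * ∏ x ∈ D T M ρ x0, c x / 4 := by
  have := bn (fun x => T.dep (ρ x)) c (ch T M ρ) (fun x y h => (mem_ch.1 h).2.2.1) univ {x0}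
    (D T M ρ x0) (singleton_subset_iff.2 D0) (subset_univ _) (fun x hx y hy => D1 hx hy)
    (fun y hy => (D2 hy).imp mem_singleton.2 id)
    (fun x _ => disjoint_singleton_left.2 fun h => (ch_par h).1 h0)
    fun x hx x' hx' n => disjoint_left.2 fun y a a' =>
      n (injD h0 hx hx' ((ch_par a).2.symm.trans (ch_par a').2))
  simpa [zz] using this

theorem of_emb {e : T.P → Fin N} (he : e ∈ T.emb M) (h1 : e T.root = x0) (h2 : ∀ p, ρ (e p) = p) :
    (∀ p, T.inner p → ok T M ρ (e p)) ∧ D T M ρ x0 = univ.image e := by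
  obtain ⟨a, b⟩ := (mem_filter.1 he).2
  have k : ∀ p, T.inner p → ∃ σ : Equiv.Perm (Fin d), ∀ i, tip M (e p, i) = e (T.nb p (σ i)) := by
    intro p hp
    choose f hf using b p hp
    have : Function.Injective f := fun j j' h => T.inj p hp (a (by rw [← hf, ← hf, h]))
    refine ⟨(Equiv.ofBijective f this.bijective_of_finite).symm, fun i => ?_⟩
    rw [← hf]
    exact congrArg (fun i => tip M (e p, i))
      ((Equiv.ofBijective f this.bijective_of_finite).apply_symm_apply i).symm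
  have k2 : ∀ p, T.inner p → ok T M ρ (e p) := fun p hp =>
    (k p hp).imp fun σ h i => by rw [h, h2, h2]
  refine ⟨k2, Subset.antisymm (fun y hy => ?_) fun y hy => ?_⟩
  · have := (mem_filter.1 hy).2
    clear hy
    induction this with
    | refl => exact mem_image.2 ⟨_, mem_univ _, h1⟩
    | tail _ h ih =>
      obtain ⟨p, -, rfl⟩ := mem_image.1 ih
      obtain ⟨c, -, -, i, rfl⟩ := mem_ch.1 h
      obtain ⟨σ, s⟩ := k p (h2 p ▸ c)
      exact mem_image.2 ⟨_, mem_univ _, (s i).symm⟩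
  · obtain ⟨p, -, rfl⟩ := mem_image.1 hy
    clear hy
    induction hn : T.dep p using Nat.strong_induction_on generalizing p with
    | _ n ih =>
      by_cases hp : p = T.root
      · rw [hp, h1]; exact D0
      · obtain ⟨c1, c2, j, c3⟩ := T.par_in p hp
        refine D1 (ih _ (hn ▸ c2) _ rfl) (mem_ch.2 ⟨by rwa [h2], k2 _ c1, by rwa [h2, h2], ?_⟩)
        simpa only [c3] using b _ c1 j

theorem to_emb (hM : M ∈ Cf d N) (h0 : ρ x0 = T.root)
    (h : ∀ x ∈ D T M ρ x0, T.inner (ρ x) → ok T M ρ x) :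
    ∃ e ∈ T.emb M, e T.root = x0 ∧ ∀ p, ρ (e p) = p := by
  have k : ∀ p, ∃ y ∈ D T M ρ x0, ρ y = p := by
    intro p
    induction hn : T.dep p using Nat.strong_induction_on generalizing p with
    | _ n ih =>
      by_cases hp : p = T.root
      · exact ⟨x0, D0, hp ▸ h0⟩
      · obtain ⟨c1, c2, j, c3⟩ := T.par_in p hp
        obtain ⟨x, hx, e⟩ := ih _ (hn ▸ c2) _ rfl
        obtain ⟨σ, s⟩ := h x hx (e ▸ c1)
        have : ρ (tip M (x, σ.symm j)) = p := by rw [s, e, σ.apply_symm_apply, c3]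
        exact ⟨_, D1 hx (mem_ch.2 ⟨e ▸ c1, ⟨σ, s⟩, by rwa [this, e], _, rfl⟩), this⟩
  choose e e1 e2 using k
  refine ⟨e, mem_filter.2 ⟨mem_univ _, Function.LeftInverse.injective e2, fun p hp j => ?_⟩,
    injD h0 (e1 _) D0 (by rw [e2, h0]), e2⟩
  by_cases hd : T.dep p < T.dep (T.nb p j)
  · obtain ⟨σ, s⟩ := h _ (e1 p) (by rwa [e2])
    have : ρ (tip M (e p, σ.symm j)) = T.nb p j := by rw [s, e2, σ.apply_symm_apply]
    exact ⟨_, injD h0 (D1 (e1 p) (mem_ch.2 ⟨by rwa [e2], ⟨σ, s⟩, by rwa [this, e2], _, rfl⟩))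
      (e1 _) (by rw [this, e2])⟩
  · have n : p ≠ T.root := fun e => hd (e ▸ T.dep_root j)
    obtain rfl : j = T.up p := by_contra fun e => hd (T.dep_ch p hp n j e)
    obtain ⟨c1, c2, j, c3⟩ := T.par_in p n
    have c4 := T.ch_up _ j c1 (by rwa [c3]) (by rwa [c3])
    rw [c3] at c4
    rcases D2 (e1 p) with g | ⟨x, hx, g⟩
    · exact absurd (by rw [← e2 p, g, h0]) n
    · obtain ⟨-, -, -, i, hi⟩ := mem_ch.1 g
      refine ⟨(M (x, i)).2, ?_⟩
      rw [c4, ← injD h0 hx (e1 (T.par p)) (by rw [e2, ← (ch_par g).2, e2]), ← hi]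
      exact tip_mate hM (x, i)

theorem prodD (hM : M ∈ Cf d N) (h0 : ρ x0 = T.root) (t : T.P → ℝ) (a : Fin N → ℝ) :
    ∏ x ∈ D T M ρ x0, cc T M ρ t a x / 4 =
      ∑ e ∈ T.emb M, if e T.root = x0 ∧ ∀ p, ρ (e p) = p then
        Complex.exp (Complex.I * (∑ p, t p * a (e p) : ℝ)) / 4 ^ Fintype.card T.P else 0 := by
  by_cases h : ∃ e ∈ T.emb M, e T.root = x0 ∧ ∀ p, ρ (e p) = p
  · obtain ⟨e, he, h1, h2⟩ := h
    obtain ⟨k1, k2⟩ := of_emb he h1 h2
    rw [sum_eq_single_of_mem e he fun e' he' n => if_neg fun g => n (funext fun p => injD h0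
      ((of_emb he' g.1 g.2).2 ▸ mem_image_of_mem _ (mem_univ _))
      (k2 ▸ mem_image_of_mem _ (mem_univ _)) (by rw [h2, g.2])), if_pos ⟨h1, h2⟩, k2,
      prod_image fun p _ p' _ g => (mem_filter.1 he).2.1 g, prod_div_distrib, prod_const, card_univ,
      Complex.ofReal_sum, mul_sum, Complex.exp_sum]
    refine congrArg (· / _) (prod_congr rfl fun p _ => ?_)
    rw [cc, h2, if_neg fun g => g.2 (k1 p g.1), mul_one]
  · rw [sum_eq_zero fun e he => if_neg fun g => h ⟨e, he, g⟩]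
    have := mt (to_emb hM h0) h
    push Not at this
    obtain ⟨x, hx, g⟩ := this
    exact prod_eq_zero hx (by rw [cc, if_pos g, mul_zero, zero_div])

theorem count {P : Type} [Fintype P] [Nonempty P] {e : P → Fin N} (he : Function.Injective e) :
    ∑ ρ : Fin N → P, (if ∀ p, ρ (e p) = p then 1 else 0 : ℂ) / Fintype.card P ^ N =
      1 / Fintype.card P ^ Fintype.card P := by
  have n : (Fintype.card P : ℂ) ≠ 0 := Nat.cast_ne_zero.2 Fintype.card_ne_zero
  have := prod_univ_sum (fun _ : Fin N => (univ : Finset P))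
    fun y q => (if ∀ p, e p = y → q = p then 1 else 0 : ℂ) / Fintype.card P
  rw [Fintype.piFinset_univ] at this
  rw [sum_congr rfl fun ρ _ => ?_, ← this, ← prod_subset (subset_univ (univ.image e)),
    prod_image fun p _ p' _ g => he g, prod_congr rfl (g := fun _ => 1 / (Fintype.card P : ℂ))]
  · simp
  · intro p _
    rw [sum_eq_single p (fun q _ hq => by rw [if_neg fun g => hq (g p rfl), zero_div]) (by simp),
      if_pos fun p' g => (he g).symm]
  · intro y _ hy
    rw [sum_congr rfl (g := fun _ => 1 / (Fintype.card P : ℂ)) fun q _ => by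
      rw [if_pos fun p g => absurd (mem_image.2 ⟨p, mem_univ p, g⟩) hy]]
    simp [n]
  · rw [prod_div_distrib, prod_boole, prod_const, card_univ, Fintype.card_fin]
    by_cases h : ∀ p, ρ (e p) = p
    · rw [if_pos h, if_pos fun y _ p g => g ▸ h p]
    · rw [if_neg h, if_neg fun g => h fun p => g _ (mem_univ _) p rfl]

theorem split (F : (Fin N → T.A) → ℂ) :
    ∑ mk, F mk = ∑ ρ : Fin N → T.P, ∑ U : Fin N → Fin 4, F fun y => (ρ y, U y) := by
  rw [← Fintype.sum_prod_type']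
  exact (Equiv.sum_comp (Equiv.arrowProdEquivProdArrow _ _ _).symm F).symm

theorem W_eq (t : T.P → ℝ) (a : Fin N → ℝ) (U : Fin N → Fin 4) :
    (T.W t M a (fun y => (ρ y, U y)) : ℂ) =
      (∏ x, qq (U x) (cc T M ρ t a x * zz (ch T M ρ x) U)) / (4 ^ N * Fintype.card T.P ^ N) := by
  simp only [Tr.W, Complex.ofReal_prod, Complex.ofReal_div, qk_eq, div_div, prod_div_distrib]
  simp

end MARKx

open MARKx in
theorem p_MARK :
    S_MARK := by
  intro d N T M t a hM
  have : Nonempty T.P := ⟨T.root⟩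
  have n : (Fintype.card T.P : ℂ) ≠ 0 := Nat.cast_ne_zero.2 Fintype.card_ne_zero
  constructor
  · apply Complex.ofReal_injective
    rw [Complex.ofReal_sum, split, sum_congr rfl (g := fun _ => 1 / (Fintype.card T.P : ℂ) ^ N)]
    · simp [n]
    · intro ρ _
      have := Mk.bn (fun x => T.dep (ρ x)) (cc T M ρ t a) (MARKx.ch T M ρ)
        (fun x y h => (mem_ch.1 h).2.2.1) univ ∅ ∅ subset_rfl (by simp) (by simp) (by simp)
        (by simp) (by simp)
      simp only [W_eq, ← sum_div]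
      simp only [Mk.zz, prod_empty, one_mul, Fintype.card_fin, mul_one] at this ⊢
      rw [this]
      field_simp
  · rw [split, sum_congr rfl (g := fun ρ => ∑ e ∈ T.emb M,
      (if ∀ p, ρ (e p) = p then 1 else 0 : ℂ) / Fintype.card T.P ^ N *
        (Complex.exp (Complex.I * (∑ p, t p * a (e p) : ℝ)) / 4 ^ Fintype.card T.P)), sum_comm,
      sum_div]
    · refine sum_congr rfl fun e he => ?_
      rw [← sum_mul, count (mem_filter.1 he).2.1, mul_pow]
      field_simp
    · intro ρ _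
      simp only [mul_sum]
      rw [sum_comm, sum_congr rfl (g := fun x => (∑ e ∈ T.emb M,
        if e T.root = x ∧ ∀ p, ρ (e p) = p then Complex.exp (Complex.I * (∑ p, t p * a (e p) : ℝ)) /
          4 ^ Fintype.card T.P else 0) / Fintype.card T.P ^ N), ← sum_div, sum_comm, sum_div]
      · refine sum_congr rfl fun e _ => ?_
        rw [sum_eq_single (e T.root) (fun x _ hx => if_neg fun g => hx g.1.symm) (by simp)]
        by_cases g : ∀ p, ρ (e p) = p
        · rw [if_pos ⟨rfl, g⟩, if_pos g]; ring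
        · rw [if_neg fun g' => g g'.2, if_neg g]; ring
      · intro x _
        by_cases h0 : ρ x = T.root
        · rw [← prodD hM h0]
          simp only [W_eq, Tr.th, if_pos h0, mul_comm _ (z4 _), ← mul_div_assoc, ← sum_div]
          rw [sumD h0]
          field_simp
        · simp only [Tr.th, if_neg h0, mul_zero, sum_const_zero]
          rw [sum_eq_zero fun e _ => if_neg fun g => h0 (by rw [← g.1, g.2]), zero_div]

end Pool.Agent.P.MP_6b977f_mp.RG
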