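import Pool.Agent.P.MP_6b977f_mp.RG.IfaceM

/-! Step TRU. -/

namespace Pool.Agent.P.MP_6b977f_mp.RG

open Finset MeasureTheory Real
open scoped Classical

theorem p_TRU :
    S_TRU := by
  intro d m N T G ι M F h hM
  refine (sum_bij' (fun e _ => e ∘ ι.symm) (fun f _ => f ∘ ι) (fun e he => ?_) (fun f hf => ?_)
    (fun e _ => by funext p; simp) (fun e _ => by funext p; simp) fun _ _ => rfl).symm
  · obtain ⟨h1, h2⟩ := (mem_filter.1 he).2
    refine mem_filter.2 ⟨mem_univ _, h1.comp ι.symm.injective, fun u v a => ?_⟩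
    obtain ⟨u, rfl⟩ := ι.surjective u
    obtain ⟨v, rfl⟩ := ι.surjective v
    simp only [Function.comp, Equiv.symm_apply_apply, graph, SimpleGraph.fromRel_adj]
    refine ⟨fun e => a.ne (congrArg ι (h1 e)), ?_⟩
    rcases (h u v).1 a with ⟨b, j, rfl⟩ | ⟨b, j, rfl⟩
    exacts [.inl (h2 _ b j), .inr (h2 _ b j)]
  · obtain ⟨h1, h2⟩ := (mem_filter.1 hf).2
    refine mem_filter.2 ⟨mem_univ _, h1.comp ι.injective, fun p b j => ?_⟩
    have := h2 _ _ ((h p (T.nb p j)).2 (.inl ⟨b, j, rfl⟩))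
    rw [graph, SimpleGraph.fromRel_adj] at this
    refine this.2.elim id fun ⟨i, e⟩ => ⟨(M (f (ι (T.nb p j)), i)).2, ?_⟩
    simp only [Function.comp]
    rw [← e]
    exact tip_mate hM _

end Pool.Agent.P.MP_6b977f_mp.RG
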