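import Pool.Agent.P.MP_6b977f_mp.RG.IfaceU

/-! Step UBND. -/

namespace Pool.Agent.P.MP_6b977f_mp.RG

open Finset MeasureTheory Real
open scoped Classical

namespace UBNDx

theorem card_er {d : ℕ} (hd : 3 ≤ d) (j : Fin d) :
    (((univ : Finset (Fin d)).erase j).card : ℝ) = d - 1 := by
  rw [card_erase_of_mem (mem_univ _), card_univ, Fintype.card_fin, Nat.cast_sub (by omega)]
  simp

theorem sum_bd {d : ℕ} (hd : 3 ≤ d) (j : Fin d) (f : Fin d → ℝ) (B : ℝ)
    (h : ∀ i ∈ (univ : Finset (Fin d)).erase j, |f i| ≤ B) :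
    |∑ i ∈ univ.erase j, f i| ≤ (d - 1) * B := by
  refine (abs_sum_le_sum_abs _ _).trans ((sum_le_card_nsmul _ _ B h).trans ?_)
  rw [nsmul_eq_mul, card_er hd]

theorem coef_le {d : ℕ} (T : Tr d) :
    ((d - 1).factorial : ℝ) / (4 * (Fintype.card T.P : ℝ) ^ (d - 1)) ≤ 1 := by
  have h1 : d ≤ Fintype.card T.P := by
    simpa using Fintype.card_le_of_injective _ (T.inj T.root T.inner_root)
  have h2 : (d - 1).factorial ≤ Fintype.card T.P ^ (d - 1) :=
    (Nat.factorial_le_pow _).trans (Nat.pow_le_pow_left (by omega) _)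
  have h3 : ((d - 1).factorial : ℝ) ≤ (Fintype.card T.P : ℝ) ^ (d - 1) := by exact_mod_cast h2
  have h4 : (0 : ℝ) ≤ (Fintype.card T.P : ℝ) ^ (d - 1) := by positivity
  apply div_le_one_of_le₀ <;> linarith

theorem main (d : ℕ) (T : Tr d) (K : ℝ) (hd : 3 ≤ d) (M : ℕ) (hM : ∀ p, T.dep p ≤ M) (n : ℕ) :
    ∃ K' : ℝ, |K| ≤ K' ∧ ∀ (lam : ℝ) (t al be Q cc : T.P → ℝ), |lam| ≤ d →
      T.Rec lam t al be Q cc → (∀ p, |t p| ≤ K) → ∀ p, p ≠ T.root → M < T.dep p + n →
      |al p| ≤ K' ∧ |be p| ≤ K' ∧ 0 ≤ Q p ∧ 0 ≤ cc p ∧ cc p ≤ 1 := by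
  induction n with
  | zero =>
    refine ⟨|K|, le_rfl, fun lam t al be Q cc _ _ _ p _ hp => ?_⟩
    have := hM p
    omega
  | succ n ih =>
    obtain ⟨B, hB, ih⟩ := ih
    have hK0 : 0 ≤ |K| := abs_nonneg K
    have hK1 : K ≤ |K| := le_abs_self K
    have hB0 : 0 ≤ B := hK0.trans hB
    have hd3 : (3 : ℝ) ≤ d := by exact_mod_cast hd
    have hdB : 0 ≤ (d : ℝ) * B := by positivity
    refine ⟨|K| + 2 * (d * B) + B, by linarith, fun lam t al be Q cc hl hR ht p hp hn => ?_⟩
    obtain ⟨r1, r2⟩ := hR p hp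
    by_cases hi : T.inner p
    · obtain ⟨e1, e2, e3, e4⟩ := r2 hi
      have hc : ∀ i ∈ (univ : Finset (Fin d)).erase (T.up p),
          |al (T.nb p i)| ≤ B ∧ |be (T.nb p i)| ≤ B ∧ 0 ≤ Q (T.nb p i) ∧ 0 ≤ cc (T.nb p i) ∧
            cc (T.nb p i) ≤ 1 := by
        intro i hi'
        have h1 := T.dep_ch p hi hp i (ne_of_mem_erase hi')
        exact ih lam t al be Q cc hl hR ht _ (T.ch_ne p i hi h1) (by omega)
      have s1 := sum_bd hd (T.up p) (fun i => al (T.nb p i)) B fun i hi' => (hc i hi').1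
      have s2 := sum_bd hd (T.up p) (fun i => be (T.nb p i)) B fun i hi' => (hc i hi').2.1
      have hd1 : (0 : ℝ) < d - 1 := by linarith
      have s3 : |(∑ i ∈ univ.erase (T.up p), al (T.nb p i)) / (d - 1)| ≤ B := by
        rw [abs_div, abs_of_pos hd1, div_le_iff₀ hd1]
        linarith
      refine ⟨?_, ?_, ?_, ?_, ?_⟩
      · have e5 : lam / (d - 1) * ∑ i ∈ univ.erase (T.up p), al (T.nb p i) =
            lam * ((∑ i ∈ univ.erase (T.up p), al (T.nb p i)) / (d - 1)) := by ring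
        have s4 : |lam * ((∑ i ∈ univ.erase (T.up p), al (T.nb p i)) / (d - 1))| ≤ d * B := by
          rw [abs_mul]
          exact mul_le_mul hl s3 (abs_nonneg _) (by linarith)
        rw [e1, e5]
        have s5 := ht p
        rw [abs_le] at s2 s4 s5 ⊢
        constructor <;> nlinarith
      · rw [e2, neg_div, abs_neg]
        linarith
      · rw [e3]
        refine add_nonneg (sum_nonneg fun i hi' => (hc i hi').2.2.1) (mul_nonneg ?_ ?_)
        · refine div_nonneg ?_ (by positivity)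
          have := sq_le_sq' (abs_le.1 hl).1 (abs_le.1 hl).2
          linarith
        · have := sq_sum_le_card_mul_sum_sq (s := (univ : Finset (Fin d)).erase (T.up p))
            (f := fun i => al (T.nb p i))
          rw [card_er hd] at this
          rw [sub_nonneg, div_le_iff₀ hd1]
          linarith
      · rw [e4]
        exact mul_nonneg (by positivity) (prod_nonneg fun i hi' => (hc i hi').2.2.2.1)
      · rw [e4]
        exact mul_le_one₀ (coef_le T) (prod_nonneg fun i hi' => (hc i hi').2.2.2.1)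
          (prod_le_one (fun i hi' => (hc i hi').2.2.2.1) fun i hi' => (hc i hi').2.2.2.2)
    · obtain ⟨e1, e2, e3, e4⟩ := r1 hi
      have s5 := ht p
      rw [e1, e2, e3, e4, abs_zero]
      refine ⟨by linarith, by linarith, le_rfl, by norm_num, by norm_num⟩

end UBNDx

theorem p_UBND :
    S_UBND := by
  intro d T K hd
  obtain ⟨K', h1, h2⟩ := UBNDx.main d T K hd (univ.sup T.dep)
    (fun p => le_sup (f := T.dep) (mem_univ p)) (univ.sup T.dep + 1)
  exact ⟨K', (le_abs_self K).trans h1, fun lam t al be Q cc hl hR ht p hp =>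
    h2 lam t al be Q cc hl hR ht p hp (by omega)⟩

end Pool.Agent.P.MP_6b977f_mp.RG
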