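import Pool.Agent.P.MP_6b977f_mp.RG.IfaceU

/-! Step UCE. -/

namespace Pool.Agent.P.MP_6b977f_mp.RG

open Finset MeasureTheory Real
open scoped Classical

namespace UCEx
variable {d : ℕ} (P : Par d) (j : Fin d)

/-- the direction of the shift -/
noncomputable def uu : VI d → ℝ := fun o => o.elim 1 fun k => P.sn / P.cs * P.e j k

/-- the frame of the edge -/
noncomputable def BB : Fin 2 → VI d → ℝ :=
  ![fun o => o.elim P.cs fun k => P.sn * P.e j k, fun o => o.elim P.sn fun k => -P.cs * P.e j k]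

/-- the frequency orthogonal to the edge -/
noncomputable def nn (τ : Fin d → ℝ) : VI d → ℝ := fun o =>
  o.elim 0 fun k => P.r * (∑ i, τ i * P.e i k + (∑ i, τ i) / (d - 1) * P.e j k)

/-- the edge coordinates -/
noncomputable def Bz (z : VI d → ℝ) : Fin 2 → ℝ := fun k => ∑ o, BB P j k o * z o

theorem ee : ∑ k, P.e j k * P.e j k = 1 := by simpa using P.e1 j j

theorem cs2 : P.cs ^ 2 + P.sn ^ 2 = 1 := by rw [P.cs_sq, P.sn_sq]; ring

theorem Bz0 (z : VI d → ℝ) : Bz P j z 0 = P.cs * z none + P.sn * P.ci j z := by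
  simp [Bz, BB, Par.ci, Fintype.sum_option, mul_sum, mul_assoc]

theorem Bz1 (z : VI d → ℝ) : Bz P j z 1 = P.sn * z none - P.cs * P.ci j z := by
  simp [Bz, BB, Par.ci, Fintype.sum_option, mul_sum, mul_assoc, sub_eq_add_neg]

theorem ed_eq (y : SI d → ℝ) : P.ed j y = Bz P j (vp y + y none • uu P j) := by
  have hc := P.cs_pos
  have c : P.ci j (vp y + y none • uu P j) = P.ci j (vp y) + y none * (P.sn / P.cs) := by
    have : ∀ k, P.e j k * (vp y + y none • uu P j) (some k) =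
        P.e j k * vp y (some k) + y none * (P.sn / P.cs) * (P.e j k * P.e j k) := fun k => by
      simp only [uu, Pi.add_apply, Pi.smul_apply, Option.elim, smul_eq_mul]; ring
    simp only [Par.ci, this, sum_add_distrib, ← mul_sum, ee, mul_one]
  have a : (vp y + y none • uu P j) none = y (some none) + y none := by simp [uu, vp]
  funext k
  fin_cases k
  · change _ = Bz P j _ 0
    rw [Bz0, c, a]
    simp only [Par.ed, Fin.zero_eta, Matrix.cons_val_zero]
    field_simp
    linear_combination (-y none) * cs2 P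
  · change _ = Bz P j _ 1
    rw [Bz1, c, a]
    simp only [Par.ed, Fin.mk_one, Matrix.cons_val_one, Matrix.cons_val_zero]
    field_simp
    ring

theorem BB_on (k l : Fin 2) : ∑ o, BB P j k o * BB P j l o = if k = l then 1 else 0 := by
  have h1 : ∀ a b : ℝ, ∑ k, a * P.e j k * (b * P.e j k) = a * b := fun a b => by
    rw [sum_congr rfl fun k _ => mul_mul_mul_comm a _ b _, ← mul_sum, ee, mul_one]
  have := cs2 P
  fin_cases k <;> fin_cases l <;>
    simp only [BB, Fintype.sum_option, Option.elim, Fin.zero_eta, Fin.mk_one, Matrix.cons_val_one,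
      Matrix.cons_val_zero, h1] <;> simp <;> linarith

variable {j} {τ : Fin d → ℝ}

theorem ew (h : τ j = 0) : ∑ k, P.e j k * ∑ i, τ i * P.e i k = -(∑ i, τ i) / (d - 1) := by
  simp only [mul_sum]
  rw [sum_comm, ← sum_neg_distrib, sum_div]
  refine sum_congr rfl fun i _ => ?_
  rw [sum_congr rfl fun k _ => mul_left_comm (P.e j k) _ _, ← mul_sum, P.e1]
  split_ifs with e
  · rw [← e, h]; simp
  · ring

theorem ci_nn (h : τ j = 0) : P.ci j (nn P j τ) = 0 := by
  have : ∀ k, P.e j k * nn P j τ (some k) = P.r * (P.e j k * ∑ i, τ i * P.e i k) +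
      P.r * ((∑ i, τ i) / (d - 1)) * (P.e j k * P.e j k) := fun k => by
    simp only [nn, Option.elim]; ring
  simp only [Par.ci, this, sum_add_distrib, ← mul_sum, ee, ew P h]
  ring

theorem BB_nn (h : τ j = 0) (k : Fin 2) : ∑ o, BB P j k o * nn P j τ o = 0 := by
  fin_cases k
  · change Bz P j _ 0 = 0
    rw [Bz0, ci_nn P h]; simp [nn]
  · change Bz P j _ 1 = 0
    rw [Bz1, ci_nn P h]; simp [nn]

theorem nn_sq (h : τ j = 0) : ∑ o, nn P j τ o ^ 2 = cv d P.lam τ := by
  have h3 := P.d3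
  have d1 : (d : ℝ) - 1 ≠ 0 := by linarith
  have a := P.zt_nq 0 τ
  have : ∀ k, nn P j τ (some k) ^ 2 = P.zt 0 τ (some k) ^ 2 +
      2 * P.r ^ 2 * ((∑ i, τ i) / (d - 1)) * (P.e j k * ∑ i, τ i * P.e i k) +
      P.r ^ 2 * ((∑ i, τ i) / (d - 1)) ^ 2 * (P.e j k * P.e j k) := fun k => by
    simp only [nn, Par.zt, Option.elim]; ring
  rw [H43.nq, Fintype.sum_option, ← eq_sub_iff_add_eq'] at a
  rw [Fintype.sum_option]
  simp only [this, sum_add_distrib, ← mul_sum, ee, ew P h, a]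
  simp only [nn, Par.zt, Option.elim, cov, cv, P.r_sq, P.lam_eq]
  field_simp
  ring

theorem phase (s : ℝ) (z : VI d → ℝ) : ∑ o, P.zt s τ o * z o =
    -(∑ i, τ i) / (d - 1) * (P.cs * Bz P j z 0 - P.sn * Bz P j z 1) +
      (s + P.lam / (d - 1) * ∑ i, τ i) * (P.cs * Bz P j z 0 + P.sn * Bz P j z 1) +
        ∑ o, nn P j τ o * z o := by
  have h3 := P.d3
  have d1 : (d : ℝ) - 1 ≠ 0 := by linarith
  have : ∀ k, nn P j τ (some k) * z (some k) = P.zt s τ (some k) * z (some k) +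
      P.r * ((∑ i, τ i) / (d - 1)) * (P.e j k * z (some k)) := fun k => by
    simp only [nn, Par.zt, Option.elim]; ring
  have a : P.cs * Bz P j z 0 - P.sn * Bz P j z 1 = P.rho * z none + P.r * P.ci j z := by
    rw [Bz0, Bz1, ← P.cs_sn]
    linear_combination z none * P.cs_sq - z none * P.sn_sq
  have b : P.cs * Bz P j z 0 + P.sn * Bz P j z 1 = z none := by
    rw [Bz0, Bz1]
    linear_combination z none * cs2 P
  rw [a, b, Fintype.sum_option, Fintype.sum_option]
  simp only [this, sum_add_distrib, ← mul_sum]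
  simp only [nn, Par.zt, Option.elim, Par.ci, P.lam_eq]
  field_simp
  ring

theorem uu_sq (j : Fin d) : ∑ o, uu P j o ^ 2 ≤ 50 := by
  have hc := P.cs_ge
  have : ∀ k, uu P j (some k) ^ 2 = (P.sn / P.cs) ^ 2 * (P.e j k * P.e j k) := fun k => by
    simp only [uu, Option.elim]; ring
  have b : (P.sn / P.cs) ^ 2 ≤ 49 := by
    rw [div_pow, div_le_iff₀ (by positivity)]
    nlinarith [P.sn_le, P.sn_pos]
  rw [Fintype.sum_option]
  simp only [this, ← mul_sum, ee]
  simp only [uu, Option.elim]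
  linarith

theorem uu_abs (j : Fin d) : ∑ o, |uu P j o| ≤ 8 * (d + 1) := by
  refine (sum_le_card_nsmul _ _ 8 fun o _ => ?_).trans ?_
  · have := (single_le_sum (f := fun o => uu P j o ^ 2) (fun _ _ => sq_nonneg _) (mem_univ o)).trans
      (uu_sq P j)
    exact abs_le_of_sq_le_sq' (by linarith) (by norm_num) |> abs_le.2
  · rw [card_univ, Fintype.card_option, Fintype.card_fin, nsmul_eq_mul, mul_comm]
    gcongr; exact_mod_cast (by omega : d - 1 + 1 ≤ d + 1)

theorem ch_sub (j : Fin d) (s : ℝ) (τ : Fin d → ℝ) (y : SI d → ℝ) :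
    ‖ch s τ (P.val y) - H43.ch (P.zt s τ) (vp y + y none • uu P j)‖ ≤
      (|s| + ∑ i, |τ i|) * (8 * d + 9) * |y none| := by
  have a := P.zt_ch s τ y
  have b : ‖H43.ch (P.zt s τ) (vp y) - H43.ch (P.zt s τ) (vp y + y none • uu P j)‖ ≤
      (|s| + ∑ i, |τ i|) * (8 * (d + 1)) * |y none| := by
    refine (norm_eI_sub _ _).trans ?_
    have e : ∑ o, P.zt s τ o * vp y o - ∑ o, P.zt s τ o * (vp y + y none • uu P j) o =
        -(∑ o, P.zt s τ o * uu P j o) * y none := by
      rw [← sum_sub_distrib, neg_mul, sum_mul, ← sum_neg_distrib]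
      exact sum_congr rfl fun o _ => by simp only [Pi.add_apply, Pi.smul_apply, smul_eq_mul]; ring
    rw [e, abs_mul, abs_neg]
    gcongr
    refine (abs_sum_le_sum_abs _ _).trans ((sum_le_sum (g := fun o => (|s| + ∑ i, |τ i|) *
      |uu P j o|) fun o _ => ?_).trans ?_)
    · rw [abs_mul]
      exact mul_le_mul_of_nonneg_right ((norm_le_pi_norm _ o).trans (P.zt_norm s τ)) (abs_nonneg _)
    · rw [← mul_sum]
      exact mul_le_mul_of_nonneg_left (uu_abs P j) (by positivity)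
  refine (norm_sub_le_norm_sub_add_norm_sub _ _ _).trans ((add_le_add a b).trans_eq ?_)
  ring

theorem ex_abs (m : Mix (SI d)) {κ h e : ℝ} (hκ : 0 < κ) (hh : 0 ≤ h) (he : 0 < e) :
    ∫ y, |y none| * m.den (vs d κ h) y ≤ e + (m.E (fun y => y none ^ 2) + κ ^ 2) / e := by
  have hv := EPx.vs_pos d hκ hh
  have pg : PG fun y : SI d → ℝ => |y none| := (PG.coord none).abs
  have a := ((p_MIX p_KER _ m _ hv).2.2.2.2.2.2 _ pg).2.1
  rw [Mix.Ex] at a
  rw [a]
  have b : ∀ x : SI d → ℝ, ∫ y, |y none| * ker (vs d κ h) (y - x) ≤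
      e + κ ^ 2 / e + 1 / e * x none ^ 2 := fun x => by
    have p2 : PG fun y : SI d → ℝ => (y none - x none) ^ 2 := ((PG.coord none).sub (PG.const _)).pow 2
    have i2 := ker_intb hv x p2
    have i1 := ker_intb hv x (PG.const (e + 1 / e * x none ^ 2))
    refine (integral_mono (ker_intb hv x pg) (i1.add (i2.const_mul (1 / e))) fun y => ?_).trans_eq ?_
    · simp only [Pi.add_apply]
      rw [← mul_assoc, ← add_mul]
      refine mul_le_mul_of_nonneg_right ?_ (ker_pos hv _).le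
      have k : ∀ t : ℝ, |t| ≤ e / 2 + 1 / e * t ^ 2 := fun t => by
        rw [← sub_le_iff_le_add', one_div_mul_eq_div, le_div_iff₀ he, ← sq_abs t]
        nlinarith [sq_nonneg (e - |t|), abs_nonneg t]
      have := abs_add_le (y none - x none) (x none)
      rw [sub_add_cancel] at this
      linarith [k (y none - x none), k (x none)]
    · simp only [Pi.add_apply]
      rw [integral_add i1 (i2.const_mul _), integral_const_mul, integral_const_mul, ker_int hv,
        (p_KER _ _ x hv).2.2.2 none]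
      simp only [vs, Option.elim]; ring
  refine (sum_le_sum fun ω _ => mul_le_mul_of_nonneg_left (b _) (m.p0 ω)).trans_eq ?_
  change m.E (fun x => e + κ ^ 2 / e + 1 / e * x none ^ 2) = _
  rw [Mix.E_add, Mix.E_const, Mix.E_mul]; ring

theorem exp_sub {x v : ℝ} (hx : 0 ≤ x) (hv : 0 ≤ v) :
    |exp (-((1 + v) * x) / 2) - exp (-x / 2)| ≤ v := by
  have a : exp (-((1 + v) * x) / 2) = exp (-x / 2) * exp (-(v * x) / 2) := by
    rw [← exp_add]; congr 1; ring
  have b := add_one_le_exp (-(v * x) / 2)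
  have c : exp (-(v * x) / 2) ≤ 1 := exp_le_one_iff.2 (by linarith [mul_nonneg hv hx])
  have e0 := exp_pos (-x / 2)
  have f : exp (-x / 2) * (x / 2) ≤ 1 := by
    have := add_one_le_exp (x / 2)
    have g : exp (-x / 2) * exp (x / 2) = 1 := by rw [← exp_add]; simp [neg_div]
    nlinarith
  rw [a, abs_le]
  constructor <;> nlinarith [mul_le_mul_of_nonneg_left f hv]

end UCEx

open UCEx in
theorem p_UCE (hUOM : S_UOM) (hUGI : S_UGI) :
    S_UCE := by
  intro d K h ε hh hε
  set C : ℝ := (d + 1) * |K| * (8 * d + 9)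
  have C0 : 0 ≤ C := by positivity
  obtain ⟨e, e0, e1⟩ : ∃ e : ℝ, 0 < e ∧ (C + 4) * e = ε / 2 :=
    ⟨ε / 2 / (C + 4), by positivity, by field_simp⟩
  obtain ⟨ε1, a0, a1⟩ : ∃ ε1 : ℝ, 0 < ε1 ∧ (2 * C / e + 50 / (e * h) + 3) * ε1 = ε / 2 :=
    ⟨ε / 2 / (2 * C / e + 50 / (e * h) + 3), by positivity, by field_simp⟩
  refine ⟨ε1, a0, fun P m κ hκ hk ho hF j s τ H hj hs hτ hH => ?_⟩
  have hv := EPx.vs_pos d hκ hh.le
  have v0 : 0 < κ ^ 2 + h := by positivity
  set al := -(∑ i, τ i) / (d - 1 : ℝ) with hal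
  set be := s + P.lam / (d - 1) * ∑ i, τ i with hbe
  have Q0 : 0 ≤ cv d P.lam τ := nn_sq P hj ▸ sum_nonneg fun _ _ => sq_nonneg _
  have nE : ∀ x : ℝ, ‖Complex.exp (Complex.I * x)‖ = 1 := fun x => by
    rw [mul_comm, Complex.norm_exp_ofReal_mul_I]
  have mB : Measurable (Bz P j) := by unfold Bz; fun_prop
  have mz : Measurable fun y : SI d → ℝ => vp y + y none • uu P j := by unfold vp; fun_prop
  have mc : Measurable (H43.ch (P.zt s τ)) := by unfold H43.ch; fun_prop
  have mg : Measurable (P.gE al be (cv d P.lam τ)) := by unfold Par.gE; fun_prop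
  have mv : Measurable fun y => ch s τ (P.val y) := by
    simp only [ch, Par.val, Par.ci, vp, Option.elim]; fun_prop
  have ng : ∀ x, ‖P.gE al be (cv d P.lam τ) x‖ ≤ 1 := fun x => by
    rw [Par.gE, norm_mul, nE, one_mul, Complex.norm_real, norm_eq_abs, abs_of_pos (exp_pos _)]
    exact exp_le_one_iff.2 (by linarith)
  have n2 : ∀ (x : Fin 2 → ℝ) (c : ℂ), ‖c‖ = 1 →
      ‖H x * (c - P.gE al be (cv d P.lam τ) x)‖ ≤ 2 := fun x c hc => by
    rw [norm_mul]
    refine (mul_le_of_le_one_left (norm_nonneg _) (hH.2 x)).trans ((norm_sub_le _ _).trans ?_)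
    linarith [ng x]
  set Φ : (VI d → ℝ) → ℂ := fun z =>
    H (Bz P j z) * (H43.ch (P.zt s τ) z - P.gE al be (cv d P.lam τ) (Bz P j z)) with hΦ
  have bΦ : MB 2 Φ := ⟨(hH.1.comp mB).mul (mc.sub (mg.comp mB)), fun z => n2 _ _ (nE _)⟩
  have di : Integrable (m.den (vs d κ h)) := by
    simpa using ((p_MIX p_KER _ m _ hv).2.2.2.2.2.2 _ (PG.const 1)).1
  have S1 : ‖(∫ y, H (P.ed j y) * (ch s τ (P.val y) - P.gE al be (cv d P.lam τ) (P.ed j y)) *
      (m.den (vs d κ h) y : ℝ)) - ∫ y, Φ (vp y + y none • uu P j) * (m.den (vs d κ h) y : ℝ)‖ ≤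
        C * (e + 2 * ε1 / e) := by
    have b1 : MB 2 fun y => H (P.ed j y) * (ch s τ (P.val y) -
        P.gE al be (cv d P.lam τ) (P.ed j y)) := ⟨by
      simp only [ed_eq]
      exact (hH.1.comp (mB.comp mz)).mul (mv.sub (mg.comp (mB.comp mz))), fun y => n2 _ _ (nE _)⟩
    have b2 : MB 2 fun y : SI d → ℝ => Φ (vp y + y none • uu P j) :=
      ⟨bΦ.1.comp mz, fun y => bΦ.2 _⟩
    have i3 := ((p_MIX p_KER _ m _ hv).2.2.2.2.2.2 _ (PG.coord none).abs).1
    rw [← integral_sub (b1.intb di) (b2.intb di)]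
    refine (norm_integral_le_of_norm_le (i3.const_mul C) (ae_of_all _ fun y => ?_)).trans ?_
    · rw [← sub_mul, norm_mul, Complex.norm_real, norm_eq_abs,
        abs_of_pos (MIXx.den_pos m hv y), ← mul_assoc]
      refine mul_le_mul_of_nonneg_right ?_ (MIXx.den_pos m hv y).le
      simp only [hΦ, ← ed_eq]
      rw [← mul_sub, sub_sub_sub_cancel_right, norm_mul]
      refine (mul_le_of_le_one_left (norm_nonneg _) (hH.2 _)).trans ((ch_sub P j s τ y).trans ?_)
      have : ∑ i, |τ i| ≤ d * |K| := by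
        simpa using sum_le_card_nsmul univ (fun i => |τ i|) |K| fun i _ =>
          (hτ i).trans (le_abs_self K)
      have : |s| + ∑ i, |τ i| ≤ (d + 1) * |K| := by linarith [le_abs_self K]
      simp only [C]; gcongr
    · rw [integral_const_mul]
      refine mul_le_mul_of_nonneg_left ((ex_abs m hκ hh.le e0).trans ?_) C0
      gcongr; linarith
  have S2 := (hUOM d m κ h 2 e (uu P j) Φ hκ hh e0 bΦ).trans
    (show _ ≤ 2 * (50 * (2 * ε1) / (4 * e * h) + 2 * e) by
      have := uu_sq P j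
      have : 0 ≤ m.E fun y => y none ^ 2 :=
        sum_nonneg fun ω _ => mul_nonneg (m.p0 ω) (sq_nonneg _)
      gcongr; linarith)
  have fi : Integrable ((m.map vp).den fun _ => κ ^ 2 + h) := by
    simpa using ((p_MIX p_KER _ (m.map vp) _ fun _ => v0).2.2.2.2.2.2 _ (PG.const 1)).1
  have w0 : ∀ _ : VI d, 0 < 1 + (κ ^ 2 + h) := fun _ => by positivity
  have gi : Integrable (ker fun _ : VI d => 1 + (κ ^ 2 + h)) := by
    simpa using ker_intb w0 0 (PG.const 1)
  have S3 : ‖(∫ z, Φ z * ((m.map vp).den (fun _ => κ ^ 2 + h) z : ℝ)) -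
      ∫ z, Φ z * (ker (fun _ => 1 + (κ ^ 2 + h)) z : ℝ)‖ ≤ 2 * ε1 := by
    rw [← integral_sub (bΦ.intb fi) (bΦ.intb gi)]
    refine (norm_integral_le_of_norm_le ((fi.sub gi).abs.const_mul 2)
      (ae_of_all _ fun z => ?_)).trans ?_
    · rw [← mul_sub, norm_mul, ← Complex.ofReal_sub, Complex.norm_real, norm_eq_abs]
      exact mul_le_mul_of_nonneg_right (bΦ.2 z) (abs_nonneg _)
    · rw [integral_const_mul]
      exact mul_le_mul_of_nonneg_left hF zero_le_two
  have S4 : ‖∫ z, Φ z * (ker (fun _ => 1 + (κ ^ 2 + h)) z : ℝ)‖ ≤ ε1 + h := by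
    set H' : (Fin 2 → ℝ) → ℂ := fun x => H x * Complex.exp (Complex.I *
      (al * (P.cs * x 0 - P.sn * x 1) + be * (P.cs * x 0 + P.sn * x 1) : ℝ)) with hH'
    have bH : MB 1 H' := ⟨hH.1.mul (by fun_prop), fun x => by
      rw [hH', norm_mul, nE, mul_one]; exact hH.2 x⟩
    have b1 : MB 1 fun z => H' (Bz P j z) := ⟨bH.1.comp mB, fun z => bH.2 _⟩
    have b2 : MB 1 fun z => H' (Bz P j z) *
        Complex.exp (Complex.I * (∑ o, nn P j τ o * z o : ℝ)) :=
      ⟨b1.1.mul (by fun_prop), fun z => by rw [norm_mul, nE, mul_one]; exact bH.2 _⟩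
    have U := hUGI (VI d) (BB P j) (nn P j τ) (1 + (κ ^ 2 + h)) 1 H' (w0 none) (BB_on P j)
      (BB_nn P hj) bH
    rw [nn_sq P hj] at U
    have e : ∀ z, Φ z * (ker (fun _ => 1 + (κ ^ 2 + h)) z : ℝ) = H' (Bz P j z) *
        Complex.exp (Complex.I * (∑ o, nn P j τ o * z o : ℝ)) *
          (ker (fun _ => 1 + (κ ^ 2 + h)) z : ℝ) - (exp (-cv d P.lam τ / 2) : ℝ) *
            (H' (Bz P j z) * (ker (fun _ => 1 + (κ ^ 2 + h)) z : ℝ)) := fun z => by
      simp only [hΦ, hH', H43.ch, Par.gE]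
      rw [phase P (j := j) s z, ← hal, ← hbe, Complex.ofReal_add _ (∑ o, _), mul_add Complex.I,
        Complex.exp_add]
      ring
    have n1 : ‖∫ z, H' (Bz P j z) * (ker (fun _ => 1 + (κ ^ 2 + h)) z : ℝ)‖ ≤ 1 := by
      refine (norm_integral_le_of_norm_le gi (ae_of_all _ fun z => ?_)).trans_eq ?_
      · rw [norm_mul, Complex.norm_real, norm_eq_abs, abs_of_pos (ker_pos w0 z)]
        exact mul_le_of_le_one_left (ker_pos w0 z).le (bH.2 _)
      · simpa using ker_int w0 0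
    simp only [e]
    rw [integral_sub (b2.intb gi) ((b1.intb gi).const_mul _), integral_const_mul]
    refine (congrArg (fun t => ‖t - _‖) U).trans_le ?_
    change ‖_ * (∫ z, H' (Bz P j z) * _) - _‖ ≤ _
    rw [← sub_mul, norm_mul, ← Complex.ofReal_sub, Complex.norm_real, norm_eq_abs]
    exact (mul_le_of_le_one_right (abs_nonneg _) n1).trans ((exp_sub Q0 v0.le).trans (by linarith))
  have T := (norm_sub_le_norm_sub_add_norm_sub _ _ _).trans (add_le_add
    ((norm_sub_le_norm_sub_add_norm_sub _ _ _).trans (add_le_add S1 S2)) S3)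
  refine (norm_le_norm_sub_add _ _).trans ((add_le_add T S4).trans_eq ?_)
  have : C * (e + 2 * ε1 / e) + 2 * (50 * (2 * ε1) / (4 * e * h) + 2 * e) + 2 * ε1 + ε1 =
      (C + 4) * e + (2 * C / e + 50 / (e * h) + 3) * ε1 := by field_simp; ring
  linarith

end Pool.Agent.P.MP_6b977f_mp.RG
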