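import Pool.Agent.P.MP_6b977f_mp.RG.IfaceU
import Pool.Agent.P.MP_6b977f_mp.RG.LibL43

/-! Step UCP. -/

namespace Pool.Agent.P.MP_6b977f_mp.RG

open Finset MeasureTheory Real
open scoped Classical

namespace UCPx
variable {d : ℕ} (P : Par d) (μ : Law d) (vl : ℤ → ℤ) (δ : ℝ) (n : ℕ)

theorem sumC (f : St d → ℂ) : ∑ ω : (P.mixU μ vl δ n).Ω, ((P.mixU μ vl δ n).p ω : ℂ) * f ω.1.1 =
    ∑ z ∈ μ.A, (μ.p z : ℂ) * f z := by
  change ∑ ω : μ.A × (Option (Fin d) → Fin (n + 1)),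
    ((μ.p ω.1 / (n + 1) ^ (d + 1) : ℝ) : ℂ) * f ω.1 = _
  simp only [Fintype.sum_prod_type, sum_const, card_univ, Fintype.card_fun, Fintype.card_fin,
    Fintype.card_option, nsmul_eq_mul]
  rw [← Finset.sum_coe_sort μ.A fun z => (μ.p z : ℂ) * f z]
  refine sum_congr rfl fun z _ => ?_
  have : (n : ℂ) + 1 ≠ 0 := by exact_mod_cast n.succ_ne_zero
  push_cast
  field_simp

theorem sumR (f : St d → ℝ) :
    ∑ ω : (P.mixU μ vl δ n).Ω, (P.mixU μ vl δ n).p ω * f ω.1.1 = μ.E f := by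
  have := sumC P μ vl δ n fun z => f z
  unfold Law.E
  exact_mod_cast this

theorem un (ω : (P.mixU μ vl δ n).Ω) (o : Option (Fin d)) :
    0 ≤ ((ω.2 o : ℕ) / (n + 1) : ℝ) ∧ ((ω.2 o : ℕ) / (n + 1) : ℝ) ≤ 1 :=
  ⟨by positivity, (div_le_one (by positivity)).2 (by exact_mod_cast (ω.2 o).2.le)⟩

variable {δ}

theorem near (h0 : 0 ≤ δ) (ω : (P.mixU μ vl δ n).Ω) :
    ‖P.val ((P.mixU μ vl δ n).x ω) - re δ (vl ∘ ω.1.1)‖ ≤ δ := by
  refine (pi_norm_le_iff_of_nonneg h0).2 fun o => ?_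
  obtain ⟨u0, u1⟩ := un P μ vl δ n ω o
  simp only [Par.mixU, P.val_wh, re, Pi.sub_apply, Function.comp]
  rw [← mul_sub, add_sub_cancel_left, norm_eq_abs, abs_of_nonneg (mul_nonneg h0 u0)]
  exact mul_le_of_le_one_right h0 u1

theorem near' (h0 : 0 ≤ δ) (ω : (P.mixU μ vl δ n).Ω) (y : SI d → ℝ) :
    ‖P.val y - re δ (vl ∘ ω.1.1)‖ ≤ δ + ‖P.val y - P.val ((P.mixU μ vl δ n).x ω)‖ :=
  (norm_sub_le_norm_sub_add_norm_sub _ (P.val ((P.mixU μ vl δ n).x ω)) _).trans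
    (by linarith [near P μ vl n h0 ω])

theorem ch_lip (s : ℝ) (τ : Fin d → ℝ) (z w : Option (Fin d) → ℝ) :
    ‖ch s τ z - ch s τ w‖ ≤ (|s| + ∑ i, |τ i|) * ‖z - w‖ := by
  refine (norm_eI_sub _ _).trans ?_
  have a : ∀ o, |z o - w o| ≤ ‖z - w‖ := fun o => norm_le_pi_norm (z - w) o
  rw [add_sub_add_comm, ← mul_sub, ← sum_sub_distrib, add_mul, sum_mul]
  refine (abs_add_le _ _).trans (add_le_add ?_ ((abs_sum_le_sum_abs _ _).trans
    (sum_le_sum fun i _ => ?_)))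
  · rw [abs_mul]; exact mul_le_mul_of_nonneg_left (a _) (abs_nonneg _)
  · rw [← mul_sub, abs_mul]; exact mul_le_mul_of_nonneg_left (a _) (abs_nonneg _)

theorem norm_ch (s : ℝ) (τ : Fin d → ℝ) (z : Option (Fin d) → ℝ) : ‖ch s τ z‖ ≤ 1 := by
  rw [ch, mul_comm, Complex.norm_exp_ofReal_mul_I]

theorem val_cont : Continuous P.val := by
  refine continuous_pi fun o => ?_
  cases o <;> simp only [Par.val, Par.ci, vp, Option.elim] <;> fun_prop

end UCPx

open UCPx in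
theorem p_UCP (hUNZ : S_UNZ) :
    S_UCP := by
  intro d P T μ vl mk t δ κ h e K n hδ hκ hh he hK
  have hv := EPx.vs_pos d hκ hh
  have K0 := (abs_nonneg _).trans (hK T.root)
  have d3 := P.d3
  set m := P.mixU μ vl δ n
  set B := (d + 2 : ℝ) ^ 2 * (e + (κ ^ 2 + h) / e)
  have pg : ∀ (a c : ℝ) (x : SI d → ℝ), PG fun y => a + c * (δ + ‖P.val y - P.val x‖) :=
    fun a c x => (PG.const a).add (((PG.const δ).add (hUNZ d P κ h e x hκ hh he).1).cmul c)
  have nz : ∀ (a c : ℝ) (x : SI d → ℝ), 0 ≤ c →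
      ∫ y, (a + c * (δ + ‖P.val y - P.val x‖)) * ker (vs d κ h) (y - x) ≤ a + c * (δ + B) :=
    fun a c x hc => by
    obtain ⟨h1, h2⟩ := hUNZ d P κ h e x hκ hh he
    have : ∀ y, (a + c * (δ + ‖P.val y - P.val x‖)) * ker (vs d κ h) (y - x) =
        (a + c * δ) * ker (vs d κ h) (y - x) +
          c * (‖P.val y - P.val x‖ * ker (vs d κ h) (y - x)) := fun y => by ring
    simp only [this]
    rw [integral_add (ker_intb hv x (PG.const _)) ((ker_intb hv x h1).const_mul c),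
      integral_const_mul, integral_const_mul, ker_int hv]
    nlinarith [mul_le_mul_of_nonneg_left h2 hc]
  have ec : ∀ f : St d → ℂ, ∑ ω : m.Ω, (m.p ω : ℂ) *
      ∫ y, f ω.1.1 * (ker (vs d κ h) (y - m.x ω) : ℝ) = ∑ z ∈ μ.A, (μ.p z : ℂ) * f z := fun f => by
    simp only [integral_const_mul, integral_complex_ofReal, ker_int hv, Complex.ofReal_one, mul_one]
    exact sumC P μ vl δ n f
  refine ⟨?_, ?_, fun s τ => ?_, fun s τ => ?_, ec fun z => T.th (mk (z none))⟩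
  · rw [← Law.E_mul, ← μ.E_const (3200 * δ ^ 2), ← Law.E_add, ← sumR P μ vl δ n]
    refine sum_le_sum fun ω _ => mul_le_mul_of_nonneg_left ?_ (m.p0 ω)
    have a := (P.abs_om _).trans (mul_le_mul_of_nonneg_left
      (P.Wd_shift hδ.le (vl ∘ ω.1.1) (un P μ vl δ n ω)) (by positivity))
    set W := Wd P.lam (re δ (vl ∘ ω.1.1))
    have b : 20 / d * (|W| + 2 * d * δ) ≤ 7 * |W| + 40 * δ := by
      rw [div_mul_eq_mul_div, div_le_iff₀ (by positivity)]
      nlinarith [abs_nonneg W]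
    rw [← sq_abs W]
    refine (sq_abs _).ge.trans ((pow_le_pow_left₀ (abs_nonneg _) (a.trans b) 2).trans ?_)
    nlinarith [sq_nonneg (7 * |W| - 40 * δ), sq_nonneg |W|]
  · rw [← μ.E_const (K * (δ + B)), ← Law.E_add, ← sumR P μ vl δ n]
    refine sum_le_sum fun ω _ => mul_le_mul_of_nonneg_left
      (le_trans ?_ (nz _ K (m.x ω) K0)) (m.p0 ω)
    refine integral_mono_of_nonneg (ae_of_all _ fun y => mul_nonneg ?_ (ker_pos hv _).le)
      (ker_intb hv _ (pg _ _ _)) (ae_of_all _ fun y => mul_le_mul_of_nonneg_right ?_ (ker_pos hv _).le)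
    · have := T.qk_mem t (P.val y none) (P.kU μ vl δ n mk ω)
      linarith [log_nonneg T.card_pos, log_nonpos (by linarith) (this.2.trans (by norm_num))]
    · have a := (le_abs_self _).trans (T.qk_lip t (δ * vl (ω.1.1 none)) (P.val y none) (mk ∘ ω.1.1))
      have b : |δ * vl (ω.1.1 none) - P.val y none| ≤ δ + ‖P.val y - P.val (m.x ω)‖ := by
        rw [abs_sub_comm]
        exact (norm_le_pi_norm (P.val y - re δ (vl ∘ ω.1.1)) none).trans (near' P μ vl n hδ.le ω y)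
      have := mul_le_mul (hK ((mk ∘ ω.1.1) none).1) b (abs_nonneg _) K0
      simp only [Par.kU]
      linarith
  · rw [← sumC P μ vl δ n fun z => ch s τ (re δ (vl ∘ z)),
      ← m.E_const ((|s| + ∑ i, |τ i|) * δ), ← sum_sub_distrib]
    refine (norm_sum_le _ _).trans (sum_le_sum fun ω _ => ?_)
    rw [← mul_sub, norm_mul, Complex.norm_real, norm_eq_abs, abs_of_nonneg (m.p0 ω)]
    exact mul_le_mul_of_nonneg_left ((ch_lip _ _ _ _).trans
      (mul_le_mul_of_nonneg_left (near P μ vl n hδ.le ω) (by positivity))) (m.p0 ω)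
  · have mb : MB 1 fun y => ch s τ (P.val y) :=
      ⟨Continuous.measurable (by have := val_cont P; unfold ch; fun_prop), fun y => norm_ch _ _ _⟩
    have a := m.EC_int (fun _ => ()) hv (G := fun _ y => ch s τ (P.val y)) fun _ => mb
    simp only [← mul_sum, ← Complex.ofReal_sum, Mix.jd_sum] at a
    rw [← a, ← ec fun z => ch s τ (re δ (vl ∘ z))]
    refine (m.EC_sub_le id hv (G := fun _ y => ch s τ (P.val y))
      (G' := fun ω _ => ch s τ (re δ (vl ∘ ω.1.1)))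
      (H := fun ω y => 0 + (|s| + ∑ i, |τ i|) * (δ + ‖P.val y - P.val (m.x ω)‖)) (fun _ => mb)
      (fun ω => ⟨measurable_const, fun _ => norm_ch _ _ _⟩) (fun ω => pg _ _ _) fun ω y => ?_).trans ?_
    · rw [zero_add]
      exact (ch_lip _ _ _ _).trans
        (mul_le_mul_of_nonneg_left (near' P μ vl n hδ.le ω y) (by positivity))
    · rw [← m.E_const ((|s| + ∑ i, |τ i|) * (δ + B))]
      exact sum_le_sum fun ω _ => mul_le_mul_of_nonneg_left
        ((nz 0 _ (m.x ω) (by positivity)).trans_eq (zero_add _)) (m.p0 ω)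

end Pool.Agent.P.MP_6b977f_mp.RG
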