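import Pool.Agent.P.MP_6b977f_mp.RG.IfaceU
import Pool.Agent.P.MP_6b977f_mp.RG.IfaceA
import Pool.Agent.P.MP_6b977f_mp.RG.LibL43

/-! Step UENT. -/

namespace Pool.Agent.P.MP_6b977f_mp.RG

open Finset MeasureTheory Real
open scoped Classical

namespace UENTx

theorem mom2 {ι : Type} [Fintype ι] (m : Mix ι) {v : ι → ℝ} (hv : ∀ j, 0 < v j) {C W : ℝ}
    (hx : ∀ ω j, |m.x ω j| ≤ C) (hW : ∀ j, v j ≤ W) :
    m.Ex v (fun y => ‖y‖ ^ 2) ≤ Fintype.card ι * (2 * W + 2 * C ^ 2) := by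
  rw [((p_MIX p_KER ι m v hv).2.2.2.2.2.2 _ (PG.norm.pow 2)).2.1]
  refine (sum_le_sum (g := fun ω => m.p ω * (Fintype.card ι * (2 * W + 2 * C ^ 2)))
    fun ω _ => mul_le_mul_of_nonneg_left ?_ (m.p0 ω)).trans_eq (by rw [← sum_mul, m.p1, one_mul])
  have g1 : ∀ j, PG fun y : ι → ℝ => (y j - m.x ω j) ^ 2 := fun j =>
    ((PG.coord j).sub (PG.const _)).pow 2
  have g2 : ∀ j, PG fun y : ι → ℝ => 2 * (y j - m.x ω j) ^ 2 + 2 * C ^ 2 := fun j =>
    ((g1 j).cmul 2).add (PG.const _)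
  refine (integral_mono (ker_intb hv _ (PG.norm.pow 2))
    (ker_intb hv _ (PG.sum univ fun j _ => g2 j)) fun y =>
      mul_le_mul_of_nonneg_right ?_ (ker_pos hv _).le).trans ?_
  · have s0 : 0 ≤ ∑ j, (2 * (y j - m.x ω j) ^ 2 + 2 * C ^ 2) := by positivity
    rw [← sq_sqrt s0]
    refine pow_le_pow_left₀ (norm_nonneg _) ((pi_norm_le_iff_of_nonneg (sqrt_nonneg _)).2
      fun j => abs_le_sqrt (le_trans ?_ (single_le_sum
        (f := fun j => 2 * (y j - m.x ω j) ^ 2 + 2 * C ^ 2) (fun j _ => by positivity)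
          (mem_univ j)))) 2
    have := sq_le_sq' (abs_le.1 (hx ω j)).1 (abs_le.1 (hx ω j)).2
    nlinarith [sq_nonneg (y j - 2 * m.x ω j)]
  · simp only [sum_mul]
    rw [integral_finsetSum _ fun j _ => ker_intb hv _ (g2 j), ← card_univ, ← nsmul_eq_mul]
    refine sum_le_card_nsmul _ _ _ fun j _ => ?_
    simp only [add_mul, mul_assoc]
    rw [integral_add ((ker_intb hv _ (g1 j)).const_mul 2)
      ((ker_intb hv _ (PG.const _)).const_mul 2), integral_const_mul, integral_const_mul,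
      integral_const_mul, (p_KER ι v _ hv).2.2.2 j, ker_int hv]
    linarith [hW j]

variable {d : ℕ} (P : Par d)

theorem E_le (μ : Law d) (vl : ℤ → ℤ) (δ : ℝ) (K : ℕ) {g : (SI d → ℝ) → ℝ} {f : St d → ℝ}
    (h : ∀ (s : St d) (u : Option (Fin d) → ℝ), (∀ o, 0 ≤ u o ∧ u o ≤ 1) →
      g (P.wh fun o => δ * (vl (s o) + u o)) ≤ f s) : (P.mixU μ vl δ K).E g ≤ μ.E f := by
  have k0 : (0 : ℝ) < K + 1 := by positivity
  refine (sum_le_sum (g := fun ω : μ.A × (Option (Fin d) → Fin (K + 1)) =>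
    μ.p ω.1 / (K + 1) ^ (d + 1) * f ω.1) fun ω _ => mul_le_mul_of_nonneg_left
      (h _ _ fun o => ⟨by positivity, (div_le_one k0).2 ?_⟩) ((P.mix μ δ K).p0 ω)).trans_eq ?_
  · exact_mod_cast (ω.2 o).2.le
  · change ∑ ω : μ.A × (Option (Fin d) → Fin (K + 1)), μ.p ω.1 / (K + 1) ^ (d + 1) * f ω.1 = _
    simp only [Fintype.sum_prod_type, sum_const, card_univ, Fintype.card_fun, Fintype.card_fin,
      Fintype.card_option, nsmul_eq_mul, Law.E]
    rw [← Finset.sum_coe_sort μ.A fun s => μ.p s * f s]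
    refine sum_congr rfl fun s _ => ?_
    push_cast
    field_simp

theorem wh_add (z w : Option (Fin d) → ℝ) : P.wh (z + w) = P.wh z + P.wh w := by
  funext j
  rcases j with _ | _ | j <;>
    simp only [Par.wh, Wd, Option.elim, Pi.add_apply, mul_add, sum_add_distrib] <;> ring

variable {A : Type} (μ : Law d) (vl : ℤ → ℤ) (mk : ℤ → A) (c : A → ℤ) (δ : ℝ) (K : ℕ)

theorem star_eq : P.mixU μ (fun n => vl n + c (mk n)) δ K =
    (P.mixU μ vl δ K).sh (P.kU μ vl δ K mk) fun b => P.wh fun o => δ * c (b o) := by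
  refine congrArg (@Mix.mk _ _ (P.mixU μ vl δ K).fin _ (P.mixU μ vl δ K).p0 (P.mixU μ vl δ K).p1)
    (funext fun ω => ?_)
  refine Eq.trans (congrArg _ (funext fun o => ?_)) (wh_add P _ _)
  simp only [Pi.add_apply, Par.kU, Function.comp]
  push_cast
  ring

/-- the translation on the edge -/
noncomputable def cE (b : A × A) : Fin 2 → ℝ :=
  ![δ * (c b.1 + c b.2) / (2 * P.cs), δ * (c b.1 - c b.2) / (2 * P.sn)]

theorem edge_eq : P.edge (P.mixU μ (fun n => vl n + c (mk n)) δ K) =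
    (P.edge (P.mixU μ vl δ K)).sh (P.kE _ (P.kU μ vl δ K mk)) (cE P c δ) := by
  refine congrArg (@Mix.mk _ _ (P.edge (P.mixU μ vl δ K)).fin _ (P.edge (P.mixU μ vl δ K)).p0
    (P.edge (P.mixU μ vl δ K)).p1) (funext fun ω => ?_)
  change P.ed ω.2 (P.wh fun o => δ * ((vl (ω.1.1.1 o) + c (mk (ω.1.1.1 o)) : ℤ) +
    (ω.1.2 o : ℕ) / (K + 1 : ℝ))) = P.ed ω.2 (P.wh fun o => δ * (vl (ω.1.1.1 o) +
      (ω.1.2 o : ℕ) / (K + 1 : ℝ))) + cE P c δ (mk (ω.1.1.1 none), mk (ω.1.1.1 (some ω.2)))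
  rw [P.ed_val, P.ed_val, P.val_wh, P.val_wh]
  funext j
  fin_cases j <;> simp [cE] <;> ring

theorem sep {δ : ℝ} (hδ : 0 < δ) (Λ : ℕ) {c : A → ℤ} (hc : Function.Injective c) (b b' : A × A)
    (h : b ≠ b') : Λ * δ / 2 ≤ ‖cE P (fun a => Λ * c a) δ b - cE P (fun a => Λ * c a) δ b'‖ := by
  have k : ∀ (n : ℤ) (s : ℝ), n ≠ 0 → 0 < s → s ≤ 1 → Λ * δ / 2 ≤ |Λ * δ * n / (2 * s)| :=
    fun n s n0 s0 s1 => by
    have : (1 : ℝ) ≤ |(n : ℝ)| := by exact_mod_cast Int.one_le_abs n0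
    rw [abs_div, abs_mul, abs_of_nonneg (show 0 ≤ Λ * δ by positivity),
      abs_of_pos (show 0 < 2 * s by positivity)]
    exact div_le_div₀ (by positivity) (le_mul_of_one_le_right (by positivity) this)
      (by positivity) (by linarith)
  by_cases e : c b.1 + c b.2 - (c b'.1 + c b'.2) = 0
  · refine (k (c b.1 - c b.2 - (c b'.1 - c b'.2)) _ (fun e' => h ?_) P.sn_pos P.sn_le).trans
      (le_trans (le_of_eq ?_) (norm_le_pi_norm _ 1))
    · exact Prod.ext (hc (by omega)) (hc (by omega))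
    · rw [norm_eq_abs]; congr 1; simp [cE]; ring
  · refine (k _ _ e P.cs_pos P.cs_le).trans (le_trans (le_of_eq ?_) (norm_le_pi_norm _ 0))
    rw [norm_eq_abs]; congr 1; simp [cE]; ring

theorem edge_bd {δ : ℝ} (hδ : 0 < δ) {V : ℕ} (hV : ∀ s ∈ μ.A, ∀ o, |vl (s o)| ≤ V)
    (ω : (P.edge (P.mixU μ vl δ K)).Ω) (j : Fin 2) :
    |(P.edge (P.mixU μ vl δ K)).x ω j| ≤ 7 * (δ * (V + 1)) := by
  have k0 : (0 : ℝ) < K + 1 := by positivity
  have b : ∀ o, |δ * (vl (ω.1.1.1 o) + (ω.1.2 o : ℕ) / (K + 1 : ℝ))| ≤ δ * (V + 1) := fun o => by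
    rw [abs_mul, abs_of_pos hδ]
    refine mul_le_mul_of_nonneg_left ((abs_add_le _ _).trans (add_le_add ?_ ?_)) hδ.le
    · exact_mod_cast hV _ ω.1.1.2 o
    · rw [abs_of_nonneg (by positivity), div_le_one k0]
      exact_mod_cast (ω.1.2 o).2.le
  have k : ∀ x s : ℝ, |x| ≤ 2 * (δ * (V + 1)) → 1 / 7 ≤ s → |x / (2 * s)| ≤ 7 * (δ * (V + 1)) :=
    fun x s hx hs => by
    rw [abs_div, abs_of_pos (show 0 < 2 * s by linarith), div_le_iff₀ (by linarith)]
    nlinarith [show 0 ≤ δ * (V + 1) by positivity]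
  change |P.ed ω.2 (P.wh fun o => δ * (vl (ω.1.1.1 o) + (ω.1.2 o : ℕ) / (K + 1 : ℝ))) j| ≤ _
  rw [P.ed_val, P.val_wh]
  fin_cases j
  · exact k _ _ ((abs_add_le _ _).trans (by linarith [b none, b (some ω.2)])) P.cs_ge
  · exact k _ _ ((abs_sub _ _).trans (by linarith [b none, b (some ω.2)])) P.sn_ge

end UENTx

theorem p_UENT (hINF : S_INF) (hELL : S_ELL) (hUFAR : S_UFAR) (hULAT : S_ULAT) (hUSY : S_USY) :
    S_UENT := by
  intro d P A _ μ vl mk δ η ε h hi hS hδ hη hε h0 h1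
  have d3 := P.d3
  have hl : 0 < d - P.lam := by linarith [P.sub_lam]
  obtain ⟨c, hc⟩ : ∃ c : A → ℤ, Function.Injective c :=
    ⟨fun a => (Fintype.equivFin A a : ℕ), fun a b e =>
      (Fintype.equivFin A).injective (Fin.ext (Nat.cast_injective (R := ℤ) e))⟩
  obtain ⟨V, hV⟩ : ∃ V : ℕ, ∀ s ∈ μ.A, ∀ o, |vl (s o)| ≤ V :=
    ⟨μ.A.sup fun s => univ.sup fun o => (vl (s o)).natAbs, fun s hs o => by
      rw [← Int.natCast_natAbs]
      exact_mod_cast (le_sup (f := fun o => (vl (s o)).natAbs) (mem_univ o)).trans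
        (le_sup (f := fun s : St d => univ.sup fun o => (vl (s o)).natAbs) hs)⟩
  set L : ℝ := Fintype.card (Fin 2) * (2 * 51 + 2 * (7 * (δ * (V + 1))) ^ 2)
  have L0 : 0 ≤ L := by positivity
  set N : ℝ := Fintype.card (A × A) + 1
  have N0 : 0 < N := by positivity
  set e : ℝ := ε / (4 * d * N) with he
  have e0 : 0 < e := by positivity
  obtain ⟨Λ, hΛ⟩ := exists_nat_gt (2 * V + 2 / δ * (1 + 4 * L / e ^ 2))
  have q0 : 0 ≤ 4 * L / e ^ 2 := by positivity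
  have Λ1 : (2 * V : ℝ) < Λ := lt_of_le_of_lt (le_add_of_nonneg_right (by positivity)) hΛ
  have Λ2 : 1 + 4 * L / e ^ 2 ≤ Λ * δ / 2 := by
    have : 2 / δ * (1 + 4 * L / e ^ 2) ≤ Λ := by linarith [show (0 : ℝ) ≤ V by positivity]
    rw [div_mul_eq_mul_div, div_le_iff₀ hδ] at this
    linarith
  obtain ⟨κ0, z0, h2⟩ := hULAT d P μ (fun n => vl n + Λ * c (mk n)) δ (ε / 4) hS
    (fun s hs s' hs' o o' (q : vl (s o) + Λ * c (mk (s o)) = vl (s' o') + Λ * c (mk (s' o'))) => by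
      have a := abs_le.1 (hV s hs o)
      have a' := abs_le.1 (hV s' hs' o')
      have Λ3 : (2 * V : ℤ) < Λ := by exact_mod_cast Λ1
      have q1 : c (mk (s o)) = c (mk (s' o')) := by
        rcases lt_trichotomy (c (mk (s o))) (c (mk (s' o'))) with r | r | r
        · nlinarith
        · exact r
        · nlinarith
      rw [q1] at q
      exact hi (Prod.ext (by simpa using q) (hc q1))) hδ (by positivity)
  obtain ⟨κ, k0, k1, k2, k3, k4⟩ : ∃ κ : ℝ, 0 < κ ∧ κ ≤ κ0 ∧ κ ≤ 1 ∧ κ ≤ ε ∧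
      κ ≤ ε * (η / (d - P.lam)) ^ 2 :=
    ⟨min (min κ0 1) (min ε (ε * (η / (d - P.lam)) ^ 2)), by positivity,
      (min_le_left _ _).trans (min_le_left _ _), (min_le_left _ _).trans (min_le_right _ _),
      (min_le_right _ _).trans (min_le_left _ _), (min_le_right _ _).trans (min_le_right _ _)⟩
  have k5 : κ ^ 2 ≤ κ := by nlinarith
  obtain ⟨K, h3⟩ := h2 κ k0 k1
  refine ⟨K, κ, k0, k5.trans k3, ?_⟩
  have h4 := h3 h h0
  rw [Par.Phi, UENTx.edge_eq P μ vl mk (fun a => Λ * c a),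
    UENTx.star_eq P μ vl mk (fun a => Λ * c a)] at h4
  have a1 := (hUFAR _ _ (P.mixU μ vl δ K) (P.kU μ vl δ K mk)
    (fun b => P.wh fun o => δ * (Λ * c (b o) : ℤ)) _ (EPx.vs_pos d k0 h0)).1
  have a2 := (hUFAR _ _ (P.edge (P.mixU μ vl δ K)) (P.kE _ (P.kU μ vl δ K mk))
    (UENTx.cE P (fun a => Λ * c a) δ) _ (P.ve_pos k0 h0)).2 (Λ * δ / 2) L e (by linarith) e0
      (UENTx.sep P hδ Λ hc) (UENTx.mom2 _ (P.ve_pos k0 h0) (UENTx.edge_bd P μ vl K hδ hV) fun j => by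
        have : κ ^ 2 / P.cs ^ 2 ≤ 49 := by
          rw [div_le_iff₀ (by have := P.cs_pos; positivity)]
          nlinarith [P.cs_ge]
        fin_cases j <;> simp [Par.ve] <;> linarith)
  have a3 : N * (e + 4 * L / (e * (Λ * δ / 2) ^ 2)) ≤ ε / (2 * d) := by
    have : 4 * L / (e * (Λ * δ / 2) ^ 2) ≤ e := by
      rw [div_le_iff₀ (by have : 0 < Λ * δ / 2 := by linarith
                          positivity)]
      have b : 4 * L / e ^ 2 ≤ (Λ * δ / 2) ^ 2 := by nlinarith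
      rw [div_le_iff₀ (by positivity)] at b
      linarith
    refine (mul_le_mul_of_nonneg_left (add_le_add le_rfl this) N0.le).trans_eq ?_
    rw [he]; field_simp; ring
  have a4 := mul_le_mul_of_nonneg_left ((sub_le_sub_left a3 _).trans a2)
    (show (0 : ℝ) ≤ d / 2 by positivity)
  rw [mul_sub, show (d : ℝ) / 2 * (ε / (2 * d)) = ε / 4 by field_simp; ring] at a4
  have a5 := hINF d P _ κ h (η / (d - P.lam)) (hUSY d P A μ vl mk δ K hS).sym k0 h0 (by positivity)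
  have h5 : (P.mixU μ vl δ K).E (fun y => y none ^ 2) ≤
      μ.E fun s => ((d - P.lam) ^ 2)⁻¹ * (|Wd P.lam (re δ (vl ∘ s))| + 3 * d * δ) ^ 2 :=
    UENTx.E_le P μ vl δ K fun s u hu => by
      have a := (P.Wd_shift hδ.le (vl ∘ s) hu).trans
        (show _ ≤ |Wd P.lam (re δ (vl ∘ s))| + 3 * d * δ by nlinarith)
      change (Wd P.lam _ / (d - P.lam)) ^ 2 ≤ _
      rw [div_pow, div_eq_inv_mul, ← sq_abs (Wd _ _)]
      exact mul_le_mul_of_nonneg_left (pow_le_pow_left₀ (abs_nonneg _) a 2) (by positivity)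
  rw [Law.E_mul] at h5
  have h6 : ((P.mixU μ vl δ K).E (fun y => y none ^ 2) + κ ^ 2) / (2 * (η / (d - P.lam)) ^ 2) ≤
      μ.E (fun s => (|Wd P.lam (re δ (vl ∘ s))| + 3 * d * δ) ^ 2) / (2 * η ^ 2) + ε / 2 := by
    refine (div_le_div_of_nonneg_right (add_le_add h5 (k5.trans k4)) (by positivity)).trans_eq ?_
    field_simp
  have h7 : log (2 * π * (η / (d - P.lam)) ^ 2) = log (2 * π * η ^ 2) - 2 * log (d - P.lam) := by
    rw [div_pow, ← mul_div_assoc, log_div (by positivity) (by positivity), log_pow]; norm_num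
  have h9 := hELL d P
  rw [Par.Phi] at a5
  rw [Law.gap0, Par.HU, mul_sub]
  linarith

end Pool.Agent.P.MP_6b977f_mp.RG
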