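import Pool.Agent.P.MP_6b977f_mp.RG.IfaceU

/-! Step UFAR. -/

namespace Pool.Agent.P.MP_6b977f_mp.RG

open Finset MeasureTheory Real
open scoped Classical

namespace UFARx

theorem pt {J O a : ℝ} (hJ : 0 ≤ J) (hO : 0 ≤ O) (ha : 0 < a) :
    (log (J + O) - log J) * J ≤ a * J + O / a := by
  rcases hJ.eq_or_lt with rfl | hJ
  · simpa using div_nonneg hO ha.le
  have h : log (J + O) - log J ≤ a + O / J / a := by
    rw [← log_div (by positivity) hJ.ne', log_le_iff_le_exp (by positivity), exp_add]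
    calc (J + O) / J = 1 + a * (O / J / a) := by field_simp
      _ ≤ (a + 1) * (O / J / a + 1) := by nlinarith [show 0 ≤ O / J / a by positivity]
      _ ≤ _ := mul_le_mul (add_one_le_exp _) (add_one_le_exp _) (by positivity) (by positivity)
  calc _ ≤ (a + O / J / a) * J := mul_le_mul_of_nonneg_right h hJ.le
    _ = _ := by field_simp

variable {ι B : Type} [Fintype ι] [Fintype B] (m : Mix ι) (k : m.Ω → B) (c : B → ι → ℝ)

theorem den_sh (v y : ι → ℝ) (b : B) : (m.sh k c).den v (y + c b) =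
    m.jd k v b y + ∑ b' ∈ univ.erase b, m.jd k v b' (y + (c b - c b')) := by
  have : (m.sh k c).den v (y + c b) = ∑ b', m.jd k v b' (y + (c b - c b')) := by
    simp only [Mix.jd]
    rw [sum_comm]
    refine sum_congr rfl fun ω _ => ?_
    rw [sum_eq_single (k ω) (fun b _ hb => by rw [ind_neg hb.symm]; ring) (by simp), ind_pos rfl,
      one_mul, add_sub, sub_sub, add_comm (c (k ω))]
    rfl
  rw [this, ← add_sum_erase _ _ (mem_univ b), sub_self, add_zero]

end UFARx

theorem p_UFAR :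
    S_UFAR := by
  intro ι _ B _ m k c v hv
  have pS := MIXx.pg_log (m.sh k c) hv
  have pG : ∀ b, PG fun y => log ((m.sh k c).den v (y + c b)) := fun b =>
    pS.comp (B := fun y => y + c b) fun j => (PG.coord j).add (PG.const _)
  have pH := m.pg_log_jd k hv
  have O0 : ∀ b y, 0 ≤ ∑ b' ∈ univ.erase b, m.jd k v b' (y + (c b - c b')) := fun b y =>
    sum_nonneg fun _ _ => m.jd_nonneg k hv _ _
  have e1 : (m.sh k c).ent v = -m.EM k v fun b y => log ((m.sh k c).den v (y + c b)) := by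
    rw [Mix.ent, ← (m.sh k c).EM_Ex k hv pS]
    refine congrArg _ (sum_congr rfl fun ω _ => congrArg _ ?_)
    rw [← integral_add_right_eq_self _ (c (k ω))]
    exact congrArg _ (funext fun y => congrArg _ (congrArg _ (add_sub_add_right_eq_sub _ _ _)))
  rw [e1, Mix.en]
  refine ⟨neg_le_neg (m.EM_mono k hv pH pG fun ω h y => log_le_log (m.jd_pos k hv h y) ?_),
    fun Λ L e hΛ he hc hL => ?_⟩
  · rw [UFARx.den_sh]
    exact le_add_of_nonneg_right (O0 _ y)
  obtain ⟨w, hw⟩ : ∃ w : (ι → ℝ) → ℝ, w = fun y => e + 4 / (e * Λ ^ 2) * ‖y‖ ^ 2 := ⟨_, rfl⟩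
  have pw : PG w := hw ▸ (PG.const e).add ((PG.norm.pow 2).cmul _)
  have w1 : ∀ y, e ≤ w y := fun y => hw ▸ le_add_of_nonneg_right (by positivity)
  have w2 : ∀ y, Λ / 2 ≤ ‖y‖ → e⁻¹ ≤ w y := fun y h => by
    rw [hw]
    calc e⁻¹ = 4 / (e * Λ ^ 2) * (Λ / 2) ^ 2 := by field_simp; norm_num
      _ ≤ 4 / (e * Λ ^ 2) * ‖y‖ ^ 2 := by gcongr
      _ ≤ _ := le_add_of_nonneg_left he.le
  have i b := (m.jd_mul k hv b pw).1
  have i2 b := integrable_finsetSum univ fun b' _ => (i b').comp_add_right (c b - c b')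
  have h1 : ∑ b, ∫ y, w y * m.jd k v b y ≤ e + 4 * L / (e * Λ ^ 2) := by
    rw [← integral_finsetSum _ fun b _ => i b, ← m.EM_eq k hv fun _ => pw, hw,
      m.EM_add k hv (fun _ => PG.const e) fun _ => (PG.norm.pow 2).cmul _, m.EM_const k hv,
      m.EM_mul, m.EM_Ex k hv (PG.norm.pow 2), mul_div_right_comm]
    gcongr
  have h2 := m.EM_add k hv (fun b => (pG b).sub (pH b)) pH
  simp only [sub_add_cancel] at h2
  have h3 : ∫ y, ∑ b, (log ((m.sh k c).den v (y + c b)) - log (m.jd k v b y)) * m.jd k v b y ≤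
      ∫ y, ∑ b, (w y * m.jd k v b y +
        ∑ b', w (y + (c b - c b')) * m.jd k v b' (y + (c b - c b'))) := by
    refine integral_mono (integrable_finsetSum _ fun b _ => (m.jd_mul k hv b ((pG b).sub (pH b))).1)
      (integrable_finsetSum _ fun b _ => (i b).add (i2 b)) fun y => sum_le_sum fun b _ => ?_
    obtain ⟨a, a0, a1, a2⟩ : ∃ a, 0 < a ∧ a ≤ w y ∧ ∀ b', b' ≠ b → a⁻¹ ≤ w (y + (c b - c b')) := by
      rcases le_total (Λ / 2) ‖y‖ with h | h
      · exact ⟨e⁻¹, inv_pos.2 he, w2 y h, fun _ _ => (inv_inv e).symm ▸ w1 _⟩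
      · refine ⟨e, he, w1 y, fun b' hb => w2 _ ?_⟩
        have := norm_sub_le (y + (c b - c b')) y
        rw [add_sub_cancel_left] at this
        linarith [hc b b' hb.symm]
    rw [UFARx.den_sh]
    refine (UFARx.pt (m.jd_nonneg k hv b y) (O0 b y) a0).trans (add_le_add
      (mul_le_mul_of_nonneg_right a1 (m.jd_nonneg k hv b y)) ?_)
    rw [div_eq_inv_mul, mul_sum]
    exact (sum_le_sum fun b' hb => mul_le_mul_of_nonneg_right (a2 b' (ne_of_mem_erase hb))
      (m.jd_nonneg k hv _ _)).trans (sum_le_univ_sum_of_nonneg fun b' =>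
        mul_nonneg (he.le.trans (w1 _)) (m.jd_nonneg k hv _ _))
  rw [← m.EM_eq k hv fun b => (pG b).sub (pH b),
    integral_finsetSum _ fun b _ => (i b).fun_add (i2 b),
    sum_congr rfl fun b _ => by
      rw [integral_add (i b) (i2 b), integral_finsetSum _ fun b' _ => (i b').comp_add_right _,
        sum_congr rfl fun b' _ => integral_add_right_eq_self (fun y => w y * m.jd k v b' y) _],
    sum_add_distrib, sum_const, card_univ, nsmul_eq_mul] at h3
  nlinarith [mul_le_mul_of_nonneg_left h1 (Nat.cast_nonneg (α := ℝ) (Fintype.card B))]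

end Pool.Agent.P.MP_6b977f_mp.RG
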