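import Pool.Agent.P.MP_6b977f_mp.RG.IfaceU

/-! Step UGB. -/

namespace Pool.Agent.P.MP_6b977f_mp.RG

open Finset MeasureTheory Real
open scoped Classical

namespace UGBx

theorem hel {x z : ℝ} (hx : 0 < x) (hz : 0 < z) :
    (√x - √z) ^ 2 ≤ (log x - log z) * x - x + z := by
  have a := sqrt_pos.2 hx
  have b := sqrt_pos.2 hz
  have h := log_le_sub_one_of_pos (div_pos b a)
  rw [log_div b.ne' a.ne', log_sqrt hx.le, log_sqrt hz.le, le_sub_iff_add_le, le_div_iff₀ a] at h
  have h' := mul_le_mul_of_nonneg_right h a.le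
  rw [mul_assoc, mul_self_sqrt hx.le] at h'
  nlinarith [sq_sqrt hx.le, sq_sqrt hz.le]

theorem tv {x z D e : ℝ} (hx : 0 ≤ x) (hz : 0 ≤ z) (he : 0 < e) (h : (√x - √z) ^ 2 ≤ D) :
    |x - z| ≤ D / (2 * e) + e * (x + z) := by
  have a := sqrt_nonneg x
  have b := sqrt_nonneg z
  have e1 : x - z = (√x - √z) * (√x + √z) := by nlinarith [sq_sqrt hx, sq_sqrt hz]
  have e2 : (√x + √z) ^ 2 ≤ 2 * (x + z) := by
    nlinarith [sq_sqrt hx, sq_sqrt hz, sq_nonneg (√x - √z)]
  rw [e1, abs_mul, abs_of_nonneg (add_nonneg a b), ← sub_le_iff_le_add, le_div_iff₀ (by positivity)]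
  nlinarith [sq_nonneg (|√x - √z| - e * (√x + √z)), sq_abs (√x - √z),
    mul_le_mul_of_nonneg_left e2 (sq_nonneg e)]

end UGBx

theorem p_UGB :
    S_UGB := by
  intro ι _ B _ m k v q G hv hm h0 h1 hG hq
  obtain ⟨dp, -, dl, -, -, d1, dg⟩ := p_MIX p_KER ι m v hv
  have di : Integrable (m.den v) := by simpa using (dg _ (PG.const 1)).1
  have d2 : ∫ y, m.den v y = 1 := by simpa [Mix.Ex] using d1
  set H : B → (ι → ℝ) → ℝ := fun b y => G b y + log (m.jd k v b y) + -1 * log (m.den v y) with hH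
  have pH : ∀ b, PG (H b) := fun b => ((hG b).add (m.pg_log_jd k hv b)).add (dl.cmul _)
  have eH : m.EM k v G - (m.en k v - m.ent v) = ∫ y, ∑ b, H b y * m.jd k v b y := by
    rw [← m.EM_eq k hv pH, hH, m.EM_add k hv (fun b => (hG b).add (m.pg_log_jd k hv b))
      (fun _ => dl.cmul _), m.EM_add k hv hG (m.pg_log_jd k hv), m.EM_mul k v (-1),
      m.EM_Ex k hv dl, Mix.en, Mix.ent]
    ring
  have pt : ∀ b y, (√(m.jd k v b y) - √(m.den v y * q b y)) ^ 2 ≤
      H b y * m.jd k v b y - m.jd k v b y + m.den v y * q b y := fun b y => by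
    rcases (m.jd_nonneg k hv b y).eq_or_lt with e | e
    · rw [← e, sqrt_zero, zero_sub, neg_sq, sq_sqrt (mul_nonneg (dp y).le (h0 b y))]
      simp
    · obtain ⟨ω, -, hω⟩ := exists_ne_zero_of_sum_ne_zero e.ne'
      obtain rfl : k ω = b := by
        by_contra hne
        exact hω (by rw [ind_neg hne, zero_mul, zero_mul])
      have hp : 0 < m.p ω := (m.p0 ω).lt_of_ne' fun h => hω (by rw [h, mul_zero, zero_mul])
      have := UGBx.hel e (mul_pos (dp y) (exp_pos (-G (k ω) y)))
      rw [log_mul (dp y).ne' (exp_pos _).ne', log_exp] at this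
      rw [hq ω hp y, hH]
      convert this using 4
      ring
  have sm : ∀ y, ∑ b, (H b y * m.jd k v b y - m.jd k v b y + m.den v y * q b y) ≤
      ∑ b, H b y * m.jd k v b y := fun y => by
    rw [sum_add_distrib, sum_sub_distrib, m.jd_sum, ← mul_sum]
    nlinarith [mul_le_mul_of_nonneg_left (h1 y) (dp y).le]
  refine ⟨sub_nonneg.1 ?_, fun e Φ he hΦ => ?_⟩
  · rw [eH]
    exact integral_nonneg fun y =>
      (sum_nonneg fun b _ => (sq_nonneg _).trans (pt b y)).trans (sm y)
  have iH : Integrable fun y => ∑ b, H b y * m.jd k v b y :=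
    integrable_finsetSum _ fun b _ => (m.jd_mul k hv b (pH b)).1
  have mb : MB 1 fun y => ∑ b, Φ b y * (q b y : ℝ) := by
    refine ⟨Finset.measurable_fun_sum _ fun b _ =>
      (hΦ b).1.mul (Complex.measurable_ofReal.comp (hm b)), fun y => ?_⟩
    refine (norm_sum_le _ _).trans ((sum_le_sum fun b _ => ?_).trans (h1 y))
    rw [norm_mul, Complex.norm_real, norm_eq_abs, abs_of_nonneg (h0 b y)]
    exact mul_le_of_le_one_left (h0 b y) ((hΦ b).2 y)
  rw [m.EC_int k hv hΦ, ← integral_sub (integrable_finsetSum _ fun b _ =>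
    (hΦ b).intb (m.jd_intb k hv b)) (mb.intb di), eH]
  refine (norm_integral_le_of_norm_le ((iH.div_const (2 * e)).add (di.const_mul (2 * e)))
    (ae_of_all _ fun y => ?_)).trans_eq ?_
  · rw [sum_mul, ← sum_sub_distrib]
    refine (norm_sum_le _ _).trans ((sum_le_sum (g := fun b =>
      (H b y * m.jd k v b y - m.jd k v b y + m.den v y * q b y) / (2 * e) +
        e * (m.jd k v b y + m.den v y * q b y)) fun b _ => ?_).trans ?_)
    · rw [mul_assoc, ← mul_sub, ← Complex.ofReal_mul, ← Complex.ofReal_sub, norm_mul,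
        Complex.norm_real, norm_eq_abs, mul_comm (q b y)]
      exact (mul_le_of_le_one_left (abs_nonneg _) ((hΦ b).2 y)).trans
        (UGBx.tv (m.jd_nonneg k hv b y) (mul_nonneg (dp y).le (h0 b y)) he (pt b y))
    · rw [sum_add_distrib, ← sum_div, ← mul_sum, sum_add_distrib (f := fun b => m.jd k v b y),
        m.jd_sum, ← mul_sum]
      refine add_le_add (div_le_div_of_nonneg_right (sm y) (by positivity)) ?_
      nlinarith [mul_le_mul_of_nonneg_left (mul_le_mul_of_nonneg_left (h1 y) (dp y).le) he.le]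
  · simp only [Pi.add_apply]
    rw [integral_add (iH.div_const _) (di.const_mul _), integral_div, integral_const_mul, d2,
      mul_one]

end Pool.Agent.P.MP_6b977f_mp.RG
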