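import Pool.Agent.P.MP_6b977f_mp.RG.IfaceU

/-! Step UGI. -/

namespace Pool.Agent.P.MP_6b977f_mp.RG

open Finset MeasureTheory Real
open scoped Classical

namespace UGIx

lemma kint {ι : Type} [Fintype ι] {v : ι → ℝ} (hv : ∀ j, 0 < v j) : Integrable (ker v) := by
  simpa using ker_intb hv 0 (PG.const 1)

lemma pushC {ι κ : Type} [Fintype ι] [Fintype κ] (B : κ → ι → ℝ) (v : ι → ℝ) (w : κ → ℝ) {C : ℝ}
    {G : (κ → ℝ) → ℂ} (hv : ∀ j, 0 < v j) (hw : ∀ k, 0 < w k)
    (h1 : ∀ k, ∑ j, B k j ^ 2 * v j = w k) (h2 : ∀ k l, k ≠ l → ∑ j, B k j * B l j * v j = 0)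
    (hG : MB C G) :
    ∫ y, G (fun k => ∑ j, B k j * y j) * (ker v y : ℝ) = ∫ z, G z * (ker w z : ℝ) := by
  have hm : Measurable fun (y : ι → ℝ) (k : κ) => ∑ j, B k j * y j := by fun_prop
  have hG' : MB C (fun y : ι → ℝ => G fun k => ∑ j, B k j * y j) :=
    ⟨hG.1.comp hm, fun y => hG.2 _⟩
  have a := p_PUSH p_KER ι κ B v 0 w _ hv hw h1 h2 hG.re
  have b := p_PUSH p_KER ι κ B v 0 w _ hv hw h1 h2 hG.im
  have e : ∀ z : κ → ℝ, (z - fun k => ∑ j, B k j * (0 : ι → ℝ) j) = z := fun z => by
    funext k; simp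
  simp only [sub_zero, e] at a b
  rw [hG'.int (kint hv), hG.int (kint hw), a, b]

end UGIx

open UGIx in
theorem p_UGI (hUFUB : S_UFUB) :
    S_UGI := by
  intro ι _ B n w C H hw hB hn hH
  have hs0 : 0 ≤ ∑ j, n j ^ 2 := sum_nonneg fun j _ => sq_nonneg _
  rcases hs0.eq_or_lt with hs | hs
  · have h0 : ∀ j, n j = 0 := fun j => by
      have := (sum_eq_zero_iff_of_nonneg fun j _ => sq_nonneg (n j)).1 hs.symm j (mem_univ j)
      exact pow_eq_zero_iff two_ne_zero |>.1 this
    simp [h0]
  have b1 : ∀ k, ∑ j, B k j ^ 2 * w = w := fun k => by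
    have := hB k k
    simp only [if_true] at this
    simp only [← sum_mul, sq, this, one_mul]
  have b2 : ∀ k l, k ≠ l → ∑ j, B k j * B l j * w = 0 := fun k l h => by
    rw [← sum_mul, hB k l, if_neg h, zero_mul]
  have b3 : ∀ k, ∑ j, B k j * n j * w = 0 := fun k => by rw [← sum_mul, hn k, zero_mul]
  have hws : 0 < w * ∑ j, n j ^ 2 := mul_pos hw hs
  rw [pushC B (fun _ => w) (fun _ => w) (fun _ => hw) (fun _ => hw) b1 b2 hH]
  have hG : MB C fun z : Option (Fin 2) → ℝ =>
      H (fun k => z (some k)) * Complex.exp (Complex.I * (z none : ℝ)) := by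
    refine ⟨(hH.1.comp (by fun_prop)).mul (by fun_prop), fun z => ?_⟩
    rw [norm_mul, mul_comm Complex.I, Complex.norm_exp_ofReal_mul_I, mul_one]
    exact hH.2 _
  have hw' : ∀ o : Option (Fin 2), 0 < o.elim (w * ∑ j, n j ^ 2) fun _ => w := fun o => by
    cases o
    · exact hws
    · exact hw
  have h := pushC (fun o : Option (Fin 2) => o.elim n B) (fun _ => w)
    (fun o => o.elim (w * ∑ j, n j ^ 2) fun _ => w) (fun _ => hw) hw'
    (fun o => by
      cases o with
      | none => simp only [Option.elim_none]; rw [← sum_mul, mul_comm]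
      | some k => exact b1 k)
    (fun o o' hne => by
      cases o with
      | none =>
        cases o' with
        | none => exact absurd rfl hne
        | some l =>
          simp only [Option.elim_none, Option.elim_some, mul_comm (n _)]
          exact b3 l
      | some k =>
        cases o' with
        | none => exact b3 k
        | some l => exact b2 k l fun e => hne (by rw [e])) hG
  simp only [Option.elim_none, Option.elim_some] at h
  rw [h]
  have hk : ∀ z : Option (Fin 2) → ℝ,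
      ker (fun o : Option (Fin 2) => o.elim (w * ∑ j, n j ^ 2) fun _ => w) z =
        g1 (w * ∑ j, n j ^ 2) (z none) * ker (fun _ => w) fun k => z (some k) := fun z => by
    simp only [ker, Fintype.prod_option, Option.elim_none, Option.elim_some]
  have hi := hG.intb (kint hw')
  simp only [hk] at hi ⊢
  have hF := (hUFUB (Fin 2) (fun a b => H b * Complex.exp (Complex.I * (a : ℝ)) *
    ((g1 (w * ∑ j, n j ^ 2) a * ker (fun _ => w) b : ℝ) : ℂ)) hi).2
  rw [hF]
  have e : ∀ (a : ℝ) (b : Fin 2 → ℝ), H b * Complex.exp (Complex.I * (a : ℝ)) *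
      ((g1 (w * ∑ j, n j ^ 2) a * ker (fun _ => w) b : ℝ) : ℂ) =
      ((g1 (w * ∑ j, n j ^ 2) (a - 0) : ℂ) * Complex.exp ((1 : ℝ) * a * Complex.I)) *
        (H b * (ker (fun _ => w) b : ℝ)) := fun a b => by
    rw [sub_zero, Complex.ofReal_one, one_mul, mul_comm Complex.I]
    push_cast
    ring
  simp only [e, integral_const_mul, integral_mul_const]
  rw [PUSHx.one hws]
  congr 1
  rw [Complex.ofReal_exp]
  congr 1
  push_cast
  ring

end Pool.Agent.P.MP_6b977f_mp.RG
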