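import Pool.Agent.P.MP_6b977f_mp.RG.IfaceU

/-! Step UJ2. -/

namespace Pool.Agent.P.MP_6b977f_mp.RG

open Finset MeasureTheory Real
open scoped Classical

namespace UJ2x

variable {d : ℕ} (P : Par d)

theorem cont_ed (i : Fin d) : Continuous (P.ed i) := by
  refine continuous_pi fun j => ?_
  fin_cases j <;> simp only [Par.ed, Par.ci, vp] <;> simp <;> fun_prop

theorem mb_ed {C : ℝ} {G : (Fin 2 → ℝ) → ℂ} (h : MB C G) (i : Fin d) :
    MB C fun y => G (P.ed i y) := ⟨h.1.comp (cont_ed P i).measurable, fun _ => h.2 _⟩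

theorem mb_R {C : ℝ} {G : (Fin 2 → ℝ) → ℂ} (h : MB C G) : MB C fun y => G (PMx.R y) :=
  ⟨h.1.comp PMx.mp.measurable, fun _ => h.2 _⟩

theorem mb_mul {ι : Type} [Fintype ι] {G : (ι → ℝ) → ℂ} (h : MB 1 G) {a : ℂ} (ha : ‖a‖ ≤ 1) :
    MB 1 fun y => a * G y := ⟨h.1.const_mul a, fun y => by
  rw [norm_mul]; exact mul_le_one₀ ha (norm_nonneg _) (h.2 y)⟩

theorem norm_ind (q : Prop) : ‖((ind q : ℝ) : ℂ)‖ ≤ 1 := by
  rw [Complex.norm_real, norm_eq_abs, abs_of_nonneg (ind_nonneg q)]; exact ind_le q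

section
variable {A : Type} (m : Mix (SI d)) (k : m.Ω → Option (Fin d) → A) {κ h C : ℝ}

theorem EC_edge (hκ : 0 < κ) (ht : 0 ≤ h) {G : A × A → (Fin 2 → ℝ) → ℂ} (hG : ∀ c, MB C (G c)) :
    (P.edge m).EC (P.kE m k) (P.ve κ h) G =
      (∑ i, m.EC k (vs d κ h) (fun b y => G (b none, b (some i)) (P.ed i y))) / d := by
  have : (d : ℂ) ≠ 0 := by have := P.hd; exact Nat.cast_ne_zero.2 (by omega)
  rw [eq_div_iff this, sum_congr rfl fun i _ => m.EC_eq k (EPx.vs_pos d hκ ht)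
    fun b => mb_ed P (hG (b none, b (some i))) i, sum_add_distrib, ← sum_mul,
    ← Complex.ofReal_sum, ← Complex.ofReal_sum,
    P.EM_edge m k hκ ht (G := fun c e => (G c e).re) fun c => (hG c).re,
    P.EM_edge m k hκ ht (G := fun c e => (G c e).im) fun c => (hG c).im,
    Mix.EC_eq _ _ (P.ve_pos hκ ht) hG]
  push_cast
  ring

variable {P m k} in
theorem EC_R (hs : P.SymU m k) (hκ : 0 < κ) (ht : 0 ≤ h) {G : A × A → (Fin 2 → ℝ) → ℂ}
    (hG : ∀ c, MB C (G c)) : (P.edge m).EC (P.kE m k) (P.ve κ h) G =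
      (P.edge m).EC (P.kE m k) (P.ve κ h) fun a e => G a.swap (PMx.R e) := by
  rw [Mix.EC_eq _ _ (P.ve_pos hκ ht) hG, 
    Mix.EC_eq (P.edge m) (P.kE m k) (P.ve_pos hκ ht) fun a => mb_R (hG a.swap),
    hs.EM_R _ fun c e => (G c e).re, hs.EM_R _ fun c e => (G c e).im]

end

theorem EC_den {ι B : Type} [Fintype ι] [Fintype B] (m : Mix ι) (k : m.Ω → B) {v : ι → ℝ}
    (hv : ∀ j, 0 < v j) {C : ℝ} {G : (ι → ℝ) → ℂ} (hG : MB C G) :
    m.EC k v (fun _ => G) = ∫ y, G y * (m.den v y : ℝ) := by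
  rw [m.EC_int k hv fun _ => hG]
  simp only [← mul_sum, ← Complex.ofReal_sum, m.jd_sum]

variable (T : Tr d) (m : Mix (SI d)) (k : m.Ω → Option (Fin d) → T.A) {κ h : ℝ}

variable {P T m k} in
theorem avg (hκ : 0 < κ) (ht : 0 ≤ h) {t : T.P → ℝ} {e : ℝ} (tv : P.TV T m k κ h t e)
    {G : T.A × T.A → (Fin 2 → ℝ) → ℂ} (hG : ∀ c, MB 1 (G c)) :
    ‖(P.edge m).EC (P.kE m k) (P.ve κ h) G - (∑ j, ∫ y, (∑ b, G (b none, b (some j)) (P.ed j y) *
      (P.Qd T m k κ h t b y : ℝ)) * (m.den (vs d κ h) y : ℝ)) / d‖ ≤ e := by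
  have : (0 : ℝ) < d := by have := P.hd; exact Nat.cast_pos.2 (by omega)
  rw [EC_edge P m k hκ ht hG, ← sub_div, ← sum_sub_distrib, norm_div, Complex.norm_natCast,
    div_le_iff₀ this]
  refine (norm_sum_le _ _).trans ((sum_le_sum fun j _ =>
    tv _ fun b => mb_ed P (hG (b none, b (some j))) j).trans ?_)
  simp [mul_comm]

theorem sum_Jd (p c : T.P) (z : Fin 2 → ℝ) (f : Fin 4 → ℂ) :
    ∑ u, f u * (P.Jd T m k κ h p (c, u) z : ℝ) = ∑ a : T.A × T.A,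
      (ind (a.2.1 = c ∧ a.1.1 = p) : ℝ) * f a.2.2 *
        ((P.edge m).jd (P.kE m k) (P.ve κ h) a z : ℝ) := by
  simp only [Par.Jd, Par.JE, (P.edge m).jd_comp (P.kE m k) fun c => (c.1.1, c.2),
    Complex.ofReal_sum, mul_sum]
  rw [sum_comm]
  refine sum_congr rfl fun ⟨a, c', u'⟩ _ => ?_
  rw [sum_eq_single u' (fun u _ hu => by rw [ind_neg (by simp [hu.symm])]; simp) (by simp)]
  have : ind ((a.1, c', u') = (p, c, u')) = ind (c' = c ∧ a.1 = p) := by simp [and_comm]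
  rw [this]
  push_cast
  ring

theorem J2_eq (p c : T.P) (z : Fin 2 → ℝ) : (P.J2 T m k κ h p c z : ℂ) = ∑ a : T.A × T.A,
    ((ind (a.1.1 = p ∧ a.2.1 = c) : ℝ) : ℂ) * ((P.edge m).jd (P.kE m k) (P.ve κ h) a z : ℝ) := by
  simp only [Par.J2, Par.JE, (P.edge m).jd_comp (P.kE m k) fun c => (c.1.1, c.2.1),
    Complex.ofReal_sum, Complex.ofReal_mul, Prod.mk.injEq]

theorem J2_sum (p c : T.P) (z : Fin 2 → ℝ) :
    ∑ u, P.Jd T m k κ h p (c, u) z = P.J2 T m k κ h p c z := by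
  have := sum_Jd P T m k (κ := κ) (h := h) p c z fun _ => 1
  simp only [one_mul, mul_one, and_comm (a := _ = c)] at this
  rw [← J2_eq] at this
  exact_mod_cast this

theorem ub_J2 (hκ : 0 < κ) (ht : 0 ≤ h) (p c : T.P) (z : Fin 2 → ℝ) :
    P.ub T m k κ h p c z * (P.J2 T m k κ h p c z : ℝ) =
      ∑ u, z4 u * (P.Jd T m k κ h p (c, u) z : ℝ) := by
  rw [Par.ub, sum_mul]
  refine sum_congr rfl fun u _ => ?_
  rw [mul_assoc, ← Complex.ofReal_mul, cd]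
  split_ifs with e
  · have : P.Jd T m k κ h p (c, u) z = 0 := (sum_eq_zero_iff_of_nonneg fun u _ =>
      Mix.jd_nonneg _ _ (P.ve_pos hκ ht) _ _).1 ((J2_sum P T m k p c z).trans e) u (mem_univ _)
    rw [e, mul_zero, this]
  · rw [div_mul_cancel₀ _ e]

theorem mb_ub (hκ : 0 < κ) (ht : 0 ≤ h) (p c : T.P) : MB 1 (P.ub T m k κ h p c) := by
  have m2 : Measurable (P.J2 T m k κ h p c) := (Mix.jd_cont _ _ _ _).measurable
  refine ⟨Finset.measurable_sum _ fun u _ => Measurable.const_mul (Complex.measurable_ofReal.comp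
    (Measurable.ite (m2 (measurableSet_singleton 0)) measurable_const
      ((Mix.jd_cont _ _ _ _).measurable.div m2))) _, fun z => (norm_sum_le _ _).trans ?_⟩
  have n1 : ∀ u, 0 ≤ P.Jd T m k κ h p (c, u) z := fun u => Mix.jd_nonneg _ _ (P.ve_pos hκ ht) _ _
  have n2 : 0 ≤ P.J2 T m k κ h p c z := Mix.jd_nonneg _ _ (P.ve_pos hκ ht) _ _
  simp only [norm_mul, norm_z4, one_mul, Complex.norm_real, norm_eq_abs, cd]
  split_ifs with e
  · norm_num
  · simp only [abs_div, abs_of_nonneg (n1 _), abs_of_nonneg n2, ← sum_div, J2_sum, div_self e,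
      le_refl]

end UJ2x

theorem p_UJ2 (hUQB : S_UQB) :
    S_UJ2 := by
  intro d P T m k κ h t e p c H hs hκ ht tv hH
  have hF : MB 1 fun z => H z * P.ub T m k κ h p c z :=
    ⟨hH.1.mul (UJ2x.mb_ub P T m k hκ ht p c).1, fun z => by
      rw [norm_mul]
      exact mul_le_one₀ (hH.2 z) (norm_nonneg _) ((UJ2x.mb_ub P T m k hκ ht p c).2 z)⟩
  have n1 : ∀ (q : Prop) (u : Fin 4), ‖((ind q : ℝ) : ℂ) * z4 u‖ ≤ 1 := fun q u => by
    rw [norm_mul, norm_z4, mul_one]; exact UJ2x.norm_ind q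
  have g1 : ∀ a : T.A × T.A, MB 1 fun z =>
      (ind (a.1.1 = c ∧ a.2.1 = p) : ℝ) * z4 a.1.2 * H (PMx.R z) :=
    fun a => UJ2x.mb_mul (UJ2x.mb_R hH) (n1 _ _)
  have g2 : ∀ a : T.A × T.A, MB 1 fun z =>
      (ind (a.1.1 = p ∧ a.2.1 = c) : ℝ) * (H z * P.ub T m k κ h p c z) :=
    fun a => UJ2x.mb_mul hF (UJ2x.norm_ind _)
  have a1 := UJ2x.avg hκ ht tv g1
  have a2 := UJ2x.avg hκ ht tv g2
  have e1 : (P.edge m).EC (P.kE m k) (P.ve κ h) (fun a z =>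
      (ind (a.1.1 = c ∧ a.2.1 = p) : ℝ) * z4 a.1.2 * H (PMx.R z)) =
      (P.edge m).EC (P.kE m k) (P.ve κ h) fun a z =>
        (ind (a.1.1 = p ∧ a.2.1 = c) : ℝ) * (H z * P.ub T m k κ h p c z) := by
    rw [UJ2x.EC_R hs hκ ht g1, Mix.EC_int _ _ (P.ve_pos hκ ht) g2]
    simp only [PMx.RR, Prod.fst_swap, Prod.snd_swap]
    rw [Mix.EC_int _ _ (P.ve_pos hκ ht) fun a => UJ2x.mb_mul hH (n1 _ _)]
    refine integral_congr_ae (ae_of_all _ fun z => ?_)
    have := congrArg (H z * ·) (UJ2x.ub_J2 P T m k hκ ht p c z)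
    rw [UJ2x.sum_Jd, UJ2x.J2_eq] at this
    simp only [mul_sum] at this
    refine Eq.trans (sum_congr rfl fun a _ => ?_) (this.symm.trans (sum_congr rfl fun a _ => ?_))
    all_goals ring
  have e2 : (∑ j, ∫ y, (∑ b : Option (Fin d) → T.A,
      (ind ((b none).1 = p ∧ (b (some j)).1 = c) : ℝ) *
        (H (P.ed j y) * P.ub T m k κ h p c (P.ed j y)) * (P.Qd T m k κ h t b y : ℝ)) *
        (m.den (vs d κ h) y : ℝ)) / (d : ℂ) =
      (∫ z, H z * P.ub T m k κ h p c z * ((P.edge m).den (P.ve κ h) z : ℝ)) /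
        Fintype.card T.P ^ 2 := by
    rw [← UJ2x.EC_den _ (P.kE m k) (P.ve_pos hκ ht) hF, UJ2x.EC_edge P m k hκ ht fun _ => hF,
      div_right_comm, sum_div _ _ ((Fintype.card T.P : ℂ) ^ 2)]
    refine congrArg (· / (d : ℂ)) (sum_congr rfl fun j _ => ?_)
    rw [UJ2x.EC_den m k (EPx.vs_pos d hκ ht) (UJ2x.mb_ed P hF j), ← integral_div]
    refine integral_congr_ae (ae_of_all _ fun y => ?_)
    simp only [mul_right_comm _ (H (P.ed j y) * _), ← sum_mul,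
      (hUQB d P T m k κ h t y hκ ht).1 j p c]
    ring
  have e3 : ∀ j y, ∑ b : Option (Fin d) → T.A, (ind ((b none).1 = c ∧ (b (some j)).1 = p) : ℝ) *
      z4 (b none).2 * H (PMx.R (P.ed j y)) * (P.Qd T m k κ h t b y : ℝ) =
      H (PMx.R (P.ed j y)) * ∑ b : Option (Fin d) → T.A,
        (ind ((b none).1 = c ∧ (b (some j)).1 = p) : ℝ) * z4 (b none).2 *
          (P.Qd T m k κ h t b y : ℝ) := fun j y => by
    rw [mul_sum]
    exact sum_congr rfl fun b _ => by ring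
  simp only [e3] at a1
  rw [e1] at a1
  rw [e2, norm_sub_rev] at a2
  exact (norm_sub_le_norm_sub_add_norm_sub _ _ _).trans ((add_le_add a2 a1).trans (two_mul e).ge)

end Pool.Agent.P.MP_6b977f_mp.RG
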