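import Pool.Agent.P.MP_6b977f_mp.RG.IfaceU

/-! Step UL1. -/

namespace Pool.Agent.P.MP_6b977f_mp.RG

open Finset MeasureTheory Real
open scoped Classical

namespace UL1x

/-- the Fourier weight -/
noncomputable def wt (v t : ℝ) : ℝ := exp (-(v * t ^ 2) / 2) / (2 * π)

lemma wt_pos (v t : ℝ) : 0 < wt v t := by unfold wt; positivity

lemma wt_eq {v : ℝ} (hv : 0 < v) (t : ℝ) : wt v t = 1 / √(2 * π * v) * g1 (1 / v) t := by
  have h : √(2 * π * v) * √(2 * π * (1 / v)) = 2 * π := by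
    rw [← sqrt_mul (by positivity), sqrt_eq_iff_mul_self_eq (by positivity) (by positivity)]
    field_simp
  rw [wt, g1, div_mul_div_comm, h, one_mul]
  congr 2
  field_simp

lemma one {v : ℝ} (hv : 0 < v) (u : ℝ) :
    ∫ t : ℝ, Complex.exp (Complex.I * (t * u : ℝ)) * (wt v t : ℝ) = (g1 v u : ℝ) := by
  have h := PUSHx.one (s := 1 / v) (by positivity) 0 u
  have e : ∀ t : ℝ, Complex.exp (Complex.I * (t * u : ℝ)) * (wt v t : ℝ) =
      ((1 / √(2 * π * v) : ℝ) : ℂ) * ((g1 (1 / v) (t - 0) : ℂ) * Complex.exp (u * t * Complex.I)) := by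
    intro t
    rw [wt_eq hv, sub_zero, Complex.ofReal_mul (1 / _), mul_comm, mul_assoc]
    congr 3
    push_cast
    ring
  simp only [e]
  rw [integral_const_mul, h, g1, div_eq_mul_one_div (exp _), Complex.ofReal_mul (exp _), mul_comm,
    Complex.ofReal_exp]
  congr 2
  have : (v : ℂ) ≠ 0 := by exact_mod_cast hv.ne'
  push_cast
  field_simp
  ring

variable {ι : Type} [Fintype ι]

/-- the product weight -/
noncomputable def W (v : ℝ) (ξ : ι → ℝ) : ℝ := ∏ j, wt v (ξ j)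

/-- the character -/
noncomputable def ch (u ξ : ι → ℝ) : ℂ := Complex.exp (Complex.I * (∑ j, ξ j * u j : ℝ))

lemma W_pos (v : ℝ) (ξ : ι → ℝ) : 0 < W v ξ := prod_pos fun _ _ => wt_pos _ _

lemma W_intb {v : ℝ} (hv : 0 < v) {g : (ι → ℝ) → ℝ} (hg : PG g) :
    Integrable fun ξ => g ξ * W v ξ := by
  have h := (ker_intb (v := fun _ => 1 / v) (fun _ => by positivity) 0 hg).const_mul
    (∏ _j : ι, 1 / √(2 * π * v))
  simpa only [W, wt_eq hv, prod_mul_distrib, ker, sub_zero, mul_left_comm] using h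

lemma W_mono {h v : ℝ} (hv : h ≤ v) (ξ : ι → ℝ) : W v ξ ≤ W h ξ :=
  prod_le_prod (fun _ _ => (wt_pos _ _).le) fun j _ => by
    unfold wt
    gcongr

lemma W_add (v : ℝ) (ξ : ι → ℝ) : W (1 + v) ξ = exp (-(∑ j, ξ j ^ 2) / 2) * W v ξ := by
  rw [← sum_neg_distrib, sum_div, exp_sum, W, W, ← prod_mul_distrib]
  refine prod_congr rfl fun j _ => ?_
  rw [wt, wt, ← mul_div_assoc, ← exp_add]
  congr 2
  ring

lemma norm_ch (u ξ : ι → ℝ) : ‖ch u ξ‖ = 1 := by
  rw [ch, mul_comm, Complex.norm_exp_ofReal_mul_I]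

lemma ch_intb {v : ℝ} (hv : 0 < v) (u : ι → ℝ) : Integrable fun ξ => ch u ξ * (W v ξ : ℝ) :=
  MB.intb (C := 1) ⟨by unfold ch; fun_prop, fun ξ => (norm_ch u ξ).le⟩
    (by simpa using W_intb hv (PG.const 1))

lemma fou {v : ℝ} (hv : 0 < v) (u : ι → ℝ) :
    ∫ ξ, ch (-u) ξ * (W v ξ : ℝ) = (ker (fun _ => v) u : ℝ) := by
  have e : ∀ ξ : ι → ℝ, ch (-u) ξ * (W v ξ : ℝ) =
      ∏ j, Complex.exp (Complex.I * (ξ j * -u j : ℝ)) * (wt v (ξ j) : ℝ) := by
    intro ξ
    rw [prod_mul_distrib, ← Complex.exp_sum, ← mul_sum, ch, W, Complex.ofReal_prod,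
      Complex.ofReal_sum]
    rfl
  simp only [e]
  rw [integral_fintype_prod_volume_eq_prod
    fun j (t : ℝ) => Complex.exp (Complex.I * (t * -u j : ℝ)) * (wt v t : ℝ)]
  simp only [one hv, ker, g1, neg_sq, Complex.ofReal_prod]

lemma ch_sub (x y ξ : ι → ℝ) : ch (-(y - x)) ξ = ch (-y) ξ * ch x ξ := by
  rw [ch, ch, ch, ← Complex.exp_add, ← mul_add, ← Complex.ofReal_add, ← sum_add_distrib]
  congr 3
  refine sum_congr rfl fun j _ => ?_
  simp only [Pi.neg_apply, Pi.sub_apply]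
  ring

lemma dif (F : Mix ι) {v : ℝ} (hv : 0 < v) (y : ι → ℝ) :
    ((F.den (fun _ => v) y - ker (fun _ => 1 + v) y : ℝ) : ℂ) =
      ∫ ξ, ch (-y) ξ * (F.chi ξ - (exp (-(∑ j, ξ j ^ 2) / 2) : ℝ)) * (W v ξ : ℝ) := by
  have e : ∀ ξ : ι → ℝ, ch (-y) ξ * (F.chi ξ - (exp (-(∑ j, ξ j ^ 2) / 2) : ℝ)) * (W v ξ : ℝ) =
      ∑ ω, (F.p ω : ℂ) * (ch (-(y - F.x ω)) ξ * (W v ξ : ℝ)) - ch (-y) ξ * (W (1 + v) ξ : ℝ) := by
    intro ξ
    rw [W_add, Complex.ofReal_mul, mul_sub, sub_mul, mul_assoc _ (_ : ℂ) (W v ξ : ℂ), Mix.chi,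
      sum_mul, mul_sum, mul_assoc]
    congr 1
    refine sum_congr rfl fun ω _ => ?_
    rw [ch_sub, ← ch]
    ring
  simp only [e]
  rw [integral_sub (integrable_finsetSum _ fun ω _ => (ch_intb hv _).const_mul _)
    (ch_intb (by positivity) _), integral_finsetSum _ fun ω _ => (ch_intb hv _).const_mul _,
    fou (by positivity)]
  simp only [integral_const_mul, fou hv, Mix.den]
  push_cast
  rfl

lemma norm_chi (F : Mix ι) (ξ : ι → ℝ) : ‖F.chi ξ‖ ≤ 1 := by
  refine (norm_sum_le _ _).trans (le_of_eq ?_)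
  rw [← F.p1]
  refine sum_congr rfl fun ω _ => ?_
  rw [norm_mul, ← ch, norm_ch, mul_one, Complex.norm_real, norm_of_nonneg (F.p0 ω)]

lemma sup (F : Mix ι) {h v e : ℝ} (h0 : 0 < h) (hv : h ≤ v) (e0 : 0 < e)
    (H : ∀ ξ : ι → ℝ, ‖ξ‖ ≤ 1 / e → ‖F.chi ξ - (exp (-(∑ j, ξ j ^ 2) / 2) : ℝ)‖ ≤ e) (y : ι → ℝ) :
    |F.den (fun _ => v) y - ker (fun _ => 1 + v) y| ≤
      e * ∫ ξ : ι → ℝ, (1 + 2 * ‖ξ‖) * W h ξ := by
  rw [← norm_eq_abs, ← Complex.norm_real, dif F (h0.trans_le hv), ← integral_const_mul]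
  refine norm_integral_le_of_norm_le ((W_intb h0 ((PG.const 1).add (PG.norm.cmul 2))).const_mul e)
    (ae_of_all _ fun ξ => ?_)
  rw [norm_mul, norm_mul, norm_ch, one_mul, Complex.norm_real, norm_of_nonneg (W_pos v ξ).le,
    ← mul_assoc]
  refine mul_le_mul ?_ (W_mono hv ξ) (W_pos v ξ).le (by positivity)
  have n0 := norm_nonneg ξ
  by_cases c : ‖ξ‖ ≤ 1 / e
  · exact (H ξ c).trans (by nlinarith)
  · rw [not_le, div_lt_iff₀ e0] at c
    refine (norm_sub_le _ _).trans ?_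
    have h1 := norm_chi F ξ
    have h2 : ‖((exp (-(∑ j, ξ j ^ 2) / 2) : ℝ) : ℂ)‖ ≤ 1 := by
      rw [Complex.norm_real, norm_of_nonneg (exp_pos _).le, exp_le_one_iff]
      have : 0 ≤ ∑ j, ξ j ^ 2 := by positivity
      linarith
    nlinarith

/-- a common bound for the Gaussian densities -/
noncomputable def B (y : ι → ℝ) : ℝ := ∏ j, exp (-(1 / 6) * y j ^ 2)

lemma B_pos (y : ι → ℝ) : 0 < B y := prod_pos fun _ _ => exp_pos _

lemma B_intb : Integrable (B : (ι → ℝ) → ℝ) :=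
  Integrable.fintype_prod (μ := fun _ : ι => (volume : Measure ℝ))
    (f := fun _ u => exp (-(1 / 6) * u ^ 2)) fun _ => integrable_exp_neg_mul_sq (by norm_num)

lemma B_meas : Measurable (B : (ι → ℝ) → ℝ) := by unfold B; fun_prop

lemma ker_le {w : ℝ} (h1 : 1 ≤ w) (h3 : w ≤ 3) (y : ι → ℝ) : ker (fun _ => w) y ≤ B y := by
  refine prod_le_prod (fun j _ => (g1_pos (by linarith) _).le) fun j _ => ?_
  refine (div_le_self (exp_pos _).le (one_le_sqrt.2 (by nlinarith [pi_gt_three]))).trans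
    (exp_le_exp.2 ?_)
  rw [div_le_iff₀ (by linarith)]
  nlinarith [sq_nonneg (y j)]

lemma min_le (s : ℝ) (y : ι → ℝ) : ‖min |s| (B y)‖ ≤ B y := by
  rw [norm_of_nonneg (le_min (abs_nonneg s) (B_pos y).le)]
  exact min_le_right _ _

lemma small (ι : Type) [Fintype ι] {ε : ℝ} (hε : 0 < ε) :
    ∃ δ : ℝ, 0 < δ ∧ ∫ y : ι → ℝ, min |δ| (B y) ≤ ε := by
  have c : Continuous fun s : ℝ => ∫ y : ι → ℝ, min |s| (B y) :=
    continuous_of_dominated (fun s => (measurable_const.min B_meas).aestronglyMeasurable)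
      (fun s => ae_of_all _ (min_le s)) B_intb (ae_of_all _ fun y => by fun_prop)
  obtain ⟨δ, d0, hd⟩ := Metric.continuousAt_iff.1 (c.continuousAt (x := 0)) ε hε
  refine ⟨δ / 2, by positivity, ?_⟩
  have h := hd (x := δ / 2) (by rw [dist_zero_right, norm_of_nonneg (by positivity)]; linarith)
  have z : ∫ y : ι → ℝ, min |(0 : ℝ)| (B y) = 0 := by
    simp only [abs_zero, min_eq_left (B_pos _).le, integral_zero]
  rw [z, dist_zero_right] at h
  exact (le_abs_self _).trans h.le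

end UL1x

open UL1x in
theorem p_UL1 :
    S_UL1 := by
  intro ι _ h ε h0 hε
  obtain ⟨δ, d0, hd⟩ := small ι (half_pos hε)
  set C := ∫ ξ : ι → ℝ, (1 + 2 * ‖ξ‖) * W h ξ with hC
  have C0 : 0 ≤ C := integral_nonneg fun ξ => mul_nonneg (by positivity) (W_pos h ξ).le
  refine ⟨δ / (C + 1), by positivity, fun F v hv v2 H => ?_⟩
  have v0 : 0 < v := h0.trans_le hv
  have s : ∀ y, |F.den (fun _ => v) y - ker (fun _ => 1 + v) y| ≤ |δ| := fun y =>
    (sup F h0 hv (by positivity) H y).trans (by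
      rw [abs_of_pos d0, ← hC, div_mul_eq_mul_div, div_le_iff₀ (by positivity)]
      nlinarith)
  obtain ⟨p1, -, -, -, -, m1, hg⟩ := p_MIX p_KER ι F (fun _ => v) fun _ => v0
  have i1 : Integrable (F.den fun _ => v) := by simpa using (hg _ (PG.const 1)).1
  have w0 : ∀ _j : ι, 0 < 1 + v := fun _ => by positivity
  have i2 : Integrable (ker fun _ : ι => 1 + v) := by simpa using ker_intb w0 0 (PG.const 1)
  have m2 : ∫ y, ker (fun _ : ι => 1 + v) y = 1 := by simpa using ker_int w0 0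
  have i3 : Integrable fun y : ι → ℝ => min |δ| (B y) :=
    B_intb.mono' (measurable_const.min B_meas).aestronglyMeasurable (ae_of_all _ (min_le δ))
  simp only [Mix.Ex, one_mul] at m1
  calc ∫ y, |F.den (fun _ => v) y - ker (fun _ => 1 + v) y|
      ≤ ∫ y, (F.den (fun _ => v) y - ker (fun _ => 1 + v) y + 2 * min |δ| (B y)) := by
        refine integral_mono (i1.sub i2).abs ((i1.sub i2).add (i3.const_mul 2)) fun y => ?_
        have a1 := abs_le.1 (s y)
        have a2 := ker_le (w := 1 + v) (by linarith) (by linarith) y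
        have a3 := p1 y
        have a4 : 0 ≤ min |δ| (B y) := le_min (abs_nonneg δ) (B_pos y).le
        have a5 : ker (fun _ => 1 + v) y - F.den (fun _ => v) y ≤ min |δ| (B y) :=
          le_min (by linarith) (by linarith)
        exact abs_le.2 ⟨by linarith, by linarith⟩
    _ ≤ ε := by
        rw [integral_add (i1.sub' i2) (i3.const_mul 2), integral_sub i1 i2, m1, m2,
          integral_const_mul]
        linarith

end Pool.Agent.P.MP_6b977f_mp.RG
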