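import Pool.Agent.P.MP_6b977f_mp.RG.IfaceU
import Pool.Agent.P.MP_6b977f_mp.RG.IfaceA
import Pool.Agent.P.MP_6b977f_mp.RG.TLSYM

/-! Step ULAT. -/

namespace Pool.Agent.P.MP_6b977f_mp.RG

open Finset MeasureTheory Real
open scoped Classical

namespace ULATx

variable {d : ℕ}

/-- the image of a lattice law -/
noncomputable def push (μ : Law d) (f : ℤ → ℤ) : Law d where
  A := μ.A.image fun s => f ∘ s
  p z := ∑ s ∈ μ.A.filter fun s => f ∘ s = z, μ.p s
  pos z hz := by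
    obtain ⟨s, hs, e⟩ := mem_image.1 hz
    exact sum_pos (fun t ht => μ.pos t (mem_filter.1 ht).1) ⟨s, mem_filter.2 ⟨hs, e⟩⟩
  one := by
    rw [sum_fiberwise_of_maps_to fun s hs => mem_image_of_mem _ hs, μ.one]

theorem push_E (μ : Law d) (f : ℤ → ℤ) (g : St d → ℝ) :
    (push μ f).E g = μ.E fun s => g (f ∘ s) := by
  change ∑ z ∈ μ.A.image fun s => f ∘ s, (∑ s ∈ μ.A.filter fun s => f ∘ s = z, μ.p s) * g z = _
  rw [Law.E, ← sum_fiberwise_of_maps_to (t := μ.A.image fun s => f ∘ s) (g := fun s => f ∘ s)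
    fun s hs => mem_image_of_mem _ hs]
  refine sum_congr rfl fun z _ => ?_
  rw [sum_mul]
  exact sum_congr rfl fun s hs => by rw [(mem_filter.1 hs).2]

theorem push_nu (μ : Law d) (f : ℤ → ℤ) (a b : ℤ) : (push μ f).nu a b =
    (∑ s ∈ μ.A, μ.p s * ∑ i, ind (f (s none) = a ∧ f (s (some i)) = b)) / d := by
  rw [Law.nu, push_E, Law.E, sum_div]
  exact sum_congr rfl fun s _ => by rw [mul_div_assoc]; rfl

theorem push_sym (hd : (d : ℝ) ≠ 0) {μ : Law d} (h : μ.Sym) (f : ℤ → ℤ) : (push μ f).Sym := by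
  intro a b
  rw [push_nu, push_nu, LSYMx.law_sym hd μ h fun x y => ind (f x = a ∧ f y = b)]
  simp only [and_comm]

theorem push_phi (μ : Law d) {f : ℤ → ℤ}
    (hf : ∀ s ∈ μ.A, ∀ s' ∈ μ.A, ∀ o o', f (s o) = f (s' o') → s o = s' o') :
    (push μ f).Phi = μ.Phi := by
  rw [Law.Phi, push_E, Law.Phi]
  refine sum_congr rfl fun s hs => ?_
  have e1 : (push μ f).p (f ∘ s) = μ.p s := by
    change ∑ t ∈ μ.A.filter fun t => f ∘ t = f ∘ s, μ.p t = _
    exact sum_eq_single_of_mem s (mem_filter.2 ⟨hs, rfl⟩) fun t ht n => absurd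
      (funext fun o => hf t (mem_filter.1 ht).1 s hs o o (congrFun (mem_filter.1 ht).2 o)) n
  have e2 : ∀ i, (push μ f).nu ((f ∘ s) none) ((f ∘ s) (some i)) = μ.nu (s none) (s (some i)) := by
    intro i
    rw [Law.nu, push_E, Law.nu]
    refine sum_congr rfl fun t ht => ?_
    have : ∀ j, ((f ∘ t) none = (f ∘ s) none ∧ (f ∘ t) (some j) = (f ∘ s) (some i)) ↔
        (t none = s none ∧ t (some j) = s (some i)) := fun j =>
      ⟨fun h => ⟨hf t ht s hs _ _ h.1, hf t ht s hs _ _ h.2⟩,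
        fun h => ⟨congrArg f h.1, congrArg f h.2⟩⟩
    simp only [this]
  simp only [e1, e2]

theorem mixU_E (P : Par d) (μ : Law d) (f : ℤ → ℤ) (δ : ℝ) (K : ℕ) (g : (SI d → ℝ) → ℝ) :
    (P.mixU μ f δ K).E g = μ.E fun s => (∑ u : Option (Fin d) → Fin (K + 1),
      g (P.wh fun o => δ * (f (s o) + (u o : ℕ) / (K + 1 : ℝ)))) / (K + 1) ^ (d + 1) := by
  change ∑ ω : μ.A × (Option (Fin d) → Fin (K + 1)), μ.p ω.1 / (K + 1) ^ (d + 1) *
    g (P.wh fun o => δ * (f (ω.1.1 o) + (ω.2 o : ℕ) / (K + 1 : ℝ))) = _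
  rw [Law.E, ← Finset.sum_coe_sort μ.A, Fintype.sum_prod_type]
  refine sum_congr rfl fun s _ => ?_
  simp only
  rw [← mul_sum]
  ring

theorem mix_E (P : Par d) (μ : Law d) (f : ℤ → ℤ) (δ : ℝ) (K : ℕ) (g : (SI d → ℝ) → ℝ) :
    (P.mix (push μ f) δ K).E g = (P.mixU μ f δ K).E g := by
  rw [mixU_E]
  exact (mixU_E P (push μ f) id δ K g).trans (push_E μ f _)

theorem phi_eq (P : Par d) {m m' : Mix (SI d)} (h : ∀ g, m.E g = m'.E g) (κ t : ℝ) :
    P.Phi m κ t = P.Phi m' κ t := by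
  have e1 : m.den (vs d κ t) = m'.den (vs d κ t) := funext fun y => h fun x => ker _ (y - x)
  have e2 : (P.edge m).den (P.ve κ t) = (P.edge m').den (P.ve κ t) := funext fun y => by
    refine (P.edge_sum m fun ω i => ker (P.ve κ t) (y - P.ed i (m.x ω))).trans
      (Eq.trans ?_ (P.edge_sum m' fun ω i => ker (P.ve κ t) (y - P.ed i (m'.x ω))).symm)
    exact congrArg (· / (d : ℝ)) (sum_congr rfl fun i _ => h fun x => ker _ (y - P.ed i x))
  simp only [Par.Phi, Mix.ent, Mix.Ex, e1, e2]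

end ULATx

theorem p_ULAT (hFD : S_FD) (hFISH : S_FISH) (hLAT1 : S_LAT1) (hLAT2 : S_LAT2) (hLSYM : S_LSYM) :
    S_ULAT := by
  intro d P μ f δ ε hS hf hδ hε
  have d3 := P.d3
  have hS' := ULATx.push_sym (by positivity) hS f
  rw [← ULATx.push_phi μ hf]
  simp only [← ULATx.phi_eq P (ULATx.mix_E P μ f δ _)]
  generalize ULATx.push μ f = ν at hS'
  obtain ⟨κ0, h0, h2⟩ := hLAT2 d P ν δ (ε / d) hδ (by positivity)
  refine ⟨κ0, h0, fun κ k0 k1 => ?_⟩
  obtain ⟨K, h1⟩ := hLAT1 d P ν δ κ (ε / 2) hδ k0 (by positivity)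
  refine ⟨K, fun t ht => ?_⟩
  have hm := hLSYM d P ν δ K hS'
  have mono : P.Phi (P.mix ν δ K) κ 0 ≤ P.Phi (P.mix ν δ K) κ t := by
    rcases ht.eq_or_lt with e | e
    · rw [← e]
    obtain ⟨s, hs, e1⟩ := exists_hasDerivAt_eq_slope (P.Phi (P.mix ν δ K) κ)
      (fun t => P.Dr (P.mix ν δ K) κ t / 2) e
      (fun t ht => (hFD d P _ κ t k0 ht.1).continuousAt.continuousWithinAt)
      fun t ht => hFD d P _ κ t k0 ht.1.le
    have h3 := hFISH d P _ κ s hm k0 hs.1.le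
    rw [h3.1, sub_zero, eq_div_iff e.ne'] at e1
    nlinarith [mul_nonneg h3.2 ht]
  have h4 := mul_le_mul_of_nonneg_left (h2 κ k0 k1 K) (show (0 : ℝ) ≤ d / 2 by positivity)
  have h8 : ν.Phi = ν.E (fun s => -log (ν.p s)) +
      1 / 2 * ν.E fun s => ∑ i, log (ν.nu (s none) (s (some i))) := by
    rw [← Law.E_mul, ← Law.E_add, Law.Phi]; congr 1; ext s; ring
  have h10 : (d : ℝ) / 2 * (-(ν.E fun s => ∑ i, log (ν.nu (s none) (s (some i)))) / d +
      2 * log δ - log P.r + ε / d) = -(1 / 2 * ν.E fun s =>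
        ∑ i, log (ν.nu (s none) (s (some i)))) + d * log δ - d / 2 * log P.r + ε / 2 := by
    field_simp
  rw [h10] at h4
  have h11 : P.Phi (P.mix ν δ K) κ 0 = _ - _ := rfl
  rw [h11] at mono
  linarith

end Pool.Agent.P.MP_6b977f_mp.RG
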