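import Pool.Agent.P.MP_6b977f_mp.RG.IfaceU

/-! Step UNZ. -/

namespace Pool.Agent.P.MP_6b977f_mp.RG

open Finset MeasureTheory Real
open scoped Classical

namespace UNZx

variable {d : ℕ} (P : Par d)

theorem val_sub (x y : SI d → ℝ) : P.val y - P.val x = P.val (y - x) := by
  funext o
  cases o with
  | none => simp only [Par.val, Option.elim, Pi.sub_apply]; ring
  | some i =>
    simp only [Par.val, Option.elim, Pi.sub_apply, Par.ci, vp, mul_sub, sum_sub_distrib]; ring

theorem val_cont : Continuous P.val := by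
  refine continuous_pi fun o => ?_
  cases o with
  | none => simp only [Par.val, Option.elim]; fun_prop
  | some i => simp only [Par.val, Option.elim, Par.ci, vp]; fun_prop

theorem norm_le {e : ℝ} (he : 0 < e) (u : SI d → ℝ) : ‖u‖ ≤ e + ∑ j, u j ^ 2 / e := by
  have h0 : ∀ j ∈ (univ : Finset (SI d)), 0 ≤ u j ^ 2 / e := fun j _ => by positivity
  refine (pi_norm_le_iff_of_nonneg (add_nonneg he.le (sum_nonneg h0))).2 fun j => ?_
  have h1 := single_le_sum h0 (mem_univ j)
  have h2 : |u j| ≤ e + u j ^ 2 / e := by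
    rw [← sub_le_iff_le_add', le_div_iff₀ he, ← sq_abs]
    nlinarith [sq_nonneg (|u j| - e), abs_nonneg (u j)]
  exact h2.trans (by linarith)

end UNZx

open UNZx in
theorem p_UNZ :
    S_UNZ := by
  intro d P κ h e x hκ hh he
  have h3 := P.d3
  have hv := EPx.vs_pos d hκ hh
  have g1 : ∀ j, PG fun y : SI d → ℝ => (y j - x j) ^ 2 := fun j =>
    ((PG.coord j).sub (PG.const _)).pow 2
  have g2 : PG fun y : SI d → ℝ => (d + 2) * (e + ∑ j, (y j - x j) ^ 2 / e) :=
    ((PG.const e).add (PG.sum _ fun j _ => (g1 j).div e)).cmul _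
  have hle : ∀ y, ‖P.val y - P.val x‖ ≤ (d + 2) * (e + ∑ j, (y j - x j) ^ 2 / e) := fun y => by
    rw [val_sub]
    exact (P.norm_val _).trans (mul_le_mul_of_nonneg_left (norm_le he _) (by positivity))
  have g3 : PG fun y => ‖P.val y - P.val x‖ :=
    g2.of_le ((val_cont P).sub continuous_const).norm.measurable fun y => by
      rw [abs_norm]; exact (hle y).trans (le_abs_self _)
  refine ⟨g3, (integral_mono (ker_intb hv x g3) (ker_intb hv x g2) fun y =>
    mul_le_mul_of_nonneg_right (hle y) (ker_pos hv _).le).trans ?_⟩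
  have e1 : ∀ y : SI d → ℝ, (d + 2) * (e + ∑ j, (y j - x j) ^ 2 / e) * ker (vs d κ h) (y - x) =
      (d + 2) * (e * ker (vs d κ h) (y - x) +
        ∑ j, (y j - x j) ^ 2 * ker (vs d κ h) (y - x) / e) := fun y => by
    rw [mul_assoc, add_mul e, sum_mul]
    congr 2
    exact sum_congr rfl fun j _ => by ring
  simp only [e1]
  rw [integral_const_mul, integral_add (ker_intb hv x (PG.const e))
    (integrable_finsetSum _ fun j _ => (ker_intb hv x (g1 j)).div_const e), integral_const_mul,
    ker_int hv, integral_finsetSum _ fun j _ => (ker_intb hv x (g1 j)).div_const e]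
  simp only [integral_div, (p_KER _ _ x hv).2.2.2]
  have h4 : ∑ j, vs d κ h j / e ≤ (d + 1) * ((κ ^ 2 + h) / e) := by
    have := sum_le_card_nsmul univ (fun j => vs d κ h j / e) ((κ ^ 2 + h) / e) fun j _ =>
      div_le_div_of_nonneg_right (by cases j <;> simp [vs, hh]) he.le
    rw [card_univ, Fintype.card_option, Fintype.card_option, Fintype.card_fin, nsmul_eq_mul,
      Nat.sub_add_cancel (by have := P.hd; omega)] at this
    exact_mod_cast this
  have h5 : 0 ≤ (κ ^ 2 + h) / e := by positivity
  rw [sq, mul_assoc]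
  exact mul_le_mul_of_nonneg_left (by nlinarith) (by positivity)

end Pool.Agent.P.MP_6b977f_mp.RG
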