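import Pool.Agent.P.MP_6b977f_mp.RG.LibV

/-! More facts on marked mixtures. -/

set_option linter.dupNamespace false

namespace Pool.Agent.P.MP_6b977f_mp.RG

open Finset MeasureTheory Real
open scoped Classical

theorem cd_nonneg {x y : ℝ} (hx : 0 ≤ x) (hy : 0 ≤ y) : 0 ≤ cd x y := by
  unfold cd; split_ifs <;> positivity

theorem cd_meas {α : Type} [MeasurableSpace α] {f g : α → ℝ} (hf : Measurable f)
    (hg : Measurable g) : Measurable fun a => cd (f a) (g a) :=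
  Measurable.ite (hg (measurableSet_singleton 0)) measurable_const (hf.div hg)

theorem cd_sum {x : Fin 4 → ℝ} {y : ℝ} (h : ∑ u, x u = y) : ∑ u, cd (x u) y = 1 := by
  unfold cd; split_ifs with h0
  · simp
  · rw [← sum_div, h, div_self h0]

theorem cd_mul {x y : ℝ} (h : y = 0 → x = 0) : cd x y * y = x := by
  unfold cd; split_ifs with h0
  · rw [h0, h h0, mul_zero]
  · exact div_mul_cancel₀ _ h0

namespace MB
variable {ι : Type} [Fintype ι] {f g : (ι → ℝ) → ℂ} {C C' : ℝ}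

theorem const (c : ℂ) (h : ‖c‖ ≤ C) : MB C fun _ : ι → ℝ => c := ⟨measurable_const, fun _ => h⟩

theorem mul (hf : MB C f) (hg : MB C' g) : MB (C * C') fun y => f y * g y :=
  ⟨hf.1.mul hg.1, fun y => (norm_mul_le _ _).trans
    (mul_le_mul (hf.2 y) (hg.2 y) (norm_nonneg _) ((norm_nonneg _).trans (hf.2 y)))⟩

theorem mul1 (hf : MB 1 f) (hg : MB 1 g) : MB 1 fun y => f y * g y := by simpa using hf.mul hg

theorem sub (hf : MB C f) (hg : MB C' g) : MB (C + C') fun y => f y - g y :=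
  ⟨hf.1.sub hg.1, fun y => (norm_sub_le _ _).trans (add_le_add (hf.2 y) (hg.2 y))⟩

theorem mono (hf : MB C f) (h : C ≤ C') : MB C' f := ⟨hf.1, fun y => (hf.2 y).trans h⟩

theorem comp {κ : Type} [Fintype κ] (hf : MB C f) {B : (κ → ℝ) → ι → ℝ} (hB : Measurable B) :
    MB C fun y => f (B y) := ⟨hf.1.comp hB, fun _ => hf.2 _⟩

theorem norm (hf : MB C f) : PG fun y => ‖f y‖ :=
  PG.bdd hf.1.norm C fun y => by rw [abs_norm]; exact hf.2 y

theorem prod {α : Type} (s : Finset α) {F : α → (ι → ℝ) → ℂ} (h : ∀ a ∈ s, MB 1 (F a)) :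
    MB 1 fun y => ∏ a ∈ s, F a y :=
  ⟨Finset.measurable_prod _ fun a ha => (h a ha).1, fun y => by
    rw [norm_prod]; exact prod_le_one (fun _ _ => norm_nonneg _) fun a ha => (h a ha).2 y⟩

theorem eI {φ : (ι → ℝ) → ℝ} (h : Measurable φ) :
    MB 1 fun y => Complex.exp (Complex.I * (φ y : ℝ)) :=
  ⟨Complex.measurable_exp.comp ((Complex.measurable_ofReal.comp h).const_mul _), fun y => by
    simp only [mul_comm Complex.I, Complex.norm_exp_ofReal_mul_I, le_refl]⟩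

end MB

theorem R_meas : Measurable PMx.R := PMx.mp.measurable

namespace Mix
variable {ι : Type} [Fintype ι] (m : Mix ι) {B : Type} (k : m.Ω → B) {v : ι → ℝ}

theorem den_intb (hv : ∀ j, 0 < v j) : Integrable (m.den v) := by
  simpa using ((p_MIX p_KER ι m v hv).2.2.2.2.2.2 _ (PG.const 1)).1

theorem den_int (hv : ∀ j, 0 < v j) : ∫ y, m.den v y = 1 := by
  simpa [Ex] using (p_MIX p_KER ι m v hv).2.2.2.2.2.1

theorem EC_den (hv : ∀ j, 0 < v j) {C : ℝ} {g : (ι → ℝ) → ℂ} (hg : MB C g) :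
    m.EC k v (fun _ => g) = ∫ y, g y * (m.den v y : ℝ) := by
  rw [m.EC_eq k hv fun _ => hg, hg.int (m.den_intb hv), m.EM_Ex k hv hg.re, m.EM_Ex k hv hg.im]
  rfl

theorem norm_int_le (hv : ∀ j, 0 < v j) (g : (ι → ℝ) → ℂ) :
    ‖∫ y, g y * (m.den v y : ℝ)‖ ≤ m.Ex v fun y => ‖g y‖ :=
  (norm_integral_le_integral_norm _).trans_eq (by
    simp only [norm_mul, Complex.norm_real, norm_eq_abs, abs_of_pos (MIXx.den_pos m hv _), Ex])

/-- the logarithm of a quotient of two parts -/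
theorem pg_log_cd {B' : Type} (k' : m.Ω → B') (hv : ∀ j, 0 < v j) (b : B) (b' : B') :
    PG fun y => log (cd (m.jd k v b y) (m.jd k' v b' y)) := by
  rcases m.jd_cases k' hv b' with h | h
  · simpa only [cd, h, if_true] using PG.const _
  rcases m.jd_cases k hv b with h' | h'
  · simpa only [cd, (h _).ne', if_false, h', zero_div] using PG.const _
  · simpa only [cd, (h _).ne', if_false, log_div (h' _).ne' (h _).ne'] using
      (m.pg_log_jd k hv b).sub (m.pg_log_jd k' hv b')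

end Mix

namespace Par
variable {d : ℕ} (P : Par d)

theorem ed_meas (i : Fin d) : Measurable (P.ed i) := measurable_pi_lambda _ fun j => (P.PG_ed i j).1

theorem PG_val (o : Option (Fin d)) : PG fun y => P.val y o := by
  cases o with
  | none => exact (PG.coord _).add (PG.coord _)
  | some i =>
    exact (((PG.coord _).cmul _).add (((P.PG_ci i).comp (B := vp) PG_vp).cmul _)).add (PG.coord _)

theorem MB_ch (s : ℝ) (τ : Fin d → ℝ) : MB 1 fun y => ch s τ (P.val y) :=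
  MB.eI (((P.PG_val _).cmul s).add (PG.sum _ fun i _ => (P.PG_val _).cmul (τ i))).1

theorem MB_gE (al be : ℝ) {Q : ℝ} (h : 0 ≤ Q) : MB 1 (P.gE al be Q) :=
  (MB.eI (by fun_prop)).mul1 (MB.const _ (by
    rw [Complex.norm_real, norm_eq_abs, abs_of_pos (exp_pos _)]
    exact exp_le_one_iff.2 (by linarith)))

theorem gE_R (al be Q : ℝ) (e : Fin 2 → ℝ) : P.gE al be Q (PMx.R e) = P.gE be al Q e := by
  simp only [gE]
  congr 4
  simp [PMx.R, PMx.sg]; ring

theorem gE_ed (al be Q : ℝ) (i : Fin d) (y : SI d → ℝ) : P.gE al be Q (P.ed i y) =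
    Complex.exp (Complex.I * (al * P.val y (some i) + be * P.val y none : ℝ)) *
      (exp (-Q / 2) : ℝ) := by
  have h1 := P.cs_pos
  have h2 := P.sn_pos
  simp only [gE, P.ed_val]
  congr 4
  simp only [Matrix.cons_val_zero, Matrix.cons_val_one]
  field_simp; ring

theorem cv_nonneg {τ : Fin d → ℝ} {j : Fin d} (h : τ j = 0) : 0 ≤ cv d P.lam τ := by
  have d3 := P.d3
  have a := sq_sum_le_card_mul_sum_sq (s := univ.erase j) (f := τ)
  rw [sum_erase _ h, sum_erase _ (by rw [h]; ring), card_erase_of_mem (mem_univ _), card_univ,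
    Fintype.card_fin, Nat.cast_sub (by have := P.hd; omega), Nat.cast_one] at a
  refine mul_nonneg (div_nonneg ?_ (by nlinarith)) ?_
  · nlinarith [P.hl]
  · rw [sub_nonneg, div_le_iff₀ (by linarith)]; linarith

variable {A : Type} (m : Mix (SI d)) (k : m.Ω → Option (Fin d) → A) {κ h : ℝ}

/-- from the star to the edge, complex functions -/
theorem EC_edge (hκ : 0 < κ) (ht : 0 ≤ h) {C : ℝ} {G : A × A → (Fin 2 → ℝ) → ℂ}
    (hG : ∀ c, MB C (G c)) :
    ∑ i, m.EC k (vs d κ h) (fun b y => G (b none, b (some i)) (P.ed i y)) =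
      d * (P.edge m).EC (P.kE m k) (P.ve κ h) G := by
  rw [Mix.EC_eq _ _ (P.ve_pos hκ ht) hG, sum_congr rfl fun i _ =>
    m.EC_eq k (EPx.vs_pos d hκ ht) fun b => (hG _).comp (P.ed_meas i), sum_add_distrib, ← sum_mul,
    ← Complex.ofReal_sum, ← Complex.ofReal_sum, P.EM_edge m k hκ ht fun c => (hG c).re,
    P.EM_edge m k hκ ht fun c => (hG c).im]
  push_cast; ring

theorem int_edge (hκ : 0 < κ) (ht : 0 ≤ h) {C : ℝ} {H : (Fin 2 → ℝ) → ℂ} (hH : MB C H) :
    ∑ i, ∫ y, H (P.ed i y) * (m.den (vs d κ h) y : ℝ) =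
      d * ∫ z, H z * ((P.edge m).den (P.ve κ h) z : ℝ) := by
  rw [← Mix.EC_den _ (P.kE m fun _ _ => ()) (P.ve_pos hκ ht) hH,
    ← P.EC_edge m (fun _ _ => ()) hκ ht fun _ => hH]
  exact sum_congr rfl fun i _ =>
    (m.EC_den _ (EPx.vs_pos d hκ ht) (hH.comp (P.ed_meas i))).symm

theorem SymU.EC_R {P : Par d} {m : Mix (SI d)} {k : m.Ω → Option (Fin d) → A} (hs : P.SymU m k)
    {v : Fin 2 → ℝ} (hv : ∀ j, 0 < v j) {C : ℝ} {G : A × A → (Fin 2 → ℝ) → ℂ}
    (hG : ∀ c, MB C (G c)) : (P.edge m).EC (P.kE m k) v G =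
      (P.edge m).EC (P.kE m k) v fun a e => G a.swap (PMx.R e) := by
  rw [Mix.EC_eq _ _ hv hG, Mix.EC_eq _ _ hv fun c => (hG _).comp R_meas, hs.EM_R,
    hs.EM_R v fun a e => (G a e).im]

theorem JE_nonneg (hκ : 0 < κ) (ht : 0 ≤ h) {C : Type} (f : A × A → C) (c : C) (e : Fin 2 → ℝ) :
    0 ≤ P.JE m k κ h f c e := Mix.jd_nonneg _ _ (P.ve_pos hκ ht) _ _

theorem JE_meas (κ h : ℝ) {C : Type} (f : A × A → C) (c : C) : Measurable (P.JE m k κ h f c) :=
  (Mix.jd_cont _ _ _ _).measurable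

/-- summing out one more coordinate of the marks -/
theorem JE_sum (κ h : ℝ) {C C' U : Type} [Fintype U] (f : A × A → C) (f' : A × A → C') (c : C)
    (c' : U → C') (hc : Function.Injective c') (hf : ∀ a, f a = c ↔ ∃ u, f' a = c' u)
    (e : Fin 2 → ℝ) : ∑ u, P.JE m k κ h f' (c' u) e = P.JE m k κ h f c e := by
  simp only [JE, Mix.jd]
  rw [sum_comm]
  refine sum_congr rfl fun ω _ => ?_
  rw [← sum_mul, ← sum_mul]
  congr 2
  by_cases h1 : f (P.kE m k ω) = c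
  · obtain ⟨u, hu⟩ := (hf _).1 h1
    rw [ind_pos h1, sum_eq_single u (fun u' _ h2 => ind_neg fun h3 => h2 (hc (h3.symm.trans hu)))
      (by simp), ind_pos hu]
  · rw [ind_neg h1]
    exact sum_eq_zero fun u _ => ind_neg fun h2 => h1 ((hf _).2 ⟨u, h2⟩)

variable (T : Tr d) (m : Mix (SI d)) (k : m.Ω → Option (Fin d) → T.A)

theorem Jd_sum (κ h : ℝ) (p c : T.P) (e : Fin 2 → ℝ) :
    ∑ u, P.Jd T m k κ h p (c, u) e = P.J2 T m k κ h p c e :=
  P.JE_sum m k κ h _ _ _ (fun u => (p, (c, u))) (fun _ _ h => by simpa using h)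
    (fun a => by simp [Prod.ext_iff]) e

theorem J_sum (κ h : ℝ) (a : T.A) (c : T.P) (e : Fin 2 → ℝ) :
    ∑ u, P.JE m k κ h id (a, (c, u)) e = P.Js T m k κ h a c e :=
  P.JE_sum m k κ h _ _ _ (fun u => (a, (c, u))) (fun _ _ h => by simpa using h)
    (fun a => by simp [Prod.ext_iff]) e

theorem J2_sum (κ h : ℝ) (p : T.P) (e : Fin 2 → ℝ) :
    ∑ c, P.J2 T m k κ h p c e = P.J1 T m k κ h p e :=
  P.JE_sum m k κ h _ _ _ (fun c => (p, c)) (fun _ _ h => by simpa using h)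
    (fun a => by simp [Prod.ext_iff]) e

theorem J1_sum (κ h : ℝ) (e : Fin 2 → ℝ) :
    ∑ p, P.J1 T m k κ h p e = (P.edge m).den (P.ve κ h) e := Mix.jd_sum _ _ _ _

theorem kap_sum (κ h : ℝ) (a : T.A) (c : T.P) (e : Fin 2 → ℝ) :
    ∑ u, P.kap T m k κ h a (c, u) e = 1 := by
  simp only [kap]; split_ifs
  · exact cd_sum (P.Jd_sum T m k κ h _ _ e)
  · exact cd_sum (P.J_sum T m k κ h _ _ e)

theorem kap_nonneg (hκ : 0 < κ) (ht : 0 ≤ h) (a b : T.A) (e : Fin 2 → ℝ) :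
    0 ≤ P.kap T m k κ h a b e := by
  unfold kap; split_ifs <;> exact cd_nonneg (P.JE_nonneg m k hκ ht _ _ _) (P.JE_nonneg m k hκ ht _ _ _)

theorem kap_meas (κ h : ℝ) (a b : T.A) : Measurable (P.kap T m k κ h a b) := by
  unfold kap; split_ifs <;> exact cd_meas (P.JE_meas m k κ h _ _) (P.JE_meas m k κ h _ _)

theorem pg_log_kap (hκ : 0 < κ) (ht : 0 ≤ h) (a b : T.A) :
    PG fun e => log (P.kap T m k κ h a b e) := by
  unfold kap; split_ifs <;> exact Mix.pg_log_cd _ _ _ (P.ve_pos hκ ht) _ _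

theorem kap_pos (hκ : 0 < κ) (ht : 0 ≤ h) {ω : (P.edge m).Ω} (hω : 0 < (P.edge m).p ω)
    (e : Fin 2 → ℝ) : 0 < P.kap T m k κ h (P.kE m k ω).1 (P.kE m k ω).2 e := by
  have a : ∀ {C : Type} (f : T.A × T.A → C), 0 < P.JE m k κ h f (f (P.kE m k ω)) e := fun f =>
    Mix.jd_pos _ (fun ω => f (P.kE m k ω)) (P.ve_pos hκ ht) hω e
  unfold kap cd; split_ifs
  · positivity
  · exact div_pos (a fun c => (c.1.1, c.2)) (a fun c => (c.1.1, c.2.1))
  · positivity
  · exact div_pos (a id) (a fun c => (c.1, c.2.1))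

theorem Qd_nonneg (hκ : 0 < κ) (ht : 0 ≤ h) (t : T.P → ℝ) (b : Option (Fin d) → T.A)
    (y : SI d → ℝ) : 0 ≤ P.Qd T m k κ h t b y :=
  mul_nonneg (div_nonneg (by linarith [(T.qk_mem t (P.val y none) b).1]) (by positivity))
    (prod_nonneg fun _ _ => P.kap_nonneg T m k hκ ht _ _ _)

theorem Qd_meas (κ h : ℝ) (t : T.P → ℝ) (b : Option (Fin d) → T.A) :
    Measurable (P.Qd T m k κ h t b) :=
  (((T.qk_cont t b).measurable.comp (P.PG_val none).1).div_const _).mul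
    (Finset.measurable_prod _ fun i _ => (P.kap_meas T m k κ h _ _).comp (P.ed_meas i))

theorem MB_ub (hκ : 0 < κ) (ht : 0 ≤ h) (p c : T.P) : MB 1 (P.ub T m k κ h p c) := by
  refine ⟨Finset.measurable_sum _ fun u _ => (Complex.measurable_ofReal.comp
    (cd_meas (P.JE_meas m k κ h _ _) (P.JE_meas m k κ h _ _))).const_mul _, fun e => ?_⟩
  refine (norm_sum_le _ _).trans_eq ((sum_congr rfl fun u _ => ?_).trans
    (cd_sum (P.Jd_sum T m k κ h p c e)))
  rw [norm_mul, norm_z4, one_mul, Complex.norm_real, norm_eq_abs]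
  exact abs_of_nonneg (cd_nonneg (P.JE_nonneg m k hκ ht _ _ _) (P.JE_nonneg m k hκ ht _ _ _))

theorem ub_mul (hκ : 0 < κ) (ht : 0 ≤ h) (p c : T.P) (e : Fin 2 → ℝ) :
    P.ub T m k κ h p c e * (P.J2 T m k κ h p c e : ℝ) =
      ∑ u, z4 u * (P.Jd T m k κ h p (c, u) e : ℝ) := by
  rw [ub, sum_mul]
  refine sum_congr rfl fun u _ => ?_
  rw [mul_assoc, ← Complex.ofReal_mul, cd_mul fun h0 => ?_]
  rw [← P.Jd_sum] at h0
  exact (sum_eq_zero_iff_of_nonneg fun _ _ => P.JE_nonneg m k hκ ht _ _ _).1 h0 u (mem_univ _)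

theorem er_nonneg (hκ : 0 < κ) (ht : 0 ≤ h) (al be Q cc : T.P → ℝ) (p c : T.P) :
    0 ≤ P.er T m k κ h al be Q cc p c := integral_nonneg fun _ =>
  mul_nonneg (norm_nonneg _) (MIXx.den_pos _ (P.ve_pos hκ ht) _).le

end Par

end Pool.Agent.P.MP_6b977f_mp.RG
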