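import Pool.Agent.P.MP_6b977f_mp.RG.IfaceU
import Pool.Agent.P.MP_6b977f_mp.RG.LibW

/-! Step UOM. -/

namespace Pool.Agent.P.MP_6b977f_mp.RG

open Finset MeasureTheory Real
open scoped Classical

namespace UOMx

theorem pt {a e : ℝ} (t : ℝ) (ha : 0 ≤ a) (he : 0 < e) :
    |a * exp (-t) - a| ≤ (t * a - a + a * exp (-t)) / (2 * e) + e * (a + a * exp (-t)) := by
  have e2 : exp (-t) = exp (-t / 2) ^ 2 := by rw [sq, ← exp_add]; congr 1; ring
  have h1 : -t / 2 + 1 ≤ exp (-t / 2) := add_one_le_exp _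
  have s0 := exp_pos (-t / 2)
  rw [e2]
  generalize exp (-t / 2) = s at *
  have h3 : |s - 1| * (s + 1) * (2 * e) ≤ t - 1 + s ^ 2 + e * (1 + s ^ 2) * (2 * e) := by
    nlinarith [sq_abs (s - 1), sq_nonneg (|s - 1| - e * (s + 1)), sq_nonneg (e * (1 - s))]
  rw [show a * s ^ 2 - a = a * ((s - 1) * (s + 1)) by ring, abs_mul, abs_mul, abs_of_nonneg ha,
    abs_of_pos (show 0 < s + 1 by linarith), div_add' _ _ _ (by positivity),
    le_div_iff₀ (by positivity)]
  nlinarith [mul_le_mul_of_nonneg_left h3 ha]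

variable {ι : Type} [Fintype ι] {v : ℝ}

theorem ksh (hv : 0 < v) (x δ z : ι → ℝ) : ker (fun _ => v) (z - (δ + x)) =
    ker (fun _ => v) (z - x) * exp (-∑ j, (δ j ^ 2 / (2 * v) + -(δ j / v) * (z j - x j))) := by
  rw [← sum_neg_distrib, exp_sum, ker, ker, ← prod_mul_distrib]
  refine prod_congr rfl fun j _ => ?_
  simp only [g1, Pi.sub_apply, Pi.add_apply]
  rw [div_mul_eq_mul_div, ← exp_add]
  congr 2
  field_simp
  ring

theorem tv (hv : 0 < v) {e C : ℝ} (he : 0 < e) (x δ : ι → ℝ) {Φ : (ι → ℝ) → ℂ} (hΦ : MB C Φ) :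
    ‖(∫ z, Φ (z + δ) * (ker (fun _ => v) (z - x) : ℝ)) - ∫ z, Φ z * (ker (fun _ => v) (z - x) : ℝ)‖ ≤
      C * ((∑ j, δ j ^ 2) / (4 * e * v) + 2 * e) := by
  have hv' : ∀ _ : ι, 0 < v := fun _ => hv
  have i : ∀ x, Integrable fun y => ker (fun _ : ι => v) (y - x) := fun x => by
    simpa using ker_intb hv' x (PG.const 1)
  have ic : ∀ j, Integrable fun y => (y j - x j) * ker (fun _ : ι => v) (y - x) := fun j =>
    ker_intb hv' x ((PG.coord j).sub (PG.const _))
  set t : (ι → ℝ) → ℝ := fun z => ∑ j, (δ j ^ 2 / (2 * v) + -(δ j / v) * (z j - x j)) with ht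
  have it : Integrable fun z => t z * ker (fun _ : ι => v) (z - x) :=
    ker_intb hv' x (PG.sum _ fun j _ => (PG.const _).add (((PG.coord j).sub (PG.const _)).cmul _))
  have et : ∫ z, t z * ker (fun _ : ι => v) (z - x) = (∑ j, δ j ^ 2) / (2 * v) := by
    simp only [ht, sum_mul, add_mul, mul_assoc]
    rw [integral_finsetSum _ fun j _ => by exact ((i x).const_mul _).add ((ic j).const_mul _),
      sum_div]
    refine sum_congr rfl fun j _ => ?_
    rw [integral_add ((i x).const_mul _) ((ic j).const_mul _), integral_const_mul,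
      integral_const_mul, ker_int hv', (p_KER ι _ x hv').2.2.1 j]
    ring
  have e1 : ∫ z, Φ (z + δ) * (ker (fun _ => v) (z - x) : ℝ) =
      ∫ z, Φ z * (ker (fun _ => v) (z - (δ + x)) : ℝ) := by
    rw [← integral_add_right_eq_self (fun z => Φ z * (ker (fun _ => v) (z - (δ + x)) : ℝ)) δ]
    simp only [sub_add_eq_sub_sub, add_sub_cancel_right]
  have j1 := ((it.sub (i x)).add (i (δ + x))).div_const (2 * e)
  have j2 := ((i x).add (i (δ + x))).const_mul e
  rw [e1, ← integral_sub (hΦ.intb (i _)) (hΦ.intb (i _))]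
  refine (norm_integral_le_of_norm_le ((j1.add j2).const_mul C) (ae_of_all _ fun z => ?_)).trans_eq ?_
  · rw [← mul_sub, norm_mul, ← Complex.ofReal_sub, Complex.norm_real, norm_eq_abs]
    refine mul_le_mul (hΦ.2 z) ?_ (abs_nonneg _) ((norm_nonneg _).trans (hΦ.2 z))
    simp only [Pi.add_apply, Pi.sub_apply, ksh hv x δ z]
    exact pt _ (ker_pos hv' _).le he
  · rw [integral_const_mul, integral_add' j1 j2, integral_div, integral_const_mul,
      integral_add' (it.sub (i x)) (i _), integral_sub' it (i x), integral_add' (i x) (i _), et,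
      ker_int hv', ker_int hv']
    congr 1
    field_simp
    ring

theorem mom (hv : 0 < v) (x a b : ℝ) : (Integrable fun w => (a * w ^ 2 + b) * g1 v (w - x)) ∧
    ∫ w, (a * w ^ 2 + b) * g1 v (w - x) = a * (x ^ 2 + v) + b := by
  have i0 : Integrable fun u => 1 * g1 v u :=
    Integrable.of_integral_ne_zero (by rw [KERx.m0 hv]; norm_num)
  have i2 : Integrable fun u => u ^ 2 * g1 v u :=
    Integrable.of_integral_ne_zero (by rw [KERx.m2 hv]; exact hv.ne')
  have i1 : Integrable fun u => u * g1 v u := by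
    refine (i0.add i2).mono' (by unfold g1; fun_prop) (ae_of_all _ fun u => ?_)
    rw [norm_mul, norm_eq_abs, norm_eq_abs, abs_of_pos (g1_pos hv u), Pi.add_apply, ← add_mul]
    exact mul_le_mul_of_nonneg_right (by nlinarith [sq_abs u, sq_nonneg (|u| - 1)]) (g1_pos hv u).le
  have e : ∀ w, (a * w ^ 2 + b) * g1 v (w - x) = (fun u => a * (u ^ 2 * g1 v u) +
      (2 * a * x * (u * g1 v u) + (a * x ^ 2 + b) * (1 * g1 v u))) (w - x) := fun w => by ring
  have j : Integrable fun u => 2 * a * x * (u * g1 v u) + (a * x ^ 2 + b) * (1 * g1 v u) :=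
    (i1.const_mul (2 * a * x)).add (i0.const_mul (a * x ^ 2 + b))
  simp only [e]
  refine ⟨((i2.const_mul a).add j).comp_sub_right x, ?_⟩
  rw [integral_sub_right_eq_self (fun u => a * (u ^ 2 * g1 v u) +
      (2 * a * x * (u * g1 v u) + (a * x ^ 2 + b) * (1 * g1 v u))) x,
    integral_add (i2.const_mul a) j, integral_add (i1.const_mul _) (i0.const_mul _),
    integral_const_mul, integral_const_mul, integral_const_mul, KERx.m0 hv, KERx.m1 hv, KERx.m2 hv]
  ring

theorem one (hUFUB : S_UFUB) {d : ℕ} {κ h C e : ℝ} (u : VI d → ℝ) {Φ : (VI d → ℝ) → ℂ}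
    (hκ : 0 < κ) (hh : 0 < h) (he : 0 < e) (hΦ : MB C Φ) (x : SI d → ℝ)
    (i : Integrable fun y => Φ (vp y + y none • u) * (ker (vs d κ h) (y - x) : ℝ)) :
    ‖(∫ y, Φ (vp y + y none • u) * (ker (vs d κ h) (y - x) : ℝ)) -
      ∫ z, Φ z * (ker (fun _ => κ ^ 2 + h) (z - vp x) : ℝ)‖ ≤
      C * ((∑ j, u j ^ 2) / (4 * e * h) * (x none ^ 2 + κ ^ 2) + 2 * e) := by
  have k2 : 0 < κ ^ 2 := by positivity
  have C0 : 0 ≤ C := (norm_nonneg _).trans (hΦ.2 0)
  have e1 : ∀ y : SI d → ℝ, Φ (vp y + y none • u) * (ker (vs d κ h) (y - x) : ℝ) =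
      (fun (w : ℝ) (z : VI d → ℝ) => (g1 (κ ^ 2) (w - x none) : ℂ) * (Φ (z + w • u) *
        (ker (fun _ => κ ^ 2 + h) (z - vp x) : ℝ))) (y none) fun j => y (some j) := fun y => by
    rw [ker, Fintype.prod_option, Complex.ofReal_mul, mul_left_comm]
    rfl
  simp only [e1] at i ⊢
  obtain ⟨j, e2⟩ := hUFUB (VI d) (fun (w : ℝ) (z : VI d → ℝ) => (g1 (κ ^ 2) (w - x none) : ℂ) *
    (Φ (z + w • u) * (ker (fun _ => κ ^ 2 + h) (z - vp x) : ℝ))) i
  obtain ⟨j0, e0⟩ := mom k2 (x none) 0 1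
  obtain ⟨j3, e3⟩ := mom k2 (x none) ((∑ j, u j ^ 2) / (4 * e * h)) (2 * e)
  simp only [zero_mul, zero_add, one_mul] at j0 e0
  simp only [integral_const_mul] at j e2
  set I := ∫ z, Φ z * (ker (fun _ => κ ^ 2 + h) (z - vp x) : ℝ) with hI
  have e4 : I = ∫ w, (g1 (κ ^ 2) (w - x none) : ℂ) * I := by
    rw [integral_mul_const, integral_complex_ofReal, e0, Complex.ofReal_one, one_mul]
  have j4 : Integrable fun w => (g1 (κ ^ 2) (w - x none) : ℂ) * I := j0.ofReal.mul_const I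
  rw [e2, e4, ← integral_sub j j4, ← e3, ← integral_const_mul]
  refine norm_integral_le_of_norm_le (j3.const_mul C) (ae_of_all _ fun w => ?_)
  rw [← mul_sub, norm_mul, Complex.norm_real, norm_eq_abs, abs_of_pos (g1_pos k2 _), mul_comm,
    ← mul_assoc]
  refine mul_le_mul_of_nonneg_right ((tv (by positivity) he _ _ hΦ).trans ?_) (g1_pos k2 _).le
  simp only [Pi.smul_apply, smul_eq_mul, mul_pow, ← mul_sum]
  rw [div_mul_eq_mul_div, mul_comm (w ^ 2)]
  have : 0 ≤ ∑ j, u j ^ 2 := by positivity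
  gcongr
  linarith

end UOMx

theorem p_UOM (hUFUB : S_UFUB) :
    S_UOM := by
  intro d m κ h C e u Φ hκ hh he hΦ
  have hv := EPx.vs_pos d hκ hh.le
  have hw : ∀ _ : VI d, 0 < κ ^ 2 + h := fun _ => by positivity
  have hΨ : MB C fun y : SI d → ℝ => Φ (vp y + y none • u) :=
    hΦ.comp (by unfold vp; fun_prop)
  rw [← m.EC_den id hv hΨ, ← (m.map vp).EC_den id hw hΦ, Mix.EC, Mix.EC]
  change ‖_ - ∑ ω : m.Ω, (m.p ω : ℂ) * ∫ y, Φ y * (ker (fun _ => κ ^ 2 + h) (y - vp (m.x ω)) : ℝ)‖ ≤ _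
  rw [← sum_sub_distrib]
  refine (norm_sum_le _ _).trans ((sum_le_sum (g := fun ω => m.p ω * (C * ((∑ j, u j ^ 2) /
    (4 * e * h) * (m.x ω none ^ 2 + κ ^ 2) + 2 * e))) fun ω _ => ?_).trans_eq ?_)
  · rw [← mul_sub, norm_mul, Complex.norm_real, norm_eq_abs, abs_of_nonneg (m.p0 ω)]
    exact mul_le_mul_of_nonneg_left (UOMx.one hUFUB u hκ hh he hΦ _
      (hΨ.intb (by simpa using ker_intb hv (m.x ω) (PG.const 1)))) (m.p0 ω)
  · change m.E (fun y => C * ((∑ j, u j ^ 2) / (4 * e * h) * (y none ^ 2 + κ ^ 2) + 2 * e)) = _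
    rw [m.E_mul, m.E_add, m.E_mul, m.E_add, m.E_const, m.E_const]
    ring

end Pool.Agent.P.MP_6b977f_mp.RG
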