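import Pool.Agent.P.MP_6b977f_mp.RG.IfaceU
import Pool.Agent.P.MP_6b977f_mp.RG.LibW

/-! Step UPROD. -/

namespace Pool.Agent.P.MP_6b977f_mp.RG

open Finset MeasureTheory Real
open scoped Classical

namespace UPRODx

theorem EM_sub {ι : Type} [Fintype ι] (m : Mix ι) {B : Type} (k : m.Ω → B) {v : ι → ℝ}
    (hv : ∀ j, 0 < v j) {G H : B → (ι → ℝ) → ℝ} (hG : ∀ b, PG (G b)) (hH : ∀ b, PG (H b)) :
    m.EM k v (fun b y => G b y - H b y) = m.EM k v G - m.EM k v H := by
  have := m.EM_add k hv (G := fun b y => G b y - H b y) (H := H) (fun b => (hG b).sub (hH b)) hH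
  simp only [sub_add_cancel] at this
  linarith

variable {d : ℕ} (P : Par d) (T : Tr d)

theorem pg_qk (t : T.P → ℝ) (b : Option (Fin d) → T.A) :
    PG fun y => log (T.qk t (P.val y none) b) := by
  refine PG.bdd ((T.qk_cont t b).measurable.comp (P.PG_val none).1).log 8 fun y => ?_
  obtain ⟨h1, h2⟩ := T.qk_mem t (P.val y none) b
  have h0 : 0 < T.qk t (P.val y none) b := by linarith
  have a := log_le_sub_one_of_pos h0
  have a' := log_le_sub_one_of_pos (inv_pos.2 h0)
  have : (T.qk t (P.val y none) b)⁻¹ ≤ 8 := by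
    rw [inv_le_comm₀ h0 (by norm_num)]; linarith
  rw [log_inv] at a'
  rw [abs_le]; constructor <;> linarith

theorem mass {α : Type} [Fintype α] (J1 : α → ℝ) (D : ℝ) (hD : 0 < D) (h1 : ∑ p, J1 p = D)
    (h0 : ∀ p, 0 ≤ J1 p) (K1 : Fin d → α → ℝ) (K2 : Fin d → α → α → ℝ)
    (h2 : ∀ i p, ∑ c, K2 i p c = K1 i p) (h3 : ∀ i p c, 0 ≤ K2 i p c) :
    ∑ w : Option (Fin d) → α, J1 (w none) / D * ∏ i, K2 i (w none) (w (some i)) / K1 i (w none) ≤
      1 := by
  rw [← (Equiv.piOptionEquivProd (β := fun _ : Option (Fin d) => α)).symm.sum_comp,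
    Fintype.sum_prod_type]
  calc _ ≤ ∑ p, J1 p / D := sum_le_sum fun p _ => ?_
    _ = 1 := by rw [← sum_div, h1, div_self hD.ne']
  have e := Finset.prod_univ_sum (fun _ : Fin d => (univ : Finset α)) fun i c => K2 i p c / K1 i p
  rw [Fintype.piFinset_univ] at e
  change ∑ w : Fin d → α, J1 p / D * ∏ i, K2 i p (w i) / K1 i p ≤ _
  rw [← mul_sum, ← e]
  refine mul_le_of_le_one_right (div_nonneg (h0 p) hD.le) (prod_le_one (fun i _ => ?_) fun i _ => ?_)
  · exact sum_nonneg fun c _ => div_nonneg (h3 _ _ _) (h2 i p ▸ sum_nonneg fun c _ => h3 _ _ _)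
  · rw [← sum_div, h2]
    exact div_self_le_one _

end UPRODx

open UPRODx in
theorem p_UPROD (hUGB : S_UGB) (hUQA : S_UQA) (hUSW : S_USW) :
    S_UPROD := by
  intro d P T m k κ h g e t hs hκ hh he hg
  have hv := EPx.vs_pos d hκ hh
  have hve := P.ve_pos hκ hh
  have d3 := P.d3
  have n1 := T.card_pos
  obtain ⟨n, hn⟩ : ∃ n : ℝ, n = Fintype.card T.P := ⟨_, rfl⟩
  have n0 : 0 < n := by rw [hn]; linarith
  obtain ⟨w1, w2⟩ := hUSW d P T m k κ h hs hκ hh
  have qa : ∀ (y : SI d → ℝ) (f : (Option (Fin d) → T.P) → ℝ),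
      ∑ b, f (fun o => (b o).1) * P.Qd T m k κ h t b y = (∑ w, f w) / n ^ (d + 1) := fun y f => by
    have := (hUQA d P T m k κ h t y (fun w => f w) hκ hh).1
    rw [hn]
    exact_mod_cast this
  have pk : ∀ c : T.A × T.A, PG fun e => -log (P.kap T m k κ h c.1 c.2 e) := fun c =>
    (P.pg_log_kap T m k hκ hh _ _).neg
  have p1 : ∀ c : T.A × T.A, PG fun e => log (P.J1 T m k κ h c.1.1 e) := fun c =>
    Mix.pg_log_jd _ _ hve _
  have p2 : ∀ c : T.A × T.A, PG fun e => log (P.J2 T m k κ h c.1.1 c.2.1 e) := fun c =>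
    Mix.pg_log_jd _ _ hve _
  have p0 : PG fun e => log ((P.edge m).den (P.ve κ h) e) := MIXx.pg_log _ hve
  have pq : ∀ b, PG fun y => log n - log (T.qk t (P.val y none) b) := fun b =>
    (PG.const _).sub (pg_qk P T t b)
  have ek := P.EM_edge m k hκ hh pk
  have e1 := P.EM_edge m k hκ hh p1
  have e2 := P.EM_edge m k hκ hh p2
  have e0 := P.EM_edge m k hκ hh (G := fun _ e => log ((P.edge m).den (P.ve κ h) e)) fun _ => p0
  rw [Mix.EM_Ex _ _ hve p0] at e0
  have hp : ∀ ω, 0 < m.p ω → ∀ i, 0 < (P.edge m).p (ω, i) := fun ω hω i =>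
    div_pos hω (by linarith)
  set G : (Option (Fin d) → T.A) → (SI d → ℝ) → ℝ := fun b y =>
    log n - log (T.qk t (P.val y none) b) + (d * log n +
      ∑ i, -log (P.kap T m k κ h (b none) (b (some i)) (P.ed i y))) with hG
  have pks : ∀ b : Option (Fin d) → T.A,
      PG fun y => ∑ i, -log (P.kap T m k κ h (b none) (b (some i)) (P.ed i y)) := fun b =>
    PG.sum _ fun i _ => (pk (b none, b (some i))).comp (P.PG_ed i)
  have pG : ∀ b, PG (G b) := fun b => (pq b).add ((PG.const _).add (pks b))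
  have eG : m.EM k (vs d κ h) G = m.EM k (vs d κ h)
      (fun b y => log n - log (T.qk t (P.val y none) b)) + (d * log n + d *
        (P.edge m).EM (P.kE m k) (P.ve κ h) fun c e => -log (P.kap T m k κ h c.1 c.2 e)) := by
    rw [hG, m.EM_add k hv pq fun b => (PG.const _).add (pks b),
      m.EM_add k hv (fun _ => PG.const _) pks, m.EM_const k hv,
      m.EM_sum k hv _ fun i b => (pk (b none, b (some i))).comp (P.PG_ed i), ek]
  have lq : ∀ ω, 0 < m.p ω → ∀ y, P.Qd T m k κ h t (k ω) y = exp (-G (k ω) y) := fun ω hω y => by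
    have a : ∀ i, 0 < P.kap T m k κ h (k ω none) (k ω (some i)) (P.ed i y) := fun i =>
      P.kap_pos T m k hκ hh (hp ω hω i) _
    have a0 : 0 < T.qk t (P.val y none) (k ω) := by
      linarith [(T.qk_mem t (P.val y none) (k ω)).1]
    have : -G (k ω) y = log (T.qk t (P.val y none) (k ω)) - log (n ^ (d + 1)) +
        ∑ i, log (P.kap T m k κ h (k ω none) (k ω (some i)) (P.ed i y)) := by
      simp only [hG, sum_neg_distrib, log_pow]
      push_cast
      ring
    rw [this, exp_add, exp_sub, exp_log a0, exp_log (by positivity), exp_sum, Par.Qd, ← hn]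
    simp only [exp_log (a _)]
  have u1 := hUGB _ _ m k (vs d κ h) (P.Qd T m k κ h t) G hv (P.Qd_meas T m k κ h t)
    (P.Qd_nonneg T m k hκ hh t) (fun y => by
      have := qa y fun _ => 1
      simp only [one_mul, sum_const, card_univ, Fintype.card_fun, Fintype.card_option,
        Fintype.card_fin, nsmul_eq_mul, mul_one, Nat.cast_pow, ← hn] at this
      rw [this, div_self (by positivity)]) pG lq
  have u2 : ∀ j, m.en k (vs d κ h) - m.ent (vs d κ h) ≤ m.EM k (vs d κ h) G - ((d + 1) * log n +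
      (m.EM k (vs d κ h) (fun b y => log (P.J1 T m k κ h (b none).1 (P.ed j y))) -
        m.EM k (vs d κ h) (fun _ y => log ((P.edge m).den (P.ve κ h) (P.ed j y)))) +
      (d * (P.edge m).EM (P.kE m k) (P.ve κ h)
        (fun c e => log (P.J2 T m k κ h c.1.1 c.2.1 e)) -
        d * (P.edge m).EM (P.kE m k) (P.ve κ h) fun c e => log (P.J1 T m k κ h c.1.1 e))) := by
    intro j
    have q1 : ∀ i (b : Option (Fin d) → T.A),
        PG fun y => log (P.J1 T m k κ h (b none).1 (P.ed i y)) := fun i b =>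
      (p1 (b none, b none)).comp (P.PG_ed i)
    have q2 : ∀ i (b : Option (Fin d) → T.A),
        PG fun y => log (P.J2 T m k κ h (b none).1 (b (some i)).1 (P.ed i y)) := fun i b =>
      (p2 (b none, b (some i))).comp (P.PG_ed i)
    have q0 : PG fun y => log ((P.edge m).den (P.ve κ h) (P.ed j y)) := p0.comp (P.PG_ed j)
    have s1 := fun b => PG.sum univ fun i _ => q1 i b
    have s2 := fun b => PG.sum univ fun i _ => q2 i b
    have r1 := fun b => (q1 j b).sub q0
    have r2 := fun b => (PG.const ((d + 1) * log n)).add (r1 b)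
    have r3 := fun b => (s2 b).sub (s1 b)
    have r4 := fun b => (r2 b).add (r3 b)
    have dp := fun e => MIXx.den_pos (P.edge m) hve e
    have := (hUGB _ _ m k (vs d κ h) (fun b y => n ^ (d + 1) *
      (P.J1 T m k κ h (b none).1 (P.ed j y) / (P.edge m).den (P.ve κ h) (P.ed j y) *
        ∏ i, P.J2 T m k κ h (b none).1 (b (some i)).1 (P.ed i y) /
          P.J1 T m k κ h (b none).1 (P.ed i y)) * P.Qd T m k κ h t b y) _ hv
      (fun b => ((((P.JE_meas m k κ h _ _).comp (P.ed_meas j)).div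
        ((MIXx.den_cont _ _).measurable.comp (P.ed_meas j))).mul (Finset.measurable_prod _ fun i _ =>
          ((P.JE_meas m k κ h _ _).comp (P.ed_meas i)).div
            ((P.JE_meas m k κ h _ _).comp (P.ed_meas i)))).const_mul _ |>.mul
              (P.Qd_meas T m k κ h t b))
      (fun b y => mul_nonneg (mul_nonneg (by positivity) (mul_nonneg
        (div_nonneg (P.JE_nonneg m k hκ hh _ _ _) (dp _).le) (prod_nonneg fun i _ =>
          div_nonneg (P.JE_nonneg m k hκ hh _ _ _) (P.JE_nonneg m k hκ hh _ _ _))))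
        (P.Qd_nonneg T m k hκ hh t b y))
      (fun y => by
        rw [qa y fun w => n ^ (d + 1) *
          (P.J1 T m k κ h (w none) (P.ed j y) / (P.edge m).den (P.ve κ h) (P.ed j y) *
            ∏ i, P.J2 T m k κ h (w none) (w (some i)) (P.ed i y) /
              P.J1 T m k κ h (w none) (P.ed i y)), ← mul_sum, mul_div_cancel_left₀ _ (by positivity)]
        exact mass (fun p => P.J1 T m k κ h p (P.ed j y)) _ (dp _) (P.J1_sum T m k κ h _)
          (fun p => P.JE_nonneg m k hκ hh _ _ _) (fun i p => P.J1 T m k κ h p (P.ed i y))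
          (fun i p c => P.J2 T m k κ h p c (P.ed i y)) (fun i p => P.J2_sum T m k κ h p _)
          fun i p c => P.JE_nonneg m k hκ hh _ _ _)
      (fun b => (pG b).sub (r4 b)) fun ω hω y => by
        have a1 : ∀ i e, 0 < P.J1 T m k κ h (k ω none).1 e := fun i e =>
          Mix.jd_pos (P.edge m) (fun ω => (P.kE m k ω).1.1) hve (hp ω hω i) e
        have a2 : ∀ i e, 0 < P.J2 T m k κ h (k ω none).1 (k ω (some i)).1 e := fun i e =>
          Mix.jd_pos (P.edge m) (fun ω => ((P.kE m k ω).1.1, (P.kE m k ω).2.1)) hve (hp ω hω i) e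
        rw [lq ω hω y, neg_sub, sub_eq_add_neg, exp_add, exp_add, exp_add, exp_sub, exp_sub,
          exp_log (a1 j _), exp_log (dp _), exp_sum, exp_sum, ← prod_div_distrib,
          show ((d : ℝ) + 1) * log n = log (n ^ (d + 1)) by rw [log_pow]; push_cast; ring,
          exp_log (by positivity)]
        simp only [exp_log (a1 j _), exp_log (a2 _ _)]
        ring).1
    rwa [EM_sub m k hv pG r4, m.EM_add k hv r2 r3, m.EM_add k hv (fun _ => PG.const _) r1,
      m.EM_const k hv, EM_sub m k hv (q1 j) fun _ => q0, EM_sub m k hv s2 s1, m.EM_sum k hv _ q2,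
      m.EM_sum k hv _ q1, e1, e2] at this
  have u3 := sum_le_sum fun j (_ : j ∈ univ) => u2 j
  simp only [sum_sub_distrib, sum_add_distrib, sum_const, card_univ, Fintype.card_fin,
    nsmul_eq_mul] at u3
  rw [e1, e0] at u3
  have e3 : (P.edge m).Ex (P.ve κ h) (fun e => log ((P.edge m).den (P.ve κ h) e)) =
      -(P.edge m).ent (P.ve κ h) := by rw [Mix.ent, neg_neg]
  rw [e3] at u3
  rw [Par.HU, ← hn] at hg
  intro Φ hΦ
  refine (u1.2 e Φ he hΦ).trans ?_
  gcongr
  generalize m.EM k (vs d κ h) G = a at *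
  generalize m.en k (vs d κ h) = a1 at *
  generalize m.ent (vs d κ h) = a2 at *
  generalize (P.edge m).ent (P.ve κ h) = b2 at *
  generalize (P.edge m).en (P.kE m k) (P.ve κ h) = b1 at *
  generalize ((P.edge m).EM (P.kE m k) (P.ve κ h) fun c e => log (P.J1 T m k κ h c.1.1 e)) = L1 at *
  generalize ((P.edge m).EM (P.kE m k) (P.ve κ h)
    fun c e => log (P.J2 T m k κ h c.1.1 c.2.1 e)) = L2 at *
  generalize ((P.edge m).EM (P.kE m k) (P.ve κ h)
    fun c e => -log (P.kap T m k κ h c.1 c.2 e)) = Lk at *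
  have v1 : a1 - a2 ≤ a - ((d + 1) * log n + (L1 + b2) + (d * L2 - d * L1)) :=
    le_of_mul_le_mul_left (by linarith) (by linarith : (0 : ℝ) < d)
  have v2 := mul_le_mul_of_nonneg_left w1 (by linarith : (0 : ℝ) ≤ d)
  have v3 := mul_le_mul_of_nonneg_left w2 (by linarith : (0 : ℝ) ≤ d - 1)
  have v4 : (L2 + b2) / 2 ≤ g - log n := by linarith
  have v5 := mul_le_mul_of_nonneg_left v4 (by linarith : (0 : ℝ) ≤ d)
  linarith

end Pool.Agent.P.MP_6b977f_mp.RG
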