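import Pool.Agent.P.MP_6b977f_mp.RG.IfaceU

/-! Step UQA. -/

namespace Pool.Agent.P.MP_6b977f_mp.RG

open Finset MeasureTheory Real
open scoped Classical

namespace UQAx

variable {d : ℕ}

/-- marks from positions and payloads -/
def mk {T : Tr d} (w : Option (Fin d) → T.P) (u : Fin 4) (U : Fin d → Fin 4) :
    Option (Fin d) → T.A := fun o => (w o, o.elim u U)

theorem split (T : Tr d) (F : (Option (Fin d) → T.A) → ℂ) :
    ∑ b, F b = ∑ w, ∑ u, ∑ U, F (mk w u U) := by
  let e : (Option (Fin d) → T.P) × Fin 4 × (Fin d → Fin 4) ≃ (Option (Fin d) → T.A) :=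
    ⟨fun x => mk x.1 x.2.1 x.2.2, fun b => (fun o => (b o).1, (b none).2, fun i => (b (some i)).2),
      fun _ => rfl, fun b => funext fun o => by cases o <;> rfl⟩
  rw [← e.sum_comp, Fintype.sum_prod_type]
  exact sum_congr rfl fun w _ => Fintype.sum_prod_type _

theorem cd_sum {x : Fin 4 → ℝ} {y : ℝ} (h : ∑ u, x u = y) : ∑ u, cd (x u) y = 1 := by
  unfold cd
  split_ifs with e
  · simp
  · rw [← sum_div, h, div_self e]

theorem ind_sum {X Y : Type} (x p : X) (c : Y × Fin 4) (q : Y) :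
    ∑ u, ind ((x, c) = (p, (q, u))) = ind ((x, c.1) = (p, q)) := by
  obtain ⟨c, v⟩ := c
  rw [sum_eq_single v (fun u _ hu => ind_neg fun h => hu (by simp_all)) (by simp)]
  simp

variable (P : Par d) (T : Tr d) (m : Mix (SI d)) (k : m.Ω → Option (Fin d) → T.A) (κ h : ℝ)

theorem kap_sum (a : T.A) (q : T.P) (e : Fin 2 → ℝ) :
    ∑ u, P.kap T m k κ h a (q, u) e = 1 := by
  unfold Par.kap
  dsimp only
  split_ifs
  · refine cd_sum ?_
    simp only [Par.Jd, Par.J2, Par.JE, Mix.jd]
    rw [sum_comm]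
    exact sum_congr rfl fun ω _ => by rw [← sum_mul, ← sum_mul, ind_sum]
  · refine cd_sum ?_
    simp only [Par.Js, Par.JE, Mix.jd, id]
    rw [sum_comm]
    exact sum_congr rfl fun ω _ => by
      rw [← sum_mul, ← sum_mul, ← ind_sum (P.kE m k ω).1 a (P.kE m k ω).2 q]

theorem prod_one (w : Option (Fin d) → T.P) (u : Fin 4) (y : SI d → ℝ) :
    ∑ U : Fin d → Fin 4, ∏ i, P.kap T m k κ h (w none, u) (w (some i), U i) (P.ed i y) = 1 := by
  rw [← Fintype.prod_sum fun i v => P.kap T m k κ h (w none, u) (w (some i), v) (P.ed i y)]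
  exact prod_eq_one fun i _ => kap_sum P T m k κ h _ _ _

theorem prod_Am (w : Option (Fin d) → T.P) (u : Fin 4) (y : SI d → ℝ) :
    ∑ U : Fin d → Fin 4, T.Am (mk w u U) *
      (∏ i, P.kap T m k κ h (w none, u) (w (some i), U i) (P.ed i y) : ℝ) =
      P.Ab T m k κ h w y := by
  have e : ∀ U, T.Am (mk w u U) = if T.inner (w none) then
      if ∃ σ : Equiv.Perm (Fin d), ∀ i, w (some i) = T.nb (w none) (σ i) then
        ∏ i, if T.dep (w none) < T.dep (w (some i)) then z4 (U i) else 1 else 0 else 1 :=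
    fun _ => rfl
  simp only [e, Par.Ab]
  split_ifs
  · simp only [Complex.ofReal_prod, ← prod_mul_distrib]
    rw [← Fintype.prod_sum fun i v => (if T.dep (w none) < T.dep (w (some i)) then z4 v else 1) *
      (P.kap T m k κ h (w none, u) (w (some i), v) (P.ed i y) : ℂ)]
    refine prod_congr rfl fun i _ => ?_
    split_ifs with hd
    · simp only [Par.ub, Par.kap, if_pos hd]
    · simp only [one_mul, ← Complex.ofReal_sum, kap_sum, Complex.ofReal_one]
  · simp
  · simp only [one_mul, ← Complex.ofReal_sum, prod_one, Complex.ofReal_one]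

theorem Qd_sum (t : T.P → ℝ) (w : Option (Fin d) → T.P) (u : Fin 4) (y : SI d → ℝ) :
    ∑ U, P.Qd T m k κ h t (mk w u U) y = (1 + ((starRingEnd ℂ) (z4 u) *
      (Complex.exp (Complex.I * (t (w none) * P.val y none : ℝ)) * P.Ab T m k κ h w y)).re / 2) /
        4 / Fintype.card T.P ^ (d + 1) := by
  rw [← prod_Am P T m k κ h w u y, mul_sum, mul_sum, Complex.re_sum]
  conv_rhs => rw [← prod_one P T m k κ h w u y]
  rw [sum_div, ← sum_add_distrib, sum_div, sum_div]
  refine sum_congr rfl fun U _ => ?_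
  rw [← mul_assoc (Complex.exp _), ← mul_assoc _ (_ * _), Complex.re_mul_ofReal]
  change (1 + ((starRingEnd ℂ) (z4 u) *
    (Complex.exp (Complex.I * (t (w none) * P.val y none : ℝ)) * T.Am (mk w u U))).re / 2) / 4 /
      Fintype.card T.P ^ (d + 1) *
        ∏ i, P.kap T m k κ h (w none, u) (w (some i), U i) (P.ed i y) = _
  ring

theorem s1 (Z : ℂ) : ∑ u, (((1 + ((starRingEnd ℂ) (z4 u) * Z).re / 2) / 4 : ℝ) : ℂ) = 1 := by
  rw [← Complex.ofReal_sum, Complex.ofReal_eq_one]
  simp [Fin.sum_univ_four, z4, pow_succ]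
  ring

theorem s2 (Z : ℂ) :
    ∑ u, z4 u * (((1 + ((starRingEnd ℂ) (z4 u) * Z).re / 2) / 4 : ℝ) : ℂ) = Z / 4 := by
  rw [Fin.sum_univ_four]
  apply Complex.ext
  · simp only [Complex.add_re, Complex.re_mul_ofReal]
    simp [z4, pow_succ]
    ring
  · simp only [Complex.add_im, Complex.im_mul_ofReal]
    simp [z4, pow_succ]
    ring

end UQAx

open UQAx in
theorem p_UQA :
    S_UQA := by
  intro d P T m k κ h t y f _ _
  constructor
  · rw [split, sum_div]
    refine sum_congr rfl fun w _ => ?_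
    have e : ∀ u U, (fun o => (mk w u U o).1) = w := fun _ _ => rfl
    simp only [e, ← mul_sum, ← Complex.ofReal_sum, Qd_sum]
    rw [← sum_div, Complex.ofReal_div, Complex.ofReal_sum, s1]
    push_cast
    ring
  · rw [split, sum_div]
    refine sum_congr rfl fun w _ => ?_
    have e : ∀ u U, (fun o => (mk w u U o).1) = w := fun _ _ => rfl
    have e2 : ∀ u U, (mk w u U none).2 = u := fun _ _ => rfl
    simp only [e, e2, ← mul_sum, ← Complex.ofReal_sum, Qd_sum]
    simp only [Complex.ofReal_div _ ((Fintype.card T.P : ℝ) ^ (d + 1)), mul_assoc (f w),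
      ← mul_div_assoc (z4 _), ← mul_sum, ← sum_div, s2]
    push_cast
    ring

end Pool.Agent.P.MP_6b977f_mp.RG
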