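import Pool.Agent.P.MP_6b977f_mp.RG.IfaceU

/-! Step UQB. -/

namespace Pool.Agent.P.MP_6b977f_mp.RG

open Finset MeasureTheory Real
open scoped Classical

namespace UQBx

theorem cnt {d : ℕ} {X : Type} [Fintype X] (j : Fin d) (p p' : X) :
    ∑ w : Option (Fin d) → X, ((ind (w none = p ∧ w (some j) = p') : ℝ) : ℂ) =
      (Fintype.card X : ℂ) ^ (d - 1) := by
  let g : Option (Fin d) → X → ℂ := fun o x =>
    o.elim (if x = p then 1 else 0) fun i => if i = j then (if x = p' then 1 else 0) else 1
  have e : ∀ w : Option (Fin d) → X, ((ind (w none = p ∧ w (some j) = p') : ℝ) : ℂ) =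
      ∏ o, g o (w o) := fun w => by
    simp only [Fintype.prod_option, g, Option.elim, prod_ite_eq', mem_univ, if_true]
    by_cases h : w none = p <;> by_cases h' : w (some j) = p' <;> simp [h, h', ind]
  simp only [e]
  rw [← Fintype.piFinset_univ, ← prod_univ_sum, Fintype.prod_option,
    ← mul_prod_erase _ _ (mem_univ j),
    prod_congr rfl (g := fun _ => (Fintype.card X : ℂ)) fun i hi => by
      simp [g, ne_of_mem_erase hi]]
  simp [g, card_erase_of_mem]

theorem sumAb {d : ℕ} (P : Par d) (T : Tr d) (m : Mix (SI d)) (k : m.Ω → Option (Fin d) → T.A)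
    (κ h : ℝ) (y : SI d → ℝ) (c : T.P) (hc : T.inner c) (f : (Option (Fin d) → T.P) → ℂ)
    (hf : ∀ w, w none ≠ c → f w = 0) (E : T.P → ℂ) :
    ∑ w, f w * (E (w none) * P.Ab T m k κ h w y) = ∑ σ : Equiv.Perm (Fin d),
      f (fun o => o.elim c fun i => T.nb c (σ i)) * (E c * ∏ i, if T.dep c < T.dep (T.nb c (σ i))
        then P.ub T m k κ h c (T.nb c (σ i)) (P.ed i y) else 1) := by
  symm
  refine sum_of_injOn (fun (σ : Equiv.Perm (Fin d)) o => o.elim c fun i => T.nb c (σ i))
    (fun σ _ σ' _ e => Equiv.ext fun i => T.inj c hc (congrFun e (some i))) (fun _ _ => by simp)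
    (fun w _ hw => ?_) fun σ _ => ?_
  · by_cases e : w none = c
    · rw [Par.Ab, e, if_pos hc, if_neg, mul_zero, mul_zero]
      rintro ⟨σ, hσ⟩
      refine hw ⟨σ, by simp, funext fun o => ?_⟩
      cases o
      · exact e.symm
      · exact (hσ _).symm
    · rw [hf w e, zero_mul]
  · rw [Par.Ab]
    simp only [Option.elim]
    rw [if_pos hc, if_pos ⟨σ, fun _ => rfl⟩]

end UQBx

theorem p_UQB (hUQA : S_UQA) :
    S_UQB := by
  intro d P T m k κ h t y hκ hh
  have H := fun f => hUQA d P T m k κ h t y f hκ hh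
  have n0 : (Fintype.card T.P : ℂ) ≠ 0 := by
    have := T.card_pos
    exact_mod_cast (show Fintype.card T.P ≠ 0 from fun e => by rw [e] at this; norm_num at this)
  have hd : d + 1 = d - 1 + 2 := by have := P.hd; omega
  refine ⟨fun j p p' => ?_, fun j c p' hc => ?_, fun j c hc hr => ?_, ?_⟩
  · rw [(H fun w => (ind (w none = p ∧ w (some j) = p') : ℝ)).1, UQBx.cnt, hd, pow_add]
    field_simp
  · rw [(H fun w => (ind (w none = c ∧ w (some j) = p') : ℝ)).2, sum_congr rfl
      (g := fun w => ((ind (w none = c ∧ w (some j) = p') : ℝ) : ℂ) *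
        Complex.exp (Complex.I * (t c * P.val y none : ℝ))) fun w _ => ?_, ← sum_mul, UQBx.cnt, hd,
      pow_add]
    · field_simp
    · by_cases e : w none = c
      · rw [Par.Ab, e, if_neg hc, mul_one]
      · simp [ind, e]
  · rw [(H fun w => (ind (w none = c ∧ w (some j) = T.par c) : ℝ)).2,
      UQBx.sumAb P T m k κ h y c hc _ (fun w hw => by simp [ind, hw])
        fun x => Complex.exp (Complex.I * (t x * P.val y none : ℝ)), sum_filter]
    congr 1
    obtain ⟨h1, h2, i, hi⟩ := T.par_in c hr
    have hp : T.nb c (T.up c) = T.par c := by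
      have := T.ch_up _ i h1 (hi.symm ▸ h2) (hi.symm ▸ hc)
      rwa [hi] at this
    refine sum_congr rfl fun σ _ => ?_
    simp only [Option.elim, true_and]
    split_ifs with e
    · rw [ind_pos (by rw [e, hp]), ← mul_prod_erase _ _ (mem_univ j), e,
        if_neg (T.dep_up c hc hr).not_gt, one_mul, Complex.ofReal_one, one_mul]
      refine congrArg _ (prod_congr rfl fun i hi => if_pos (T.dep_ch c hc hr _ fun e' => ?_))
      exact ne_of_mem_erase hi (σ.injective (e'.trans e.symm))
    · rw [ind_neg fun e' => e (T.inj c hc (e'.trans hp.symm)), Complex.ofReal_zero, zero_mul]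
  · have := (H fun w => if w none = T.root then 1 else 0).2
    rw [UQBx.sumAb P T m k κ h y _ T.inner_root _ (fun w hw => if_neg hw)
      fun x => Complex.exp (Complex.I * (t x * P.val y none : ℝ))] at this
    simpa only [Tr.th, Option.elim, if_true, one_mul, T.dep_root, ite_mul, zero_mul] using this

end Pool.Agent.P.MP_6b977f_mp.RG
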