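import Pool.Agent.P.MP_6b977f_mp.RG.IfaceU

/-! Step UREC. -/

namespace Pool.Agent.P.MP_6b977f_mp.RG

open Finset MeasureTheory Real
open scoped Classical

namespace URECx

/-- induction from the leaves -/
theorem ind_up {d : ℕ} (T : Tr d) {C : T.P → Prop} (h : ∀ p, p ≠ T.root →
    (T.inner p → ∀ i ∈ univ.erase (T.up p), C (T.nb p i)) → C p) (p : T.P) : p ≠ T.root → C p :=
  (@Finite.wellFounded_of_trans_of_irrefl T.P _ (fun c p => T.dep p < T.dep c)
    ⟨fun _ _ _ h h' => h'.trans h⟩ ⟨fun _ => lt_irrefl _⟩).induction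
    (C := fun p => p ≠ T.root → C p) p fun p ih hp => h p hp fun k i hi =>
      have := T.dep_ch p k hp i (ne_of_mem_erase hi)
      ih _ this (T.ch_ne p i k this)

end URECx

theorem p_UREC (hURS : S_URS) (hURT : S_URT) :
    S_UREC := fun d T => by
  obtain ⟨C, C0, hC⟩ := hURS d T
  obtain ⟨D, D0, hD⟩ := hURT d T
  have h1 : ∀ c, c ≠ T.root → ∃ A : ℝ, 0 ≤ A ∧ ∀ (P : Par d) (m : Mix (SI d))
      (k : m.Ω → Option (Fin d) → T.A) (κ h : ℝ) (t al be Q cc : T.P → ℝ) (K e : ℝ),
      P.Gd T m k κ h t al be Q cc K e → P.er T m k κ h al be Q cc (T.par c) c ≤ A * e :=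
    URECx.ind_up T fun c hc ih => by
    by_cases hi : T.inner c
    · choose! A A0 hA using ih hi
      refine ⟨C * (1 + ∑ i ∈ univ.erase (T.up c), A i), mul_nonneg C0 (add_nonneg zero_le_one
        (sum_nonneg A0)), fun P m k κ h t al be Q cc K e g => (hC P m k κ h t al be Q cc K e g c
          hc).trans ?_⟩
      rw [mul_assoc, add_mul, sum_mul, one_mul, ind, if_pos hi, one_mul]
      gcongr with i hj
      have := hA i hj P m k κ h t al be Q cc K e g
      rwa [T.par_ch c i hi (T.dep_ch c hi hc i (ne_of_mem_erase hj))] at this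
    · exact ⟨C, C0, fun P m k κ h t al be Q cc K e g => by
        simpa [ind, hi] using hC P m k κ h t al be Q cc K e g c hc⟩
  choose A A0 hA using fun i => h1 _ (T.ch_ne _ i T.inner_root (T.dep_root i))
  refine ⟨D * (1 + ∑ i, A i), mul_nonneg D0 (add_nonneg zero_le_one (sum_nonneg fun i _ => A0 i)),
    fun P m k κ h t al be Q cc K e g => (hD P m k κ h t al be Q cc K e g).trans ?_⟩
  rw [mul_assoc, add_mul, sum_mul, one_mul]
  gcongr with i
  have := hA i P m k κ h t al be Q cc K e g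
  rwa [T.par_ch _ i T.inner_root (T.dep_root i)] at this

end Pool.Agent.P.MP_6b977f_mp.RG
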