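import Pool.Agent.P.MP_6b977f_mp.RG.IfaceU
import Pool.Agent.P.MP_6b977f_mp.RG.LibW

/-! Step URP. -/

namespace Pool.Agent.P.MP_6b977f_mp.RG

open Finset MeasureTheory Real
open scoped Classical

namespace URPx

theorem prod_sub {α : Type} (s : Finset α) {f g : α → ℂ} (hf : ∀ a ∈ s, ‖f a‖ ≤ 1)
    (hg : ∀ a ∈ s, ‖g a‖ ≤ 1) : ‖∏ a ∈ s, f a - ∏ a ∈ s, g a‖ ≤ ∑ a ∈ s, ‖f a - g a‖ := by
  induction s using Finset.induction_on with
  | empty => simp
  | insert a s ha ih =>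
    have h1 := ih (fun b hb => hf b (mem_insert_of_mem hb)) fun b hb => hg b (mem_insert_of_mem hb)
    have h2 : ‖∏ b ∈ s, g b‖ ≤ 1 := by
      rw [norm_prod]
      exact prod_le_one (fun _ _ => norm_nonneg _) fun b hb => hg b (mem_insert_of_mem hb)
    rw [prod_insert ha, prod_insert ha, sum_insert ha,
      show ∀ x y z w : ℂ, x * y - z * w = (x - z) * w + x * (y - w) from fun x y z w => by ring]
    refine (norm_add_le _ _).trans (add_le_add ?_ ?_) <;> rw [norm_mul]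
    · exact mul_le_of_le_one_right (norm_nonneg _) h2
    · exact (mul_le_of_le_one_left (norm_nonneg _) (hf a (mem_insert_self _ _))).trans h1

theorem port {d : ℕ} (P : Par d) (m : Mix (SI d)) {κ h : ℝ} (hκ : 0 < κ) (ht : 0 ≤ h)
    {g : (Fin 2 → ℝ) → ℝ} (hg : PG g) (h0 : ∀ e, 0 ≤ g e) (i : Fin d) :
    m.Ex (vs d κ h) (fun y => g (P.ed i y)) ≤ d * (P.edge m).Ex (P.ve κ h) g := by
  rw [← (p_EP (p_PUSH p_KER) (p_MIX p_KER) d P m κ h hκ ht).1 g hg]
  exact single_le_sum (f := fun i => m.Ex (vs d κ h) fun y => g (P.ed i y))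
    (fun j _ => integral_nonneg fun y =>
      mul_nonneg (h0 _) (MIXx.den_pos m (EPx.vs_pos d hκ ht) y).le) (mem_univ i)

end URPx

open URPx in
theorem p_URP :
    S_URP := by
  intro d P T m k κ h t al be Q cc K e p c I Ψ G hc hΨ
  have hv := EPx.vs_pos d G.k0 G.h0
  have hI := (p_MIX p_KER _ m _ hv).2.2.2.2.2.2
  have a1 : ∀ i ∈ I, MB 1 fun z => (cc (c i) : ℂ) * P.gE (al (c i)) (be (c i)) (Q (c i)) z :=
    fun i hi => by
      obtain ⟨-, -, b1, b2, b3⟩ := G.bd _ (hc i hi)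
      exact (MB.const _ (by rwa [Complex.norm_real, norm_eq_abs, abs_of_nonneg b2])).mul1
        (P.MB_gE _ _ b1)
  have a2 := fun i => P.MB_ub T m k G.k0 G.h0 p (c i)
  have a3 : MB 1 fun y => Complex.exp (Complex.I * (t p * P.val y none : ℝ)) :=
    MB.eI ((P.PG_val none).cmul _).1
  have a4 : ∀ i ∈ I, PG fun z => ‖P.ub T m k κ h p (c i) z -
      cc (c i) * P.gE (al (c i)) (be (c i)) (Q (c i)) z‖ := fun i hi => ((a2 i).sub (a1 i hi)).norm
  have e1 : ∀ y, (((∏ i ∈ I, cc (c i)) * exp (-(∑ i ∈ I, Q (c i)) / 2) : ℝ) : ℂ) *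
      (Ψ y * ch (t p + ∑ i ∈ I, be (c i)) (fun i => if i ∈ I then al (c i) else 0) (P.val y) *
        (m.den (vs d κ h) y : ℝ)) = Ψ y * (Complex.exp (Complex.I * (t p * P.val y none : ℝ)) *
      ∏ i ∈ I, (cc (c i) : ℂ) * P.gE (al (c i)) (be (c i)) (Q (c i)) (P.ed i y)) *
        (m.den (vs d κ h) y : ℝ) := fun y => by
    simp only [P.gE_ed, prod_mul_distrib, ← Complex.exp_sum, ← Complex.ofReal_prod, ← exp_sum, ch,
      ite_mul, zero_mul, sum_ite_mem, univ_inter, ← mul_sum, ← Complex.ofReal_sum,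
      sum_add_distrib, ← sum_mul, ← sum_div, sum_neg_distrib]
    rw [add_mul, add_assoc, Complex.ofReal_add, mul_add, Complex.exp_add, add_comm,
      Complex.ofReal_mul]
    ring
  rw [← integral_const_mul]
  simp only [e1]
  have i1 := hΨ.mul1 (a3.mul1 (MB.prod I fun i _ => (a2 i).comp (P.ed_meas i)))
  have i2 := hΨ.mul1 (a3.mul1 (MB.prod I fun i hi => (a1 i hi).comp (P.ed_meas i)))
  rw [← integral_sub (i1.intb (m.den_intb hv)) (i2.intb (m.den_intb hv))]
  simp only [← sub_mul]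
  refine (m.norm_int_le hv _).trans ?_
  have a5 : ∀ i ∈ I, _ := fun i hi => (a4 i hi).comp (P.PG_ed i)
  calc _ ≤ m.Ex (vs d κ h) fun y => ∑ i ∈ I, ‖P.ub T m k κ h p (c i) (P.ed i y) -
          cc (c i) * P.gE (al (c i)) (be (c i)) (Q (c i)) (P.ed i y)‖ := by
        refine integral_mono (hI _ (i1.sub i2).norm).1 (hI _ (PG.sum I a5)).1 fun y =>
          mul_le_mul_of_nonneg_right ?_ (MIXx.den_pos m hv y).le
        beta_reduce
        rw [← mul_sub, ← mul_sub, norm_mul, norm_mul]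
        exact (mul_le_of_le_one_left (by positivity) (hΨ.2 y)).trans
          ((mul_le_of_le_one_left (norm_nonneg _) (a3.2 y)).trans
            (prod_sub I (fun i _ => (a2 i).2 _) fun i hi => (a1 i hi).2 _))
    _ = ∑ i ∈ I, m.Ex (vs d κ h) fun y => ‖P.ub T m k κ h p (c i) (P.ed i y) -
          cc (c i) * P.gE (al (c i)) (be (c i)) (Q (c i)) (P.ed i y)‖ := by
        simp only [Mix.Ex, sum_mul]
        exact integral_finsetSum _ fun i hi => (hI _ (a5 i hi)).1
    _ ≤ _ := by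
        rw [mul_sum]
        exact sum_le_sum fun i hi => port P m G.k0 G.h0 (a4 i hi) (fun _ => norm_nonneg _) i

end Pool.Agent.P.MP_6b977f_mp.RG
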