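import Pool.Agent.P.MP_6b977f_mp.RG.IfaceU
import Pool.Agent.P.MP_6b977f_mp.RG.LibW

/-! Step URT. -/

namespace Pool.Agent.P.MP_6b977f_mp.RG

open Finset MeasureTheory Real
open scoped Classical

namespace URTx

theorem one (hURP : S_URP) {d : ℕ} {T : Tr d} {P : Par d} {m : Mix (SI d)}
    {k : m.Ω → Option (Fin d) → T.A} {κ h : ℝ} {t al be Q cc : T.P → ℝ} {K e : ℝ}
    (G : P.Gd T m k κ h t al be Q cc K e) (σ : Equiv.Perm (Fin d)) :
    ‖(∫ y, (Complex.exp (Complex.I * (t T.root * P.val y none : ℝ)) *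
      ∏ i, P.ub T m k κ h T.root (T.nb T.root (σ i)) (P.ed i y)) * (m.den (vs d κ h) y : ℝ)) -
      ((∏ i, cc (T.nb T.root i)) * exp (-T.V P.lam t al be Q / 2) : ℝ)‖ ≤
      d * ∑ i, P.er T m k κ h al be Q cc T.root (T.nb T.root i) + e := by
  have hne : ∀ i, T.nb T.root i ≠ T.root := fun i => T.ch_ne _ i T.inner_root (T.dep_root i)
  have h1 := hURP d P T m k κ h t al be Q cc K e T.root (fun i => T.nb T.root (σ i)) univ
    (fun _ => 1) G (fun i _ => hne _) (MB.const _ (by simp))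
  simp only [one_mul, mem_univ, if_true] at h1
  rw [Equiv.sum_comp σ fun i => P.er T m k κ h al be Q cc T.root (T.nb T.root i),
    Equiv.sum_comp σ fun i => Q (T.nb T.root i), Equiv.sum_comp σ fun i => be (T.nb T.root i),
    Equiv.prod_comp σ fun i => cc (T.nb T.root i)] at h1
  have hK : 0 ≤ K := (abs_nonneg _).trans (G.bt T.root)
  have h2 := G.chh (t T.root + ∑ i, be (T.nb T.root i)) (fun i => al (T.nb T.root (σ i)))
    (by
      refine (abs_add_le _ _).trans ?_
      have h3 : |∑ i, be (T.nb T.root i)| ≤ d * K := by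
        refine (abs_sum_le_sum_abs _ _).trans ((sum_le_card_nsmul _ _ K
          fun i _ => (G.bd _ (hne i)).2.1).trans_eq ?_)
        simp
      have := G.bt T.root
      linarith)
    (fun i => (G.bd _ (hne _)).1.trans (by
      have : (0 : ℝ) ≤ d * K := by positivity
      linarith))
  have h3 : cov d P.lam (t T.root + ∑ i, be (T.nb T.root i)) (fun i => al (T.nb T.root (σ i))) =
      cov d P.lam (t T.root + ∑ i, be (T.nb T.root i)) fun i => al (T.nb T.root i) := by
    simp only [cov]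
    rw [Equiv.sum_comp σ fun i => al (T.nb T.root i),
      Equiv.sum_comp σ fun i => al (T.nb T.root i) ^ 2]
  rw [h3] at h2
  set a : ℝ := (∏ i, cc (T.nb T.root i)) * exp (-(∑ i, Q (T.nb T.root i)) / 2) with ha
  have ha0 : 0 ≤ a := mul_nonneg (prod_nonneg fun i _ => (G.bd _ (hne i)).2.2.2.1) (exp_pos _).le
  have ha1 : a ≤ 1 := mul_le_one₀
    (prod_le_one (fun i _ => (G.bd _ (hne i)).2.2.2.1) fun i _ => (G.bd _ (hne i)).2.2.2.2)
    (exp_pos _).le (exp_le_one_iff.2 (by
      have : 0 ≤ ∑ i, Q (T.nb T.root i) := sum_nonneg fun i _ => (G.bd _ (hne i)).2.2.1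
      linarith))
  have h4 : (∏ i, cc (T.nb T.root i)) * exp (-T.V P.lam t al be Q / 2) = a * exp
      (-cov d P.lam (t T.root + ∑ i, be (T.nb T.root i)) (fun i => al (T.nb T.root i)) / 2) := by
    rw [ha, mul_assoc, ← exp_add, Tr.V]
    congr 2
    ring
  rw [h4, Complex.ofReal_mul a]
  refine (norm_sub_le_norm_sub_add_norm_sub _ _ _).trans (add_le_add h1 ?_)
  rw [← mul_sub, norm_mul, Complex.norm_real, norm_eq_abs, abs_of_nonneg ha0]
  exact (mul_le_of_le_one_left (norm_nonneg _) ha1).trans h2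

end URTx

theorem p_URT (hUQB : S_UQB) (hURP : S_URP) :
    S_URT := by
  intro d T
  refine ⟨1 + d.factorial * (d + 1), by positivity, fun P m k κ h t al be Q cc K e G => ?_⟩
  have hv := EPx.vs_pos d G.k0 G.h0
  have h1 := G.tv (fun b _ => T.th (b none)) fun b => MB.const _ (by
    unfold Tr.th
    split_ifs <;> simp [norm_z4])
  have he : 0 ≤ e := (norm_nonneg _).trans h1
  simp only [fun y => (hUQB d P T m k κ h t y G.k0 G.h0).2.2.2] at h1
  set S := ∑ i, P.er T m k κ h al be Q cc T.root (T.nb T.root i) with hS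
  have hS0 : 0 ≤ S := sum_nonneg fun i _ => P.er_nonneg T m k G.k0 G.h0 _ _ _ _ _ _
  have hM : ∀ σ : Equiv.Perm (Fin d), MB 1 fun y =>
      Complex.exp (Complex.I * (t T.root * P.val y none : ℝ)) *
        ∏ i, P.ub T m k κ h T.root (T.nb T.root (σ i)) (P.ed i y) := fun σ =>
    (MB.eI ((P.PG_val none).cmul _).1).mul1
      (MB.prod _ fun i _ => (P.MB_ub T m k G.k0 G.h0 _ _).comp (P.ed_meas i))
  simp only [div_mul_eq_mul_div, sum_mul] at h1
  rw [integral_div, integral_finsetSum _ fun σ _ => (hM σ).intb (m.den_intb hv)] at h1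
  have hN : (1 : ℝ) ≤ 4 * (Fintype.card T.P : ℝ) ^ (d + 1) := by
    have := one_le_pow₀ (n := d + 1) T.card_pos
    linarith
  have h2 : ((T.c0 cc * exp (-T.V P.lam t al be Q / 2) : ℝ) : ℂ) = (∑ _σ : Equiv.Perm (Fin d),
      (((∏ i, cc (T.nb T.root i)) * exp (-T.V P.lam t al be Q / 2) : ℝ) : ℂ)) /
        (4 * Fintype.card T.P ^ (d + 1)) := by
    rw [sum_const, card_univ, Fintype.card_perm, Fintype.card_fin, nsmul_eq_mul, Tr.c0]
    push_cast
    ring
  refine (norm_sub_le_norm_sub_add_norm_sub _ _ _).trans ((add_le_add h1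
    (b := _) (d := d.factorial * (d * S + e)) ?_).trans ?_)
  · rw [h2, ← sub_div, ← sum_sub_distrib, norm_div]
    have h3 : ‖(4 * Fintype.card T.P ^ (d + 1) : ℂ)‖ = 4 * (Fintype.card T.P : ℝ) ^ (d + 1) := by
      simp
    rw [h3]
    refine (div_le_self (norm_nonneg _) hN).trans ((norm_sum_le _ _).trans
      ((sum_le_card_nsmul _ _ _ fun σ _ => URTx.one hURP G σ).trans_eq ?_))
    rw [card_univ, Fintype.card_perm, Fintype.card_fin, nsmul_eq_mul]
  · have h4 : (0 : ℝ) ≤ d.factorial * S := by positivity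
    have h5 : (0 : ℝ) ≤ d.factorial * d * e := by positivity
    nlinarith

end Pool.Agent.P.MP_6b977f_mp.RG
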