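import Pool.Agent.P.MP_6b977f_mp.RG.IfaceU

/-! Step USW. -/

namespace Pool.Agent.P.MP_6b977f_mp.RG

open Finset MeasureTheory Real
open scoped Classical

namespace USWx
variable {ι : Type} [Fintype ι] (m : Mix ι) {v : ι → ℝ} {B : Type}

theorem gibbs [Fintype B] (hUGB : S_UGB) (k : m.Ω → B) (hv : ∀ j, 0 < v j)
    (r L : B → (ι → ℝ) → ℝ) (h1 : ∀ b, Measurable (r b)) (h2 : ∀ b y, 0 ≤ r b y)
    (h3 : ∀ y, ∑ b, r b y = m.den v y) (h4 : ∀ b, PG (L b))
    (h5 : ∀ ω, 0 < m.p ω → ∀ y, r (k ω) y = exp (L (k ω) y)) : m.EM k v L + m.en k v ≤ 0 := by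
  have hd := MIXx.den_pos m hv
  have hl := MIXx.pg_log m hv
  have := (hUGB ι B m k v (fun b y => r b y / m.den v y)
    (fun b y => log (m.den v y) + -1 * L b y) hv
    (fun b => (h1 b).div (MIXx.den_cont m v).measurable)
    (fun b y => div_nonneg (h2 b y) (hd y).le)
    (fun y => by rw [← sum_div, h3, div_self (hd y).ne'])
    (fun b => hl.add ((h4 b).cmul _)) fun ω hω y => by
      rw [h5 ω hω, neg_add, neg_one_mul, neg_neg, exp_add, exp_neg, exp_log (hd y)]
      ring).1
  rw [m.EM_add k hv (fun _ => hl) fun b => (h4 b).cmul _, m.EM_mul, m.EM_Ex k hv hl,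
    Mix.ent] at this
  linarith

theorem EM_congr (k : m.Ω → B) {G H : B → (ι → ℝ) → ℝ}
    (h : ∀ ω, 0 < m.p ω → ∀ y, G (k ω) y = H (k ω) y) : m.EM k v G = m.EM k v H :=
  sum_congr rfl fun ω _ => by
    rcases (m.p0 ω).eq_or_lt with e | e
    · rw [← e, zero_mul, zero_mul]
    · simp only [h ω e]

theorem split {C U : Type} [Fintype U] (k : m.Ω → B) (k' : m.Ω → C) (g : m.Ω → U) (φ : U → C)
    (b : B) (H : ∀ ω u, k' ω = φ u ↔ k ω = b ∧ g ω = u) (y : ι → ℝ) :
    ∑ u, m.jd k' v (φ u) y = m.jd k v b y := by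
  simp only [Mix.jd]
  rw [sum_comm]
  refine sum_congr rfl fun ω _ => ?_
  rw [sum_eq_single (g ω) (fun u _ hu => by
    rw [ind_neg fun e => hu ((H ω u).1 e).2.symm, zero_mul, zero_mul]) (by simp)]
  simp only [H, and_true]

theorem PG_ite {c : Prop} [Decidable c] {f g : (ι → ℝ) → ℝ} (hf : PG f) (hg : PG g) :
    PG fun y => if c then f y else g y := by split_ifs <;> assumption

theorem log_cd {x y : ℝ} (hx : 0 < x) (hy : 0 < y) : log (cd x y) = log x - log y := by
  rw [cd, if_neg hy.ne', log_div hx.ne' hy.ne']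

end USWx

open USWx in
theorem p_USW (hUGB : S_UGB) :
    S_USW := by
  intro d P T m k κ h hs hκ hh
  have hv := P.ve_pos hκ hh
  have pg : ∀ {C : Type} (f : T.A × T.A → C) (c : C), PG fun e => log (P.JE m k κ h f c e) :=
    fun f c => (P.edge m).pg_log_jd _ hv c
  have ps : ∀ {C : Type} (f : T.A × T.A → C) {ω}, 0 < (P.edge m).p ω → ∀ e,
      0 < P.JE m k κ h f (f (P.kE m k ω)) e := fun f ω hω e =>
    (P.edge m).jd_pos (fun ω => f (P.kE m k ω)) hv hω e
  have nn : ∀ {C : Type} (f : T.A × T.A → C) (c : C) e, 0 ≤ P.JE m k κ h f c e :=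
    fun f c e => (P.edge m).jd_nonneg _ hv c e
  have ms : ∀ {C : Type} (f : T.A × T.A → C) (c : C), Measurable (P.JE m k κ h f c) :=
    fun f c => ((P.edge m).jd_cont _ _ c).measurable
  constructor
  · set J := P.JE m k κ h id
    set J2 := P.JE m k κ h fun c => (c.1.1, c.2.1)
    set Jd := P.JE m k κ h fun c => (c.1.1, c.2)
    set Js := P.JE m k κ h fun c => (c.1, c.2.1)
    have s1 : ∀ p p' e, ∑ u, Js ((p, u), p') e = J2 (p, p') e := fun p p' =>
      split (P.edge m) _ _ (fun ω => (P.kE m k ω).1.2) (fun u => ((p, u), p')) _ fun ω u => by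
        simp only [Prod.ext_iff]; tauto
    have s2 : ∀ p p' e, ∑ u, Jd (p, (p', u)) e = J2 (p, p') e := fun p p' =>
      split (P.edge m) _ _ (fun ω => (P.kE m k ω).2.2) (fun u => (p, (p', u))) _ fun ω u => by
        simp only [Prod.ext_iff]; tauto
    have s3 : ∀ a p' e, ∑ u, J (a, (p', u)) e = Js (a, p') e := fun a p' =>
      split (P.edge m) _ _ (fun ω => (P.kE m k ω).2.2) (fun u => (a, (p', u))) _ fun ω u => by
        simp only [Prod.ext_iff, id]; tauto
    have pL : ∀ c : T.A × T.A, PG fun e => if T.dep c.1.1 = T.dep c.2.1 then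
        log (Js (c.1, c.2.1) e) + log (Jd (c.1.1, c.2) e) - log (J2 (c.1.1, c.2.1) e)
        else log (J c e) := fun c => PG_ite (((pg _ _).add (pg _ _)).sub (pg _ _)) (pg _ _)
    have g := gibbs (P.edge m) hUGB (P.kE m k) hv
      (fun c e => if T.dep c.1.1 = T.dep c.2.1 then
        Js (c.1, c.2.1) e * Jd (c.1.1, c.2) e / J2 (c.1.1, c.2.1) e else J c e) _
      (fun c => by
        split_ifs
        exacts [((ms _ _).mul (ms _ _)).div (ms _ _), ms _ _])
      (fun c e => by
        split_ifs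
        exacts [div_nonneg (mul_nonneg (nn _ _ _) (nn _ _ _)) (nn _ _ _), nn _ _ _])
      (fun e => by
        rw [← (P.edge m).jd_sum fun ω => ((P.kE m k ω).1.1, (P.kE m k ω).2.1)]
        simp only [Fintype.sum_prod_type]
        refine sum_congr rfl fun p _ => sum_comm.trans (sum_congr rfl fun p' _ => ?_)
        change _ = J2 (p, p') e
        split_ifs
        · simp only [← sum_div, ← mul_sum, ← sum_mul, s1, s2, mul_self_div_self]
        · simp only [s3, s1])
      pL fun ω hω e => by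
        split_ifs
        · rw [exp_sub, exp_add, exp_log (ps _ hω e), exp_log (ps _ hω e), exp_log (ps _ hω e)]
        · exact (exp_log (ps id hω e)).symm
    have e1 := EM_congr (P.edge m) (v := P.ve κ h) (P.kE m k)
      (G := fun c e => -log (P.kap T m k κ h c.1 c.2 e))
      (H := fun c e => if T.dep c.1.1 < T.dep c.2.1 then
        log (J2 (c.1.1, c.2.1) e) - log (Jd (c.1.1, c.2) e)
        else log (Js (c.1, c.2.1) e) - log (J c e)) fun ω hω e => by
          unfold Par.kap
          split_ifs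
          · exact (congrArg _ (log_cd (ps _ hω e) (ps _ hω e))).trans (neg_sub _ _)
          · exact (congrArg _ (log_cd (ps id hω e) (ps _ hω e))).trans (neg_sub _ _)
    have e2 := e1.trans (hs.EM_R _ _)
    have r : ∀ (c : T.A × T.A) e, J2 (c.2.1, c.1.1) (PMx.R e) = J2 (c.1.1, c.2.1) e ∧
        Jd (c.2.1, c.1) (PMx.R e) = Js (c.1, c.2.1) e ∧
        Js (c.2, c.1.1) (PMx.R e) = Jd (c.1.1, c.2) e ∧ J c.swap (PMx.R e) = J c e := fun c e => by
      simp only [J, J2, Jd, Js, hs.JE_R]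
      simp only [Par.JE, Mix.jd, Prod.ext_iff, Prod.fst_swap, Prod.snd_swap, id, and_comm,
        and_self]
    simp only [Prod.fst_swap, Prod.snd_swap, r] at e2
    rw [two_mul]
    nth_rw 1 [e1]
    rw [e2, ← (P.edge m).EM_add _ hv (fun c => PG_ite ((pg _ _).sub (pg _ _))
      ((pg _ _).sub (pg _ _))) fun c => PG_ite ((pg _ _).sub (pg _ _)) ((pg _ _).sub (pg _ _)),
      EM_congr (P.edge m) (P.kE m k) (H := fun c e => (if T.dep c.1.1 = T.dep c.2.1 then
        log (Js (c.1, c.2.1) e) + log (Jd (c.1.1, c.2) e) - log (J2 (c.1.1, c.2.1) e)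
        else log (J c e)) + -2 * log (J c e) + log (J2 (c.1.1, c.2.1) e)) fun ω _ e => by
          split_ifs <;> first | ring1 | omega,
      (P.edge m).EM_add _ hv (fun c => (pL c).add ((pg _ _).cmul _)) fun c => pg _ _,
      (P.edge m).EM_add _ hv pL fun c => (pg _ _).cmul _, Mix.EM_mul]
    change _ + -2 * (P.edge m).EM (P.kE m k) (P.ve κ h)
      (fun b y => log ((P.edge m).jd (P.kE m k) (P.ve κ h) b y)) + _ ≤ _
    rw [Mix.en] at g ⊢
    exact add_le_add (by linarith) le_rfl
  · have hd := MIXx.den_pos (P.edge m) hv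
    have hl := MIXx.pg_log (P.edge m) hv
    have g := gibbs (P.edge m) hUGB (fun ω => ((P.kE m k ω).1.1, (P.kE m k ω).2.1)) hv
      (fun c e => P.JE m k κ h (fun a => a.1.1) c.1 e * P.JE m k κ h (fun a => a.2.1) c.2 e /
        (P.edge m).den (P.ve κ h) e)
      (fun c e => log (P.JE m k κ h (fun a => a.1.1) c.1 e) +
        log (P.JE m k κ h (fun a => a.2.1) c.2 e) + -1 * log ((P.edge m).den (P.ve κ h) e))
      (fun c => ((ms _ _).mul (ms _ _)).div (MIXx.den_cont _ _).measurable)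
      (fun c e => div_nonneg (mul_nonneg (nn _ _ _) (nn _ _ _)) (hd e).le)
      (fun e => by
        simp only [Fintype.sum_prod_type, ← sum_div, ← mul_sum, ← sum_mul, Par.JE, Mix.jd_sum,
          mul_self_div_self])
      (fun c => ((pg _ _).add (pg _ _)).add (hl.cmul _)) fun ω hω e => by
        rw [exp_add, exp_add, exp_log (ps (fun a => a.1.1) hω e),
          exp_log (ps (fun a => a.2.1) hω e), neg_one_mul, exp_neg, exp_log (hd e), div_eq_mul_inv]
    rw [(P.edge m).EM_add _ hv (fun c => (pg _ _).add (pg _ _)) fun _ => hl.cmul _,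
      (P.edge m).EM_add _ hv (fun c => pg _ _) fun c => pg _ _, Mix.EM_mul,
      (P.edge m).EM_Ex _ hv hl] at g
    have e := hs.EM_R (P.ve κ h) fun c e => log (P.JE m k κ h (fun a => a.1.1) c.1.1 e)
    simp only [hs.JE_R] at e
    change (P.edge m).EM (P.kE m k) (P.ve κ h) (fun c e => log (P.J1 T m k κ h c.1.1 e)) +
      (P.edge m).EM (P.kE m k) (P.ve κ h)
        (fun c e => log (P.JE m k κ h (fun a => a.swap.1.1) c.swap.1.1 e)) + _ +
      -(P.edge m).EM (P.kE m k) (P.ve κ h)
        (fun c e => log (P.J2 T m k κ h c.1.1 c.2.1 e)) ≤ _ at g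
    rw [← e] at g
    rw [Mix.ent]
    unfold Par.J1 at g ⊢
    linarith

end Pool.Agent.P.MP_6b977f_mp.RG
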