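import Pool.Agent.P.MP_6b977f_mp.RG.IfaceU
import Pool.Agent.P.MP_6b977f_mp.RG.TLSYM

/-! Step USY. -/

namespace Pool.Agent.P.MP_6b977f_mp.RG

open Finset MeasureTheory Real
open scoped Classical

namespace USYx

end USYx

theorem p_USY :
    S_USY := by
  intro d P A μ vl mk δ K hs g
  have hd : (d : ℝ) ≠ 0 := by have := P.d3; positivity
  have hd0 : 0 < d := by have := P.hd; omega
  let G : ℤ → ℤ → ℝ := fun a b => (∑ u : Option (Fin d) → Fin (K + 1),
    g (mk a) (mk b) (δ * (vl a + (u none : ℕ) / (K + 1 : ℝ)))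
      (δ * (vl b + (u (some ⟨0, hd0⟩) : ℕ) / (K + 1 : ℝ)))) / (K + 1) ^ (d + 1)
  have key : ∀ o1 o2 : Option (Fin d), o1 ≠ o2 →
      ∑ ω, (P.mixU μ vl δ K).p ω * g (P.kU μ vl δ K mk ω o1) (P.kU μ vl δ K mk ω o2)
        (P.val ((P.mixU μ vl δ K).x ω) o1) (P.val ((P.mixU μ vl δ K).x ω) o2) =
        ∑ s ∈ μ.A, μ.p s * G (s o1) (s o2) := by
    intro o1 o2 ho
    rw [← Finset.sum_coe_sort μ.A]
    show ∑ ω : μ.A × (Option (Fin d) → Fin (K + 1)), μ.p ω.1 / (K + 1) ^ (d + 1) *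
      g (mk (ω.1.1 o1)) (mk (ω.1.1 o2))
        (P.val (P.wh fun o => δ * (vl (ω.1.1 o) + (ω.2 o : ℕ) / (K + 1 : ℝ))) o1)
        (P.val (P.wh fun o => δ * (vl (ω.1.1 o) + (ω.2 o : ℕ) / (K + 1 : ℝ))) o2) = _
    simp only [P.val_wh]
    rw [Fintype.sum_prod_type]
    refine sum_congr rfl fun s _ => ?_
    have := LSYMx.pair_sum (ι := Option (Fin d)) (α := Fin (K + 1))
      (fun x y => g (mk (s.1 o1)) (mk (s.1 o2)) (δ * (vl (s.1 o1) + (x : ℕ) / (K + 1 : ℝ)))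
        (δ * (vl (s.1 o2) + (y : ℕ) / (K + 1 : ℝ))))
      (a := none) (b := some ⟨0, hd0⟩) (c := o1) (e := o2) (by simp) ho
    simp only [G]
    rw [← this, ← mul_sum]
    ring
  have e1 := fun i : Fin d => key none (some i) (by simp)
  have e2 := fun i : Fin d => key (some i) none (by simp)
  simp only [e1, e2]
  rw [sum_comm, sum_comm (s := (univ : Finset (Fin d)))]
  simp only [← mul_sum]
  exact LSYMx.law_sym hd μ hs G

end Pool.Agent.P.MP_6b977f_mp.RG
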