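import Pool.Agent.P.MP_6b977f_mp.RG.IfaceU

/-! Step UXI. -/

namespace Pool.Agent.P.MP_6b977f_mp.RG

open Finset MeasureTheory Real
open scoped Classical

theorem p_UXI :
    S_UXI := by
  intro d P m ξ e e0
  have h3 := P.d3
  have r3 := P.r_ge
  have r0 := P.r_pos
  have d1 : (0 : ℝ) < d - 1 := by linarith
  have z : P.zt (ξ none) (fun i => (d - 1) / (d * P.r) * P.ci i ξ) = ξ := by
    funext j
    cases j with
    | none => simp only [Par.zt, Option.elim, ← mul_sum, P.sum_ci, mul_zero, add_zero]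
    | some k =>
      simp only [Par.zt, Option.elim, mul_assoc, ← mul_sum, mul_comm (P.ci _ ξ), P.sum_e_ci]
      field_simp
  have b : |ξ none| + ∑ i : Fin d, |(d - 1) / (d * P.r) * P.ci i ξ| ≤ 4 * d ^ 2 * ‖ξ‖ := by
    have a : (d - 1) / (d * P.r) ≤ (3 : ℝ) := by
      rw [div_le_iff₀ (by positivity)]; nlinarith
    have c : ∑ i : Fin d, |(d - 1) / (d * P.r) * P.ci i ξ| ≤ ∑ _i : Fin d, 3 * (d * ‖ξ‖) :=
      sum_le_sum fun i _ => by
        rw [abs_mul, abs_of_pos (by positivity)]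
        exact mul_le_mul a (P.abs_ci i ξ) (abs_nonneg _) (by norm_num)
    rw [sum_const, card_univ, Fintype.card_fin, nsmul_eq_mul] at c
    have f : |ξ none| ≤ ‖ξ‖ := norm_le_pi_norm ξ none
    have g : ‖ξ‖ ≤ d ^ 2 * ‖ξ‖ := le_mul_of_one_le_left (norm_nonneg _) (by nlinarith)
    linarith
  refine ⟨ξ none, _, b, by rw [← P.zt_nq, z]; rfl, ?_⟩
  rw [norm_sub_rev]
  refine (m.norm_sub_le (f' := fun y => H43.ch ξ (vp y))
    (f := fun y => ch (ξ none) (fun i => (d - 1) / (d * P.r) * P.ci i ξ) (P.val y))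
    (g := fun y => 4 * d ^ 2 * ‖ξ‖ * (e + 1 / e * y none ^ 2)) fun y => ?_).trans ?_
  · have := P.zt_ch (ξ none) (fun i => (d - 1) / (d * P.r) * P.ci i ξ) y
    rw [z] at this
    refine this.trans (mul_le_mul b ?_ (abs_nonneg _) (by positivity))
    rw [← sub_le_iff_le_add', one_div_mul_eq_div, le_div_iff₀ e0, ← sq_abs (y none)]
    nlinarith [sq_nonneg (e - |y none|), abs_nonneg (y none)]
  · rw [Mix.E_mul, Mix.E_add, Mix.E_const, Mix.E_mul, one_div_mul_eq_div]

end Pool.Agent.P.MP_6b977f_mp.RG
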