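import Pool.Agent.P.MP_6b977f_mp.RG.All
import Pool.Agent.P.MP_6b977f_mp.RG.TUFAR
import Pool.Agent.P.MP_6b977f_mp.RG.TULAT
import Pool.Agent.P.MP_6b977f_mp.RG.TUSY
import Pool.Agent.P.MP_6b977f_mp.RG.TUENT
import Pool.Agent.P.MP_6b977f_mp.RG.TUGB
import Pool.Agent.P.MP_6b977f_mp.RG.TUQA
import Pool.Agent.P.MP_6b977f_mp.RG.TUSW
import Pool.Agent.P.MP_6b977f_mp.RG.TUPROD
import Pool.Agent.P.MP_6b977f_mp.RG.TUL1
import Pool.Agent.P.MP_6b977f_mp.RG.TUFUB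
import Pool.Agent.P.MP_6b977f_mp.RG.TUOM
import Pool.Agent.P.MP_6b977f_mp.RG.TUGI
import Pool.Agent.P.MP_6b977f_mp.RG.TUCE
import Pool.Agent.P.MP_6b977f_mp.RG.TUXI
import Pool.Agent.P.MP_6b977f_mp.RG.TUNZ
import Pool.Agent.P.MP_6b977f_mp.RG.TUCP
import Pool.Agent.P.MP_6b977f_mp.RG.TUBND
import Pool.Agent.P.MP_6b977f_mp.RG.TUQB
import Pool.Agent.P.MP_6b977f_mp.RG.TURP
import Pool.Agent.P.MP_6b977f_mp.RG.TUJ2
import Pool.Agent.P.MP_6b977f_mp.RG.TURS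
import Pool.Agent.P.MP_6b977f_mp.RG.TURT
import Pool.Agent.P.MP_6b977f_mp.RG.TUREC
import Pool.Agent.P.MP_6b977f_mp.RG.TAN3
import Pool.Agent.P.MP_6b977f_mp.RG.TMARK
import Pool.Agent.P.MP_6b977f_mp.RG.TTRU
import Pool.Agent.P.MP_6b977f_mp.RG.TFIBU
import Pool.Agent.P.MP_6b977f_mp.RG.TCU
import Pool.Agent.P.MP_6b977f_mp.RG.TCONFU
import Pool.Agent.P.MP_6b977f_mp.RG.TNETU
import Pool.Agent.P.MP_6b977f_mp.RG.TMAINU

/-! All steps for all radii put together. -/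

namespace Pool.Agent.P.MP_6b977f_mp.RG

theorem a_UFAR : S_UFAR := p_UFAR

theorem a_ULAT : S_ULAT := p_ULAT a_FD a_FISH a_LAT1 a_LAT2 a_LSYM

theorem a_USY : S_USY := p_USY

theorem a_UENT : S_UENT := p_UENT a_INF a_ELL a_UFAR a_ULAT a_USY

theorem a_UGB : S_UGB := p_UGB

theorem a_UQA : S_UQA := p_UQA

theorem a_USW : S_USW := p_USW a_UGB

theorem a_UPROD : S_UPROD := p_UPROD a_UGB a_UQA a_USW

theorem a_UL1 : S_UL1 := p_UL1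

theorem a_UFUB : S_UFUB := p_UFUB

theorem a_UOM : S_UOM := p_UOM a_UFUB

theorem a_UGI : S_UGI := p_UGI a_UFUB

theorem a_UCE : S_UCE := p_UCE a_UOM a_UGI

theorem a_UXI : S_UXI := p_UXI

theorem a_UNZ : S_UNZ := p_UNZ

theorem a_UCP : S_UCP := p_UCP a_UNZ

theorem a_UBND : S_UBND := p_UBND

theorem a_UQB : S_UQB := p_UQB a_UQA

theorem a_URP : S_URP := p_URP

theorem a_UJ2 : S_UJ2 := p_UJ2 a_UQB

theorem a_URS : S_URS := p_URS a_UQB a_URP a_UJ2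

theorem a_URT : S_URT := p_URT a_UQB a_URP

theorem a_UREC : S_UREC := p_UREC a_URS a_URT

theorem a_AN3 : S_AN3 := p_AN3 a_UENT a_USY a_UPROD a_UL1 a_UCE a_UXI a_UCP a_UBND a_UREC

theorem a_MARK : S_MARK := p_MARK

theorem a_TRU : S_TRU := p_TRU

theorem a_FIBU : S_FIBU := p_FIBU

theorem a_CU : S_CU := p_CU a_FR a_AN3 a_MARK a_TRU a_FIBU a_FIB

theorem a_CONFU : S_CONFU := p_CONFU a_DET a_CONF a_CU

theorem a_NETU : S_NETU := p_NETU a_FIBU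

theorem a_MAINU : S_MAINU := p_MAINU a_CONFU a_NETU a_SIM a_FIB


end Pool.Agent.P.MP_6b977f_mp.RG
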