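import Pool.Agent.P.MP_6b977f_mp.RG.Base

/-! Elementary facts on the definitions. -/

namespace Pool.Agent.P.MP_6b977f_mp.RG

open Finset MeasureTheory Real
open scoped Classical

theorem ind_nonneg (P : Prop) : 0 ≤ ind P := by unfold ind; split_ifs <;> norm_num

theorem ind_le (P : Prop) : ind P ≤ 1 := by unfold ind; split_ifs <;> norm_num

theorem ind_pos {P : Prop} (h : P) : ind P = 1 := if_pos h

theorem ind_neg {P : Prop} (h : ¬ P) : ind P = 0 := if_neg h

theorem sum_ind {α : Type} (s : Finset α) (P : α → Prop) :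
    ∑ a ∈ s, ind (P a) = #(s.filter P) := by simp [ind]

/-! ### configurations -/

theorem mem_Inv {H : Type} [Fintype H] {M : Equiv.Perm H} :
    M ∈ Inv H ↔ ∀ h, M (M h) = h ∧ M h ≠ h := by simp [Inv]

section cfg
variable {d N : ℕ} {M : Cfg d N}

theorem mem_Cf : M ∈ Cf d N ↔ ∀ h, M (M h) = h ∧ M h ≠ h := mem_Inv

theorem tip_mate (hM : M ∈ Cf d N) (h : Fin N × Fin d) : tip M (M h) = h.1 := by
  rw [tip, (mem_Cf.1 hM h).1]

/-- every vertex is the tip of `d` half-edges -/
theorem sum_tip (M : Cfg d N) (g : Fin N → ℝ) : ∑ x, ∑ i, g (tip M (x, i)) = d * ∑ y, g y := by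
  rw [← Fintype.sum_prod_type (f := fun h => g (tip M h))]
  simp only [tip]
  rw [Equiv.sum_comp M (fun h => g h.1), Fintype.sum_prod_type]
  simp [mul_sum]

theorem sum_star (M : Cfg d N) {α : Type} (f : Fin N → α) (g : α → ℝ) :
    ∑ x, ∑ o, g (star M f x o) = (d + 1) * ∑ y, g (f y) := by
  simp only [Fintype.sum_option, star, Option.elim, sum_add_distrib]
  rw [sum_tip M fun y => g (f y)]
  ring

theorem Am_mulVec (M : Cfg d N) (f : Fin N → ℝ) : (Am M).mulVec f = adj M f := by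
  funext x
  simp only [Am, Matrix.mulVec, dotProduct, Matrix.of_apply, adj, sum_mul]
  rw [sum_comm]
  refine sum_congr rfl fun i _ => ?_
  simp [ind]

theorem Am_symm (hM : M ∈ Cf d N) (x y : Fin N) : Am M x y = Am M y x := by
  have k : ∀ x y, Am M x y = ∑ h : Fin N × Fin d, ind (h.1 = x ∧ tip M h = y) := by
    intro x y
    rw [Fintype.sum_prod_type, sum_eq_single x]
    · simp [Am]
    · intro b _ hb
      exact sum_eq_zero fun i _ => ind_neg fun h => hb h.1
    · simp
  rw [k, k, ← Equiv.sum_comp M]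
  refine sum_congr rfl fun h _ => ?_
  rw [tip_mate hM, and_comm]
  rfl

theorem adj_sq_le (M : Cfg d N) (f : Fin N → ℝ) : ∑ x, adj M f x ^ 2 ≤ d ^ 2 * ∑ x, f x ^ 2 := by
  calc ∑ x, adj M f x ^ 2 ≤ ∑ x, d * ∑ i, f (tip M (x, i)) ^ 2 := sum_le_sum fun x _ => by
        simpa [adj] using sq_sum_le_card_mul_sum_sq (s := univ) (f := fun i => f (tip M (x, i)))
    _ = _ := by rw [← mul_sum, sum_tip M fun y => f y ^ 2]; ring

theorem Wd_star (M : Cfg d N) (lam δ : ℝ) (φ : Fin N → ℤ) (x : Fin N) :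
    Wd lam (re δ (star M φ x)) = adj M (fun y => δ * φ y) x - lam * (δ * φ x) := rfl

theorem re_star (M : Cfg d N) (δ : ℝ) (φ : Fin N → ℤ) (x : Fin N) :
    re δ (star M φ x) = star M (fun y => δ * φ y) x := by
  funext o
  cases o <;> rfl

end cfg

/-! ### expectations -/

section E
variable {d : ℕ} {ι : Type} [Fintype ι]

theorem Law.E_mono (μ : Law d) {f g : St d → ℝ} (h : ∀ s, f s ≤ g s) : μ.E f ≤ μ.E g :=
  sum_le_sum fun s hs => mul_le_mul_of_nonneg_left (h s) (μ.pos s hs).le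

theorem Law.E_const (μ : Law d) (c : ℝ) : μ.E (fun _ => c) = c := by
  rw [Law.E, ← sum_mul, μ.one, one_mul]

theorem Law.E_add (μ : Law d) (f g : St d → ℝ) : μ.E (fun s => f s + g s) = μ.E f + μ.E g := by
  simp only [Law.E, mul_add, sum_add_distrib]

theorem Law.E_mul (μ : Law d) (c : ℝ) (f : St d → ℝ) : μ.E (fun s => c * f s) = c * μ.E f := by
  simp only [Law.E, mul_sum, mul_left_comm]

omit [Fintype ι] in
theorem Mix.E_mono (m : Mix ι) {f g : (ι → ℝ) → ℝ} (h : ∀ s, f s ≤ g s) : m.E f ≤ m.E g :=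
  sum_le_sum fun s _ => mul_le_mul_of_nonneg_left (h _) (m.p0 s)

omit [Fintype ι] in
theorem Mix.E_const (m : Mix ι) (c : ℝ) : m.E (fun _ => c) = c := by
  rw [Mix.E, ← sum_mul, m.p1, one_mul]

omit [Fintype ι] in
theorem Mix.E_add (m : Mix ι) (f g : (ι → ℝ) → ℝ) :
    m.E (fun s => f s + g s) = m.E f + m.E g := by simp only [Mix.E, mul_add, sum_add_distrib]

omit [Fintype ι] in
theorem Mix.E_mul (m : Mix ι) (c : ℝ) (f : (ι → ℝ) → ℝ) : m.E (fun s => c * f s) = c * m.E f := by
  simp only [Mix.E, mul_sum, mul_left_comm]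

omit [Fintype ι] in
theorem Mix.E_map (m : Mix ι) {κ : Type} (B : (ι → ℝ) → κ → ℝ) (g : (κ → ℝ) → ℝ) :
    (m.map B).E g = m.E fun x => g (B x) := rfl

theorem g1_pos {v : ℝ} (hv : 0 < v) (u : ℝ) : 0 < g1 v u := by unfold g1; positivity

theorem ker_pos {v : ι → ℝ} (hv : ∀ j, 0 < v j) (u : ι → ℝ) : 0 < ker v u :=
  prod_pos fun j _ => g1_pos (hv j) _

theorem lin_apply (c u : ι → ℝ) : lin c u = ∑ j, c j * u j := by simp [lin]

end E

/-! ### polynomial growth -/

namespace PG
variable {ι : Type} [Fintype ι] {f g : (ι → ℝ) → ℝ}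

theorem of_le (h : PG g) (hf : Measurable f) (hfg : ∀ y, |f y| ≤ |g y|) : PG f :=
  let ⟨_, C, k, b⟩ := h
  ⟨hf, C, k, fun y => (hfg y).trans (b y)⟩

theorem bdd (hf : Measurable f) (C : ℝ) (h : ∀ y, |f y| ≤ C) : PG f :=
  ⟨hf, C, 0, fun y => by simpa using h y⟩

theorem const (c : ℝ) : PG fun _ : ι → ℝ => c := bdd measurable_const |c| fun _ => le_rfl

theorem norm : PG fun y : ι → ℝ => ‖y‖ := ⟨measurable_norm, 1, 1, fun y => by simp⟩

theorem coord (j : ι) : PG fun y : ι → ℝ => y j :=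
  norm.of_le (measurable_pi_apply j) fun y => by simpa using norm_le_pi_norm y j

theorem mul (hf : PG f) (hg : PG g) : PG fun y => f y * g y := by
  obtain ⟨m1, C, k, b⟩ := hf
  obtain ⟨m2, C', k', b'⟩ := hg
  refine ⟨m1.mul m2, C * C', k + k', fun y => ?_⟩
  rw [abs_mul, pow_add, mul_mul_mul_comm]
  exact mul_le_mul (b y) (b' y) (abs_nonneg _) ((abs_nonneg _).trans (b y))

theorem add (hf : PG f) (hg : PG g) : PG fun y => f y + g y := by
  obtain ⟨m1, C, k, b⟩ := hf
  obtain ⟨m2, C', k', b'⟩ := hg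
  refine ⟨m1.add m2, |C| + |C'|, k + k', fun y => (abs_add_le _ _).trans ?_⟩
  have h1 : (1 : ℝ) ≤ 1 + ‖y‖ := le_add_of_nonneg_right (norm_nonneg _)
  rw [add_mul]
  exact add_le_add ((b y).trans (mul_le_mul (le_abs_self _) (pow_le_pow_right₀ h1 (by omega))
    (by positivity) (abs_nonneg _))) ((b' y).trans (mul_le_mul (le_abs_self _)
      (pow_le_pow_right₀ h1 (by omega)) (by positivity) (abs_nonneg _)))

theorem cmul (c : ℝ) (hf : PG f) : PG fun y => c * f y := (const c).mul hf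

theorem div (hf : PG f) (c : ℝ) : PG fun y => f y / c := by
  simpa only [div_eq_mul_inv] using hf.mul (const c⁻¹)

theorem neg (hf : PG f) : PG fun y => -f y := by simpa using hf.cmul (-1)

theorem sub (hf : PG f) (hg : PG g) : PG fun y => f y - g y := by
  simpa only [sub_eq_add_neg] using hf.add hg.neg

theorem pow (hf : PG f) (n : ℕ) : PG fun y => f y ^ n := by
  induction n with
  | zero => simpa using const 1
  | succ n ih => simpa only [pow_succ] using ih.mul hf

theorem abs (hf : PG f) : PG fun y => |f y| := hf.of_le hf.1.abs fun y => by simp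

theorem sum {α : Type} (s : Finset α) {F : α → (ι → ℝ) → ℝ} (h : ∀ a ∈ s, PG (F a)) :
    PG fun y => ∑ a ∈ s, F a y := by
  induction s using Finset.induction_on with
  | empty => simpa using const 0
  | insert a s ha ih =>
    simpa only [sum_insert ha] using
      (h a (mem_insert_self _ _)).add (ih fun b hb => h b (mem_insert_of_mem hb))

theorem ind {P : (ι → ℝ) → Prop} (h : MeasurableSet {y | P y}) : PG fun y => ind (P y) :=
  bdd (Measurable.ite h measurable_const measurable_const) 1 fun y => by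
    rw [abs_of_nonneg (ind_nonneg _)]; exact ind_le _

/-- composition with a map whose coordinates have polynomial growth -/
theorem comp {κ : Type} [Fintype κ] {G : (κ → ℝ) → ℝ} (hG : PG G) {B : (ι → ℝ) → κ → ℝ}
    (hB : ∀ k, PG fun y => B y k) : PG fun y => G (B y) := by
  obtain ⟨m1, C, k, b⟩ := hG
  have h1 : PG fun y => |C| * (1 + ∑ k, |B y k|) ^ k :=
    (((const 1).add (sum _ fun k _ => (hB k).abs)).pow k).cmul _
  refine h1.of_le (m1.comp (measurable_pi_lambda _ fun k => (hB k).1)) fun y => (b _).trans ?_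
  have h2 : ‖B y‖ ≤ ∑ k, |B y k| := (pi_norm_le_iff_of_nonneg (by positivity)).2 fun k =>
    single_le_sum (f := fun k => |B y k|) (fun _ _ => abs_nonneg _) (mem_univ k)
  rw [abs_of_nonneg (a := |C| * _) (by positivity)]
  exact mul_le_mul (le_abs_self _) (pow_le_pow_left₀ (by positivity) (by linarith) _)
    (by positivity) (abs_nonneg _)

end PG

/-! ### the parameters -/

theorem norm_vp {d : ℕ} (y : SI d → ℝ) : ‖vp y‖ ≤ ‖y‖ :=
  (pi_norm_le_iff_of_nonneg (norm_nonneg _)).2 fun j => norm_le_pi_norm y (some j)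

namespace Par
variable {d : ℕ} (P : Par d)

include P in
theorem d3 : (3 : ℝ) ≤ d := by exact_mod_cast P.hd

theorem rho_sq : P.rho ^ 2 ≤ 8 / 9 := by
  have := P.d3
  rw [rho, div_pow, div_le_iff₀ (by positivity)]
  nlinarith [P.hl, mul_nonneg (sub_nonneg.2 this) (sub_nonneg.2 this)]

theorem abs_rho : |P.rho| ≤ 19 / 20 := abs_le_of_sq_le_sq' (by linarith [P.rho_sq]) (by norm_num)
  |> abs_le.2

theorem lam_eq : P.lam = d * P.rho := by
  have := P.d3
  rw [rho]
  field_simp

theorem abs_lam : |P.lam| ≤ d := by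
  have := P.d3
  rw [lam_eq, abs_mul, abs_of_nonneg (by linarith : (0 : ℝ) ≤ d)]
  nlinarith [P.abs_rho]

theorem sub_lam : (d : ℝ) / 20 ≤ d - P.lam := by
  have := P.d3
  rw [lam_eq]
  nlinarith [(abs_le.1 P.abs_rho).2]

theorem r_sq : P.r ^ 2 = 1 - P.rho ^ 2 := sq_sqrt (by linarith [P.rho_sq])

theorem r_ge : 1 / 3 ≤ P.r := le_sqrt_of_sq_le (by linarith [P.rho_sq])

theorem r_pos : 0 < P.r := by linarith [P.r_ge]

theorem r_le : P.r ≤ 1 := sqrt_le_one.2 (by nlinarith [sq_nonneg P.rho])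

theorem cs_sq : P.cs ^ 2 = (1 + P.rho) / 2 := sq_sqrt (by linarith [(abs_le.1 P.abs_rho).1])

theorem sn_sq : P.sn ^ 2 = (1 - P.rho) / 2 := sq_sqrt (by linarith [(abs_le.1 P.abs_rho).2])

theorem cs_ge : 1 / 7 ≤ P.cs := le_sqrt_of_sq_le (by linarith [(abs_le.1 P.abs_rho).1])

theorem sn_ge : 1 / 7 ≤ P.sn := le_sqrt_of_sq_le (by linarith [(abs_le.1 P.abs_rho).2])

theorem cs_pos : 0 < P.cs := by linarith [P.cs_ge]

theorem sn_pos : 0 < P.sn := by linarith [P.sn_ge]

theorem cs_le : P.cs ≤ 1 := sqrt_le_one.2 (by linarith [(abs_le.1 P.abs_rho).2])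

theorem sn_le : P.sn ≤ 1 := sqrt_le_one.2 (by linarith [(abs_le.1 P.abs_rho).1])

theorem cs_sn : 2 * P.cs * P.sn = P.r := by
  have h : (2 * P.cs * P.sn) ^ 2 = P.r ^ 2 := by
    rw [mul_pow, mul_pow, cs_sq, sn_sq, r_sq]; ring
  exact (pow_left_inj₀ (by have := P.cs_pos; have := P.sn_pos; positivity) P.r_pos.le
    two_ne_zero).1 h

theorem kk_eq : d - 1 - P.kk ^ 2 = (4 * (d - 1) - P.lam ^ 2) / (4 * P.r ^ 2) := by
  have := P.r_pos
  rw [kk, div_pow, mul_pow 2, lam_eq]
  field_simp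
  rw [r_sq]
  ring

theorem kk_sq : P.kk ^ 2 ≤ d - 1 := by
  have := P.kk_eq
  have h : 0 ≤ (4 * (d - 1) - P.lam ^ 2) / (4 * P.r ^ 2) :=
    div_nonneg (by linarith [P.hl]) (by positivity)
  linarith

theorem abs_e (i : Fin d) (k : Fin (d - 1)) : |P.e i k| ≤ 1 := by
  have h := P.e1 i i
  rw [if_pos rfl] at h
  have := single_le_sum (f := fun k => P.e i k * P.e i k) (fun _ _ => mul_self_nonneg _) (mem_univ k)
  exact abs_le_one_iff_mul_self_le_one.2 (by linarith)

theorem sum_ci (y : VI d → ℝ) : ∑ i, P.ci i y = 0 := by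
  simp only [ci]
  rw [sum_comm]
  simp [← sum_mul, P.e2]

theorem abs_ci (i : Fin d) (y : VI d → ℝ) : |P.ci i y| ≤ d * ‖y‖ := by
  refine (abs_sum_le_sum_abs _ _).trans ((sum_le_card_nsmul _ _ ‖y‖ fun k _ => ?_).trans ?_)
  · rw [abs_mul]
    exact (mul_le_of_le_one_left (abs_nonneg _) (P.abs_e i k)).trans (norm_le_pi_norm y (some k))
  · simp only [card_univ, Fintype.card_fin, nsmul_eq_mul]
    exact mul_le_mul_of_nonneg_right (by exact_mod_cast Nat.sub_le d 1) (norm_nonneg _)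

theorem sum_e_ci (k : Fin (d - 1)) (y : VI d → ℝ) :
    ∑ i, P.e i k * P.ci i y = d / (d - 1) * y (some k) := by
  simp only [ci, mul_sum, ← mul_assoc]
  rw [sum_comm]
  simp [← sum_mul, P.e3]

theorem sum_ci_sq (y : VI d → ℝ) : ∑ i, P.ci i y ^ 2 = d / (d - 1) * ∑ k, y (some k) ^ 2 := by
  have : ∀ i, P.ci i y ^ 2 = ∑ k, P.e i k * P.ci i y * y (some k) := fun i => by
    rw [sq]
    nth_rewrite 1 [ci]
    rw [sum_mul]
    exact sum_congr rfl fun k _ => by ring
  simp only [this]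
  rw [sum_comm, mul_sum]
  exact sum_congr rfl fun k _ => by rw [← sum_mul, sum_e_ci]; ring

theorem val_wh (z : Option (Fin d) → ℝ) : P.val (P.wh z) = z := by
  have h3 := P.d3
  have h1 := P.sub_lam
  have h2 := P.r_pos
  funext o
  cases o with
  | none => simp [val, wh]
  | some i =>
    have e : P.ci i (vp (P.wh z)) = (d - 1) / (d * P.r) *
        (z (some i) + -1 / (d - 1 : ℝ) * (∑ j, z (some j) - z (some i))) := by
      simp only [ci, vp, wh, Option.elim, mul_sum]
      rw [sum_comm]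
      have : ∀ j, ∑ k, P.e i k * ((d - 1) / (d * P.r) * (P.e j k * z (some j))) =
          (d - 1) / (d * P.r) * ((if i = j then 1 else -1 / (d - 1 : ℝ)) * z (some j)) := fun j => by
        rw [← P.e1, sum_mul, mul_sum]
        exact sum_congr rfl fun k _ => by ring
      simp only [this]
      rw [← mul_sum, ← add_sum_erase _ _ (mem_univ i), ← add_sum_erase _ _ (mem_univ i), if_pos rfl,
        sum_congr rfl fun j hj => by rw [if_neg (ne_of_mem_erase hj).symm], ← mul_sum]
      ring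
    have d0 : (d : ℝ) - P.lam ≠ 0 := by linarith
    have d1 : (d : ℝ) - 1 ≠ 0 := by linarith
    simp only [val, Option.elim, e]
    simp only [wh, Option.elim, Wd, rho]
    field_simp
    ring

theorem wh_val (y : SI d → ℝ) : P.wh (P.val y) = y := by
  have h3 := P.d3
  have h1 := P.sub_lam
  have h2 := P.r_pos
  have d0 : (d : ℝ) - P.lam ≠ 0 := by linarith
  have d1 : (d : ℝ) - 1 ≠ 0 := by linarith
  have e : Wd P.lam (P.val y) / (d - P.lam) = y none := by
    simp only [Wd, val, Option.elim, sum_add_distrib, ← mul_sum, sum_ci, sum_const, card_univ,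
      Fintype.card_fin, nsmul_eq_mul, rho]
    field_simp
    ring
  funext j
  rcases j with _ | _ | k
  · exact e
  · simp only [wh, Option.elim, e]
    simp [val]
  · simp only [wh, Option.elim, val, mul_add, sum_add_distrib, ← sum_mul, P.e2, mul_left_comm _ P.r,
      ← mul_sum, sum_e_ci, vp]
    field_simp
    ring

theorem ed_val (i : Fin d) (y : SI d → ℝ) : P.ed i y =
    ![(P.val y none + P.val y (some i)) / (2 * P.cs),
      (P.val y none - P.val y (some i)) / (2 * P.sn)] := by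
  have h1 := P.cs_pos
  have h2 := P.sn_pos
  have h3 : P.rho = 2 * P.cs ^ 2 - 1 := by rw [cs_sq]; ring
  have h4 : P.rho = 1 - 2 * P.sn ^ 2 := by rw [sn_sq]; ring
  simp only [ed, val, Option.elim, ← cs_sn]
  congr 1
  · rw [h3]; field_simp; ring
  · congr 1
    rw [h4]; field_simp; ring

theorem norm_val (y : SI d → ℝ) : ‖P.val y‖ ≤ (d + 2) * ‖y‖ := by
  have h3 := P.d3
  have n0 := norm_nonneg y
  have a : |y (some none)| ≤ ‖y‖ := norm_le_pi_norm y _
  have b : |y none| ≤ ‖y‖ := norm_le_pi_norm y _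
  refine (pi_norm_le_iff_of_nonneg (by positivity)).2 fun o => ?_
  cases o with
  | none => exact (abs_add_le _ _).trans (by nlinarith)
  | some i =>
    have c : |P.ci i (vp y)| ≤ d * ‖y‖ :=
      (P.abs_ci i _).trans (mul_le_mul_of_nonneg_left (norm_vp y) (by linarith))
    refine (abs_add_three _ _ _).trans ?_
    rw [abs_mul, abs_mul, abs_of_pos P.r_pos]
    nlinarith [mul_le_of_le_one_left (abs_nonneg (P.ci i (vp y))) P.r_le,
      mul_le_of_le_one_left (abs_nonneg (y (some none))) (P.abs_rho.trans (by norm_num))]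

theorem abs_Wd (z : Option (Fin d) → ℝ) : |Wd P.lam z| ≤ 2 * d * ‖z‖ := by
  have a : |z none| ≤ ‖z‖ := norm_le_pi_norm z _
  have b : |∑ i, z (some i)| ≤ d * ‖z‖ := (abs_sum_le_sum_abs _ _).trans (by
    simpa using sum_le_card_nsmul univ (fun i => |z (some i)|) ‖z‖ fun i _ => norm_le_pi_norm z _)
  refine (abs_sub _ _).trans ?_
  rw [abs_mul]
  nlinarith [mul_le_mul P.abs_lam a (abs_nonneg _) (Nat.cast_nonneg d)]

theorem abs_om (z : Option (Fin d) → ℝ) : |P.wh z none| ≤ 20 / d * |Wd P.lam z| := by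
  have h3 := P.d3
  have h1 := P.sub_lam
  simp only [wh, Option.elim]
  rw [abs_div, abs_of_pos (by linarith : 0 < d - P.lam), div_le_iff₀ (by linarith)]
  calc |Wd P.lam z| = 20 / d * |Wd P.lam z| * (d / 20) := by field_simp
    _ ≤ _ := mul_le_mul_of_nonneg_left h1 (by positivity)

theorem norm_wh (z : Option (Fin d) → ℝ) : ‖P.wh z‖ ≤ 14 * d * ‖z‖ := by
  have h3 := P.d3
  have n0 := norm_nonneg z
  have h2 := P.r_ge
  have a : |z none| ≤ ‖z‖ := norm_le_pi_norm z _
  have o : |P.wh z none| ≤ 40 * ‖z‖ := (P.abs_om z).trans (by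
    calc 20 / d * |Wd P.lam z| ≤ 20 / d * (2 * d * ‖z‖) :=
          mul_le_mul_of_nonneg_left (P.abs_Wd z) (by positivity)
      _ = _ := by field_simp; ring)
  refine (pi_norm_le_iff_of_nonneg (by positivity)).2 fun j => ?_
  rcases j with _ | _ | k
  · exact o.trans (by nlinarith)
  · exact (abs_sub _ (P.wh z none)).trans (by nlinarith)
  · have b : |∑ i, P.e i k * z (some i)| ≤ d * ‖z‖ := (abs_sum_le_sum_abs _ _).trans (by
      simpa using sum_le_card_nsmul univ (fun i => |P.e i k * z (some i)|) ‖z‖ fun i _ => by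
        rw [abs_mul]
        exact (mul_le_of_le_one_left (abs_nonneg _) (P.abs_e i k)).trans (norm_le_pi_norm z _))
    have c : (d - 1) / (d * P.r) ≤ 3 := by
      rw [div_le_iff₀ (by positivity)]
      nlinarith
    have c0 : 0 ≤ (d - 1) / (d * P.r) := div_nonneg (by linarith) (by positivity)
    simp only [wh, Option.elim, Real.norm_eq_abs]
    rw [abs_mul, abs_of_nonneg c0]
    nlinarith [mul_le_mul c b (abs_nonneg _) (by norm_num)]

theorem bulk {κ0 : ℝ} (h0 : 0 < κ0) (h : |P.lam| ≤ 2 * √(d - 1) - κ0) :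
    κ0 ^ 2 / 4 ≤ d - 1 - P.kk ^ 2 := by
  have h3 := P.d3
  have hr := P.r_pos
  have s := sq_sqrt (by linarith : (0 : ℝ) ≤ d - 1)
  have a := abs_nonneg P.lam
  rw [kk_eq, le_div_iff₀ (by positivity), ← sq_abs P.lam]
  have : P.r ^ 2 ≤ 1 := by nlinarith [P.r_le]
  nlinarith [mul_le_of_le_one_right (sq_nonneg κ0) this]

theorem PG_ci (i : Fin d) : PG (P.ci i) := PG.sum _ fun k _ => (PG.coord (some k)).cmul _

theorem PG_vp (j : VI d) : PG fun y : SI d → ℝ => vp y j := PG.coord (some j)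

theorem PG_ed (i : Fin d) (j : Fin 2) : PG fun y => P.ed i y j := by
  have h := (P.PG_ci i).comp (B := vp) PG_vp
  fin_cases j
  · exact (((PG.coord _).cmul _).add (h.cmul _)).add ((PG.coord _).div _)
  · exact ((PG.coord _).cmul _).sub (h.cmul _)

end Par

end Pool.Agent.P.MP_6b977f_mp.RG
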