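import Pool.Agent.P.MP_6b977f_mp.RG.Defs

/-! Configurations, lattice laws, finite Gaussian mixtures, whitened coordinates on a star. -/

namespace Pool.Agent.P.MP_6b977f_mp.RG

open Finset MeasureTheory Real
open scoped Classical

/-- the indicator of a proposition -/
noncomputable def ind (P : Prop) : ℝ := if P then 1 else 0

/-! ### configurations -/

/-- the fixed point free involutions of a finite type -/
noncomputable def Inv (H : Type) [Fintype H] : Finset (Equiv.Perm H) :=
  univ.filter fun M => ∀ h, M (M h) = h ∧ M h ≠ h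

/-- permutations of half-edges -/
abbrev Cfg (d N : ℕ) := Equiv.Perm (Fin N × Fin d)

/-- the configurations -/
noncomputable def Cf (d N : ℕ) : Finset (Cfg d N) := Inv (Fin N × Fin d)

section cfg
variable {d N : ℕ}

/-- the other end of a half-edge -/
def tip (M : Cfg d N) (h : Fin N × Fin d) : Fin N := (M h).1

/-- the adjacency operator -/
def adj (M : Cfg d N) (f : Fin N → ℝ) (x : Fin N) : ℝ := ∑ i, f (tip M (x, i))

/-- the adjacency matrix -/
noncomputable def Am (M : Cfg d N) : Matrix (Fin N) (Fin N) ℝ :=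
  Matrix.of fun x y => ∑ i, ind (tip M (x, i) = y)

/-- `(1 / N) log |det (A - lam - i gam)|` -/
noncomputable def LD (M : Cfg d N) (lam gam : ℝ) : ℝ :=
  log ((Am M - lam • 1) * (Am M - lam • 1) + gam ^ 2 • 1).det / (2 * N)

/-- the number of ordered pairs of parallel half-edges -/
noncomputable def par (M : Cfg d N) : ℝ :=
  ∑ x, ∑ i, ∑ j, ind (i ≠ j ∧ tip M (x, i) = tip M (x, j))

/-- small sets span few edges -/
def Sparse (M : Cfg d N) (e0 d0 : ℝ) : Prop := ∀ U : Finset (Fin N), (#U : ℝ) ≤ d0 * N →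
  (#(univ.filter fun h : Fin N × Fin d => h.1 ∈ U ∧ tip M h ∈ U) : ℝ) ≤ 2 * (1 + e0) * #U

/-- no loops and no parallel edges -/
def Simple (M : Cfg d N) : Prop :=
  (∀ h, tip M h ≠ h.1) ∧ ∀ x i j, tip M (x, i) = tip M (x, j) → i = j

/-- the graph of a configuration -/
def graph (M : Cfg d N) : SimpleGraph (Fin N) :=
  SimpleGraph.fromRel fun x y => ∃ i, tip M (x, i) = y

/-- the values of `f` on the star at `x` -/
def star {α : Type} (M : Cfg d N) (f : Fin N → α) (x : Fin N) : Option (Fin d) → α :=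
  fun o => o.elim (f x) fun i => f (tip M (x, i))

/-- the number of vertices where `|f|` exceeds `t` -/
noncomputable def nb (f : Fin N → ℝ) (t : ℝ) : ℝ := #(univ.filter fun x => t < |f x|)

/-- normalised eigenvectors -/
def Eig (M : Cfg d N) (ψ : Fin N → ℝ) (lam : ℝ) : Prop :=
  (∀ x, adj M ψ x = lam * ψ x) ∧ ∑ x, ψ x ^ 2 = N

/-- the character of a star -/
noncomputable def ch (s : ℝ) (t : Fin d → ℝ) (z : Option (Fin d) → ℝ) : ℂ :=
  Complex.exp (Complex.I * (s * z none + ∑ i, t i * z (some i) : ℝ))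

/-- the empirical characteristic function of the stars -/
noncomputable def chi (M : Cfg d N) (ψ : Fin N → ℝ) (s : ℝ) (t : Fin d → ℝ) : ℂ :=
  (∑ x, ch s t (star M ψ x)) / N

/-- the stars next to a level set -/
def Reg1 (t : ℝ) (z : Option (Fin d) → ℝ) : Prop :=
  |z none| ≤ t ∧ (∀ i, |z (some i)| ≤ 2 * d * t) ∧ ∃ i, t < |z (some i)|

/-- the conclusion for a configuration -/
def BerryC (κ R ε : ℝ) (M : Cfg d N) : Prop := ∀ ψ lam, Eig M ψ lam → |lam| ≤ 2 * √(d - 1) - κ →
  ∀ (s : ℝ) (t : Fin d → ℝ), |s| + ∑ i, |t i| ≤ R →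
    ‖chi M ψ s t - (exp (-cov d lam s t / 2) : ℝ)‖ ≤ ε

end cfg

/-- the logarithmic potential of the Kesten-McKay law inside its support -/
noncomputable def ell (d : ℕ) (lam : ℝ) : ℝ :=
  (d - 1) / 2 * log (d - 1) - (d - 2) / 4 * log (d ^ 2 - lam ^ 2)

/-- real part of the point of the ellipse -/
noncomputable def lamw (d : ℕ) (r θ : ℝ) : ℝ := √(d - 1) * (r + 1 / r) * cos θ

/-- imaginary part of the point of the ellipse -/
noncomputable def gamw (d : ℕ) (r θ : ℝ) : ℝ := √(d - 1) * (1 / r - r) * sin θ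

/-- the logarithmic potential on the ellipse -/
noncomputable def ellw (d : ℕ) (r θ : ℝ) : ℝ := (d - 1) / 2 * log (d - 1) - log r -
  (d - 2) / 4 * log ((d - 1) ^ 2 - 2 * (d - 1) * r ^ 2 * cos (2 * θ) + r ^ 4)

/-- the logarithmic potential of a finite family -/
noncomputable def Sv {N : ℕ} (ev : Fin N → ℝ) (lam gam : ℝ) : ℝ :=
  (∑ j, log ((ev j - lam) ^ 2 + gam ^ 2)) / (2 * N)

/-- the mean defect on the ellipse -/
noncomputable def Yv {N : ℕ} (d : ℕ) (ev : Fin N → ℝ) (r : ℝ) : ℝ :=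
  (∫ θ in (0 : ℝ)..π, max (ellw d r θ - Sv ev (lamw d r θ) (gamw d r θ)) 0) / π

/-! ### lattice laws -/

/-- integer stars -/
abbrev St (d : ℕ) := Option (Fin d) → ℤ

/-- a finitely supported law on integer stars -/
structure Law (d : ℕ) where
  A : Finset (St d)
  p : St d → ℝ
  pos : ∀ s ∈ A, 0 < p s
  one : ∑ s ∈ A, p s = 1

/-- the defect of the eigenvalue equation -/
def Wd {d : ℕ} (lam : ℝ) (z : Option (Fin d) → ℝ) : ℝ := ∑ i, z (some i) - lam * z none

/-- the real star of an integer star -/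
def re {d : ℕ} (δ : ℝ) (s : St d) : Option (Fin d) → ℝ := fun o => δ * s o

namespace Law
variable {d : ℕ} (μ : Law d)

/-- expectation -/
noncomputable def E (g : St d → ℝ) : ℝ := ∑ s ∈ μ.A, μ.p s * g s

/-- the averaged edge law -/
noncomputable def nu (a b : ℤ) : ℝ := μ.E fun s => (∑ i, ind (s none = a ∧ s (some i) = b)) / d

/-- the edge law is symmetric -/
def Sym : Prop := ∀ a b, μ.nu a b = μ.nu b a

/-- entropy of the star minus `d / 2` times the entropy of the edge -/
noncomputable def Phi : ℝ :=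
  μ.E fun s => -log (μ.p s) + (∑ i, log (μ.nu (s none) (s (some i)))) / 2

/-- the gap in the entropy inequality -/
noncomputable def gap (δ η lam : ℝ) : ℝ := log (2 * π * η ^ 2) / 2 +
  μ.E (fun s => (|Wd lam (re δ s)| + 3 * d * δ) ^ 2) / (2 * η ^ 2) - ell d lam - μ.Phi - log δ

/-- the characteristic function -/
noncomputable def chi (δ s : ℝ) (t : Fin d → ℝ) : ℂ := ∑ z ∈ μ.A, (μ.p z : ℂ) * ch s t (re δ z)

end Law

/-! ### finite Gaussian mixtures -/

/-- a finitely supported law on `ι → ℝ` -/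
structure Mix (ι : Type) where
  Ω : Type
  [fin : Fintype Ω]
  p : Ω → ℝ
  p0 : ∀ ω, 0 ≤ p ω
  p1 : ∑ ω, p ω = 1
  x : Ω → ι → ℝ

attribute [instance] Mix.fin

/-- the centred Gaussian density of variance `v` -/
noncomputable def g1 (v u : ℝ) : ℝ := exp (-u ^ 2 / (2 * v)) / √(2 * π * v)

/-- the product Gaussian density -/
noncomputable def ker {ι : Type} [Fintype ι] (v u : ι → ℝ) : ℝ := ∏ j, g1 (v j) (u j)

/-- measurable functions of polynomial growth -/
def PG {ι : Type} [Fintype ι] (g : (ι → ℝ) → ℝ) : Prop :=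
  Measurable g ∧ ∃ (C : ℝ) (k : ℕ), ∀ y, |g y| ≤ C * (1 + ‖y‖) ^ k

/-- the linear form with coefficients `c` -/
noncomputable def lin {ι : Type} [Fintype ι] (c : ι → ℝ) : (ι → ℝ) →L[ℝ] ℝ :=
  ∑ j, c j • ContinuousLinearMap.proj j

namespace Mix
variable {ι : Type} [Fintype ι] (m : Mix ι)

/-- expectation under the mixing law -/
noncomputable def E (g : (ι → ℝ) → ℝ) : ℝ := ∑ ω, m.p ω * g (m.x ω)

/-- the density after adding Gaussian noise with variances `v` -/
noncomputable def den (v y : ι → ℝ) : ℝ := ∑ ω, m.p ω * ker v (y - m.x ω)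

/-- expectation after adding the noise -/
noncomputable def Ex (v : ι → ℝ) (g : (ι → ℝ) → ℝ) : ℝ := ∫ y, g y * m.den v y

/-- differential entropy -/
noncomputable def ent (v : ι → ℝ) : ℝ := -m.Ex v fun y => log (m.den v y)

/-- posterior mean -/
noncomputable def po (v : ι → ℝ) (g : (ι → ℝ) → ℝ) (y : ι → ℝ) : ℝ :=
  (∑ ω, m.p ω * ker v (y - m.x ω) * g (m.x ω)) / m.den v y

/-- the score -/
noncomputable def sc (v : ι → ℝ) (j : ι) (y : ι → ℝ) : ℝ := m.po v (fun x => (x j - y j) / v j) y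

/-- the derivative of the score -/
noncomputable def dsc (v : ι → ℝ) (j k : ι) (y : ι → ℝ) : ℝ :=
  m.po v (fun x => (x j - y j) / v j * ((x k - y k) / v k)) y - m.sc v j y * m.sc v k y -
    ind (j = k) / v j

/-- characteristic function of the mixing law -/
noncomputable def chi (ξ : ι → ℝ) : ℂ :=
  ∑ ω, (m.p ω : ℂ) * Complex.exp (Complex.I * (∑ j, ξ j * m.x ω j : ℝ))

/-- characteristic function after adding the noise -/
noncomputable def chv (v ξ : ι → ℝ) : ℂ :=
  ∫ y, Complex.exp (Complex.I * (∑ j, ξ j * y j : ℝ)) * (m.den v y : ℝ)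

/-- image of the mixing law -/
def map {κ : Type} (B : (ι → ℝ) → κ → ℝ) : Mix κ where
  Ω := m.Ω
  p := m.p
  p0 := m.p0
  p1 := m.p1
  x ω := B (m.x ω)

end Mix

/-! ### whitened coordinates -/

/-- coordinates `a'`, `c` of an eigenfunction on the star -/
abbrev VI (d : ℕ) := Option (Fin (d - 1))

/-- the same with the defect coordinate -/
abbrev SI (d : ℕ) := Option (VI d)

/-- an eigenvalue in the spectrum of the tree and a simplex frame -/
structure Par (d : ℕ) where
  hd : 3 ≤ d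
  lam : ℝ
  hl : lam ^ 2 ≤ 4 * (d - 1)
  e : Fin d → Fin (d - 1) → ℝ
  e1 : ∀ i j, ∑ k, e i k * e j k = if i = j then 1 else -1 / (d - 1 : ℝ)
  e2 : ∀ k, ∑ i, e i k = 0
  e3 : ∀ k l, ∑ i, e i k * e i l = if k = l then d / (d - 1 : ℝ) else 0

/-- forget the defect coordinate -/
def vp {d : ℕ} (y : SI d → ℝ) : VI d → ℝ := fun j => y (some j)

/-- variances of the star -/
def vs (d : ℕ) (κ t : ℝ) : SI d → ℝ := fun j => j.elim (κ ^ 2) fun _ => κ ^ 2 + t

namespace Par
variable {d : ℕ} (P : Par d)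

/-- correlation of neighbours -/
noncomputable def rho : ℝ := P.lam / d

/-- conditional deviation of a neighbour -/
noncomputable def r : ℝ := √(1 - P.rho ^ 2)

/-- cosine of the half angle -/
noncomputable def cs : ℝ := √((1 + P.rho) / 2)

/-- sine of the half angle -/
noncomputable def sn : ℝ := √((1 - P.rho) / 2)

/-- the constant of the test field -/
noncomputable def kk : ℝ := (d - 2) * P.rho / (2 * P.r)

/-- the Jacobian -/
noncomputable def Dl : ℝ := √d * (1 - P.rho) * (P.r * √(d / (d - 1))) ^ (d - 1)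

/-- component along a frame vector -/
noncomputable def ci (i : Fin d) (y : VI d → ℝ) : ℝ := ∑ k, P.e i k * y (some k)

/-- from whitened coordinates to values -/
noncomputable def val (y : SI d → ℝ) : Option (Fin d) → ℝ := fun o =>
  o.elim (y (some none) + y none) fun i => P.rho * y (some none) + P.r * P.ci i (vp y) + y none

/-- from values to whitened coordinates -/
noncomputable def wh (z : Option (Fin d) → ℝ) : SI d → ℝ := fun j =>
  j.elim (Wd P.lam z / (d - P.lam)) fun j => j.elim (z none - Wd P.lam z / (d - P.lam))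
    fun k => (d - 1) / (d * P.r) * ∑ i, P.e i k * z (some i)

/-- whitened coordinates of an edge without defect -/
noncomputable def ed0 (a c : ℝ) : Fin 2 → ℝ := ![P.cs * a + P.sn * c, P.sn * a - P.cs * c]

/-- whitened coordinates of an edge -/
noncomputable def ed (i : Fin d) (y : SI d → ℝ) : Fin 2 → ℝ :=
  ![P.cs * y (some none) + P.sn * P.ci i (vp y) + y none / P.cs,
    P.sn * y (some none) - P.cs * P.ci i (vp y)]

/-- variances of the edge -/
noncomputable def ve (κ t : ℝ) : Fin 2 → ℝ := ![κ ^ 2 + t + κ ^ 2 / P.cs ^ 2, κ ^ 2 + t]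

/-- the averaged edge law -/
noncomputable def edge (m : Mix (SI d)) : Mix (Fin 2) where
  Ω := m.Ω × Fin d
  p ω := m.p ω.1 / d
  p0 ω := div_nonneg (m.p0 _) (Nat.cast_nonneg _)
  p1 := by
    have : (d : ℝ) ≠ 0 := by have := P.hd; positivity
    simp only [Fintype.sum_prod_type, sum_const, card_univ, Fintype.card_fin, nsmul_eq_mul]
    rw [← mul_sum, ← sum_div, m.p1]
    field_simp
  x ω := P.ed ω.2 (m.x ω.1)

/-- the averaged edge law is symmetric -/
def Sym (m : Mix (SI d)) : Prop := ∀ g : ℝ → ℝ → ℝ,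
  ∑ i, m.E (fun y => g (P.val y none) (P.val y (some i))) =
    ∑ i, m.E fun y => g (P.val y (some i)) (P.val y none)

/-- the entropy functional along the flow -/
noncomputable def Phi (m : Mix (SI d)) (κ t : ℝ) : ℝ :=
  m.ent (vs d κ t) - d / 2 * (P.edge m).ent (P.ve κ t)

/-- the edge score in direction `a'` -/
noncomputable def za (m : Mix (SI d)) (κ t : ℝ) (e : Fin 2 → ℝ) : ℝ :=
  P.cs * (P.edge m).sc (P.ve κ t) 0 e + P.sn * (P.edge m).sc (P.ve κ t) 1 e

/-- the edge score in the direction of the frame vector -/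
noncomputable def zc (m : Mix (SI d)) (κ t : ℝ) (e : Fin 2 → ℝ) : ℝ :=
  P.sn * (P.edge m).sc (P.ve κ t) 0 e - P.cs * (P.edge m).sc (P.ve κ t) 1 e

/-- the star score in the direction of a frame vector -/
noncomputable def uu (m : Mix (SI d)) (κ t : ℝ) (i : Fin d) (y : SI d → ℝ) : ℝ :=
  ∑ k, P.e i k * m.sc (vs d κ t) (some (some k)) y

/-- its part that is not a function of the edge -/
noncomputable def ww (m : Mix (SI d)) (κ t : ℝ) (i : Fin d) (y : SI d → ℝ) : ℝ :=
  P.uu m κ t i y - P.zc m κ t (P.ed i y)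

/-- the difference of Fisher informations -/
noncomputable def Dr (m : Mix (SI d)) (κ t : ℝ) : ℝ :=
  ∑ j : VI d, m.Ex (vs d κ t) (fun y => m.sc (vs d κ t) (some j) y ^ 2) -
    d / 2 * ∑ j, (P.edge m).Ex (P.ve κ t) fun e => (P.edge m).sc (P.ve κ t) j e ^ 2

/-- the same as a sum of squares -/
noncomputable def Dd (m : Mix (SI d)) (κ t : ℝ) : ℝ :=
  (∑ i, ((d - 1 - P.kk ^ 2) * m.Ex (vs d κ t) (fun y => P.ww m κ t i y ^ 2) +
    m.Ex (vs d κ t) fun y => (m.sc (vs d κ t) (some none) y - P.za m κ t (P.ed i y) +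
      P.kk * P.ww m κ t i y) ^ 2)) / d

/-- the lattice law spread over a finer lattice, in whitened coordinates -/
noncomputable def mix (μ : Law d) (δ : ℝ) (K : ℕ) : Mix (SI d) where
  Ω := μ.A × (Option (Fin d) → Fin (K + 1))
  p ω := μ.p ω.1 / (K + 1) ^ (d + 1)
  p0 ω := div_nonneg (μ.pos _ ω.1.2).le (by positivity)
  p1 := by
    simp only [Fintype.sum_prod_type, sum_const, card_univ, Fintype.card_fun, Fintype.card_fin,
      Fintype.card_option, nsmul_eq_mul]
    rw [← mul_sum, ← sum_div, Finset.sum_coe_sort μ.A μ.p, μ.one]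
    push_cast
    field_simp
  x ω := P.wh fun o => δ * (ω.1.1 o + (ω.2 o : ℕ) / (K + 1 : ℝ))

/-- the hypotheses of the stability statements -/
structure Stab (m : Mix (SI d)) (κ t ε c0 L : ℝ) : Prop where
  sym : P.Sym m
  k0 : 0 < κ
  k1 : κ ≤ P.cs
  k2 : κ ^ 2 ≤ ε
  t1 : 1 < t
  t2 : t < 2
  dd : P.Dd m κ t ≤ ε
  om : m.E (fun y => y none ^ 2) ≤ ε
  bulk : c0 ≤ d - 1 - P.kk ^ 2
  mom : m.E (fun y => ‖y‖ ^ 2) ≤ L

end Par

/-- the score in the directions `c` is nearly linear on the cube of radius `T` -/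
def NL {d : ℕ} (F : Mix (VI d)) (v θ s T : ℝ) : Prop :=
  ∀ y : VI d → ℝ, ‖y‖ ≤ T → ∀ k, |F.sc (fun _ => v) (some k) y + θ * y (some k)| ≤ s

end Pool.Agent.P.MP_6b977f_mp.RG
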