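import Mathlib

/-! Regular graphs, stars and the covariance of the Gaussian wave on a star. -/

namespace Pool.Agent.P.MP_6b977f_mp.RG

open Finset
open scoped Classical

/-- the `d`-regular simple graphs on `N` labelled vertices -/
noncomputable def Reg (d N : ℕ) : Finset (SimpleGraph (Fin N)) :=
  univ.filter fun G => ∀ x, (G.neighborSet x).ncard = d

/-- the orderings of the neighbours of `x` -/
noncomputable def enum {N : ℕ} (d : ℕ) (G : SimpleGraph (Fin N)) (x : Fin N) :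
    Finset (Fin d → Fin N) :=
  univ.filter fun e => Function.Injective e ∧ ∀ i, G.Adj x (e i)

/-- the variance of `s X(o) + ∑ t i X(i)` for the Gaussian wave `X` of variance one and eigenvalue
`lam` on the `d`-regular tree, `o` a vertex and `i` its neighbours -/
noncomputable def cov (d : ℕ) (lam s : ℝ) (t : Fin d → ℝ) : ℝ :=
  s ^ 2 + 2 * (lam / d) * s * ∑ i, t i + ∑ i, t i ^ 2 +
    (lam ^ 2 / d - 1) / (d - 1) * ((∑ i, t i) ^ 2 - ∑ i, t i ^ 2)

/-- the empirical law of `ψ` on stars is close to the law of the Gaussian wave -/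
def Wave {N : ℕ} (d : ℕ) (G : SimpleGraph (Fin N)) (ψ : Fin N → ℝ) (lam R ε : ℝ) : Prop :=
  ∀ (s : ℝ) (t : Fin d → ℝ), |s| + ∑ i, |t i| ≤ R →
    ‖(∑ x, ∑ e ∈ enum d G x, Complex.exp (Complex.I * (s * ψ x + ∑ i, t i * ψ (e i) : ℝ))) /
        (N * d.factorial) - (Real.exp (-cov d lam s t / 2) : ℝ)‖ ≤ ε

/-- every normalised adjacency eigenvector with eigenvalue in the bulk is close to the wave -/
def Berry {N : ℕ} (d : ℕ) (κ R ε : ℝ) (G : SimpleGraph (Fin N)) : Prop :=
  ∀ (ψ : Fin N → ℝ) (lam : ℝ), (∀ x, ∑ y ∈ univ.filter (G.Adj x), ψ y = lam * ψ x) →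
    ∑ x, ψ x ^ 2 = N → |lam| ≤ 2 * √(d - 1) - κ → Wave d G ψ lam R ε

end Pool.Agent.P.MP_6b977f_mp.RG
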