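import Pool.Agent.P.MP_6b977f_mp.RG.LibU
import Pool.Agent.P.MP_6b977f_mp.RG.IfaceT

/-! Random markings of a configuration. -/

namespace Pool.Agent.P.MP_6b977f_mp.RG

open Finset MeasureTheory Real
open scoped Classical

namespace Tr
variable {d N : ℕ} (T : Tr d)

/-- the weight of a marking -/
noncomputable def W (t : T.P → ℝ) (M : Cfg d N) (a : Fin N → ℝ) (mk : Fin N → T.A) : ℝ :=
  ∏ x, T.qk t (a x) (star M mk x) / Fintype.card T.P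

/-- the copies of the tree in a configuration -/
noncomputable def emb (M : Cfg d N) : Finset (T.P → Fin N) :=
  univ.filter fun e => Function.Injective e ∧
    ∀ p, T.inner p → ∀ j, ∃ i, tip M (e p, i) = e (T.nb p j)

/-- the tree data describe the graph `G` -/
def Mod {m : ℕ} (G : SimpleGraph (Fin m)) (ι : T.P ≃ Fin m) : Prop := ∀ u v,
  G.Adj (ι u) (ι v) ↔ (T.inner u ∧ ∃ j, T.nb u j = v) ∨ (T.inner v ∧ ∃ j, T.nb v j = u)

end Tr

-- deps: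
def S_MARK : Prop := ∀ (d N : ℕ) (T : Tr d) (M : Cfg d N) (t : T.P → ℝ) (a : Fin N → ℝ),
  M ∈ Cf d N → ∑ mk, T.W t M a mk = 1 ∧
  ∑ mk, (T.W t M a mk : ℂ) * ∑ x, T.th (mk x) =
    (∑ e ∈ T.emb M, Complex.exp (Complex.I * (∑ p, t p * a (e p) : ℝ))) /
      (4 * Fintype.card T.P) ^ Fintype.card T.P

-- deps:
def S_TRU : Prop := ∀ (d m N : ℕ) (T : Tr d) (G : SimpleGraph (Fin m)) (ι : T.P ≃ Fin m)
  (M : Cfg d N) (F : (Fin m → Fin N) → ℂ), T.Mod G ι → M ∈ Cf d N →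
  ∑ e ∈ LW.emb G (graph M), F e = ∑ e ∈ T.emb M, F (e ∘ ι.symm)

-- deps:
def S_TREE : Prop := ∀ (d m : ℕ) (G : SimpleGraph (Fin m)), 3 ≤ d → LW.Full d G →
  ∃ (T : Tr d) (ι : T.P ≃ Fin m), T.Mod G ι ∧ ∀ (lam : ℝ) (a : Fin m → ℝ),
    ∃ al be Q cc : T.P → ℝ, T.Rec lam (a ∘ ι) al be Q cc ∧
      T.V lam (a ∘ ι) al be Q = varT d G lam a ∧
      T.c0 cc = d * (d - 1).factorial ^ #(LW.inn d G) / (4 * m) ^ m

end Pool.Agent.P.MP_6b977f_mp.RG
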