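import Pool.Agent.P.MP_6b977f_mp.RG.LibU

/-! Marked lattice mixtures and the hypotheses of the recursion. -/

set_option linter.dupNamespace false

namespace Pool.Agent.P.MP_6b977f_mp.RG

open Finset MeasureTheory Real
open scoped Classical

/-- the conditional variance given an edge -/
noncomputable def cv (d : ℕ) (lam : ℝ) (τ : Fin d → ℝ) : ℝ :=
  (d ^ 2 - lam ^ 2) / (d * (d - 1)) * (∑ i, τ i ^ 2 - (∑ i, τ i) ^ 2 / (d - 1))

namespace Par
variable {d : ℕ} (P : Par d)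

/-- the lattice law of the values `vl` spread over a finer lattice -/
noncomputable def mixU (μ : Law d) (vl : ℤ → ℤ) (δ : ℝ) (K : ℕ) : Mix (SI d) where
  Ω := μ.A × (Option (Fin d) → Fin (K + 1))
  p := (P.mix μ δ K).p
  p0 := (P.mix μ δ K).p0
  p1 := (P.mix μ δ K).p1
  x ω := P.wh fun o => δ * (vl (ω.1.1 o) + (ω.2 o : ℕ) / (K + 1 : ℝ))

/-- its marks -/
def kU {A : Type} (μ : Law d) (vl : ℤ → ℤ) (δ : ℝ) (K : ℕ) (mk : ℤ → A) :
    (P.mixU μ vl δ K).Ω → Option (Fin d) → A := fun ω => mk ∘ ω.1.1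

/-- conditional expectation given an edge -/
def CE (m : Mix (SI d)) (κ h K e : ℝ) : Prop :=
  ∀ (j : Fin d) (s : ℝ) (τ : Fin d → ℝ) (H : (Fin 2 → ℝ) → ℂ), τ j = 0 → |s| ≤ K →
    (∀ i, |τ i| ≤ K) → MB 1 H → ‖∫ y, H (P.ed j y) * (ch s τ (P.val y) -
      P.gE (-(∑ i, τ i) / (d - 1)) (s + P.lam / (d - 1) * ∑ i, τ i) (cv d P.lam τ) (P.ed j y)) *
        (m.den (vs d κ h) y : ℝ)‖ ≤ e

/-- the characteristic function on the star -/
def CH (m : Mix (SI d)) (κ h K e : ℝ) : Prop := ∀ (s : ℝ) (τ : Fin d → ℝ), |s| ≤ K →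
  (∀ i, |τ i| ≤ K) → ‖(∫ y, ch s τ (P.val y) * (m.den (vs d κ h) y : ℝ)) -
    (exp (-cov d P.lam s τ / 2) : ℝ)‖ ≤ e

variable (T : Tr d) (m : Mix (SI d)) (k : m.Ω → Option (Fin d) → T.A) (κ h : ℝ)

/-- first position -/
noncomputable def J1 (p : T.P) := P.JE m k κ h (fun c => c.1.1) p

/-- the mean of the product of the payloads of the children -/
noncomputable def Ab (w : Option (Fin d) → T.P) (y : SI d → ℝ) : ℂ :=
  if T.inner (w none) then
    if ∃ σ : Equiv.Perm (Fin d), ∀ i, w (some i) = T.nb (w none) (σ i) then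
      ∏ i, if T.dep (w none) < T.dep (w (some i)) then
        P.ub T m k κ h (w none) (w (some i)) (P.ed i y) else 1
    else 0
  else 1

/-- the marked law is close to the product model -/
def TV (t : T.P → ℝ) (e : ℝ) : Prop := ∀ G : (Option (Fin d) → T.A) → (SI d → ℝ) → ℂ,
  (∀ b, MB 1 (G b)) → ‖m.EC k (vs d κ h) G -
    ∫ y, (∑ b, G b y * (P.Qd T m k κ h t b y : ℝ)) * (m.den (vs d κ h) y : ℝ)‖ ≤ e

/-- the distance of the conditional mean of a payload from the Gaussian one -/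
noncomputable def er (al be Q cc : T.P → ℝ) (p c : T.P) : ℝ := (P.edge m).Ex (P.ve κ h) fun e =>
  ‖P.ub T m k κ h p c e - cc c * P.gE (al c) (be c) (Q c) e‖

/-- the hypotheses of the recursion -/
structure Gd (t al be Q cc : T.P → ℝ) (K e : ℝ) : Prop where
  sym : P.SymU m k
  k0 : 0 < κ
  h0 : 0 ≤ h
  rc : T.Rec P.lam t al be Q cc
  bt : ∀ p, |t p| ≤ K
  bd : ∀ p, p ≠ T.root → |al p| ≤ K ∧ |be p| ≤ K ∧ 0 ≤ Q p ∧ 0 ≤ cc p ∧ cc p ≤ 1
  tv : P.TV T m k κ h t e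
  ce : P.CE m κ h ((d + 1) * K) e
  chh : P.CH m κ h ((d + 1) * K) e

end Par

end Pool.Agent.P.MP_6b977f_mp.RG
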