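import Pool.Agent.P.MP_6b977f_mp.RG.IfaceA
import Pool.Agent.P.MP_6b977f_mp.RG.LibV

/-! Statements on marked mixtures. -/

namespace Pool.Agent.P.MP_6b977f_mp.RG

open Finset MeasureTheory Real
open scoped Classical

/-! ### entropy -/

-- deps:
def S_UFAR : Prop := ∀ (ι : Type) [Fintype ι] (B : Type) [Fintype B] (m : Mix ι) (k : m.Ω → B)
  (c : B → ι → ℝ) (v : ι → ℝ), (∀ j, 0 < v j) → (m.sh k c).ent v ≤ m.en k v ∧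
  ∀ Λ L e : ℝ, 0 < Λ → 0 < e → (∀ b b', b ≠ b' → Λ ≤ ‖c b - c b'‖) →
    m.Ex v (fun y => ‖y‖ ^ 2) ≤ L →
    m.en k v - (Fintype.card B + 1) * (e + 4 * L / (e * Λ ^ 2)) ≤ (m.sh k c).ent v

-- deps: FD FISH LAT1 LAT2 LSYM
def S_ULAT : Prop := ∀ (d : ℕ) (P : Par d) (μ : Law d) (f : ℤ → ℤ) (δ ε : ℝ), μ.Sym →
  (∀ s ∈ μ.A, ∀ s' ∈ μ.A, ∀ o o', f (s o) = f (s' o') → s o = s' o') → 0 < δ → 0 < ε →
  ∃ κ0 : ℝ, 0 < κ0 ∧ ∀ κ : ℝ, 0 < κ → κ ≤ κ0 → ∃ K : ℕ, ∀ h : ℝ, 0 ≤ h →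
    μ.Phi + log δ - log P.Dl + d / 2 * log P.r - ε ≤ P.Phi (P.mixU μ f δ K) κ h

-- deps:
def S_USY : Prop := ∀ (d : ℕ) (P : Par d) (A : Type) (μ : Law d) (vl : ℤ → ℤ) (mk : ℤ → A) (δ : ℝ)
  (K : ℕ), μ.Sym → P.SymU (P.mixU μ vl δ K) (P.kU μ vl δ K mk)

-- deps: INF ELL UFAR ULAT USY
def S_UENT : Prop := ∀ (d : ℕ) (P : Par d) (A : Type) [Fintype A] (μ : Law d) (vl : ℤ → ℤ)
  (mk : ℤ → A) (δ η ε h : ℝ), (Function.Injective fun n => (vl n, mk n)) → μ.Sym → 0 < δ → 0 < η →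
  0 < ε → 0 ≤ h → h ≤ 1 → ∃ (K : ℕ) (κ : ℝ), 0 < κ ∧ κ ^ 2 ≤ ε ∧
    -μ.gap0 vl δ η P.lam - ε ≤ P.HU (P.mixU μ vl δ K) (P.kU μ vl δ K mk) κ h

/-! ### the product model -/

-- deps:
def S_UGB : Prop := ∀ (ι : Type) [Fintype ι] (B : Type) [Fintype B] (m : Mix ι) (k : m.Ω → B)
  (v : ι → ℝ) (q G : B → (ι → ℝ) → ℝ), (∀ j, 0 < v j) → (∀ b, Measurable (q b)) →
  (∀ b y, 0 ≤ q b y) → (∀ y, ∑ b, q b y ≤ 1) → (∀ b, PG (G b)) →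
  (∀ ω, 0 < m.p ω → ∀ y, q (k ω) y = exp (-G (k ω) y)) → m.en k v - m.ent v ≤ m.EM k v G ∧
  ∀ (e : ℝ) (Φ : B → (ι → ℝ) → ℂ), 0 < e → (∀ b, MB 1 (Φ b)) →
    ‖m.EC k v Φ - ∫ y, (∑ b, Φ b y * (q b y : ℝ)) * (m.den v y : ℝ)‖ ≤
      (m.EM k v G - (m.en k v - m.ent v)) / (2 * e) + 2 * e

-- deps:
def S_UQA : Prop := ∀ (d : ℕ) (P : Par d) (T : Tr d) (m : Mix (SI d))
  (k : m.Ω → Option (Fin d) → T.A) (κ h : ℝ) (t : T.P → ℝ) (y : SI d → ℝ)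
  (f : (Option (Fin d) → T.P) → ℂ), 0 < κ → 0 ≤ h →
  ∑ b, f (fun o => (b o).1) * (P.Qd T m k κ h t b y : ℝ) =
    (∑ w, f w) / Fintype.card T.P ^ (d + 1) ∧
  ∑ b, f (fun o => (b o).1) * z4 (b none).2 * (P.Qd T m k κ h t b y : ℝ) =
    (∑ w, f w * (Complex.exp (Complex.I * (t (w none) * P.val y none : ℝ)) *
      P.Ab T m k κ h w y)) / (4 * Fintype.card T.P ^ (d + 1))

-- deps: UGB
def S_USW : Prop := ∀ (d : ℕ) (P : Par d) (T : Tr d) (m : Mix (SI d))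
  (k : m.Ω → Option (Fin d) → T.A) (κ h : ℝ), P.SymU m k → 0 < κ → 0 ≤ h →
  2 * (P.edge m).EM (P.kE m k) (P.ve κ h) (fun c e => -log (P.kap T m k κ h c.1 c.2 e)) ≤
    (P.edge m).en (P.kE m k) (P.ve κ h) +
      (P.edge m).EM (P.kE m k) (P.ve κ h) (fun c e => log (P.J2 T m k κ h c.1.1 c.2.1 e)) ∧
  2 * (P.edge m).EM (P.kE m k) (P.ve κ h) (fun c e => log (P.J1 T m k κ h c.1.1 e)) +
    (P.edge m).ent (P.ve κ h) ≤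
      (P.edge m).EM (P.kE m k) (P.ve κ h) fun c e => log (P.J2 T m k κ h c.1.1 c.2.1 e)

-- deps: UGB UQA USW
def S_UPROD : Prop := ∀ (d : ℕ) (P : Par d) (T : Tr d) (m : Mix (SI d))
  (k : m.Ω → Option (Fin d) → T.A) (κ h g e : ℝ) (t : T.P → ℝ), P.SymU m k → 0 < κ → 0 ≤ h →
  0 < e → m.EM k (vs d κ h) (fun b y => log (Fintype.card T.P) - log (T.qk t (P.val y none) b)) -
    g ≤ P.HU m k κ h → P.TV T m k κ h t ((d + 1) * g / (2 * e) + 2 * e)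

/-! ### Gaussian approximation -/

-- deps:
def S_UL1 : Prop := ∀ (ι : Type) [Fintype ι] (h ε : ℝ), 0 < h → 0 < ε → ∃ ε1 : ℝ, 0 < ε1 ∧
  ∀ (F : Mix ι) (v : ℝ), h ≤ v → v ≤ 2 →
  (∀ ξ : ι → ℝ, ‖ξ‖ ≤ 1 / ε1 → ‖F.chi ξ - (exp (-(∑ j, ξ j ^ 2) / 2) : ℝ)‖ ≤ ε1) →
  ∫ y, |F.den (fun _ => v) y - ker (fun _ => 1 + v) y| ≤ ε

-- deps:
def S_UFUB : Prop := ∀ (ι : Type) [Fintype ι] (F : ℝ → (ι → ℝ) → ℂ),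
  (Integrable fun y : Option ι → ℝ => F (y none) fun j => y (some j)) →
  (Integrable fun w => ∫ z, F w z) ∧
    ∫ y : Option ι → ℝ, F (y none) (fun j => y (some j)) = ∫ w, ∫ z, F w z

-- deps: UFUB
def S_UOM : Prop := ∀ (d : ℕ) (m : Mix (SI d)) (κ h C e : ℝ) (u : VI d → ℝ) (Φ : (VI d → ℝ) → ℂ),
  0 < κ → 0 < h → 0 < e → MB C Φ →
  ‖(∫ y, Φ (vp y + y none • u) * (m.den (vs d κ h) y : ℝ)) -
    ∫ z, Φ z * ((m.map vp).den (fun _ => κ ^ 2 + h) z : ℝ)‖ ≤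
      C * ((∑ j, u j ^ 2) * (m.E (fun y => y none ^ 2) + κ ^ 2) / (4 * e * h) + 2 * e)

-- deps: UFUB
def S_UGI : Prop := ∀ (ι : Type) [Fintype ι] (B : Fin 2 → ι → ℝ) (n : ι → ℝ) (w C : ℝ)
  (H : (Fin 2 → ℝ) → ℂ), 0 < w → (∀ k l, ∑ j, B k j * B l j = if k = l then 1 else 0) →
  (∀ k, ∑ j, B k j * n j = 0) → MB C H →
  ∫ z, H (fun k => ∑ j, B k j * z j) * Complex.exp (Complex.I * (∑ j, n j * z j : ℝ)) *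
      (ker (fun _ => w) z : ℝ) = (exp (-(w * ∑ j, n j ^ 2) / 2) : ℝ) *
    ∫ z, H (fun k => ∑ j, B k j * z j) * (ker (fun _ => w) z : ℝ)

-- deps: UOM UGI
def S_UCE : Prop := ∀ (d : ℕ) (K h ε : ℝ), 0 < h → 0 < ε → ∃ ε1 : ℝ, 0 < ε1 ∧
  ∀ (P : Par d) (m : Mix (SI d)) (κ : ℝ), 0 < κ → κ ^ 2 ≤ ε1 → m.E (fun y => y none ^ 2) ≤ ε1 →
  ∫ z, |(m.map vp).den (fun _ => κ ^ 2 + h) z - ker (fun _ => 1 + (κ ^ 2 + h)) z| ≤ ε1 →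
  P.CE m κ h K (ε + h)

-- deps:
def S_UXI : Prop := ∀ (d : ℕ) (P : Par d) (m : Mix (SI d)) (ξ : VI d → ℝ) (e : ℝ), 0 < e →
  ∃ (s : ℝ) (τ : Fin d → ℝ), |s| + ∑ i, |τ i| ≤ 4 * d ^ 2 * ‖ξ‖ ∧ cov d P.lam s τ = ∑ j, ξ j ^ 2 ∧
    ‖(m.map vp).chi ξ - ∑ ω, (m.p ω : ℂ) * ch s τ (P.val (m.x ω))‖ ≤
      4 * d ^ 2 * ‖ξ‖ * (e + m.E (fun y => y none ^ 2) / e)

-- deps:
def S_UNZ : Prop := ∀ (d : ℕ) (P : Par d) (κ h e : ℝ) (x : SI d → ℝ), 0 < κ → 0 ≤ h → 0 < e →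
  PG (fun y => ‖P.val y - P.val x‖) ∧
  ∫ y, ‖P.val y - P.val x‖ * ker (vs d κ h) (y - x) ≤ (d + 2) ^ 2 * (e + (κ ^ 2 + h) / e)

-- deps: UNZ
def S_UCP : Prop := ∀ (d : ℕ) (P : Par d) (T : Tr d) (μ : Law d) (vl : ℤ → ℤ) (mk : ℤ → T.A)
  (t : T.P → ℝ) (δ κ h e K : ℝ) (n : ℕ), 0 < δ → 0 < κ → 0 ≤ h → 0 < e → (∀ p, |t p| ≤ K) →
  (P.mixU μ vl δ n).E (fun y => y none ^ 2) ≤
    100 * μ.E (fun s => Wd P.lam (re δ (vl ∘ s)) ^ 2) + 3200 * δ ^ 2 ∧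
  (P.mixU μ vl δ n).EM (P.kU μ vl δ n mk) (vs d κ h)
    (fun b y => log (Fintype.card T.P) - log (T.qk t (P.val y none) b)) ≤
      μ.E (fun s => log (Fintype.card T.P) - log (T.qk t (δ * vl (s none)) (mk ∘ s))) +
        K * (δ + (d + 2) ^ 2 * (e + (κ ^ 2 + h) / e)) ∧
  (∀ (s : ℝ) (τ : Fin d → ℝ), ‖∑ ω, ((P.mixU μ vl δ n).p ω : ℂ) *
    ch s τ (P.val ((P.mixU μ vl δ n).x ω)) - ∑ z ∈ μ.A, (μ.p z : ℂ) * ch s τ (re δ (vl ∘ z))‖ ≤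
      (|s| + ∑ i, |τ i|) * δ) ∧
  (∀ (s : ℝ) (τ : Fin d → ℝ), ‖(∫ y, ch s τ (P.val y) * ((P.mixU μ vl δ n).den (vs d κ h) y : ℝ)) -
    ∑ z ∈ μ.A, (μ.p z : ℂ) * ch s τ (re δ (vl ∘ z))‖ ≤
      (|s| + ∑ i, |τ i|) * (δ + (d + 2) ^ 2 * (e + (κ ^ 2 + h) / e))) ∧
  (P.mixU μ vl δ n).EC (P.kU μ vl δ n mk) (vs d κ h) (fun b _ => T.th (b none)) =
    ∑ z ∈ μ.A, (μ.p z : ℂ) * T.th (mk (z none))

/-! ### the recursion -/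

-- deps:
def S_UBND : Prop := ∀ (d : ℕ) (T : Tr d) (K : ℝ), 3 ≤ d → ∃ K' : ℝ, K ≤ K' ∧
  ∀ (lam : ℝ) (t al be Q cc : T.P → ℝ), |lam| ≤ d → T.Rec lam t al be Q cc → (∀ p, |t p| ≤ K) →
  ∀ p, p ≠ T.root → |al p| ≤ K' ∧ |be p| ≤ K' ∧ 0 ≤ Q p ∧ 0 ≤ cc p ∧ cc p ≤ 1

-- deps: UQA
def S_UQB : Prop := ∀ (d : ℕ) (P : Par d) (T : Tr d) (m : Mix (SI d))
  (k : m.Ω → Option (Fin d) → T.A) (κ h : ℝ) (t : T.P → ℝ) (y : SI d → ℝ), 0 < κ → 0 ≤ h →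
  (∀ j p p', ∑ b, (ind ((b none).1 = p ∧ (b (some j)).1 = p') : ℝ) *
    (P.Qd T m k κ h t b y : ℂ) = 1 / Fintype.card T.P ^ 2) ∧
  (∀ j c p', ¬ T.inner c → ∑ b, (ind ((b none).1 = c ∧ (b (some j)).1 = p') : ℝ) * z4 (b none).2 *
    (P.Qd T m k κ h t b y : ℝ) =
      Complex.exp (Complex.I * (t c * P.val y none : ℝ)) / (4 * Fintype.card T.P ^ 2)) ∧
  (∀ j c, T.inner c → c ≠ T.root →
    ∑ b, (ind ((b none).1 = c ∧ (b (some j)).1 = T.par c) : ℝ) * z4 (b none).2 *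
      (P.Qd T m k κ h t b y : ℝ) = (∑ σ ∈ univ.filter fun σ : Equiv.Perm (Fin d) => σ j = T.up c,
        Complex.exp (Complex.I * (t c * P.val y none : ℝ)) *
          ∏ i ∈ univ.erase j, P.ub T m k κ h c (T.nb c (σ i)) (P.ed i y)) /
            (4 * Fintype.card T.P ^ (d + 1))) ∧
  ∑ b, T.th (b none) * (P.Qd T m k κ h t b y : ℝ) = (∑ σ : Equiv.Perm (Fin d),
    Complex.exp (Complex.I * (t T.root * P.val y none : ℝ)) *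
      ∏ i, P.ub T m k κ h T.root (T.nb T.root (σ i)) (P.ed i y)) / (4 * Fintype.card T.P ^ (d + 1))

-- deps:
def S_URP : Prop := ∀ (d : ℕ) (P : Par d) (T : Tr d) (m : Mix (SI d))
  (k : m.Ω → Option (Fin d) → T.A) (κ h : ℝ) (t al be Q cc : T.P → ℝ) (K e : ℝ) (p : T.P)
  (c : Fin d → T.P) (I : Finset (Fin d)) (Ψ : (SI d → ℝ) → ℂ), P.Gd T m k κ h t al be Q cc K e →
  (∀ i ∈ I, c i ≠ T.root) → MB 1 Ψ →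
  ‖(∫ y, Ψ y * (Complex.exp (Complex.I * (t p * P.val y none : ℝ)) *
      ∏ i ∈ I, P.ub T m k κ h p (c i) (P.ed i y)) * (m.den (vs d κ h) y : ℝ)) -
    (((∏ i ∈ I, cc (c i)) * exp (-(∑ i ∈ I, Q (c i)) / 2) : ℝ) : ℂ) *
      ∫ y, Ψ y * ch (t p + ∑ i ∈ I, be (c i)) (fun i => if i ∈ I then al (c i) else 0) (P.val y) *
        (m.den (vs d κ h) y : ℝ)‖ ≤ d * ∑ i ∈ I, P.er T m k κ h al be Q cc p (c i)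

-- deps: UQB
def S_UJ2 : Prop := ∀ (d : ℕ) (P : Par d) (T : Tr d) (m : Mix (SI d))
  (k : m.Ω → Option (Fin d) → T.A) (κ h : ℝ) (t : T.P → ℝ) (e : ℝ) (p c : T.P)
  (H : (Fin 2 → ℝ) → ℂ), P.SymU m k → 0 < κ → 0 ≤ h → P.TV T m k κ h t e → MB 1 H →
  ‖(∫ z, H z * P.ub T m k κ h p c z * ((P.edge m).den (P.ve κ h) z : ℝ)) / Fintype.card T.P ^ 2 -
    (∑ j, ∫ y, H (PMx.R (P.ed j y)) * (∑ b, (ind ((b none).1 = c ∧ (b (some j)).1 = p) : ℝ) *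
      z4 (b none).2 * (P.Qd T m k κ h t b y : ℝ)) * (m.den (vs d κ h) y : ℝ)) / d‖ ≤ 2 * e

-- deps: UQB URP UJ2
def S_URS : Prop := ∀ (d : ℕ) (T : Tr d), ∃ C : ℝ, 0 ≤ C ∧ ∀ (P : Par d) (m : Mix (SI d))
  (k : m.Ω → Option (Fin d) → T.A) (κ h : ℝ) (t al be Q cc : T.P → ℝ) (K e : ℝ),
  P.Gd T m k κ h t al be Q cc K e → ∀ c, c ≠ T.root →
  P.er T m k κ h al be Q cc (T.par c) c ≤ C * (e + ind (T.inner c) *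
    ∑ i ∈ univ.erase (T.up c), P.er T m k κ h al be Q cc c (T.nb c i))

-- deps: UQB URP
def S_URT : Prop := ∀ (d : ℕ) (T : Tr d), ∃ C : ℝ, 0 ≤ C ∧ ∀ (P : Par d) (m : Mix (SI d))
  (k : m.Ω → Option (Fin d) → T.A) (κ h : ℝ) (t al be Q cc : T.P → ℝ) (K e : ℝ),
  P.Gd T m k κ h t al be Q cc K e →
  ‖m.EC k (vs d κ h) (fun b _ => T.th (b none)) -
    (T.c0 cc * exp (-T.V P.lam t al be Q / 2) : ℝ)‖ ≤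
      C * (e + ∑ i, P.er T m k κ h al be Q cc T.root (T.nb T.root i))

-- deps: URS URT
def S_UREC : Prop := ∀ (d : ℕ) (T : Tr d), ∃ C : ℝ, 0 ≤ C ∧ ∀ (P : Par d) (m : Mix (SI d))
  (k : m.Ω → Option (Fin d) → T.A) (κ h : ℝ) (t al be Q cc : T.P → ℝ) (K e : ℝ),
  P.Gd T m k κ h t al be Q cc K e →
  ‖m.EC k (vs d κ h) (fun b _ => T.th (b none)) -
    (T.c0 cc * exp (-T.V P.lam t al be Q / 2) : ℝ)‖ ≤ C * e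

-- deps: UENT USY UPROD UL1 UCE UXI UCP UBND UREC
def S_AN3 : Prop := ∀ (d : ℕ) (T : Tr d) (K ε : ℝ), 0 < ε → ∃ ε1 : ℝ, 0 < ε1 ∧
  ∀ (P : Par d) (μ : Law d) (vl : ℤ → ℤ) (mk : ℤ → T.A) (δ η : ℝ) (t al be Q cc : T.P → ℝ),
  (Function.Injective fun n => (vl n, mk n)) → T.Rec P.lam t al be Q cc → (∀ p, |t p| ≤ K) →
  μ.Sym → 0 < δ → δ ≤ ε1 → 0 < η → μ.gapU T vl mk t δ η P.lam ≤ ε1 →
  μ.E (fun s => Wd P.lam (re δ (vl ∘ s)) ^ 2) ≤ ε1 →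
  (∀ (s : ℝ) (τ : Fin d → ℝ), |s| + ∑ i, |τ i| ≤ 1 / ε1 →
    ‖∑ z ∈ μ.A, (μ.p z : ℂ) * ch s τ (re δ (vl ∘ z)) - (exp (-cov d P.lam s τ / 2) : ℝ)‖ ≤ ε1) →
  ‖∑ z ∈ μ.A, (μ.p z : ℂ) * T.th (mk (z none)) -
    (T.c0 cc * exp (-T.V P.lam t al be Q / 2) : ℝ)‖ ≤ ε

end Pool.Agent.P.MP_6b977f_mp.RG
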