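import Pool.Agent.P.MP_6b977f_mp.RG.IfaceM
import Pool.Agent.P.MP_6b977f_mp.RG.IfaceU

/-! The counting step for all radii. -/

namespace Pool.Agent.P.MP_6b977f_mp.RG

open Finset MeasureTheory Real
open scoped Classical

-- deps: FR AN3 MARK TRU FIBU FIB
def S_CU : Prop := ∀ (d m : ℕ) (T : SimpleGraph (Fin m)) (b : Fin m → ℝ) (a ε : ℝ), 3 ≤ d →
  LW.Full d T → 0 < a → a ≤ 1 / 100 → 0 < ε → ∃ (ε1 C : ℝ) (N0 : ℕ), 0 < ε1 ∧ 0 < C ∧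
  ∀ N : ℕ, N0 ≤ N → ∀ (lam' : ℝ) (w : ℂ), lam' ^ 2 ≤ 4 * (d - 1) → ‖w‖ ≤ 1 →
  (#((Cf d N).filter fun M => Simple M ∧
    LD M lam' ((N : ℝ) ^ (-(2 * a))) ≤ ell d lam' + (N : ℝ) ^ (-a) ∧
    ∃ ψ lam, Eig M ψ lam ∧ |lam| ≤ d ∧ |lam - lam'| ≤ 1 / N ∧
      (∀ (s : ℝ) (t : Fin d → ℝ), |s| + ∑ i, |t i| ≤ 1 / ε1 →
        ‖chi M ψ s t - (exp (-cov d lam s t / 2) : ℝ)‖ ≤ ε1) ∧
      ε ≤ (w * (chiT d T (graph M) ψ b - (exp (-varT d T lam' b / 2) : ℝ))).re) : ℝ) ≤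
    C * exp (-(N : ℝ) ^ (1 - a)) * #(Cf d N)

-- redeps CONFU: DET CONF CU

end Pool.Agent.P.MP_6b977f_mp.RG
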