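import Pool.Agent.P.MP_6b977f_mp.RG.LibT43

/-! The distance in the mean to the product model. -/

set_option linter.unusedSectionVars false

namespace Pool.Agent.P.MP_6b977f_mp.RG.H43

open MeasureTheory Finset Real

variable {K : Type} [Fintype K] [DecidableEq K]

/-- the character -/
noncomputable def ch (ζ y : Option K → ℝ) : ℂ := Complex.exp (Complex.I * (∑ j, ζ j * y j : ℝ))

/-- the characteristic function of a density -/
noncomputable def chi (F : (Option K → ℝ) → ℝ) (ζ : Option K → ℝ) : ℂ := ∫ y, (F y : ℂ) * ch ζ y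

theorem norm_ch (ζ y : Option K → ℝ) : ‖ch ζ y‖ = 1 := by
  rw [ch, mul_comm, Complex.norm_exp_ofReal_mul_I]

theorem ch_cont (ζ : Option K → ℝ) : Continuous (ch ζ) := by unfold ch; fun_prop

theorem ch_intb {F : (Option K → ℝ) → ℝ} (h : Integrable F) (ζ : Option K → ℝ) :
    Integrable fun y => (F y : ℂ) * ch ζ y :=
  h.ofReal.mul_bdd (c := 1) (ch_cont ζ).aestronglyMeasurable
    (ae_of_all _ fun y => (norm_ch ζ y).le)

theorem chi_sub {F G : (Option K → ℝ) → ℝ} (h : Integrable F) (h' : Integrable G)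
    (ζ : Option K → ℝ) : ‖chi F ζ - chi G ζ‖ ≤ ∫ y, |F y - G y| := by
  rw [chi, chi, ← integral_sub (ch_intb h ζ) (ch_intb h' ζ)]
  refine (norm_integral_le_integral_norm _).trans_eq (congrArg _ (funext fun y => ?_))
  rw [← sub_mul, norm_mul, norm_ch, mul_one, ← Complex.ofReal_sub, Complex.norm_real, norm_eq_abs]

theorem sq_nonneg' (y : Option K → ℝ) : 0 ≤ sq y := sum_nonneg fun _ _ => sq_nonneg _

theorem prod_g (θ : ℝ) (y : Option K → ℝ) : ∏ k, g θ (y (some k)) = exp (-(θ / 2) * sq y) := by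
  simp only [g, ← exp_sum, sq, mul_sum]

theorem tail_pt {θ0 θ s : ℝ} (h0 : 0 < θ0) (h : θ0 ≤ θ) (hs : 0 ≤ s) :
    (s + s ^ 2) * exp (-(θ / 2) * s) ≤ (4 / θ0 + 32 / θ0 ^ 2) * exp (-(θ / 2 / 2) * s) := by
  have e : exp (-(θ / 2 / 2) * s) = exp (θ / 4 * s) * exp (-(θ / 2) * s) := by
    rw [← exp_add]; congr 1; ring
  have a : exp (θ0 / 4 * s) ≤ exp (θ / 4 * s) := by gcongr
  have b := quadratic_le_exp_of_nonneg (show 0 ≤ θ0 / 4 * s by positivity)
  rw [e, ← mul_assoc]
  refine mul_le_mul_of_nonneg_right ?_ (exp_pos _).le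
  have c1 : s ≤ 4 / θ0 * exp (θ / 4 * s) := by
    rw [div_mul_eq_mul_div, le_div_iff₀ h0]; nlinarith [sq_nonneg (θ0 / 4 * s)]
  have c2 : s ^ 2 ≤ 32 / θ0 ^ 2 * exp (θ / 4 * s) := by
    rw [div_mul_eq_mul_div, le_div_iff₀ (by positivity)]; nlinarith [mul_nonneg h0.le hs]
  linarith

section model
variable {p : ℝ → ℝ} {θ : ℝ} (hp : Integrable p) (hθ : 0 < θ)

/-- the product model -/
noncomputable def Ft (p : ℝ → ℝ) (θ : ℝ) (y : Option K → ℝ) : ℝ :=
  p (y none) * ∏ k, g θ (y (some k))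

theorem Ft_int (p : ℝ → ℝ) (θ : ℝ) :
    ∫ y : Option K → ℝ, Ft p θ y = (∫ x, p x) * Z θ ^ Fintype.card K := by
  unfold Ft
  rw [opt_int p fun _ => g θ]; simp [g_int]

theorem sq_Ft (p : ℝ → ℝ) (θ : ℝ) (y : Option K → ℝ) : sq y * Ft p θ y =
    ∑ k, p (y none) * ∏ l, (if l = k then y (some l) ^ 2 else 1) * g θ (y (some l)) := by
  simp only [prod_mul_distrib, prod_ite_eq', mem_univ, if_true, sq, Ft, sum_mul]
  exact sum_congr rfl fun k _ => by ring

include hp hθ

theorem Ft_intb : Integrable (Ft (K := K) p θ) := opt_intb hp fun _ => g_intb hθ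

theorem sq_Ft_aux (k l : K) :
    Integrable fun x : ℝ => (if l = k then x ^ 2 else 1) * g θ x := by
  split_ifs
  · exact g_sq_intb hθ
  · simpa using g_intb hθ

theorem sq_Ft_intb : Integrable fun y : Option K → ℝ => sq y * Ft p θ y := by
  simp only [sq_Ft]
  exact integrable_finsetSum _ fun k _ => opt_intb hp (sq_Ft_aux hp hθ k)

theorem sq_Ft_int : ∫ y : Option K → ℝ, sq y * Ft p θ y =
    Fintype.card K / θ * ∫ y : Option K → ℝ, Ft p θ y := by
  simp only [sq_Ft]
  rw [integral_finsetSum _ fun k _ => opt_intb hp (sq_Ft_aux hp hθ k), Ft_int]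
  have : ∀ k : K, ∫ y : Option K → ℝ, p (y none) *
      ∏ l, (if l = k then y (some l) ^ 2 else 1) * g θ (y (some l)) =
      (∫ x, p x) * (θ⁻¹ * Z θ ^ Fintype.card K) := fun k => by
    rw [opt_int p fun l x => (if l = k then x ^ 2 else 1) * g θ x]
    have : ∀ l : K, ∫ x : ℝ, (if l = k then x ^ 2 else 1) * g θ x =
        (if l = k then θ⁻¹ else 1) * Z θ := fun l => by
      split_ifs
      · rw [g_sq hθ]; ring
      · simp [g_int]
    simp only [this, prod_mul_distrib, prod_ite_eq', mem_univ, if_true, prod_const, card_univ]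
  simp only [this, sum_const, card_univ, nsmul_eq_mul]; ring

theorem chi_Ft (ζ : Option K → ℝ) : chi (Ft p θ) ζ =
    chi (Ft p θ) (Pi.single none (ζ none) : Option K → ℝ) * (exp (-sq ζ / (2 * θ)) : ℝ) := by
  have : ∀ ζ : Option K → ℝ, chi (Ft p θ) ζ =
      (∫ x : ℝ, (p x : ℂ) * Complex.exp (Complex.I * (ζ none * x : ℝ))) *
        (Z θ ^ Fintype.card K * exp (-sq ζ / (2 * θ)) : ℝ) := fun ζ => by
    have := opt_int (K := K) (fun x : ℝ => (p x : ℂ) * Complex.exp (Complex.I * (ζ none * x : ℝ)))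
      fun k x => (g θ x : ℂ) * Complex.exp (Complex.I * (ζ (some k) * x : ℝ))
    simp only [g_char hθ] at this
    rw [← Complex.ofReal_prod, prod_mul_distrib, prod_const, card_univ, ← exp_sum, ← sum_div,
      sum_neg_distrib] at this
    rw [sq, ← this, chi]
    congr 1; ext y
    simp only [Ft, ch, Fintype.sum_option, Complex.ofReal_add, Complex.ofReal_sum, mul_add, mul_sum,
      Complex.exp_add, Complex.exp_sum, prod_mul_distrib, Complex.ofReal_mul, Complex.ofReal_prod]
    ring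
  rw [this, this]
  simp [sq]; ring

end model

theorem l1_abs {F w : (Option K → ℝ) → ℝ} (hF : ∀ y, 0 < F y) (cF : Continuous F)
    (i1 : Integrable F) (h1 : ∫ y, F y = 1) (i2 : Integrable fun y => sq y * F y)
    {θ0 θ T e κ δ : ℝ} (w0 : ∀ y, 0 ≤ w y) (wT : ∀ y, (∃ j, T < |y j|) → 1 + sq y ≤ w y)
    (iw : Integrable fun y => w y * F y) (h0 : 0 < θ0) (hθ : θ0 ≤ θ) (hT : 0 < T) (e0 : 0 ≤ e)
    (e1 : e ≤ 1) (hS : St F θ T e)
    (hκ : (4 / θ0 + 32 / θ0 ^ 2) / T ^ 2 * 2 ^ Fintype.card K ≤ κ) (κ1 : κ ≤ 1 / 2)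
    (hδ : 2 * (2 * e * (1 + ∫ y, sq y * F y) + (∫ y, w y * F y) + κ) ≤ δ) :
    (∀ ζ, ‖chi F ζ - chi F (Pi.single none (ζ none)) * (exp (-sq ζ / (2 * θ)) : ℝ)‖ ≤ 2 * δ) ∧
      |(∫ y, sq y * F y) - Fintype.card K / θ| ≤ δ * (1 + Fintype.card K / θ0) := by
  have θp : 0 < θ := h0.trans_le hθ
  set p : ℝ → ℝ := (Set.Icc (-T) T).indicator fun a => F (Pi.single none a) with hp
  have ip : Integrable p := by
    rw [hp, integrable_indicator_iff measurableSet_Icc]
    exact (cF.comp (continuous_single (A := fun _ : Option K => ℝ) none)).integrableOn_Icc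
  have p0 : ∀ a, 0 ≤ p a := fun a => Set.indicator_nonneg (fun _ _ => (hF _).le) a
  set B := (4 / θ0 + 32 / θ0 ^ 2) / T ^ 2
  have B0 : 0 ≤ B := by positivity
  have key : ∀ y, (1 + sq y) * |F y - Ft p θ y| ≤
      2 * e * (F y + sq y * F y) + w y * F y + B * Ft p (θ / 2) y := by
    intro y
    have f0 := hF y
    have s0 := sq_nonneg' y
    have t0 : ∀ t, 0 ≤ Ft p t y := fun t =>
      mul_nonneg (p0 _) (prod_nonneg fun _ _ => (g_pos _ _).le)
    have := mul_nonneg (w0 y) f0.le
    have := mul_nonneg B0 (t0 (θ / 2))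
    by_cases hy : ∀ j, |y j| ≤ T
    · have a := hS y hy
      have b : Ft p θ y = F y * exp (-(log (F y) - log (F (Pi.single none (y none))) +
          θ / 2 * ∑ k, y (some k) ^ 2)) := by
        rw [Ft, prod_g, hp, Set.indicator_of_mem (Set.mem_Icc.2 (abs_le.1 (hy none))),
          ← exp_log f0, ← exp_log (hF (Pi.single none (y none))), ← exp_add, ← exp_add, log_exp,
          log_exp, sq]
        congr 1; ring
      have c := abs_exp_sub_one_le (show |-(log (F y) - log (F (Pi.single none (y none))) +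
          θ / 2 * ∑ k, y (some k) ^ 2)| ≤ 1 by rw [abs_neg]; linarith)
      rw [abs_neg] at c
      have d : |F y - Ft p θ y| ≤ 2 * e * F y := by
        rw [b, ← mul_one_sub, abs_mul, abs_of_pos f0, abs_sub_comm]; nlinarith
      nlinarith [mul_le_mul_of_nonneg_left d (show 0 ≤ 1 + sq y by linarith)]
    · push Not at hy
      have a := mul_le_mul_of_nonneg_right (wT y hy) f0.le
      have b : (1 + sq y) * Ft p θ y ≤ B * Ft p (θ / 2) y := by
        obtain ⟨_ | k, hk⟩ := hy
        · have : p (y none) = 0 := Set.indicator_of_notMem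
            (fun h => absurd (abs_le.2 (Set.mem_Icc.1 h)) (not_le.2 hk)) _
          simp [Ft, this]
        · have c : T ^ 2 ≤ sq y := le_trans (by rw [← sq_abs (y _)]; gcongr)
            (single_le_sum (f := fun k => y (some k) ^ 2) (fun _ _ => sq_nonneg _) (mem_univ k))
          have d := tail_pt h0 hθ s0
          rw [Ft, Ft, prod_g, prod_g, mul_left_comm, mul_left_comm B]
          refine mul_le_mul_of_nonneg_left ?_ (p0 _)
          rw [div_mul_eq_mul_div, le_div_iff₀ (by positivity)]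
          refine le_trans ?_ d
          rw [mul_right_comm]
          exact mul_le_mul_of_nonneg_right (by nlinarith) (exp_pos _).le
      have c : |F y - Ft p θ y| ≤ F y + Ft p θ y := by
        rw [abs_le]; constructor <;> linarith [t0 θ]
      have := mul_nonneg e0 (add_nonneg f0.le (mul_nonneg s0 f0.le))
      nlinarith [mul_le_mul_of_nonneg_left c (show 0 ≤ 1 + sq y by linarith)]
  have j1 := Ft_intb (K := K) ip θp
  have j2 := sq_Ft_intb (K := K) ip θp
  have j3 := Ft_intb (K := K) ip (half_pos θp)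
  have k1 : Integrable fun y => |F y - Ft p θ y| := (i1.sub j1).abs
  have k2 : Integrable fun y => |sq y * F y - sq y * Ft p θ y| := (i2.sub j2).abs
  have I := integral_mono (k1.add k2) ((((i1.add i2).const_mul (2 * e)).add iw).add
    (j3.const_mul B)) fun y => by
      have := key y
      rw [add_mul, one_mul, ← abs_of_nonneg (sq_nonneg' y), ← abs_mul, mul_sub,
        abs_of_nonneg (sq_nonneg' y)] at this
      exact this
  rw [integral_add' k1 k2, integral_add' (((i1.add i2).const_mul _).add iw) (j3.const_mul _),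
    integral_add' ((i1.add i2).const_mul _) iw, integral_const_mul, integral_const_mul,
    integral_add' i1 i2, h1] at I
  set A := ∫ y : Option K → ℝ, Ft p θ y
  set d1 := ∫ y, |F y - Ft p θ y|
  set d2 := ∫ y, |sq y * F y - sq y * Ft p θ y|
  have d10 : 0 ≤ d1 := integral_nonneg fun _ => abs_nonneg _
  have d20 : 0 ≤ d2 := integral_nonneg fun _ => abs_nonneg _
  have a1 : |1 - A| ≤ d1 := by
    rw [← h1, ← integral_sub i1 j1]; exact abs_integral_le_integral_abs
  have a2 : |(∫ y, sq y * F y) - Fintype.card K / θ * A| ≤ d2 := by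
    rw [← sq_Ft_int ip θp, ← integral_sub i2 j2]; exact abs_integral_le_integral_abs
  have P0 : 0 ≤ ∫ x, p x := integral_nonneg p0
  have Zp := Z_pos θp
  have A0 : 0 ≤ A := by simp only [A, Ft_int]; positivity
  have a3 : B * ∫ y : Option K → ℝ, Ft p (θ / 2) y ≤ κ * A := by
    refine le_trans ?_ (mul_le_mul_of_nonneg_right hκ A0)
    simp only [A, Ft_int]
    rw [mul_assoc B, mul_left_comm (_ ^ _), ← mul_pow]
    gcongr
    · exact (Z_pos (half_pos θp)).le
    · exact Z_half θp
  have κ0 : 0 ≤ κ := le_trans (by positivity) hκ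
  have a4 : d1 + d2 ≤ δ := by
    have := mul_le_mul_of_nonneg_left (show A ≤ 1 + d1 by linarith [(abs_le.1 a1).1]) κ0
    nlinarith
  refine ⟨fun ζ => ?_, ?_⟩
  · have b1 := chi_sub i1 j1 ζ
    have b2 := chi_sub i1 j1 (Pi.single none (ζ none))
    rw [chi_Ft ip θp ζ] at b1
    have b3 : ‖((exp (-sq ζ / (2 * θ)) : ℝ) : ℂ)‖ ≤ 1 := by
      rw [Complex.norm_real, norm_eq_abs, abs_of_pos (exp_pos _), exp_le_one_iff, neg_div,
        neg_nonpos]
      exact div_nonneg (sq_nonneg' ζ) (by positivity)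
    refine (norm_sub_le_norm_sub_add_norm_sub _ _ _).trans (add_le_add b1 ?_ |>.trans
      (show d1 + d1 ≤ 2 * δ by linarith))
    rw [← sub_mul, norm_mul, norm_sub_rev]
    exact (mul_le_of_le_one_right (norm_nonneg _) b3).trans b2
  · have q0 : (0 : ℝ) ≤ Fintype.card K / θ := by positivity
    have q1 : (Fintype.card K : ℝ) / θ ≤ Fintype.card K / θ0 := by gcongr
    have b : |Fintype.card K / θ * A - Fintype.card K / θ| ≤ Fintype.card K / θ0 * d1 := by
      rw [← mul_sub_one, abs_mul, abs_of_nonneg q0, abs_sub_comm]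
      exact mul_le_mul q1 a1 (abs_nonneg _) (q0.trans q1)
    have := abs_sub_le (∫ y, sq y * F y) (Fintype.card K / θ * A) (Fintype.card K / θ)
    nlinarith [mul_le_mul_of_nonneg_left (show d1 ≤ δ by linarith) (q0.trans q1)]

end Pool.Agent.P.MP_6b977f_mp.RG.H43
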