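import Mathlib

/-! Gaussian integrals on the line and on products. -/

namespace Pool.Agent.P.MP_6b977f_mp.RG.H43

open MeasureTheory Finset Real

/-- the unnormalised Gaussian -/
noncomputable def g (θ x : ℝ) : ℝ := exp (-(θ / 2) * x ^ 2)

/-- its mass -/
noncomputable def Z (θ : ℝ) : ℝ := √(π / (θ / 2))

variable {θ : ℝ}

theorem g_pos (θ x : ℝ) : 0 < g θ x := exp_pos _

theorem Z_pos (h : 0 < θ) : 0 < Z θ := by unfold Z; positivity

theorem g_intb (h : 0 < θ) : Integrable (g θ) := integrable_exp_neg_mul_sq (half_pos h)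

theorem g_int (θ : ℝ) : ∫ x, g θ x = Z θ := integral_gaussian _

theorem g_sq_intb (h : 0 < θ) : Integrable fun x => x ^ 2 * g θ x := by
  have := integrable_rpow_mul_exp_neg_mul_sq (half_pos h) (s := 2) (by norm_num)
  simpa only [rpow_two, g] using this

theorem g_lin_intb (h : 0 < θ) : Integrable fun x => x * g θ x :=
  integrable_mul_exp_neg_mul_sq (half_pos h)

theorem g_der (θ x : ℝ) : HasDerivAt (g θ) (-θ * (x * g θ x)) x := by
  have := ((hasDerivAt_pow 2 x).const_mul (-(θ / 2))).exp
  refine this.congr_deriv ?_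
  simp [g]; ring

theorem g_lin (h : 0 < θ) : ∫ x, x * g θ x = 0 := by
  have := integral_eq_zero_of_hasDerivAt_of_integrable (g_der θ)
    ((g_lin_intb h).const_mul _) (g_intb h)
  rw [integral_const_mul] at this
  exact (mul_eq_zero.1 this).resolve_left (by linarith)

theorem g_sq (h : 0 < θ) : ∫ x, x ^ 2 * g θ x = Z θ / θ := by
  have := integral_eq_zero_of_hasDerivAt_of_integrable
    (f := fun x => x * g θ x) (f' := fun x => g θ x - θ * (x ^ 2 * g θ x))
    (fun x => ((hasDerivAt_id' x).fun_mul (g_der θ x)).congr_deriv (by ring))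
    ((g_intb h).sub ((g_sq_intb h).const_mul _)) (g_lin_intb h)
  rw [integral_sub (g_intb h) ((g_sq_intb h).const_mul _), integral_const_mul, g_int] at this
  field_simp; linarith

theorem g_char (h : 0 < θ) (t : ℝ) :
    ∫ x : ℝ, (g θ x : ℂ) * Complex.exp (Complex.I * (t * x : ℝ)) =
      (Z θ * exp (-t ^ 2 / (2 * θ)) : ℝ) := by
  have := fourierIntegral_gaussian (b := (θ / 2 : ℝ)) (by simpa using h) t
  rw [← Complex.ofReal_div, show (1 / 2 : ℂ) = (1 / 2 : ℝ) by simp,
    ← Complex.ofReal_cpow (by positivity), ← sqrt_eq_rpow] at this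
  convert this using 1
  · congr 1; ext x; simp only [g]; push_cast; rw [mul_comm, mul_assoc]
  · simp only [Z]; push_cast; congr 2; ring

theorem Z_half (h : 0 < θ) : Z (θ / 2) ≤ 2 * Z θ := by
  unfold Z
  rw [sqrt_le_left (by positivity), mul_pow, sq_sqrt (by positivity)]
  have := pi_pos
  rw [show π / (θ / 2 / 2) = 2 * (π / (θ / 2)) by field_simp]
  have : 0 < π / (θ / 2) := by positivity
  linarith

end Pool.Agent.P.MP_6b977f_mp.RG.H43
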