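import Pool.Agent.P.MP_6b977f_mp.RG.LibJen

/-! The disc variable `w` versus the spectral parameters `(λ, γ)`. -/

set_option autoImplicit false

namespace Pool.Agent.P.MP_6b977f_mp.RG.Jen

open Real Metric Complex

variable {ι : Type*} [Fintype ι] {q : ℝ} {w : ℂ}

/-- Regularised log-determinant of a finite family. -/
noncomputable def Sf (ev : ι → ℝ) (lam gam : ℝ) : ℝ :=
  (2 * Fintype.card ι : ℝ)⁻¹ * ∑ j, Real.log ((ev j - lam) ^ 2 + gam ^ 2)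

/-- The logarithmic potential of the Kesten-McKay law in the bulk. -/
noncomputable def lf (q lam : ℝ) : ℝ :=
  q / 2 * Real.log q - (q - 1) / 4 * Real.log ((q + 1) ^ 2 - lam ^ 2)

lemma Sf_mono (ev : ι → ℝ) (lam : ℝ) {g g' : ℝ} (h0 : 0 < g) (h : g ≤ g') :
    Sf ev lam g ≤ Sf ev lam g' :=
  mul_le_mul_of_nonneg_left (Finset.sum_le_sum fun _ _ => Real.log_le_log (by positivity)
    (by gcongr)) (by positivity)

lemma nsq (q y : ℝ) (hq : 0 < q) {r : ℝ} (hr : 0 < r) (hw : ‖w‖ = r) :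
    ‖1 - (y / √q : ℝ) * w + w ^ 2‖ ^ 2 = r ^ 2 / q *
      ((y - √q * (1 + r⁻¹ ^ 2) * w.re) ^ 2 + (√q * (r⁻¹ ^ 2 - 1) * |w.im|) ^ 2) := by
  have h1 : w.re ^ 2 + w.im ^ 2 = r ^ 2 := by
    rw [← hw, ← Complex.normSq_eq_norm_sq, normSq_apply]; ring
  have hs : 0 < √q := Real.sqrt_pos.2 hq
  rw [← Complex.normSq_eq_norm_sq, mul_pow _ |w.im|, sq_abs]
  nth_rewrite 2 [← Real.sq_sqrt hq.le]
  simp only [normSq_apply, add_re, sub_re, one_re, add_im, sub_im, one_im, sq w,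
    mul_re, mul_im, ofReal_re, ofReal_im]
  generalize √q = s at *
  have h2 : w.im ^ 2 = r ^ 2 - w.re ^ 2 := by linarith
  field_simp
  ring_nf
  rw [show w.im ^ 4 = (w.im ^ 2) ^ 2 by ring, h2]
  ring

lemma abs_log_sub {x y : ℝ} (hx : 1 ≤ x) (hy : 1 ≤ y) : |Real.log x - Real.log y| ≤ |x - y| := by
  wlog h : y ≤ x generalizing x y
  · rw [abs_sub_comm, abs_sub_comm x]; exact this hy hx (le_of_not_ge h)
  rw [abs_of_nonneg (sub_nonneg.2 (Real.log_le_log (by linarith) h)),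
    abs_of_nonneg (sub_nonneg.2 h), ← Real.log_div (by linarith) (by linarith)]
  refine (Real.log_le_sub_one_of_pos (by positivity)).trans ?_
  rw [div_sub_one (by linarith)]
  exact div_le_self (by linarith) hy

lemma diff_le {r t x : ℝ} (hq : 0 ≤ q) (hr1 : r ≤ 1) (ht : r * t = 1) (ht1 : 1 ≤ t)
    (ht2 : t ≤ 2) (hx : x ^ 2 ≤ r ^ 2) : |(q + r ^ 2) ^ 2 - 4 * q * x ^ 2 - ((q + 1) ^ 2 -
      q * ((1 + t ^ 2) ^ 2 * x ^ 2))| ≤ 14 * (q + 1) * (1 - r) := by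
  have k0 : 1 - r ^ 2 ≤ 2 * (1 - r) := by nlinarith
  have k1 : 0 ≤ (t ^ 2 - 1) * (t ^ 2 + 3) := mul_nonneg (by nlinarith) (by positivity)
  have k2 : r ^ 2 * (t ^ 2 - 1) = 1 - r ^ 2 := by rw [mul_sub, ← mul_pow, ht]; ring
  have k3 : (t ^ 2 - 1) * (t ^ 2 + 3) * x ^ 2 ≤ 14 * (1 - r) := by
    calc _ ≤ (t ^ 2 - 1) * (t ^ 2 + 3) * r ^ 2 := mul_le_mul_of_nonneg_left hx k1
      _ = (1 - r ^ 2) * (t ^ 2 + 3) := by rw [← k2]; ring
      _ ≤ (2 * (1 - r)) * 7 := mul_le_mul k0 (by nlinarith) (by positivity) (by linarith)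
      _ = _ := by ring
  have k4 := mul_nonneg hq (mul_nonneg k1 (sq_nonneg x))
  have k5 : (1 - r ^ 2) * (2 * q + 1 + r ^ 2) ≤ (2 * (1 - r)) * (2 * q + 2) :=
    mul_le_mul k0 (by nlinarith) (by positivity) (by linarith)
  have k6 : 0 ≤ (1 - r ^ 2) * (2 * q + 1 + r ^ 2) := mul_nonneg (by nlinarith) (by positivity)
  have k7 := mul_le_mul_of_nonneg_left k3 hq
  have k8 := mul_nonneg hq (sub_nonneg.2 hr1)
  rw [abs_le]
  constructor <;> linarith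

/-- `L(w) = S(λ(w), γ(w)) - l(λ(w)) + O(1 - |w|)`. -/
lemma geo [Nonempty ι] (hq : 2 ≤ q) (ev : ι → ℝ) {r : ℝ} (hr : 1 / 2 ≤ r) (hr1 : r < 1)
    (hw : ‖w‖ = r) (hi : w.im ≠ 0) (hl : (√q * (1 + r⁻¹ ^ 2) * w.re) ^ 2 ≤ 4 * q) :
    |Lf q ev w - (Sf ev (√q * (1 + r⁻¹ ^ 2) * w.re) (√q * (r⁻¹ ^ 2 - 1) * |w.im|) -
      lf q (√q * (1 + r⁻¹ ^ 2) * w.re))| ≤ 6 * (q + 1) ^ 2 * (1 - r) := by
  have hq0 : 0 < q := by linarith
  have hr0 : 0 < r := by linarith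
  have hN : (0 : ℝ) < Fintype.card ι := Nat.cast_pos.2 Fintype.card_pos
  have ht : r * r⁻¹ = 1 := mul_inv_cancel₀ hr0.ne'
  have ht1 : 1 < r⁻¹ := (one_lt_inv₀ hr0).2 hr1
  have ht2 : r⁻¹ ≤ 2 := by nlinarith
  have hg : 0 < √q * (r⁻¹ ^ 2 - 1) * |w.im| :=
    mul_pos (mul_pos (Real.sqrt_pos.2 hq0) (by nlinarith)) (abs_pos.2 hi)
  have h1 : w.re ^ 2 + w.im ^ 2 = r ^ 2 := by
    rw [← hw, ← Complex.normSq_eq_norm_sq, normSq_apply]; ring
  have e1 : ∀ j, Real.log ‖1 - (ev j / √q : ℝ) * w + w ^ 2‖ = Real.log r - Real.log q / 2 +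
      Real.log ((ev j - √q * (1 + r⁻¹ ^ 2) * w.re) ^ 2 +
        (√q * (r⁻¹ ^ 2 - 1) * |w.im|) ^ 2) / 2 := fun j => by
    have := congrArg Real.log (nsq q (ev j) hq0 hr0 hw)
    rw [Real.log_mul (by positivity) (by positivity), Real.log_div (by positivity) hq0.ne',
      Real.log_pow, Real.log_pow] at this
    push_cast at this ⊢
    linarith
  have e2 : ‖1 - w ^ 2 / q‖ ^ 2 = ((q + r ^ 2) ^ 2 - 4 * q * w.re ^ 2) / q ^ 2 := by
    rw [← Complex.normSq_eq_norm_sq, ← h1]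
    simp only [normSq_apply, sub_re, one_re, div_ofReal_re, sub_im, one_im, div_ofReal_im, sq w,
      mul_re, mul_im]
    field_simp
    ring
  have hx : w.re ^ 2 ≤ r ^ 2 := by nlinarith
  have b1 : 1 ≤ (q + r ^ 2) ^ 2 - 4 * q * w.re ^ 2 := by
    have : 1 ≤ q - r ^ 2 := by nlinarith
    nlinarith
  have e3 : Real.log ‖1 - w ^ 2 / q‖ =
      Real.log ((q + r ^ 2) ^ 2 - 4 * q * w.re ^ 2) / 2 - Real.log q := by
    have := congrArg Real.log e2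
    rw [Real.log_div (by linarith) (by positivity), Real.log_pow, Real.log_pow] at this
    push_cast at this
    linarith
  have e4 : (√q * (1 + r⁻¹ ^ 2) * w.re) ^ 2 = q * ((1 + r⁻¹ ^ 2) ^ 2 * w.re ^ 2) := by
    rw [mul_pow, mul_pow, Real.sq_sqrt hq0.le, mul_assoc]
  have b2 := abs_log_sub b1 (show 1 ≤ (q + 1) ^ 2 - (√q * (1 + r⁻¹ ^ 2) * w.re) ^ 2 by nlinarith)
  have b3 : |(q + r ^ 2) ^ 2 - 4 * q * w.re ^ 2 - ((q + 1) ^ 2 -
      (√q * (1 + r⁻¹ ^ 2) * w.re) ^ 2)| ≤ 14 * (q + 1) * (1 - r) := by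
    rw [e4]
    exact diff_le hq0.le hr1.le ht ht1.le ht2 hx
  have b4 : -(2 * (1 - r)) ≤ Real.log r := by
    have := Real.log_le_sub_one_of_pos (inv_pos.2 hr0)
    rw [Real.log_inv] at this
    nlinarith
  have b5 := Real.log_nonpos hr0.le hr1.le
  have b6 := abs_le.1 (b2.trans b3)
  simp only [Lf, Sf, lf, e1, e3, Finset.sum_add_distrib, Finset.sum_const, Finset.card_univ,
    nsmul_eq_mul, ← Finset.sum_div]
  generalize ∑ j, Real.log ((ev j - √q * (1 + r⁻¹ ^ 2) * w.re) ^ 2 +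
    (√q * (r⁻¹ ^ 2 - 1) * |w.im|) ^ 2) = S
  generalize Real.log ((q + r ^ 2) ^ 2 - 4 * q * w.re ^ 2) = X at *
  generalize Real.log ((q + 1) ^ 2 - (√q * (1 + r⁻¹ ^ 2) * w.re) ^ 2) = Y at *
  generalize (Fintype.card ι : ℝ) = n at *
  have e5 : n⁻¹ * (n * (Real.log r - Real.log q / 2) + S / 2) + (q - 1) / 2 * (X / 2 - Real.log q) -
      ((2 * n)⁻¹ * S - (q / 2 * Real.log q - (q - 1) / 4 * Y)) =
      Real.log r + (q - 1) / 4 * (X - Y) := by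
    field_simp
    ring
  rw [e5, abs_le]
  have k7 : 0 ≤ (q - 1) / 4 := by linarith
  have k8 := mul_nonneg (sub_nonneg.2 hr1.le) (show 0 ≤ q ^ 2 by positivity)
  have k9 := mul_nonneg (sub_nonneg.2 hr1.le) hq0.le
  constructor <;> nlinarith [mul_le_mul_of_nonneg_left b6.1 k7, mul_le_mul_of_nonneg_left b6.2 k7]

end Pool.Agent.P.MP_6b977f_mp.RG.Jen
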