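import Pool.Agent.P.MP_6b977f_mp.RG.LibD43

/-! One Gaussian kernel: mass, second moments, characteristic function, mass off a cube. -/

set_option linter.unusedSectionVars false

namespace Pool.Agent.P.MP_6b977f_mp.RG.H43

open MeasureTheory Finset Real

variable {K : Type} [Fintype K] [DecidableEq K] {θ : ℝ}

/-- the Gaussian kernel of precision `θ` -/
noncomputable def kn (θ : ℝ) (x y : Option K → ℝ) : ℝ := ∏ j, g θ (y j - x j) / Z θ

/-- the square of the norm -/
def nq (y : Option K → ℝ) : ℝ := ∑ j, y j ^ 2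

theorem nq_nonneg (y : Option K → ℝ) : 0 ≤ nq y := sum_nonneg fun _ _ => sq_nonneg _

theorem sq_le_nq (y : Option K → ℝ) : sq y ≤ nq y := by
  rw [nq, Fintype.sum_option, sq]; linarith [sq_nonneg (y none)]

theorem kn_pos (h : 0 < θ) (x y : Option K → ℝ) : 0 < kn θ x y :=
  prod_pos fun _ _ => div_pos (g_pos _ _) (Z_pos h)

theorem kn_cont (θ : ℝ) (x : Option K → ℝ) : Continuous (kn θ x) := by
  unfold kn g; fun_prop

theorem g1_intb (h : 0 < θ) (a : ℝ) : Integrable fun t => g θ (t - a) / Z θ :=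
  ((g_intb h).comp_sub_right a).div_const _

theorem g1_int (h : 0 < θ) (a : ℝ) : ∫ t, g θ (t - a) / Z θ = 1 := by
  rw [integral_div, integral_sub_right_eq_self (g θ), g_int, div_self (Z_pos h).ne']

theorem g2_aux (h : 0 < θ) (a : ℝ) : (Integrable fun t => (t + a) ^ 2 * (g θ t / Z θ)) ∧
    ∫ t, (t + a) ^ 2 * (g θ t / Z θ) = a ^ 2 + θ⁻¹ := by
  have e : (fun t => (t + a) ^ 2 * (g θ t / Z θ)) = fun t =>
      (t ^ 2 * g θ t + 2 * a * (t * g θ t) + a ^ 2 * g θ t) / Z θ := by ext t; ring
  have i1 := g_sq_intb h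
  have i2 := (g_lin_intb h).const_mul (2 * a)
  have i3 := (g_intb h).const_mul (a ^ 2)
  rw [e]
  refine ⟨((i1.add i2).add i3).div_const _, ?_⟩
  have i4 : Integrable fun t => t ^ 2 * g θ t + 2 * a * (t * g θ t) := i1.add i2
  rw [integral_div, integral_add i4 i3, integral_add i1 i2, integral_const_mul,
    integral_const_mul, g_sq h, g_lin h, g_int]
  have := Z_pos h
  field_simp; ring

theorem kn_intb (h : 0 < θ) (x : Option K → ℝ) : Integrable (kn θ x) :=
  Integrable.fintype_prod (μ := fun _ => (volume : Measure ℝ))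
    (f := fun j t => g θ (t - x j) / Z θ) fun _ => g1_intb h _

theorem kn_int (h : 0 < θ) (x : Option K → ℝ) : ∫ y, kn θ x y = 1 := by
  unfold kn
  rw [integral_fintype_prod_volume_eq_prod (fun j t => g θ (t - x j) / Z θ)]
  simp [g1_int h]

theorem kn_sq (h : 0 < θ) (x b : Option K → ℝ) (j : Option K) :
    (Integrable fun y => (y j - b j) ^ 2 * kn θ x y) ∧
      ∫ y, (y j - b j) ^ 2 * kn θ x y = (x j - b j) ^ 2 + θ⁻¹ := by
  have e : (fun y => (y j - b j) ^ 2 * kn θ x y) = fun y : Option K → ℝ =>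
      ∏ l, (if l = j then (y l - b l) ^ 2 else 1) * (g θ (y l - x l) / Z θ) := by
    ext y; simp only [prod_mul_distrib, prod_ite_eq', mem_univ, if_true, kn]
  obtain ⟨a1, a2⟩ := g2_aux h (x j - b j)
  have a3 := a1.comp_sub_right (x j)
  rw [← integral_sub_right_eq_self _ (x j)] at a2
  simp only [sub_add_sub_cancel] at a2 a3
  rw [e]
  constructor
  · refine Integrable.fintype_prod (μ := fun _ => (volume : Measure ℝ))
      (f := fun l t => (if l = j then (t - b l) ^ 2 else 1) * (g θ (t - x l) / Z θ)) fun l => ?_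
    split_ifs with hl
    · subst hl; exact a3
    · simpa only [one_mul] using g1_intb h _
  · rw [integral_fintype_prod_volume_eq_prod
      (fun l t => (if l = j then (t - b l) ^ 2 else 1) * (g θ (t - x l) / Z θ)),
      prod_eq_single j (fun l _ hl => by simp only [if_neg hl, one_mul, g1_int h]) (by simp)]
    simpa only [if_true] using a2

theorem kn_chi (h : 0 < θ) (x ζ : Option K → ℝ) :
    chi (kn θ x) ζ = ch ζ x * (exp (-nq ζ / (2 * θ)) : ℝ) := by
  have a : ∀ j, ∫ t : ℝ, ((g θ (t - x j) / Z θ : ℝ) : ℂ) * Complex.exp (Complex.I * (ζ j * t : ℝ)) =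
      Complex.exp (Complex.I * (ζ j * x j : ℝ)) * (exp (-ζ j ^ 2 / (2 * θ)) : ℝ) := fun j => by
    have z : (Z θ : ℂ) ≠ 0 := by exact_mod_cast (Z_pos h).ne'
    rw [← integral_add_right_eq_self _ (x j)]
    have : ∀ t : ℝ, ((g θ (t + x j - x j) / Z θ : ℝ) : ℂ) *
        Complex.exp (Complex.I * (ζ j * (t + x j) : ℝ)) =
        Complex.exp (Complex.I * (ζ j * x j : ℝ)) / Z θ *
          ((g θ t : ℂ) * Complex.exp (Complex.I * (ζ j * t : ℝ))) := fun t => by
      rw [add_sub_cancel_right, mul_add, Complex.ofReal_add, mul_add, Complex.exp_add]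
      push_cast; ring
    simp only [this, integral_const_mul, g_char h]
    push_cast; field_simp
  have b := integral_fintype_prod_volume_eq_prod (fun (j : Option K) (t : ℝ) =>
    ((g θ (t - x j) / Z θ : ℝ) : ℂ) * Complex.exp (Complex.I * (ζ j * t : ℝ)))
  simp only [a] at b
  rw [prod_mul_distrib, ← Complex.ofReal_prod, ← exp_sum, ← sum_div, sum_neg_distrib,
    ← Complex.exp_sum, ← mul_sum, ← Complex.ofReal_sum] at b
  rw [ch, nq, ← b, chi]
  congr 1; ext y
  simp only [kn, ch, Complex.ofReal_sum, mul_sum, Complex.exp_sum, prod_mul_distrib,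
    Complex.ofReal_prod]

/-- the weight off the cube -/
noncomputable def wt (T : ℝ) (y : Option K → ℝ) : ℝ :=
  {y : Option K → ℝ | ∃ j, T < |y j|}.indicator (fun y => 1 + nq y) y

theorem wt_nonneg (T : ℝ) (y : Option K → ℝ) : 0 ≤ wt T y :=
  Set.indicator_nonneg (fun y _ => by linarith [nq_nonneg y]) y

theorem wt_ge {T : ℝ} (y : Option K → ℝ) (h : ∃ j, T < |y j|) : 1 + sq y ≤ wt T y := by
  rw [wt, Set.indicator_of_mem (show y ∈ {y : Option K → ℝ | ∃ j, T < |y j|} from h)]
  linarith [sq_le_nq y]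

theorem wt_le (T : ℝ) (y : Option K → ℝ) : wt T y ≤ 1 + nq y :=
  Set.indicator_le_self' (fun y _ => by linarith [nq_nonneg y]) y

theorem nq_kn (h : 0 < θ) (x b : Option K → ℝ) :
    (Integrable fun y => nq (y - b) * kn θ x y) ∧
      ∫ y, nq (y - b) * kn θ x y = nq (x - b) + (Fintype.card K + 1) * θ⁻¹ := by
  simp only [nq, sum_mul, Pi.sub_apply]
  refine ⟨integrable_finsetSum _ fun j _ => (kn_sq h x b j).1, ?_⟩
  rw [integral_finsetSum _ fun j _ => (kn_sq h x b j).1]
  simp [(kn_sq h x b _).2, sum_add_distrib]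

theorem wt_intb (h : 0 < θ) (T : ℝ) (x : Option K → ℝ) :
    Integrable fun y => wt T y * kn θ x y := by
  have m : MeasurableSet {y : Option K → ℝ | ∃ j, T < |y j|} := by measurability
  have i := (kn_intb h x).add (nq_kn h x 0).1
  refine (i.indicator m).congr (ae_of_all _ fun y => ?_)
  simp only [wt, Set.indicator]
  split_ifs <;> simp; ring

theorem wt_kn {θ0 T : ℝ} (h0 : 0 < θ0) (h : θ0 ≤ θ) (hT : 0 < T) (x : Option K → ℝ) :
    ∫ y, wt T y * kn θ x y ≤ 2 * (1 + (Fintype.card K + 1) / θ0) * wt (T / 2) x +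
      8 * (4 / θ0 + 32 / θ0 ^ 2) * 2 ^ (Fintype.card K + 1) / T ^ 2 * (1 + nq x) := by
  have θp : 0 < θ := h0.trans_le h
  have x0 := nq_nonneg x
  have tri : ∀ y : Option K → ℝ, nq y ≤ 2 * nq x + 2 * nq (y - x) := fun y => by
    simp only [nq, mul_sum, ← sum_add_distrib, Pi.sub_apply]
    exact sum_le_sum fun j _ => by nlinarith [sq_nonneg (y j - 2 * x j)]
  by_cases hx : ∃ j, T / 2 < |x j|
  · have i1 := (kn_intb θp x).const_mul (1 + 2 * nq x)
    have i2 := (nq_kn θp x x).1.const_mul 2
    have I := integral_mono (wt_intb θp T x) (i1.add i2) fun y => by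
      have := mul_le_mul_of_nonneg_right ((wt_le T y).trans (add_le_add_right (tri y) 1))
        (kn_pos θp x y).le
      simp only [Pi.add_apply]; linarith
    rw [integral_add' i1 i2, integral_const_mul, integral_const_mul, kn_int θp, (nq_kn θp x x).2,
      sub_self] at I
    have e : wt (T / 2) x = 1 + nq x :=
      Set.indicator_of_mem (show x ∈ {y : Option K → ℝ | ∃ j, T / 2 < |y j|} from hx) _
    have z : nq (0 : Option K → ℝ) = 0 := by simp [nq]
    have c : ((Fintype.card K : ℝ) + 1) * θ⁻¹ ≤ (Fintype.card K + 1) / θ0 := by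
      rw [← div_eq_mul_inv]; gcongr
    have c0 : (0 : ℝ) ≤ (Fintype.card K + 1) / θ0 := by positivity
    refine le_add_of_le_of_nonneg ?_ (by positivity)
    rw [e]; nlinarith [mul_nonneg c0 x0]
  · push Not at hx
    set B := 8 * (4 / θ0 + 32 / θ0 ^ 2) * 2 ^ (Fintype.card K + 1) / T ^ 2 * (1 + nq x) with hB
    have I := integral_mono (wt_intb θp T x) ((kn_intb (half_pos θp) x).const_mul B) fun y => by
      have kp := kn_pos (half_pos θp) x y
      by_cases hy : ∃ j, T < |y j|
      · obtain ⟨j, hj⟩ := hy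
        have s0 := nq_nonneg (y - x)
        have c : T ^ 2 / 4 ≤ nq (y - x) := by
          refine le_trans ?_ (single_le_sum (f := fun j => (y - x) j ^ 2) (fun _ _ => sq_nonneg _)
            (mem_univ j))
          have := abs_sub_abs_le_abs_sub (y j) (x j)
          rw [← sq_abs ((y - x) j), Pi.sub_apply]; nlinarith [hx j]
        have d := tail_pt h0 h s0
        have e : ∀ t, kn t x y = exp (-(t / 2) * nq (y - x)) / Z t ^ (Fintype.card K + 1) :=
          fun t => by
            simp only [kn, g, prod_div_distrib, prod_const, card_univ, Fintype.card_option,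
              ← exp_sum, nq, mul_sum, Pi.sub_apply]
        have z1 := Z_pos θp
        have z2 := Z_pos (half_pos θp)
        have z3 : Z (θ / 2) ^ (Fintype.card K + 1) ≤
            2 ^ (Fintype.card K + 1) * Z θ ^ (Fintype.card K + 1) := by
          rw [← mul_pow]; exact pow_le_pow_left₀ z2.le (Z_half θp) _
        have f : wt T y * T ^ 2 ≤ 8 * (1 + nq x) * (nq (y - x) + nq (y - x) ^ 2) := by
          have f1 : wt T y ≤ 2 * (1 + nq x) * (1 + nq (y - x)) := by
            nlinarith [wt_le T y, tri y, mul_nonneg x0 s0]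
          have f2 := mul_le_mul f1 (show T ^ 2 ≤ 4 * nq (y - x) by linarith) (by positivity)
            (by positivity)
          linarith
        simp only [e, hB]
        rw [← mul_div_assoc, ← mul_div_assoc, div_le_div_iff₀ (by positivity) (by positivity),
          div_mul_eq_mul_div, div_mul_eq_mul_div, div_mul_eq_mul_div, le_div_iff₀ (by positivity)]
        calc _ = wt T y * T ^ 2 * exp (-(θ / 2) * nq (y - x)) * Z (θ / 2) ^ (Fintype.card K + 1) := by
              ring
          _ ≤ 8 * (1 + nq x) * (nq (y - x) + nq (y - x) ^ 2) * exp (-(θ / 2) * nq (y - x)) *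
              (2 ^ (Fintype.card K + 1) * Z θ ^ (Fintype.card K + 1)) := by gcongr
          _ ≤ 8 * (1 + nq x) * ((4 / θ0 + 32 / θ0 ^ 2) * exp (-(θ / 2 / 2) * nq (y - x))) *
              (2 ^ (Fintype.card K + 1) * Z θ ^ (Fintype.card K + 1)) := by
              rw [mul_assoc (8 * (1 + nq x))]; gcongr
          _ = _ := by ring
      · have : wt T y = 0 := Set.indicator_of_notMem
          (show y ∉ {y : Option K → ℝ | ∃ j, T < |y j|} from hy) _
        simp only [this, zero_mul]; positivity
    rw [integral_const_mul, kn_int (half_pos θp), mul_one] at I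
    exact le_add_of_nonneg_of_le (mul_nonneg (by positivity) (wt_nonneg _ _)) I

end Pool.Agent.P.MP_6b977f_mp.RG.H43
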