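import Mathlib

/-! Posterior bounds for finite Gaussian mixtures with variances at least one. -/

set_option autoImplicit false
set_option linter.unusedSectionVars false

namespace Pool.Agent.P.MP_6b977f_mp.RG.Sb

open Finset Real

variable {Ω J : Type*} [Fintype Ω] [Fintype J]

/-- weighted square length -/
noncomputable def QQ (σ u : J → ℝ) : ℝ := ∑ j, u j ^ 2 / σ j

/-- unnormalised weight of the atom -/
noncomputable def WW (w : Ω → ℝ) (x : Ω → J → ℝ) (σ y : J → ℝ) (ω : Ω) : ℝ :=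
  w ω * exp (-(QQ σ (y - x ω)) / 2)

/-- unnormalised mixture density -/
noncomputable def ZZ (w : Ω → ℝ) (x : Ω → J → ℝ) (σ y : J → ℝ) : ℝ := ∑ ω, WW w x σ y ω

/-- score -/
noncomputable def SS (w : Ω → ℝ) (x : Ω → J → ℝ) (σ y : J → ℝ) (j : J) : ℝ :=
  (∑ ω, WW w x σ y ω * ((x ω j - y j) / σ j)) / ZZ w x σ y

variable {w : Ω → ℝ} {x : Ω → J → ℝ} {σ : J → ℝ}

theorem WW_nonneg (hw : ∀ ω, 0 ≤ w ω) (y : J → ℝ) (ω : Ω) : 0 ≤ WW w x σ y ω :=
  mul_nonneg (hw ω) (exp_pos _).le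

theorem ZZ_ge (hw : ∀ ω, 0 ≤ w ω) (h1 : ∑ ω, w ω = 1) (y : J → ℝ) :
    exp (-(∑ ω, w ω * QQ σ (y - x ω)) / 2) ≤ ZZ w x σ y := by
  set M := ∑ ω, w ω * QQ σ (y - x ω) with hM
  have key : ∀ ω, w ω * (exp (-M / 2) * (1 + (M - QQ σ (y - x ω)) / 2)) ≤ WW w x σ y ω := by
    intro ω
    refine mul_le_mul_of_nonneg_left ?_ (hw ω)
    have h2 : -(QQ σ (y - x ω)) / 2 = -M / 2 + (M - QQ σ (y - x ω)) / 2 := by ring
    rw [h2, exp_add]
    refine mul_le_mul_of_nonneg_left ?_ (exp_pos _).le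
    have := add_one_le_exp ((M - QQ σ (y - x ω)) / 2)
    linarith
  have h3 : ∑ ω, w ω * (exp (-M / 2) * (1 + (M - QQ σ (y - x ω)) / 2)) = exp (-M / 2) := by
    have : ∀ ω, w ω * (exp (-M / 2) * (1 + (M - QQ σ (y - x ω)) / 2)) =
        exp (-M / 2) * (1 + M / 2) * w ω - exp (-M / 2) / 2 * (w ω * QQ σ (y - x ω)) := by
      intro ω; ring
    simp only [this, sum_sub_distrib, ← mul_sum, h1, ← hM]
    ring
  rw [← h3]
  exact sum_le_sum fun ω _ => key ω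

theorem ZZ_pos (hw : ∀ ω, 0 ≤ w ω) (h1 : ∑ ω, w ω = 1) (y : J → ℝ) : 0 < ZZ w x σ y :=
  (exp_pos _).trans_le (ZZ_ge hw h1 y)

theorem post_Q (hw : ∀ ω, 0 ≤ w ω) (h1 : ∑ ω, w ω = 1) (y : J → ℝ) :
    ∑ ω, WW w x σ y ω * QQ σ (y - x ω) ≤ (∑ ω, w ω * QQ σ (y - x ω)) * ZZ w x σ y := by
  set M := ∑ ω, w ω * QQ σ (y - x ω) with hM
  have key : ∀ ω, WW w x σ y ω * (QQ σ (y - x ω) - M) ≤
      exp (-M / 2) * (w ω * QQ σ (y - x ω)) - exp (-M / 2) * M * w ω := by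
    intro ω
    have h2 : exp (-(QQ σ (y - x ω)) / 2) * (QQ σ (y - x ω) - M) ≤
        exp (-M / 2) * (QQ σ (y - x ω) - M) := by
      rcases le_total (QQ σ (y - x ω)) M with h | h
      · have : exp (-M / 2) ≤ exp (-(QQ σ (y - x ω)) / 2) := exp_le_exp.2 (by linarith)
        nlinarith
      · have : exp (-(QQ σ (y - x ω)) / 2) ≤ exp (-M / 2) := exp_le_exp.2 (by linarith)
        nlinarith
    have := mul_le_mul_of_nonneg_left h2 (hw ω)
    unfold WW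
    nlinarith
  have h4 := sum_le_sum fun ω (_ : ω ∈ univ) => key ω
  simp only [sum_sub_distrib, ← mul_sum, h1, ← hM, mul_sub, ← sum_mul] at h4
  unfold ZZ
  nlinarith

theorem QQ_le (hσ : ∀ j, 1 ≤ σ j) (y z : J → ℝ) :
    QQ σ (y - z) ≤ 2 * ∑ j, y j ^ 2 + 2 * ∑ j, z j ^ 2 := by
  unfold QQ
  rw [mul_sum, mul_sum, ← sum_add_distrib]
  refine sum_le_sum fun j _ => ?_
  have h1 : (y - z) j ^ 2 / σ j ≤ (y - z) j ^ 2 := div_le_self (sq_nonneg _) (hσ j)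
  simp only [Pi.sub_apply] at h1 ⊢
  nlinarith [sq_nonneg (y j + z j)]

theorem prior_Q (hw : ∀ ω, 0 ≤ w ω) (h1 : ∑ ω, w ω = 1) (hσ : ∀ j, 1 ≤ σ j) {C0 : ℝ}
    (hC : ∑ ω, w ω * ∑ j, x ω j ^ 2 ≤ C0) (y : J → ℝ) :
    ∑ ω, w ω * QQ σ (y - x ω) ≤ 2 * ∑ j, y j ^ 2 + 2 * C0 := by
  have h2 : ∑ ω, w ω * QQ σ (y - x ω) ≤
      ∑ ω, ((2 * ∑ j, y j ^ 2) * w ω + 2 * (w ω * ∑ j, x ω j ^ 2)) := by
    refine sum_le_sum fun ω _ => ?_
    have := mul_le_mul_of_nonneg_left (QQ_le hσ y (x ω)) (hw ω)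
    linarith
  rw [sum_add_distrib, ← mul_sum, ← mul_sum, h1] at h2
  linarith

theorem sum_sq_le {y : J → ℝ} {R : ℝ} (hy : ‖y‖ ≤ R) :
    ∑ j, y j ^ 2 ≤ Fintype.card J * R ^ 2 := by
  have : ∑ j, y j ^ 2 ≤ ∑ _j : J, R ^ 2 := by
    refine sum_le_sum fun j _ => ?_
    have h := (norm_le_pi_norm y j).trans hy
    rw [Real.norm_eq_abs] at h
    exact sq_le_sq' (by linarith [neg_abs_le (y j)]) ((le_abs_self _).trans h)
  simpa using this

/-- the l1 size of the standardised displacement -/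
noncomputable def AA (σ u : J → ℝ) : ℝ := ∑ j, |u j / σ j|

theorem AA_nonneg (u : J → ℝ) : 0 ≤ AA σ u := sum_nonneg fun _ _ => abs_nonneg _

theorem AA_sq (hσ : ∀ j, 1 ≤ σ j) (u : J → ℝ) : AA σ u ^ 2 ≤ Fintype.card J * QQ σ u := by
  unfold AA QQ
  have h := sq_sum_le_card_mul_sum_sq (s := (univ : Finset J)) (f := fun j => |u j / σ j|)
  rw [card_univ] at h
  refine h.trans (mul_le_mul_of_nonneg_left (sum_le_sum fun j _ => ?_) (Nat.cast_nonneg _))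
  have h0 : 0 < σ j := lt_of_lt_of_le one_pos (hσ j)
  rw [sq_abs, div_pow, div_le_div_iff₀ (by positivity) h0]
  have := hσ j
  nlinarith [sq_nonneg (u j), mul_nonneg (sq_nonneg (u j)) h0.le]

theorem post_A2 (hw : ∀ ω, 0 ≤ w ω) (h1 : ∑ ω, w ω = 1) (hσ : ∀ j, 1 ≤ σ j) {C0 : ℝ}
    (hC : ∑ ω, w ω * ∑ j, x ω j ^ 2 ≤ C0) (y : J → ℝ) :
    ∑ ω, WW w x σ y ω * AA σ (y - x ω) ^ 2 ≤
      Fintype.card J * (2 * ∑ j, y j ^ 2 + 2 * C0) * ZZ w x σ y := by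
  have h2 : ∑ ω, WW w x σ y ω * AA σ (y - x ω) ^ 2 ≤
      ∑ ω, (Fintype.card J : ℝ) * (WW w x σ y ω * QQ σ (y - x ω)) := by
    refine sum_le_sum fun ω _ => ?_
    have := mul_le_mul_of_nonneg_left (AA_sq hσ (y - x ω)) (WW_nonneg (x := x) (σ := σ) hw y ω)
    linarith
  rw [← mul_sum] at h2
  have h3 := post_Q (x := x) (σ := σ) hw h1 y
  have h4 := mul_le_mul_of_nonneg_right (prior_Q hw h1 hσ hC y) (ZZ_pos (x := x) (σ := σ) hw h1 y).le
  have h5 : (0 : ℝ) ≤ Fintype.card J := Nat.cast_nonneg _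
  have := mul_le_mul_of_nonneg_left (h3.trans h4) h5
  linarith

theorem post_A1 (hw : ∀ ω, 0 ≤ w ω) (y : J → ℝ) :
    (∑ ω, WW w x σ y ω * AA σ (y - x ω)) ^ 2 ≤
      ZZ w x σ y * ∑ ω, WW w x σ y ω * AA σ (y - x ω) ^ 2 := by
  unfold ZZ
  refine sum_sq_le_sum_mul_sum_of_sq_le_mul univ (fun ω _ => WW_nonneg hw y ω)
    (fun ω _ => mul_nonneg (WW_nonneg hw y ω) (sq_nonneg _)) fun ω _ => le_of_eq (by ring)

theorem abs_le_AA (y z : J → ℝ) (j : J) : |(z j - y j) / σ j| ≤ AA σ (y - z) := by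
  have : |(z j - y j) / σ j| = |(y - z) j / σ j| := by
    rw [← abs_neg, Pi.sub_apply]; congr 1; ring
  rw [this]
  exact single_le_sum (f := fun j => |(y - z) j / σ j|) (fun _ _ => abs_nonneg _) (mem_univ j)

theorem SS_abs (hw : ∀ ω, 0 ≤ w ω) (h1 : ∑ ω, w ω = 1) (y : J → ℝ) (j : J) :
    |SS w x σ y j| ≤ (∑ ω, WW w x σ y ω * AA σ (y - x ω)) / ZZ w x σ y := by
  have hZ := ZZ_pos (x := x) (σ := σ) hw h1 y
  unfold SS
  rw [abs_div, abs_of_pos hZ]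
  refine div_le_div_of_nonneg_right ((abs_sum_le_sum_abs _ _).trans (sum_le_sum fun ω _ => ?_)) hZ.le
  rw [abs_mul, abs_of_nonneg (WW_nonneg hw y ω)]
  exact mul_le_mul_of_nonneg_left (abs_le_AA y (x ω) j) (WW_nonneg hw y ω)

theorem mean_A_sq (hw : ∀ ω, 0 ≤ w ω) (h1 : ∑ ω, w ω = 1) (hσ : ∀ j, 1 ≤ σ j) {C0 : ℝ}
    (hC : ∑ ω, w ω * ∑ j, x ω j ^ 2 ≤ C0) (y : J → ℝ) :
    ((∑ ω, WW w x σ y ω * AA σ (y - x ω)) / ZZ w x σ y) ^ 2 ≤
      Fintype.card J * (2 * ∑ j, y j ^ 2 + 2 * C0) := by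
  have hZ := ZZ_pos (x := x) (σ := σ) hw h1 y
  rw [div_pow, div_le_iff₀ (by positivity)]
  have h2 := mul_le_mul_of_nonneg_left (post_A2 hw h1 hσ hC y) hZ.le
  have h3 := post_A1 (x := x) (σ := σ) hw y
  nlinarith

theorem SS_sq (hw : ∀ ω, 0 ≤ w ω) (h1 : ∑ ω, w ω = 1) (hσ : ∀ j, 1 ≤ σ j) {C0 : ℝ}
    (hC : ∑ ω, w ω * ∑ j, x ω j ^ 2 ≤ C0) (y : J → ℝ) (j : J) :
    SS w x σ y j ^ 2 ≤ Fintype.card J * (2 * ∑ j, y j ^ 2 + 2 * C0) := by
  refine le_trans ?_ (mean_A_sq hw h1 hσ hC y)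
  rw [← sq_abs]
  exact pow_le_pow_left₀ (abs_nonneg _) (SS_abs hw h1 y j) 2

theorem hasDerivAt_WW (y u : J → ℝ) (ω : Ω) (t : ℝ) :
    HasDerivAt (fun t : ℝ => WW w x σ (y + t • u) ω)
      (WW w x σ (y + t • u) ω * ∑ k, u k * ((x ω k - (y + t • u) k) / σ k)) t := by
  have h1 : ∀ k, HasDerivAt (fun t : ℝ => ((y + t • u - x ω) k) ^ 2 / σ k)
      (2 * ((y + t • u - x ω) k) * u k / σ k) t := by
    intro k
    have h2 : HasDerivAt (fun t : ℝ => (y + t • u - x ω) k) (u k) t := by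
      simp only [Pi.sub_apply, Pi.add_apply, Pi.smul_apply, smul_eq_mul]
      simpa using (((hasDerivAt_id t).mul_const (u k)).const_add (y k)).sub_const (x ω k)
    simpa using (h2.pow 2).div_const (σ k)
  have h3 : HasDerivAt (fun t : ℝ => QQ σ (y + t • u - x ω))
      (∑ k, 2 * ((y + t • u - x ω) k) * u k / σ k) t := HasDerivAt.fun_sum fun k _ => h1 k
  have h4 := ((h3.neg.div_const 2).exp).const_mul (w ω)
  refine HasDerivAt.congr_deriv h4 ?_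
  unfold WW
  rw [mul_assoc]
  congr 2
  rw [← sum_neg_distrib, sum_div]
  refine sum_congr rfl fun k _ => ?_
  simp only [Pi.sub_apply]
  ring

theorem hasDerivAt_ZZ (y u : J → ℝ) (t : ℝ) :
    HasDerivAt (fun t : ℝ => ZZ w x σ (y + t • u))
      (∑ ω, WW w x σ (y + t • u) ω * ∑ k, u k * ((x ω k - (y + t • u) k) / σ k)) t :=
  HasDerivAt.fun_sum fun ω _ => hasDerivAt_WW y u ω t

theorem hasDerivAt_log_ZZ (hw : ∀ ω, 0 ≤ w ω) (h1 : ∑ ω, w ω = 1) (y u : J → ℝ) (t : ℝ) :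
    HasDerivAt (fun t : ℝ => log (ZZ w x σ (y + t • u)))
      (∑ k, u k * SS w x σ (y + t • u) k) t := by
  have hZ := ZZ_pos (x := x) (σ := σ) hw h1 (y + t • u)
  convert (hasDerivAt_ZZ (w := w) (x := x) (σ := σ) y u t).log hZ.ne' using 1
  unfold SS
  simp only [mul_sum, sum_div]
  rw [sum_comm]
  refine sum_congr rfl fun k _ => sum_congr rfl fun ω _ => by ring

theorem SS_lip (hw : ∀ ω, 0 ≤ w ω) (h1 : ∑ ω, w ω = 1) (hσ : ∀ j, 1 ≤ σ j) {C0 : ℝ}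
    (hC : ∑ ω, w ω * ∑ j, x ω j ^ 2 ≤ C0) {R : ℝ} {y y' : J → ℝ} (hy : ‖y‖ ≤ R) (hy' : ‖y'‖ ≤ R)
    (j : J) :
    |SS w x σ y' j - SS w x σ y j| ≤
      (1 + 2 * (Fintype.card J * (2 * (Fintype.card J * R ^ 2) + 2 * C0))) * ‖y' - y‖ := by
  set u := y' - y with hu
  set K : ℝ := Fintype.card J * (2 * (Fintype.card J * R ^ 2) + 2 * C0) with hK
  have hnorm : ∀ t ∈ Set.Icc (0 : ℝ) 1, ‖y + t • u‖ ≤ R := by
    intro t ht
    have : y + t • u = (1 - t) • y + t • y' := by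
      rw [hu, smul_sub, sub_smul, one_smul]; abel
    rw [this]
    refine (norm_add_le _ _).trans ?_
    rw [norm_smul, norm_smul, Real.norm_eq_abs, Real.norm_eq_abs, abs_of_nonneg ht.1,
      abs_of_nonneg (sub_nonneg.2 ht.2)]
    nlinarith [ht.1, ht.2, norm_nonneg y, norm_nonneg y']
  let B : ℝ → Ω → ℝ := fun t ω => ∑ k, u k * ((x ω k - (y + t • u) k) / σ k)
  let A : ℝ → Ω → ℝ := fun t ω => (x ω j - (y + t • u) j) / σ j
  let W : ℝ → Ω → ℝ := fun t ω => WW w x σ (y + t • u) ω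
  let Z : ℝ → ℝ := fun t => ZZ w x σ (y + t • u)
  have hZ : ∀ t, 0 < Z t := fun t => ZZ_pos hw h1 _
  have hA : ∀ t ω, HasDerivAt (fun t => A t ω) (-u j / σ j) t := by
    intro t ω
    simp only [A, Pi.add_apply, Pi.smul_apply, smul_eq_mul]
    simpa using ((((hasDerivAt_id t).mul_const (u j)).const_add (y j)).const_sub (x ω j)).div_const (σ j)
  have hN : ∀ t, HasDerivAt (fun t => ∑ ω, W t ω * A t ω)
      (∑ ω, (W t ω * B t ω * A t ω + W t ω * (-u j / σ j))) t := fun t =>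
    HasDerivAt.fun_sum fun ω _ => (hasDerivAt_WW y u ω t).mul (hA t ω)
  have hS : ∀ t, HasDerivAt (fun t => SS w x σ (y + t • u) j)
      (((∑ ω, (W t ω * B t ω * A t ω + W t ω * (-u j / σ j))) * Z t -
        (∑ ω, W t ω * A t ω) * ∑ ω, W t ω * B t ω) / Z t ^ 2) t := fun t =>
    (hN t).div (hasDerivAt_ZZ y u t) (hZ t).ne'
  have hb : ∀ t ∈ Set.Ico (0 : ℝ) 1,
      ‖((∑ ω, (W t ω * B t ω * A t ω + W t ω * (-u j / σ j))) * Z t -
        (∑ ω, W t ω * A t ω) * ∑ ω, W t ω * B t ω) / Z t ^ 2‖ ≤ (1 + 2 * K) * ‖u‖ := by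
    intro t ht
    have hR := hnorm t ⟨ht.1, ht.2.le⟩
    have hW : ∀ ω, 0 ≤ W t ω := fun ω => WW_nonneg hw _ ω
    let a : Ω → ℝ := fun ω => AA σ (y + t • u - x ω)
    have ha : ∀ ω, 0 ≤ a ω := fun ω => AA_nonneg _
    have hAa : ∀ ω, |A t ω| ≤ a ω := fun ω => abs_le_AA _ _ j
    have hBa : ∀ ω, |B t ω| ≤ ‖u‖ * a ω := by
      intro ω
      refine (abs_sum_le_sum_abs _ _).trans ?_
      simp only [a, AA]
      rw [mul_sum]
      refine sum_le_sum fun k _ => ?_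
      rw [abs_mul]
      have e : |(x ω k - (y + t • u) k) / σ k| = |(y + t • u - x ω) k / σ k| := by
        rw [← abs_neg, Pi.sub_apply]; congr 1; ring
      rw [e]
      exact mul_le_mul_of_nonneg_right (norm_le_pi_norm u k) (abs_nonneg _)
    have hK' : (Fintype.card J : ℝ) * (2 * ∑ j, (y + t • u) j ^ 2 + 2 * C0) ≤ K :=
      mul_le_mul_of_nonneg_left (by linarith [sum_sq_le hR]) (Nat.cast_nonneg _)
    have p2 : ∑ ω, W t ω * a ω ^ 2 ≤ K * Z t :=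
      (post_A2 hw h1 hσ hC _).trans (mul_le_mul_of_nonneg_right hK' (hZ t).le)
    have p1 : (∑ ω, W t ω * a ω) ^ 2 ≤ Z t * ∑ ω, W t ω * a ω ^ 2 := post_A1 hw _
    have q1 : |∑ ω, W t ω * B t ω * A t ω| ≤ ‖u‖ * ∑ ω, W t ω * a ω ^ 2 := by
      refine (abs_sum_le_sum_abs _ _).trans ?_
      rw [mul_sum]
      refine sum_le_sum fun ω _ => ?_
      rw [abs_mul, abs_mul, abs_of_nonneg (hW ω)]
      have := mul_le_mul (hBa ω) (hAa ω) (abs_nonneg _) (mul_nonneg (norm_nonneg _) (ha ω))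
      have := mul_le_mul_of_nonneg_left this (hW ω)
      nlinarith
    have q2 : |∑ ω, W t ω * A t ω| ≤ ∑ ω, W t ω * a ω := by
      refine (abs_sum_le_sum_abs _ _).trans (sum_le_sum fun ω _ => ?_)
      rw [abs_mul, abs_of_nonneg (hW ω)]
      exact mul_le_mul_of_nonneg_left (hAa ω) (hW ω)
    have q3 : |∑ ω, W t ω * B t ω| ≤ ‖u‖ * ∑ ω, W t ω * a ω := by
      refine (abs_sum_le_sum_abs _ _).trans ?_
      rw [mul_sum]
      refine sum_le_sum fun ω _ => ?_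
      rw [abs_mul, abs_of_nonneg (hW ω)]
      have := mul_le_mul_of_nonneg_left (hBa ω) (hW ω)
      linarith
    have q4 : |-u j / σ j| ≤ ‖u‖ := by
      have h0 : 0 < σ j := lt_of_lt_of_le one_pos (hσ j)
      rw [abs_div, abs_neg, abs_of_pos h0]
      exact (div_le_self (abs_nonneg _) (hσ j)).trans (norm_le_pi_norm u j)
    have hZs : ∑ ω, W t ω = Z t := rfl
    rw [sum_add_distrib, ← sum_mul, hZs, Real.norm_eq_abs, abs_div, abs_of_pos (pow_pos (hZ t) 2),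
      div_le_iff₀ (pow_pos (hZ t) 2)]
    set P := ∑ ω, W t ω * B t ω * A t ω
    set Q := ∑ ω, W t ω * A t ω
    set S := ∑ ω, W t ω * B t ω
    set m1 := ∑ ω, W t ω * a ω
    set m2 := ∑ ω, W t ω * a ω ^ 2
    have hz := hZ t
    have hu0 := norm_nonneg u
    have r1 : |P * Z t| ≤ ‖u‖ * (K * Z t) * Z t := by
      rw [abs_mul, abs_of_pos hz]
      exact mul_le_mul_of_nonneg_right (q1.trans (mul_le_mul_of_nonneg_left p2 hu0)) hz.le
    have r2 : |Z t * (-u j / σ j) * Z t| ≤ Z t * ‖u‖ * Z t := by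
      rw [abs_mul, abs_mul, abs_of_pos hz]
      exact mul_le_mul_of_nonneg_right (mul_le_mul_of_nonneg_left q4 hz.le) hz.le
    have r3 : |Q * S| ≤ ‖u‖ * (Z t * (K * Z t)) := by
      rw [abs_mul]
      have h5 := mul_le_mul q2 q3 (abs_nonneg _) ((abs_nonneg _).trans q2)
      have h6 := mul_le_mul_of_nonneg_left (p1.trans (mul_le_mul_of_nonneg_left p2 hz.le)) hu0
      nlinarith
    have e : (P + Z t * (-u j / σ j)) * Z t - Q * S =
        P * Z t + Z t * (-u j / σ j) * Z t - Q * S := by ring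
    rw [e]
    have t1 := abs_sub (P * Z t + Z t * (-u j / σ j) * Z t) (Q * S)
    have t2 := abs_add_le (P * Z t) (Z t * (-u j / σ j) * Z t)
    nlinarith
  have := norm_image_sub_le_of_norm_deriv_le_segment_01'
    (fun t (_ : t ∈ Set.Icc (0 : ℝ) 1) => (hS t).hasDerivWithinAt) hb
  simpa [hu] using this

end Pool.Agent.P.MP_6b977f_mp.RG.Sb
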