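import Pool.Agent.P.MP_6b977f_mp.RG.LibG43

/-! Densities that are nearly Gaussian in all coordinates but one, on a cube. -/

set_option linter.unusedSectionVars false

namespace Pool.Agent.P.MP_6b977f_mp.RG.H43

open MeasureTheory Finset Real

variable {K : Type} [Fintype K] [DecidableEq K]

theorem opt_int {𝕜 : Type} [RCLike 𝕜] (p : ℝ → 𝕜) (h : K → ℝ → 𝕜) :
    ∫ y : Option K → ℝ, p (y none) * ∏ k, h k (y (some k)) = (∫ x, p x) * ∏ k, ∫ x, h k x := by
  have := integral_fintype_prod_volume_eq_prod (ι := Option K) (E := fun _ => ℝ)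
    fun j => j.elim p h
  simpa only [Fintype.prod_option, Option.elim] using this

theorem opt_intb {𝕜 : Type} [RCLike 𝕜] {p : ℝ → 𝕜} {h : K → ℝ → 𝕜} (hp : Integrable p)
    (hh : ∀ k, Integrable (h k)) :
    Integrable fun y : Option K → ℝ => p (y none) * ∏ k, h k (y (some k)) := by
  have := Integrable.fintype_prod (ι := Option K) (μ := fun _ => (volume : Measure ℝ))
    (f := fun j => j.elim p h) fun j => by cases j; exacts [hp, hh _]
  simp only [Fintype.prod_option, Option.elim] at this
  exact this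

/-- the square of the norm of the unmarked coordinates -/
def sq (y : Option K → ℝ) : ℝ := ∑ k, y (some k) ^ 2

/-- the structure hypothesis -/
def St (F : (Option K → ℝ) → ℝ) (θ T e : ℝ) : Prop := ∀ y : Option K → ℝ, (∀ j, |y j| ≤ T) →
  |log (F y) - log (F (Pi.single none (y none))) + θ / 2 * ∑ k, y (some k) ^ 2| ≤ e

theorem th_abs (k : K) {F : (Option K → ℝ) → ℝ} (hF : ∀ y, 0 < F y) (i1 : Integrable F)
    (h1 : ∫ y, F y = 1) (i2 : ∀ j, Integrable fun y => y j ^ 2 * F y) {C R T θ : ℝ}
    (h2 : ∑ j, ∫ y, y j ^ 2 * F y ≤ C) (hR : 0 < R) (hC : 100 * C ≤ R ^ 2) (hT : 3 * R ≤ T)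
    (hS : St F θ T 1) : 1 / R ^ 2 ≤ θ := by
  set u : Option K → ℝ := Pi.single (some k) (2 * R) with hu
  set κ := exp (-2 * θ * R ^ 2 - 2)
  have R2 : 0 < R ^ 2 := by positivity
  have key : ∀ y : Option K → ℝ, 2 * κ * (R ^ 2 * F y - ∑ j, y j ^ 2 * F y) ≤
      (y + u) (some k) ^ 2 * F (y + u) + (y - u) (some k) ^ 2 * F (y - u) := by
    intro y
    have f0 := hF y
    have f1 := hF (y + u)
    have f2 := hF (y - u)
    have s0 : ∀ j, y j ^ 2 * F y ≤ ∑ j, y j ^ 2 * F y := fun j =>
      single_le_sum (f := fun j => y j ^ 2 * F y) (fun _ _ => by positivity) (mem_univ j)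
    by_cases hy : ∀ j, |y j| ≤ R
    · have hb : ∀ j, |u j| ≤ 2 * R := fun j => by
        rw [hu, Pi.single_apply]; split_ifs
        · rw [abs_of_pos (by positivity)]
        · simp; positivity
      have a0 := abs_le.1 (hS y fun j => (hy j).trans (by linarith))
      have a1 := abs_le.1 (hS (y + u) fun j =>
        (abs_add_le _ _).trans (by linarith [hy j, hb j]))
      have a2 := abs_le.1 (hS (y - u) fun j =>
        (abs_sub _ _).trans (by linarith [hy j, hb j]))
      have e0 : u none = 0 := by simp [hu]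
      have e1 : ∑ l, (y + u) (some l) ^ 2 + ∑ l, (y - u) (some l) ^ 2 =
          2 * ∑ l, y (some l) ^ 2 + 8 * R ^ 2 := by
        have : ∑ l, u (some l) ^ 2 = 4 * R ^ 2 := by
          rw [sum_eq_single k (fun l _ hl => by simp [hu, hl]) (by simp)]; simp [hu]; ring
        rw [show 8 * R ^ 2 = 2 * ∑ l, u (some l) ^ 2 by linarith, ← sum_add_distrib, mul_sum,
          mul_sum, ← sum_add_distrib]
        exact sum_congr rfl fun l _ => by simp only [Pi.add_apply, Pi.sub_apply]; ring
      simp only [Pi.add_apply (i := none), Pi.sub_apply (i := none), e0, add_zero, sub_zero]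
        at a1 a2
      have b : κ * F y ≤ exp (log (F (y + u)) / 2) * exp (log (F (y - u)) / 2) := by
        rw [← exp_log f0, ← exp_add, ← exp_add, exp_le_exp]
        have : θ / 2 * ∑ l, (y + u) (some l) ^ 2 + θ / 2 * ∑ l, (y - u) (some l) ^ 2 =
            θ * ∑ l, y (some l) ^ 2 + 4 * θ * R ^ 2 := by rw [← mul_add, e1]; ring
        linarith [a0.2, a1.1, a2.1]
      have c1 : exp (log (F (y + u)) / 2) ^ 2 = F (y + u) := by
        rw [← exp_nat_mul, ← exp_log f1]; congr 1; simp; ring
      have c2 : exp (log (F (y - u)) / 2) ^ 2 = F (y - u) := by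
        rw [← exp_nat_mul, ← exp_log f2]; congr 1; simp; ring
      have d := abs_le.1 (hy (some k))
      have d1 : R ^ 2 ≤ (y + u) (some k) ^ 2 := by simp [hu]; nlinarith
      have d2 : R ^ 2 ≤ (y - u) (some k) ^ 2 := by simp [hu]; nlinarith
      have b' : 2 * (κ * F y) ≤ F (y + u) + F (y - u) := by
        nlinarith [sq_nonneg (exp (log (F (y + u)) / 2) - exp (log (F (y - u)) / 2))]
      have : 0 ≤ κ * ∑ j, y j ^ 2 * F y := by positivity
      nlinarith [mul_le_mul_of_nonneg_right d1 f1.le, mul_le_mul_of_nonneg_right d2 f2.le]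
    · push Not at hy
      obtain ⟨j, hj⟩ := hy
      have : R ^ 2 * F y ≤ y j ^ 2 * F y :=
        mul_le_mul_of_nonneg_right (by rw [← sq_abs (y j)]; gcongr) f0.le
      exact (mul_nonpos_of_nonneg_of_nonpos (by positivity) (by linarith [s0 j])).trans
        (by positivity)
  have j1 := (i2 (some k)).comp_add_right u
  have j2 := (i2 (some k)).comp_sub_right u
  have j3 : Integrable fun y => ∑ j, y j ^ 2 * F y := integrable_finsetSum _ fun j _ => i2 j
  have I := integral_mono (((i1.const_mul (R ^ 2)).sub j3).const_mul (2 * κ)) (j1.add j2) key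
  rw [integral_const_mul, integral_add' j1 j2, integral_sub' (i1.const_mul _) j3,
    integral_const_mul, h1, integral_finsetSum _ fun j _ => i2 j,
    integral_add_right_eq_self (fun y : Option K → ℝ => y (some k) ^ 2 * F y),
    integral_sub_right_eq_self (fun y : Option K → ℝ => y (some k) ^ 2 * F y)] at I
  have m : ∫ y, y (some k) ^ 2 * F y ≤ C := (single_le_sum (f := fun j => ∫ y, y j ^ 2 * F y)
    (fun j _ => integral_nonneg fun y => mul_nonneg (sq_nonneg _) (hF y).le) (mem_univ _)).trans h2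
  have κ0 : 0 < κ := exp_pos _
  have hk : κ ≤ 1 / 99 := by
    by_contra hc
    push Not at hc
    nlinarith [mul_le_mul_of_nonneg_left h2 κ0.le]
  have e4 : exp (-4 : ℝ) ≥ 1 / 99 := by
    rw [exp_neg, ge_iff_le, one_div]
    refine inv_anti₀ (exp_pos _) ?_
    rw [show (4 : ℝ) = (4 : ℕ) * 1 by norm_num, exp_nat_mul]
    exact (pow_le_pow_left₀ (exp_pos _).le exp_one_lt_d9.le 4).trans (by norm_num)
  have := exp_le_exp.1 (hk.trans e4)
  rw [div_le_iff₀ R2]; linarith

end Pool.Agent.P.MP_6b977f_mp.RG.H43
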