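import Pool.Agent.P.MP_6b977f_mp.RG.LibC43
import Pool.Agent.P.MP_6b977f_mp.RG.TKER
import Pool.Agent.P.MP_6b977f_mp.RG.TMIX
import Pool.Agent.P.MP_6b977f_mp.RG.TPUSH
import Pool.Agent.P.MP_6b977f_mp.RG.TEP
import Pool.Agent.P.MP_6b977f_mp.RG.TPM

/-! Marks on vertices, marked mixtures. -/

set_option linter.dupNamespace false

namespace Pool.Agent.P.MP_6b977f_mp.RG

open Finset MeasureTheory Real
open scoped Classical

/-- positions in a finite rooted tree whose inner vertices have degree `d` -/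
structure Tr (d : ℕ) where
  P : Type
  [fin : Fintype P]
  dep : P → ℕ
  inner : P → Prop
  nb : P → Fin d → P
  root : P
  up : P → Fin d
  inner_root : inner root
  inj : ∀ p, inner p → Function.Injective (nb p)
  dep_root : ∀ i, dep root < dep (nb root i)
  dep_up : ∀ p, inner p → p ≠ root → dep (nb p (up p)) < dep p
  dep_ch : ∀ p, inner p → p ≠ root → ∀ i, i ≠ up p → dep p < dep (nb p i)
  ch_ne : ∀ p i, inner p → dep p < dep (nb p i) → nb p i ≠ root
  ch_up : ∀ p i, inner p → dep p < dep (nb p i) → inner (nb p i) → nb (nb p i) (up (nb p i)) = p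
  par : P → P
  par_in : ∀ p, p ≠ root → inner (par p) ∧ dep (par p) < dep p ∧ ∃ i, nb (par p) i = p
  par_ch : ∀ p i, inner p → dep p < dep (nb p i) → par (nb p i) = p

attribute [instance] Tr.fin

/-- the fourth roots of unity -/
noncomputable def z4 (u : Fin 4) : ℂ := Complex.I ^ (u : ℕ)

/-- a quotient with a default value -/
noncomputable def cd (x y : ℝ) : ℝ := if y = 0 then 1 / 4 else x / y

namespace Tr
variable {d : ℕ} (T : Tr d)

/-- marks -/
abbrev A := T.P × Fin 4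

/-- the product of the payloads of the children -/
noncomputable def Am (b : Option (Fin d) → T.A) : ℂ :=
  if T.inner (b none).1 then
    if ∃ σ : Equiv.Perm (Fin d), ∀ i, (b (some i)).1 = T.nb (b none).1 (σ i) then
      ∏ i, if T.dep (b none).1 < T.dep (b (some i)).1 then z4 (b (some i)).2 else 1
    else 0
  else 1

/-- the law of the payload -/
noncomputable def qk (t : T.P → ℝ) (a : ℝ) (b : Option (Fin d) → T.A) : ℝ :=
  (1 + ((starRingEnd ℂ) (z4 (b none).2) *
    (Complex.exp (Complex.I * (t (b none).1 * a : ℝ)) * T.Am b)).re / 2) / 4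

/-- the payload at the root -/
noncomputable def th (a : T.A) : ℂ := if a.1 = T.root then z4 a.2 else 0

/-- the recursion for conditional means, variances and constants -/
def Rec (lam : ℝ) (t al be Q cc : T.P → ℝ) : Prop := ∀ p, p ≠ T.root →
  (¬ T.inner p → al p = t p ∧ be p = 0 ∧ Q p = 0 ∧ cc p = 1 / 4) ∧
  (T.inner p →
    al p = t p + ∑ i ∈ univ.erase (T.up p), be (T.nb p i) +
      lam / (d - 1) * ∑ i ∈ univ.erase (T.up p), al (T.nb p i) ∧
    be p = -(∑ i ∈ univ.erase (T.up p), al (T.nb p i)) / (d - 1) ∧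
    Q p = ∑ i ∈ univ.erase (T.up p), Q (T.nb p i) + (d ^ 2 - lam ^ 2) / (d * (d - 1)) *
      (∑ i ∈ univ.erase (T.up p), al (T.nb p i) ^ 2 -
        (∑ i ∈ univ.erase (T.up p), al (T.nb p i)) ^ 2 / (d - 1)) ∧
    cc p = (d - 1).factorial / (4 * Fintype.card T.P ^ (d - 1)) *
      ∏ i ∈ univ.erase (T.up p), cc (T.nb p i))

/-- the variance -/
noncomputable def V (lam : ℝ) (t al be Q : T.P → ℝ) : ℝ := ∑ i, Q (T.nb T.root i) +
  cov d lam (t T.root + ∑ i, be (T.nb T.root i)) fun i => al (T.nb T.root i)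

/-- the constant -/
noncomputable def c0 (cc : T.P → ℝ) : ℝ :=
  d.factorial / (4 * Fintype.card T.P ^ (d + 1)) * ∏ i, cc (T.nb T.root i)

end Tr

/-- the gap computed with the value part `vl` of the labels -/
noncomputable def Law.gap0 {d : ℕ} (μ : Law d) (vl : ℤ → ℤ) (δ η lam : ℝ) : ℝ :=
  log (2 * π * η ^ 2) / 2 +
    μ.E (fun s => (|Wd lam (re δ (vl ∘ s))| + 3 * d * δ) ^ 2) / (2 * η ^ 2) - ell d lam - μ.Phi -
    log δ

/-- the marked gap -/
noncomputable def Law.gapU {d : ℕ} (μ : Law d) (T : Tr d) (vl : ℤ → ℤ) (mk : ℤ → T.A)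
    (t : T.P → ℝ) (δ η lam : ℝ) : ℝ := μ.gap0 vl δ η lam +
  μ.E fun s => log (Fintype.card T.P) - log (T.qk t (δ * vl (s none)) (mk ∘ s))

namespace Mix
variable {ι : Type} [Fintype ι] (m : Mix ι) {B : Type}

/-- the density of the part with mark `b` -/
noncomputable def jd (k : m.Ω → B) (v : ι → ℝ) (b : B) (y : ι → ℝ) : ℝ :=
  ∑ ω, ind (k ω = b) * m.p ω * ker v (y - m.x ω)

/-- expectation of a function of the mark and of the noisy point -/
noncomputable def EM (k : m.Ω → B) (v : ι → ℝ) (G : B → (ι → ℝ) → ℝ) : ℝ :=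
  ∑ ω, m.p ω * ∫ y, G (k ω) y * ker v (y - m.x ω)

/-- the same for complex functions -/
noncomputable def EC (k : m.Ω → B) (v : ι → ℝ) (G : B → (ι → ℝ) → ℂ) : ℂ :=
  ∑ ω, (m.p ω : ℂ) * ∫ y, G (k ω) y * (ker v (y - m.x ω) : ℝ)

/-- the joint entropy of the mark and of the noisy point -/
noncomputable def en (k : m.Ω → B) (v : ι → ℝ) : ℝ := -m.EM k v fun b y => log (m.jd k v b y)

/-- translation by a vector that depends on the mark -/
def sh (k : m.Ω → B) (c : B → ι → ℝ) : Mix ι where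
  Ω := m.Ω
  p := m.p
  p0 := m.p0
  p1 := m.p1
  x ω := m.x ω + c (k ω)

end Mix

/-- measurable and bounded by `C` -/
def MB {ι : Type} [Fintype ι] (C : ℝ) (g : (ι → ℝ) → ℂ) : Prop := Measurable g ∧ ∀ y, ‖g y‖ ≤ C

namespace Par
variable {d : ℕ} (P : Par d) {A : Type}

/-- the marks of an edge -/
def kE (m : Mix (SI d)) (k : m.Ω → Option (Fin d) → A) : (P.edge m).Ω → A × A :=
  fun ω => (k ω.1 none, k ω.1 (some ω.2))

/-- the averaged marked edge law is symmetric -/
def SymU (m : Mix (SI d)) (k : m.Ω → Option (Fin d) → A) : Prop := ∀ g : A → A → ℝ → ℝ → ℝ,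
  ∑ i, ∑ ω, m.p ω * g (k ω none) (k ω (some i)) (P.val (m.x ω) none) (P.val (m.x ω) (some i)) =
    ∑ i, ∑ ω, m.p ω * g (k ω (some i)) (k ω none) (P.val (m.x ω) (some i)) (P.val (m.x ω) none)

/-- the density on the edge of the part where `f` of the marks is `c` -/
noncomputable def JE (m : Mix (SI d)) (k : m.Ω → Option (Fin d) → A) (κ t : ℝ) {C : Type}
    (f : A × A → C) (c : C) : (Fin 2 → ℝ) → ℝ :=
  (P.edge m).jd (fun ω => f (P.kE m k ω)) (P.ve κ t) c

/-- conditional entropy of the marks on the star minus `d / 2` times that on the edge -/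
noncomputable def HU (m : Mix (SI d)) (k : m.Ω → Option (Fin d) → A) (κ t : ℝ) : ℝ :=
  m.en k (vs d κ t) - m.ent (vs d κ t) -
    d / 2 * ((P.edge m).en (P.kE m k) (P.ve κ t) - (P.edge m).ent (P.ve κ t))

variable (T : Tr d) (m : Mix (SI d)) (k : m.Ω → Option (Fin d) → T.A) (κ t : ℝ)

/-- both positions -/
noncomputable def J2 (p p' : T.P) := P.JE m k κ t (fun c => (c.1.1, c.2.1)) (p, p')

/-- first position, second mark -/
noncomputable def Jd (p : T.P) (b : T.A) := P.JE m k κ t (fun c => (c.1.1, c.2)) (p, b)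

/-- first mark, second position -/
noncomputable def Js (a : T.A) (p : T.P) := P.JE m k κ t (fun c => (c.1, c.2.1)) (a, p)

/-- the conditional law of the payload of a neighbour -/
noncomputable def kap (a b : T.A) (e : Fin 2 → ℝ) : ℝ :=
  if T.dep a.1 < T.dep b.1 then cd (P.Jd T m k κ t a.1 b e) (P.J2 T m k κ t a.1 b.1 e)
  else cd (P.JE m k κ t id (a, b) e) (P.Js T m k κ t a b.1 e)

/-- the product model for the marks of a star -/
noncomputable def Qd (tf : T.P → ℝ) (b : Option (Fin d) → T.A) (y : SI d → ℝ) : ℝ :=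
  T.qk tf (P.val y none) b / Fintype.card T.P ^ (d + 1) *
    ∏ i, P.kap T m k κ t (b none) (b (some i)) (P.ed i y)

/-- the conditional mean of the payload of a child -/
noncomputable def ub (p c : T.P) (e : Fin 2 → ℝ) : ℂ :=
  ∑ u, z4 u * (cd (P.Jd T m k κ t p (c, u) e) (P.J2 T m k κ t p c e) : ℝ)

/-- the Gaussian conditional mean, `al` on the far end and `be` on the near end of the edge -/
noncomputable def gE (al be Q : ℝ) (e : Fin 2 → ℝ) : ℂ :=
  Complex.exp (Complex.I * (al * (P.cs * e 0 - P.sn * e 1) + be * (P.cs * e 0 + P.sn * e 1) : ℝ)) *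
    (exp (-Q / 2) : ℝ)

end Par

/-! ### elementary facts -/

theorem norm_z4 (u : Fin 4) : ‖z4 u‖ = 1 := by simp [z4]

namespace Tr
variable {d : ℕ} (T : Tr d)

theorem norm_Am (b : Option (Fin d) → T.A) : ‖T.Am b‖ ≤ 1 := by
  unfold Am
  split_ifs
  · rw [norm_prod]
    exact (prod_eq_one fun i _ => by split_ifs <;> simp [norm_z4]).le
  · simp
  · simp

theorem qk_mem (t : T.P → ℝ) (a : ℝ) (b : Option (Fin d) → T.A) :
    1 / 8 ≤ T.qk t a b ∧ T.qk t a b ≤ 3 / 8 := by
  have h := (Complex.abs_re_le_norm ((starRingEnd ℂ) (z4 (b none).2) *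
    (Complex.exp (Complex.I * (t (b none).1 * a : ℝ)) * T.Am b))).trans (b := _) (c := 1) (by
      rw [norm_mul, norm_mul, RCLike.norm_conj, norm_z4, mul_comm Complex.I,
        Complex.norm_exp_ofReal_mul_I, one_mul, one_mul]; exact T.norm_Am b)
  rw [abs_le] at h
  unfold qk
  constructor <;> linarith

theorem qk_lip (t : T.P → ℝ) (a a' : ℝ) (b : Option (Fin d) → T.A) :
    |log (T.qk t a b) - log (T.qk t a' b)| ≤ |t (b none).1| * |a - a'| := by
  have h : |T.qk t a b - T.qk t a' b| ≤ |t (b none).1| * |a - a'| / 8 := by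
    have e : T.qk t a b - T.qk t a' b = ((starRingEnd ℂ) (z4 (b none).2) *
        ((Complex.exp (Complex.I * (t (b none).1 * a : ℝ)) -
          Complex.exp (Complex.I * (t (b none).1 * a' : ℝ))) * T.Am b)).re / 8 := by
      simp only [qk, sub_mul, mul_sub, Complex.sub_re]; ring
    rw [e, abs_div, abs_of_pos (show (0 : ℝ) < 8 by norm_num)]
    gcongr
    refine (Complex.abs_re_le_norm _).trans ?_
    rw [norm_mul, norm_mul, RCLike.norm_conj, norm_z4, one_mul, ← abs_mul, mul_sub]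
    exact (mul_le_of_le_one_right (norm_nonneg _) (T.norm_Am b)).trans (norm_eI_sub _ _)
  have k : ∀ x y : ℝ, 1 / 8 ≤ x → 1 / 8 ≤ y → log x - log y ≤ 8 * |x - y| := fun x y hx hy => by
    rw [← log_div (by linarith) (by linarith)]
    refine (log_le_sub_one_of_pos (by positivity)).trans ?_
    rw [sub_le_iff_le_add, div_le_iff₀ (by linarith)]
    nlinarith [le_abs_self (x - y), abs_nonneg (x - y)]
  have h1 := k _ _ (T.qk_mem t a b).1 (T.qk_mem t a' b).1
  have h2 := k _ _ (T.qk_mem t a' b).1 (T.qk_mem t a b).1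
  rw [abs_sub_comm] at h2
  rw [abs_le]; constructor <;> linarith

theorem qk_cont (t : T.P → ℝ) (b : Option (Fin d) → T.A) : Continuous fun a => T.qk t a b := by
  unfold qk; fun_prop

theorem card_pos : (1 : ℝ) ≤ Fintype.card T.P := by
  exact_mod_cast Fintype.card_pos_iff.2 ⟨T.root⟩

end Tr

theorem ker_intb {ι : Type} [Fintype ι] {v : ι → ℝ} (hv : ∀ j, 0 < v j) (x : ι → ℝ)
    {g : (ι → ℝ) → ℝ} (hg : PG g) : Integrable fun y => g y * ker v (y - x) :=
  (p_KER ι v x hv).1 g hg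

theorem ker_int {ι : Type} [Fintype ι] {v : ι → ℝ} (hv : ∀ j, 0 < v j) (x : ι → ℝ) :
    ∫ y, ker v (y - x) = 1 := (p_KER ι v x hv).2.1

theorem MB.re {ι : Type} [Fintype ι] {C : ℝ} {g : (ι → ℝ) → ℂ} (h : MB C g) :
    PG fun y => (g y).re :=
  PG.bdd (Complex.measurable_re.comp h.1) C fun y => (Complex.abs_re_le_norm _).trans (h.2 y)

theorem MB.im {ι : Type} [Fintype ι] {C : ℝ} {g : (ι → ℝ) → ℂ} (h : MB C g) :
    PG fun y => (g y).im :=
  PG.bdd (Complex.measurable_im.comp h.1) C fun y => (Complex.abs_im_le_norm _).trans (h.2 y)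

theorem MB.intb {ι : Type} [Fintype ι] {C : ℝ} {g : (ι → ℝ) → ℂ} (h : MB C g)
    {f : (ι → ℝ) → ℝ} (hf : Integrable f) : Integrable fun y => g y * (f y : ℝ) :=
  hf.ofReal.bdd_mul h.1.aestronglyMeasurable (ae_of_all _ h.2)

theorem MB.int {ι : Type} [Fintype ι] {C : ℝ} {g : (ι → ℝ) → ℂ} (h : MB C g)
    {f : (ι → ℝ) → ℝ} (hf : Integrable f) : ∫ y, g y * (f y : ℝ) =
      (∫ y, (g y).re * f y : ℝ) + (∫ y, (g y).im * f y : ℝ) * Complex.I := by
  have := integral_re_add_im (h.intb hf)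
  simpa using this.symm

namespace Mix
variable {ι : Type} [Fintype ι] (m : Mix ι) {B : Type} (k : m.Ω → B) {v : ι → ℝ}

theorem jd_nonneg (hv : ∀ j, 0 < v j) (b : B) (y : ι → ℝ) : 0 ≤ m.jd k v b y :=
  sum_nonneg fun ω _ => mul_nonneg (mul_nonneg (ind_nonneg _) (m.p0 ω)) (ker_pos hv _).le

theorem jd_pos (hv : ∀ j, 0 < v j) {ω : m.Ω} (h : 0 < m.p ω) (y : ι → ℝ) :
    0 < m.jd k v (k ω) y :=
  sum_pos' (fun ω _ => mul_nonneg (mul_nonneg (ind_nonneg _) (m.p0 ω)) (ker_pos hv _).le)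
    ⟨ω, mem_univ _, by rw [ind_pos rfl, one_mul]; exact mul_pos h (ker_pos hv _)⟩

theorem jd_cases (hv : ∀ j, 0 < v j) (b : B) :
    (∀ y, m.jd k v b y = 0) ∨ ∀ y, 0 < m.jd k v b y := by
  by_cases h : ∃ ω, k ω = b ∧ 0 < m.p ω
  · obtain ⟨ω, rfl, h⟩ := h
    exact Or.inr (m.jd_pos k hv h)
  · refine Or.inl fun y => sum_eq_zero fun ω _ => ?_
    by_cases e : k ω = b
    · rw [(m.p0 ω).antisymm' (not_lt.1 fun h' => h ⟨ω, e, h'⟩), mul_zero, zero_mul]
    · rw [ind_neg e, zero_mul, zero_mul]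

theorem jd_cont (v : ι → ℝ) (b : B) : Continuous (m.jd k v b) :=
  continuous_finsetSum _ fun _ _ => (MIXx.ker_cont v _).const_mul _

theorem jd_mul (hv : ∀ j, 0 < v j) (b : B) {g : (ι → ℝ) → ℝ} (hg : PG g) :
    (Integrable fun y => g y * m.jd k v b y) ∧
      ∫ y, g y * m.jd k v b y = ∑ ω, ind (k ω = b) * m.p ω * ∫ y, g y * ker v (y - m.x ω) := by
  simp only [jd, mul_sum, mul_left_comm (g _)]
  refine ⟨integrable_finsetSum _ fun ω _ => (ker_intb hv _ hg).const_mul _, ?_⟩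
  rw [integral_finsetSum _ fun ω _ => (ker_intb hv _ hg).const_mul _]
  simp only [integral_const_mul]

theorem jd_intb (hv : ∀ j, 0 < v j) (b : B) : Integrable (m.jd k v b) := by
  simpa using (m.jd_mul k hv b (PG.const 1)).1

theorem jd_comp [Fintype B] {C : Type} (f : B → C) (v : ι → ℝ) (c : C) (y : ι → ℝ) :
    m.jd (fun ω => f (k ω)) v c y = ∑ b, ind (f b = c) * m.jd k v b y := by
  simp only [jd, mul_sum]
  rw [sum_comm]
  refine sum_congr rfl fun ω _ => ?_
  rw [sum_eq_single (k ω) (fun b _ hb => by rw [ind_neg hb.symm]; ring) (by simp), ind_pos rfl]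
  ring

theorem jd_sum [Fintype B] (v y : ι → ℝ) : ∑ b, m.jd k v b y = m.den v y := by
  have := m.jd_comp k (fun _ => ()) v () y
  simpa only [ind_pos rfl, ind_pos trivial, one_mul, jd, den] using this.symm

theorem pg_log_jd (hv : ∀ j, 0 < v j) (b : B) : PG fun y => log (m.jd k v b y) := by
  rcases m.jd_cases k hv b with h | h
  · simpa only [h, log_zero] using PG.const 0
  · set s := ∑ ω, ind (k ω = b) * m.p ω
    have s0 : 0 < s := by
      have := integral_pos_of_integrable_nonneg_nonzero (m.jd_cont k v b) (m.jd_intb k hv b)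
        (fun y => (h y).le) (h 0).ne'
      have e := (m.jd_mul k hv b (PG.const 1)).2
      simp only [one_mul, ker_int hv, mul_one] at e
      rwa [e] at this
    let m' : Mix ι := ⟨m.Ω, fun ω => ind (k ω = b) * m.p ω / s,
      fun ω => div_nonneg (mul_nonneg (ind_nonneg _) (m.p0 ω)) s0.le,
      by rw [← sum_div, div_self s0.ne'], m.x⟩
    have e : ∀ y, m.jd k v b y = s * m'.den v y := fun y => by
      simp only [jd, den, m', mul_sum]
      exact sum_congr rfl fun ω _ => by field_simp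
    simp only [e, log_mul s0.ne' (MIXx.den_pos m' hv _).ne']
    exact (PG.const _).add (MIXx.pg_log m' hv)

theorem EM_eq [Fintype B] (hv : ∀ j, 0 < v j) {G : B → (ι → ℝ) → ℝ} (hG : ∀ b, PG (G b)) :
    m.EM k v G = ∫ y, ∑ b, G b y * m.jd k v b y := by
  rw [integral_finsetSum _ fun b _ => (m.jd_mul k hv b (hG b)).1,
    sum_congr rfl fun b _ => (m.jd_mul k hv b (hG b)).2, sum_comm]
  refine sum_congr rfl fun ω _ => ?_
  rw [sum_eq_single (k ω) (fun b _ hb => by rw [ind_neg hb.symm]; ring) (by simp), ind_pos rfl,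
    one_mul]

theorem EM_Ex (hv : ∀ j, 0 < v j) {g : (ι → ℝ) → ℝ} (hg : PG g) :
    m.EM k v (fun _ => g) = m.Ex v g := ((p_MIX p_KER ι m v hv).2.2.2.2.2.2 g hg).2.1.symm

theorem EM_add (hv : ∀ j, 0 < v j) {G H : B → (ι → ℝ) → ℝ} (hG : ∀ b, PG (G b))
    (hH : ∀ b, PG (H b)) : m.EM k v (fun b y => G b y + H b y) = m.EM k v G + m.EM k v H := by
  simp only [EM, add_mul, integral_add (ker_intb hv _ (hG _)) (ker_intb hv _ (hH _)), mul_add,
    sum_add_distrib]

theorem EM_mul (v : ι → ℝ) (c : ℝ) (G : B → (ι → ℝ) → ℝ) :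
    m.EM k v (fun b y => c * G b y) = c * m.EM k v G := by
  simp only [EM, mul_assoc, integral_const_mul, mul_sum]
  exact sum_congr rfl fun ω _ => by ring

theorem EM_const (hv : ∀ j, 0 < v j) (c : ℝ) : m.EM k v (fun _ _ => c) = c := by
  simp only [EM, integral_const_mul, ker_int hv, mul_one, ← sum_mul, m.p1, one_mul]

theorem EM_sum (hv : ∀ j, 0 < v j) {α : Type} (s : Finset α) {G : α → B → (ι → ℝ) → ℝ}
    (hG : ∀ a b, PG (G a b)) :
    m.EM k v (fun b y => ∑ a ∈ s, G a b y) = ∑ a ∈ s, m.EM k v (G a) := by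
  simp only [EM, sum_mul, integral_finsetSum _ fun a _ => ker_intb hv _ (hG a _), mul_sum]
  rw [sum_comm]

theorem EM_mono (hv : ∀ j, 0 < v j) {G H : B → (ι → ℝ) → ℝ} (hG : ∀ b, PG (G b))
    (hH : ∀ b, PG (H b)) (h : ∀ ω, 0 < m.p ω → ∀ y, G (k ω) y ≤ H (k ω) y) :
    m.EM k v G ≤ m.EM k v H := by
  refine sum_le_sum fun ω _ => ?_
  rcases (m.p0 ω).eq_or_lt with e | e
  · rw [← e, zero_mul, zero_mul]
  · exact mul_le_mul_of_nonneg_left (integral_mono (ker_intb hv _ (hG _)) (ker_intb hv _ (hH _))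
      fun y => mul_le_mul_of_nonneg_right (h ω e y) (ker_pos hv _).le) e.le

theorem EC_eq (hv : ∀ j, 0 < v j) {C : ℝ} {G : B → (ι → ℝ) → ℂ} (hG : ∀ b, MB C (G b)) :
    m.EC k v G = (m.EM k v fun b y => (G b y).re) +
      (m.EM k v fun b y => (G b y).im) * Complex.I := by
  have i : ∀ x, Integrable fun y => ker v (y - x) := fun x => by
    simpa using ker_intb hv x (PG.const 1)
  simp only [EC, EM, (hG _).int (i _), mul_add, sum_add_distrib, Complex.ofReal_sum,
    Complex.ofReal_mul, sum_mul, mul_assoc]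

theorem EC_int [Fintype B] (hv : ∀ j, 0 < v j) {C : ℝ} {G : B → (ι → ℝ) → ℂ}
    (hG : ∀ b, MB C (G b)) : m.EC k v G = ∫ y, ∑ b, G b y * (m.jd k v b y : ℝ) := by
  rw [m.EC_eq k hv hG, m.EM_eq k hv fun b => (hG b).re, m.EM_eq k hv fun b => (hG b).im,
    integral_finsetSum _ fun b _ => (hG b).intb (m.jd_intb k hv b),
    integral_finsetSum _ fun b _ => (m.jd_mul k hv b (hG b).re).1,
    integral_finsetSum _ fun b _ => (m.jd_mul k hv b (hG b).im).1]
  simp only [(hG _).int (m.jd_intb k hv _), sum_add_distrib, Complex.ofReal_sum, sum_mul]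

theorem EC_sub_le (hv : ∀ j, 0 < v j) {C : ℝ} {G G' : B → (ι → ℝ) → ℂ} {H : B → (ι → ℝ) → ℝ}
    (hG : ∀ b, MB C (G b)) (hG' : ∀ b, MB C (G' b)) (hH : ∀ b, PG (H b))
    (h : ∀ b y, ‖G b y - G' b y‖ ≤ H b y) : ‖m.EC k v G - m.EC k v G'‖ ≤ m.EM k v H := by
  have i : ∀ x, Integrable fun y => ker v (y - x) := fun x => by
    simpa using ker_intb hv x (PG.const 1)
  rw [EC, EC, ← sum_sub_distrib]
  refine (norm_sum_le _ _).trans (sum_le_sum fun ω _ => ?_)
  rw [← mul_sub, norm_mul, Complex.norm_real, norm_eq_abs, abs_of_nonneg (m.p0 ω),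
    ← integral_sub ((hG _).intb (i _)) ((hG' _).intb (i _))]
  refine mul_le_mul_of_nonneg_left (norm_integral_le_of_norm_le (ker_intb hv _ (hH _))
    (ae_of_all _ fun y => ?_)) (m.p0 ω)
  rw [← sub_mul, norm_mul, Complex.norm_real, norm_eq_abs, abs_of_pos (ker_pos hv _)]
  exact mul_le_mul_of_nonneg_right (h _ y) (ker_pos hv _).le

end Mix

namespace Par
variable {d : ℕ} (P : Par d) {A : Type} (m : Mix (SI d)) (k : m.Ω → Option (Fin d) → A) {κ t : ℝ}

theorem ve_pos (hκ : 0 < κ) (ht : 0 ≤ t) (j : Fin 2) : 0 < P.ve κ t j := by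
  have := P.cs_pos
  fin_cases j <;> simp only [Par.ve] <;> simp <;> positivity

theorem edge_sum (F : m.Ω → Fin d → ℝ) :
    ∑ ω : (P.edge m).Ω, (P.edge m).p ω * F ω.1 ω.2 = (∑ i, ∑ ω, m.p ω * F ω i) / d := by
  change ∑ ω : m.Ω × Fin d, m.p ω.1 / d * F ω.1 ω.2 = _
  rw [Fintype.sum_prod_type_right, sum_div]
  refine sum_congr rfl fun i _ => ?_
  rw [sum_div]
  exact sum_congr rfl fun ω _ => by ring

/-- from the star to the edge -/
theorem EM_edge (hκ : 0 < κ) (ht : 0 ≤ t) {G : A × A → (Fin 2 → ℝ) → ℝ} (hG : ∀ c, PG (G c)) :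
    ∑ i, m.EM k (vs d κ t) (fun b y => G (b none, b (some i)) (P.ed i y)) =
      d * (P.edge m).EM (P.kE m k) (P.ve κ t) G := by
  have : (d : ℝ) ≠ 0 := by have := P.hd; positivity
  simp only [Mix.EM, EPx.ped (p_PUSH p_KER) P hκ ht _ _ _ (hG _)]
  rw [eq_comm, mul_comm, ← eq_div_iff this]
  exact P.edge_sum m fun ω i => ∫ z, G (k ω none, k ω (some i)) z * ker (P.ve κ t) (z - P.ed i (m.x ω))

variable {P m k}

theorem SymU.sum_R (h : P.SymU m k) (G : A × A → (Fin 2 → ℝ) → ℝ) :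
    ∑ ω, (P.edge m).p ω * G (P.kE m k ω) ((P.edge m).x ω) =
      ∑ ω, (P.edge m).p ω * G (P.kE m k ω).swap (PMx.R ((P.edge m).x ω)) := by
  refine (P.edge_sum m fun ω i => G (k ω none, k ω (some i)) (P.ed i (m.x ω))).trans
    (Eq.trans ?_ (P.edge_sum m fun ω i => G (k ω (some i), k ω none) (PMx.R (P.ed i (m.x ω)))).symm)
  congr 1
  simp only [P.ed_val]
  refine (h fun c c' a b => G (c, c') ![(a + b) / (2 * P.cs), (a - b) / (2 * P.sn)]).trans ?_
  refine sum_congr rfl fun i _ => sum_congr rfl fun ω _ => congrArg _ (congrArg _ (funext fun j => ?_))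
  fin_cases j <;> simp [PMx.R, PMx.sg] <;> ring

theorem SymU.JE_R (h : P.SymU m k) (κ t : ℝ) {C : Type} (f : A × A → C) (c : C) (e : Fin 2 → ℝ) :
    P.JE m k κ t f c (PMx.R e) = P.JE m k κ t (fun a => f a.swap) c e := by
  have := h.sum_R fun a x => ind (f a = c) * ker (P.ve κ t) (PMx.R e - x)
  simp only [PMx.ker_R] at this
  simpa only [JE, Mix.jd, mul_assoc, mul_left_comm (ind _)] using this

theorem SymU.EM_R (h : P.SymU m k) (v : Fin 2 → ℝ) (G : A × A → (Fin 2 → ℝ) → ℝ) :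
    (P.edge m).EM (P.kE m k) v G = (P.edge m).EM (P.kE m k) v fun a e => G a.swap (PMx.R e) := by
  refine (h.sum_R fun a x => ∫ y, G a y * ker v (y - x)).trans (sum_congr rfl fun ω _ => ?_)
  rw [← PMx.int_R]
  simp only [PMx.ker_R]

theorem SymU.sym (h : P.SymU m k) : P.Sym m := fun g => h fun _ _ => g

end Par

end Pool.Agent.P.MP_6b977f_mp.RG
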