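import Pool.Agent.P.MP_6b977f_mp.RG.IfaceB

/-! Step EIG. -/

namespace Pool.Agent.P.MP_6b977f_mp.RG

open Finset MeasureTheory Real
open scoped Classical

namespace EIGx

open Matrix

lemma spec {N : ℕ} (A : Matrix (Fin N) (Fin N) ℝ) (hA : A.IsHermitian) :
    ∃ (U V : Matrix (Fin N) (Fin N) ℝ) (ev : Fin N → ℝ), U * V = 1 ∧ V * U = 1 ∧
      A = U * diagonal ev * V := by
  refine ⟨hA.eigenvectorUnitary, Star.star (hA.eigenvectorUnitary : Matrix (Fin N) (Fin N) ℝ),
    hA.eigenvalues, Unitary.coe_mul_star_self _, Unitary.coe_star_mul_self _, ?_⟩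
  conv_lhs => rw [hA.spectral_theorem, Unitary.conjStarAlgAut_apply]
  rfl

lemma tr {d N : ℕ} (M : Cfg d N) (hM : M ∈ Cf d N) :
    (Am M * Am M).trace = d * N + par M := by
  have k : ∀ x, ∑ y, Am M x y * Am M y x =
      d + ∑ i, ∑ j, ind (i ≠ j ∧ tip M (x, i) = tip M (x, j)) := by
    intro x
    have h1 : ∑ y, Am M x y * Am M y x = ∑ i, ∑ j, ind (tip M (x, i) = tip M (x, j)) := by
      have : ∀ y, Am M x y * Am M y x =
          ∑ i, ∑ j, ind (tip M (x, i) = y) * ind (tip M (x, j) = y) := by
        intro y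
        rw [← Am_symm hM x y]
        simp only [Am, of_apply, sum_mul_sum]
      simp only [this]
      rw [sum_comm]
      refine sum_congr rfl fun i _ => ?_
      rw [sum_comm]
      refine sum_congr rfl fun j _ => ?_
      rw [sum_eq_single (tip M (x, i))]
      · rw [ind_pos rfl, one_mul]
        simp only [eq_comm]
      · intro b _ hb
        rw [ind_neg (Ne.symm hb), zero_mul]
      · simp
    have h2 : ∀ i : Fin d, ∑ j, ind (tip M (x, i) = tip M (x, j)) =
        1 + ∑ j, ind (i ≠ j ∧ tip M (x, i) = tip M (x, j)) := by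
      intro i
      have : ∀ j, ind (tip M (x, i) = tip M (x, j)) =
          ind (i = j) + ind (i ≠ j ∧ tip M (x, i) = tip M (x, j)) := by
        intro j
        by_cases h : i = j
        · subst h
          simp [ind]
        · simp [ind, h]
      simp only [this, sum_add_distrib]
      congr 1
      rw [sum_eq_single i, ind_pos rfl]
      · intro b _ hb
        exact ind_neg (Ne.symm hb)
      · simp
    rw [h1]
    simp only [h2, sum_add_distrib]
    simp
  simp only [trace, diag_apply, mul_apply, k, sum_add_distrib, par]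
  simp [mul_comm]

end EIGx

theorem p_EIG :
    S_EIG := by
  intro d N M hM
  obtain ⟨U, V, ev, h1, h2, hA⟩ := EIGx.spec (Am M) (by
    ext x y
    simpa using Am_symm hM y x)
  refine ⟨ev, fun lam γ hγ => ?_, ?_⟩
  · have e1 : Am M - lam • 1 = U * Matrix.diagonal (fun j => ev j - lam) * V := by
      have : Matrix.diagonal (fun j => ev j - lam) =
          Matrix.diagonal ev - lam • (1 : Matrix (Fin N) (Fin N) ℝ) := by
        ext a b
        by_cases h : a = b <;> simp [h]
      rw [this, Matrix.mul_sub, Matrix.sub_mul, ← hA, Matrix.mul_smul, Matrix.smul_mul,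
        Matrix.mul_one, h1]
    have e2 : (Am M - lam • 1) * (Am M - lam • 1) + γ ^ 2 • 1 =
        U * Matrix.diagonal (fun j => (ev j - lam) ^ 2 + γ ^ 2) * V := by
      have : Matrix.diagonal (fun j => (ev j - lam) ^ 2 + γ ^ 2) =
          Matrix.diagonal (fun j => ev j - lam) * Matrix.diagonal (fun j => ev j - lam) +
            γ ^ 2 • (1 : Matrix (Fin N) (Fin N) ℝ) := by
        rw [Matrix.diagonal_mul_diagonal]
        ext a b
        by_cases h : a = b <;> simp [h, sq]
      rw [this, Matrix.mul_add, Matrix.add_mul, Matrix.mul_smul, Matrix.smul_mul,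
        Matrix.mul_one, h1, e1]
      congr 1
      simp only [Matrix.mul_assoc]
      rw [← Matrix.mul_assoc V U, h2, Matrix.one_mul]
    have e3 : U.det * V.det = 1 := by rw [← Matrix.det_mul, h1, Matrix.det_one]
    rw [LD, Sv, e2, Matrix.det_mul, Matrix.det_mul, Matrix.det_diagonal, mul_right_comm, e3,
      one_mul, Real.log_prod]
    intro j _
    positivity
  · rw [← EIGx.tr M hM]
    have : Am M * Am M = U * (Matrix.diagonal (fun j => ev j ^ 2) * V) := by
      conv_lhs => rw [hA]
      simp only [Matrix.mul_assoc]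
      rw [← Matrix.mul_assoc V U, h2, Matrix.one_mul, ← Matrix.mul_assoc (Matrix.diagonal ev),
        Matrix.diagonal_mul_diagonal]
      simp only [sq]
    rw [this, Matrix.trace_mul_comm, Matrix.mul_assoc, h2, Matrix.mul_one, Matrix.trace_diagonal]

end Pool.Agent.P.MP_6b977f_mp.RG
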