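import Pool.Agent.P.MP_6b977f_mp.RG.IfaceA

/-! Step LS. -/

namespace Pool.Agent.P.MP_6b977f_mp.RG

open Finset MeasureTheory Real
open scoped Classical

namespace LSx

theorem logsum {Ω : Type} [Fintype Ω] (k a : Ω → ℝ) (B : ℝ) (hk : ∀ ω, 0 ≤ k ω) (ha : ∀ ω, 0 < a ω)
    (hB : 0 < B) (hD : 0 < ∑ ω, k ω) (h : ∑ ω, k ω / a ω ≤ B) :
    log (∑ ω, k ω) * ∑ ω, k ω ≤ ∑ ω, k ω * (log (a ω) + log B) := by
  set D := ∑ ω, k ω with hDe
  have h1 : ∀ ω, k ω * log D ≤ k ω * (log (a ω) + log B) + (D / B * (k ω / a ω) - k ω) := fun ω => by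
    have h2 := log_le_sub_one_of_pos (div_pos hD (mul_pos (ha ω) hB))
    rw [log_div hD.ne' (mul_pos (ha ω) hB).ne', log_mul (ha ω).ne' hB.ne'] at h2
    have h3 := mul_le_mul_of_nonneg_left h2 (hk ω)
    have h4 : D / B * (k ω / a ω) = k ω * (D / (a ω * B)) := by
      have := (ha ω).ne'
      field_simp
    rw [h4]
    linarith
  have h5 := sum_le_sum fun ω (_ : ω ∈ univ) => h1 ω
  rw [sum_add_distrib, sum_sub_distrib, ← mul_sum, ← sum_mul, ← hDe] at h5
  have h6 : D / B * ∑ ω, k ω / a ω ≤ D / B * B := mul_le_mul_of_nonneg_left h (by positivity)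
  rw [div_mul_cancel₀ _ hB.ne'] at h6
  linarith

end LSx

theorem p_LS (hKER : S_KER) (hMIX : S_MIX) :
    S_LS := by
  intro ι _ m v Z _ f μ B hv hμ hf hB hle
  obtain ⟨hpos, -, hPG, -, -, -, hint⟩ := hMIX ι m v hv
  have hi : ∀ ω, Integrable fun y => ker v (y - m.x ω) := fun ω => by
    simpa using (hKER ι v (m.x ω) hv).1 _ (PG.const 1)
  have h1 : ∀ y, log (m.den v y) * m.den v y ≤
      ∑ ω, m.p ω * (log (μ (f ω)) + log B) * ker v (y - m.x ω) := fun y => by
    have := LSx.logsum (fun ω => m.p ω * ker v (y - m.x ω)) (fun ω => μ (f ω)) B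
      (fun ω => mul_nonneg (m.p0 ω) (ker_pos hv _).le) (fun ω => hμ _) hB (hpos y)
      (le_of_eq_of_le (sum_congr rfl fun ω _ => by ring) (hle y))
    exact this.trans_eq (sum_congr rfl fun ω _ => by ring)
  have h2 := integral_mono (hint _ hPG).1
    (integrable_finsetSum univ fun ω _ => (hi ω).const_mul (m.p ω * (log (μ (f ω)) + log B))) h1
  rw [integral_finsetSum _ fun ω _ => (hi ω).const_mul _] at h2
  simp only [integral_const_mul, fun ω => (hKER ι v (m.x ω) hv).2.1, mul_one, mul_add,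
    sum_add_distrib, ← sum_mul, m.p1, one_mul] at h2
  have h3 : ∑ ω, m.p ω * log (μ (f ω)) = ∑ z, μ z * log (μ z) := by
    rw [← sum_fiberwise univ f]
    refine sum_congr rfl fun z _ => ?_
    rw [← hf z, sum_mul, hf z]
    exact sum_congr rfl fun ω hω => by rw [(mem_filter.1 hω).2]
  unfold Mix.ent Mix.Ex
  linarith

end Pool.Agent.P.MP_6b977f_mp.RG
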