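import Pool.Agent.P.MP_6b977f_mp.RG.IfaceB
import Pool.Agent.P.MP_6b977f_mp.RG.Lib91

/-! Step MASSP. -/

namespace Pool.Agent.P.MP_6b977f_mp.RG

open Finset MeasureTheory Real
open scoped Classical

theorem p_MASSP :
    S_MASSP := by
  intro d κ p hd hκ p1 p2
  obtain ⟨m, m0, C, C0, h⟩ := X91.massp d hd (κ ^ 2) p (by positivity) p1 p2
  refine ⟨1 / m, C + 1, by positivity, by positivity, fun N M ψ lam t d0 hM hs he hl t0 hK => ?_⟩
  have d3 : (3 : ℝ) ≤ d := by exact_mod_cast hd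
  refine (h (Fin N) (Fin d) M lam t (d0 * N) ψ (Fintype.card_fin d) (fun x => (mem_Cf.1 hM x).1)
    ?_ he t0.le hs hK).trans (mul_le_mul_of_nonneg_right (mul_le_mul_of_nonneg_right
      (by linarith) (by positivity)) (Nat.cast_nonneg _))
  have s := sq_sqrt (by linarith : (0 : ℝ) ≤ d - 1)
  rw [← sq_abs lam]
  nlinarith [abs_nonneg lam]

end Pool.Agent.P.MP_6b977f_mp.RG
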