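import Pool.Agent.P.MP_6b977f_mp.RG.IfaceU

/-! Step UFUB. -/

namespace Pool.Agent.P.MP_6b977f_mp.RG

open Finset MeasureTheory Real
open scoped Classical

namespace UFUBx

theorem ap {ι : Type} (y : Option ι → ℝ) :
    MeasurableEquiv.piOptionEquivProd (fun _ : Option ι => ℝ) y =
      (fun j => y (some j), y none) := rfl

theorem mp (ι : Type) [Fintype ι] :
    MeasurePreserving (MeasurableEquiv.piOptionEquivProd (fun _ : Option ι => ℝ))
      (volume : Measure (Option ι → ℝ)) ((volume : Measure (ι → ℝ)).prod (volume : Measure ℝ)) :=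
  MeasurePreserving.symm _
    (⟨(MeasurableEquiv.piOptionEquivProd (fun _ : Option ι => ℝ)).symm.measurable,
      Measure.pi_map_piOptionEquivProd (fun _ : Option ι => (volume : Measure ℝ))⟩ :
      MeasurePreserving (MeasurableEquiv.piOptionEquivProd (fun _ : Option ι => ℝ)).symm
        ((volume : Measure (ι → ℝ)).prod (volume : Measure ℝ)) (volume : Measure (Option ι → ℝ)))

end UFUBx

theorem p_UFUB :
    S_UFUB := by
  intro ι _ F hF
  have h1 : Integrable (fun q : (ι → ℝ) × ℝ => F q.2 q.1)
      ((volume : Measure (ι → ℝ)).prod (volume : Measure ℝ)) :=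
    ((UFUBx.mp ι).integrable_comp_emb
      (MeasurableEquiv.piOptionEquivProd (fun _ : Option ι => ℝ)).measurableEmbedding).1 hF
  refine ⟨h1.integral_prod_right, ?_⟩
  rw [← integral_prod_symm _ h1]
  exact (UFUBx.mp ι).integral_comp' (fun q : (ι → ℝ) × ℝ => F q.2 q.1)

end Pool.Agent.P.MP_6b977f_mp.RG
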