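import Pool.Agent.P.MP_6b977f_mp.RG.IfaceU
import Pool.Agent.P.MP_6b977f_mp.RG.LibW

/-! Step URS. -/

namespace Pool.Agent.P.MP_6b977f_mp.RG

open Finset MeasureTheory Real
open scoped Classical

namespace URSx

theorem card_fib {d : ℕ} (j u : Fin d) :
    #(univ.filter fun σ : Equiv.Perm (Fin d) => σ j = u) = (d - 1).factorial := by
  have h1 : ∀ u', #(univ.filter fun σ : Equiv.Perm (Fin d) => σ j = u') =
      #(univ.filter fun σ : Equiv.Perm (Fin d) => σ j = u) := fun u' =>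
    card_nbij' (fun σ => Equiv.swap u' u * σ) (fun σ => Equiv.swap u' u * σ)
      (fun σ h => by simp_all) (fun σ h => by simp_all) (fun σ _ => by simp [← mul_assoc])
      fun σ _ => by simp [← mul_assoc]
  have h2 := card_eq_sum_card_fiberwise (f := fun σ : Equiv.Perm (Fin d) => σ j) (s := univ)
    (t := univ) fun _ _ => mem_univ _
  simp only [h1, sum_const, card_univ, Fintype.card_perm, Fintype.card_fin, smul_eq_mul] at h2
  rw [← Nat.mul_factorial_pred j.pos.ne'] at h2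
  exact (Nat.eq_of_mul_eq_mul_left j.pos h2).symm

theorem sum_sig {d : ℕ} {j u : Fin d} {σ : Equiv.Perm (Fin d)} (h : σ j = u) (f : Fin d → ℝ) :
    ∑ i ∈ univ.erase j, f (σ i) = ∑ i ∈ univ.erase u, f i :=
  sum_equiv σ (fun i => by simp [← h]) fun _ _ => rfl

theorem prod_sig {d : ℕ} {j u : Fin d} {σ : Equiv.Perm (Fin d)} (h : σ j = u) (f : Fin d → ℝ) :
    ∏ i ∈ univ.erase j, f (σ i) = ∏ i ∈ univ.erase u, f i :=
  prod_equiv σ (fun i => by simp [← h]) fun _ _ => rfl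

theorem int_R (f : (Fin 2 → ℝ) → ℂ) : ∫ e, f (PMx.R e) = ∫ e, f e :=
  MeasurePreserving.integral_comp'
    (f := MeasurableEquiv.ofInvolutive PMx.R PMx.RR PMx.mp.measurable) PMx.mp f

theorem phase {f : (Fin 2 → ℝ) → ℂ} (hf : Measurable f) :
    ∃ H, MB 1 H ∧ ∀ z, H z * f z = (‖f z‖ : ℝ) := by
  refine ⟨fun z => (starRingEnd ℂ) (f z) / (‖f z‖ : ℝ), ⟨?_, fun z => ?_⟩, fun z => ?_⟩
  · exact (Complex.continuous_conj.measurable.comp hf).div
      (Complex.measurable_ofReal.comp hf.norm)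
  · rw [norm_div, RCLike.norm_conj, Complex.norm_real, norm_norm]
    exact div_self_le_one _
  · rw [div_mul_eq_mul_div, Complex.conj_mul', sq, mul_self_div_self]

variable {d : ℕ} {T : Tr d} {P : Par d} {m : Mix (SI d)} {k : m.Ω → Option (Fin d) → T.A}
  {κ h : ℝ} {t al be Q cc : T.P → ℝ} {K e : ℝ}

theorem sig (hURP : S_URP) (G : P.Gd T m k κ h t al be Q cc K e) {c : T.P} (hc : c ≠ T.root)
    (hi : T.inner c) {H : (Fin 2 → ℝ) → ℂ} (hH : MB 1 H) {j : Fin d} {σ : Equiv.Perm (Fin d)}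
    (hσ : σ j = T.up c) :
    ‖(∫ y, H (P.ed j y) * (Complex.exp (Complex.I * (t c * P.val y none : ℝ)) *
        ∏ i ∈ univ.erase j, P.ub T m k κ h c (T.nb c (σ i)) (P.ed i y)) *
          (m.den (vs d κ h) y : ℝ)) - (∏ i ∈ univ.erase (T.up c), cc (T.nb c i) : ℝ) *
      ∫ y, H (P.ed j y) * P.gE (be c) (al c) (Q c) (P.ed j y) * (m.den (vs d κ h) y : ℝ)‖ ≤
      d * ∑ i ∈ univ.erase (T.up c), P.er T m k κ h al be Q cc c (T.nb c i) + e := by
  have hv := EPx.vs_pos d G.k0 G.h0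
  have hne : ∀ i ∈ univ.erase (T.up c), T.nb c i ≠ T.root := fun i hi' =>
    T.ch_ne c i hi (T.dep_ch c hi hc i (ne_of_mem_erase hi'))
  have hne' : ∀ i ∈ univ.erase j, T.nb c (σ i) ≠ T.root := fun i hi' => hne _ (by
    simpa [← hσ] using hi')
  have hK : 0 ≤ K := (abs_nonneg _).trans (G.bt c)
  have hΨ := hH.comp (P.ed_meas j)
  have a1 := hURP d P T m k κ h t al be Q cc K e c (fun i => T.nb c (σ i)) (univ.erase j) _ G
    hne' hΨ
  set τ : Fin d → ℝ := fun i => if i ∈ univ.erase j then al (T.nb c (σ i)) else 0 with hτ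
  have hτj : τ j = 0 := by simp [hτ]
  have t1 : ∑ i, τ i = ∑ i ∈ univ.erase (T.up c), al (T.nb c i) := by
    rw [hτ, sum_ite_mem, univ_inter]
    exact sum_sig hσ fun i => al (T.nb c i)
  have t2 : ∑ i, τ i ^ 2 = ∑ i ∈ univ.erase (T.up c), al (T.nb c i) ^ 2 := by
    simp only [hτ, ite_pow, zero_pow two_ne_zero]
    rw [sum_ite_mem, univ_inter]
    exact sum_sig hσ fun i => al (T.nb c i) ^ 2
  rw [sum_sig hσ fun i => be (T.nb c i), sum_sig hσ fun i => Q (T.nb c i),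
    prod_sig hσ fun i => cc (T.nb c i),
    sum_sig hσ fun i => P.er T m k κ h al be Q cc c (T.nb c i)] at a1
  have a2 := G.ce j (t c + ∑ i ∈ univ.erase (T.up c), be (T.nb c i)) τ H hτj (by
    refine (abs_add_le _ _).trans ?_
    have b1 := (abs_sum_le_sum_abs (fun i => be (T.nb c i)) _).trans
      (sum_le_card_nsmul _ _ K fun i hi' => (G.bd _ (hne i hi')).2.1)
    have b2 : (#(univ.erase (T.up c)) : ℝ) ≤ d := by
      exact_mod_cast (card_le_univ _).trans_eq (Fintype.card_fin d)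
    rw [nsmul_eq_mul] at b1
    nlinarith [G.bt c]) (fun i => by
    have : |τ i| ≤ K := by
      simp only [hτ]
      split_ifs with h1
      · exact (G.bd _ (hne' i h1)).1
      · simpa using hK
    nlinarith [Nat.cast_nonneg (α := ℝ) d]) hH
  obtain ⟨r1, r2, r3, -⟩ := (G.rc c hc).2 hi
  have r4 : Q c = ∑ i ∈ univ.erase (T.up c), Q (T.nb c i) + cv d P.lam τ := by
    rw [r3, cv, t1, t2]
  rw [t1, ← r1, ← r2] at a2
  simp only [mul_sub, sub_mul] at a2
  rw [integral_sub ((hΨ.mul1 (P.MB_ch _ _)).intb (m.den_intb hv))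
    ((hΨ.mul1 ((P.MB_gE _ _ (P.cv_nonneg hτj)).comp (P.ed_meas j))).intb (m.den_intb hv))] at a2
  have a3 : ∫ y, H (P.ed j y) * P.gE (be c) (al c) (Q c) (P.ed j y) * (m.den (vs d κ h) y : ℝ) =
      (exp (-(∑ i ∈ univ.erase (T.up c), Q (T.nb c i)) / 2) : ℝ) * ∫ y, H (P.ed j y) *
        P.gE (be c) (al c) (cv d P.lam τ) (P.ed j y) * (m.den (vs d κ h) y : ℝ) := by
    rw [← integral_const_mul]
    refine integral_congr_ae (ae_of_all _ fun y => ?_)
    simp only [Par.gE, r4, neg_add, add_div, exp_add, Complex.ofReal_mul]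
    ring
  have a4 : ‖(((∏ i ∈ univ.erase (T.up c), cc (T.nb c i)) *
      exp (-(∑ i ∈ univ.erase (T.up c), Q (T.nb c i)) / 2) : ℝ) : ℂ)‖ ≤ 1 := by
    have b1 : 0 ≤ ∑ i ∈ univ.erase (T.up c), Q (T.nb c i) :=
      sum_nonneg fun i hi' => (G.bd _ (hne i hi')).2.2.1
    have b2 := prod_nonneg fun i hi' => (G.bd _ (hne i hi')).2.2.2.1
    rw [Complex.norm_real, norm_eq_abs, abs_of_nonneg (by positivity)]
    exact mul_le_one₀ (prod_le_one (fun i hi' => (G.bd _ (hne i hi')).2.2.2.1)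
      fun i hi' => (G.bd _ (hne i hi')).2.2.2.2) (exp_pos _).le (exp_le_one_iff.2 (by linarith))
  rw [a3, ← mul_assoc, ← Complex.ofReal_mul]
  refine (norm_sub_le_norm_sub_add_norm_sub _ _ _).trans (add_le_add a1 ?_)
  rw [← mul_sub, norm_mul]
  exact (mul_le_of_le_one_left (norm_nonneg _) a4).trans a2

theorem one (hUQB : S_UQB) (hURP : S_URP) (G : P.Gd T m k κ h t al be Q cc K e) (he : 0 ≤ e)
    {c : T.P} (hc : c ≠ T.root) {H : (Fin 2 → ℝ) → ℂ} (hH : MB 1 H) (j : Fin d) :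
    ‖(∫ y, H (P.ed j y) * (∑ b, (ind ((b none).1 = c ∧ (b (some j)).1 = T.par c) : ℝ) *
      z4 (b none).2 * (P.Qd T m k κ h t b y : ℝ)) * (m.den (vs d κ h) y : ℝ)) -
      cc c / Fintype.card T.P ^ 2 *
      ∫ y, H (P.ed j y) * P.gE (be c) (al c) (Q c) (P.ed j y) * (m.den (vs d κ h) y : ℝ)‖ ≤
      (d - 1).factorial * (d + 1) * (e + ind (T.inner c) *
        ∑ i ∈ univ.erase (T.up c), P.er T m k κ h al be Q cc c (T.nb c i)) := by
  have hv := EPx.vs_pos d G.k0 G.h0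
  have hn := T.card_pos
  have hn' : (Fintype.card T.P : ℂ) ≠ 0 := by exact_mod_cast (by linarith : (Fintype.card T.P : ℝ) ≠ 0)
  have hE : 0 ≤ ∑ i ∈ univ.erase (T.up c), P.er T m k κ h al be Q cc c (T.nb c i) :=
    sum_nonneg fun i _ => P.er_nonneg T m k G.k0 G.h0 _ _ _ _ _ _
  by_cases hi : T.inner c
  · simp only [fun y => (hUQB d P T m k κ h t y G.k0 G.h0).2.2.1 j c hi hc]
    rw [ind_pos hi, one_mul]
    generalize hEE : ∑ i ∈ univ.erase (T.up c), P.er T m k κ h al be Q cc c (T.nb c i) = E at hE ⊢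
    have hΨ := hH.comp (P.ed_meas j)
    have i1 : ∀ σ : Equiv.Perm (Fin d), Integrable fun y => H (P.ed j y) *
        (Complex.exp (Complex.I * (t c * P.val y none : ℝ)) *
        ∏ i ∈ univ.erase j, P.ub T m k κ h c (T.nb c (σ i)) (P.ed i y)) *
          (m.den (vs d κ h) y : ℝ) := fun σ =>
      (hΨ.mul1 ((MB.eI ((P.PG_val none).cmul _).1).mul1 (MB.prod _ fun i _ =>
        (P.MB_ub T m k G.k0 G.h0 _ _).comp (P.ed_meas i)))).intb (m.den_intb hv)
    have e1 : ((cc c : ℂ) / Fintype.card T.P ^ 2) = ((d - 1).factorial : ℂ) *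
        (∏ i ∈ univ.erase (T.up c), cc (T.nb c i) : ℝ) / (4 * Fintype.card T.P ^ (d + 1)) := by
      have : d + 1 = d - 1 + 2 := by have := P.hd; omega
      rw [((G.rc c hc).2 hi).2.2.2, this, pow_add]
      push_cast
      field_simp
    simp only [← mul_div_assoc, div_mul_eq_mul_div, mul_sum, sum_mul]
    rw [integral_div, integral_finsetSum _ fun σ _ => i1 σ, ← div_mul_eq_mul_div, e1,
      div_mul_eq_mul_div, ← sub_div, mul_assoc, ← card_fib j (T.up c), ← nsmul_eq_mul, ← sum_const,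
      ← sum_sub_distrib, norm_div]
    have a1 := (norm_sum_le _ _).trans (sum_le_card_nsmul
      (univ.filter fun σ : Equiv.Perm (Fin d) => σ j = T.up c) _ _ fun σ hσ =>
        sig hURP G hc hi hH (mem_filter.1 hσ).2)
    have a2 : (1 : ℝ) ≤ ‖(4 * Fintype.card T.P ^ (d + 1) : ℂ)‖ := by
      rw [norm_mul, norm_pow, Complex.norm_natCast]
      have := one_le_pow₀ (n := d + 1) hn
      simp only [Complex.norm_ofNat]
      linarith
    refine (div_le_self (norm_nonneg _) a2).trans (a1.trans ?_)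
    rw [nsmul_eq_mul, mul_assoc, hEE]
    refine mul_le_mul_of_nonneg_left ?_ (Nat.cast_nonneg _)
    nlinarith [Nat.cast_nonneg (α := ℝ) d]
  · obtain ⟨r1, r2, r3, r4⟩ := (G.rc c hc).1 hi
    simp only [fun y => (hUQB d P T m k κ h t y G.k0 G.h0).2.1 j c (T.par c) hi]
    rw [← integral_const_mul, sub_eq_zero.2, norm_zero, ind_neg hi]
    · positivity
    refine integral_congr_ae (ae_of_all _ fun y => ?_)
    simp only [P.gE_ed, r1, r2, r3, r4, zero_mul, zero_add, neg_zero, zero_div, exp_zero]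
    push_cast
    ring

end URSx

theorem p_URS (hUQB : S_UQB) (hURP : S_URP) (hUJ2 : S_UJ2) :
    S_URS := by
  intro d T
  refine ⟨Fintype.card T.P ^ 2 * (2 + (d - 1).factorial * (d + 1)), by positivity,
    fun P m k κ h t al be Q cc K e G c hc => ?_⟩
  have hv := P.ve_pos G.k0 G.h0
  have hn := T.card_pos
  have hn' : (Fintype.card T.P : ℂ) ≠ 0 := by exact_mod_cast (by linarith : (Fintype.card T.P : ℝ) ≠ 0)
  have hd : (0 : ℝ) < d := by linarith [P.d3]
  have hd' : (d : ℂ) ≠ 0 := by exact_mod_cast hd.ne'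
  have hu := P.MB_ub T m k G.k0 G.h0 (T.par c) c
  have hQ := (G.bd c hc).2.2.1
  have hg := P.MB_gE (al c) (be c) hQ
  obtain ⟨H, hH, hf⟩ := URSx.phase (f := fun z => P.ub T m k κ h (T.par c) c z -
    cc c * P.gE (al c) (be c) (Q c) z) (hu.1.sub (hg.1.const_mul (cc c : ℂ)))
  have a1 := hUJ2 d P T m k κ h t e (T.par c) c H G.sym G.k0 G.h0 G.tv hH
  have he : 0 ≤ e := by linarith [(norm_nonneg _).trans a1]
  have hR := hH.comp R_meas
  have a2 := fun j => URSx.one hUQB hURP G he hc hR j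
  have a3 := P.int_edge m G.k0 G.h0 (hR.mul1 (P.MB_gE (be c) (al c) hQ))
  rw [← URSx.int_R] at a3
  simp only [PMx.RR, P.gE_R, PMx.den_R G.sym.sym] at a3
  have a4 : ((P.er T m k κ h al be Q cc (T.par c) c : ℝ) : ℂ) =
      (∫ z, H z * P.ub T m k κ h (T.par c) c z * ((P.edge m).den (P.ve κ h) z : ℝ)) - cc c *
        ∫ z, H z * P.gE (al c) (be c) (Q c) z * ((P.edge m).den (P.ve κ h) z : ℝ) := by
    rw [← integral_const_mul, ← integral_sub ((hH.mul1 hu).intb (Mix.den_intb _ hv))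
      (((hH.mul1 hg).intb (Mix.den_intb _ hv)).const_mul _), Par.er, Mix.Ex, ← integral_complex_ofReal]
    refine integral_congr_ae (ae_of_all _ fun z => ?_)
    simp only [Complex.ofReal_mul, ← hf z]
    ring
  have a5 := (norm_sum_le _ _).trans (sum_le_card_nsmul univ _ _ fun j _ => a2 j)
  rw [sum_sub_distrib, ← mul_sum, a3, card_univ, Fintype.card_fin, nsmul_eq_mul] at a5
  have hE : 0 ≤ ind (T.inner c) *
      ∑ i ∈ univ.erase (T.up c), P.er T m k κ h al be Q cc c (T.nb c i) :=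
    mul_nonneg (ind_nonneg _) (sum_nonneg fun i _ => P.er_nonneg T m k G.k0 G.h0 _ _ _ _ _ _)
  generalize ind (T.inner c) *
    ∑ i ∈ univ.erase (T.up c), P.er T m k κ h al be Q cc c (T.nb c i) = E at a5 hE ⊢
  generalize (∫ z, H z * P.ub T m k κ h (T.par c) c z * ((P.edge m).den (P.ve κ h) z : ℝ)) = U
    at a1 a4
  generalize (∫ z, H z * P.gE (al c) (be c) (Q c) z * ((P.edge m).den (P.ve κ h) z : ℝ)) = Z
    at a4 a5
  generalize (∑ j, ∫ y, H (PMx.R (P.ed j y)) *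
    (∑ b, (ind ((b none).1 = c ∧ (b (some j)).1 = T.par c) : ℝ) *
      z4 (b none).2 * (P.Qd T m k κ h t b y : ℝ)) * (m.den (vs d κ h) y : ℝ)) = X at a1 a5
  have a6 : ((P.er T m k κ h al be Q cc (T.par c) c : ℝ) : ℂ) = Fintype.card T.P ^ 2 *
      ((U / Fintype.card T.P ^ 2 - X / d) + (X - cc c / Fintype.card T.P ^ 2 * (d * Z)) / d) := by
    rw [a4]
    field_simp
    ring
  have a7 := congrArg norm a6
  rw [Complex.norm_real, norm_eq_abs, norm_mul, norm_pow, Complex.norm_natCast] at a7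
  rw [mul_assoc]
  refine (le_abs_self _).trans (a7.trans_le (mul_le_mul_of_nonneg_left
    ((norm_add_le _ _).trans ?_) (by positivity)))
  rw [norm_div, Complex.norm_natCast]
  have a8 := (div_le_iff₀' hd).2 a5
  linarith

end Pool.Agent.P.MP_6b977f_mp.RG
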